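import Pool.Agent.Lib_helper50.A56.Inv
/-!
# MP_a55cb8, cost layer, block C10 (helper13): `chain_cost`
-/

open Matrix Finset

namespace A56

section

variable {mm : ℕ → ℕ} (Φ : Lib mm)

/- C10_BEGIN -/

/-! ### sizes of compressed operators -/

theorem C10_sum {n : ℕ} {S : SDT.den} (h : SDOK n S) (G F : ℕ → ℕ)
    (hG : ∀ p < S.1, ∀ i < n, S.2.1 i = p + 1 → G p ≤ F i) :
    ∑ p ∈ range S.1, G p ≤ ∑ i ∈ range n, F i := by
  obtain ⟨-, -, h3⟩ := h
  choose! f hf using h3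
  calc ∑ p ∈ range S.1, G p ≤ ∑ p ∈ range S.1, F (f p) :=
        sum_le_sum fun p hp => hG p (mem_range.1 hp) (f p) (hf p (mem_range.1 hp)).1
          (hf p (mem_range.1 hp)).2
    _ = ∑ i ∈ (range S.1).image f, F i := by
        refine (sum_image fun p hp q hq e => ?_).symm
        have h1 := (hf p (mem_range.1 hp)).2
        have h2 := (hf q (mem_range.1 hq)).2
        rw [e] at h1
        exact Nat.succ_injective (h1.symm.trans h2)
    _ ≤ _ := by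
        refine sum_le_sum_of_subset (image_subset_iff.2 fun p hp => ?_)
        exact mem_range.2 (hf p (mem_range.1 hp)).1

theorem C10_row {a c : ℕ} {M : CooT.den} (h : CooOK a c M) : M.1 = ∑ p ∈ range a, rowCnt M p := by
  have h1 := card_eq_sum_card_fiberwise (s := range M.1) (t := range a) (f := fun e => M.2.1 e)
    (fun e he => by
      have := (h e (mem_range.1 (by simpa using he))).1
      simpa using this)
  rw [card_range] at h1
  exact h1

theorem C10_col {a c : ℕ} {M : CooT.den} (h : CooOK a c M) : M.1 = ∑ p ∈ range c, colCnt M p := by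
  have h1 := card_eq_sum_card_fiberwise (s := range M.1) (t := range c) (f := fun e => M.2.2.1 e)
    (fun e he => by
      have := (h e (mem_range.1 (by simpa using he))).2
      simpa using this)
  rw [card_range] at h1
  exact h1

theorem C10_full (n : ℕ) : SDOK n (sdFull n) := by
  have key : ∀ i < n, (sdFull n).2.1 i = i + 1 := fun i hi => tabV_lt hi
  refine ⟨fun i hi => ?_, fun i hi i' hi' h _ => ?_, fun p hp => ⟨p, hp, key p hp⟩⟩
  · rw [key i hi]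
    exact hi
  · rw [key i hi, key i' hi'] at h
    exact Nat.succ_injective h

theorem C10_mkOp_size {n : ℕ} {E : OpT.den} {S T : SDT.den} (hE : OpOK E) (hd : E.1 = (n, n))
    (hS : SDOK n S) (hT : SDOK n T) : opSize (Φ.mkOp (E, (S, T))) ≤ opSize E := by
  obtain ⟨hok, hdim, hmid, -, -, hrow, hcol⟩ := Φ.mkOp_eq E S T n hE hd hS hT
  set M := Φ.mkOp (E, (S, T)) with hM
  obtain ⟨k1, k2, k3⟩ := hok
  obtain ⟨e1, e2, e3⟩ := hE
  have hM1 : M.1.1 = S.1 := by rw [hdim]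
  have hM2 : M.1.2 = T.1 := by rw [hdim]
  have hE1 : E.1.1 = n := by rw [hd]
  have hE2 : E.1.2 = n := by rw [hd]
  have s1 : S.1 ≤ n := by
    have := C10_sum hS (fun _ => 1) (fun _ => 1) fun _ _ _ _ _ => le_rfl
    simpa using this
  have s2 : T.1 ≤ n := by
    have := C10_sum hT (fun _ => 1) (fun _ => 1) fun _ _ _ _ _ => le_rfl
    simpa using this
  have a1 : M.2.2.1.1.1 ≤ E.2.2.1.1.1 := by
    rw [C10_row k1, C10_row e1, hM1, hE1]
    refine C10_sum hS _ _ fun p hp i hi h => ?_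
    rw [(hrow p hp i hi h).2]
    exact card_le_card fun e he => by
      rw [mem_filter] at he ⊢
      exact ⟨he.1, he.2.1⟩
  have a2 : M.2.2.1.2.1 ≤ E.2.2.1.2.1 := by
    rw [C10_row k2, C10_row e2, hM1, hE1]
    refine C10_sum hS _ _ fun p hp i hi h => ?_
    rw [(hrow p hp i hi h).1]
  have a3 : M.2.2.2.1.1 ≤ E.2.2.2.1.1 := by
    rw [C10_col k3, C10_col e3, hM2, hE2]
    refine C10_sum hT _ _ fun p hp i hi h => ?_
    rw [(hcol p hp i hi h).1]
  unfold opSize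
  rw [hM1, hM2, hE1, hE2, hmid]
  exact Nat.add_le_add (Nat.add_le_add (Nat.add_le_add (Nat.add_le_add (Nat.add_le_add s1 s2) a1)
    a2) a3) le_rfl

/-! ### the parameters -/

theorem C10_par {c : Cst} {x : InT.den} {g : GT.den} (h : g.1.1 = parN c x) :
    gP g 0 = x.1.1 ∧ gP g 1 = x.1.2 ∧ gP g 2 = x.2.1 ∧ gP g 5 = pl c x ∧ gP g 10 = pb3 c x ∧
      gP g 11 = pk3 c x ∧ gP g 12 = ps c x ∧ gP g 14 = pK c x ∧ gP g 16 = pdeg1 c x ∧
      gP g 17 = pdegK c x ∧ gP g 18 = pl c x ^ 3 ∧ gP g 20 = pBd c x ∧ gP g 21 = pbb c x ∧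
      gP g 24 = phcap c x ∧ gP g 25 = pmd c x ∧ gP g 26 = pK c x ^ pbb c x := by
  unfold gP
  rw [h]
  exact ⟨rfl, rfl, rfl, rfl, rfl, rfl, rfl, rfl, rfl, rfl, rfl, rfl, rfl, rfl, rfl, rfl⟩

theorem C10_lt_two_pow (m : ℕ) : m < 2 ^ (Nat.log2 m + 1) := Nat.lt_log2_self

theorem C10_two_pow_le (m : ℕ) (hm : m ≠ 0) : 2 ^ (Nat.log2 m + 1) ≤ 2 * m := by
  have := Nat.log2_self_le hm
  rw [pow_succ]
  omega

theorem C10_bb (c : Cst) (x : InT.den) : pbb c x ≤ pl c x := by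
  have h1 : pbA c x ≤ pl c x := by
    unfold pbA
    calc _ ≤ ∑ b ∈ range (pl c x), 1 := sum_le_sum fun b _ => by split <;> omega
      _ = pl c x := by simp
  have h2 : pbB c x ≤ pl c x := by
    unfold pbB
    calc _ ≤ ∑ b ∈ range (pl c x), 1 := sum_le_sum fun b _ => by
          split
          · split <;> omega
          · omega
      _ = pl c x := by simp
  unfold pbb
  split
  · exact h2
  · exact h1

theorem C10_l (c : Cst) (hc : 1000 ≤ c.c1) (x : InT.den) : 1000 ≤ pl c x ∧ c.c1 ≤ pl c x := by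
  unfold pl
  omega

theorem C10_deg1 (c : Cst) (hc : 1000 ≤ c.c1) (x : InT.den) : pdeg1 c x + 2 ≤ pl c x ^ 8 := by
  obtain ⟨hl, -⟩ := C10_l c hc x
  unfold pdeg1 pt
  set l := pl c x
  have h1 : 1 ≤ l ^ 5 := Nat.one_le_pow _ _ (by omega)
  have h2 : 1 ≤ l ^ 6 := Nat.one_le_pow _ _ (by omega)
  calc l * (2 * l ^ 5 + 2) + 2 ≤ l * (4 * l ^ 5) + 2 := by gcongr; omega
    _ = 4 * l ^ 6 + 2 := by ring
    _ ≤ 6 * l ^ 6 := by omega
    _ ≤ l ^ 2 * l ^ 6 := by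
        have : 6 ≤ l ^ 2 := by nlinarith
        exact Nat.mul_le_mul_right _ this
    _ = l ^ 8 := by ring

theorem C10_two_tau (c : Cst) (hc : 1000 ≤ c.c1) (x : InT.den) :
    2 ^ ptau c x ≤ pl c x ^ c.ct := by
  obtain ⟨hl, -⟩ := C10_l c hc x
  unfold ptau
  rw [mul_comm, pow_mul]
  exact Nat.pow_le_pow_left (Nat.log2_self_le (by omega)) _

theorem C10_degK (c : Cst) (hc : 1000 ≤ c.c1) (x : InT.den) :
    pdegK c x + 2 ≤ pl c x ^ (c.ct + 8) := by
  obtain ⟨hl, -⟩ := C10_l c hc x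
  have h0 := C10_two_tau c hc x
  unfold pdegK pt
  set l := pl c x
  have h1 : 1 ≤ l ^ 5 := Nat.one_le_pow _ _ (by omega)
  have h2 : 1 ≤ l ^ (c.ct + 6) := Nat.one_le_pow _ _ (by omega)
  calc l * 2 ^ ptau c x * (2 * l ^ 5 + 2) + 2 ≤ l * l ^ c.ct * (4 * l ^ 5) + 2 := by
        gcongr; omega
    _ = 4 * l ^ (c.ct + 6) + 2 := by ring
    _ ≤ 6 * l ^ (c.ct + 6) := by omega
    _ ≤ l ^ 2 * l ^ (c.ct + 6) := by
        have : 6 ≤ l ^ 2 := by nlinarith
        exact Nat.mul_le_mul_right _ this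
    _ = l ^ (c.ct + 8) := by ring

theorem C10_rho (c : Cst) (hc : 1000 ≤ c.c1) (C : ℕ) (hC2 : C ≤ c.c1) (x : InT.den) :
    rho0 C c x ≤ pl c x ^ (c.ct + 18) := by
  obtain ⟨hl, hl2⟩ := C10_l c hc x
  have h1 := C10_deg1 c hc x
  have h2 := C10_degK c hc x
  unfold rho0
  calc C ^ 2 * (pdegK c x + 2) * (pdeg1 c x + 2)
      ≤ pl c x ^ 2 * pl c x ^ (c.ct + 8) * pl c x ^ 8 := by
        gcongr
        omega
    _ = pl c x ^ (c.ct + 18) := by ring

theorem C10_k3 (c : Cst) (hc : 1000 ≤ c.c1) (x : InT.den) (k : ℕ) (hx : x.1.2 = k)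
    (hk : 1 ≤ k) : pk3 c x + 1 ≤ pl c x ^ 18 * k := by
  obtain ⟨hl, -⟩ := C10_l c hc x
  set l := pl c x with hldef
  have hl6 : 1 ≤ l ^ 6 := Nat.one_le_pow _ _ (by omega)
  have b1 : 2 ^ pb1 c x ≤ l ^ 7 * k := by
    unfold pb1
    rw [hx]
    have h := C10_two_pow_le (16 * (k + 1) * l ^ 6)
      (Nat.mul_pos (Nat.mul_pos (by norm_num) (by omega)) hl6).ne'
    refine h.trans ?_
    calc 2 * (16 * (k + 1) * l ^ 6) ≤ 2 * (16 * (2 * k) * l ^ 6) := by gcongr; omega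
      _ = 64 * (l ^ 6 * k) := by ring
      _ ≤ l * (l ^ 6 * k) := Nat.mul_le_mul_right _ (by omega)
      _ = l ^ 7 * k := by ring
  have m1 : pm1 c x ≤ l ^ 8 * k := by
    unfold pm1
    calc l * 2 ^ pb1 c x ≤ l * (l ^ 7 * k) := Nat.mul_le_mul_left _ b1
      _ = l ^ 8 * k := by ring
  have kk : pkk c x + 1 ≤ l ^ 9 * k := by
    unfold pkk
    rw [hx]
    have h8 : 1 ≤ l ^ 8 := Nat.one_le_pow _ _ (by omega)
    have h9 : k ≤ l ^ 8 * k := Nat.le_mul_of_pos_left _ h8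
    calc k + pm1 c x + 1 ≤ l ^ 8 * k + l ^ 8 * k + l ^ 8 * k := by omega
      _ = 3 * (l ^ 8 * k) := by ring
      _ ≤ l * (l ^ 8 * k) := Nat.mul_le_mul_right _ (by omega)
      _ = l ^ 9 * k := by ring
  have b3 : 2 ^ pb3 c x ≤ l ^ 16 * k := by
    unfold pb3
    have h := C10_two_pow_le (16 * (pkk c x + 1) * l ^ 6)
      (Nat.mul_pos (Nat.mul_pos (by norm_num) (by omega)) hl6).ne'
    refine h.trans ?_
    calc 2 * (16 * (pkk c x + 1) * l ^ 6) ≤ 2 * (16 * (l ^ 9 * k) * l ^ 6) := by gcongr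
      _ = 32 * (l ^ 15 * k) := by ring
      _ ≤ l * (l ^ 15 * k) := Nat.mul_le_mul_right _ (by omega)
      _ = l ^ 16 * k := by ring
  unfold pk3
  have h17 : 1 ≤ l ^ 17 * k := Nat.mul_pos (Nat.pow_pos (by omega)) hk
  calc l * 2 ^ pb3 c x + 1 ≤ l * (l ^ 16 * k) + l ^ 17 * k := by gcongr
    _ = 2 * (l ^ 17 * k) := by ring
    _ ≤ l * (l ^ 17 * k) := Nat.mul_le_mul_right _ (by omega)
    _ = l ^ 18 * k := by ring

/-! ### the recursion -/

theorem C10_size {ρ K k N Bd bb e a : ℕ} (h1 : 1 ≤ ρ) (hρ : ρ ≤ K) (he : e ≤ bb)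
    (h : a * K ^ e ≤ Bd * (k ^ 2 * K ^ e + N)) : ρ ^ e * a ≤ Bd * (ρ ^ bb * k ^ 2 + N) := by
  have hK : 0 < K ^ e := Nat.pow_pos (by omega)
  have h2 : ρ ^ e ≤ K ^ e := Nat.pow_le_pow_left hρ e
  have h3 : ρ ^ e ≤ ρ ^ bb := Nat.pow_le_pow_right h1 he
  have h4 : ρ ^ e * a ≤ Bd * (ρ ^ e * k ^ 2 + N) := by
    refine Nat.le_of_mul_le_mul_right ?_ hK
    calc ρ ^ e * a * K ^ e = ρ ^ e * (a * K ^ e) := by ring
      _ ≤ ρ ^ e * (Bd * (k ^ 2 * K ^ e + N)) := Nat.mul_le_mul_left _ h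
      _ = Bd * (ρ ^ e * k ^ 2 * K ^ e) + Bd * N * ρ ^ e := by ring
      _ ≤ Bd * (ρ ^ e * k ^ 2 * K ^ e) + Bd * N * K ^ e :=
          Nat.add_le_add_left (Nat.mul_le_mul_left _ h2) _
      _ = Bd * (ρ ^ e * k ^ 2 + N) * K ^ e := by ring
  refine h4.trans (Nat.mul_le_mul_left _ (Nat.add_le_add_right ?_ _))
  exact Nat.mul_le_mul_right _ h3

theorem C10_rec {ρ K k N Bd bb L C d1 dK B0 U : ℕ} {cost a : ℕ → ℕ} (hC : 1 ≤ C)
    (hρ0 : ρ = C ^ 2 * (dK + 2) * (d1 + 2)) (hρ : ρ ≤ K) (hL : L ≤ bb)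
    (hU : U = ρ ^ bb * k ^ 2 + N)
    (h1 : ∀ m < L, cost (2 * m + 1) = C * (d1 + 2) * (cost (2 * m) + a (2 * m) + a (2 * m + 1)))
    (h2 : ∀ m < L, cost (2 * m + 2) =
      C * (dK + 2) * (cost (2 * m + 1) + a (2 * m + 1) + a (2 * m + 2)))
    (h3 : ∀ m ≤ L, a (2 * m) * K ^ (L - m) ≤ Bd * (k ^ 2 * K ^ (L - m) + N))
    (h4 : ∀ m < L, a (2 * m + 1) * K ^ (L - (m + 1)) ≤ Bd * (k ^ 2 * K ^ (L - (m + 1)) + N))
    (h0 : ρ ^ L * cost 0 ≤ B0 * U) : cost (2 * L) ≤ (B0 + 4 * L * ρ * Bd) * U := by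
  have hρ1 : 1 ≤ ρ := by
    rw [hρ0]
    exact Nat.mul_pos (Nat.mul_pos (Nat.pow_pos hC) (by omega)) (by omega)
  have key : ∀ m, m ≤ L → ρ ^ (L - m) * cost (2 * m) ≤ (B0 + 4 * m * ρ * Bd) * U := by
    intro m
    induction m with
    | zero => intro _; simpa using h0
    | succ m ih =>
      intro hm
      have hmL : m < L := hm
      have ih' := ih hmL.le
      have q1 : ρ ^ (L - m) * a (2 * m) ≤ Bd * U := by
        rw [hU]
        exact C10_size hρ1 hρ (by omega) (h3 m hmL.le)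
      have q2 : ρ ^ (L - (m + 1)) * a (2 * m + 1) ≤ Bd * U := by
        rw [hU]
        exact C10_size hρ1 hρ (by omega) (h4 m hmL)
      have q3 : ρ ^ (L - (m + 1)) * a (2 * m + 2) ≤ Bd * U := by
        rw [hU]
        exact C10_size hρ1 hρ (by omega) (h3 (m + 1) hm)
      have hcost : cost (2 * (m + 1)) ≤
          ρ * (cost (2 * m) + a (2 * m) + 2 * a (2 * m + 1) + a (2 * m + 2)) := by
        have e1 : cost (2 * (m + 1)) = C * (dK + 2) * (C * (d1 + 2) *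
            (cost (2 * m) + a (2 * m) + a (2 * m + 1)) + a (2 * m + 1) + a (2 * m + 2)) := by
          rw [← h1 m hmL, ← h2 m hmL]
          rfl
        rw [e1]
        have e2 : C * (dK + 2) ≤ ρ := by
          rw [hρ0]
          calc C * (dK + 2) = C * (dK + 2) * 1 := by ring
            _ ≤ C * (dK + 2) * (C * (d1 + 2)) :=
                Nat.mul_le_mul_left _ (Nat.mul_pos hC (by omega))
            _ = C ^ 2 * (dK + 2) * (d1 + 2) := by ring
        calc C * (dK + 2) * (C * (d1 + 2) *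
            (cost (2 * m) + a (2 * m) + a (2 * m + 1)) + a (2 * m + 1) + a (2 * m + 2))
            = ρ * (cost (2 * m) + a (2 * m) + a (2 * m + 1)) +
              C * (dK + 2) * (a (2 * m + 1) + a (2 * m + 2)) := by rw [hρ0]; ring
          _ ≤ ρ * (cost (2 * m) + a (2 * m) + a (2 * m + 1)) +
              ρ * (a (2 * m + 1) + a (2 * m + 2)) :=
              Nat.add_le_add_left (Nat.mul_le_mul_right _ e2) _
          _ = _ := by ring
      have hpow : ρ ^ (L - m) = ρ ^ (L - (m + 1)) * ρ := by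
        rw [← pow_succ]
        congr 1
        omega
      calc ρ ^ (L - (m + 1)) * cost (2 * (m + 1))
          ≤ ρ ^ (L - (m + 1)) *
            (ρ * (cost (2 * m) + a (2 * m) + 2 * a (2 * m + 1) + a (2 * m + 2))) :=
            Nat.mul_le_mul_left _ hcost
        _ = ρ ^ (L - m) * cost (2 * m) + ρ ^ (L - m) * a (2 * m) +
            2 * ρ * (ρ ^ (L - (m + 1)) * a (2 * m + 1)) +
            ρ * (ρ ^ (L - (m + 1)) * a (2 * m + 2)) := by
            rw [hpow]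
            ring
        _ ≤ (B0 + 4 * m * ρ * Bd) * U + ρ * (Bd * U) + 2 * ρ * (Bd * U) + ρ * (Bd * U) := by
            have q1' : ρ ^ (L - m) * a (2 * m) ≤ ρ * (Bd * U) :=
              q1.trans (Nat.le_mul_of_pos_left _ hρ1)
            exact Nat.add_le_add (Nat.add_le_add (Nat.add_le_add ih' q1')
              (Nat.mul_le_mul_left _ q2)) (Nat.mul_le_mul_left _ q3)
        _ = (B0 + 4 * (m + 1) * ρ * Bd) * U := by ring
  have := key L le_rfl
  simpa using this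

/-! ### the chain data -/

/-- the number of links below the top -/
def C10_L (g : GT.den) (j : ℕ) : ℕ := j - lev0 g j

section

variable (g : GT.den) (j : ℕ) (D F : ℕ → OpT.den) (SE : OpT.den) (base : BaseT.den)

/-- the operators of the chain -/
def C10_of : ℕ → FOpT.den := fun r =>
  if r < topIx g j - 1 then
    (if r = 2 * (r / 2) then (0, D (lev0 g j + r / 2)) else (1, F (lev0 g j + (r + 1) / 2)))
  else if r = topIx g j - 1 then (1, SE)
  else if r = topIx g j + 1 then (1, gE g) else (0, gE g)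

/-- the degrees of the chain -/
def C10_df : ℕ → ℕ := fun r =>
  if r = 0 then gP g 16
  else if r = topIx g j + 1 then gP g 17
  else if r < topIx g j - 1 then (if r = 2 * (r / 2) then gP g 17 else gP g 16)
  else gP g 16

theorem C10_asm1 : (asm g j D F SE base).1 = tabV FOpT (topIx g j + 3) (C10_of g j D F SE) := rfl

theorem C10_asm2 : (asm g j D F SE base).2.2.1 = tabV .nat (topIx g j + 3) (C10_df g j) := rfl

theorem C10_ix : topIx g j = 2 * C10_L g j + 2 := rfl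

theorem C10_even {m : ℕ} (hm : m ≤ C10_L g j) :
    ((asm g j D F SE base).1 (2 * m)).2 = D (lev0 g j + m) := by
  have hT := C10_ix g j
  have h1 : 2 * m < topIx g j + 3 := by omega
  have h2 : 2 * m < topIx g j - 1 := by omega
  have h3 : 2 * m = 2 * (2 * m / 2) := by omega
  have h4 : 2 * m / 2 = m := by omega
  rw [C10_asm1, tabV_lt h1, C10_of, if_pos h2, if_pos h3, h4]

theorem C10_odd {m : ℕ} (hm : m < C10_L g j) :
    ((asm g j D F SE base).1 (2 * m + 1)).2 = F (lev0 g j + (m + 1)) := by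
  have hT := C10_ix g j
  have h1 : 2 * m + 1 < topIx g j + 3 := by omega
  have h2 : 2 * m + 1 < topIx g j - 1 := by omega
  have h3 : ¬ 2 * m + 1 = 2 * ((2 * m + 1) / 2) := by omega
  have h4 : (2 * m + 1 + 1) / 2 = m + 1 := by omega
  rw [C10_asm1, tabV_lt h1, C10_of, if_pos h2, if_neg h3, h4]

theorem C10_se : ((asm g j D F SE base).1 (2 * C10_L g j + 1)).2 = SE := by
  have hT := C10_ix g j
  have h1 : 2 * C10_L g j + 1 < topIx g j + 3 := by omega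
  have h2 : ¬ 2 * C10_L g j + 1 < topIx g j - 1 := by omega
  have h3 : 2 * C10_L g j + 1 = topIx g j - 1 := by omega
  rw [C10_asm1, tabV_lt h1, C10_of, if_neg h2, if_pos h3]

theorem C10_top : ((asm g j D F SE base).1 (2 * C10_L g j + 2)).2 = gE g := by
  have hT := C10_ix g j
  have h1 : 2 * C10_L g j + 2 < topIx g j + 3 := by omega
  have h2 : ¬ 2 * C10_L g j + 2 < topIx g j - 1 := by omega
  have h3 : ¬ 2 * C10_L g j + 2 = topIx g j - 1 := by omega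
  have h4 : ¬ 2 * C10_L g j + 2 = topIx g j + 1 := by omega
  rw [C10_asm1, tabV_lt h1, C10_of, if_neg h2, if_neg h3, if_neg h4]

theorem C10_dz : (asm g j D F SE base).2.2.1 0 = gP g 16 := by
  have h1 : 0 < topIx g j + 3 := by omega
  rw [C10_asm2, tabV_lt h1, C10_df, if_pos rfl]

theorem C10_dodd {m : ℕ} (hm : m ≤ C10_L g j) :
    (asm g j D F SE base).2.2.1 (2 * m + 1) = gP g 16 := by
  have hT := C10_ix g j
  have h1 : 2 * m + 1 < topIx g j + 3 := by omega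
  have h2 : ¬ 2 * m + 1 = 0 := by omega
  have h3 : ¬ 2 * m + 1 = topIx g j + 1 := by omega
  have h4 : ¬ 2 * m + 1 = 2 * ((2 * m + 1) / 2) := by omega
  rw [C10_asm2, tabV_lt h1, C10_df, if_neg h2, if_neg h3, if_neg h4]
  split <;> rfl

theorem C10_deven {m : ℕ} (hm : m < C10_L g j) :
    (asm g j D F SE base).2.2.1 (2 * m + 2) = gP g 17 := by
  have hT := C10_ix g j
  have h1 : 2 * m + 2 < topIx g j + 3 := by omega
  have h2 : ¬ 2 * m + 2 = 0 := by omega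
  have h3 : ¬ 2 * m + 2 = topIx g j + 1 := by omega
  have h4 : 2 * m + 2 = 2 * ((2 * m + 2) / 2) := by omega
  have h5 : 2 * m + 2 < topIx g j - 1 := by omega
  rw [C10_asm2, tabV_lt h1, C10_df, if_neg h2, if_neg h3, if_pos h5, if_pos h4]

theorem C10_dtop : (asm g j D F SE base).2.2.1 (2 * C10_L g j + 2) = gP g 16 := by
  have hT := C10_ix g j
  have h1 : 2 * C10_L g j + 2 < topIx g j + 3 := by omega
  have h2 : ¬ 2 * C10_L g j + 2 = 0 := by omega
  have h3 : ¬ 2 * C10_L g j + 2 = topIx g j + 1 := by omega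
  have h5 : ¬ 2 * C10_L g j + 2 < topIx g j - 1 := by omega
  rw [C10_asm2, tabV_lt h1, C10_df, if_neg h2, if_neg h3, if_neg h5]

end

/-- the length of the sketch and the dimensions in the base data -/
theorem C10_baseOf {c : Cst} {x : InT.den} {A0 : CooT.den} {g : GT.den} {j : ℕ} {st : StT.den}
    (w : ℕ → ℕ) (hG : GOK c x A0 g) (hL : Lev Φ g j st) (hC : Chk g j st) :
    (baseOf Φ g j st w).1.1 ≤ pl c x ^ 3 ∧ (baseOf Φ g j st w).1.2 ≤ pk3 c x + 3 * phcap c x ∧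
      (baseOf Φ g j st w).2.1.1 ≤ (pl c x + 1) * opSize (st.2.2.1.1 (lev0 g j)) := by
  obtain ⟨p0, p1, p2, p5, p10, p11, p12, p14, p16, p17, p18, p20, p21, p24, p25, p26⟩ :=
    C10_par hG.hP
  by_cases hmd : gP g 25 = 1
  · have hb : baseOf Φ g j st w = Φ.base3 (((gP g 24, gP g 12), gP g 26), (gLam g (lev0 g j),
        (st.2.2.1.1 (lev0 g j), ((st.2.1.1 (lev0 g j)).2.2.2,
          (st.2.1.2 (lev0 g j)).2.2.2)))) := by
      unfold baseOf
      rw [if_pos hmd]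
    obtain ⟨q1, q2, -⟩ := Φ.base3_shape (gP g 24) (gP g 12) (gP g 26) (gLam g (lev0 g j))
      (st.2.2.1.1 (lev0 g j)) (st.2.1.1 (lev0 g j)).2.2.2 (st.2.1.2 (lev0 g j)).2.2.2
    rw [hb]
    refine ⟨?_, ?_, ?_⟩
    · rw [q1]
      exact Nat.zero_le _
    · rw [q1]
      show 2 * gP g 24 + (st.2.2.1.1 (lev0 g j)).2.1.2 ≤ _
      have h1 : (st.2.2.1.1 (lev0 g j)).2.1.2 ≤ gP g 24 := hC.2.2.1.2.2.2
      have h2 : ∀ a b p : ℕ, a ≤ b → 2 * b + a ≤ p + 3 * b := by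
        intro a b p h
        omega
      rw [← p24]
      exact h2 _ _ _ h1
    · refine q2.trans ?_
      exact Nat.le_mul_of_pos_left _ (Nat.succ_pos _)
  have hbb : baseOf Φ g j st w =
      Φ.base (((gP g 24, gP g 12), (gP g 11, gP g 18)), (gLam g (lev0 g j),
        ((st.2.2.1.1 (lev0 g j), ((st.2.1.1 (lev0 g j)).2.2.2, (st.2.1.2 (lev0 g j)).2.2.2)),
          omOf Φ g j st w))) := by
    unfold baseOf
    rw [if_neg hmd]
  have hle : lev0 g j ≤ j := Nat.sub_le _ _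
  obtain ⟨hS, hT, hD⟩ := hL.2.2.1 _ hle
  have hdim : (gE g).1 = (gP g 0, gP g 0) := by rw [p0]; exact hG.dim
  have hok : OpOK (st.2.2.1.1 (lev0 g j)) := by
    rw [hD]
    exact (Φ.mkOp_eq _ _ _ _ hG.ok hdim hS hT).1
  have hsk := (Φ.sk_eq (opC (st.2.2.1.1 (lev0 g j))) (gP g 5) (gP g 10) w).1
  have hk3 : gP g 11 = gP g 5 * 2 ^ gP g 10 := by
    rw [p11, p5, p10]
    rfl
  have hcoo : CooOK (opC (st.2.2.1.1 (lev0 g j))) (gP g 11) (omOf Φ g j st w) := by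
    intro e he
    obtain ⟨h1, h2⟩ := hsk
    have he' : e < gP g 5 * opC (st.2.2.1.1 (lev0 g j)) := by
      rw [← h1]
      exact he
    have hpos : 0 < opC (st.2.2.1.1 (lev0 g j)) := by
      rcases Nat.eq_zero_or_pos (opC (st.2.2.1.1 (lev0 g j))) with h0 | h0
      · rw [h0, Nat.mul_zero] at he'
        exact absurd he' (Nat.not_lt_zero _)
      · exact h0
    have h3 := h2 (e / opC (st.2.2.1.1 (lev0 g j)))
      ((Nat.div_lt_iff_lt_mul hpos).2 he') (e % opC (st.2.2.1.1 (lev0 g j))) (Nat.mod_lt _ hpos)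
    rw [Nat.div_add_mod'] at h3
    refine ⟨?_, ?_⟩
    · show (Φ.sk (opC (st.2.2.1.1 (lev0 g j)), (gP g 5, (gP g 10, w)))).2.2.1 e < _
      rw [h3.1]
      exact Nat.mod_lt _ hpos
    · show (Φ.sk (opC (st.2.2.1.1 (lev0 g j)), (gP g 5, (gP g 10, w)))).2.1 e < _
      rw [hk3]
      exact h3.2
  have hb1 : gP g 24 ≤ 2 ^ gP g 12 := by
    rw [p24, p12]
    have := C10_lt_two_pow (phcap c x + pm2 c x + pk3 c x)
    unfold ps
    omega
  have hb2 : gP g 11 ≤ 2 ^ gP g 12 := by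
    rw [p11, p12]
    have := C10_lt_two_pow (phcap c x + pm2 c x + pk3 c x)
    unfold ps
    omega
  have h := Φ.base_eq (gP g 24) (gP g 12) (gP g 11) (gP g 18) (gLam g (lev0 g j))
    (st.2.2.1.1 (lev0 g j)) (st.2.1.1 (lev0 g j)).2.2.2 (st.2.1.2 (lev0 g j)).2.2.2
    (omOf Φ g j st w) hC.2.2.1 hb1 hb2 hok hcoo (hG.lam _) _ _ _ rfl rfl rfl
  rw [hbb]
  refine ⟨?_, ?_, ?_⟩
  · rw [h.1, p18]
  · rw [h.1, p11]
    exact Nat.le_add_right _ _
  · have h2 := h.2.1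
    have h3 : (omOf Φ g j st w).1 = gP g 5 * opC (st.2.2.1.1 (lev0 g j)) := hsk.1
    rw [p5] at h3
    rw [h2, h3]
    refine Nat.mul_le_mul (Nat.le_succ _) ?_
    unfold opC opSize
    omega

/-- pure arithmetic of the last steps -/
theorem C10_final {l ct cB d1 C Bd ρ L bb U W c0 s a B0 : ℕ} (hl : 1000 ≤ l) (hC2 : C ≤ l)
    (hd1 : d1 + 2 ≤ l ^ 8) (hBd : Bd = l ^ cB) (hρ : ρ ≤ l ^ (ct + 18)) (hL : L ≤ bb)
    (hbb : bb ≤ l)
    (hB0 : B0 = C * (d1 + 2) * ((l ^ 3 + 1) * (Bd + 1) + (l + 1) * Bd + l ^ (2 * cB + 38)))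
    (hc0 : c0 ≤ (B0 + 4 * L * ρ * Bd) * U) (ha : a ≤ Bd * U) (hs : s ≤ W) :
    C * (d1 + 2) * (C * (d1 + 2) * (c0 + a + s) + s + W) ≤ l ^ (ct + 2 * cB + 70) * (U + W) := by
  set d := C * (d1 + 2) with hd
  have hl1 : 1 ≤ l := by omega
  have pw : ∀ {p q : ℕ}, p ≤ q → l ^ p ≤ l ^ q := fun h => Nat.pow_le_pow_right hl1 h
  have hd9 : d ≤ l ^ 9 := by
    calc d ≤ l * l ^ 8 := Nat.mul_le_mul hC2 hd1
      _ = l ^ 9 := by ring
  have hBd1 : 1 ≤ Bd := by rw [hBd]; exact Nat.one_le_pow _ _ hl1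
  have e1 : (l ^ 3 + 1) * (Bd + 1) + (l + 1) * Bd + l ^ (2 * cB + 38) ≤ l ^ (2 * cB + 39) := by
    have f1 : l ^ 3 + 1 ≤ l ^ 4 := by
      have : 1 ≤ l ^ 3 := Nat.one_le_pow _ _ hl1
      calc l ^ 3 + 1 ≤ 2 * l ^ 3 := by omega
        _ ≤ l * l ^ 3 := Nat.mul_le_mul_right _ (by omega)
        _ = l ^ 4 := by ring
    have f2 : Bd + 1 ≤ l ^ (cB + 1) := by
      calc Bd + 1 ≤ 2 * l ^ cB := by rw [hBd] at hBd1 ⊢; omega
        _ ≤ l * l ^ cB := Nat.mul_le_mul_right _ (by omega)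
        _ = l ^ (cB + 1) := by ring
    have f3 : l + 1 ≤ l ^ 2 := by nlinarith
    calc (l ^ 3 + 1) * (Bd + 1) + (l + 1) * Bd + l ^ (2 * cB + 38)
        ≤ l ^ 4 * l ^ (cB + 1) + l ^ 2 * l ^ cB + l ^ (2 * cB + 38) := by
          rw [hBd] at f2 ⊢
          gcongr
      _ = l ^ (cB + 5) + l ^ (cB + 2) + l ^ (2 * cB + 38) := by ring
      _ ≤ l ^ (2 * cB + 38) + l ^ (2 * cB + 38) + l ^ (2 * cB + 38) :=
          Nat.add_le_add (Nat.add_le_add (pw (by omega)) (pw (by omega))) (pw (by omega))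
      _ = 3 * l ^ (2 * cB + 38) := by ring
      _ ≤ l * l ^ (2 * cB + 38) := Nat.mul_le_mul_right _ (by omega)
      _ = l ^ (2 * cB + 39) := by ring
  have e2 : B0 ≤ l ^ (2 * cB + 48) := by
    rw [hB0]
    calc d * ((l ^ 3 + 1) * (Bd + 1) + (l + 1) * Bd + l ^ (2 * cB + 38)) ≤
          l ^ 9 * l ^ (2 * cB + 39) := Nat.mul_le_mul hd9 e1
      _ = l ^ (2 * cB + 48) := by ring
  have e3 : 4 * L * ρ * Bd ≤ l ^ (ct + cB + 20) := by
    calc 4 * L * ρ * Bd ≤ l * l * l ^ (ct + 18) * l ^ cB := by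
          rw [hBd]
          gcongr
          · omega
          · omega
      _ = l ^ (ct + cB + 20) := by ring
  have e4 : B0 + 4 * L * ρ * Bd + Bd + 3 ≤ l ^ (ct + 2 * cB + 50) := by
    calc B0 + 4 * L * ρ * Bd + Bd + 3
        ≤ l ^ (ct + 2 * cB + 49) + l ^ (ct + 2 * cB + 49) + l ^ (ct + 2 * cB + 49) +
          3 * l ^ (ct + 2 * cB + 49) := by
          refine Nat.add_le_add (Nat.add_le_add (Nat.add_le_add (e2.trans (pw (by omega)))
            (e3.trans (pw (by omega)))) ?_) ?_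
          · rw [hBd]
            exact pw (by omega)
          · exact Nat.le_mul_of_pos_right _ (Nat.pow_pos hl1)
      _ = 6 * l ^ (ct + 2 * cB + 49) := by ring
      _ ≤ l * l ^ (ct + 2 * cB + 49) := Nat.mul_le_mul_right _ (by omega)
      _ = l ^ (ct + 2 * cB + 50) := by ring
  rcases Nat.eq_zero_or_pos d with h0 | hdpos
  · rw [h0, zero_mul]
    exact Nat.zero_le _
  calc d * (d * (c0 + a + s) + s + W)
      ≤ d * (d * ((B0 + 4 * L * ρ * Bd) * U + Bd * U + W) + W + W) := by gcongr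
    _ ≤ d * (d * ((B0 + 4 * L * ρ * Bd) * U + Bd * U + W) + d * W + d * W) := by
        gcongr
        · exact Nat.le_mul_of_pos_left _ hdpos
        · exact Nat.le_mul_of_pos_left _ hdpos
    _ = d ^ 2 * ((B0 + 4 * L * ρ * Bd + Bd) * U + 3 * W) := by ring
    _ ≤ d ^ 2 * ((B0 + 4 * L * ρ * Bd + Bd + 3) * (U + W)) := by
        refine Nat.mul_le_mul_left _ ?_
        have hB : 0 ≤ (B0 + 4 * L * ρ * Bd + Bd) * W + 3 * U := Nat.zero_le _
        calc (B0 + 4 * L * ρ * Bd + Bd) * U + 3 * W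
            ≤ (B0 + 4 * L * ρ * Bd + Bd) * U + 3 * W +
              ((B0 + 4 * L * ρ * Bd + Bd) * W + 3 * U) := Nat.le_add_right _ _
          _ = _ := by ring
    _ ≤ (l ^ 9) ^ 2 * (l ^ (ct + 2 * cB + 50) * (U + W)) := by gcongr
    _ = l ^ (ct + 2 * cB + 68) * (U + W) := by ring
    _ ≤ l ^ (ct + 2 * cB + 70) * (U + W) := Nat.mul_le_mul_right _ (pw (by omega))

/-- the cost of the solver of stage `j` -/
theorem chain_cost (c : Cst) (hc : 1000 ≤ c.c1) (C : ℕ) (hC : 1 ≤ C) (hC2 : C ≤ c.c1) :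
    ∃ e, ∀ (x : InT.den) (A0 : CooT.den) (g : GT.den) (j : ℕ) (st : StT.den) (w : ℕ → ℕ),
      GOK c x A0 g → Lev Φ g j st → Chk g j st →
      rho0 C c x ≤ pK c x → 1 ≤ x.1.2 → x.1.2 < x.1.1 → j ≤ pl c x ^ 3 →
      chCost C (theta Φ g j st w) (topIx g j) ≤
        pl c x ^ e * (rho0 C c x ^ pbb c x * x.1.2 ^ 2 + x.2.1 + opSize (gE g)) := by
  refine ⟨c.ct + 2 * c.cB + 70, ?_⟩
  intro x A0 g j st w hG hLev hChk hρ hk1 _ _
  obtain ⟨p0, p1, p2, p5, p10, p11, p12, p14, p16, p17, p18, p20, p21, p24, -, -⟩ :=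
    C10_par hG.hP
  obtain ⟨hl, hl2⟩ := C10_l c hc x
  obtain ⟨hb1, hb3, hb2⟩ := C10_baseOf Φ w hG hLev hChk
  -- everything as natural numbers
  obtain ⟨k, hk⟩ : ∃ k : ℕ, x.1.2 = k := ⟨_, rfl⟩
  obtain ⟨N, hN⟩ : ∃ N : ℕ, x.2.1 = N := ⟨_, rfl⟩
  rw [hk] at hk1
  rw [hk, hN]
  rw [hk] at p1
  rw [hN] at p2
  have hk3 : pk3 c x + 3 * phcap c x + 1 ≤ pl c x ^ (c.cB + 19) * k := by
    have h1 := C10_k3 c hc x k hk hk1
    have h2 : phcap c x = pl c x ^ c.cB * (k + 1) := by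
      unfold phcap pBd
      rw [hk]
    have h3 : 1 ≤ pl c x ^ c.cB := Nat.one_le_pow _ _ (by omega)
    have h4 : 1 ≤ pl c x ^ 18 := Nat.one_le_pow _ _ (by omega)
    have h5 : phcap c x ≤ 2 * (pl c x ^ (c.cB + 18) * k) := by
      rw [h2]
      have h8 : ∀ k : ℕ, 1 ≤ k → k + 1 ≤ 2 * k := fun k h => by omega
      calc pl c x ^ c.cB * (k + 1) ≤ pl c x ^ c.cB * (2 * k) := Nat.mul_le_mul_left _ (h8 k hk1)
        _ = 2 * (pl c x ^ c.cB * k) := by ring
        _ ≤ 2 * (pl c x ^ (c.cB + 18) * k) := by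
            refine Nat.mul_le_mul_left _ (Nat.mul_le_mul_right _ ?_)
            exact Nat.pow_le_pow_right (by omega) (by omega)
    have h6 : pl c x ^ 18 * k ≤ pl c x ^ (c.cB + 18) * k :=
      Nat.mul_le_mul_right _ (Nat.pow_le_pow_right (by omega) (by omega))
    have h7 : ∀ a b y z : ℕ, a + 1 ≤ y → y ≤ z → b ≤ 2 * z → a + 3 * b + 1 ≤ 7 * z := by
      intro a b y z e1 e2 e3
      omega
    calc pk3 c x + 3 * phcap c x + 1 ≤ 7 * (pl c x ^ (c.cB + 18) * k) := h7 _ _ _ _ h1 h6 h5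
      _ ≤ pl c x * (pl c x ^ (c.cB + 18) * k) := Nat.mul_le_mul_right _ (by omega)
      _ = pl c x ^ (c.cB + 19) * k := by ring
  set ρ := rho0 C c x with hρdef
  set l := pl c x with hldef
  set U := ρ ^ pbb c x * k ^ 2 + N with hU
  have hρ1 : 1 ≤ ρ := Nat.mul_pos (Nat.mul_pos (Nat.pow_pos hC) (by omega)) (by omega)
  have hLb : C10_L g j ≤ pbb c x := by
    rw [← p21, C10_L]
    show j - (j - gP g 21) ≤ gP g 21
    omega
  have hj : lev0 g j + C10_L g j = j := by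
    rw [C10_L]
    show (j - gP g 21) + (j - (j - gP g 21)) = j
    omega
  obtain ⟨cD, cF, cH, -⟩ := hChk
  set SE := Φ.mkOp (gE g, (st.2.1.1 j, sdFull (gP g 0))) with hSE
  set base := baseOf Φ g j st w with hbase
  have hΘ : theta Φ g j st w = asm g j st.2.2.1.1 st.2.2.1.2 SE base := rfl
  rw [hΘ]
  have hdim : (gE g).1 = (gP g 0, gP g 0) := by rw [p0]; exact hG.dim
  have hSEsize : opSize SE ≤ opSize (gE g) :=
    C10_mkOp_size Φ hG.ok hdim (hLev.2.2.1 j le_rfl).1 (C10_full _)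
  set Θ := asm g j st.2.2.1.1 st.2.2.1.2 SE base with hΘdef
  have sD : ∀ m ≤ C10_L g j, opSize (Θ.1 (2 * m)).2 * pK c x ^ (C10_L g j - m) ≤
      pBd c x * (k ^ 2 * pK c x ^ (C10_L g j - m) + N) := by
    intro m hm
    rw [hΘdef, C10_even g j _ _ _ _ hm]
    have h := cD (lev0 g j + m) (by omega) (by omega)
    rw [p14, p20, p1, p2] at h
    have e : j - (lev0 g j + m) = C10_L g j - m := by omega
    rw [e] at h
    exact h
  have sF : ∀ m < C10_L g j, opSize (Θ.1 (2 * m + 1)).2 * pK c x ^ (C10_L g j - (m + 1)) ≤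
      pBd c x * (k ^ 2 * pK c x ^ (C10_L g j - (m + 1)) + N) := by
    intro m hm
    rw [hΘdef, C10_odd g j _ _ _ _ hm]
    have h := cF (lev0 g j + (m + 1)) (by omega) (by omega)
    rw [p14, p20, p1, p2] at h
    have e : j - (lev0 g j + (m + 1)) = C10_L g j - (m + 1) := by omega
    rw [e] at h
    exact h
  set B0 := C * (pdeg1 c x + 2) * ((l ^ 3 + 1) * (pBd c x + 1) + (l + 1) * pBd c x +
    l ^ (2 * c.cB + 38)) with hB0
  have h0 : ρ ^ C10_L g j * chCost C Θ 0 ≤ B0 * U := by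
    have e : (Θ.1 0).2 = st.2.2.1.1 (lev0 g j) := by
      have := C10_even g j st.2.2.1.1 st.2.2.1.2 SE base (Nat.zero_le (C10_L g j))
      simpa using this
    have e0 : chCost C Θ 0 ≤ C * (pdeg1 c x + 2) * ((l ^ 3 + 1) *
        (opSize (Θ.1 0).2 + 1) + (l + 1) * opSize (Θ.1 0).2 +
          (pk3 c x + 3 * phcap c x + 1) ^ 2) := by
      have d0 : Θ.2.2.1 0 = pdeg1 c x := by rw [hΘdef, C10_dz, p16]
      have q1 : Θ.2.2.2.2.1.1 ≤ l ^ 3 := hb1
      have q2 : Θ.2.2.2.2.1.2 ≤ pk3 c x + 3 * phcap c x := hb3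
      have q3 : Θ.2.2.2.2.2.1.1 ≤ (l + 1) * opSize (Θ.1 0).2 := by rw [e]; exact hb2
      show C * (Θ.2.2.1 0 + 2) * ((Θ.2.2.2.2.1.1 + 1) * (opSize (Θ.1 0).2 + 1) +
        Θ.2.2.2.2.2.1.1 + (Θ.2.2.2.2.1.2 + 1) ^ 2) ≤ _
      rw [d0]
      refine Nat.mul_le_mul_left _ (Nat.add_le_add (Nat.add_le_add ?_ q3) ?_)
      · exact Nat.mul_le_mul_right _ (Nat.add_le_add_right q1 1)
      · exact Nat.pow_le_pow_left (Nat.add_le_add_right q2 1) 2
    have s0 : ρ ^ C10_L g j * opSize (Θ.1 0).2 ≤ pBd c x * U := by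
      have h := C10_size hρ1 hρ (by omega : C10_L g j - 0 ≤ pbb c x) (sD 0 (Nat.zero_le _))
      simpa using h
    have s1 : ρ ^ C10_L g j ≤ U := by
      calc ρ ^ C10_L g j ≤ ρ ^ pbb c x := Nat.pow_le_pow_right hρ1 hLb
        _ ≤ ρ ^ pbb c x * k ^ 2 := Nat.le_mul_of_pos_right _ (Nat.pow_pos hk1)
        _ ≤ U := Nat.le_add_right _ _
    have s3 : ρ ^ C10_L g j * (pk3 c x + 3 * phcap c x + 1) ^ 2 ≤ l ^ (2 * c.cB + 38) * U := by
      calc ρ ^ C10_L g j * (pk3 c x + 3 * phcap c x + 1) ^ 2 ≤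
            ρ ^ pbb c x * (l ^ (c.cB + 19) * k) ^ 2 :=
            Nat.mul_le_mul (Nat.pow_le_pow_right hρ1 hLb) (Nat.pow_le_pow_left hk3 2)
        _ = l ^ (2 * c.cB + 38) * (ρ ^ pbb c x * k ^ 2) := by ring
        _ ≤ l ^ (2 * c.cB + 38) * U := Nat.mul_le_mul_left _ (Nat.le_add_right _ _)
    refine (Nat.mul_le_mul_left _ e0).trans ?_
    calc ρ ^ C10_L g j * (C * (pdeg1 c x + 2) * ((l ^ 3 + 1) *
        (opSize (Θ.1 0).2 + 1) + (l + 1) * opSize (Θ.1 0).2 +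
          (pk3 c x + 3 * phcap c x + 1) ^ 2))
        = C * (pdeg1 c x + 2) * ((l ^ 3 + 1) * (ρ ^ C10_L g j * opSize (Θ.1 0).2 +
          ρ ^ C10_L g j) + (l + 1) * (ρ ^ C10_L g j * opSize (Θ.1 0).2) +
          ρ ^ C10_L g j * (pk3 c x + 3 * phcap c x + 1) ^ 2) := by ring
      _ ≤ C * (pdeg1 c x + 2) * ((l ^ 3 + 1) * (pBd c x * U + U) + (l + 1) * (pBd c x * U) +
          l ^ (2 * c.cB + 38) * U) := by gcongr
      _ = B0 * U := by rw [hB0]; ring
  have hmain : chCost C Θ (2 * C10_L g j) ≤ (B0 + 4 * C10_L g j * ρ * pBd c x) * U := by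
    refine C10_rec (cost := chCost C Θ) (a := fun r => opSize (Θ.1 r).2) (K := pK c x) (k := k)
      (N := N) (bb := pbb c x) (C := C) (d1 := pdeg1 c x) (dK := pdegK c x) hC rfl hρ hLb hU
      ?_ ?_ sD sF h0
    · intro m hm
      have d : Θ.2.2.1 (2 * m + 1) = pdeg1 c x := by
        rw [hΘdef, C10_dodd g j _ _ _ _ hm.le, p16]
      show C * (Θ.2.2.1 (2 * m + 1) + 2) * _ = _
      rw [d]
    · intro m hm
      have d : Θ.2.2.1 (2 * m + 1 + 1) = pdegK c x := by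
        rw [hΘdef, C10_deven g j _ _ _ _ hm, p17]
      show C * (Θ.2.2.1 (2 * m + 1 + 1) + 2) * _ = _
      rw [d]
  have htop : topIx g j = 2 * C10_L g j + 1 + 1 := rfl
  have e1 : chCost C Θ (topIx g j) = C * (pdeg1 c x + 2) * (C * (pdeg1 c x + 2) *
      (chCost C Θ (2 * C10_L g j) + opSize (Θ.1 (2 * C10_L g j)).2 + opSize SE) +
      opSize SE + opSize (gE g)) := by
    have d1 : Θ.2.2.1 (2 * C10_L g j + 1) = pdeg1 c x := by
      rw [hΘdef, C10_dodd g j _ _ _ _ le_rfl, p16]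
    have d2 : Θ.2.2.1 (2 * C10_L g j + 1 + 1) = pdeg1 c x := by
      rw [hΘdef]
      exact (C10_dtop g j _ _ _ _).trans p16
    have o1 : (Θ.1 (2 * C10_L g j + 1)).2 = SE := C10_se g j _ _ _ _
    have o2 : (Θ.1 (2 * C10_L g j + 1 + 1)).2 = gE g := C10_top g j _ _ _ _
    rw [htop]
    show C * (Θ.2.2.1 (2 * C10_L g j + 1 + 1) + 2) *
      (C * (Θ.2.2.1 (2 * C10_L g j + 1) + 2) * (chCost C Θ (2 * C10_L g j) +
        opSize (Θ.1 (2 * C10_L g j)).2 + opSize (Θ.1 (2 * C10_L g j + 1)).2) +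
        opSize (Θ.1 (2 * C10_L g j + 1)).2 + opSize (Θ.1 (2 * C10_L g j + 1 + 1)).2) = _
    rw [d1, d2, o1, o2]
  have ha : opSize (Θ.1 (2 * C10_L g j)).2 ≤ pBd c x * U := by
    have h := C10_size (bb := pbb c x) (e := C10_L g j - C10_L g j) hρ1 hρ (by omega)
      (sD _ le_rfl)
    simpa using h
  rw [e1]
  exact C10_final hl (hC2.trans hl2) (C10_deg1 c hc x) rfl (C10_rho c hc C hC2 x) hLb
    (C10_bb c x) hB0 hmain ha hSEsize

end

end A56
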