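import Pool.Agent.Lib_helper50.A56.Par
import Pool.Agent.Lib_helper50.A56.B.C10
import Pool.Agent.Lib_helper50.A56.Inv
/-!
# MP_a55cb8: block C11 (helper73): the weights of a stage
-/

open Matrix Finset

namespace A56

section

variable {mm : ℕ → ℕ} (Φ : Lib mm)

/-! ### arithmetic -/

/-- `a ≤ L ^ E * W` -/
def C11_Le (L W E a : ℕ) : Prop := a ≤ L ^ E * W

theorem C11_Le.mono {L W E F a : ℕ} (hL : 1 ≤ L) (h : E ≤ F) (ha : C11_Le L W E a) :
    C11_Le L W F a :=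
  le_trans ha (Nat.mul_le_mul_right _ (Nat.pow_le_pow_right hL h))

theorem C11_Le.mul {L W E F a p : ℕ} (hp : p ≤ L ^ F) (ha : C11_Le L W E a) :
    C11_Le L W (F + E) (p * a) := by
  unfold C11_Le at *
  calc p * a ≤ L ^ F * (L ^ E * W) := Nat.mul_le_mul hp ha
    _ = L ^ (F + E) * W := by rw [pow_add]; ring

theorem C11_Le.of_le {L W E a b : ℕ} (h : a ≤ b) (hb : C11_Le L W E b) : C11_Le L W E a :=
  le_trans h hb

theorem C11_Le.add {L W E a b : ℕ} (hL : 2 ≤ L) (ha : C11_Le L W E a) (hb : C11_Le L W E b) :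
    C11_Le L W (E + 1) (a + b) := by
  unfold C11_Le at *
  calc a + b ≤ L ^ E * W + L ^ E * W := Nat.add_le_add ha hb
    _ = 2 * (L ^ E * W) := by ring
    _ ≤ L * (L ^ E * W) := Nat.mul_le_mul_right _ hL
    _ = L ^ (E + 1) * W := by rw [pow_succ]; ring

theorem C11_Le.base {L W a : ℕ} (h : a ≤ W) : C11_Le L W 0 a := by
  unfold C11_Le; simpa using h

/-- twelve terms -/
theorem C11_sum12 {L W E a b d e f g h i j k l m : ℕ} (hL : 12 ≤ L) (ha : C11_Le L W E a)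
    (hb : C11_Le L W E b) (hd : C11_Le L W E d) (he : C11_Le L W E e) (hf : C11_Le L W E f)
    (hg : C11_Le L W E g) (hh : C11_Le L W E h) (hi : C11_Le L W E i) (hj : C11_Le L W E j)
    (hk : C11_Le L W E k) (hl : C11_Le L W E l) (hm : C11_Le L W E m) :
    C11_Le L W (E + 1) (a + b + (d + e + f + g + h + i + j + k + l + m)) := by
  unfold C11_Le at *
  have h1 : 12 * (L ^ E * W) ≤ L * (L ^ E * W) := Nat.mul_le_mul_right _ hL
  have h2 : L ^ (E + 1) * W = L * (L ^ E * W) := by rw [pow_succ]; ring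
  rw [h2]
  omega

/-- ten terms -/
theorem C11_sum10 {L W E a b d e f i j k l m : ℕ} (hL : 12 ≤ L) (ha : C11_Le L W E a)
    (hb : C11_Le L W E b) (hd : C11_Le L W E d) (he : C11_Le L W E e) (hf : C11_Le L W E f)
    (hi : C11_Le L W E i) (hj : C11_Le L W E j)
    (hk : C11_Le L W E k) (hl : C11_Le L W E l) (hm : C11_Le L W E m) :
    C11_Le L W (E + 1) (a + b + (d + e + f + i + j + k + l + m)) := by
  unfold C11_Le at *
  have h1 : 12 * (L ^ E * W) ≤ L * (L ^ E * W) := Nat.mul_le_mul_right _ hL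
  have h2 : L ^ (E + 1) * W = L * (L ^ E * W) := by rw [pow_succ]; ring
  rw [h2]
  omega

/-- counting a decreasing predicate -/
theorem C11_count (P : ℕ → Prop) [DecidablePred P] (hP : ∀ i, P (i + 1) → P i) (L : ℕ) :
    (∑ i ∈ range L, if P i then 1 else 0) = 0 ∨
      P ((∑ i ∈ range L, if P i then 1 else 0) - 1) := by
  have mono : ∀ i j, i ≤ j → P j → P i := by
    intro i j hij
    induction hij with
    | refl => exact id
    | step _ ih => exact fun h => ih (hP _ h)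
  have key : (∑ i ∈ range L, if P i then 1 else 0) ≤ L ∧
      ∀ i < (∑ i ∈ range L, if P i then 1 else 0), P i := by
    induction L with
    | zero => simp
    | succ L ih =>
      rw [sum_range_succ]
      by_cases h : P L
      · rw [if_pos h]
        refine ⟨by omega, fun i hi => mono i L (by omega) h⟩
      · rw [if_neg h, add_zero]
        exact ⟨by omega, ih.2⟩
  rcases Nat.eq_zero_or_pos (∑ i ∈ range L, if P i then 1 else 0) with h | h
  · exact Or.inl h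
  · exact Or.inr (key.2 _ (by omega))

theorem C11_log2_lt {m a : ℕ} (h : m < 2 ^ a) (ha : 1 ≤ a) : Nat.log2 m + 1 ≤ a := by
  by_cases hm : m = 0
  · subst hm; simpa using ha
  · exact (Nat.log2_lt hm).2 h

theorem C11_two_pow_log2 {m : ℕ} (hm : 1 ≤ m) : 2 ^ (Nat.log2 m + 1) ≤ 2 * m := by
  have := Nat.log2_self_le (n := m) (by omega)
  rw [pow_succ]; omega

theorem C11_lt_two_pow {m : ℕ} : m < 2 ^ (Nat.log2 m + 1) := Nat.lt_log2_self

/-- the parameters (plain numbers) -/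
theorem C11_par_arith (L k b1 m1 b2 m2 b3 k3 : ℕ) (hL : 1000 ≤ L) (hk : 1 ≤ k)
    (hkL : k + 1 ≤ 2 ^ L) (hb1 : b1 = Nat.log2 (16 * (k + 1) * L ^ 6) + 1)
    (hm1 : m1 = L * 2 ^ b1) (hb2 : b2 = Nat.log2 (16 * (m1 + 1) * L ^ 6) + 1)
    (hm2 : m2 = L * 2 ^ b2) (hb3 : b3 = Nat.log2 (16 * (k + m1 + 1) * L ^ 6) + 1)
    (hk3 : k3 = L * 2 ^ b3) :
    m1 + 1 ≤ L ^ 10 * k ∧ m2 + 1 ≤ L ^ 19 * k ∧ k3 + 1 ≤ L ^ 19 * k ∧ 2 ^ b3 ≤ L ^ 19 * k ∧
      b3 + 1 ≤ L ^ 2 := by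
  have hpos : ∀ i, 1 ≤ L ^ i := fun i => Nat.one_le_pow _ _ (by omega)
  have hk1 : k + 1 ≤ L * k := by nlinarith
  -- m1
  have e1 : 2 ^ b1 ≤ 32 * ((k + 1) * L ^ 6) := by
    rw [hb1]
    refine (C11_two_pow_log2 ?_).trans ?_
    · have := hpos 6; nlinarith
    · exact le_of_eq (by ring)
  have e2 : m1 ≤ (k + 1) * L ^ 8 := by
    rw [hm1]
    calc L * 2 ^ b1 ≤ L * (32 * ((k + 1) * L ^ 6)) := Nat.mul_le_mul_left _ e1
      _ = 32 * ((k + 1) * L ^ 7) := by ring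
      _ ≤ L * ((k + 1) * L ^ 7) := Nat.mul_le_mul_right _ (by omega)
      _ = (k + 1) * L ^ 8 := by ring
  have e3 : k + m1 + 1 ≤ (k + 1) * L ^ 9 := by
    have h8 := hpos 8
    calc k + m1 + 1 ≤ (k + 1) * L ^ 8 + (k + 1) * L ^ 8 := by nlinarith
      _ = 2 * ((k + 1) * L ^ 8) := by ring
      _ ≤ L * ((k + 1) * L ^ 8) := Nat.mul_le_mul_right _ (by omega)
      _ = (k + 1) * L ^ 9 := by ring
  have e4 : m1 + 1 ≤ (k + 1) * L ^ 9 := by omega
  have e5 : ∀ a b, a + 1 ≤ (k + 1) * L ^ 9 → b = Nat.log2 (16 * (a + 1) * L ^ 6) + 1 →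
      2 ^ b ≤ (k + 1) * L ^ 16 ∧ b + 1 ≤ L ^ 2 := by
    intro a b ha hb
    have h6 := hpos 6
    have h1 : 16 * (a + 1) * L ^ 6 ≤ 16 * ((k + 1) * L ^ 15) := by
      calc 16 * (a + 1) * L ^ 6 ≤ 16 * ((k + 1) * L ^ 9) * L ^ 6 := by gcongr
        _ = 16 * ((k + 1) * L ^ 15) := by ring
    constructor
    · rw [hb]
      refine (C11_two_pow_log2 (by nlinarith)).trans ?_
      calc 2 * (16 * (a + 1) * L ^ 6) ≤ 2 * (16 * ((k + 1) * L ^ 15)) :=
            Nat.mul_le_mul_left _ h1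
        _ = 32 * ((k + 1) * L ^ 15) := by ring
        _ ≤ L * ((k + 1) * L ^ 15) := Nat.mul_le_mul_right _ (by omega)
        _ = (k + 1) * L ^ 16 := by ring
    · have h2 : 16 * (a + 1) * L ^ 6 < 2 ^ (16 * L + 5) := by
        refine lt_of_le_of_lt h1 ?_
        have h3 : L ^ 15 ≤ (2 ^ L) ^ 15 := Nat.pow_le_pow_left (Nat.lt_two_pow_self).le 15
        have h4 : (k + 1) * L ^ 15 ≤ 2 ^ L * (2 ^ L) ^ 15 := Nat.mul_le_mul hkL h3
        have h5 : 2 ^ (16 * L + 5) = 32 * (2 ^ L * (2 ^ L) ^ 15) := by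
          rw [← pow_mul, ← pow_add, pow_add]
          have : L + L * 15 = 16 * L := by ring
          rw [this]; ring
        have h6 : 1 ≤ 2 ^ L * (2 ^ L) ^ 15 := Nat.one_le_iff_ne_zero.2 (by positivity)
        rw [h5]
        omega
      have h3 := C11_log2_lt h2 (by omega)
      have h4 : b + 1 ≤ 16 * L + 6 := by omega
      nlinarith
  have f2 := e5 m1 b2 e4 hb2
  have f3 := e5 (k + m1) b3 e3 hb3
  have e6 : ∀ b, 2 ^ b ≤ (k + 1) * L ^ 16 → L * 2 ^ b + 1 ≤ L ^ 19 * k := by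
    intro b hb
    have h16 := hpos 17
    calc L * 2 ^ b + 1 ≤ L * ((k + 1) * L ^ 16) + (k + 1) * L ^ 17 := by
          refine Nat.add_le_add (Nat.mul_le_mul_left _ hb) ?_
          nlinarith
      _ = 2 * ((k + 1) * L ^ 17) := by ring
      _ ≤ L * (L * k * L ^ 17) := by
          refine Nat.mul_le_mul (by omega) (Nat.mul_le_mul_right _ hk1)
      _ = L ^ 19 * k := by ring
  refine ⟨?_, ?_, ?_, ?_, f3.2⟩
  · calc m1 + 1 ≤ (k + 1) * L ^ 9 := e4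
      _ ≤ (L * k) * L ^ 9 := Nat.mul_le_mul_right _ hk1
      _ = L ^ 10 * k := by ring
  · rw [hm2]; exact e6 b2 f2.1
  · rw [hk3]; exact e6 b3 f3.1
  · calc 2 ^ b3 ≤ (k + 1) * L ^ 16 := f3.1
      _ ≤ (L * k) * L ^ 16 := Nat.mul_le_mul_right _ hk1
      _ = L ^ 17 * k := by ring
      _ ≤ L ^ 19 * k := Nat.mul_le_mul_right _ (Nat.pow_le_pow_right (by omega) (by omega))

/-- `ps` is polynomial in `L` -/
theorem C11_ps_arith (L k m2 k3 cB s : ℕ) (hL : 1000 ≤ L)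
    (hkL : k + 1 ≤ 2 ^ L) (hm2 : m2 + 1 ≤ L ^ 19 * k) (hk3 : k3 + 1 ≤ L ^ 19 * k)
    (hs : s = Nat.log2 (L ^ cB * (k + 1) + m2 + k3) + 1) : s + 1 ≤ L ^ (cB + 24) := by
  have hpos : ∀ i, 1 ≤ L ^ i := fun i => Nat.one_le_pow _ _ (by omega)
  have h1 : L ^ cB * (k + 1) + m2 + k3 < 2 ^ (L * (cB + 22)) := by
    have h2 : L ^ cB * (k + 1) ≤ L ^ (cB + 19) * (k + 1) :=
      Nat.mul_le_mul_right _ (Nat.pow_le_pow_right (by omega) (by omega))
    have h3 : L ^ 19 * k ≤ L ^ (cB + 19) * (k + 1) :=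
      Nat.mul_le_mul (Nat.pow_le_pow_right (by omega) (by omega)) (by omega)
    have h4 : L ^ cB * (k + 1) + m2 + k3 < 3 * (L ^ (cB + 19) * (k + 1)) := by omega
    refine lt_of_lt_of_le h4 ?_
    have h5 : L ^ (cB + 20) ≤ (2 ^ L) ^ (cB + 20) := Nat.pow_le_pow_left (Nat.lt_two_pow_self).le _
    calc 3 * (L ^ (cB + 19) * (k + 1)) ≤ L * (L ^ (cB + 19) * (k + 1)) :=
          Nat.mul_le_mul_right _ (by omega)
      _ = L ^ (cB + 20) * (k + 1) := by ring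
      _ ≤ (2 ^ L) ^ (cB + 20) * 2 ^ L := Nat.mul_le_mul h5 hkL
      _ = 2 ^ (L * (cB + 21)) := by rw [← pow_mul, ← pow_add]; congr 1
      _ ≤ 2 ^ (L * (cB + 22)) := Nat.pow_le_pow_right (by omega)
          (Nat.mul_le_mul_left _ (by omega))
  have h2 := C11_log2_lt h1 (by nlinarith)
  have h3 : cB + 22 < L ^ (cB + 22) := Nat.lt_pow_self (by omega)
  calc s + 1 ≤ L * (cB + 22) + 1 := by omega
    _ ≤ L * L ^ (cB + 22) := by nlinarith
    _ = L ^ (cB + 23) := by rw [pow_succ L (cB + 22)]; ring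
    _ ≤ L ^ (cB + 24) := Nat.pow_le_pow_right (by omega) (by omega)

theorem C11_pl {c : Cst} {x : InT.den} (hc : 1000 ≤ c.c1) : 1000 ≤ pl c x :=
  hc.trans (Nat.le_add_left _ _)

theorem C11_n_le (n c1 : ℕ) (h : 1000 ≤ c1) : n ≤ 2 ^ (Nat.log2 n + c1) := by
  have h1 : n < 2 ^ (Nat.log2 n + 1) := C11_lt_two_pow
  exact h1.le.trans (Nat.pow_le_pow_right (by omega) (by omega))

theorem C11_k_le {c : Cst} {x : InT.den} (hc : 1000 ≤ c.c1) (h : x.1.2 < x.1.1) :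
    x.1.2 + 1 ≤ 2 ^ pl c x :=
  le_trans (Nat.succ_le_of_lt h) (C11_n_le x.1.1 c.c1 hc)

theorem C11_tau (L ct : ℕ) (hL : 1 ≤ L) : 2 ^ (ct * Nat.log2 L) ≤ L ^ ct := by
  rw [mul_comm, pow_mul]
  exact Nat.pow_le_pow_left (Nat.log2_self_le (by omega)) _

/-- degree of the outer iteration -/
theorem C11_mout_arith (L T K q ct : ℕ) (hL : 1000 ≤ L) (hT : T ≤ L ^ ct) :
    3 * L * T * K * (q + L ^ 3 + L + 1) + 1 ≤ L ^ (ct + 6) * ((K + 1) * (q + 1)) := by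
  have hpos : ∀ i, 1 ≤ L ^ i := fun i => Nat.one_le_pow _ _ (by omega)
  have h1 : q + L ^ 3 + L + 1 ≤ L ^ 4 * (q + 1) := by
    have h3 : L ≤ L ^ 3 := Nat.le_self_pow (by omega) L
    have h4 : L ^ 4 = L * L ^ 3 := by ring
    have h5 : 1000 * L ^ 3 ≤ L * L ^ 3 := Nat.mul_le_mul_right _ hL
    have h6 := hpos 3
    rw [h4]
    nlinarith
  have h2 : 3 * L * T * K * (q + L ^ 3 + L + 1) ≤ 3 * L * L ^ ct * K * (L ^ 4 * (q + 1)) := by
    gcongr
  have h3 : 1 ≤ L ^ ct * L ^ 5 * ((K + 1) * (q + 1)) := by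
    have := hpos ct
    have := hpos 5
    exact Nat.one_le_iff_ne_zero.2 (by positivity)
  calc 3 * L * T * K * (q + L ^ 3 + L + 1) + 1
      ≤ 3 * L * L ^ ct * K * (L ^ 4 * (q + 1)) + L ^ ct * L ^ 5 * ((K + 1) * (q + 1)) :=
        Nat.add_le_add h2 h3
    _ = 3 * (L ^ ct * L ^ 5 * (K * (q + 1))) + L ^ ct * L ^ 5 * ((K + 1) * (q + 1)) := by ring
    _ ≤ 3 * (L ^ ct * L ^ 5 * ((K + 1) * (q + 1))) + L ^ ct * L ^ 5 * ((K + 1) * (q + 1)) := by
        gcongr; omega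
    _ = 4 * (L ^ ct * L ^ 5 * ((K + 1) * (q + 1))) := by ring
    _ ≤ L * (L ^ ct * L ^ 5 * ((K + 1) * (q + 1))) := Nat.mul_le_mul_right _ (by omega)
    _ = L ^ (ct + 6) * ((K + 1) * (q + 1)) := by rw [pow_add]; ring

/-- degrees of the links -/
theorem C11_deg_arith (L T ct : ℕ) (hL : 1000 ≤ L) (hT : T ≤ L ^ ct) :
    L * T * (2 * L ^ 5 + 2) + 2 ≤ L ^ (ct + 7) ∧ L * (2 * L ^ 5 + 2) + 2 ≤ L ^ 7 := by
  have hpos : ∀ i, 1 ≤ L ^ i := fun i => Nat.one_le_pow _ _ (by omega)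
  have h5 := hpos 5
  have h0 := hpos ct
  have h6 : L ^ 6 = L * L ^ 5 := by ring
  have hb : L * (2 * L ^ 5 + 2) ≤ 4 * L ^ 6 := by rw [h6]; nlinarith
  have h1 : L * T * (2 * L ^ 5 + 2) ≤ L ^ ct * (4 * L ^ 6) := by
    calc L * T * (2 * L ^ 5 + 2) = T * (L * (2 * L ^ 5 + 2)) := by ring
      _ ≤ L ^ ct * (4 * L ^ 6) := Nat.mul_le_mul hT hb
  have h7 : 1 ≤ L ^ ct * L ^ 6 := Nat.one_le_iff_ne_zero.2 (by positivity)
  constructor
  · calc L * T * (2 * L ^ 5 + 2) + 2 ≤ L ^ ct * (4 * L ^ 6) + 2 * (L ^ ct * L ^ 6) := by omega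
      _ = 6 * (L ^ ct * L ^ 6) := by ring
      _ ≤ L * (L ^ ct * L ^ 6) := Nat.mul_le_mul_right _ (by omega)
      _ = L ^ (ct + 7) := by rw [pow_add]; ring
  · have h8 : L ^ 7 = L * L ^ 6 := by ring
    have h9 := hpos 6
    rw [h8]
    nlinarith

/-! ### values of the parameters, sizes -/

theorem C11_size_arith (L n k N l2 l3 m1 m2 : ℕ) (hL : 1000 ≤ L) (hn : n ≤ N)
    (h2 : l2 ≤ L * N) (h3 : l3 ≤ L * N) (hm1 : m1 + 1 ≤ L ^ 10 * k)
    (hm2 : m2 + 1 ≤ L ^ 19 * k) :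
    n + n + N + l2 + l3 + (m1 + 1) * (m2 + 1) ≤ L ^ 30 * (k ^ 2 + N) := by
  have hpos : ∀ i, 1 ≤ L ^ i := fun i => Nat.one_le_pow _ _ (by omega)
  have h4 : (m1 + 1) * (m2 + 1) ≤ L ^ 29 * k ^ 2 :=
    (Nat.mul_le_mul hm1 hm2).trans (le_of_eq (by ring))
  have h5 : L ^ 29 * k ^ 2 ≤ L ^ 30 * k ^ 2 :=
    Nat.mul_le_mul_right _ (Nat.pow_le_pow_right (by omega) (by omega))
  have h6 : L * N ≤ L ^ 29 * N :=
    Nat.mul_le_mul_right _ (Nat.le_self_pow (by omega) L)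
  have h7 : N ≤ L ^ 29 * N := Nat.le_mul_of_pos_left _ (hpos 29)
  have h8 : 5 * (L ^ 29 * N) ≤ L * (L ^ 29 * N) := Nat.mul_le_mul_right _ (by omega)
  have h9 : L ^ 30 * (k ^ 2 + N) = L ^ 30 * k ^ 2 + L * (L ^ 29 * N) := by ring
  rw [h9]
  omega

theorem C11_rowlen (n a : ℕ) (M A0 : CooT.den) (l m1 : ℕ) (hM : CooOK n a M)
    (hA : CooOK n n A0) (h : ∀ i < n, rowCnt M i ≤ min (l * rowCnt A0 i) m1) :
    M.1 ≤ l * A0.1 := by
  have h1 : ∀ (y : CooT.den) (b : ℕ), CooOK n b y → y.1 = ∑ i ∈ range n, rowCnt y i := by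
    intro y b hy
    have h := card_eq_sum_card_fiberwise (s := range y.1) (t := range n) (f := fun e => y.2.1 e)
      (fun e he => by
        have := hy e (by simpa using he)
        simpa using this.1)
    rw [card_range] at h
    exact h
  rw [h1 M a hM, h1 A0 n hA, mul_sum]
  exact sum_le_sum fun i hi => (h i (mem_range.1 hi)).trans (min_le_left _ _)

theorem C11_collen (n a : ℕ) (M A0 : CooT.den) (l m1 : ℕ) (hM : CooOK a n M)
    (hA : CooOK n n A0) (h : ∀ i < n, colCnt M i ≤ min (l * colCnt A0 i) m1) :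
    M.1 ≤ l * A0.1 := by
  have h1 : ∀ (y : CooT.den) (b : ℕ), CooOK b n y → y.1 = ∑ i ∈ range n, colCnt y i := by
    intro y b hy
    have h := card_eq_sum_card_fiberwise (s := range y.1) (t := range n) (f := fun e => y.2.2.1 e)
      (fun e he => by
        have := hy e (by simpa using he)
        simpa using this.2)
    rw [card_range] at h
    exact h
  rw [h1 M a hM, h1 A0 n hA, mul_sum]
  exact sum_le_sum fun i hi => (h i (mem_range.1 hi)).trans (min_le_left _ _)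

theorem C11_m12 {c : Cst} {x : InT.den} (hc : 1000 ≤ c.c1) (hk : 1 ≤ x.1.2)
    (hkn : x.1.2 < x.1.1) :
    pm1 c x + 1 ≤ pl c x ^ 10 * x.1.2 ∧ pm2 c x + 1 ≤ pl c x ^ 19 * x.1.2 ∧
      pk3 c x + 1 ≤ pl c x ^ 19 * x.1.2 ∧ 2 ^ pb3 c x ≤ pl c x ^ 19 * x.1.2 ∧
      pb3 c x + 1 ≤ pl c x ^ 2 :=
  C11_par_arith (pl c x) x.1.2 (pb1 c x) (pm1 c x) (pb2 c x) (pm2 c x) (pb3 c x) (pk3 c x)
    (C11_pl hc) hk (C11_k_le hc hkn) rfl rfl rfl rfl rfl rfl

theorem C11_opSize {c : Cst} {x : InT.den} {A0 : CooT.den} {g : GT.den} (hc : 1000 ≤ c.c1)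
    (h : GOK c x A0 g) (hk : 1 ≤ x.1.2) (hkn : x.1.2 < x.1.1) (hnN : x.1.1 ≤ x.2.1) :
    opSize (gE g) ≤ pl c x ^ 30 * (x.1.2 ^ 2 + x.2.1) := by
  obtain ⟨e1, e2, -, -, -⟩ := C11_m12 hc hk hkn
  have hok := h.ok
  unfold OpOK at hok
  rw [h.dim, h.mid] at hok
  have hr := C11_rowlen x.1.1 (pm1 c x) (gE g).2.2.1.2 A0 (pl c x) (pm1 c x) hok.2.1 h.Aok h.row
  have hcl := C11_collen x.1.1 (pm2 c x) (gE g).2.2.2.1 A0 (pl c x) (pm2 c x) hok.2.2 h.Aok h.col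
  have h0 : opSize (gE g) = x.1.1 + x.1.1 + A0.1 + (gE g).2.2.1.2.1 + (gE g).2.2.2.1.1 +
      (pm1 c x + 1) * (pm2 c x + 1) := by
    unfold opSize
    rw [h.dim, h.mid, h.lst]
  rw [h0]
  rw [h.len] at hr hcl ⊢
  exact C11_size_arith (pl c x) x.1.1 x.1.2 x.2.1 _ _ _ _ (C11_pl hc) hnN hr hcl e1 e2

theorem C11_chk_arith (a K Bd s N : ℕ) (hK : 1 ≤ K) (h : a * K ≤ Bd * (s * K + N)) :
    a ≤ Bd * (s + (N / K + 1)) := by
  have h1 : N < (N / K + 1) * K := by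
    have := Nat.div_add_mod N K
    have h2 := Nat.mod_lt N (show 0 < K by omega)
    nlinarith
  have h3 : a * K ≤ Bd * (s + (N / K + 1)) * K := by
    calc a * K ≤ Bd * (s * K + N) := h
      _ ≤ Bd * (s * K + (N / K + 1) * K) := Nat.mul_le_mul_left _ (by omega)
      _ = Bd * (s + (N / K + 1)) * K := by ring
  exact Nat.le_of_mul_le_mul_right h3 (by omega)

theorem C11_pK_pos (c : Cst) (x : InT.den) : 1 ≤ pK c x := Nat.one_le_pow _ _ (by omega)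

/-- the operator with empty samples is empty -/
theorem C11_empty (E : OpT.den) (n : ℕ) (hE : OpOK E) (hn : E.1 = (n, n)) :
    ∀ fr fc : ℕ → ℕ, opRest (Φ.mkOp (E, (sdEmpty, sdEmpty))) fr fc = 0 := by
  intro fr fc
  have hs : SDOK n sdEmpty := ⟨fun i _ => le_rfl, fun i _ i' _ _ h => absurd rfl h,
    fun p hp => absurd hp (Nat.not_lt_zero _)⟩
  obtain ⟨h1, h2, -⟩ := Φ.mkOp_eq E sdEmpty sdEmpty n hE hn hs hs
  obtain ⟨y, hy⟩ : ∃ y, y = Φ.mkOp (E, (sdEmpty, sdEmpty)) := ⟨_, rfl⟩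
  rw [← hy] at h1 h2 ⊢
  have h21 : y.1.1 = 0 := by rw [h2]; rfl
  have h22 : y.1.2 = 0 := by rw [h2]; rfl
  unfold OpOK at h1
  have a1 : y.2.2.1.1.1 = 0 := by
    by_contra hne
    have := (h1.1 0 (Nat.pos_of_ne_zero hne)).1
    rw [h21] at this
    exact Nat.not_lt_zero _ this
  have a2 : y.2.2.1.2.1 = 0 := by
    by_contra hne
    have := (h1.2.1 0 (Nat.pos_of_ne_zero hne)).1
    rw [h21] at this
    exact Nat.not_lt_zero _ this
  have a3 : y.2.2.2.1.1 = 0 := by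
    by_contra hne
    have := (h1.2.2 0 (Nat.pos_of_ne_zero hne)).2
    rw [h22] at this
    exact Nat.not_lt_zero _ this
  unfold opRest opR opC
  rw [h21, h22, a1, a2, a3]
  simp

/-- the base operator: entries outside the heavy blocks, size -/
theorem C11_base {c : Cst} {x : InT.den} {A0 : CooT.den} {g : GT.den} {j : ℕ} {st : StT.den}
    (h : GOK c x A0 g) (hL : Lev Φ g j st) (hC : Chk g j st) :
    opRest (st.2.2.1.1 (lev0 g j)) (st.2.1.1 (lev0 g j)).2.2.2 (st.2.1.2 (lev0 g j)).2.2.2 ≤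
        pBd c x * (x.1.2 + (x.2.1 / pK c x ^ pbb c x + 1)) ∧
      opSize (st.2.2.1.1 (lev0 g j)) ≤ pBd c x * (x.1.2 ^ 2 + (x.2.1 + 1)) := by
  have g14 : gP g 14 = pK c x := by rw [gP, h.hP]; rfl
  have g20 : gP g 20 = pBd c x := by rw [gP, h.hP]; rfl
  have g1 : gP g 1 = x.1.2 := by rw [gP, h.hP]; rfl
  have g2 : gP g 2 = x.2.1 := by rw [gP, h.hP]; rfl
  have g21 : gP g 21 = pbb c x := by rw [gP, h.hP]; rfl
  have hlj : lev0 g j ≤ j := Nat.sub_le _ _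
  obtain ⟨c1, -, -, c4⟩ := hC
  have c1 := c1 (lev0 g j) hlj le_rfl
  rw [g14, g20, g1, g2] at c1 c4
  have hKp : ∀ i, 1 ≤ pK c x ^ i := fun i => Nat.one_le_pow _ _ (C11_pK_pos c x)
  constructor
  · by_cases hj : pbb c x ≤ j
    · have h1 : j - lev0 g j = pbb c x := by
        have h2 : lev0 g j = j - pbb c x := by rw [lev0, g21]
        omega
      rw [h1] at c4
      exact C11_chk_arith _ _ _ _ _ (hKp _) c4
    · have h2 : lev0 g j = 0 := by rw [lev0, g21]; omega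
      rw [h2]
      obtain ⟨l1, l2, l3, -⟩ := hL
      obtain ⟨-, -, l4⟩ := l3 0 (Nat.zero_le _)
      rw [l1, l2] at l4
      rw [l4, C11_empty Φ (gE g) x.1.1 h.ok h.dim]
      exact Nat.zero_le _
  · refine (C11_chk_arith _ _ _ _ _ (hKp _) c1).trans ?_
    refine Nat.mul_le_mul_left _ (Nat.add_le_add_left (Nat.add_le_add_right ?_ _) _)
    exact Nat.div_le_self _ _

/-! ### the final weight -/

theorem C11_small (L : ℕ) (hL : 1000 ≤ L) : L + 1 ≤ L ^ 2 ∧ L ^ 3 + 1 ≤ L ^ 4 := by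
  constructor
  · nlinarith
  · have h3 : L ^ 4 = L * L ^ 3 := by ring
    have h4 : 1 ≤ L ^ 3 := Nat.one_le_pow _ _ (by omega)
    rw [h3]; nlinarith

theorem C11_oc (L oc rest h : ℕ) (hL : 1 ≤ L) (ho : oc ≤ rest) :
    L * oc + 1 ≤ L * (rest + h + 1) := by nlinarith

theorem C11_pq (p q r : ℕ) : r ≤ (p + 1) * (q + 1) * r := by
  have : 1 ≤ (p + 1) * (q + 1) := Nat.one_le_iff_ne_zero.2 (by positivity)
  nlinarith

theorem C11_W (c : Cst) (x : InT.den) :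
    mm (2 ^ ps c x) ≤ wAlg mm Φ.C c x ∧
    (¬ pmd c x = 1 → x.1.2 * (x.2.1 / pK c x ^ pbb c x + 1) ≤ wAlg mm Φ.C c x) ∧
    (x.2.2.1 + 1) * (x.2.2.2 + 1) * (rho0 Φ.C c x ^ pbb c x * x.1.2 ^ 2 + x.2.1) ≤
      wAlg mm Φ.C c x ∧
    x.1.2 ^ 2 + x.2.1 ≤ rho0 Φ.C c x ^ pbb c x * x.1.2 ^ 2 + x.2.1 ∧
    x.1.2 ^ 2 + x.2.1 ≤ wAlg mm Φ.C c x ∧
    (pmd c x = 1 → mm (2 ^ (ps c x + 2)) ≤ wAlg mm Φ.C c x) := by
  have h1 : ∀ a b d : ℕ, a ≤ a + b + d ∧ b ≤ a + b + d ∧ d ≤ a + b + d := fun a b d => by omega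
  obtain ⟨a1, a2, a3⟩ := h1 (mm (2 ^ ps c x)) (if pmd c x = 1 then mm (2 ^ (ps c x + 2))
      else x.1.2 * (x.2.1 / pK c x ^ pbb c x + 1))
    ((x.2.2.1 + 1) * (x.2.2.2 + 1) * (rho0 Φ.C c x ^ pbb c x * x.1.2 ^ 2 + x.2.1))
  have hr : 1 ≤ rho0 Φ.C c x ^ pbb c x := by
    have hC := Φ.C_pos
    refine Nat.one_le_pow _ _ ?_
    unfold rho0
    exact Nat.mul_pos (Nat.mul_pos (Nat.pow_pos hC) (Nat.succ_pos _)) (Nat.succ_pos _)
  have a4 : x.1.2 ^ 2 + x.2.1 ≤ rho0 Φ.C c x ^ pbb c x * x.1.2 ^ 2 + x.2.1 :=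
    Nat.add_le_add_right (Nat.le_mul_of_pos_left _ hr) _
  refine ⟨a1, fun h => ?_, a3, a4, a4.trans ((C11_pq _ _ _).trans a3), fun h => ?_⟩
  · rw [if_neg h] at a2
    exact a2.trans (le_of_eq (by unfold wAlg; rw [if_neg h]))
  · rw [if_pos h] at a2
    exact a2.trans (le_of_eq (by unfold wAlg; rw [if_pos h]))

/-- in mode `1`, `K^b k ≤ K N` -/
theorem C11_KB {c : Cst} {x : InT.den} (hkn : x.1.2 < x.1.1) (hnN : x.1.1 ≤ x.2.1)
    (h : pmd c x = 1) : pK c x ^ pbb c x * x.1.2 ≤ pK c x * x.2.1 := by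
  have hb : pbB c x < pbA c x + 1 := by
    by_contra h1
    unfold pmd at h
    rw [if_neg h1] at h
    exact absurd h (by norm_num)
  have hbb : pbb c x = pbB c x := by
    unfold pbb
    rw [if_pos hb]
  have hK : 1 ≤ pK c x := C11_pK_pos c x
  have hB : pbB c x = ∑ b ∈ range (pl c x), if (pK c x ^ b * x.1.2 < x.1.1 ∧
      pK c x ^ (2 * b) * x.1.2 < x.2.1) then 1 else 0 := by
    unfold pbB
    refine sum_congr rfl fun b _ => ?_
    by_cases h1 : pK c x ^ b * x.1.2 < x.1.1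
    · rw [if_pos h1]
      by_cases h2 : pK c x ^ (2 * b) * x.1.2 < x.2.1
      · rw [if_pos h2, if_pos ⟨h1, h2⟩]
      · rw [if_neg h2, if_neg fun h => h2 h.2]
    · rw [if_neg h1, if_neg fun h => h1 h.1]
  have hmono : ∀ b, (pK c x ^ (b + 1) * x.1.2 < x.1.1 ∧
      pK c x ^ (2 * (b + 1)) * x.1.2 < x.2.1) → (pK c x ^ b * x.1.2 < x.1.1 ∧
      pK c x ^ (2 * b) * x.1.2 < x.2.1) := by
    intro b hb
    exact ⟨lt_of_le_of_lt (Nat.mul_le_mul_right _ (Nat.pow_le_pow_right hK (by omega))) hb.1,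
      lt_of_le_of_lt (Nat.mul_le_mul_right _ (Nat.pow_le_pow_right hK (by omega))) hb.2⟩
  rw [hbb]
  rcases C11_count (fun b => pK c x ^ b * x.1.2 < x.1.1 ∧ pK c x ^ (2 * b) * x.1.2 < x.2.1)
    hmono (pl c x) with h1 | h1
  · rw [← hB] at h1
    rw [h1, pow_zero]
    exact Nat.mul_le_mul hK (le_of_lt (lt_of_lt_of_le hkn hnN))
  · rw [← hB] at h1
    rcases Nat.eq_zero_or_pos (pbB c x) with h2 | h2
    · rw [h2, pow_zero]
      exact Nat.mul_le_mul hK (le_of_lt (lt_of_lt_of_le hkn hnN))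
    · have h3 : pbB c x = pbB c x - 1 + 1 := by omega
      rw [h3, pow_succ']
      calc pK c x * pK c x ^ (pbB c x - 1) * x.1.2 =
            pK c x * (pK c x ^ (pbB c x - 1) * x.1.2) := by ring
        _ ≤ pK c x * x.2.1 := Nat.mul_le_mul_left _ ((le_of_lt h1.1).trans hnN)

theorem C11_pK_le {c : Cst} {x : InT.den} (hc : 1000 ≤ c.c1) : pK c x ≤ pl c x ^ (2 * c.ct) := by
  have h := C11_pl (x := x) hc
  have h2 : 2 ^ Nat.log2 (pl c x) ≤ pl c x := Nat.log2_self_le (by omega)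
  unfold pK ptau
  calc 4 ^ (c.ct * Nat.log2 (pl c x)) = (2 ^ Nat.log2 (pl c x)) ^ (2 * c.ct) := by
        rw [show (4 : ℕ) = 2 ^ 2 by norm_num, ← pow_mul, ← pow_mul]
        congr 1
        ring
    _ ≤ _ := Nat.pow_le_pow_left h2 _

/-- term of the exact base solver -/
theorem C11_t3 (L W k N B K KB rest cB ct : ℕ) (hL : 1000 ≤ L) (hB : B ≤ L ^ cB)
    (hK : K ≤ L ^ (2 * ct)) (hKB1 : 1 ≤ KB) (hk : 1 ≤ k) (hKB : KB * k ≤ K * N)
    (hr : rest ≤ B * (k + (N / KB + 1))) (hN : N ≤ W) :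
    C11_Le L W (2 * ct + cB + 4) ((KB + 1) * (rest + 1)) := by
  have hB1 : 1 ≤ L ^ cB := Nat.one_le_pow _ _ (by omega)
  have hT1 : 1 ≤ L ^ (2 * ct) := Nat.one_le_pow _ _ (by omega)
  have h1 : rest + 1 ≤ L ^ cB * (k + (N / KB + 2)) := by
    calc rest + 1 ≤ L ^ cB * (k + (N / KB + 1)) + L ^ cB :=
          Nat.add_le_add (hr.trans (Nat.mul_le_mul_right _ hB)) hB1
      _ = L ^ cB * (k + (N / KB + 2)) := by ring
  have h2 : KB * (N / KB) ≤ N := Nat.mul_div_le N KB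
  have h3 : KB ≤ KB * k := Nat.le_mul_of_pos_right _ hk
  have h4 : KB * (k + (N / KB + 2)) ≤ 4 * (L ^ (2 * ct) * N) := by
    have h5 : KB * k ≤ L ^ (2 * ct) * N := hKB.trans (Nat.mul_le_mul_right _ hK)
    have h6 : N ≤ L ^ (2 * ct) * N := Nat.le_mul_of_pos_left _ hT1
    calc KB * (k + (N / KB + 2)) = KB * k + KB * (N / KB) + 2 * KB := by ring
      _ ≤ 4 * (L ^ (2 * ct) * N) := by omega
  unfold C11_Le
  calc (KB + 1) * (rest + 1) ≤ (2 * KB) * (L ^ cB * (k + (N / KB + 2))) :=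
        Nat.mul_le_mul (by omega) h1
    _ = 2 * L ^ cB * (KB * (k + (N / KB + 2))) := by ring
    _ ≤ 2 * L ^ cB * (4 * (L ^ (2 * ct) * N)) := Nat.mul_le_mul_left _ h4
    _ = 8 * (L ^ (2 * ct + cB) * N) := by rw [pow_add]; ring
    _ ≤ L ^ 4 * (L ^ (2 * ct + cB) * W) := by
        refine Nat.mul_le_mul ?_ (Nat.mul_le_mul_left _ hN)
        calc 8 ≤ L := by omega
          _ ≤ L ^ 4 := Nat.le_self_pow (by omega) L
    _ = L ^ (2 * ct + cB + 4) * W := by rw [pow_add L (2 * ct + cB)]; ring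

/-- term of the base solver -/
theorem C11_t1 (L W k K N B k3 rest hc s m cB : ℕ) (hL : 1000 ≤ L) (hB : B ≤ L ^ cB)
    (h3 : k3 + 1 ≤ L ^ 19 * k) (hr : rest ≤ B * (k + (N / K + 1))) (hk3 : k3 ≤ s) (hhc : hc ≤ s)
    (hm : (s + 1) ^ 2 ≤ m) (hmW : m ≤ W) (h4 : k * (N / K + 1) ≤ W) (h5 : k ^ 2 ≤ W) :
    C11_Le L W (cB + 21) ((k3 + 1) * (rest + hc + 1)) := by
  have h6 : (k3 + 1) * (hc + 1) ≤ W := by
    calc (k3 + 1) * (hc + 1) ≤ (s + 1) * (s + 1) := Nat.mul_le_mul (by omega) (by omega)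
      _ = (s + 1) ^ 2 := by ring
      _ ≤ W := hm.trans hmW
  have h7 : C11_Le L W (19 + cB + 1) ((k3 + 1) * rest) := by
    have h8 : (k3 + 1) * rest ≤ L ^ 19 * L ^ cB * (k ^ 2 + k * (N / K + 1)) := by
      calc (k3 + 1) * rest ≤ (L ^ 19 * k) * (L ^ cB * (k + (N / K + 1))) :=
            Nat.mul_le_mul h3 (hr.trans (Nat.mul_le_mul_right _ hB))
        _ = L ^ 19 * L ^ cB * (k ^ 2 + k * (N / K + 1)) := by ring
    refine C11_Le.of_le h8 ?_
    exact (((C11_Le.base h5).add (by omega) (C11_Le.base h4)).mul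
      (F := 19 + cB) (by rw [pow_add])).mono (by omega) (by omega)
  have h9 : (k3 + 1) * (rest + hc + 1) = (k3 + 1) * rest + (k3 + 1) * (hc + 1) := by ring
  rw [h9]
  exact (h7.add (by omega) ((C11_Le.base h6).mono (by omega) (by omega))).mono (by omega)
    (by omega)

theorem C11_sz (L W k N B cB sz : ℕ) (hL : 1000 ≤ L) (hB : B ≤ L ^ cB)
    (h : sz ≤ B * (k ^ 2 + (N + 1))) (h5 : k ^ 2 + N ≤ W) (hW : 1 ≤ W) :
    C11_Le L W (cB + 1) sz := by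
  refine C11_Le.of_le h ?_
  have h6 : k ^ 2 + (N + 1) = (k ^ 2 + N) + 1 := by ring
  rw [h6]
  exact ((C11_Le.base h5).add (by omega) (C11_Le.base hW)).mul hB

/-- the solvers -/
theorem C11_ch (L e Q R W ch sz mo E : ℕ) (hL : 1000 ≤ L) (hch : ch ≤ L ^ e * (R + sz))
    (hsz : sz ≤ L ^ 30 * R) (hR : 1 ≤ R) (hm : mo ≤ L ^ E * Q) (hQ : Q * R ≤ W) :
    C11_Le L W (E + (e + 32)) (mo * (ch + sz + 1)) := by
  have hpos : ∀ i, 1 ≤ L ^ i := fun i => Nat.one_le_pow _ _ (by omega)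
  have h1 : R + sz ≤ L ^ 31 * R := by
    have h2 : L ^ 31 * R = L * (L ^ 30 * R) := by ring
    have h3 : R ≤ L ^ 30 * R := Nat.le_mul_of_pos_left _ (hpos 30)
    have h4 : 2 * (L ^ 30 * R) ≤ L * (L ^ 30 * R) := Nat.mul_le_mul_right _ (by omega)
    omega
  have h2 : ch + sz + 1 ≤ L ^ (e + 32) * R := by
    have h3 : L ^ (e + 32) * R = L * (L ^ e * (L ^ 31 * R)) := by rw [pow_add]; ring
    have h4 : ch ≤ L ^ e * (L ^ 31 * R) := hch.trans (Nat.mul_le_mul_left _ h1)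
    have h5 : sz + 1 ≤ L ^ e * (L ^ 31 * R) := by
      calc sz + 1 ≤ L ^ 31 * R := by omega
        _ ≤ L ^ e * (L ^ 31 * R) := Nat.le_mul_of_pos_left _ (hpos e)
    have h6 : 2 * (L ^ e * (L ^ 31 * R)) ≤ L * (L ^ e * (L ^ 31 * R)) :=
      Nat.mul_le_mul_right _ (by omega)
    omega
  unfold C11_Le
  calc mo * (ch + sz + 1) ≤ (L ^ E * Q) * (L ^ (e + 32) * R) := Nat.mul_le_mul hm h2
    _ = L ^ (E + (e + 32)) * (Q * R) := by rw [pow_add L E]; ring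
    _ ≤ L ^ (E + (e + 32)) * W := Nat.mul_le_mul_left _ hQ

/-- the weights of a stage -/
theorem w0_le (c : Cst) (hc : 1000 ≤ c.c1) (hC2 : Φ.C ≤ c.c1) :
    ∃ e, ∀ x A0 g j st w, GOK c x A0 g → Inv0 Φ g j st → rho0 Φ.C c x ≤ pK c x →
      1 ≤ x.1.2 → x.1.2 < x.1.1 → x.1.1 ≤ x.2.1 → j ≤ pl c x ^ 3 → (∀ m, (m + 1) ^ 2 ≤ mm m) →
      w0 Φ g j st w ≤ pl c x ^ e * wAlg mm Φ.C c x := by
  obtain ⟨e0, he0⟩ := chain_cost Φ c hc Φ.C Φ.C_pos hC2
  refine ⟨c.cB + 2 * c.ct + e0 + 60 + 1, fun x A0 g j st w hg hinv hrho hk hkn hnN hj hmm => ?_⟩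
  by_cases h0 : st.1.1 = 0
  swap
  · unfold w0
    rw [if_neg h0]
    exact Nat.zero_le _
  have hlev := hinv h0
  obtain ⟨W1, W2, W3, W4, W5, W6⟩ := C11_W Φ c x
  have hL : 1000 ≤ pl c x := C11_pl hc
  have hN1 : 1 ≤ x.2.1 := le_trans hk (le_trans (le_of_lt hkn) hnN)
  have hW1 : 1 ≤ wAlg mm Φ.C c x := le_trans hN1 ((Nat.le_add_left _ _).trans W5)
  have gv : ∀ i, gP g i = parN c x i := fun i => by rw [gP, hg.hP]
  have g20 : gP g 20 = pBd c x := gv 20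
  have g1 : gP g 1 = x.1.2 := gv 1
  have g2 : gP g 2 = x.2.1 := gv 2
  have g5 : gP g 5 = pl c x := gv 5
  have g10 : gP g 10 = pb3 c x := gv 10
  have g18 : gP g 18 = pl c x ^ 3 := gv 18
  have g12 : gP g 12 = ps c x := gv 12
  have g11 : gP g 11 = pk3 c x := gv 11
  have g24 : gP g 24 = phcap c x := gv 24
  have g19 : gP g 19 = pmout c x := gv 19
  have g0 : gP g 0 = x.1.1 := gv 0
  obtain ⟨m1, m2, m3, m4, m5⟩ := C11_m12 hc hk hkn
  have hBd : pBd c x ≤ pl c x ^ c.cB := le_rfl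
  have t1 : C11_Le (pl c x) (wAlg mm Φ.C c x) 8 ((j + 4) ^ 2) := by
    have h1 : ∀ L j : ℕ, 1000 ≤ L → j ≤ L ^ 3 → (j + 4) ^ 2 ≤ L ^ 8 := by
      intro L j hL hj
      have h3 : L ^ 4 = L * L ^ 3 := by ring
      have h4 : 1 ≤ L ^ 3 := Nat.one_le_pow _ _ (by omega)
      have h5 : j + 4 ≤ L ^ 4 := by rw [h3]; nlinarith
      calc (j + 4) ^ 2 ≤ (L ^ 4) ^ 2 := Nat.pow_le_pow_left h5 2
        _ = L ^ 8 := by ring
    exact (h1 _ _ hL hj).trans (Nat.le_mul_of_pos_right _ hW1)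
  have t2 : C11_Le (pl c x) (wAlg mm Φ.C c x) (c.cB + 1)
      (gP g 20 * (gP g 1 ^ 2 + gP g 2 + 1)) := by
    rw [g20, g1, g2]
    exact ((C11_Le.base W5).add (by omega) (C11_Le.base hW1)).mul hBd
  by_cases hck : Chk g j st
  swap
  · unfold w0
    rw [if_pos h0, if_neg hck, Nat.add_zero]
    exact ((t1.mono (F := c.cB + 2 * c.ct + e0 + 60) (by omega) (by omega)).add (by omega)
      (t2.mono (by omega) (by omega)))
  obtain ⟨b1, b2⟩ := C11_base Φ hg hlev hck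
  have hszE := C11_opSize hc hg hk hkn hnN
  have hch := he0 x A0 g j st w hg hlev hck hrho hk hkn hj
  have hsE : C11_Le (pl c x) (wAlg mm Φ.C c x) 30 (opSize (gE g)) :=
    hszE.trans (Nat.mul_le_mul_left _ W5)
  have hsD : C11_Le (pl c x) (wAlg mm Φ.C c x) (c.cB + 1) (opSize (st.2.2.1.1 (lev0 g j))) :=
    C11_sz _ _ x.1.2 x.2.1 _ _ _ hL hBd b2 W5 hW1
  have hopC : opC (st.2.2.1.1 (lev0 g j)) ≤ opSize (st.2.2.1.1 (lev0 g j)) := by
    have h1 : ∀ a b d e f k : ℕ, b ≤ a + b + d + e + f + k := fun a b d e f k => by omega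
    exact h1 _ _ _ _ _ _
  have hopR : opC (st.2.2.1.1 (lev0 g j)) ≤ opRest (st.2.2.1.1 (lev0 g j))
      (st.2.1.1 (lev0 g j)).2.2.2 (st.2.1.2 (lev0 g j)).2.2.2 := by
    have h1 : ∀ a b d e f : ℕ, b ≤ a + b + d + e + f := fun a b d e f => by omega
    exact h1 _ _ _ _ _
  have t9 : C11_Le (pl c x) (wAlg mm Φ.C c x) (c.ct + 6 + (e0 + 32))
      ((pmout c x + 1) * (chCost Φ.C (theta Φ g j st w) (topIx g j) + opSize (gE g) + 1)) := by
    refine C11_ch (pl c x) e0 ((x.2.2.1 + 1) * (x.2.2.2 + 1))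
      (rho0 Φ.C c x ^ pbb c x * x.1.2 ^ 2 + x.2.1) _ _ _ _ _ hL hch
      (hszE.trans (Nat.mul_le_mul_left _ W4)) (le_trans hN1 (Nat.le_add_left _ _)) ?_ W3
    exact C11_mout_arith (pl c x) (2 ^ ptau c x) x.2.2.1 x.2.2.2 c.ct hL
      (C11_tau _ _ (by omega))
  have t10 : C11_Le (pl c x) (wAlg mm Φ.C c x) 0 x.1.1 :=
    C11_Le.base (le_trans hnN (le_trans (Nat.le_add_left _ _) W5))
  have t11 : C11_Le (pl c x) (wAlg mm Φ.C c x) (1 + 0) (pl c x * x.1.1) :=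
    t10.mul (by rw [pow_one])
  have g25 : gP g 25 = pmd c x := gv 25
  have g26 : gP g 26 = pK c x ^ pbb c x := gv 26
  have hps : ps c x + 1 ≤ pl c x ^ (c.cB + 24) :=
    C11_ps_arith (pl c x) x.1.2 (pm2 c x) (pk3 c x) c.cB (ps c x) hL (C11_k_le hc hkn)
      m2 m3 rfl
  have hps3 : ps c x + 3 ≤ pl c x ^ (c.cB + 25) := by
    have h1 : 1 ≤ pl c x ^ (c.cB + 24) := Nat.one_le_pow _ _ (by omega)
    have h2 : ∀ s y z : ℕ, s + 1 ≤ y → 1 ≤ y → 1000 ≤ z → s + 3 ≤ y * z := by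
      intro s y z e1 e2 e3
      nlinarith
    rw [show c.cB + 25 = c.cB + 24 + 1 by omega, pow_succ]
    exact h2 _ _ _ hps h1 hL
  by_cases hmd : pmd c x = 1
  · -- the exact base solver
    have s3 : C11_Le (pl c x) (wAlg mm Φ.C c x) (c.cB + 25 + 0)
        ((ps c x + 3) * mm (2 ^ (ps c x + 2))) := (C11_Le.base (W6 hmd)).mul hps3
    have s4 := C11_t3 (pl c x) (wAlg mm Φ.C c x) x.1.2 x.2.1 (pBd c x) (pK c x)
      (pK c x ^ pbb c x) _ c.cB c.ct hL hBd (C11_pK_le hc)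
      (Nat.one_le_pow _ _ (C11_pK_pos c x)) hk (C11_KB hkn hnN hmd) b1
      ((Nat.le_add_left _ _).trans W5)
    have hfin := C11_sum10 (L := pl c x) (W := wAlg mm Φ.C c x) (E := c.cB + 2 * c.ct + e0 + 60)
      (by omega) (t1.mono (by omega) (by omega)) (t2.mono (by omega) (by omega))
      (s3.mono (by omega) (by omega)) (s4.mono (by omega) (by omega))
      (hsD.mono (by omega) (by omega)) (hsE.mono (by omega) (by omega))
      (t9.mono (by omega) (by omega)) (t10.mono (by omega) (by omega))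
      (t11.mono (by omega) (by omega)) (t11.mono (by omega) (by omega))
    unfold w0
    rw [if_pos h0, if_pos hck, if_pos (g25.trans hmd), hg.hT.1, hg.hS.1, g12, g19, g0, g26]
    exact hfin
  -- the base solver
  have hs1 : pk3 c x ≤ 2 ^ ps c x ∧ phcap c x ≤ 2 ^ ps c x := by
    have h1 : ∀ a b d : ℕ, d ≤ 2 ^ (Nat.log2 (a + b + d) + 1) ∧
        a ≤ 2 ^ (Nat.log2 (a + b + d) + 1) := by
      intro a b d
      have := C11_lt_two_pow (m := a + b + d)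
      omega
    exact h1 _ _ _
  have hk2W : x.1.2 ^ 2 ≤ wAlg mm Φ.C c x := le_trans (Nat.le_add_right _ _) W5
  have hbase := C11_t1 (pl c x) (wAlg mm Φ.C c x) x.1.2 (pK c x ^ pbb c x) x.2.1 (pBd c x)
    (pk3 c x) _ (phcap c x) (2 ^ ps c x) (mm (2 ^ ps c x)) c.cB hL hBd m3 b1 hs1.1 hs1.2
    (hmm _) W1 (W2 hmd) hk2W
  obtain ⟨rest, hrest⟩ : ∃ y, y = opRest (st.2.2.1.1 (lev0 g j))
      (st.2.1.1 (lev0 g j)).2.2.2 (st.2.1.2 (lev0 g j)).2.2.2 := ⟨_, rfl⟩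
  rw [← hrest] at hopR b1 hbase
  obtain ⟨oc, hoc⟩ : ∃ y, y = opC (st.2.2.1.1 (lev0 g j)) := ⟨_, rfl⟩
  rw [← hoc] at hopR hopC
  -- terms
  obtain ⟨hl1, hl3⟩ := C11_small (pl c x) hL
  have t3 : C11_Le (pl c x) (wAlg mm Φ.C c x) (2 + 2 + (c.cB + 1 + 1))
      ((pl c x + 1) * (oc + 1) * (pb3 c x + 1)) := by
    have h1 : (pl c x + 1) * (oc + 1) * (pb3 c x + 1) =
        ((pl c x + 1) * (pb3 c x + 1)) * (oc + 1) := by ring
    rw [h1]
    refine C11_Le.mul ?_ ((hsD.of_le hopC).add (by omega)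
      ((C11_Le.base hW1).mono (by omega) (by omega)))
    calc (pl c x + 1) * (pb3 c x + 1) ≤ pl c x ^ 2 * pl c x ^ 2 := Nat.mul_le_mul hl1 m5
      _ = pl c x ^ (2 + 2) := by rw [pow_add]
  have t4 : C11_Le (pl c x) (wAlg mm Φ.C c x) 19 (2 ^ pb3 c x) := by
    have h1 : x.1.2 ≤ wAlg mm Φ.C c x :=
      le_trans (Nat.le_self_pow (by omega) x.1.2) hk2W
    exact m4.trans (Nat.mul_le_mul_left _ h1)
  have t5 : C11_Le (pl c x) (wAlg mm Φ.C c x) (4 + (c.cB + 21 + 1 + 1))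
      ((pl c x ^ 3 + 1) * (mm (2 ^ ps c x) + (pk3 c x + 1) * (rest + phcap c x + 1) +
        opSize (st.2.2.1.1 (lev0 g j)))) := by
    refine C11_Le.mul hl3 ?_
    exact (((C11_Le.base W1).mono (by omega) (by omega)).add (by omega) hbase).add (by omega)
      (hsD.mono (by omega) (by omega))
  have t6 : C11_Le (pl c x) (wAlg mm Φ.C c x) (c.cB + 24 + 0)
      ((ps c x + 1) * mm (2 ^ ps c x)) := by
    exact C11_Le.mul hps (C11_Le.base W1)
  have t7 : C11_Le (pl c x) (wAlg mm Φ.C c x) (1 + (c.cB + 21))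
      ((pk3 c x + 1) * (pl c x * oc + 1)) := by
    have h1 : (pk3 c x + 1) * (pl c x * oc + 1) ≤
        pl c x * ((pk3 c x + 1) * (rest + phcap c x + 1)) := by
      calc (pk3 c x + 1) * (pl c x * oc + 1)
          ≤ (pk3 c x + 1) * (pl c x * (rest + phcap c x + 1)) := by
            exact Nat.mul_le_mul_left _ (C11_oc _ _ _ _ (by omega) hopR)
        _ = _ := by ring
    exact (hbase.mul (by rw [pow_one])).of_le h1
  have hfin := C11_sum12 (L := pl c x) (W := wAlg mm Φ.C c x) (E := c.cB + 2 * c.ct + e0 + 60)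
    (by omega) (t1.mono (by omega) (by omega)) (t2.mono (by omega) (by omega))
    (t3.mono (by omega) (by omega)) (t4.mono (by omega) (by omega))
    (t5.mono (by omega) (by omega)) (t6.mono (by omega) (by omega))
    (t7.mono (by omega) (by omega)) (hsE.mono (by omega) (by omega))
    (t9.mono (by omega) (by omega)) (t10.mono (by omega) (by omega))
    (t11.mono (by omega) (by omega)) (t11.mono (by omega) (by omega))
  unfold w0
  rw [if_pos h0, if_pos hck, if_neg (fun h => hmd (g25.symm.trans h)), hg.hT.1, hg.hS.1, g5, g10,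
    g18, g12, g11, g24, g19, g0, ← hrest, ← hoc]
  exact hfin

/-- the last three links -/
theorem C11_theta (g : GT.den) (j : ℕ) (st : StT.den) (w : ℕ → ℕ) :
    ((theta Φ g j st w).1 (topIx g j)).2 = gE g ∧
    ((theta Φ g j st w).1 (topIx g j + 1)).2 = gE g ∧
    ((theta Φ g j st w).1 (topIx g j + 2)).2 = gE g ∧
    (theta Φ g j st w).2.2.1 (topIx g j + 1) = gP g 17 ∧
    (theta Φ g j st w).2.2.1 (topIx g j + 2) = gP g 16 := by
  have h2 : 2 ≤ topIx g j := Nat.le_add_left _ _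
  refine ⟨?_, ?_, ?_, ?_, ?_⟩
  · unfold theta asm
    dsimp only
    rw [tabV_lt (by omega), if_neg (by omega), if_neg (by omega), if_neg (by omega)]
  · unfold theta asm
    dsimp only
    rw [tabV_lt (by omega), if_neg (by omega), if_neg (by omega), if_pos (by omega)]
  · unfold theta asm
    dsimp only
    rw [tabV_lt (by omega), if_neg (by omega), if_neg (by omega), if_neg (by omega)]
  · unfold theta asm
    dsimp only
    rw [tabV_lt (by omega), if_neg (by omega), if_pos (by omega)]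
  · unfold theta asm
    dsimp only
    rw [tabV_lt (by omega), if_neg (by omega), if_neg (by omega), if_neg (by omega)]

theorem C11_w1_arith (L W e ct C a s d1 dK n M : ℕ) (hL : 1000 ≤ L) (hC : C ≤ L)
    (hdK : dK + 2 ≤ L ^ (ct + 7)) (hd1 : d1 + 2 ≤ L ^ 7) (ha : C11_Le L W e a)
    (hs : C11_Le L W e s) (hn : n ≤ W) (hW : 1 ≤ W) (hM : M = L ^ 6) :
    C11_Le L W (e + ct + 40) ((M + 1) * (n + 1) * (L + 1) + (M + 1) * (a + s +
      C * (dK + 2) * (a + s + s) + s + C * (d1 + 2) * (C * (dK + 2) * (a + s + s) + s + s) + s) +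
      s) := by
  have hM1 : M + 1 ≤ L ^ 7 := by
    have h3 : L ^ 7 = L * L ^ 6 := by ring
    have h4 : 1 ≤ L ^ 6 := Nat.one_le_pow _ _ (by omega)
    rw [h3, hM]; nlinarith
  have hc1 : C * (dK + 2) ≤ L ^ (1 + (ct + 7)) := by
    rw [pow_add, pow_one]; exact Nat.mul_le_mul hC hdK
  have hc2 : C * (d1 + 2) ≤ L ^ (1 + 7) := by
    rw [pow_add, pow_one]; exact Nat.mul_le_mul hC hd1
  have h2 : 2 ≤ L := by omega
  have h1 : 1 ≤ L := by omega
  have x1 : C11_Le L W (e + 2) (a + s + s) :=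
    (ha.add h2 hs).add h2 (hs.mono h1 (by omega))
  have x2 : C11_Le L W (1 + (ct + 7) + (e + 2)) (C * (dK + 2) * (a + s + s)) := x1.mul hc1
  have x3 : C11_Le L W (1 + (ct + 7) + (e + 2) + 2) (C * (dK + 2) * (a + s + s) + s + s) :=
    (x2.add h2 (hs.mono h1 (by omega))).add h2 (hs.mono h1 (by omega))
  have x4 := x3.mul hc2
  have x5 : C11_Le L W (e + ct + 30) (a + s + C * (dK + 2) * (a + s + s) + s +
      C * (d1 + 2) * (C * (dK + 2) * (a + s + s) + s + s) + s) := by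
    have y1 : C11_Le L W (e + ct + 25) (a + s + C * (dK + 2) * (a + s + s)) :=
      (((ha.add h2 hs).mono (F := e + ct + 24) h1 (by omega)).add h2 (x2.mono h1 (by omega)))
    have y2 := y1.add h2 (hs.mono (F := e + ct + 25) h1 (by omega))
    have y3 := y2.add h2 (x4.mono (F := e + ct + 25 + 1) h1 (by omega))
    exact (y3.add h2 (hs.mono (F := e + ct + 25 + 1 + 1) h1 (by omega))).mono h1 (by omega)
  have x6 := x5.mul hM1
  have x7 : C11_Le L W (7 + 2 + 1) ((M + 1) * (n + 1) * (L + 1)) := by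
    have e1 : (M + 1) * (n + 1) * (L + 1) = ((M + 1) * (L + 1)) * (n + 1) := by ring
    rw [e1]
    refine C11_Le.mul ?_ ((C11_Le.base hn).add h2 (C11_Le.base hW))
    rw [pow_add]
    exact Nat.mul_le_mul hM1 (by nlinarith)
  exact ((((x7.mono (F := e + ct + 37) h1 (by omega)).add h2 (x6.mono h1 (by omega))).add h2
    (hs.mono h1 (by omega))).mono h1 (by omega))

theorem w1_le (c : Cst) (hc : 1000 ≤ c.c1) (hC2 : Φ.C ≤ c.c1) :
    ∃ e, ∀ x A0 g j st, GOK c x A0 g → Inv1 Φ g j st → rho0 Φ.C c x ≤ pK c x →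
      1 ≤ x.1.2 → x.1.2 < x.1.1 → x.1.1 ≤ x.2.1 → j ≤ pl c x ^ 3 → (∀ m, (m + 1) ^ 2 ≤ mm m) →
      w1 Φ g j st ≤ pl c x ^ e * wAlg mm Φ.C c x := by
  obtain ⟨e0, he0⟩ := chain_cost Φ c hc Φ.C Φ.C_pos hC2
  refine ⟨e0 + 32 + c.ct + 40, fun x A0 g j st hg hinv hrho hk hkn hnN hj hmm => ?_⟩
  by_cases h0 : st.1.1 = 0
  swap
  · unfold w1
    rw [if_neg h0]
    exact Nat.zero_le _
  obtain ⟨hlev, hck, w, hw⟩ := hinv h0
  obtain ⟨W1, W2, W3, W4, W5, W6⟩ := C11_W Φ c x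
  have hL : 1000 ≤ pl c x := C11_pl hc
  have hN1 : 1 ≤ x.2.1 := le_trans hk (le_trans (le_of_lt hkn) hnN)
  have hW1 : 1 ≤ wAlg mm Φ.C c x := le_trans hN1 ((Nat.le_add_left _ _).trans W5)
  have hszE := C11_opSize hc hg hk hkn hnN
  have hch := he0 x A0 g j st w hg hlev hck hrho hk hkn hj
  have hsE : C11_Le (pl c x) (wAlg mm Φ.C c x) 30 (opSize (gE g)) :=
    hszE.trans (Nat.mul_le_mul_left _ W5)
  have hR : rho0 Φ.C c x ^ pbb c x * x.1.2 ^ 2 + x.2.1 ≤ wAlg mm Φ.C c x := by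
    exact (C11_pq _ _ _).trans W3
  have ha : C11_Le (pl c x) (wAlg mm Φ.C c x) (e0 + (30 + 1))
      (chCost Φ.C (theta Φ g j st w) (topIx g j)) := by
    refine C11_Le.of_le hch (C11_Le.mul le_rfl ?_)
    exact (((C11_Le.base hR).mono (by omega) (by omega)).add (by omega) hsE)
  have gv : ∀ i, gP g i = parN c x i := fun i => by rw [gP, hg.hP]
  have g13 : gP g 13 = pl c x ^ 6 := gv 13
  have g0 : gP g 0 = x.1.1 := gv 0
  have g5 : gP g 5 = pl c x := gv 5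
  have g16 : gP g 16 = pl c x * (2 * pl c x ^ 5 + 2) := gv 16
  have g17 : gP g 17 = pl c x * 2 ^ ptau c x * (2 * pl c x ^ 5 + 2) := gv 17
  obtain ⟨d1, d2⟩ := C11_deg_arith (pl c x) (2 ^ ptau c x) c.ct hL (C11_tau _ _ (by omega))
  obtain ⟨h1, h2, h3, h4, h5⟩ := C11_theta Φ g j st w
  have hCL : Φ.C ≤ pl c x := hC2.trans (Nat.le_add_left _ _)
  have hn : x.1.1 ≤ wAlg mm Φ.C c x := le_trans hnN (le_trans (Nat.le_add_left _ _) W5)
  have hfin := C11_w1_arith (pl c x) (wAlg mm Φ.C c x) (e0 + 32) c.ct Φ.C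
    (chCost Φ.C (theta Φ g j st w) (topIx g j)) (opSize (gE g)) _ _ x.1.1 (pl c x ^ 6) hL hCL
    d1 d2 (ha.mono (by omega) (by omega)) (hsE.mono (by omega) (by omega)) hn hW1 rfl
  have e1 : chCost Φ.C (theta Φ g j st w) (topIx g j + 1) = Φ.C *
      (pl c x * 2 ^ ptau c x * (2 * pl c x ^ 5 + 2) + 2) *
      (chCost Φ.C (theta Φ g j st w) (topIx g j) + opSize (gE g) + opSize (gE g)) := by
    have h := chCost.eq_2 Φ.C (theta Φ g j st w) (topIx g j)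
    rw [h4, g17, h1, h2] at h
    exact h
  have e2 : chCost Φ.C (theta Φ g j st w) (topIx g j + 2) = Φ.C *
      (pl c x * (2 * pl c x ^ 5 + 2) + 2) *
      (chCost Φ.C (theta Φ g j st w) (topIx g j + 1) + opSize (gE g) + opSize (gE g)) := by
    have h := chCost.eq_2 Φ.C (theta Φ g j st w) (topIx g j + 1)
    rw [h5, g16, h2, h3] at h
    exact h
  unfold w1
  rw [if_pos h0, hw, g13, g0, g5, h1, h2, h3, e2, e1]
  exact hfin

end

end A56
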