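import Pool.Agent.Lib_helper50.A56.Par
import Pool.Agent.Lib_helper50.A56.B.C1
/-!
# MP_a55cb8, block C2: the cost of the parameters
-/

open Finset

namespace A56

/-! ## the input as natural numbers -/

def C2_n (x : InT.den) : ℕ := x.1.1
def C2_k (x : InT.den) : ℕ := x.1.2
def C2_N (x : InT.den) : ℕ := x.2.1
def C2_a (x : InT.den) : ℕ := x.2.2.1
def C2_q (x : InT.den) : ℕ := x.2.2.2

section

variable (c : Cst) (x : InT.den)

theorem C2_wPar : wPar c x = C2_n x + (C2_k x + 1) * pl c x ^ (c.cB + 40) + C2_q x := rfl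
theorem C2_pb1 : pb1 c x = Nat.log2 (16 * (C2_k x + 1) * pl c x ^ 6) + 1 := rfl
theorem C2_pb2 : pb2 c x = Nat.log2 (16 * (pm1 c x + 1) * pl c x ^ 6) + 1 := rfl
theorem C2_pb3 : pb3 c x = Nat.log2 (16 * (pkk c x + 1) * pl c x ^ 6) + 1 := rfl
theorem C2_pm1e : pm1 c x = pl c x * 2 ^ pb1 c x := rfl
theorem C2_pm2e : pm2 c x = pl c x * 2 ^ pb2 c x := rfl
theorem C2_pk3e : pk3 c x = pl c x * 2 ^ pb3 c x := rfl
theorem C2_pkk : pkk c x = C2_k x + pm1 c x := rfl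

/-! ## bounds of the values -/

theorem C2_pl (hc : 2 ≤ c.c1) : 2 ≤ pl c x := by
  unfold pl
  omega

theorem C2_pos (hc : 2 ≤ c.c1) (j : ℕ) : 1 ≤ pl c x ^ j :=
  Nat.one_le_pow _ _ (by have := C2_pl c x hc; omega)

theorem C2_mono (hc : 2 ≤ c.c1) {i j : ℕ} (h : i ≤ j) : pl c x ^ i ≤ pl c x ^ j :=
  Nat.pow_le_pow_right (by have := C2_pl c x hc; omega) h

/-- the main term of the weight -/
theorem C2_w (hc : 2 ≤ c.c1) {j : ℕ} (hj : j ≤ c.cB + 40) :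
    (C2_k x + 1) * pl c x ^ j ≤ wPar c x := by
  rw [C2_wPar]
  have h1 : (C2_k x + 1) * pl c x ^ j ≤ (C2_k x + 1) * pl c x ^ (c.cB + 40) :=
    Nat.mul_le_mul_left _ (C2_mono c x hc hj)
  omega

theorem C2_w1 (hc : 2 ≤ c.c1) {j : ℕ} (hj : j ≤ c.cB + 40) : pl c x ^ j ≤ wPar c x := by
  refine le_trans ?_ (C2_w c x hc hj)
  exact Nat.le_mul_of_pos_left _ (by omega)

theorem C2_lw (hc : 2 ≤ c.c1) : pl c x ≤ wPar c x := by
  simpa using C2_w1 c x hc (j := 1) (by omega)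

theorem C2_nw : C2_n x ≤ wPar c x := by
  rw [C2_wPar]
  omega

theorem C2_qw : C2_q x ≤ wPar c x := by
  rw [C2_wPar]
  omega

theorem C2_two_log {v : ℕ} (hv : v ≠ 0) : 2 ^ (Nat.log2 v + 1) ≤ 2 * v := by
  rw [pow_succ, mul_comm]
  exact Nat.mul_le_mul_left 2 (Nat.log2_self_le hv)

theorem C2_log_le (v : ℕ) : Nat.log2 v ≤ v := by
  rcases Nat.eq_zero_or_pos v with rfl | hv
  · simp
  · have h1 := Nat.log2_self_le (n := v) (by omega)
    have h2 : Nat.log2 v < 2 ^ Nat.log2 v := Nat.lt_two_pow_self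
    omega

theorem C2_one (hc : 2 ≤ c.c1) (j : ℕ) : 1 ≤ (C2_k x + 1) * pl c x ^ j :=
  Nat.mul_pos (by omega) (C2_pos c x hc j)

theorem C2_pm1 (hc : 2 ≤ c.c1) : pm1 c x ≤ 32 * ((C2_k x + 1) * pl c x ^ 7) := by
  rw [C2_pm1e, C2_pb1]
  have h1 : 16 * (C2_k x + 1) * pl c x ^ 6 ≠ 0 := by
    have := C2_pos c x hc 6
    positivity
  have h2 := C2_two_log h1
  calc pl c x * 2 ^ (Nat.log2 (16 * (C2_k x + 1) * pl c x ^ 6) + 1)
      ≤ pl c x * (2 * (16 * (C2_k x + 1) * pl c x ^ 6)) := Nat.mul_le_mul_left _ h2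
    _ = _ := by ring

theorem C2_arg2 (hc : 2 ≤ c.c1) :
    16 * (pm1 c x + 1) * pl c x ^ 6 ≤ 528 * ((C2_k x + 1) * pl c x ^ 13) := by
  have h1 := C2_pm1 c x hc
  have h2 := C2_one c x hc 7
  have h3 : pm1 c x + 1 ≤ 33 * ((C2_k x + 1) * pl c x ^ 7) := by omega
  calc 16 * (pm1 c x + 1) * pl c x ^ 6
      ≤ 16 * (33 * ((C2_k x + 1) * pl c x ^ 7)) * pl c x ^ 6 := by
        gcongr
    _ = _ := by ring

theorem C2_pm2 (hc : 2 ≤ c.c1) : pm2 c x ≤ 1056 * ((C2_k x + 1) * pl c x ^ 14) := by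
  rw [C2_pm2e, C2_pb2]
  have h1 : 16 * (pm1 c x + 1) * pl c x ^ 6 ≠ 0 := by
    have := C2_pos c x hc 6
    positivity
  have h2 := C2_two_log h1
  have h3 := C2_arg2 c x hc
  calc pl c x * 2 ^ (Nat.log2 (16 * (pm1 c x + 1) * pl c x ^ 6) + 1)
      ≤ pl c x * (2 * (528 * ((C2_k x + 1) * pl c x ^ 13))) :=
        Nat.mul_le_mul_left _ (h2.trans (Nat.mul_le_mul_left 2 h3))
    _ = _ := by ring

theorem C2_arg3 (hc : 2 ≤ c.c1) :
    16 * (pkk c x + 1) * pl c x ^ 6 ≤ 528 * ((C2_k x + 1) * pl c x ^ 13) := by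
  have h1 := C2_pm1 c x hc
  have h2 : C2_k x + 1 ≤ (C2_k x + 1) * pl c x ^ 7 :=
    Nat.le_mul_of_pos_right _ (C2_pos c x hc 7)
  have h3 : pkk c x + 1 ≤ 33 * ((C2_k x + 1) * pl c x ^ 7) := by
    rw [C2_pkk]
    omega
  calc 16 * (pkk c x + 1) * pl c x ^ 6
      ≤ 16 * (33 * ((C2_k x + 1) * pl c x ^ 7)) * pl c x ^ 6 := by
        gcongr
    _ = _ := by ring

theorem C2_pk3 (hc : 2 ≤ c.c1) : pk3 c x ≤ 1056 * ((C2_k x + 1) * pl c x ^ 14) := by
  rw [C2_pk3e, C2_pb3]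
  have h1 : 16 * (pkk c x + 1) * pl c x ^ 6 ≠ 0 := by
    have := C2_pos c x hc 6
    positivity
  have h2 := C2_two_log h1
  have h3 := C2_arg3 c x hc
  calc pl c x * 2 ^ (Nat.log2 (16 * (pkk c x + 1) * pl c x ^ 6) + 1)
      ≤ pl c x * (2 * (528 * ((C2_k x + 1) * pl c x ^ 13))) :=
        Nat.mul_le_mul_left _ (h2.trans (Nat.mul_le_mul_left 2 h3))
    _ = _ := by ring

end

/-! ## programs -/

section

variable (c : Cst)

theorem C2_log {F : InT.den → ℕ} (hF : OC InT .nat (fun _ => True) F (wPar c)) (K : ℕ)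
    (hK : ∀ x, F x ≤ K * (wPar c x + 1)) :
    OC InT .nat (fun _ => True) (fun x => Nat.log2 (F x)) (wPar c) :=
  OC.comp log2_oc hF (fun _ _ => trivial) K fun x _ => hK x

theorem C2_npow {B F : InT.den → ℕ} (hB : OC InT .nat (fun _ => True) B (wPar c))
    (hF : OC InT .nat (fun _ => True) F (wPar c)) (K : ℕ)
    (hK : ∀ x, F x ≤ K * (wPar c x + 1)) :
    OC InT .nat (fun _ => True) (fun x => B x ^ F x) (wPar c) :=
  OC.comp (F := fun x => (B x, F x)) npow_oc (OC.pair hB hF) (fun _ _ => trivial) K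
    fun x _ => hK x

theorem C2_n_oc : OC InT .nat (fun _ => True) C2_n (wPar c) := OC.fst (OC.fst OC.id)
theorem C2_k_oc : OC InT .nat (fun _ => True) C2_k (wPar c) := OC.snd (OC.fst OC.id)
theorem C2_N_oc : OC InT .nat (fun _ => True) C2_N (wPar c) := OC.fst (OC.snd OC.id)
theorem C2_a_oc : OC InT .nat (fun _ => True) C2_a (wPar c) := OC.fst (OC.snd (OC.snd OC.id))
theorem C2_q_oc : OC InT .nat (fun _ => True) C2_q (wPar c) := OC.snd (OC.snd (OC.snd OC.id))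

theorem C2_pl_oc : OC InT .nat (fun _ => True) (pl c) (wPar c) :=
  OC.nadd (C2_log c (C2_n_oc c) 1 fun x => (C2_nw c x).trans (by omega)) (OC.nlit _)

theorem C2_loglog_oc (hc : 2 ≤ c.c1) :
    OC InT .nat (fun _ => True) (fun x => Nat.log2 (pl c x)) (wPar c) :=
  C2_log c (C2_pl_oc c) 1 fun x => by have := C2_lw c x hc; omega

theorem C2_tau_oc (hc : 2 ≤ c.c1) : OC InT .nat (fun _ => True) (ptau c) (wPar c) :=
  OC.nmul (OC.nlit _) (C2_loglog_oc c hc)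

theorem C2_tau_le (hc : 2 ≤ c.c1) (x : InT.den) : ptau c x ≤ c.ct * (wPar c x + 1) := by
  unfold ptau
  have h1 := C2_log_le (pl c x)
  have h2 := C2_lw c x hc
  exact Nat.mul_le_mul_left _ (by omega)

theorem C2_K_oc (hc : 2 ≤ c.c1) : OC InT .nat (fun _ => True) (pK c) (wPar c) :=
  C2_npow c (OC.nlit 4) (C2_tau_oc c hc) c.ct (C2_tau_le c hc)

theorem C2_2tau_oc (hc : 2 ≤ c.c1) :
    OC InT .nat (fun _ => True) (fun x => 2 ^ ptau c x) (wPar c) :=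
  C2_npow c (OC.nlit 2) (C2_tau_oc c hc) c.ct (C2_tau_le c hc)

theorem C2_pb1_oc (hc : 2 ≤ c.c1) : OC InT .nat (fun _ => True) (pb1 c) (wPar c) :=
  OC.nadd (C2_log c (F := fun x => 16 * (C2_k x + 1) * pl c x ^ 6)
    (OC.nmul (OC.nmul (OC.nlit 16) (OC.nadd (C2_k_oc c) (OC.nlit 1)))
    ((C2_pl_oc c).npow 6)) 16 fun x => by
      have h := C2_w c x hc (j := 6) (by omega)
      rw [mul_assoc]
      exact Nat.mul_le_mul_left _ (by omega)) (OC.nlit 1)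

theorem C2_pb1_le (hc : 2 ≤ c.c1) (x : InT.den) : pb1 c x ≤ 16 * (wPar c x + 1) := by
  rw [C2_pb1]
  have h := C2_w c x hc (j := 6) (by omega)
  have h1 := C2_log_le (16 * (C2_k x + 1) * pl c x ^ 6)
  rw [mul_assoc] at h1 ⊢
  omega

theorem C2_pm1_oc (hc : 2 ≤ c.c1) : OC InT .nat (fun _ => True) (pm1 c) (wPar c) :=
  OC.nmul (C2_pl_oc c) (C2_npow c (OC.nlit 2) (C2_pb1_oc c hc) 16 (C2_pb1_le c hc))

theorem C2_pb2_oc (hc : 2 ≤ c.c1) : OC InT .nat (fun _ => True) (pb2 c) (wPar c) :=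
  OC.nadd (C2_log c (OC.nmul (OC.nmul (OC.nlit 16) (OC.nadd (C2_pm1_oc c hc) (OC.nlit 1)))
    ((C2_pl_oc c).npow 6)) 528 fun x => by
      have h := C2_w c x hc (j := 13) (by omega)
      have h1 := C2_arg2 c x hc
      omega) (OC.nlit 1)

theorem C2_pb2_le (hc : 2 ≤ c.c1) (x : InT.den) : pb2 c x ≤ 528 * (wPar c x + 1) := by
  rw [C2_pb2]
  have h := C2_w c x hc (j := 13) (by omega)
  have h1 := C2_arg2 c x hc
  have h2 := C2_log_le (16 * (pm1 c x + 1) * pl c x ^ 6)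
  omega

theorem C2_pm2_oc (hc : 2 ≤ c.c1) : OC InT .nat (fun _ => True) (pm2 c) (wPar c) :=
  OC.nmul (C2_pl_oc c) (C2_npow c (OC.nlit 2) (C2_pb2_oc c hc) 528 (C2_pb2_le c hc))

theorem C2_pkk_oc (hc : 2 ≤ c.c1) : OC InT .nat (fun _ => True) (pkk c) (wPar c) :=
  OC.nadd (C2_k_oc c) (C2_pm1_oc c hc)

theorem C2_pb3_oc (hc : 2 ≤ c.c1) : OC InT .nat (fun _ => True) (pb3 c) (wPar c) :=
  OC.nadd (C2_log c (OC.nmul (OC.nmul (OC.nlit 16) (OC.nadd (C2_pkk_oc c hc) (OC.nlit 1)))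
    ((C2_pl_oc c).npow 6)) 528 fun x => by
      have h := C2_w c x hc (j := 13) (by omega)
      have h1 := C2_arg3 c x hc
      omega) (OC.nlit 1)

theorem C2_pb3_le (hc : 2 ≤ c.c1) (x : InT.den) : pb3 c x ≤ 528 * (wPar c x + 1) := by
  rw [C2_pb3]
  have h := C2_w c x hc (j := 13) (by omega)
  have h1 := C2_arg3 c x hc
  have h2 := C2_log_le (16 * (pkk c x + 1) * pl c x ^ 6)
  omega

theorem C2_pk3_oc (hc : 2 ≤ c.c1) : OC InT .nat (fun _ => True) (pk3 c) (wPar c) :=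
  OC.nmul (C2_pl_oc c) (C2_npow c (OC.nlit 2) (C2_pb3_oc c hc) 528 (C2_pb3_le c hc))

theorem C2_Bd_oc : OC InT .nat (fun _ => True) (pBd c) (wPar c) := (C2_pl_oc c).npow c.cB

theorem C2_hcap_oc : OC InT .nat (fun _ => True) (phcap c) (wPar c) :=
  OC.nmul (C2_Bd_oc c) (OC.nadd (C2_k_oc c) (OC.nlit 1))

theorem C2_ps_oc (hc : 2 ≤ c.c1) : OC InT .nat (fun _ => True) (ps c) (wPar c) :=
  OC.nadd (C2_log c (OC.nadd (OC.nadd (C2_hcap_oc c) (C2_pm2_oc c hc)) (C2_pk3_oc c hc)) 2113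
    fun x => by
      have h := C2_w c x hc (j := 14) (by omega)
      have h1 := C2_pm2 c x hc
      have h2 := C2_pk3 c x hc
      have h3 : phcap c x = (C2_k x + 1) * pl c x ^ c.cB := mul_comm _ _
      have h4 := C2_w c x hc (j := c.cB) (by omega)
      omega) (OC.nlit 1)

theorem C2_pM_oc : OC InT .nat (fun _ => True) (pM c) (wPar c) := (C2_pl_oc c).npow 6

theorem C2_pt_oc : OC InT .nat (fun _ => True) (pt c) (wPar c) :=
  OC.nadd (OC.nmul (OC.nlit 2) ((C2_pl_oc c).npow 5)) (OC.nlit 2)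

theorem C2_deg1_oc : OC InT .nat (fun _ => True) (pdeg1 c) (wPar c) :=
  OC.nmul (C2_pl_oc c) (C2_pt_oc c)

theorem C2_degK_oc (hc : 2 ≤ c.c1) : OC InT .nat (fun _ => True) (pdegK c) (wPar c) :=
  OC.nmul (OC.nmul (C2_pl_oc c) (C2_2tau_oc c hc)) (C2_pt_oc c)

theorem C2_mout_oc (hc : 2 ≤ c.c1) : OC InT .nat (fun _ => True) (pmout c) (wPar c) :=
  OC.nmul (OC.nmul (OC.nmul (OC.nmul (OC.nlit 3) (C2_pl_oc c)) (C2_2tau_oc c hc)) (C2_a_oc c))
    (OC.nadd (OC.nadd (OC.nadd (C2_q_oc c) ((C2_pl_oc c).npow 3)) (C2_pl_oc c)) (OC.nlit 1))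

/-- input `(l, (K, (A, B)))` -/
theorem C2_count : OC (.prod .nat (.prod .nat (.prod .nat .nat))) .nat (fun _ => True)
    (fun u => ∑ b ∈ range u.1, if u.2.1 ^ (3 * b) * u.2.2.1 < u.2.2.2 then 1 else 0)
    (fun u => u.1 ^ 2) := by
  have h1 : OC (.prod (.prod .nat (.prod .nat (.prod .nat .nat))) (.prod .nat .nat)) .nat
      (fun p => True ∧ p.2.1 < p.1.1 ∧ p.2.2 = iterV (fun i (acc : ℕ) =>
        acc + if p.1.2.1 ^ (3 * i) * p.1.2.2.1 < p.1.2.2.2 then 1 else 0) 0 p.2.1)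
      (fun p => p.2.2 + if p.1.2.1 ^ (3 * p.2.1) * p.1.2.2.1 < p.1.2.2.2 then 1 else 0)
      (fun p => 3 * p.2.1) := by
    refine OC.nadd (OC.snd (OC.snd OC.id)) (OC.ifN (OC.nmul ?_ ?_) ?_ (OC.nlit 1) (OC.nlit 0))
    · exact OC.comp (s := .prod (.prod .nat (.prod .nat (.prod .nat .nat))) (.prod .nat .nat))
        (F := fun p => (p.1.2.1, 3 * p.2.1)) npow_oc
        (OC.pair (OC.fst (OC.snd (OC.fst OC.id))) (OC.nmul (OC.nlit 3) (OC.fst (OC.snd OC.id))))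
        (fun _ _ => trivial) 1 (fun p _ => by
          show 3 * p.2.1 ≤ 1 * (3 * p.2.1 + 1)
          rw [one_mul]
          exact Nat.le_succ _)
    · exact OC.fst (OC.snd (OC.snd (OC.fst OC.id)))
    · exact OC.snd (OC.snd (OC.snd (OC.fst OC.id)))
  refine (OC.iter (s := .prod .nat (.prod .nat (.prod .nat .nat))) (t := .nat)
    (N := fun u => u.1) (A := fun _ => (0 : ℕ))
    (B := fun u i (acc : ℕ) => acc + if u.2.1 ^ (3 * i) * u.2.2.1 < u.2.2.2 then 1 else 0)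
    (OC.fst OC.id) (OC.nlit 0) h1 4 fun u _ => ?_).congr fun u _ => ?_
  · have h2 : ∀ m : ℕ, ∑ j ∈ range m, (3 * j + 1) ≤ 4 * (m ^ 2 + 1) := by
      intro m
      have h3 : ∑ j ∈ range m, (3 * j + 1) ≤ ∑ j ∈ range m, (3 * m + 1) :=
        sum_le_sum fun j hj => by have := mem_range.1 hj; omega
      rw [sum_const, card_range, smul_eq_mul] at h3
      refine h3.trans ?_
      nlinarith
    exact h2 u.1
  · have : ∀ m, iterV (fun i (acc : ℕ) =>
        acc + if u.2.1 ^ (3 * i) * u.2.2.1 < u.2.2.2 then 1 else 0) 0 m =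
        ∑ b ∈ range m, if u.2.1 ^ (3 * b) * u.2.2.1 < u.2.2.2 then 1 else 0 := by
      intro m
      induction m with
      | zero => simp
      | succ m ih => rw [iterV_succ, ih, sum_range_succ]
    exact this _

theorem C2_bA_oc (hc : 2 ≤ c.c1) : OC InT .nat (fun _ => True) (pbA c) (wPar c) :=
  OC.comp (F := fun x => (pl c x, (pK c x, ((C2_a x * C2_k x) ^ 2, C2_N x ^ 2)))) C2_count
    (OC.pair (C2_pl_oc c) (OC.pair (C2_K_oc c hc)
      (OC.pair ((OC.nmul (C2_a_oc c) (C2_k_oc c)).npow 2) ((C2_N_oc c).npow 2))))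
    (fun _ _ => trivial) 1 fun x _ => by
      have h := C2_w1 c x hc (j := 2) (by omega)
      show pl c x ^ 2 ≤ 1 * (wPar c x + 1)
      omega

/-- input `(l, (K, (k, (n, N))))` -/
theorem C2_count2 : OC (.prod .nat (.prod .nat (.prod .nat (.prod .nat .nat)))) .nat
    (fun _ => True) (fun u => ∑ b ∈ range u.1, if u.2.1 ^ b * u.2.2.1 < u.2.2.2.1 then
      (if u.2.1 ^ (2 * b) * u.2.2.1 < u.2.2.2.2 then 1 else 0) else 0)
    (fun u => u.1 ^ 2) := by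
  have h1 : OC (.prod (.prod .nat (.prod .nat (.prod .nat (.prod .nat .nat))))
      (.prod .nat .nat)) .nat
      (fun p => True ∧ p.2.1 < p.1.1 ∧ p.2.2 = iterV (fun i (acc : ℕ) =>
        acc + if p.1.2.1 ^ i * p.1.2.2.1 < p.1.2.2.2.1 then
          (if p.1.2.1 ^ (2 * i) * p.1.2.2.1 < p.1.2.2.2.2 then 1 else 0) else 0) 0 p.2.1)
      (fun p => p.2.2 + if p.1.2.1 ^ p.2.1 * p.1.2.2.1 < p.1.2.2.2.1 then
          (if p.1.2.1 ^ (2 * p.2.1) * p.1.2.2.1 < p.1.2.2.2.2 then 1 else 0) else 0)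
      (fun p => 3 * p.2.1) := by
    refine OC.nadd (OC.snd (OC.snd OC.id)) (OC.ifN (OC.nmul ?_ ?_) ?_ (OC.ifN (OC.nmul ?_ ?_)
      ?_ (OC.nlit 1) (OC.nlit 0)) (OC.nlit 0))
    · exact OC.comp (s := .prod (.prod .nat (.prod .nat (.prod .nat (.prod .nat .nat))))
          (.prod .nat .nat))
        (F := fun p => (p.1.2.1, p.2.1)) npow_oc
        (OC.pair (OC.fst (OC.snd (OC.fst OC.id))) (OC.fst (OC.snd OC.id)))
        (fun _ _ => trivial) 1 (fun p _ => by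
          show p.2.1 ≤ 1 * (3 * p.2.1 + 1)
          have : ∀ a : ℕ, a ≤ 1 * (3 * a + 1) := fun a => by omega
          exact this _)
    · exact OC.fst (OC.snd (OC.snd (OC.fst OC.id)))
    · exact OC.fst (OC.snd (OC.snd (OC.snd (OC.fst OC.id))))
    · exact OC.comp (s := .prod (.prod .nat (.prod .nat (.prod .nat (.prod .nat .nat))))
          (.prod .nat .nat))
        (F := fun p => (p.1.2.1, 2 * p.2.1)) npow_oc
        (OC.pair (OC.fst (OC.snd (OC.fst OC.id))) (OC.nmul (OC.nlit 2) (OC.fst (OC.snd OC.id))))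
        (fun _ _ => trivial) 1 (fun p _ => by
          show 2 * p.2.1 ≤ 1 * (3 * p.2.1 + 1)
          have : ∀ a : ℕ, 2 * a ≤ 1 * (3 * a + 1) := fun a => by omega
          exact this _)
    · exact OC.fst (OC.snd (OC.snd (OC.fst OC.id)))
    · exact OC.snd (OC.snd (OC.snd (OC.snd (OC.fst OC.id))))
  refine (OC.iter (s := .prod .nat (.prod .nat (.prod .nat (.prod .nat .nat)))) (t := .nat)
    (N := fun u => u.1) (A := fun _ => (0 : ℕ))
    (B := fun u i (acc : ℕ) => acc + if u.2.1 ^ i * u.2.2.1 < u.2.2.2.1 then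
      (if u.2.1 ^ (2 * i) * u.2.2.1 < u.2.2.2.2 then 1 else 0) else 0)
    (OC.fst OC.id) (OC.nlit 0) h1 4 fun u _ => ?_).congr fun u _ => ?_
  · have h2 : ∀ m : ℕ, ∑ j ∈ range m, (3 * j + 1) ≤ 4 * (m ^ 2 + 1) := by
      intro m
      have h3 : ∑ j ∈ range m, (3 * j + 1) ≤ ∑ j ∈ range m, (3 * m + 1) :=
        sum_le_sum fun j hj => by have := mem_range.1 hj; omega
      rw [sum_const, card_range, smul_eq_mul] at h3
      refine h3.trans ?_
      nlinarith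
    exact h2 u.1
  · have : ∀ m, iterV (fun i (acc : ℕ) =>
        acc + if u.2.1 ^ i * u.2.2.1 < u.2.2.2.1 then
          (if u.2.1 ^ (2 * i) * u.2.2.1 < u.2.2.2.2 then 1 else 0) else 0) 0 m =
        ∑ b ∈ range m, if u.2.1 ^ b * u.2.2.1 < u.2.2.2.1 then
          (if u.2.1 ^ (2 * b) * u.2.2.1 < u.2.2.2.2 then 1 else 0) else 0 := by
      intro m
      induction m with
      | zero => simp
      | succ m ih => rw [iterV_succ, ih, sum_range_succ]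
    exact this _

theorem C2_bB_oc (hc : 2 ≤ c.c1) : OC InT .nat (fun _ => True) (pbB c) (wPar c) :=
  OC.comp (F := fun x => (pl c x, (pK c x, (C2_k x, (C2_n x, C2_N x))))) C2_count2
    (OC.pair (C2_pl_oc c) (OC.pair (C2_K_oc c hc)
      (OC.pair (C2_k_oc c) (OC.pair (C2_n_oc c) (C2_N_oc c)))))
    (fun _ _ => trivial) 1 fun x _ => by
      have h := C2_w1 c x hc (j := 2) (by omega)
      show pl c x ^ 2 ≤ 1 * (wPar c x + 1)
      omega

theorem C2_md_oc (hc : 2 ≤ c.c1) : OC InT .nat (fun _ => True) (pmd c) (wPar c) :=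
  OC.ifN (C2_bB_oc c hc) (OC.nadd (C2_bA_oc c hc) (OC.nlit 1)) (OC.nlit 1) (OC.nlit 0)

theorem C2_bb_oc (hc : 2 ≤ c.c1) : OC InT .nat (fun _ => True) (pbb c) (wPar c) :=
  OC.ifN (C2_bB_oc c hc) (OC.nadd (C2_bA_oc c hc) (OC.nlit 1))
    ((C2_bB_oc c hc).weaken fun _ h => h.1) ((C2_bA_oc c hc).weaken fun _ h => h.1)

theorem C2_bb_le (x : InT.den) : pbb c x ≤ pl c x := by
  have h1 : pbA c x ≤ pl c x := by
    unfold pbA
    calc _ ≤ ∑ b ∈ range (pl c x), 1 := sum_le_sum fun b _ => by split <;> omega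
      _ = pl c x := by simp
  have h2 : pbB c x ≤ pl c x := by
    unfold pbB
    calc _ ≤ ∑ b ∈ range (pl c x), 1 := sum_le_sum fun b _ => by
            split
            · split <;> omega
            · omega
      _ = pl c x := by simp
  unfold pbb
  split <;> omega

theorem C2_Kb_oc (hc : 2 ≤ c.c1) :
    OC InT .nat (fun _ => True) (fun x => pK c x ^ pbb c x) (wPar c) :=
  C2_npow c (C2_K_oc c hc) (C2_bb_oc c hc) 1 fun x => by
    have h := C2_w1 c x hc (j := 1) (by omega)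
    have h1 := C2_bb_le c x
    rw [pow_one] at h
    omega

theorem C2_ph_oc (hc : 2 ≤ c.c1) : OC InT .nat (fun _ => True) (ph c) (wPar c) :=
  OC.nsub (OC.nmul (C2_tau_oc c hc) (C2_bb_oc c hc)) (OC.nmul (OC.nlit _) (C2_loglog_oc c hc))

theorem C2_W_oc : OC InT .nat (fun _ => True) (pW c) (wPar c) :=
  OC.nmul (C2_n_oc c) ((C2_pl_oc c).npow 8)

end

theorem parN_oc (c : Cst) (hc : 2 ≤ c.c1) : OC InT NArr (fun _ => True) (parN c) (wPar c) := by
  have h := listN_oc (s := InT) (V := fun _ => True) (w := wPar c)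
    [C2_n, C2_k, C2_N, C2_a, C2_q, pl c, pb1 c, pm1 c, pb2 c, pm2 c, pb3 c, pk3 c, ps c, pM c,
      pK c, (fun x => pl c x ^ 3), pdeg1 c, pdegK c, (fun x => pl c x ^ 3), pmout c, pBd c, pbb c,
      ph c, pW c, phcap c, pmd c, fun x => pK c x ^ pbb c x] (by
    simp only [List.forall_mem_cons]
    exact ⟨C2_n_oc c, C2_k_oc c, C2_N_oc c, C2_a_oc c, C2_q_oc c, C2_pl_oc c, C2_pb1_oc c hc,
      C2_pm1_oc c hc, C2_pb2_oc c hc, C2_pm2_oc c hc, C2_pb3_oc c hc, C2_pk3_oc c hc,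
      C2_ps_oc c hc, C2_pM_oc c, C2_K_oc c hc, (C2_pl_oc c).npow 3, C2_deg1_oc c,
      C2_degK_oc c hc, (C2_pl_oc c).npow 3, C2_mout_oc c hc, C2_Bd_oc c, C2_bb_oc c hc,
      C2_ph_oc c hc, C2_W_oc c, C2_hcap_oc c, C2_md_oc c hc, C2_Kb_oc c hc,
      fun F hF => absurd hF (List.not_mem_nil)⟩)
  exact h

theorem parQ_oc (c : Cst) (hc : 2 ≤ c.c1) : OC InT VecT (fun _ => True) (parQ c) (wPar c) := by
  have hl := (C2_pl_oc c).cast
  have hK := (C2_K_oc c hc).cast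
  have ha := (C2_a_oc c).cast
  have h2 : OC InT .real (fun _ => True)
      (fun x => (2 : ℝ) ^ (C2_q x + pl c x ^ 3)) (wPar c) :=
    OC.comp (F := fun x => ((2 : ℝ), C2_q x + pl c x ^ 3)) rpow_oc
      (OC.pair (OC.rofNat 2) (OC.nadd (C2_q_oc c) ((C2_pl_oc c).npow 3)))
      (fun _ _ => trivial) 2 fun x _ => by
        have h := C2_w1 c x hc (j := 3) (by omega)
        have h1 := C2_qw c x
        show C2_q x + pl c x ^ 3 ≤ 2 * (wPar c x + 1)
        omega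
  have h := listR_oc (s := InT) (V := fun _ => True) (w := wPar c)
    [(fun x => (pl c x : ℝ) ^ 100), (fun x => (4 * (pl c x : ℝ) ^ 30)⁻¹),
      (fun x => (pl c x : ℝ)⁻¹), (fun x => ((pl c x : ℝ) * (pK c x : ℝ))⁻¹),
      (fun x => (pl c x : ℝ)),
      (fun x => (4 * (pl c x : ℝ) * (pK c x : ℝ) * (C2_a x : ℝ) ^ 2)⁻¹),
      (fun x => ((2 : ℝ) ^ (C2_q x + pl c x ^ 3) * (C2_a x : ℝ))⁻¹ ^ 2)] (by
    simp only [List.forall_mem_cons]
    exact ⟨hl.rpow 100, OC.inv (OC.mul (OC.rofNat 4) (hl.rpow 30)), OC.inv hl,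
      OC.inv (OC.mul hl hK), hl,
      OC.inv (OC.mul (OC.mul (OC.mul (OC.rofNat 4) hl) hK) (ha.rpow 2)),
      (OC.inv (OC.mul h2 ha)).rpow 2, fun F hF => absurd hF (List.not_mem_nil)⟩)
  exact h

end A56
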