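import Pool.Agent.Lib_helper50.A56.Par
import Pool.Agent.Lib_helper50.A56.B.C5
/-!
# MP_a55cb8: block C6, elimination programs (helper90)
-/

open Matrix Finset

namespace A56

section

variable {mm : ℕ → ℕ} (Φ : Lib mm)

/-! ### sizes -/

theorem C6_ar1 (a c l1 l2 l3 m : ℕ) : a + l1 ≤ a + c + l1 + l2 + l3 + m := by omega
theorem C6_ar2 (a c l1 l2 l3 m : ℕ) : a + l2 ≤ a + c + l1 + l2 + l3 + m := by omega
theorem C6_ar3 (a c l1 l2 l3 m : ℕ) : m ≤ a + c + l1 + l2 + l3 + m := by omega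
theorem C6_ar4 (a c l1 l2 l3 m : ℕ) : a ≤ a + c + l1 + l2 + l3 + m := by omega
theorem C6_ar5 (m1 m2 k : ℕ) (h : (m1 + 1) * (m2 + 1) ≤ k) : m2 ≤ k := by
  nlinarith [Nat.zero_le (m1 * (m2 + 1))]

theorem C6_one (a b : ℕ) (h : a ≤ b) : a ≤ 1 * (b + 1) := by omega
theorem C6_ar6 (a c d o : ℕ) (h : a ≤ o) : a + c ≤ o + c + d := by omega

theorem C6_le1 (x : OpT.den) : @LE.le ℕ _ x.1.1 (opSize x) := C6_ar4 _ _ _ _ _ _
theorem C6_le2 (x : OpT.den) : @LE.le ℕ _ (x.1.1 + x.2.2.1.1.1) (opSize x) :=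
  C6_ar1 _ _ _ _ _ _
theorem C6_le3 (x : OpT.den) : @LE.le ℕ _ (x.1.1 + x.2.2.1.2.1) (opSize x) :=
  C6_ar2 _ _ _ _ _ _
theorem C6_le4 (x : OpT.den) : @LE.le ℕ _ ((x.2.1.1 + 1) * (x.2.1.2 + 1)) (opSize x) :=
  C6_ar3 _ _ _ _ _ _
theorem C6_le5 (x : OpT.den) : @LE.le ℕ _ x.2.1.2 (opSize x) := C6_ar5 _ _ _ (C6_le4 x)

/-! ### programs -/

section

variable {s : Ty} {V : s.den → Prop} {w : s.den → ℕ}

theorem C6_neg1 : OC s .real V (fun _ => (-1 : ℝ)) w :=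
  (OC.neg OC.r1).congr fun _ _ => rfl

theorem C6_cooT {F : s.den → CooT.den} (h : OC s CooT V F w) :
    OC s CooT V (fun x => cooT (F x)) w :=
  OC.pair h.fst (OC.pair h.snd.snd.fst (OC.pair h.snd.fst h.snd.snd.snd))

/-- `mvC` applied to programs -/
theorem C6_mvC {A : s.den → ℕ} {X : s.den → CooT.den} {v : s.den → VecT.den}
    (hA : OC s .nat V A w) (hX : OC s CooT V X w) (hv : OC s VecT V v w)
    (hw : ∀ x, V x → @LE.le ℕ _ (A x + (X x).1) (w x)) :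
    OC s VecT V (fun x => Φ.mvC (A x, (X x, v x))) w :=
  OC.comp Φ.mvC_oc (F := fun x => (A x, (X x, v x))) (OC.pair hA (OC.pair hX hv))
    (fun _ _ => trivial) 1 fun x hx => C6_one _ _ (hw x hx)

/-- `mvD` applied to programs -/
theorem C6_mvD {A : s.den → (Ty.prod .nat .nat).den} {X : s.den → MatT.den}
    {v : s.den → VecT.den} (hA : OC s (.prod .nat .nat) V A w) (hX : OC s MatT V X w)
    (hv : OC s VecT V v w) (hw : ∀ x, V x → @LE.le ℕ _ (((A x).1 + 1) * ((A x).2 + 1)) (w x)) :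
    OC s VecT V (fun x => Φ.mvD (A x, (X x, v x))) w :=
  OC.comp Φ.mvD_oc (F := fun x => (A x, (X x, v x))) (OC.pair hA (OC.pair hX hv))
    (fun _ _ => trivial) 1 fun x hx => C6_one _ _ (hw x hx)

/-- `lin` applied to programs -/
theorem C6_lin {A : s.den → ℕ} {r r' : s.den → ℝ} {v v' : s.den → VecT.den}
    (hA : OC s .nat V A w) (hr : OC s .real V r w) (hv : OC s VecT V v w)
    (hr' : OC s .real V r' w) (hv' : OC s VecT V v' w) (hw : ∀ x, V x → @LE.le ℕ _ (A x) (w x)) :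
    OC s VecT V (fun x => Φ.lin (A x, ((r x, v x), (r' x, v' x)))) w :=
  OC.comp Φ.lin_oc (F := fun x => (A x, ((r x, v x), (r' x, v' x))))
    (OC.pair hA (OC.pair (OC.pair hr hv) (OC.pair hr' hv')))
    (fun _ _ => trivial) 1 fun x hx => C6_one _ _ (hw x hx)

/-- `dot` applied to programs -/
theorem C6_dot {A : s.den → ℕ} {v v' : s.den → VecT.den}
    (hA : OC s .nat V A w) (hv : OC s VecT V v w) (hv' : OC s VecT V v' w)
    (hw : ∀ x, V x → @LE.le ℕ _ (A x) (w x)) :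
    OC s .real V (fun x => Φ.dot (A x, (v x, v' x))) w :=
  OC.comp Φ.dot_oc (F := fun x => (A x, (v x, v' x)))
    (OC.pair hA (OC.pair hv hv'))
    (fun _ _ => trivial) 1 fun x hx => C6_one _ _ (hw x hx)

/-- `mv` applied to programs -/
theorem C6_mv {X : s.den → FOpT.den} {v : s.den → VecT.den}
    (hX : OC s FOpT V X w) (hv : OC s VecT V v w) (hw : ∀ x, V x → opSize (X x).2 ≤ w x) :
    OC s VecT V (fun x => Φ.mv (X x, v x)) w :=
  OC.comp Φ.mv_oc (F := fun x => (X x, v x)) (OC.pair hX hv)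
    (fun _ _ => trivial) 1 fun x hx => C6_one _ _ (hw x hx)

/-- `elimG` applied to programs -/
theorem C6_elimG {E : s.den → OpT.den} {S0 : s.den → CooT.den} {b : s.den → VecT.den}
    (hE : OC s OpT V E w) (hS : OC s CooT V S0 w) (hb : OC s VecT V b w)
    (hw : ∀ x, V x → @LE.le ℕ _ (opSize (E x) + (S0 x).1) (w x)) :
    OC s VecT V (fun x => elimG Φ (E x) (S0 x) (b x)) w :=
  C6_mvD Φ hE.snd.fst hE.snd.snd.snd.snd
    (C6_mvC Φ hE.snd.fst.snd hS hb fun x hx => by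
      have := hw x hx; have := C6_le5 (E x); omega)
    fun x hx => by have := hw x hx; have := C6_le4 (E x); omega

end

/-- input `(E, (S0, b))` -/
theorem elimB_oc : OC (.prod OpT (.prod CooT VecT)) VecT (fun _ => True)
    (fun x => elimB Φ x.1 x.2.1 x.2.2) (fun x => opSize x.1 + x.2.1.1) := by
  have hE : OC (.prod OpT (.prod CooT VecT)) OpT (fun _ => True) (fun x => x.1)
    (fun x => opSize x.1 + x.2.1.1) := OC.fst OC.id
  have hS : OC (.prod OpT (.prod CooT VecT)) CooT (fun _ => True) (fun x => x.2.1)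
    (fun x => opSize x.1 + x.2.1.1) := OC.fst (OC.snd OC.id)
  have hb : OC (.prod OpT (.prod CooT VecT)) VecT (fun _ => True) (fun x => x.2.2)
    (fun x => opSize x.1 + x.2.1.1) := OC.snd (OC.snd OC.id)
  exact C6_lin Φ hE.fst.fst OC.r1 hb C6_neg1
    (C6_mvC Φ hE.fst.fst hE.snd.snd.fst.snd
      (C6_elimG Φ hE hS hb fun x _ => le_refl _)
      fun x _ => by have := C6_le3 x.1; omega)
    fun x _ => by have := C6_le1 x.1; omega

/-- input `(E, ((T0, S0), (b, v)))` -/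
theorem elimX_oc : OC (.prod OpT (.prod (.prod CooT CooT) (.prod VecT VecT))) VecT
    (fun _ => True) (fun x => elimX Φ x.1 x.2.1.1 x.2.1.2 x.2.2.1 x.2.2.2)
    (fun x => opSize x.1 + x.2.1.1.1 + x.2.1.2.1) := by
  have hE : OC (.prod OpT (.prod (.prod CooT CooT) (.prod VecT VecT))) OpT (fun _ => True)
    (fun x => x.1) (fun x => opSize x.1 + x.2.1.1.1 + x.2.1.2.1) := OC.fst OC.id
  have hT : OC (.prod OpT (.prod (.prod CooT CooT) (.prod VecT VecT))) CooT (fun _ => True)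
    (fun x => x.2.1.1) (fun x => opSize x.1 + x.2.1.1.1 + x.2.1.2.1) :=
    OC.fst (OC.fst (OC.snd OC.id))
  have hS : OC (.prod OpT (.prod (.prod CooT CooT) (.prod VecT VecT))) CooT (fun _ => True)
    (fun x => x.2.1.2) (fun x => opSize x.1 + x.2.1.1.1 + x.2.1.2.1) :=
    OC.snd (OC.fst (OC.snd OC.id))
  have hb : OC (.prod OpT (.prod (.prod CooT CooT) (.prod VecT VecT))) VecT (fun _ => True)
    (fun x => x.2.2.1) (fun x => opSize x.1 + x.2.1.1.1 + x.2.1.2.1) :=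
    OC.fst (OC.snd (OC.snd OC.id))
  have hv : OC (.prod OpT (.prod (.prod CooT CooT) (.prod VecT VecT))) VecT (fun _ => True)
    (fun x => x.2.2.2) (fun x => opSize x.1 + x.2.1.1.1 + x.2.1.2.1) :=
    OC.snd (OC.snd (OC.snd OC.id))
  exact C6_lin Φ hE.fst.fst OC.r1 hv OC.r1
    (C6_mvC Φ hE.fst.fst (C6_cooT hT)
      (C6_elimG Φ hE hS
        (C6_lin Φ hE.fst.fst OC.r1 hb C6_neg1
          (C6_mvC Φ hE.fst.fst hE.snd.snd.fst.fst hv
            fun x _ => by have := C6_le2 x.1; omega)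
          fun x _ => by have := C6_le1 x.1; omega)
        fun x _ => by omega)
      fun x _ => C6_ar6 _ _ _ _ (C6_le1 x.1))
    fun x _ => by have := C6_le1 x.1; omega

/-- input `(M, (E, s))` -/
theorem topLam_oc : OC (.prod .nat (.prod OpT (.arr VecT))) .real (fun _ => True)
    (fun x => topLam Φ x.1 x.2.1 x.2.2) (fun x => (x.1 + 1) * (opSize x.2.1 + 1)) := by
  refine OC.mul (OC.rofNat 16) (OC.sum
    (N := fun x : (Ty.prod .nat (.prod OpT (.arr VecT))).den => x.1)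
    (F := fun (x : (Ty.prod .nat (.prod OpT (.arr VecT))).den) (r : ℕ) => Φ.dot (x.2.1.1.1, (Φ.mv ((0, x.2.1), x.2.2 r), Φ.mv ((0, x.2.1), x.2.2 r))))
    (w' := fun p : (Ty.prod (.prod .nat (.prod OpT (.arr VecT))) .nat).den => opSize p.1.2.1) (OC.fst OC.id) ?_ 1 ?_)
  · have hE : OC (.prod (.prod .nat (.prod OpT (.arr VecT))) .nat) OpT
        (fun p => True ∧ p.2 < p.1.1) (fun p => p.1.2.1) (fun p => opSize p.1.2.1) :=
      OC.fst (OC.snd (OC.fst OC.id))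
    have hs : OC (.prod (.prod .nat (.prod OpT (.arr VecT))) .nat) VecT
        (fun p => True ∧ p.2 < p.1.1) (fun p => p.1.2.2 p.2) (fun p => opSize p.1.2.1) :=
      OC.get (OC.snd (OC.snd (OC.fst OC.id))) (OC.snd OC.id)
    have hm : OC (.prod (.prod .nat (.prod OpT (.arr VecT))) .nat) VecT
        (fun p => True ∧ p.2 < p.1.1) (fun p => Φ.mv ((0, p.1.2.1), p.1.2.2 p.2))
        (fun p => opSize p.1.2.1) :=
      C6_mv Φ
        (X := fun p : (Ty.prod (.prod .nat (.prod OpT (.arr VecT))) .nat).den => (0, p.1.2.1)) (OC.pair (OC.nlit 0) hE) hs fun x _ => le_refl _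
    exact C6_dot Φ hE.fst.fst hm hm fun x _ => C6_le1 _
  · intro x _
    simp only [sum_const, card_range, smul_eq_mul, one_mul]
    nlinarith [Nat.zero_le (opSize x.2.1)]

/-! ### values -/

theorem C6_SkOK {n J m : ℕ} {x : CooT.den} (h : SkOK n J m x) : CooOK m n x := by
  intro e he
  rw [h.1] at he
  have hn : 0 < n := by
    rcases Nat.eq_zero_or_pos n with h0 | h0
    · subst h0; simp at he
    · exact h0
  have h1 : e / n < J := by
    rw [Nat.div_lt_iff_lt_mul hn]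
    exact he
  have h2 : e % n < n := Nat.mod_lt _ hn
  have h3 : e / n * n + e % n = e := Nat.div_add_mod' e n
  have h4 := h.2 (e / n) h1 (e % n) h2
  rw [h3] at h4
  exact ⟨h4.2, by rw [h4.1]; exact h2⟩

theorem C6_CooT {a c : ℕ} {x : CooT.den} (h : CooOK a c x) : CooOK c a (cooT x) :=
  fun e he => ⟨(h e he).2, (h e he).1⟩

theorem C6_cooA (x : CooT.den) (i j : ℕ) : cooA (cooT x) i j = cooA x j i := by
  unfold cooA cooT
  refine sum_congr rfl fun e _ => ?_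
  simp only [and_comm]

theorem C6_toM (a c : ℕ) (x : CooT.den) :
    toM a c (cooA (cooT x)) = (toM c a (cooA x))ᵀ := by
  ext i j
  exact C6_cooA x i j

theorem elimB_val (n l s m1 m2 : ℕ) (A0 T0 S0 : CooT.den) (b : VecT.den) (hA : CooOK n n A0)
    (hT : SkOK n l m1 T0) (hS : SkOK n l m2 S0) :
    ∀ E, E = elimE Φ n l s m1 m2 A0 T0 S0 →
    toV n (elimB Φ E S0 b) = toV n b - toM n m1 (cooA E.2.2.1.2) *ᵥ
      (toM m1 m2 E.2.2.2.2 *ᵥ (toM m2 n (cooA S0) *ᵥ toV n b)) := by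
  intro E hE
  obtain ⟨h1, h2, h3, h4, -, -⟩ := elimE_ok Φ n l s m1 m2 A0 T0 S0 hA hT hS
  rw [← hE] at h1 h2 h3 h4
  have e1 : E.1.1 = n := congrArg Prod.fst h2
  have e2 : E.2.1.1 = m1 := congrArg Prod.fst h3
  have e3 : E.2.1.2 = m2 := congrArg Prod.snd h3
  have k1 : CooOK n m1 E.2.2.1.2 := by
    have := h1.2.1
    rwa [e1, e2] at this
  unfold elimB elimG
  rw [e1, h3, Φ.lin_eq, Φ.mvC_eq n m1 _ _ k1, Φ.mvD_eq, Φ.mvC_eq m2 n _ _ (C6_SkOK hS)]
  simp [sub_eq_add_neg]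

theorem elimX_val (n l s m1 m2 : ℕ) (A0 T0 S0 : CooT.den) (b v : VecT.den) (hA : CooOK n n A0)
    (hT : SkOK n l m1 T0) (hS : SkOK n l m2 S0) :
    ∀ E, E = elimE Φ n l s m1 m2 A0 T0 S0 →
    toV n (elimX Φ E T0 S0 b v) = toV n v + (toM m1 n (cooA T0))ᵀ *ᵥ
      (toM m1 m2 E.2.2.2.2 *ᵥ (toM m2 n (cooA S0) *ᵥ
        (toV n b - toM n n (cooA A0) *ᵥ toV n v))) := by
  intro E hE
  obtain ⟨h1, h2, h3, h4, -, -⟩ := elimE_ok Φ n l s m1 m2 A0 T0 S0 hA hT hS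
  rw [← hE] at h1 h2 h3 h4
  have e1 : E.1.1 = n := congrArg Prod.fst h2
  have e2 : E.2.1.1 = m1 := congrArg Prod.fst h3
  have e3 : E.2.1.2 = m2 := congrArg Prod.snd h3
  unfold elimX elimG
  rw [e1, h3, h4, Φ.lin_eq, Φ.mvC_eq n m1 _ _ (C6_CooT (C6_SkOK hT)), Φ.mvD_eq,
    Φ.mvC_eq m2 n _ _ (C6_SkOK hS), Φ.lin_eq, Φ.mvC_eq n n _ _ hA, C6_toM]
  simp [sub_eq_add_neg]

theorem topLam_val (n M : ℕ) (E : OpT.den) (s : (Ty.arr VecT).den) (hE : OpOK E)
    (h : E.1 = (n, n)) : topLam Φ M E s =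
      16 * ∑ r ∈ range M, sq (toM n n (opA E) *ᵥ toV n (s r)) := by
  obtain ⟨⟨a, c⟩, E'⟩ := E
  obtain ⟨rfl, rfl⟩ : a = n ∧ c = n := by simpa using h
  unfold topLam
  congr 1
  refine sum_congr rfl fun r _ => ?_
  have h1 := Φ.mv_eq (0, ((c, c), E')) (s r) hE
  rw [Φ.dot_eq]
  have h2 : toV c (Φ.mv ((0, ((c, c), E')), s r)) =
      toM c c (opA ((c, c), E')) *ᵥ toV c (s r) := h1
  rw [h2]
  unfold sq
  simp only [dotProduct]
  refine sum_congr rfl fun i _ => ?_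
  ring

end

end A56
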