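import Pool.Agent.Lib_helper50.A56.Par
import Pool.Agent.Lib_helper50.A56.B.C5
import Pool.Agent.Lib_helper50.A56.Inv
/-! # MP_a55cb8, block C7: invariants of every run -/

open Matrix Finset

namespace A56

section

variable {mm : ℕ → ℕ} (Φ : Lib mm)

-- BEGIN STUB (block of elimE_ok)
-- END STUB

-- BEGIN COPY (definitions of CStmt)
-- END COPY

theorem C7_empty (n : ℕ) : SDOK n sdEmpty := by
  refine ⟨fun i _ => le_rfl, fun i _ i' _ _ h => absurd rfl h, fun p hp => ?_⟩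
  exact absurd hp (Nat.not_lt_zero p)

theorem inv_start (g : GT.den) : Inv0 Φ g 0 (start Φ g) := by
  intro _
  refine ⟨rfl, rfl, fun i hi => ⟨C7_empty _, C7_empty _, ?_⟩, fun i hi => ?_⟩
  · obtain rfl := Nat.le_zero.1 hi
    exact tabV_lt Nat.one_pos
  exact absurd hi (Nat.not_lt_zero i)

theorem inv_st0 (g : GT.den) (j : ℕ) (st : StT.den) (w : ℕ → ℕ) (h : Inv0 Φ g j st) :
    Inv1 Φ g j (st0 Φ g j st w) := by
  intro h0
  unfold st0 at h0 ⊢
  by_cases h1 : st.1.1 = 0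
  · rw [if_pos h1] at h0 ⊢
    have hl := h h1
    by_cases h2 : chk (g, (j, st)) = 1
    · rw [if_pos h2] at h0 ⊢
      have hc : Chk g j st := by
        by_contra hc
        unfold chk at h2
        rw [if_neg hc] at h2
        exact zero_ne_one h2
      simp only at h0 ⊢
      split_ifs at h0 ⊢ with h3
      exact ⟨hl, hc, w, rfl⟩
    · rw [if_neg h2] at h0
      exact absurd h0 one_ne_zero
  · rw [if_neg h1] at h0
    exact absurd h0 h1

theorem C7_smp (n l h : ℕ) (L : ℝ) (est est' : VecT.den) (thr : ℝ) (bits : ℕ → ℕ) :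
    SDOK n (Φ.smp ((n, (2 * l, h)), (Φ.rates ((n, l), (L, est)),
      (Φ.bad ((n, thr), (Φ.rates ((n, l), (L, est)), est')), bits)))) := by
  refine (Φ.smp_eq n (2 * l) h _ _ bits fun i hi => ?_).1
  exact Nat.mul_le_mul_left 2 (Φ.rates_eq n l L est i hi).1

theorem C7_upd {α : Type} (f : ℕ → α) (j : ℕ) (v : α) : Function.update f (j + 1) v 0 = f 0 :=
  Function.update_of_ne (Nat.succ_ne_zero j).symm _ _

theorem inv_st1 (g : GT.den) (j : ℕ) (st : StT.den) (w : ℕ → ℕ) (h : Inv1 Φ g j st) :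
    Inv0 Φ g (j + 1) (st1 Φ g j st w) := by
  intro h0
  by_cases h1 : st.1.1 = 0
  · obtain ⟨⟨hl1, hl2, hl3, hl4⟩, -, -⟩ := h h1
    have hS : SDOK (gP g 0) (sOf Φ g j st.2.2.2 (tOf Φ g j st.2.2.2 (st.2.1.1 j)
        (fOf Φ g j st.2.2.2 w) w) (eOf Φ g j st.2.2.2 w) w) := C7_smp Φ _ _ _ _ _ _ _ _
    have hT : SDOK (gP g 0) (tOf Φ g j st.2.2.2 (st.2.1.1 j) (fOf Φ g j st.2.2.2 w) w) :=
      C7_smp Φ _ _ _ _ _ _ _ _
    unfold st1
    rw [if_pos h1]
    simp only
    refine ⟨?_, ?_, fun i hi => ?_, fun i hi => ?_⟩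
    · exact (C7_upd st.2.1.1 j (sOf Φ g j st.2.2.2 (tOf Φ g j st.2.2.2 (st.2.1.1 j)
        (fOf Φ g j st.2.2.2 w) w) (eOf Φ g j st.2.2.2 w) w)).trans hl1
    · exact (C7_upd st.2.1.2 j (tOf Φ g j st.2.2.2 (st.2.1.1 j)
        (fOf Φ g j st.2.2.2 w) w)).trans hl2
    · by_cases hij : i = j + 1
      · subst hij
        simp only [Function.update_self]
        exact ⟨hS, hT, trivial⟩
      · simp only [Function.update_of_ne hij]
        exact hl3 i (by omega)
    · have hij : i ≠ j + 1 := by omega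
      by_cases hij2 : i = j
      · subst hij2
        simp only [Function.update_self, Function.update_of_ne hij]
      · have hij3 : i + 1 ≠ j + 1 := by omega
        simp only [Function.update_of_ne hij, Function.update_of_ne hij3]
        exact hl4 i (by omega)
  · unfold st1 at h0
    rw [if_neg h1] at h0
    exact absurd h0 h1

theorem C7_topLam (M : ℕ) (E : OpT.den) (s : (Ty.arr VecT).den) : 0 ≤ topLam Φ M E s := by
  unfold topLam
  refine mul_nonneg (by norm_num) (sum_nonneg fun r _ => ?_)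
  rw [Φ.dot_eq]
  exact sum_nonneg fun i _ => mul_self_nonneg _

/-- the global data are well formed -/
theorem glob_ok (c : Cst) (x : InT.den) (A0 : CooT.den) (b : VecT.den) (r : ℕ → ℕ)
    (hA : CooOK x.1.1 x.1.1 A0) (hN : A0.1 = x.2.1) : GOK c x A0 (glob Φ c x A0 b r) := by
  have hT := (Φ.sk_eq x.1.1 (pl c x) (pb1 c x) (win (pW c x) r 0)).1
  have hS := (Φ.sk_eq x.1.1 (pl c x) (pb2 c x) (win (pW c x) r 1)).1
  have hE := elimE_ok Φ x.1.1 (pl c x) (ps c x) (pm1 c x) (pm2 c x) A0 _ _ hA hT hS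
  obtain ⟨h1, h2, h3, h4, h5, h6⟩ := hE
  have hlam : ∀ i, gLam (glob Φ c x A0 b r) i = if i < pl c x ^ 3 + 2 then
      topLam Φ (pM c x) (gE (glob Φ c x A0 b r))
        (Φ.sgns ((pM c x, x.1.1), win (pW c x) r 2)) * ((pK c x : ℝ)⁻¹) ^ i else 0 :=
    fun i => rfl
  refine ⟨rfl, rfl, h2, h1, h3, h4, hA, hN, h5, h6, hT, hS, fun i => ?_, fun i hi => ?_⟩
  · rw [hlam]
    split_ifs
    · exact mul_nonneg (C7_topLam Φ _ _ _) (by positivity)
    · exact le_rfl
  · rw [hlam, hlam, if_pos hi, if_pos (by omega), pow_zero, mul_one]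

end

end A56
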