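import Pool.Agent.Lib_helper50.A56.Par
/-!
# MP_a55cb8, block C4: the cost of the check (helper89)
-/

open Matrix Finset

namespace A56

/-- sums of naturals -/
theorem c4_nsum {s : Ty} {V : s.den → Prop} {w : s.den → ℕ} {N : s.den → ℕ}
    {F : s.den → ℕ → ℕ} {w' : (Ty.prod s .nat).den → ℕ}
    (hN : OC s .nat V N w)
    (hF : OC (.prod s .nat) .nat (fun p => V p.1 ∧ p.2 < N p.1) (fun p => F p.1 p.2) w')
    (K : ℕ) (hw : ∀ x, V x → ∑ j ∈ range (N x), (w' (x, j) + 1) ≤ K * (w x + 1)) :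
    OC s .nat V (fun x => ∑ i ∈ range (N x), F x i) w := by
  have h1 : OC (.prod s (.prod .nat .nat)) .nat
      (fun p => V p.1 ∧ p.2.1 < N p.1 ∧
        p.2.2 = iterV (fun i acc => acc + F p.1 i) 0 p.2.1)
      (fun p => p.2.2 + F p.1 p.2.1) (fun p => w' (p.1, p.2.1)) :=
    OC.nadd (OC.snd (OC.snd OC.id))
      (OC.comp (s := .prod s (.prod .nat .nat)) (F := fun p => (p.1, p.2.1)) hF
        (OC.pair (OC.fst OC.id) (OC.fst (OC.snd OC.id))) (fun p hp => ⟨hp.1, hp.2.1⟩) 1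
        fun p _ => by omega)
  refine (OC.iter (B := fun x i acc => acc + F x i) hN (OC.nlit 0) h1 K
    fun x hx => hw x hx).congr fun x _ => ?_
  have : ∀ m, iterV (fun i acc => acc + F x i) 0 m = ∑ i ∈ range m, F x i := by
    intro m
    induction m with
    | zero => simp
    | succ m ih => rw [iterV_succ, ih, sum_range_succ]
  exact this _

/-- sums of naturals with terms of cost `O(1)` -/
theorem c4_nsum0 {s : Ty} {V : s.den → Prop} {w : s.den → ℕ} {N : s.den → ℕ}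
    {F : s.den → ℕ → ℕ} (hN : OC s .nat V N w)
    (hF : OC (.prod s .nat) .nat (fun p => V p.1) (fun p => F p.1 p.2) (fun _ => 0))
    (K : ℕ) (hw : ∀ x, V x → N x ≤ K * (w x + 1)) :
    OC s .nat V (fun x => ∑ i ∈ range (N x), F x i) w :=
  c4_nsum hN (hF.weaken fun _ h => h.1) K fun x hx => by simpa using hw x hx

/-- the power function -/
theorem c4_pow0 : OC (.prod .nat .nat) .nat (fun _ => True) (fun x => x.1 ^ x.2)
    (fun x => x.2) := by
  refine (OC.iter0 (s := .prod .nat .nat) (t := .nat) (B := fun x _ acc => acc * x.1)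
    (OC.snd OC.id) (OC.nlit 1)
    (OC.nmul (OC.snd (OC.snd OC.id)) (OC.fst (OC.fst OC.id))) 1 fun x _ => by omega).congr
    fun x _ => ?_
  have : ∀ m, iterV (fun _ acc => acc * x.1) 1 m = x.1 ^ m := by
    intro m
    induction m with
    | zero => simp
    | succ m ih => rw [iterV_succ, ih, pow_succ]
  exact this _

theorem c4_pow {s : Ty} {V : s.den → Prop} {w : s.den → ℕ} {A B : s.den → ℕ}
    (hA : OC s .nat V A w) (hB : OC s .nat V B w) (K : ℕ)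
    (hw : ∀ x, V x → B x ≤ K * (w x + 1)) : OC s .nat V (fun x => A x ^ B x) w :=
  OC.comp (G := fun x : (Ty.prod .nat .nat).den => x.1 ^ x.2) c4_pow0 (OC.pair hA hB)
    (fun _ _ => trivial) K hw

/-- indicator of `A < B` -/
theorem c4_ind {s : Ty} {V : s.den → Prop} {w : s.den → ℕ} {A B : s.den → ℕ}
    (hA : OC s .nat V A w) (hB : OC s .nat V B w) :
    OC s .nat V (fun x => if A x < B x then 1 else 0) w :=
  OC.ifN hA hB (OC.nlit 1) (OC.nlit 0)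

/-- the input type of the check -/
abbrev C4S : Ty := .prod GT (.prod .nat StT)

section

variable {s : Ty} {V : s.den → Prop} {w : s.den → ℕ} {X : s.den → C4S.den}

theorem c4_P (h : OC s C4S V X w) (i : ℕ) : OC s .nat V (fun x => gP (X x).1 i) w :=
  OC.get (OC.fst (OC.fst (OC.fst h))) (OC.nlit i)

theorem c4_lev (h : OC s C4S V X w) : OC s .nat V (fun x => lev0 (X x).1 (X x).2.1) w :=
  OC.nsub (OC.fst (OC.snd h)) (c4_P h 21)

theorem c4_size {Y : s.den → OpT.den} (h : OC s OpT V Y w) :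
    OC s .nat V (fun x => opSize (Y x)) w :=
  OC.nadd (OC.nadd (OC.nadd (OC.nadd (OC.nadd (OC.fst (OC.fst h)) (OC.snd (OC.fst h)))
    (OC.fst (OC.fst (OC.fst (OC.snd (OC.snd h))))))
    (OC.fst (OC.snd (OC.fst (OC.snd (OC.snd h))))))
    (OC.fst (OC.fst (OC.snd (OC.snd (OC.snd h))))))
    (OC.nmul (OC.nadd (OC.fst (OC.fst (OC.snd h))) (OC.nlit 1))
      (OC.nadd (OC.snd (OC.fst (OC.snd h))) (OC.nlit 1)))

/-- the operator of the first level -/
def c4D (x : C4S.den) : OpT.den := x.2.2.2.2.1.1 (lev0 x.1 x.2.1)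
/-- heavy rows -/
def c4fr (x : C4S.den) : NArr.den := (x.2.2.2.1.1 (lev0 x.1 x.2.1)).2.2.2
/-- heavy columns -/
def c4fc (x : C4S.den) : NArr.den := (x.2.2.2.1.2 (lev0 x.1 x.2.1)).2.2.2

theorem c4_D (h : OC s C4S V X w) : OC s OpT V (fun x => c4D (X x)) w :=
  OC.get (OC.fst (OC.fst (OC.snd (OC.snd (OC.snd (OC.snd h)))))) (c4_lev h)

theorem c4_fr (h : OC s C4S V X w) : OC s NArr V (fun x => c4fr (X x)) w :=
  OC.snd (OC.snd (OC.snd (OC.get (OC.fst (OC.fst (OC.snd (OC.snd (OC.snd h))))) (c4_lev h))))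

theorem c4_fc (h : OC s C4S V X w) : OC s NArr V (fun x => c4fc (X x)) w :=
  OC.snd (OC.snd (OC.snd (OC.get (OC.snd (OC.fst (OC.snd (OC.snd (OC.snd h))))) (c4_lev h))))

end

/-! ## the tests of the sizes -/

/-- the budget `Bd (a K^t + N)` -/
def c4rhs (g : GT.den) (a t : ℕ) : ℕ := gP g 20 * (a * gP g 14 ^ t + gP g 2)

/-- failures of the size tests at the level `i` -/
def c4fail (x : C4S.den) (i : ℕ) : ℕ :=
  (if i < lev0 x.1 x.2.1 then 0 else
    if c4rhs x.1 (gP x.1 1 ^ 2) (x.2.1 - i) <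
      opSize (x.2.2.2.2.1.1 i) * gP x.1 14 ^ (x.2.1 - i) then 1 else 0) +
  (if lev0 x.1 x.2.1 < i then
    (if c4rhs x.1 (gP x.1 1 ^ 2) (x.2.1 - i) <
      opSize (x.2.2.2.2.1.2 i) * gP x.1 14 ^ (x.2.1 - i) then 1 else 0) else 0)

theorem c4_fail_oc : OC (.prod C4S .nat) .nat (fun _ => True) (fun p => c4fail p.1 p.2)
    (fun p => p.1.2.1) := by
  have hX : OC (.prod C4S .nat) C4S (fun _ => True) (fun p => p.1) (fun p => p.1.2.1) :=
    OC.fst OC.id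
  have hi : OC (.prod C4S .nat) .nat (fun _ => True) (fun p => p.2) (fun p => p.1.2.1) :=
    OC.snd OC.id
  have hj : OC (.prod C4S .nat) .nat (fun _ => True) (fun p => p.1.2.1 - p.2)
      (fun p => p.1.2.1) := OC.nsub (OC.fst (OC.snd hX)) hi
  have hK : OC (.prod C4S .nat) .nat (fun _ => True) (fun p => gP p.1.1 14 ^ (p.1.2.1 - p.2))
      (fun p => p.1.2.1) := c4_pow (c4_P hX 14) hj 1 fun x _ => by omega
  have hr : OC (.prod C4S .nat) .nat (fun _ => True)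
      (fun p => c4rhs p.1.1 (gP p.1.1 1 ^ 2) (p.1.2.1 - p.2)) (fun p => p.1.2.1) :=
    OC.nmul (c4_P hX 20) (OC.nadd (OC.nmul (OC.npow (c4_P hX 1) 2) hK) (c4_P hX 2))
  have h1 := OC.nmul (c4_size (OC.get (OC.fst (OC.fst (OC.snd (OC.snd (OC.snd (OC.snd hX))))))
    hi)) hK
  have h2 := OC.nmul (c4_size (OC.get (OC.snd (OC.fst (OC.snd (OC.snd (OC.snd (OC.snd hX))))))
    hi)) hK
  exact OC.nadd
    (OC.ifN hi (c4_lev hX) (OC.nlit 0) ((c4_ind hr h1).weaken fun _ _ => trivial))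
    (OC.ifN (c4_lev hX) hi ((c4_ind hr h2).weaken fun _ _ => trivial) (OC.nlit 0))

/-- the number of failures of the size tests -/
def c4nf (x : C4S.den) : ℕ := ∑ i ∈ range (x.2.1 + 1), c4fail x i

theorem c4_nf_oc : OC C4S .nat (fun _ => True) c4nf (fun x => (x.2.1 + 1) ^ 2) :=
  c4_nsum (s := C4S) (N := fun x => x.2.1 + 1) (F := fun x i => c4fail x i)
    (OC.nadd (OC.fst (OC.snd OC.id)) (OC.nlit 1)) (c4_fail_oc.weaken fun _ _ => trivial) 1
    fun x _ => by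
      simp only [sum_const, card_range, smul_eq_mul]
      nlinarith

theorem c4_nf_iff (x : C4S.den) : c4nf x < 1 ↔
    (∀ i ≤ x.2.1, lev0 x.1 x.2.1 ≤ i →
      opSize (x.2.2.2.2.1.1 i) * gP x.1 14 ^ (x.2.1 - i) ≤
        gP x.1 20 * (gP x.1 1 ^ 2 * gP x.1 14 ^ (x.2.1 - i) + gP x.1 2)) ∧
    (∀ i ≤ x.2.1, lev0 x.1 x.2.1 < i →
      opSize (x.2.2.2.2.1.2 i) * gP x.1 14 ^ (x.2.1 - i) ≤
        gP x.1 20 * (gP x.1 1 ^ 2 * gP x.1 14 ^ (x.2.1 - i) + gP x.1 2)) := by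
  have h0 : c4nf x < 1 ↔ ∀ i ∈ range (x.2.1 + 1), c4fail x i = 0 := by
    rw [Nat.lt_one_iff]
    unfold c4nf
    exact sum_eq_zero_iff
  rw [h0]
  constructor
  · intro h
    refine ⟨fun i hi hl => ?_, fun i hi hl => ?_⟩
    · have h1 := h i (mem_range.2 (Nat.lt_succ_of_le hi))
      unfold c4fail c4rhs at h1
      rw [if_neg (not_lt.2 hl)] at h1
      by_contra h2
      rw [if_pos (not_le.1 h2)] at h1
      omega
    · have h1 := h i (mem_range.2 (Nat.lt_succ_of_le hi))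
      unfold c4fail c4rhs at h1
      rw [if_pos hl] at h1
      by_contra h2
      rw [if_pos (not_le.1 h2)] at h1
      omega
  · rintro ⟨h1, h2⟩ i hi
    have hi' : i ≤ x.2.1 := Nat.le_of_lt_succ (mem_range.1 hi)
    unfold c4fail c4rhs
    have e1 : (if i < lev0 x.1 x.2.1 then 0 else
        if gP x.1 20 * (gP x.1 1 ^ 2 * gP x.1 14 ^ (x.2.1 - i) + gP x.1 2) <
          opSize (x.2.2.2.2.1.1 i) * gP x.1 14 ^ (x.2.1 - i) then 1 else 0) = 0 := by
      by_cases hl : i < lev0 x.1 x.2.1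
      · rw [if_pos hl]
      · rw [if_neg hl, if_neg (not_lt.2 (h1 i hi' (not_lt.1 hl)))]
    have e2 : (if lev0 x.1 x.2.1 < i then
        (if gP x.1 20 * (gP x.1 1 ^ 2 * gP x.1 14 ^ (x.2.1 - i) + gP x.1 2) <
          opSize (x.2.2.2.2.1.2 i) * gP x.1 14 ^ (x.2.1 - i) then 1 else 0) else 0) = 0 := by
      by_cases hl : lev0 x.1 x.2.1 < i
      · rw [if_pos hl, if_neg (not_lt.2 (h2 i hi' hl))]
      · rw [if_neg hl]
    rw [e1, e2]

/-! ## the tests at the first level -/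

/-- weight of the second part -/
def c4w (x : C4S.den) : ℕ := opSize (c4D x) + x.2.1

/-- numbers of heavy rows and heavy columns -/
theorem c4_hr_oc : OC C4S .nat (fun _ => True)
    (fun x => ((range (opR (c4D x))).filter fun p => c4fr x p ≠ 0).card) c4w := by
  refine (c4_nsum0 (s := C4S) (N := fun x => opR (c4D x))
    (F := fun x p => if c4fr x p = 0 then 0 else 1) (OC.fst (OC.fst (c4_D OC.id)))
    (OC.ifEq (OC.get (c4_fr (OC.fst OC.id)) (OC.snd OC.id)) (OC.nlit 0) (OC.nlit 0)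
      (OC.nlit 1)) 1 fun x _ => ?_).congr fun x _ => ?_
  · unfold c4w opSize opR
    omega
  · rw [card_filter]
    exact sum_congr rfl fun i _ => by by_cases h : c4fr x i = 0 <;> simp [h]

theorem c4_hc_oc : OC C4S .nat (fun _ => True)
    (fun x => ((range (opC (c4D x))).filter fun p => c4fc x p ≠ 0).card) c4w := by
  refine (c4_nsum0 (s := C4S) (N := fun x => opC (c4D x))
    (F := fun x p => if c4fc x p = 0 then 0 else 1) (OC.snd (OC.fst (c4_D OC.id)))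
    (OC.ifEq (OC.get (c4_fc (OC.fst OC.id)) (OC.snd OC.id)) (OC.nlit 0) (OC.nlit 0)
      (OC.nlit 1)) 1 fun x _ => ?_).congr fun x _ => ?_
  · unfold c4w opSize opC
    omega
  · rw [card_filter]
    exact sum_congr rfl fun i _ => by by_cases h : c4fc x i = 0 <;> simp [h]

theorem c4_r1_oc : OC C4S .nat (fun _ => True)
    (fun x => ((range (c4D x).2.2.1.1.1).filter fun e => c4fr x ((c4D x).2.2.1.1.2.1 e) = 0 ∨
      c4fc x ((c4D x).2.2.1.1.2.2.1 e) = 0).card) c4w := by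
  refine (c4_nsum0 (s := C4S) (N := fun x => (c4D x).2.2.1.1.1)
    (F := fun x e => if c4fr x ((c4D x).2.2.1.1.2.1 e) = 0 then 1 else
      if c4fc x ((c4D x).2.2.1.1.2.2.1 e) = 0 then 1 else 0)
    (OC.fst (OC.fst (OC.fst (OC.snd (OC.snd (c4_D OC.id))))))
    (OC.ifEq (OC.get (c4_fr (OC.fst OC.id)) (OC.get (OC.fst (OC.snd (OC.fst (OC.fst
      (OC.snd (OC.snd (c4_D (OC.fst OC.id)))))))) (OC.snd OC.id))) (OC.nlit 0) (OC.nlit 1)
      (OC.ifEq (OC.get (c4_fc (OC.fst OC.id)) (OC.get (OC.fst (OC.snd (OC.snd (OC.fst (OC.fst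
        (OC.snd (OC.snd (c4_D (OC.fst OC.id))))))))) (OC.snd OC.id))) (OC.nlit 0) (OC.nlit 1)
        (OC.nlit 0))) 1 fun x _ => ?_).congr fun x _ => ?_
  · unfold c4w opSize
    omega
  · rw [card_filter]
    refine sum_congr rfl fun e _ => ?_
    by_cases h : c4fr x ((c4D x).2.2.1.1.2.1 e) = 0
    · rw [if_pos h, if_pos (Or.inl h)]
    · rw [if_neg h]
      by_cases h' : c4fc x ((c4D x).2.2.1.1.2.2.1 e) = 0
      · rw [if_pos h', if_pos (Or.inr h')]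
      · rw [if_neg h', if_neg (not_or.2 ⟨h, h'⟩)]

theorem c4_r2_oc : OC C4S .nat (fun _ => True)
    (fun x => ((range (c4D x).2.2.1.2.1).filter fun e =>
      c4fr x ((c4D x).2.2.1.2.2.1 e) = 0).card) c4w := by
  refine (c4_nsum0 (s := C4S) (N := fun x => (c4D x).2.2.1.2.1)
    (F := fun x e => if c4fr x ((c4D x).2.2.1.2.2.1 e) = 0 then 1 else 0)
    (OC.fst (OC.snd (OC.fst (OC.snd (OC.snd (c4_D OC.id))))))
    (OC.ifEq (OC.get (c4_fr (OC.fst OC.id)) (OC.get (OC.fst (OC.snd (OC.snd (OC.fst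
      (OC.snd (OC.snd (c4_D (OC.fst OC.id)))))))) (OC.snd OC.id))) (OC.nlit 0) (OC.nlit 1)
      (OC.nlit 0)) 1 fun x _ => ?_).congr fun x _ => ?_
  · unfold c4w opSize
    omega
  · rw [card_filter]

theorem c4_r3_oc : OC C4S .nat (fun _ => True)
    (fun x => ((range (c4D x).2.2.2.1.1).filter fun e =>
      c4fc x ((c4D x).2.2.2.1.2.2.1 e) = 0).card) c4w := by
  refine (c4_nsum0 (s := C4S) (N := fun x => (c4D x).2.2.2.1.1)
    (F := fun x e => if c4fc x ((c4D x).2.2.2.1.2.2.1 e) = 0 then 1 else 0)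
    (OC.fst (OC.fst (OC.snd (OC.snd (OC.snd (c4_D OC.id))))))
    (OC.ifEq (OC.get (c4_fc (OC.fst OC.id)) (OC.get (OC.fst (OC.snd (OC.snd (OC.fst
      (OC.snd (OC.snd (OC.snd (c4_D (OC.fst OC.id))))))))) (OC.snd OC.id))) (OC.nlit 0)
      (OC.nlit 1) (OC.nlit 0)) 1 fun x _ => ?_).congr fun x _ => ?_
  · unfold c4w opSize
    omega
  · rw [card_filter]

theorem c4_rest_oc : OC C4S .nat (fun _ => True)
    (fun x => opRest (c4D x) (c4fr x) (c4fc x)) c4w :=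
  OC.nadd (OC.nadd (OC.nadd (OC.nadd (OC.fst (OC.fst (c4_D OC.id)))
    (OC.snd (OC.fst (c4_D OC.id)))) c4_r1_oc) c4_r2_oc) c4_r3_oc

/-- failures of the tests at the first level -/
def c4nf2 (x : C4S.den) : ℕ :=
  (if gP x.1 24 < ((range (opR (c4D x))).filter fun p => c4fr x p ≠ 0).card then 1 else 0) +
  (if gP x.1 24 < ((range (opC (c4D x))).filter fun p => c4fc x p ≠ 0).card then 1 else 0) +
  (if gP x.1 24 < (c4D x).2.1.1 then 1 else 0) +
  (if gP x.1 24 < (c4D x).2.1.2 then 1 else 0) +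
  (if c4rhs x.1 (gP x.1 1) (x.2.1 - lev0 x.1 x.2.1) <
    opRest (c4D x) (c4fr x) (c4fc x) * gP x.1 14 ^ (x.2.1 - lev0 x.1 x.2.1) then 1 else 0)

theorem c4_nf2_oc : OC C4S .nat (fun _ => True) c4nf2 c4w := by
  have hX : OC C4S C4S (fun _ => True) (fun x => x) c4w := OC.id
  have hK : OC C4S .nat (fun _ => True) (fun x => gP x.1 14 ^ (x.2.1 - lev0 x.1 x.2.1)) c4w :=
    c4_pow (c4_P hX 14) (OC.nsub (OC.fst (OC.snd hX)) (c4_lev hX)) 1 fun x _ => by
      unfold c4w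
      omega
  have hr : OC C4S .nat (fun _ => True)
      (fun x => c4rhs x.1 (gP x.1 1) (x.2.1 - lev0 x.1 x.2.1)) c4w :=
    OC.nmul (c4_P hX 20) (OC.nadd (OC.nmul (c4_P hX 1) hK) (c4_P hX 2))
  exact OC.nadd (OC.nadd (OC.nadd (OC.nadd (c4_ind (c4_P hX 24) c4_hr_oc)
    (c4_ind (c4_P hX 24) c4_hc_oc)) (c4_ind (c4_P hX 24) (OC.fst (OC.fst (OC.snd (c4_D hX))))))
    (c4_ind (c4_P hX 24) (OC.snd (OC.fst (OC.snd (c4_D hX))))))
    (c4_ind hr (OC.nmul c4_rest_oc hK))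

theorem c4_ind_zero (a b : ℕ) : (if a < b then 1 else 0) = 0 ↔ b ≤ a := by
  by_cases h : a < b
  · simp [h]
  · simp [h, not_lt.1 h]

theorem c4_nf2_iff (x : C4S.den) : c4nf2 x < 1 ↔
    opHeavy (c4D x) (c4fr x) (c4fc x) (gP x.1 24) ∧
    opRest (c4D x) (c4fr x) (c4fc x) * gP x.1 14 ^ (x.2.1 - lev0 x.1 x.2.1) ≤
      gP x.1 20 * (gP x.1 1 * gP x.1 14 ^ (x.2.1 - lev0 x.1 x.2.1) + gP x.1 2) := by
  rw [Nat.lt_one_iff]
  unfold c4nf2 opHeavy
  rw [Nat.add_eq_zero_iff, Nat.add_eq_zero_iff, Nat.add_eq_zero_iff, Nat.add_eq_zero_iff,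
    c4_ind_zero, c4_ind_zero, c4_ind_zero, c4_ind_zero, c4_ind_zero]
  constructor
  · rintro ⟨⟨⟨⟨h1, h2⟩, h3⟩, h4⟩, h5⟩
    exact ⟨⟨h1, h2, h3, h4⟩, h5⟩
  · rintro ⟨⟨h1, h2, h3, h4⟩, h5⟩
    exact ⟨⟨⟨⟨h1, h2⟩, h3⟩, h4⟩, h5⟩

/-- under the size tests the second part is within the budget -/
theorem c4_w_le (x : C4S.den) (hK : 1 ≤ gP x.1 14) (h : c4nf x < 1) :
    c4w x ≤ 1 * ((x.2.1 + 1) ^ 2 + gP x.1 20 * (gP x.1 1 ^ 2 + gP x.1 2) + 1) := by
  have h1 := ((c4_nf_iff x).1 h).1 (lev0 x.1 x.2.1) (Nat.sub_le _ _) le_rfl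
  have hp : 1 ≤ gP x.1 14 ^ (x.2.1 - lev0 x.1 x.2.1) := Nat.one_le_pow _ _ hK
  have h2 : opSize (c4D x) ≤ gP x.1 20 * (gP x.1 1 ^ 2 + gP x.1 2) := by
    refine Nat.le_of_mul_le_mul_right ?_ hp
    refine h1.trans ?_
    calc gP x.1 20 * (gP x.1 1 ^ 2 * gP x.1 14 ^ (x.2.1 - lev0 x.1 x.2.1) + gP x.1 2)
        ≤ gP x.1 20 * (gP x.1 1 ^ 2 * gP x.1 14 ^ (x.2.1 - lev0 x.1 x.2.1) +
          gP x.1 2 * gP x.1 14 ^ (x.2.1 - lev0 x.1 x.2.1)) := by
          gcongr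
          exact Nat.le_mul_of_pos_right _ hp
      _ = _ := by ring
  unfold c4w
  nlinarith

theorem chk_oc : OC (.prod GT (.prod .nat StT)) .nat (fun x => 1 ≤ gP x.1 14) chk
    (fun x => (x.2.1 + 1) ^ 2 + gP x.1 20 * (gP x.1 1 ^ 2 + gP x.1 2)) := by
  refine (OC.ifN (s := C4S) (t := .nat) (V := fun x => 1 ≤ gP x.1 14)
    (w := fun x => (x.2.1 + 1) ^ 2 + gP x.1 20 * (gP x.1 1 ^ 2 + gP x.1 2))
    (A := c4nf) (B := fun _ => 1)
    (F := fun x => if c4nf2 x < 1 then 1 else 0) (G := fun _ => 0)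
    ((c4_nf_oc.weaken fun _ _ => trivial).le 1 fun x _ => by omega) (OC.nlit 1)
    (((c4_ind c4_nf2_oc (OC.nlit 1)).weaken fun _ _ => trivial).le 1
      fun x hx => c4_w_le x hx.1 hx.2) (OC.nlit 0)).congr fun x _ => ?_
  unfold chk
  have key : Chk x.1 x.2.1 x.2.2 ↔ (c4nf x < 1 ∧ c4nf2 x < 1) := by
    rw [c4_nf_iff, c4_nf2_iff]
    unfold Chk
    constructor
    · rintro ⟨h1, h2, h3, h4⟩
      exact ⟨⟨h1, h2⟩, h3, h4⟩
    · rintro ⟨⟨h1, h2⟩, h3, h4⟩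
      exact ⟨h1, h2, h3, h4⟩
  by_cases h1 : c4nf x < 1
  · rw [if_pos h1]
    by_cases h2 : c4nf2 x < 1
    · rw [if_pos h2, if_pos (key.2 ⟨h1, h2⟩)]
    · rw [if_neg h2, if_neg fun h => h2 (key.1 h).2]
  · rw [if_neg h1, if_neg fun h => h1 (key.1 h).1]

end A56
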