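import Pool.Agent.Lib_helper50.A56.Par
import Pool.Agent.Lib_helper50.A56.B.C3
import Pool.Agent.Lib_helper50.A56.B.C4
import Pool.Agent.Lib_helper50.A56.B.C6
import Pool.Agent.Lib_helper50.A56.Inv
/-! # MP_a55cb8, block C8 : the cost of step 0 -/

open Matrix Finset

namespace A56

/-! ## statements of C3, C4, C5 (copies) -/

section

variable {mm : ℕ → ℕ} (Φ : Lib mm)

end

/-! ## C8 -/

theorem C8_sdFull_oc {s : Ty} {V : s.den → Prop} {w : s.den → ℕ} {N : s.den → ℕ}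
    (hN : OC s .nat V N w) (h : ∀ x, V x → N x ≤ w x) :
    OC s SDT V (fun x => sdFull (N x)) w := by
  have h1 : OC s NArr V (fun x => tabV .nat (N x) (fun i => i + 1)) w :=
    OC.tab0 (t := .nat) (F := fun _ i => i + 1) hN (OC.nadd (OC.snd OC.id) (OC.nlit 1)) 1 fun x hx => by
      have := h x hx
      omega
  have h2 : OC s VecT V (fun x => tabV .real (N x) (fun _ => 1)) w :=
    OC.tab0 (t := .real) (F := fun _ _ => (1 : ℝ)) hN OC.r1 1 fun x hx => by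
      have := h x hx
      omega
  have h3 : OC s NArr V (fun x => tabV .nat (N x) (fun _ => 1)) w :=
    OC.tab0 (t := .nat) (F := fun _ _ => (1 : ℕ)) hN (OC.nlit 1) 1 fun x hx => by
      have := h x hx
      omega
  exact OC.pair hN (OC.pair h1 (OC.pair h2 h3))

theorem C8_cooT_oc {s : Ty} {V : s.den → Prop} {w : s.den → ℕ} {F : s.den → CooT.den}
    (hF : OC s CooT V F w) : OC s CooT V (fun x => cooT (F x)) w :=
  OC.pair (OC.fst hF) (OC.pair (OC.fst (OC.snd (OC.snd hF))) (OC.pair (OC.fst (OC.snd hF))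
    (OC.snd (OC.snd (OC.snd hF)))))

theorem C8_le1 {a b : ℕ} (h : a ≤ b) : a ≤ 1 * (b + 1) := by omega

theorem C8_opSize' (a b c d e f : ℕ) : c + d + e ≤ a + b + c + d + e + f := by omega

theorem C8_opSize (E : OpT.den) : E.2.2.1.1.1 + E.2.2.1.2.1 + E.2.2.2.1.1 ≤ opSize E :=
  C8_opSize' _ _ _ _ _ _

/-- the input of step 0 -/
abbrev C8T : Ty := .prod GT (.prod .nat (.prod StT NArr))

section

variable {mm : ℕ → ℕ} (Φ : Lib mm)

theorem C8_par {g : GT.den} (h : ∃ c x0, g.1.1 = parN c x0) :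
    1 ≤ gP g 14 ∧ gP g 24 ≤ 2 ^ gP g 12 ∧ gP g 11 ≤ 2 ^ gP g 12 := by
  obtain ⟨c, x0, hg⟩ := h
  have e14 : gP g 14 = pK c x0 := by rw [gP, hg]; rfl
  have e24 : gP g 24 = phcap c x0 := by rw [gP, hg]; rfl
  have e12 : gP g 12 = ps c x0 := by rw [gP, hg]; rfl
  have e11 : gP g 11 = pk3 c x0 := by rw [gP, hg]; rfl
  have h1 : phcap c x0 + pm2 c x0 + pk3 c x0 < 2 ^ ps c x0 := by
    rw [ps]
    exact Nat.lt_log2_self
  refine ⟨?_, ?_, ?_⟩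
  · rw [e14, pK]
    exact Nat.one_le_pow _ _ (by norm_num)
  · rw [e24, e12]
    omega
  · rw [e11, e12]
    omega

theorem C8_top (g : GT.den) (j : ℕ) (st : StT.den) (w : ℕ → ℕ) :
    (theta Φ g j st w).1 (topIx g j) = (0, gE g) := by
  unfold theta asm
  dsimp only
  rw [tabV_lt (by omega)]
  have h1 : ¬ topIx g j < topIx g j - 1 := by omega
  have h2 : ¬ topIx g j = topIx g j - 1 := by
    have : 2 ≤ topIx g j := by unfold topIx; omega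
    omega
  have h3 : ¬ topIx g j = topIx g j + 1 := by omega
  rw [if_neg h1, if_neg h2, if_neg h3]

theorem C8_chk (g : GT.den) (j : ℕ) (st : StT.den) :
    (0 < chk (g, (j, st)) ↔ Chk g j st) ∧ (chk (g, (j, st)) = 1 ↔ Chk g j st) := by
  unfold chk
  by_cases h : Chk g j st
  · simp [h]
  · simp [h]

theorem C8_om (g : GT.den) (j : ℕ) (st : StT.den) (w : ℕ → ℕ) :
    (omOf Φ g j st w).1 = gP g 5 * opC (st.2.2.1.1 (lev0 g j)) :=
  (Φ.sk_eq (opC (st.2.2.1.1 (lev0 g j))) (gP g 5) (gP g 10) w).1.1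

/-- weight of the exact base data -/
def C8_w3 (mm : ℕ → ℕ) (g : GT.den) (j : ℕ) (st : StT.den) : ℕ :=
  (gP g 12 + 3) * mm (2 ^ (gP g 12 + 2)) + (gP g 26 + 1) * (opRest (st.2.2.1.1 (lev0 g j))
    (st.2.1.1 (lev0 g j)).2.2.2 (st.2.1.2 (lev0 g j)).2.2.2 + 1) + opSize (st.2.2.1.1 (lev0 g j))

/-- weight of the base data of subspace iteration -/
def C8_w4 (mm : ℕ → ℕ) (g : GT.den) (j : ℕ) (st : StT.den) : ℕ :=
  (gP g 5 + 1) * (opC (st.2.2.1.1 (lev0 g j)) + 1) * (gP g 10 + 1) + 2 ^ gP g 10 +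
    (gP g 18 + 1) * (mm (2 ^ gP g 12) + (gP g 11 + 1) *
      (opRest (st.2.2.1.1 (lev0 g j)) (st.2.1.1 (lev0 g j)).2.2.2
        (st.2.1.2 (lev0 g j)).2.2.2 + gP g 24 + 1) + opSize (st.2.2.1.1 (lev0 g j))) +
    (gP g 12 + 1) * mm (2 ^ gP g 12) +
    (gP g 11 + 1) * (gP g 5 * opC (st.2.2.1.1 (lev0 g j)) + 1)

open Classical in
theorem C8_w0 {g : GT.den} {j : ℕ} {st : StT.den} (w : ℕ → ℕ) (h : st.1.1 = 0)
    (h2 : Chk g j st) : w0 Φ g j st w = (j + 4) ^ 2 + gP g 20 * (gP g 1 ^ 2 + gP g 2 + 1) +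
      ((if gP g 25 = 1 then C8_w3 mm g j st else C8_w4 mm g j st) + opSize (gE g) +
      (gP g 19 + 1) * (chCost Φ.C (theta Φ g j st w) (topIx g j) + opSize (gE g) + 1) +
      gP g 0 + g.2.1.2.1.1 + g.2.1.2.2.1) := by
  rw [w0, if_pos h, if_pos h2]
  rfl

theorem C8_sum (a b z i k l m n : ℕ) :
    a ≤ a + b + (z + i + k + l + m + n) ∧
    z ≤ a + b + (z + i + k + l + m + n) ∧
    i ≤ a + b + (z + i + k + l + m + n) ∧
    k ≤ a + b + (z + i + k + l + m + n) ∧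
    l ≤ a + b + (z + i + k + l + m + n) ∧
    i + m + n ≤ a + b + (z + i + k + l + m + n) ∧
    i + l ≤ a + b + (z + i + k + l + m + n) := by
  omega

/-- the bounds that are used -/
theorem C8_bd {g : GT.den} {j : ℕ} {st : StT.den} (w : ℕ → ℕ) (h : st.1.1 = 0)
    (h2 : Chk g j st) :
    (j + 4) ^ 2 ≤ w0 Φ g j st w ∧
    (if gP g 25 = 1 then C8_w3 mm g j st else C8_w4 mm g j st) ≤ w0 Φ g j st w ∧
    opSize (gE g) ≤ w0 Φ g j st w ∧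
    (gP g 19 + 1) * (chCost Φ.C (theta Φ g j st w) (topIx g j) + opSize (gE g) + 1) ≤
      w0 Φ g j st w ∧
    gP g 0 ≤ w0 Φ g j st w ∧
    opSize (gE g) + g.2.1.2.1.1 + g.2.1.2.2.1 ≤ w0 Φ g j st w ∧
    opSize (gE g) + gP g 0 ≤ w0 Φ g j st w := by
  rw [C8_w0 Φ w h h2]
  exact C8_sum _ _ _ _ _ _ _ _

theorem C8_w4_le {a b c : ℕ} : a ≤ a + b + c + 0 ∧ b + c ≤ a + b + c := by omega

/-- case distinction -/
theorem C8_if1 {s t : Ty} {V : s.den → Prop} {w : s.den → ℕ} {A : s.den → ℕ}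
    {F G : s.den → t.den} (hA : OC s .nat V A w) (hF : OC s t (fun x => V x ∧ A x = 1) F w)
    (hG : OC s t (fun x => V x ∧ A x ≠ 1) G w) :
    OC s t V (fun x => if A x = 1 then F x else G x) w := by
  have h1 : OC s t (fun x => V x ∧ 0 < A x) (fun x => if A x < 2 then F x else G x) w :=
    OC.ifN (hA.weaken fun _ h => h.1) (OC.nlit 2)
      (hF.weaken fun x h => ⟨h.1.1, by have h1 := h.1.2; have h2 := h.2; omega⟩)
      (hG.weaken fun x h => ⟨h.1.1, by have h1 := h.1.2; have h2 := h.2; omega⟩)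
  have h2 : OC s t (fun x => V x ∧ ¬ 0 < A x) G w :=
    hG.weaken fun x h => ⟨h.1, by have h2 := h.2; omega⟩
  refine (OC.ifN (OC.nlit 0) hA h1 h2).congr fun x _ => ?_
  by_cases h3 : A x = 1
  · rw [if_pos h3, if_pos (by omega), if_pos (by omega)]
  · rw [if_neg h3]
    by_cases h4 : 0 < A x
    · rw [if_pos h4, if_neg (by omega)]
    · rw [if_neg h4]

/-! ### the pieces, for an abstract domain and an abstract weight -/

section pieces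

variable {V : C8T.den → Prop} {W : C8T.den → ℕ}

theorem C8_P (i : ℕ) : OC C8T .nat V (fun x => gP x.1 i) W :=
  OC.get (OC.fst (OC.fst (OC.fst OC.id))) (OC.nlit i)

theorem C8_Q (i : ℕ) : OC C8T .real V (fun x => gQ x.1 i) W :=
  OC.get (OC.fst (OC.snd (OC.fst (OC.fst OC.id)))) (OC.nlit i)

theorem C8_E : OC C8T OpT V (fun x => gE x.1) W := OC.fst (OC.fst (OC.snd (OC.fst OC.id)))

theorem C8_lev : OC C8T .nat V (fun x => lev0 x.1 x.2.1) W :=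
  OC.nsub (OC.fst (OC.snd OC.id)) (C8_P 21)

theorem C8_topI : OC C8T .nat V (fun x => topIx x.1 x.2.1) W :=
  OC.nadd (OC.nmul (OC.nlit 2) (OC.nsub (OC.fst (OC.snd OC.id)) C8_lev)) (OC.nlit 2)

theorem C8_D : OC C8T OpT V (fun x => x.2.2.1.2.2.1.1 (lev0 x.1 x.2.1)) W :=
  OC.get (OC.fst (OC.fst (OC.snd (OC.snd (OC.fst (OC.snd (OC.snd OC.id))))))) C8_lev

theorem C8_om_oc (h : ∀ x, V x → (gP x.1 5 + 1) * (opC (x.2.2.1.2.2.1.1 (lev0 x.1 x.2.1)) + 1) *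
      (gP x.1 10 + 1) + 2 ^ gP x.1 10 ≤ W x) :
    OC C8T CooT V (fun x => omOf Φ x.1 x.2.1 x.2.2.1 x.2.2.2) W := by
  have hsk : OC C8T CooT V (fun x => Φ.sk (opC (x.2.2.1.2.2.1.1 (lev0 x.1 x.2.1)),
      (gP x.1 5, (gP x.1 10, x.2.2.2)))) W :=
    OC.comp (F := fun x : C8T.den => (opC (x.2.2.1.2.2.1.1 (lev0 x.1 x.2.1)),
      (gP x.1 5, (gP x.1 10, x.2.2.2)))) Φ.sk_oc
      (OC.pair (OC.snd (OC.fst C8_D)) (OC.pair (C8_P 5) (OC.pair (C8_P 10)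
        (OC.snd (OC.snd (OC.snd OC.id))))))
      (fun _ _ => trivial) 1 (fun x hx => by exact C8_le1 (h x hx))
  exact C8_cooT_oc hsk

theorem C8_hlam : OC C8T .real V (fun x => gLam x.1 (lev0 x.1 x.2.1)) W :=
  OC.get (OC.snd (OC.snd (OC.fst (OC.fst OC.id)))) C8_lev

theorem C8_hfr : OC C8T NArr V (fun x => (x.2.2.1.2.1.1 (lev0 x.1 x.2.1)).2.2.2) W :=
  OC.snd (OC.snd (OC.snd (OC.get (OC.fst (OC.fst (OC.snd (OC.fst (OC.snd (OC.snd OC.id))))))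
    C8_lev)))

theorem C8_hfc : OC C8T NArr V (fun x => (x.2.2.1.2.1.2 (lev0 x.1 x.2.1)).2.2.2) W :=
  OC.snd (OC.snd (OC.snd (OC.get (OC.snd (OC.fst (OC.snd (OC.fst (OC.snd (OC.snd OC.id))))))
    C8_lev)))

/-- the base data of subspace iteration -/
theorem C8_base4 (hp : ∀ x, V x → ∃ c x0, x.1.1.1 = parN c x0)
    (hc : ∀ x, V x → Chk x.1 x.2.1 x.2.2.1) (h : ∀ x, V x → C8_w4 mm x.1 x.2.1 x.2.2.1 ≤ W x) :
    OC C8T BaseT V (fun x => Φ.base (((gP x.1 24, gP x.1 12), (gP x.1 11, gP x.1 18)),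
      (gLam x.1 (lev0 x.1 x.2.1), ((x.2.2.1.2.2.1.1 (lev0 x.1 x.2.1),
        ((x.2.2.1.2.1.1 (lev0 x.1 x.2.1)).2.2.2, (x.2.2.1.2.1.2 (lev0 x.1 x.2.1)).2.2.2)),
        omOf Φ x.1 x.2.1 x.2.2.1 x.2.2.2)))) W := by
  have hom : OC C8T CooT V (fun x => omOf Φ x.1 x.2.1 x.2.2.1 x.2.2.2) W :=
    C8_om_oc Φ fun x hx => by
      refine le_trans ?_ (h x hx)
      unfold C8_w4
      exact Nat.le_add_right_of_le (Nat.le_add_right_of_le (Nat.le_add_right _ _))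
  refine OC.comp (F := fun x : C8T.den => (((gP x.1 24, gP x.1 12), (gP x.1 11, gP x.1 18)),
    (gLam x.1 (lev0 x.1 x.2.1), ((x.2.2.1.2.2.1.1 (lev0 x.1 x.2.1),
      ((x.2.2.1.2.1.1 (lev0 x.1 x.2.1)).2.2.2, (x.2.2.1.2.1.2 (lev0 x.1 x.2.1)).2.2.2)),
      omOf Φ x.1 x.2.1 x.2.2.1 x.2.2.2)))) Φ.base_oc
    (OC.pair (OC.pair (OC.pair (C8_P 24) (C8_P 12)) (OC.pair (C8_P 11) (C8_P 18)))
      (OC.pair C8_hlam (OC.pair (OC.pair C8_D (OC.pair C8_hfr C8_hfc)) hom))) ?_ 1 ?_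
  · intro x hx
    have hpp := C8_par (hp x hx)
    exact ⟨(hc x hx).2.2.1, hpp.2.1, hpp.2.2⟩
  · intro x hx
    have h1 := h x hx
    unfold C8_w4 at h1
    rw [← C8_om Φ x.1 x.2.1 x.2.2.1 x.2.2.2] at h1
    refine C8_le1 (le_trans ?_ h1)
    have : ∀ a b c d : ℕ, b + c + d ≤ a + b + c + d := fun a b c d => by omega
    exact this _ _ _ _

/-- the exact base data -/
theorem C8_base3 (hp : ∀ x, V x → ∃ c x0, x.1.1.1 = parN c x0)
    (hc : ∀ x, V x → Chk x.1 x.2.1 x.2.2.1) (h : ∀ x, V x → C8_w3 mm x.1 x.2.1 x.2.2.1 ≤ W x) :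
    OC C8T BaseT V (fun x => Φ.base3 (((gP x.1 24, gP x.1 12), gP x.1 26),
      (gLam x.1 (lev0 x.1 x.2.1), (x.2.2.1.2.2.1.1 (lev0 x.1 x.2.1),
        ((x.2.2.1.2.1.1 (lev0 x.1 x.2.1)).2.2.2, (x.2.2.1.2.1.2 (lev0 x.1 x.2.1)).2.2.2))))) W := by
  refine OC.comp (F := fun x : C8T.den => (((gP x.1 24, gP x.1 12), gP x.1 26),
    (gLam x.1 (lev0 x.1 x.2.1), (x.2.2.1.2.2.1.1 (lev0 x.1 x.2.1),
      ((x.2.2.1.2.1.1 (lev0 x.1 x.2.1)).2.2.2, (x.2.2.1.2.1.2 (lev0 x.1 x.2.1)).2.2.2)))))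
    Φ.base3_oc
    (OC.pair (OC.pair (OC.pair (C8_P 24) (C8_P 12)) (C8_P 26))
      (OC.pair C8_hlam (OC.pair C8_D (OC.pair C8_hfr C8_hfc)))) ?_ 1 ?_
  · intro x hx
    have hpp := C8_par (hp x hx)
    exact ⟨hpp.2.1, (hc x hx).2.2.1.2.2.1, (hc x hx).2.2.1.2.2.2⟩
  · intro x hx
    exact C8_le1 (h x hx)

theorem C8_base_oc (hp : ∀ x, V x → ∃ c x0, x.1.1.1 = parN c x0)
    (hc : ∀ x, V x → Chk x.1 x.2.1 x.2.2.1)
    (h : ∀ x, V x → (if gP x.1 25 = 1 then C8_w3 mm x.1 x.2.1 x.2.2.1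
      else C8_w4 mm x.1 x.2.1 x.2.2.1) ≤ W x) :
    OC C8T BaseT V (fun x => baseOf Φ x.1 x.2.1 x.2.2.1 x.2.2.2) W := by
  refine C8_if1 (A := fun x : C8T.den => gP x.1 25) (C8_P 25) (C8_base3 Φ
    (fun x hx => hp x hx.1) (fun x hx => hc x hx.1) fun x hx => ?_) (C8_base4 Φ
    (fun x hx => hp x hx.1) (fun x hx => hc x hx.1) fun x hx => ?_)
  · have h1 := h x hx.1
    rw [if_pos hx.2] at h1
    exact h1
  · have h1 := h x hx.1
    rw [if_neg hx.2] at h1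
    exact h1

theorem C8_theta_oc (hb : OC C8T BaseT V (fun x => baseOf Φ x.1 x.2.1 x.2.2.1 x.2.2.2) W)
    (h1 : ∀ x, V x → gP x.1 0 ≤ W x) (h2 : ∀ x, V x → opSize (gE x.1) ≤ W x)
    (h3 : ∀ x, V x → (x.2.1 + 4) ^ 2 ≤ W x) :
    OC C8T ChT V (fun x => theta Φ x.1 x.2.1 x.2.2.1 x.2.2.2) W := by
  have hfull : OC C8T SDT V (fun x => sdFull (gP x.1 0)) W := C8_sdFull_oc (C8_P 0) h1
  have hS : OC C8T SDT V (fun x => x.2.2.1.2.1.1 x.2.1) W :=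
    OC.get (OC.fst (OC.fst (OC.snd (OC.fst (OC.snd (OC.snd OC.id)))))) (OC.fst (OC.snd OC.id))
  have hSE : OC C8T OpT V
      (fun x => Φ.mkOp (gE x.1, (x.2.2.1.2.1.1 x.2.1, sdFull (gP x.1 0)))) W :=
    OC.comp (F := fun x : C8T.den => (gE x.1, (x.2.2.1.2.1.1 x.2.1, sdFull (gP x.1 0))))
      Φ.mkOp_oc (OC.pair C8_E (OC.pair hS hfull)) (fun _ _ => trivial) 1 (fun x hx => by exact C8_le1 (le_trans (C8_opSize _) (h2 x hx)))
  have hDs : OC C8T (.arr OpT) V (fun x => x.2.2.1.2.2.1.1) W :=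
    OC.fst (OC.fst (OC.snd (OC.snd (OC.fst (OC.snd (OC.snd OC.id))))))
  have hFs : OC C8T (.arr OpT) V (fun x => x.2.2.1.2.2.1.2) W :=
    OC.snd (OC.fst (OC.snd (OC.snd (OC.fst (OC.snd (OC.snd OC.id))))))
  have key : OC C8T ChT V (fun x => asm x.1 x.2.1 x.2.2.1.2.2.1.1 x.2.2.1.2.2.1.2
      (Φ.mkOp (gE x.1, (x.2.2.1.2.1.1 x.2.1, sdFull (gP x.1 0))))
      (baseOf Φ x.1 x.2.1 x.2.2.1 x.2.2.2)) W :=
    OC.comp (F := fun x : C8T.den => ((x.1, x.2.1), ((x.2.2.1.2.2.1.1, x.2.2.1.2.2.1.2),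
      (Φ.mkOp (gE x.1, (x.2.2.1.2.1.1 x.2.1, sdFull (gP x.1 0))),
        baseOf Φ x.1 x.2.1 x.2.2.1 x.2.2.2)))) asm_oc
      (OC.pair (OC.pair (OC.fst OC.id) (OC.fst (OC.snd OC.id)))
        (OC.pair (OC.pair hDs hFs) (OC.pair hSE hb)))
      (fun _ _ => trivial) 1 (fun x hx => by exact C8_le1 (h3 x hx))
  exact key

theorem C8_cand_oc {Θ : C8T.den → ChT.den} (hΘ : OC C8T ChT V Θ W)
    (h : ∀ x, V x → (gP x.1 19 + 1) * (chCost Φ.C (Θ x) (topIx x.1 x.2.1) +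
      opSize ((Θ x).1 (topIx x.1 x.2.1)).2) ≤ W x) :
    OC C8T VecT V (fun x => cand Φ x.1 x.2.1 (Θ x)) W := by
  have hout : OC (.prod (.prod .nat .nat) (.prod (.prod ChT .real) VecT)) VecT (fun _ => True)
      Φ.outer (fun x => (x.1.2 + 1) * (chCost Φ.C x.2.1.1 x.1.1 +
        opSize (x.2.1.1.1 x.1.1).2)) :=
    OC.of_Cp Φ.C Φ.outer_cp fun x _ => by
      rw [mul_assoc]
      exact Nat.mul_le_mul_left _ (Nat.le_succ _)
  have key : OC C8T VecT V (fun x => Φ.outer ((topIx x.1 x.2.1, gP x.1 19),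
      ((Θ x, gQ x.1 5), x.1.2.2.2))) W :=
    OC.comp (F := fun x : C8T.den => ((topIx x.1 x.2.1, gP x.1 19),
      ((Θ x, gQ x.1 5), x.1.2.2.2))) hout
      (OC.pair (OC.pair C8_topI (C8_P 19)) (OC.pair (OC.pair hΘ (C8_Q 5))
        (OC.snd (OC.snd (OC.snd (OC.fst OC.id)))))) (fun _ _ => trivial) 1 (fun x hx => by exact C8_le1 (h x hx))
  exact key

theorem C8_resid_oc {v : C8T.den → VecT.den} (hv : OC C8T VecT V v W)
    (h1 : ∀ x, V x → gP x.1 0 ≤ W x) (h2 : ∀ x, V x → opSize (gE x.1) ≤ W x) :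
    OC C8T VecT V (fun x => resid Φ x.1 (v x)) W := by
  have hmv : OC C8T VecT V (fun x => Φ.mv ((0, gE x.1), v x)) W :=
    OC.comp (F := fun x : C8T.den => ((0, gE x.1), v x)) Φ.mv_oc
      (OC.pair (OC.pair (OC.nlit 0) C8_E) hv) (fun _ _ => trivial) 1 (fun x hx => by exact C8_le1 (h2 x hx))
  have key : OC C8T VecT V (fun x => Φ.lin (gP x.1 0, (((1 : ℝ), Φ.mv ((0, gE x.1), v x)),
      ((-1 : ℝ), x.1.2.2.2)))) W :=
    OC.comp (F := fun x : C8T.den => (gP x.1 0, (((1 : ℝ), Φ.mv ((0, gE x.1), v x)),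
      ((-1 : ℝ), x.1.2.2.2)))) Φ.lin_oc
      (OC.pair (C8_P 0) (OC.pair (OC.pair OC.r1 hmv) (OC.pair (OC.neg OC.r1)
        (OC.snd (OC.snd (OC.snd (OC.fst OC.id)))))))
      (fun _ _ => trivial) 1 (fun x hx => by exact C8_le1 (h1 x hx))
  exact key

theorem C8_dot_oc {v z : C8T.den → VecT.den} (hv : OC C8T VecT V v W) (hz : OC C8T VecT V z W)
    (h1 : ∀ x, V x → gP x.1 0 ≤ W x) :
    OC C8T .real V (fun x => Φ.dot (gP x.1 0, (v x, z x))) W :=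
  OC.comp (F := fun x : C8T.den => (gP x.1 0, (v x, z x))) Φ.dot_oc
    (OC.pair (C8_P 0) (OC.pair hv hz)) (fun _ _ => trivial) 1 (fun x hx => by exact C8_le1 (h1 x hx))

theorem C8_X_oc {v : C8T.den → VecT.den} (hv : OC C8T VecT V v W)
    (h : ∀ x, V x → opSize (gE x.1) + x.1.2.1.2.1.1 + x.1.2.1.2.2.1 ≤ W x) :
    OC C8T VecT V (fun x => elimX Φ (gE x.1) x.1.2.1.2.1 x.1.2.1.2.2 x.1.2.2.1 (v x)) W := by
  have h1 : OC C8T (.prod CooT CooT) V (fun x => (x.1.2.1.2.1, x.1.2.1.2.2)) W :=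
    OC.pair (OC.fst (OC.snd (OC.fst (OC.snd (OC.fst OC.id)))))
      (OC.snd (OC.snd (OC.fst (OC.snd (OC.fst OC.id)))))
  have h2 : OC C8T VecT V (fun x => x.1.2.2.1) W := OC.fst (OC.snd (OC.snd (OC.fst OC.id)))
  exact OC.comp (F := fun x : C8T.den => (gE x.1, ((x.1.2.1.2.1, x.1.2.1.2.2), (x.1.2.2.1,
      v x)))) (elimX_oc Φ) (OC.pair C8_E (OC.pair h1 (OC.pair h2 hv)))
      (fun _ _ => trivial) 1 (fun x hx => by exact C8_le1 (h x hx))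

/-- the inner part of step 0 -/
theorem C8_inner {Θ : C8T.den → ChT.den} (hΘ : OC C8T ChT V Θ W)
    (h : ∀ x, V x → (gP x.1 19 + 1) * (chCost Φ.C (Θ x) (topIx x.1 x.2.1) +
      opSize ((Θ x).1 (topIx x.1 x.2.1)).2) ≤ W x)
    (h1 : ∀ x, V x → gP x.1 0 ≤ W x) (h2 : ∀ x, V x → opSize (gE x.1) ≤ W x)
    (h3 : ∀ x, V x → opSize (gE x.1) + x.1.2.1.2.1.1 + x.1.2.1.2.2.1 ≤ W x) :
    OC C8T StT V (fun x =>
      if gQ x.1 6 * Φ.dot (gP x.1 0, (x.1.2.2.2, x.1.2.2.2)) <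
          Φ.dot (gP x.1 0, (resid Φ x.1 (cand Φ x.1 x.2.1 (Θ x)),
            resid Φ x.1 (cand Φ x.1 x.2.1 (Θ x)))) then
        (x.2.2.1.1, (x.2.2.1.2.1, (x.2.2.1.2.2.1, Θ x)))
      else ((1, elimX Φ (gE x.1) x.1.2.1.2.1 x.1.2.1.2.2 x.1.2.2.1
        (cand Φ x.1 x.2.1 (Θ x))), x.2.2.1.2)) W := by
  have hv := C8_cand_oc Φ hΘ h
  have hr := C8_resid_oc Φ hv h1 h2
  have hb : OC C8T VecT V (fun x => x.1.2.2.2) W := OC.snd (OC.snd (OC.snd (OC.fst OC.id)))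
  have hd1 := C8_dot_oc Φ hb hb h1
  have hd2 := C8_dot_oc Φ hr hr h1
  have hst : OC C8T StT V (fun x => x.2.2.1) W := OC.fst (OC.snd (OC.snd OC.id))
  have hA : OC C8T StT V (fun x => (x.2.2.1.1, (x.2.2.1.2.1, (x.2.2.1.2.2.1, Θ x)))) W :=
    OC.pair (OC.fst hst) (OC.pair (OC.fst (OC.snd hst)) (OC.pair (OC.fst (OC.snd (OC.snd hst)))
      hΘ))
  have hB : OC C8T StT V (fun x => ((1, elimX Φ (gE x.1) x.1.2.1.2.1 x.1.2.1.2.2 x.1.2.2.1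
      (cand Φ x.1 x.2.1 (Θ x))), x.2.2.1.2)) W :=
    OC.pair (OC.pair (OC.nlit 1) (C8_X_oc Φ hv h3)) (OC.snd hst)
  refine (OC.ifLt (OC.mul (C8_Q 6) hd1) hd2 (hA.weaken fun x hx => hx.1)
    (hB.weaken fun x hx => hx.1)).congr fun x _ => ?_
  split_ifs <;> rfl

end pieces

/-- input `(g, (j, (st, w)))` -/
theorem st0_oc : OC (.prod GT (.prod .nat (.prod StT NArr))) StT
    (fun x => ∃ c x0, x.1.1.1 = parN c x0) (fun x => st0 Φ x.1 x.2.1 x.2.2.1 x.2.2.2)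
    (fun x => w0 Φ x.1 x.2.1 x.2.2.1 x.2.2.2) := by
  obtain ⟨V, hV⟩ : ∃ V : C8T.den → Prop, V = fun x => ∃ c x0, x.1.1.1 = parN c x0 := ⟨_, rfl⟩
  obtain ⟨W, hW⟩ : ∃ W : C8T.den → ℕ, W = fun x => w0 Φ x.1 x.2.1 x.2.2.1 x.2.2.2 := ⟨_, rfl⟩
  have hp : ∀ x, V x → ∃ c x0, x.1.1.1 = parN c x0 := fun x hx => by rw [hV] at hx; exact hx
  have hWx : ∀ x, w0 Φ x.1 x.2.1 x.2.2.1 x.2.2.2 = W x := fun x => by rw [hW]
  show OC C8T StT _ _ _
  rw [← hV, ← hW]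
  obtain ⟨V2, hV2⟩ : ∃ V2 : C8T.den → Prop, V2 = fun x => (V x ∧ x.2.2.1.1.1 < 1) ∧
    0 < chk (x.1, (x.2.1, x.2.2.1)) := ⟨_, rfl⟩
  have hz : ∀ x, V2 x → x.2.2.1.1.1 = 0 := fun x hx => by
    rw [hV2] at hx
    exact Nat.lt_one_iff.mp hx.1.2
  have hc : ∀ x, V2 x → Chk x.1 x.2.1 x.2.2.1 := fun x hx => by
    rw [hV2] at hx
    exact (C8_chk _ _ _).1.mp hx.2
  have hp2 : ∀ x, V2 x → ∃ c x0, x.1.1.1 = parN c x0 := fun x hx => by
    rw [hV2] at hx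
    exact hp x hx.1.1
  have bd : ∀ x, V2 x → _ := fun (x : C8T.den) (hx : V2 x) =>
    C8_bd Φ x.2.2.2 (hz x hx) (hc x hx)
  have b0 : ∀ x, V2 x → gP x.1 0 ≤ W x := fun x hx =>
    (bd x hx).2.2.2.2.1.trans_eq (hWx x)
  have b1 : ∀ x, V2 x → opSize (gE x.1) ≤ W x := fun x hx => (bd x hx).2.2.1.trans_eq (hWx x)
  have hth : OC C8T ChT V2 (fun x => theta Φ x.1 x.2.1 x.2.2.1 x.2.2.2) W :=
    C8_theta_oc Φ (C8_base_oc Φ hp2 hc
      fun x hx => (bd x hx).2.1.trans_eq (hWx x)) b0 b1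
      fun x hx => (bd x hx).1.trans_eq (hWx x)
  have hin := C8_inner Φ hth (fun x hx => by
    rw [C8_top]
    exact (Nat.mul_le_mul_left _ (Nat.le_succ _)).trans
      ((bd x hx).2.2.2.1.trans_eq (hWx x))) b0 b1
    (fun x hx => (bd x hx).2.2.2.2.2.1.trans_eq (hWx x))
  rw [hV2] at hin
  have hC : OC C8T StT (fun x => (V x ∧ x.2.2.1.1.1 < 1) ∧ ¬ 0 < chk (x.1, (x.2.1, x.2.2.1)))
      (fun x => ((1, VecT.default), x.2.2.1.2)) W :=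
    OC.pair (OC.pair (OC.nlit 1) (OC.dflt VecT)) (OC.snd (OC.fst (OC.snd (OC.snd OC.id))))
  have hchk : OC C8T .nat (fun x => V x ∧ x.2.2.1.1.1 < 1)
      (fun x => chk (x.1, (x.2.1, x.2.2.1))) W := by
    refine OC.comp (F := fun x : C8T.den => (x.1, (x.2.1, x.2.2.1))) chk_oc
      (OC.pair (OC.fst OC.id) (OC.pair (OC.fst (OC.snd OC.id))
        (OC.fst (OC.snd (OC.snd OC.id))))) ?_ 1 ?_
    · intro x hx
      exact (C8_par (hp x hx.1)).1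
    · intro x hx
      rw [← hWx x, w0, if_pos (Nat.lt_one_iff.mp hx.2)]
      refine C8_le1 (le_trans ?_ (Nat.le_add_right _ _))
      dsimp only
      refine Nat.add_le_add (Nat.pow_le_pow_left (by omega) 2)
        (Nat.mul_le_mul_left _ (Nat.le_succ _))
  have hmid := OC.ifN (OC.nlit 0) hchk hin hC
  have hS1 : OC C8T StT (fun x => V x ∧ ¬ x.2.2.1.1.1 < 1) (fun x => x.2.2.1) W :=
    OC.fst (OC.snd (OC.snd OC.id))
  have hfin := OC.ifN (A := fun x : C8T.den => x.2.2.1.1.1) (B := fun _ => 1)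
    (OC.fst (OC.fst (OC.fst (OC.snd (OC.snd OC.id))))) (OC.nlit 1) hmid hS1
  refine hfin.congr fun x hx => ?_
  unfold st0
  by_cases h1 : x.2.2.1.1.1 = 0
  · rw [if_pos (Nat.lt_one_iff.mpr h1), if_pos h1]
    by_cases h2 : Chk x.1 x.2.1 x.2.2.1
    · rw [if_pos ((C8_chk _ _ _).1.mpr h2), if_pos ((C8_chk _ _ _).2.mpr h2)]
    · rw [if_neg (fun h => h2 ((C8_chk _ _ _).1.mp h)),
        if_neg (fun h => h2 ((C8_chk _ _ _).2.mp h))]
      rfl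
  · rw [if_neg (fun h => h1 (Nat.lt_one_iff.mp h)), if_neg h1]

end

end A56
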