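import Pool.Agent.Lib_helper50.A56.Defs
/-!
# MP_a55cb8: block D1b (gram matrices), helper77
-/

open Matrix Finset

namespace A56

section forms

variable {m n a b c : Type*} [Fintype m] [Fintype n] [Fintype a] [Fintype b] [Fintype c]
  [DecidableEq m] [DecidableEq n] [DecidableEq a] [DecidableEq b] [DecidableEq c]

theorem gram_transpose (A : Matrix m n ℝ) (l : ℝ) : (gram A l)ᵀ = gram A l := by
  unfold gram
  rw [Matrix.transpose_add, Matrix.transpose_mul, Matrix.transpose_transpose,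
    Matrix.transpose_smul, Matrix.transpose_one]

theorem gram_posDef (A : Matrix m n ℝ) {l : ℝ} (hl : 0 < l) : (gram A l).PosDef := by
  have h1 : (Aᵀ * A).PosSemidef := by
    have := posSemidef_conjTranspose_mul_self A
    rwa [conjTranspose_eq_transpose_of_trivial] at this
  exact PosDef.posSemidef_add h1 (PosDef.one.smul hl)

theorem D1b_mul_inv {M : Matrix n n ℝ} (hM : M.PosDef) : M * M⁻¹ = 1 :=
  Matrix.mul_nonsing_inv _ ((Matrix.isUnit_iff_isUnit_det _).1 hM.isUnit)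

theorem D1b_inv_mul {M : Matrix n n ℝ} (hM : M.PosDef) : M⁻¹ * M = 1 :=
  Matrix.nonsing_inv_mul _ ((Matrix.isUnit_iff_isUnit_det _).1 hM.isUnit)

theorem gram_mul_inv (A : Matrix m n ℝ) {l : ℝ} (hl : 0 < l) :
    gram A l * (gram A l)⁻¹ = 1 := D1b_mul_inv (gram_posDef A hl)

theorem gram_inv_mul (A : Matrix m n ℝ) {l : ℝ} (hl : 0 < l) :
    (gram A l)⁻¹ * gram A l = 1 := D1b_inv_mul (gram_posDef A hl)

theorem gram_inv_transpose (A : Matrix m n ℝ) (l : ℝ) :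
    ((gram A l)⁻¹)ᵀ = (gram A l)⁻¹ := by
  rw [Matrix.transpose_nonsing_inv, gram_transpose]

theorem D1b_qf_nonneg {M : Matrix n n ℝ} (hM : M.PosDef) (x : n → ℝ) : 0 ≤ qf M x := by
  have := hM.posSemidef.dotProduct_mulVec_nonneg x
  rwa [star_trivial] at this

theorem qf_inv_nonneg (A : Matrix m n ℝ) {l : ℝ} (hl : 0 < l) (x : n → ℝ) :
    0 ≤ qf (gram A l)⁻¹ x := D1b_qf_nonneg (gram_posDef A hl).inv x

/-- push through -/
theorem push (A : Matrix m n ℝ) {l : ℝ} (hl : 0 < l) :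
    A * (gram A l)⁻¹ = (gram Aᵀ l)⁻¹ * A := by
  have h1 : gram Aᵀ l * A = A * gram A l := by
    unfold gram
    rw [Matrix.transpose_transpose, Matrix.add_mul, Matrix.mul_add, Matrix.mul_assoc,
      Matrix.smul_mul, Matrix.one_mul, Matrix.mul_smul, Matrix.mul_one]
  calc A * (gram A l)⁻¹ = ((gram Aᵀ l)⁻¹ * gram Aᵀ l) * A * (gram A l)⁻¹ := by
        rw [gram_inv_mul Aᵀ hl, Matrix.one_mul]
    _ = (gram Aᵀ l)⁻¹ * (gram Aᵀ l * A) * (gram A l)⁻¹ := by rw [Matrix.mul_assoc (gram Aᵀ l)⁻¹]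
    _ = (gram Aᵀ l)⁻¹ * A * (gram A l * (gram A l)⁻¹) := by
        rw [h1]; simp only [Matrix.mul_assoc]
    _ = (gram Aᵀ l)⁻¹ * A := by rw [gram_mul_inv A hl, Matrix.mul_one]

theorem noiseM_transpose (A : Matrix m n ℝ) {l : ℝ} (hl : 0 < l) :
    (noiseM A l)ᵀ = noiseM Aᵀ l := by
  unfold noiseM
  rw [push Aᵀ hl, Matrix.transpose_transpose, Matrix.transpose_smul, Matrix.transpose_mul,
    gram_inv_transpose]

/-- `A = Π' A + G` -/
theorem split_noise (A : Matrix m n ℝ) {l : ℝ} (hl : 0 < l) :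
    A = A * (gram A l)⁻¹ * Aᵀ * A + noiseM A l := by
  have h1 : A * (gram A l)⁻¹ * gram A l = A := by
    rw [Matrix.mul_assoc, gram_inv_mul A hl, Matrix.mul_one]
  have h2 : A * (gram A l)⁻¹ * gram A l = A * (gram A l)⁻¹ * Aᵀ * A + noiseM A l := by
    conv_lhs => arg 2; rw [gram]
    rw [Matrix.mul_add, Matrix.mul_smul, Matrix.mul_one, noiseM, Matrix.mul_assoc _ Aᵀ A]
  rw [← h2, h1]

/-- antitonicity of the inverse, in the form needed -/
theorem inv_anti {M N : Matrix n n ℝ} (hM : M.PosDef) (hN : N.PosDef) {r : ℝ} (hr : 0 < r)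
    (h : ∀ x, r * qf N x ≤ qf M x) (x : n → ℝ) : r * qf M⁻¹ x ≤ qf N⁻¹ x := by
  have hNs : Nᵀ = N := by
    have := hN.isHermitian
    rw [Matrix.IsHermitian, conjTranspose_eq_transpose_of_trivial] at this
    exact this
  set y := M⁻¹ *ᵥ x with hy
  set v := N⁻¹ *ᵥ x with hv
  have hMy : M *ᵥ y = x := by
    rw [hy, Matrix.mulVec_mulVec, D1b_mul_inv hM, Matrix.one_mulVec]
  have hNv : N *ᵥ v = x := by
    rw [hv, Matrix.mulVec_mulVec, D1b_mul_inv hN, Matrix.one_mulVec]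
  have h1 : qf M y = x ⬝ᵥ y := by
    rw [qf, hMy, dotProduct_comm]
  have h2 : qf M⁻¹ x = x ⬝ᵥ y := rfl
  have h3 : qf N⁻¹ x = x ⬝ᵥ v := rfl
  -- variational bound with `u = r y`
  have h4 := D1b_qf_nonneg hN (r • y - v)
  have h5 : v ⬝ᵥ (N *ᵥ (r • y)) = x ⬝ᵥ (r • y) := by
    rw [Matrix.dotProduct_mulVec, ← Matrix.mulVec_transpose, hNs, hNv]
  have h6 : qf N (r • y - v) = r ^ 2 * qf N y - 2 * (r * (x ⬝ᵥ y)) + x ⬝ᵥ v := by
    unfold qf
    rw [Matrix.mulVec_sub, sub_dotProduct, dotProduct_sub, dotProduct_sub, h5, hNv,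
      Matrix.mulVec_smul, smul_dotProduct, dotProduct_smul, dotProduct_smul, smul_dotProduct,
      dotProduct_comm v x, dotProduct_comm y x]
    simp only [smul_eq_mul]
    ring
  have h7 := h y
  rw [h1] at h7
  rw [h6] at h4
  rw [h2, h3]
  nlinarith

end forms

end A56
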