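import Pool.Agent.Lib_helper50.A56.Defs
import Pool.Agent.Lib_helper50.A56.B.D1a
import Pool.Agent.Lib_helper50.A56.B.D1b
/-!
# MP_a55cb8: block D10, inexact solvers
-/

open Matrix Finset

namespace A56

section forms

variable {m n a b c : Type*} [Fintype m] [Fintype n] [Fintype a] [Fintype b] [Fintype c]
  [DecidableEq m] [DecidableEq n] [DecidableEq a] [DecidableEq b] [DecidableEq c]

/-! ### statements of D1 (other blocks) -/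

/-! ### D10 -/

/-- a quadratic inequality -/
theorem D10_disc {p q r : ℝ} (hp : 0 ≤ p) (hq : 0 ≤ q)
    (h : ∀ t : ℝ, 0 ≤ p - 2 * t * r + t ^ 2 * q) : r ^ 2 ≤ p * q := by
  by_cases hq0 : q = 0
  · by_contra hc
    have hr : r ≠ 0 := by
      rintro rfl
      apply hc
      rw [hq0]
      simp
    have h1 := h ((p + 1) / (2 * r))
    rw [hq0] at h1
    have h2 : 2 * ((p + 1) / (2 * r)) * r = p + 1 := by field_simp
    rw [mul_zero, add_zero, h2] at h1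
    linarith
  · have hq' : 0 < q := lt_of_le_of_ne hq (Ne.symm hq0)
    have h1 := h (r / q)
    have h2 : p - 2 * (r / q) * r + (r / q) ^ 2 * q = p - r ^ 2 / q := by
      field_simp
      ring
    rw [h2, sub_nonneg, div_le_iff₀ hq'] at h1
    exact h1

/-- the bilinear form of a symmetric matrix -/
theorem D10_symm {E : Matrix n n ℝ} (hE : Eᵀ = E) (x y : n → ℝ) :
    x ⬝ᵥ (E *ᵥ y) = y ⬝ᵥ (E *ᵥ x) := by
  rw [dotProduct_mulVec, ← mulVec_transpose, hE, dotProduct_comm]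

theorem D10_add {E : Matrix n n ℝ} (hE : Eᵀ = E) (x y : n → ℝ) (t : ℝ) :
    qf E (x + t • y) = qf E x + 2 * t * (x ⬝ᵥ (E *ᵥ y)) + t ^ 2 * qf E y := by
  unfold qf
  rw [mulVec_add, mulVec_smul, add_dotProduct, dotProduct_add, dotProduct_add, smul_dotProduct,
    smul_dotProduct, dotProduct_smul, dotProduct_smul, D10_symm hE y x]
  simp only [smul_eq_mul]
  ring

/-- generalised Cauchy-Schwarz: a symmetric form bounded by `d` times a nonnegative form -/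
theorem D10_cs {E W : Matrix n n ℝ} (hE : Eᵀ = E) (hW : Wᵀ = W) {d : ℝ} (hd : 0 ≤ d)
    (hW0 : ∀ x, 0 ≤ qf W x) (h : ∀ x, |qf E x| ≤ d * qf W x) (x y : n → ℝ) :
    (x ⬝ᵥ (E *ᵥ y)) ^ 2 ≤ d ^ 2 * (qf W x * qf W y) := by
  have h1 : ∀ t : ℝ, 0 ≤ d * qf W x - 2 * t * (x ⬝ᵥ (E *ᵥ y)) + t ^ 2 * (d * qf W y) := by
    intro t
    have e1 := h (x + t • y)
    have e2 := h (x + (-t) • y)
    rw [D10_add hE, D10_add hW] at e1 e2
    have e3 := (abs_le.1 e1).2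
    have e4 := (abs_le.1 e2).1
    nlinarith
  have h2 := D10_disc (mul_nonneg hd (hW0 x)) (mul_nonneg hd (hW0 y)) h1
  calc (x ⬝ᵥ (E *ᵥ y)) ^ 2 ≤ d * qf W x * (d * qf W y) := h2
    _ = _ := by ring

/-- from `s² ≤ c s` to `s ≤ c` -/
theorem D10_cancel {s c : ℝ} (hs : 0 ≤ s) (hc : 0 ≤ c) (h : s ^ 2 ≤ c * s) : s ≤ c := by
  rcases hs.eq_or_lt with h0 | h0
  · rw [← h0]; exact hc
  · nlinarith

/-- the inverse gram form at `Aᵀ z` -/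
theorem D10_q1 (A : Matrix m n ℝ) {l : ℝ} (hl : 0 < l) (z : m → ℝ) :
    qf (gram A l)⁻¹ (Aᵀ *ᵥ z) ≤ sq z := by
  obtain ⟨w, hw⟩ : ∃ w, w = (gram A l)⁻¹ *ᵥ (Aᵀ *ᵥ z) := ⟨_, rfl⟩
  have h1 : gram A l *ᵥ w = Aᵀ *ᵥ z := by
    rw [hw, mulVec_mulVec, gram_mul_inv A hl, one_mulVec]
  have h2 : qf (gram A l)⁻¹ (Aᵀ *ᵥ z) = z ⬝ᵥ (A *ᵥ w) := by
    unfold qf
    rw [← hw, mulVec_transpose, ← dotProduct_mulVec]
  have h3 : qf (gram A l) w = z ⬝ᵥ (A *ᵥ w) := by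
    unfold qf
    rw [h1, dotProduct_comm, mulVec_transpose, ← dotProduct_mulVec]
  have h4 := qf_gram A l w
  have h5 := dot_sq_le z (A *ᵥ w)
  have h6 := sq_nonneg' w
  have h7 := sq_nonneg' z
  have h8 : sq (A *ᵥ w) ≤ z ⬝ᵥ (A *ᵥ w) := by
    rw [← h3, h4]
    nlinarith
  have h9 : 0 ≤ z ⬝ᵥ (A *ᵥ w) := (sq_nonneg' _).trans h8
  rw [h2]
  exact D10_cancel h9 h7 (h5.trans (mul_le_mul_of_nonneg_left h8 h7))

/-- the inverse gram form is at most `l⁻¹` -/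
theorem D10_q2 (A : Matrix m n ℝ) {l : ℝ} (hl : 0 < l) (x : n → ℝ) :
    l * qf (gram A l)⁻¹ x ≤ sq x := by
  obtain ⟨w, hw⟩ : ∃ w, w = (gram A l)⁻¹ *ᵥ x := ⟨_, rfl⟩
  have h1 : gram A l *ᵥ w = x := by
    rw [hw, mulVec_mulVec, gram_mul_inv A hl, one_mulVec]
  have h2 : qf (gram A l)⁻¹ x = x ⬝ᵥ w := by
    unfold qf
    rw [← hw]
  have h3 : qf (gram A l) w = x ⬝ᵥ w := by
    unfold qf
    rw [h1, dotProduct_comm]
  have h4 := qf_gram A l w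
  have h5 := dot_sq_le x w
  have h6 := sq_nonneg' (A *ᵥ w)
  have h7 := sq_nonneg' x
  have h8 : l * sq w ≤ x ⬝ᵥ w := by
    rw [← h3, h4]
    linarith
  have h9 : 0 ≤ x ⬝ᵥ w := (mul_nonneg hl.le (sq_nonneg' _)).trans h8
  rw [h2]
  refine D10_cancel (mul_nonneg hl.le h9) h7 ?_
  calc (l * (x ⬝ᵥ w)) ^ 2 = l ^ 2 * (x ⬝ᵥ w) ^ 2 := by ring
    _ ≤ l ^ 2 * (sq x * sq w) := mul_le_mul_of_nonneg_left h5 (sq_nonneg l)
    _ = l * sq x * (l * sq w) := by ring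
    _ ≤ l * sq x * (x ⬝ᵥ w) := mul_le_mul_of_nonneg_left h8 (mul_nonneg hl.le h7)
    _ = _ := by ring

/-- the error form of a solver -/
theorem D10_err {A : Matrix m n ℝ} {Q : Matrix n n ℝ} {l d : ℝ} (hl : 0 < l) (hd : 0 ≤ d)
    (h : IsSol (gram A l) Q d) (x y : n → ℝ) :
    (x ⬝ᵥ ((Q - (gram A l)⁻¹) *ᵥ y)) ^ 2 ≤
      d ^ 2 * (qf (gram A l)⁻¹ x * qf (gram A l)⁻¹ y) := by
  refine D10_cs ?_ (gram_inv_transpose A l) hd (qf_inv_nonneg A hl) ?_ x y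
  · rw [transpose_sub, h.1, gram_inv_transpose]
  · intro z
    have : qf (Q - (gram A l)⁻¹) z = qf Q z - qf (gram A l)⁻¹ z := by
      unfold qf
      rw [sub_mulVec, dotProduct_sub]
    rw [this]
    exact h.2 z

theorem sol_err1 {A : Matrix m n ℝ} {Q : Matrix n n ℝ} {l d : ℝ} (hl : 0 < l) (hd : 0 ≤ d)
    (h : IsSol (gram A l) Q d) (x : m → ℝ) :
    sq ((A * (Q - (gram A l)⁻¹) * Aᵀ) *ᵥ x) ≤ d ^ 2 * sq x := by
  obtain ⟨z, hz⟩ : ∃ z, z = (A * (Q - (gram A l)⁻¹) * Aᵀ) *ᵥ x := ⟨_, rfl⟩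
  rw [← hz]
  have h1 : sq z = (Aᵀ *ᵥ z) ⬝ᵥ ((Q - (gram A l)⁻¹) *ᵥ (Aᵀ *ᵥ x)) := by
    rw [sq_eq_dot]
    nth_rw 2 [hz]
    rw [mulVec_transpose A z, ← dotProduct_mulVec, mulVec_mulVec, mulVec_mulVec, Matrix.mul_assoc]
  have h2 := D10_err hl hd h (Aᵀ *ᵥ z) (Aᵀ *ᵥ x)
  rw [← h1] at h2
  have h3 := D10_q1 A hl z
  have h4 := D10_q1 A hl x
  have h5 := sq_nonneg' z
  have h6 := sq_nonneg' x
  refine D10_cancel h5 (mul_nonneg (sq_nonneg d) h6) (h2.trans ?_)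
  calc d ^ 2 * (qf (gram A l)⁻¹ (Aᵀ *ᵥ z) * qf (gram A l)⁻¹ (Aᵀ *ᵥ x))
      ≤ d ^ 2 * (sq z * sq x) := mul_le_mul_of_nonneg_left
        (mul_le_mul h3 h4 (qf_inv_nonneg A hl _) h5) (sq_nonneg d)
    _ = _ := by ring

theorem sol_err2 {A : Matrix m n ℝ} {Q : Matrix n n ℝ} {l d : ℝ} (hl : 0 < l) (hd : 0 ≤ d)
    (h : IsSol (gram A l) Q d) (x : n → ℝ) :
    l * sq ((A * (Q - (gram A l)⁻¹)) *ᵥ x) ≤ d ^ 2 * sq x := by
  obtain ⟨z, hz⟩ : ∃ z, z = (A * (Q - (gram A l)⁻¹)) *ᵥ x := ⟨_, rfl⟩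
  rw [← hz]
  have h1 : sq z = (Aᵀ *ᵥ z) ⬝ᵥ ((Q - (gram A l)⁻¹) *ᵥ x) := by
    rw [sq_eq_dot]
    nth_rw 2 [hz]
    rw [mulVec_transpose A z, ← dotProduct_mulVec, mulVec_mulVec]
  have h2 := D10_err hl hd h (Aᵀ *ᵥ z) x
  rw [← h1] at h2
  have h3 := D10_q1 A hl z
  have h4 := D10_q2 A hl x
  have h5 := sq_nonneg' z
  have h6 := sq_nonneg' x
  have h7 := qf_inv_nonneg A hl x
  refine D10_cancel (mul_nonneg hl.le h5) (mul_nonneg (sq_nonneg d) h6) ?_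
  calc (l * sq z) ^ 2 = l ^ 2 * sq z ^ 2 := by ring
    _ ≤ l ^ 2 * (d ^ 2 * (qf (gram A l)⁻¹ (Aᵀ *ᵥ z) * qf (gram A l)⁻¹ x)) :=
        mul_le_mul_of_nonneg_left h2 (sq_nonneg l)
    _ = d ^ 2 * (l * (qf (gram A l)⁻¹ (Aᵀ *ᵥ z) * (l * qf (gram A l)⁻¹ x))) := by ring
    _ ≤ d ^ 2 * (l * (sq z * sq x)) := by
        refine mul_le_mul_of_nonneg_left (mul_le_mul_of_nonneg_left ?_ hl.le) (sq_nonneg d)
        exact mul_le_mul h3 h4 (mul_nonneg hl.le h7) h5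
    _ = _ := by ring

/-- the error itself -/
theorem D10_err0 {A : Matrix m n ℝ} {Q : Matrix n n ℝ} {l d : ℝ} (hl : 0 < l) (hd : 0 ≤ d)
    (h : IsSol (gram A l) Q d) (x : n → ℝ) :
    l ^ 2 * sq ((Q - (gram A l)⁻¹) *ᵥ x) ≤ d ^ 2 * sq x := by
  obtain ⟨z, hz⟩ : ∃ z, z = (Q - (gram A l)⁻¹) *ᵥ x := ⟨_, rfl⟩
  rw [← hz]
  have h1 : sq z = z ⬝ᵥ ((Q - (gram A l)⁻¹) *ᵥ x) := by
    rw [sq_eq_dot]
    nth_rw 2 [hz]
  have h2 := D10_err hl hd h z x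
  rw [← h1] at h2
  have h3 := D10_q2 A hl z
  have h4 := D10_q2 A hl x
  have h5 := sq_nonneg' z
  have h6 := sq_nonneg' x
  have h7 := qf_inv_nonneg A hl x
  refine D10_cancel (mul_nonneg (sq_nonneg l) h5) (mul_nonneg (sq_nonneg d) h6) ?_
  calc (l ^ 2 * sq z) ^ 2 = l ^ 4 * sq z ^ 2 := by ring
    _ ≤ l ^ 4 * (d ^ 2 * (qf (gram A l)⁻¹ z * qf (gram A l)⁻¹ x)) :=
        mul_le_mul_of_nonneg_left h2 (by positivity)
    _ = d ^ 2 * (l ^ 2 * ((l * qf (gram A l)⁻¹ z) * (l * qf (gram A l)⁻¹ x))) := by ring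
    _ ≤ d ^ 2 * (l ^ 2 * (sq z * sq x)) := by
        refine mul_le_mul_of_nonneg_left (mul_le_mul_of_nonneg_left ?_ (sq_nonneg l)) (sq_nonneg d)
        exact mul_le_mul h3 h4 (mul_nonneg hl.le h7) h5
    _ = _ := by ring

theorem sol_err3 {A : Matrix m n ℝ} {S : Matrix a m ℝ} {Q : Matrix n n ℝ} {l d : ℝ}
    (hl : 0 < l) (hd : 0 ≤ d) (hS : Valid S A l) (h : IsSol (gram A l) Q d) (x : n → ℝ) :
    l * sq ((S * A * (Q - (gram A l)⁻¹)) *ᵥ x) ≤ 2 * d ^ 2 * sq x := by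
  obtain ⟨y, hy⟩ : ∃ y, y = (Q - (gram A l)⁻¹) *ᵥ x := ⟨_, rfl⟩
  have e1 : (S * A * (Q - (gram A l)⁻¹)) *ᵥ x = S *ᵥ (A *ᵥ y) := by
    rw [hy, mulVec_mulVec, mulVec_mulVec, Matrix.mul_assoc]
  have e2 : (A * (Q - (gram A l)⁻¹)) *ᵥ x = A *ᵥ y := by
    rw [hy, mulVec_mulVec]
  have h1 := sol_err2 hl hd h x
  have h2 := D10_err0 hl hd h x
  rw [e2] at h1
  rw [← hy] at h2
  rw [e1]
  have h3 := (abs_le.1 (hS y)).2
  have h4 := sq_nonneg' x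
  have h5 : 0 ≤ d ^ 2 * sq x := mul_nonneg (sq_nonneg d) h4
  nlinarith

theorem IsSol.pre {M Q : Matrix n n ℝ} {d : ℝ} (h : IsSol M Q d) (hM : M.PosDef)
    (hd : d ≤ 1 / 2) : IsPre M Q (1 / 2) 2 := by
  refine ⟨h.1, fun x => ?_⟩
  have h0 : 0 ≤ qf M⁻¹ x := by
    have := hM.inv.posSemidef.dotProduct_mulVec_nonneg x
    simpa [qf] using this
  have h1 := abs_le.1 (h.2 x)
  constructor
  · nlinarith [h1.1]
  · nlinarith [h1.2]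

/-- transfer of a solver to an equivalent matrix -/
theorem IsSol.transfer {M N Q : Matrix n n ℝ} (hM : M.PosDef) (hN : N.PosDef) {d α β : ℝ}
    (hd : d ≤ 1 / 2) (hα : 0 < α) (hβ : 0 < β) (h : IsSol N Q d)
    (hrel : ∀ y, 2 * α * qf N y ≤ qf M y ∧ 3 / 2 * qf M y ≤ β * qf N y) :
    IsPre M Q α β := by
  refine ⟨h.1, fun x => ?_⟩
  have h0 : 0 ≤ qf N⁻¹ x := by
    have := hN.inv.posSemidef.dotProduct_mulVec_nonneg x
    simpa [qf] using this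
  have h1 := abs_le.1 (h.2 x)
  have h2 := inv_anti hM hN (r := 2 * α) (by positivity) (fun y => (hrel y).1) x
  have h3 := inv_anti hN hM (r := 3 / 2 / β) (by positivity) (fun y => by
    have := (hrel y).2
    rw [div_mul_eq_mul_div, div_le_iff₀ hβ, mul_comm (qf N y)]
    exact this) x
  rw [div_mul_eq_mul_div, div_le_iff₀ hβ] at h3
  constructor
  · nlinarith [h1.1]
  · nlinarith [h1.2]

end forms

end A56
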