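import Pool.Agent.Lib_helper50.A56.Defs
/-!
# MP_a55cb8: block D7b (Chebyshev scalars), helper45
-/

open Matrix Finset

namespace A56

theorem D7b_closed {y r q : ℝ} (h1 : r + q = 2 * y) (h2 : r * q = 1) {α β : ℝ}
    (hy : y = (β + α) / (β - α)) (k : ℕ) :
    chebT α β k = (r ^ k + q ^ k) / 2 ∧ chebT α β (k + 1) = (r ^ (k + 1) + q ^ (k + 1)) / 2 := by
  induction k with
  | zero =>
    refine ⟨by simp [chebT], ?_⟩
    rw [chebT, ← hy]
    simp only [zero_add, pow_one]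
    linarith
  | succ k ih =>
    refine ⟨ih.2, ?_⟩
    rw [chebT, ← hy, ih.1, ih.2, ← h1]
    have : r ^ (k + 1 + 1) + q ^ (k + 1 + 1) =
        (r + q) * (r ^ (k + 1) + q ^ (k + 1)) - (r * q) * (r ^ k + q ^ k) := by ring
    rw [this, h2]
    ring

/-- the scalar facts behind it (also used for the outer iteration) -/
theorem chebT_ge {α β : ℝ} (hα : 0 < α) (hαβ : α < β) (s t k : ℕ) (hs : 1 ≤ s)
    (hs2 : β ≤ (s : ℝ) ^ 2 * α) (hk : s * t ≤ k) : 2 ^ t / 2 ≤ chebT α β k := by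
  have hd : 0 < β - α := by linarith
  obtain ⟨y, hy⟩ : ∃ y, y = (β + α) / (β - α) := ⟨_, rfl⟩
  have hs1 : (1 : ℝ) ≤ s := by exact_mod_cast hs
  have hs0 : (0 : ℝ) < s := by linarith
  -- y ≥ 1 + 2/s²
  have hy1 : 1 + 2 / (s : ℝ) ^ 2 ≤ y := by
    have e : y - 1 = 2 * α / (β - α) := by
      rw [hy]; field_simp; ring
    have : 2 / (s : ℝ) ^ 2 ≤ 2 * α / (β - α) := by
      rw [div_le_div_iff₀ (by positivity) hd]
      nlinarith
    linarith
  have hy2 : 1 ≤ y := by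
    have : 0 < 2 / (s : ℝ) ^ 2 := by positivity
    linarith
  obtain ⟨w, hw⟩ : ∃ w, w = Real.sqrt (y ^ 2 - 1) := ⟨_, rfl⟩
  have hw0 : 0 ≤ w := by rw [hw]; exact Real.sqrt_nonneg _
  have hww : w ^ 2 = y ^ 2 - 1 := by
    rw [hw]; exact Real.sq_sqrt (by nlinarith)
  have hw1 : 2 / (s : ℝ) ≤ w := by
    rw [hw]
    refine Real.le_sqrt_of_sq_le ?_
    have : (2 / (s : ℝ)) ^ 2 = 2 / (s : ℝ) ^ 2 * 2 := by ring
    rw [this]
    have h3 : 0 < 2 / (s : ℝ) ^ 2 := by positivity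
    nlinarith
  have hq : 0 ≤ y - w := by
    nlinarith
  have h1 : (y + w) + (y - w) = 2 * y := by ring
  have h2 : (y + w) * (y - w) = 1 := by nlinarith
  have hc := (D7b_closed h1 h2 hy k).1
  have hr : 1 + 2 / (s : ℝ) ≤ y + w := by linarith
  have hr1 : 1 ≤ y + w := by
    have : 0 < 2 / (s : ℝ) := by positivity
    linarith
  have hb : (2 : ℝ) ≤ (y + w) ^ s := by
    have hB := one_add_mul_le_pow (a := 2 / (s : ℝ)) (by
      have : 0 < 2 / (s : ℝ) := by positivity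
      linarith) s
    have e : (s : ℝ) * (2 / s) = 2 := by field_simp
    rw [e] at hB
    calc (2 : ℝ) ≤ 1 + 2 := by norm_num
      _ ≤ (1 + 2 / (s : ℝ)) ^ s := hB
      _ ≤ (y + w) ^ s := pow_le_pow_left₀ (by positivity) hr s
  have hpk : (2 : ℝ) ^ t ≤ (y + w) ^ k := by
    calc (2 : ℝ) ^ t ≤ ((y + w) ^ s) ^ t := pow_le_pow_left₀ (by norm_num) hb t
      _ = (y + w) ^ (s * t) := by rw [pow_mul]
      _ ≤ (y + w) ^ k := pow_le_pow_right₀ hr1 hk
  have hqk : 0 ≤ (y - w) ^ k := pow_nonneg hq k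
  rw [hc]
  linarith

theorem D7b_cos {α β : ℝ} (hαβ : α < β) {x th : ℝ} (hth : Real.cos th = (β + α - 2 * x) / (β - α))
    (k : ℕ) : chebT α β k - chebF α β k x = Real.cos (k * th) ∧
      chebT α β (k + 1) - chebF α β (k + 1) x = Real.cos ((k + 1 : ℕ) * th) := by
  have hd : β - α ≠ 0 := by linarith
  induction k with
  | zero =>
    refine ⟨by simp [chebT, chebF], ?_⟩
    simp only [chebT, chebF, zero_add, Nat.cast_one, one_mul]
    rw [hth]
    field_simp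
  | succ k ih =>
    refine ⟨ih.2, ?_⟩
    have e1 : Real.cos ((k + 1 + 1 : ℕ) * th) =
        2 * Real.cos th * Real.cos ((k + 1 : ℕ) * th) - Real.cos (k * th) := by
      have a1 : ((k + 1 + 1 : ℕ) : ℝ) * th = ((k + 1 : ℕ) : ℝ) * th + th := by push_cast; ring
      have a2 : (k : ℝ) * th = ((k + 1 : ℕ) : ℝ) * th - th := by push_cast; ring
      rw [a1, a2, Real.cos_add, Real.cos_sub]
      ring
    rw [e1, ← ih.1, ← ih.2, hth]
    simp only [chebT, chebF]
    field_simp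
    ring

theorem chebF_bound {α β : ℝ} (hαβ : α < β) (k : ℕ) {x : ℝ} (h1 : α ≤ x) (h2 : x ≤ β) :
    |chebT α β k - chebF α β k x| ≤ 1 := by
  have hd : 0 < β - α := by linarith
  have hth : Real.cos (Real.arccos ((β + α - 2 * x) / (β - α))) = (β + α - 2 * x) / (β - α) := by
    refine Real.cos_arccos ?_ ?_
    · rw [le_div_iff₀ hd]; linarith
    · rw [div_le_iff₀ hd]; linarith
  rw [(D7b_cos hαβ hth k).1]
  exact Real.abs_cos_le_one _

end A56
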