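import Pool.Agent.Lib_helper50.A56.Defs
import Pool.Agent.Lib_helper50.A56.B.D7b
/-!
# MP_a55cb8: the Chebyshev solver (block D7a)
-/

open Matrix Finset

namespace A56

section forms

variable {n : Type*} [Fintype n] [DecidableEq n]

theorem D7a_spec {A : Matrix n n ℝ} (hA : A.IsHermitian) :
    ∃ (U : Matrix n n ℝ) (D : n → ℝ), U * Uᵀ = 1 ∧ A = U * diagonal D * Uᵀ ∧
      (A.PosDef → ∀ i, 0 < D i) := by
  refine ⟨hA.eigenvectorUnitary, hA.eigenvalues, ?_, ?_, fun h => h.eigenvalues_pos⟩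
  · have h := (Matrix.mem_unitaryGroup_iff).1 hA.eigenvectorUnitary.2
    rw [star_eq_conjTranspose, conjTranspose_eq_transpose_of_trivial] at h
    exact h
  · have h := hA.spectral_theorem
    rw [Unitary.conjStarAlgAut_apply] at h
    rw [← conjTranspose_eq_transpose_of_trivial, ← star_eq_conjTranspose]
    exact h

omit [DecidableEq n] in
theorem D7a_conj (L : Matrix n n ℝ) {Q : Matrix n n ℝ} (hQ : Qᵀ = Q) :
    (L * Q * Lᵀ).IsHermitian := by
  unfold Matrix.IsHermitian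
  rw [conjTranspose_eq_transpose_of_trivial, transpose_mul, transpose_mul, transpose_transpose,
    hQ, Matrix.mul_assoc]

/-- simultaneous diagonalisation -/
theorem D7a_diag {W Q : Matrix n n ℝ} (hW : W.PosDef) (hQ : Qᵀ = Q) :
    ∃ (P : Matrix n n ℝ) (D : n → ℝ), W = P * Pᵀ ∧ Q = P * diagonal D * Pᵀ := by
  obtain ⟨U, e, hU, hA, hpos'⟩ := D7a_spec hW.isHermitian
  have hpos := hpos' hW
  let s : n → ℝ := fun i => Real.sqrt (e i)
  have hs : ∀ i, s i * s i = e i := fun i => Real.mul_self_sqrt (hpos i).le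
  have hs0 : ∀ i, s i ≠ 0 := fun i => (Real.sqrt_pos.2 (hpos i)).ne'
  obtain ⟨L, hL⟩ : ∃ L, L = U * diagonal s := ⟨_, rfl⟩
  obtain ⟨L', hL'⟩ : ∃ L', L' = diagonal (fun i => (s i)⁻¹) * Uᵀ := ⟨_, rfl⟩
  have hLL : L * L' = 1 := by
    rw [hL, hL', Matrix.mul_assoc, ← Matrix.mul_assoc (diagonal s), diagonal_mul_diagonal]
    have h1 : (fun i => s i * (s i)⁻¹) = fun _ => (1 : ℝ) := by
      funext i
      exact mul_inv_cancel₀ (hs0 i)
    rw [h1, diagonal_one, Matrix.one_mul, hU]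
  have hW1 : W = L * Lᵀ := by
    rw [hL, transpose_mul, diagonal_transpose, Matrix.mul_assoc, ← Matrix.mul_assoc (diagonal s),
      diagonal_mul_diagonal, hA]
    simp only [hs, Matrix.mul_assoc]
  obtain ⟨V, D, hV, hB, -⟩ := D7a_spec (D7a_conj L' hQ)
  refine ⟨L * V, D, ?_, ?_⟩
  · rw [transpose_mul, Matrix.mul_assoc, ← Matrix.mul_assoc V, hV, Matrix.one_mul, hW1]
  · rw [transpose_mul]
    have h1 : L * V * diagonal D * (Vᵀ * Lᵀ) = L * (V * diagonal D * Vᵀ) * Lᵀ := by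
      simp only [Matrix.mul_assoc]
    rw [h1, ← hB]
    have h2 : L * (L' * Q * L'ᵀ) * Lᵀ = (L * L') * Q * (L * L')ᵀ := by
      rw [transpose_mul]
      simp only [Matrix.mul_assoc]
    rw [h2, hLL, transpose_one, Matrix.one_mul, Matrix.mul_one]

theorem D7a_qf (P : Matrix n n ℝ) (D : n → ℝ) (x : n → ℝ) :
    qf (P * diagonal D * Pᵀ) x = ∑ i, D i * (Pᵀ *ᵥ x) i ^ 2 := by
  unfold qf
  rw [← mulVec_mulVec, ← mulVec_mulVec, dotProduct_mulVec, ← mulVec_transpose]
  unfold dotProduct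
  refine Finset.sum_congr rfl fun i _ => ?_
  rw [mulVec_diagonal]
  ring

theorem D7a_Y {M P Q : Matrix n n ℝ} {D : n → ℝ} (hP : Pᵀ * M * P = 1)
    (hQ : Q = P * diagonal D * Pᵀ) (α β : ℝ) :
    ∀ k, chebY M Q α β k = P * diagonal (fun i => chebF α β k (D i)) * Pᵀ
  | 0 => by
    have h1 : (fun i => chebF α β 0 (D i)) = fun _ => (0 : ℝ) := rfl
    rw [h1, diagonal_zero, Matrix.mul_zero, Matrix.zero_mul]
    rfl
  | 1 => by
    have h1 : (fun i => chebF α β 1 (D i)) = (2 / (β - α)) • D := by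
      funext i
      rfl
    rw [h1, diagonal_smul, Matrix.mul_smul, Matrix.smul_mul, ← hQ]
    rfl
  | k + 2 => by
    have h1 := D7a_Y hP hQ α β k
    have h2 := D7a_Y hP hQ α β (k + 1)
    have h3 : Q * M * (P * diagonal (fun i => chebF α β (k + 1) (D i)) * Pᵀ)
        = P * diagonal (fun i => D i * chebF α β (k + 1) (D i)) * Pᵀ := by
      rw [hQ]
      have h4 : P * diagonal D * Pᵀ * M * (P * diagonal (fun i => chebF α β (k + 1) (D i)) * Pᵀ)
          = P * diagonal D * (Pᵀ * M * P) * diagonal (fun i => chebF α β (k + 1) (D i)) * Pᵀ := by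
        simp only [Matrix.mul_assoc]
      rw [h4, hP, Matrix.mul_one, Matrix.mul_assoc P, diagonal_mul_diagonal]
    have h5 : chebY M Q α β (k + 2) = (2 * ((β + α) / (β - α))) • chebY M Q α β (k + 1) -
        chebY M Q α β k + (4 / (β - α)) • (chebT α β (k + 1) • Q -
          Q * M * chebY M Q α β (k + 1)) := by
      show (2 * ((β + α) / (β - α))) • chebY M Q α β (k + 1) - chebY M Q α β k +
        (4 / (β - α)) • (Q * (chebT α β (k + 1) • (1 : Matrix n n ℝ) -
          M * chebY M Q α β (k + 1))) = _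
      rw [Matrix.mul_sub, Matrix.mul_smul, Matrix.mul_one, Matrix.mul_assoc]
    have h6 : (diagonal (fun i => chebF α β (k + 2) (D i)) : Matrix n n ℝ) =
        (2 * ((β + α) / (β - α))) • diagonal (fun i => chebF α β (k + 1) (D i)) -
        diagonal (fun i => chebF α β k (D i)) + (4 / (β - α)) • (chebT α β (k + 1) • diagonal D -
          diagonal (fun i => D i * chebF α β (k + 1) (D i))) := by
      ext i j
      by_cases hij : i = j
      · subst hij
        simp only [diagonal_apply_eq, Matrix.add_apply, Matrix.sub_apply, Matrix.smul_apply,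
          smul_eq_mul, chebF]
        ring
      · simp only [diagonal_apply_ne _ hij, Matrix.add_apply, Matrix.sub_apply,
          Matrix.smul_apply, smul_eq_mul]
        ring
    rw [h5, h1, h2, h3, h6, hQ]
    simp only [Matrix.mul_add, Matrix.mul_sub, Matrix.add_mul, Matrix.sub_mul, Matrix.mul_smul,
      Matrix.smul_mul]

theorem cheb_sol {M Q : Matrix n n ℝ} (hM : M.PosDef) {α β : ℝ} (hα : 0 < α) (hαβ : α < β)
    (h : IsPre M Q α β) (s t k : ℕ) (hs : 1 ≤ s) (hs2 : β ≤ (s : ℝ) ^ 2 * α)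
    (hk : s * t ≤ k) : IsSol M (cheb M Q α β k) (2 * (1 / 2) ^ t) := by
  obtain ⟨P, D, hW, hQ⟩ := D7a_diag hM.inv h.1
  have hdet : IsUnit M.det := (Matrix.isUnit_iff_isUnit_det M).1 hM.isUnit
  have hP : Pᵀ * M * P = 1 := by
    have h1 : M * P * Pᵀ = 1 := by
      rw [Matrix.mul_assoc, ← hW]
      exact Matrix.mul_nonsing_inv M hdet
    rw [Matrix.mul_assoc]
    exact mul_eq_one_comm.1 h1
  have hY := D7a_Y hP hQ α β k
  have hqW : ∀ x, qf M⁻¹ x = ∑ i, (Pᵀ *ᵥ x) i ^ 2 := by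
    intro x
    have h1 := D7a_qf P (fun _ => 1) x
    rw [diagonal_one, Matrix.mul_one, ← hW] at h1
    simpa using h1
  have hqQ : ∀ x, qf Q x = ∑ i, D i * (Pᵀ *ᵥ x) i ^ 2 := by
    intro x
    rw [hQ]
    exact D7a_qf P D x
  have hD : ∀ i, α ≤ D i ∧ D i ≤ β := by
    intro i
    have h1 := h.2 (M *ᵥ (P *ᵥ (Pi.single i 1)))
    have h2 : Pᵀ *ᵥ (M *ᵥ (P *ᵥ (Pi.single i 1))) = (Pi.single i 1 : n → ℝ) := by
      rw [mulVec_mulVec, mulVec_mulVec, hP, one_mulVec]
    rw [hqW, hqQ, h2] at h1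
    simpa [Pi.single_apply] using h1
  have hτ := chebT_ge hα hαβ s t k hs hs2 hk
  have hτ0 : 0 < chebT α β k := lt_of_lt_of_le (by positivity) hτ
  refine ⟨?_, fun x => ?_⟩
  · unfold cheb
    rw [hY, transpose_smul, transpose_mul, transpose_mul, transpose_transpose,
      diagonal_transpose, Matrix.mul_assoc]
  · have h1 : qf (cheb M Q α β k) x =
        ∑ i, ((chebT α β k)⁻¹ * chebF α β k (D i)) * (Pᵀ *ᵥ x) i ^ 2 := by
      unfold cheb
      rw [hY, ← Matrix.smul_mul, ← Matrix.mul_smul, ← diagonal_smul, D7a_qf]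
      rfl
    rw [h1, hqW, ← Finset.sum_sub_distrib, Finset.mul_sum]
    refine (Finset.abs_sum_le_sum_abs _ _).trans (Finset.sum_le_sum fun i _ => ?_)
    have h2 := chebF_bound hαβ k (hD i).1 (hD i).2
    have h3 : (chebT α β k)⁻¹ * chebF α β k (D i) * (Pᵀ *ᵥ x) i ^ 2 - (Pᵀ *ᵥ x) i ^ 2
        = -((chebT α β k)⁻¹ * (chebT α β k - chebF α β k (D i))) * (Pᵀ *ᵥ x) i ^ 2 := by
      field_simp
      ring
    have h4 : (chebT α β k)⁻¹ ≤ 2 * (1 / 2) ^ t := by
      rw [inv_le_comm₀ hτ0 (by positivity)]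
      refine le_trans (le_of_eq ?_) hτ
      rw [mul_inv, ← inv_pow]
      norm_num
      ring
    rw [h3, abs_mul, abs_neg, abs_mul, abs_of_pos (inv_pos.2 hτ0),
      abs_of_nonneg (sq_nonneg ((Pᵀ *ᵥ x) i))]
    refine mul_le_mul_of_nonneg_right ?_ (sq_nonneg _)
    calc (chebT α β k)⁻¹ * |chebT α β k - chebF α β k (D i)|
        ≤ (chebT α β k)⁻¹ * 1 := mul_le_mul_of_nonneg_left h2 (inv_pos.2 hτ0).le
      _ ≤ 2 * (1 / 2) ^ t := by rw [mul_one]; exact h4

end forms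

end A56
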