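import Pool.Agent.Lib_helper50.A56.Prog
/-!
# MP_a55cb8: block D12 (helper50): the base preconditioner is exact when `Y` spans the rows of `X`
-/

open Matrix Finset

namespace A56

theorem D12_zero {m k : ℕ} (B : Matrix (Fin m) (Fin k) ℝ) (h : Bᵀ * B = 0) : B = 0 := by
  have h1 : Bᴴ * B = 0 := by rw [conjTranspose_eq_transpose_of_trivial]; exact h
  exact Matrix.conjTranspose_mul_self_eq_zero.1 h1

theorem base3_pre {m n k : ℕ} (X : Matrix (Fin m) (Fin n) ℝ) (lam : ℝ)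
    (Y : Matrix (Fin n) (Fin k) ℝ) (W : Matrix (Fin m) (Fin k) ℝ) (hX : X = W * Yᵀ)
    (Z1 Z2 : Matrix (Fin k) (Fin k) ℝ) (h1 : Z1ᵀ = Z1) (_h2 : Z2ᵀ = Z2)
    (e1 : (Yᵀ * Y) * Z1 * (Yᵀ * Y) = Yᵀ * Y)
    (e2 : (Yᵀ * gram X lam * Y) * Z2 * (Yᵀ * gram X lam * Y) = Yᵀ * gram X lam * Y)
    (hl : 0 < lam) : basePre X lam 0 Y Z1 Z2 = (gram X lam)⁻¹ := by
  obtain ⟨M, hM⟩ : ∃ M, M = gram X lam := ⟨_, rfl⟩
  have hMt : Mᵀ = M := by
    rw [hM, gram]
    simp [transpose_add, transpose_mul]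
  have hMX : M = Xᵀ * X + lam • (1 : Matrix (Fin n) (Fin n) ℝ) := hM
  -- `Y Z1 Yᵀ Y = Y`
  have e1' : Yᵀ * (Y * (Z1 * (Yᵀ * Y))) = Yᵀ * Y := by
    have := e1
    simp only [Matrix.mul_assoc] at this
    exact this
  have f1 : Y * Z1 * Yᵀ * Y = Y := by
    rw [← sub_eq_zero]
    apply D12_zero
    rw [transpose_sub, transpose_mul, transpose_mul, transpose_mul, transpose_transpose, h1]
    simp only [Matrix.mul_sub, Matrix.sub_mul, Matrix.mul_assoc, e1']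
    abel
  have f1t : Yᵀ * (Y * Z1 * Yᵀ) = Yᵀ := by
    have := congrArg transpose f1
    rw [transpose_mul, transpose_mul, transpose_mul, transpose_transpose, h1] at this
    rw [Matrix.mul_assoc Y Z1 Yᵀ]
    exact this
  -- `Y Z2 Yᵀ M Y = Y`
  have f2 : Y * Z2 * Yᵀ * M * Y = Y := by
    obtain ⟨C, hC⟩ : ∃ C, C = Z2 * Yᵀ * M * Y - 1 := ⟨_, rfl⟩
    have g1 : Yᵀ * M * (Y * C) = 0 := by
      rw [hC]
      have : Yᵀ * M * (Y * (Z2 * Yᵀ * M * Y - 1)) =
          (Yᵀ * M * Y) * Z2 * (Yᵀ * M * Y) - Yᵀ * M * Y := by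
        simp only [Matrix.mul_sub, Matrix.mul_assoc, Matrix.mul_one]
      rw [this, hM, e2, sub_self]
    have g2 : (Y * C)ᵀ * M * (Y * C) = 0 := by
      have : (Y * C)ᵀ * M * (Y * C) = Cᵀ * (Yᵀ * M * (Y * C)) := by
        rw [transpose_mul]; simp only [Matrix.mul_assoc]
      rw [this, g1, Matrix.mul_zero]
    have g3 : (X * (Y * C))ᵀ * (X * (Y * C)) + lam • ((Y * C)ᵀ * (Y * C)) = 0 := by
      rw [← g2, hMX, Matrix.mul_add, Matrix.add_mul, Matrix.mul_smul, Matrix.mul_one,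
        Matrix.smul_mul, transpose_mul X (Y * C)]
      simp only [Matrix.mul_assoc]
    have g4 : Y * C = 0 := by
      have g5 : ∀ j, ∑ i, (Y * C) i j ^ 2 = 0 := by
        intro j
        have g6 := congrFun (congrFun g3 j) j
        have g7 : ∑ i, (X * (Y * C)) i j ^ 2 + lam * ∑ i, (Y * C) i j ^ 2 = 0 := by
          refine Eq.trans ?_ g6
          rw [Matrix.add_apply, Matrix.smul_apply, Matrix.mul_apply, Matrix.mul_apply]
          simp only [transpose_apply, smul_eq_mul, pow_two]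
        have g8 : 0 ≤ ∑ i, (X * (Y * C)) i j ^ 2 := Finset.sum_nonneg fun _ _ => sq_nonneg _
        have g9 : 0 ≤ ∑ i, (Y * C) i j ^ 2 := Finset.sum_nonneg fun _ _ => sq_nonneg _
        nlinarith [mul_nonneg hl.le g9]
      ext i j
      have := (Finset.sum_eq_zero_iff_of_nonneg fun i _ => sq_nonneg ((Y * C) i j)).1 (g5 j) i
        (Finset.mem_univ _)
      simpa using this
    have g10 : Y * Z2 * Yᵀ * M * Y - Y = Y * C := by
      rw [hC]
      simp only [Matrix.mul_sub, Matrix.mul_assoc, Matrix.mul_one]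
    rw [← sub_eq_zero, g10, g4]
  have f3 : M = Y * (Wᵀ * W) * Yᵀ + lam • (1 : Matrix (Fin n) (Fin n) ℝ) := by
    rw [hMX, hX, transpose_mul, transpose_transpose]
    simp only [Matrix.mul_assoc]
  -- `M (1 - P) = λ (1 - P)`
  have f4 : M * (1 - Y * Z1 * Yᵀ) = lam • (1 - Y * Z1 * Yᵀ) := by
    have : M * (1 - Y * Z1 * Yᵀ) = Y * (Wᵀ * W) * (Yᵀ - Yᵀ * (Y * Z1 * Yᵀ)) +
        lam • (1 - Y * Z1 * Yᵀ) := by
      rw [f3, Matrix.add_mul, Matrix.smul_mul, Matrix.one_mul]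
      congr 1
      simp only [Matrix.mul_sub, Matrix.mul_assoc, Matrix.mul_one]
    rw [this, f1t, sub_self, Matrix.mul_zero, zero_add]
  have f5 : (1 - Y * Z1 * Yᵀ) * M = lam • (1 - Y * Z1 * Yᵀ) := by
    have := congrArg transpose f4
    rw [transpose_mul, transpose_smul, transpose_sub, transpose_one, hMt, transpose_mul,
      transpose_mul, transpose_transpose, h1, ← Matrix.mul_assoc] at this
    exact this
  have f6 : Y * Z2 * Yᵀ * M = Y * Z1 * Yᵀ := by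
    have g1 : Y * Z2 * Yᵀ * M = Y * Z2 * Yᵀ * M * Y * Z1 * Yᵀ +
        Y * Z2 * Yᵀ * (M * (1 - Y * Z1 * Yᵀ)) := by
      simp only [Matrix.mul_sub, Matrix.mul_assoc, Matrix.mul_one]
      abel
    rw [g1, f2, f4, Matrix.mul_smul]
    have g2 : Y * Z2 * Yᵀ * (1 - Y * Z1 * Yᵀ) = Y * Z2 * (Yᵀ - Yᵀ * (Y * Z1 * Yᵀ)) := by
      simp only [Matrix.mul_sub, Matrix.mul_assoc, Matrix.mul_one]
    rw [g2, f1t, sub_self, Matrix.mul_zero, smul_zero, add_zero]
  have key : basePre X lam 0 Y Z1 Z2 * M = 1 := by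
    have g0 : basePre X lam 0 Y Z1 Z2 = lam⁻¹ • (1 - Y * Z1 * Yᵀ) + Y * Z2 * Yᵀ := by
      unfold basePre
      simp only [pow_zero, Matrix.one_mul]
    rw [g0, Matrix.add_mul, f6, Matrix.smul_mul, f5, smul_smul, inv_mul_cancel₀ hl.ne', one_smul]
    exact sub_add_cancel _ _
  rw [← hM]
  exact (Matrix.inv_eq_left_inv key).symm

end A56
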