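import Pool.Agent.Lib_helper50.A56.Defs
import Pool.Agent.Lib_helper50.A56.B.D1a
import Pool.Agent.Lib_helper50.A56.B.D1b
import Pool.Agent.Lib_helper50.A56.B.D2
/-! # MP_a55cb8, block D3: Lemma R -/

open Matrix Finset

namespace A56

-- BEGIN STUBS (statements of the blocks D1a, D1b, D2; to be replaced by imports)
section stubs

variable {m n a b c : Type*} [Fintype m] [Fintype n] [Fintype a] [Fintype b] [Fintype c]
  [DecidableEq m] [DecidableEq n] [DecidableEq a] [DecidableEq b] [DecidableEq c]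

end stubs
-- END STUBS

section D3

variable {m n a b c : Type*} [Fintype m] [Fintype n] [Fintype a] [Fintype b] [Fintype c]
  [DecidableEq m] [DecidableEq n] [DecidableEq a] [DecidableEq b] [DecidableEq c]

theorem D3_neg (x : n → ℝ) : sq (-x) = sq x := by
  unfold sq
  refine Finset.sum_congr rfl fun i _ => ?_
  simp

/-- `Aᵀ Sᵀ x = Aᵀ z + Gᵀ Sᵀ x` -/
theorem D3_split (S : Matrix a m ℝ) (A : Matrix m n ℝ) {l : ℝ} (hl : 0 < l) (x : a → ℝ) :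
    Aᵀ *ᵥ (Sᵀ *ᵥ x) = Aᵀ *ᵥ ((A * (gram A l)⁻¹ * Aᵀ) *ᵥ (Sᵀ *ᵥ x)) +
      (noiseM A l)ᵀ *ᵥ (Sᵀ *ᵥ x) := by
  have h1 : Aᵀ = Aᵀ * (A * (gram A l)⁻¹ * Aᵀ) + (noiseM A l)ᵀ := by
    conv_lhs => rw [split_noise A hl]
    rw [transpose_add, transpose_mul, transpose_mul, transpose_mul, transpose_transpose,
      gram_inv_transpose, Matrix.mul_assoc A]
  conv_lhs => rw [h1]
  rw [add_mulVec, mulVec_mulVec (Sᵀ *ᵥ x)]

theorem D3_eq (S : Matrix a m ℝ) (A : Matrix m n ℝ) (T : Matrix n b ℝ) (x : a → ℝ) :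
    (S * A * T)ᵀ *ᵥ x = Tᵀ *ᵥ (Aᵀ *ᵥ (Sᵀ *ᵥ x)) := by
  rw [transpose_mul, transpose_mul, mulVec_mulVec, mulVec_mulVec, Matrix.mul_assoc]

theorem lemR {S : Matrix a m ℝ} {A : Matrix m n ℝ} {T : Matrix n b ℝ} {T2 : Matrix n c ℝ}
    {l C : ℝ} (hl : 0 < l) (hC : 1 ≤ C) (hS : Valid S A l) (hT : Valid Tᵀ Aᵀ l)
    (hT2 : Valid T2ᵀ Aᵀ l) (hN : Noise S A T l C) (hN2 : Noise S A T2 l C) (x : a → ℝ) :
    sq ((S * A * T)ᵀ *ᵥ x) + l * sq x ≤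
      (7 + 9 * C) * (sq ((S * A * T2)ᵀ *ᵥ x) + l * sq x) := by
  rw [D3_eq, D3_eq]
  set w := Sᵀ *ᵥ x with hw
  set z := (A * (gram A l)⁻¹ * Aᵀ) *ᵥ w with hz
  set g := (noiseM A l)ᵀ *ᵥ w with hg
  have h0 : Aᵀ *ᵥ w = Aᵀ *ᵥ z + g := D3_split S A hl x
  have h1 : sq z ≤ 5 / 4 * sq x := hS.pi hl x
  have h2 : sq (Tᵀ *ᵥ g) ≤ C * l * sq x := hN x
  have h3 : sq (T2ᵀ *ᵥ g) ≤ C * l * sq x := hN2 x
  have h4 : sq (Tᵀ *ᵥ (Aᵀ *ᵥ w)) ≤ 2 * sq (Tᵀ *ᵥ (Aᵀ *ᵥ z)) + 2 * sq (Tᵀ *ᵥ g) := by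
    rw [h0, mulVec_add]
    exact sq_add_le _ _
  have h5 : sq (T2ᵀ *ᵥ (Aᵀ *ᵥ z)) ≤ 2 * sq (T2ᵀ *ᵥ (Aᵀ *ᵥ w)) + 2 * sq (T2ᵀ *ᵥ g) := by
    have h6 : Aᵀ *ᵥ z = Aᵀ *ᵥ w + -g := by rw [h0]; abel
    rw [h6, mulVec_add]
    refine (sq_add_le _ _).trans ?_
    rw [mulVec_neg, D3_neg]
  have h7 := (abs_le.1 (hT z)).2
  have h8 := (abs_le.1 (hT2 z)).1
  have hx := sq_nonneg' x
  have hY := sq_nonneg' (T2ᵀ *ᵥ (Aᵀ *ᵥ w))
  have hlz : l * sq z ≤ 5 / 4 * (l * sq x) := by nlinarith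
  have hlx : 0 ≤ l * sq x := mul_nonneg hl.le hx
  have hCx : 0 ≤ (C - 1) * (l * sq x) := mul_nonneg (by linarith) hlx
  have hCY : 0 ≤ (C - 1) * sq (T2ᵀ *ᵥ (Aᵀ *ᵥ w)) := mul_nonneg (by linarith) hY
  nlinarith

/-- the transposed version: `T` fixed, two row samples -/
theorem lemR' {S : Matrix a m ℝ} {S2 : Matrix b m ℝ} {A : Matrix m n ℝ} {T : Matrix n c ℝ}
    {l C : ℝ} (hl : 0 < l) (hC : 1 ≤ C) (hT : Valid Tᵀ Aᵀ l) (hS : Valid S A l)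
    (hS2 : Valid S2 A l) (hN : Noise S A T l C) (hN2 : Noise S2 A T l C) (x : c → ℝ) :
    sq ((S * A * T) *ᵥ x) + l * sq x ≤
      (7 + 9 * C) * (sq ((S2 * A * T) *ᵥ x) + l * sq x) := by
  have h := lemR (S := Tᵀ) (A := Aᵀ) (T := Sᵀ) (T2 := S2ᵀ) hl hC hT
    (by rwa [transpose_transpose, transpose_transpose])
    (by rwa [transpose_transpose, transpose_transpose])
    (noise_symm hl (by linarith) hN) (noise_symm hl (by linarith) hN2) x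
  have e1 : (Tᵀ * Aᵀ * Sᵀ)ᵀ = S * A * T := by
    rw [transpose_mul, transpose_mul, transpose_transpose, transpose_transpose,
      transpose_transpose, Matrix.mul_assoc]
  have e2 : (Tᵀ * Aᵀ * S2ᵀ)ᵀ = S2 * A * T := by
    rw [transpose_mul, transpose_mul, transpose_transpose, transpose_transpose,
      transpose_transpose, Matrix.mul_assoc]
  rwa [e1, e2] at h

end D3

end A56
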