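import Pool.Agent.Lib_helper50.A56.Defs
/-!
# MP_a55cb8, block D8: the outer iteration (helper73)
-/

open Matrix Finset

namespace A56

section D8

variable {m n : Type*} [Fintype m] [Fintype n] [DecidableEq m] [DecidableEq n]

omit [DecidableEq n] in
theorem D8_sq_dot (x : n → ℝ) : sq x = x ⬝ᵥ x := by
  simp [sq, dotProduct, pow_two]

omit [DecidableEq n] in
theorem D8_sq_nonneg (x : n → ℝ) : 0 ≤ sq x :=
  Finset.sum_nonneg fun i _ => pow_two_nonneg (x i)

omit [DecidableEq n] in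
theorem D8_sq_zero (x : n → ℝ) (h : sq x = 0) : x = 0 := by
  funext i
  have h1 := (Finset.sum_eq_zero_iff_of_nonneg (fun i _ => pow_two_nonneg (x i))).1 h i
    (Finset.mem_univ i)
  exact pow_eq_zero_iff (two_ne_zero) |>.1 h1

omit [DecidableEq m] [Fintype n] in
theorem D8_gram_T (A : Matrix m n ℝ) (l : ℝ) : (gram A l)ᵀ = gram A l := by
  simp [gram, transpose_add, transpose_mul]

omit [DecidableEq m] in
theorem D8_posDef (A : Matrix m n ℝ) {l : ℝ} (hl : 0 < l) : (gram A l).PosDef := by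
  have h1 : (Aᵀ * A).PosSemidef := by
    have := posSemidef_conjTranspose_mul_self A
    rwa [conjTranspose_eq_transpose_of_trivial] at this
  exact PosDef.posSemidef_add h1 (PosDef.one.smul hl)

omit [DecidableEq m] in
theorem D8_qf_gram (A : Matrix m n ℝ) (l : ℝ) (x : n → ℝ) :
    qf (gram A l) x = sq (A *ᵥ x) + l * sq x := by
  unfold qf
  rw [gram, add_mulVec, smul_mulVec, one_mulVec, dotProduct_add, dotProduct_smul, smul_eq_mul,
    ← D8_sq_dot, ← mulVec_mulVec, dotProduct_mulVec, vecMul_transpose, ← D8_sq_dot]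

omit [DecidableEq m] in
/-- the variational inequality for the inverse -/
theorem D8_var (A : Matrix m n ℝ) {l : ℝ} (hl : 0 < l) (v w : n → ℝ) :
    2 * (v ⬝ᵥ w) - (sq (A *ᵥ w) + l * sq w) ≤ qf (gram A l)⁻¹ v := by
  obtain ⟨y, hy⟩ : ∃ y, y = (gram A l)⁻¹ *ᵥ v := ⟨_, rfl⟩
  have hM : gram A l * (gram A l)⁻¹ = 1 :=
    mul_nonsing_inv _ ((isUnit_iff_isUnit_det _).1 (D8_posDef A hl).isUnit)
  have hMy : gram A l *ᵥ y = v := by
    rw [hy, mulVec_mulVec, hM, one_mulVec]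
  have h1 : qf (gram A l)⁻¹ v = qf (gram A l) y := by
    unfold qf
    rw [← hy, hMy, dotProduct_comm]
  have h2 : 0 ≤ qf (gram A l) (w - y) := by
    rw [D8_qf_gram]
    have := D8_sq_nonneg (A *ᵥ (w - y))
    have h3 := mul_nonneg hl.le (D8_sq_nonneg (w - y))
    linarith
  have h3 : qf (gram A l) (w - y) = qf (gram A l) w - 2 * (v ⬝ᵥ w) + qf (gram A l) y := by
    unfold qf
    rw [mulVec_sub, sub_dotProduct, dotProduct_sub, dotProduct_sub, hMy,
      dotProduct_comm w v]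
    have h4 : y ⬝ᵥ (gram A l *ᵥ w) = v ⬝ᵥ w := by
      rw [dotProduct_mulVec, ← mulVec_transpose, D8_gram_T, hMy]
    rw [h4]
    ring
  rw [h1, ← D8_qf_gram]
  linarith

/-- spectral theorem for symmetric real matrices, elementary form -/
theorem D8_spec (G : Matrix m m ℝ) (hG : Gᵀ = G) :
    ∃ (u : m → m → ℝ) (g : m → ℝ), (∀ j, G *ᵥ u j = g j • u j) ∧
      (∀ i j, u i ⬝ᵥ u j = if i = j then 1 else 0) ∧
      ∀ x : m → ℝ, ∑ j, (u j ⬝ᵥ x) • u j = x := by
  have hA : G.IsHermitian := by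
    rw [IsHermitian, conjTranspose_eq_transpose_of_trivial, hG]
  set b := hA.eigenvectorBasis with hb
  refine ⟨fun j => ⇑(b j), hA.eigenvalues, fun j => hA.mulVec_eigenvectorBasis j, ?_, ?_⟩
  · intro i j
    have h := (orthonormal_iff_ite.1 b.orthonormal) i j
    rw [EuclideanSpace.inner_eq_star_dotProduct] at h
    rw [← h, dotProduct_comm]
    rfl
  · intro x
    have h := b.sum_repr' (WithLp.toLp 2 x)
    have h2 := congrArg (fun z => WithLp.ofLp z) h
    simp only [WithLp.ofLp_sum, WithLp.ofLp_smul] at h2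
    refine Eq.trans (Finset.sum_congr rfl fun j _ => ?_) h2
    congr 1
    rw [EuclideanSpace.inner_eq_star_dotProduct, dotProduct_comm]
    rfl

/-- minimal norm solutions -/
theorem D8_min (A : Matrix m n ℝ) (z : n → ℝ) :
    ∃ w : n → ℝ, A *ᵥ w = A *ᵥ z ∧ ∀ v, A *ᵥ v = 0 → v ⬝ᵥ w = 0 := by
  classical
  obtain ⟨u, g, hu, ho, hs⟩ := D8_spec (Aᵀ * A) (by rw [transpose_mul, transpose_transpose])
  have hz : ∀ j, g j = 0 → A *ᵥ u j = 0 := by
    intro j hj
    apply D8_sq_zero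
    have h1 : sq (A *ᵥ u j) = u j ⬝ᵥ ((Aᵀ * A) *ᵥ u j) := by
      rw [← mulVec_mulVec, dotProduct_mulVec (u j) Aᵀ, vecMul_transpose, D8_sq_dot]
    rw [h1, hu, hj, zero_smul, dotProduct_zero]
  refine ⟨∑ j, (if g j = 0 then 0 else (u j ⬝ᵥ z)) • u j, ?_, ?_⟩
  · conv_rhs => rw [← hs z]
    rw [mulVec_sum, mulVec_sum]
    refine Finset.sum_congr rfl fun j _ => ?_
    rw [mulVec_smul, mulVec_smul]
    by_cases hj : g j = 0
    · rw [hz j hj, smul_zero, smul_zero]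
    · rw [if_neg hj]
  · intro v hv
    rw [dotProduct_sum]
    refine Finset.sum_eq_zero fun j _ => ?_
    by_cases hj : g j = 0
    · rw [if_pos hj, zero_smul, dotProduct_zero]
    · have h1 : v ⬝ᵥ ((Aᵀ * A) *ᵥ u j) = 0 := by
        rw [← mulVec_mulVec, dotProduct_mulVec, vecMul_transpose, hv, zero_dotProduct]
      rw [hu, dotProduct_smul, smul_eq_mul] at h1
      have h2 : v ⬝ᵥ u j = 0 := (mul_eq_zero.1 h1).resolve_left hj
      rw [dotProduct_smul, h2, smul_zero]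

/-! ### Chebyshev -/

/-- the scalar polynomials `τ_k - T_k((θ - x)/δ)` -/
noncomputable def D8_f (α β : ℝ) : ℕ → ℝ → ℝ
  | 0, _ => 0
  | 1, x => 2 / (β - α) * x
  | k + 2, x => 2 * ((β + α) / (β - α)) * D8_f α β (k + 1) x - D8_f α β k x +
      4 / (β - α) * (x * (chebT α β (k + 1) - D8_f α β (k + 1) x))

theorem D8_f_cos {α β : ℝ} (hαβ : α < β) {x : ℝ} (h1 : α ≤ x) (h2 : x ≤ β) :
    ∃ φ : ℝ, ∀ k : ℕ, chebT α β k - D8_f α β k x = Real.cos (k * φ) ∧
      chebT α β (k + 1) - D8_f α β (k + 1) x = Real.cos ((k + 1 : ℕ) * φ) := by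
  have hd : 0 < β - α := by linarith
  have hr1 : -1 ≤ (β + α - 2 * x) / (β - α) := by
    rw [le_div_iff₀ hd]; linarith
  have hr2 : (β + α - 2 * x) / (β - α) ≤ 1 := by
    rw [div_le_iff₀ hd]; linarith
  refine ⟨Real.arccos ((β + α - 2 * x) / (β - α)), fun k => ?_⟩
  have hc : Real.cos (Real.arccos ((β + α - 2 * x) / (β - α))) = (β + α - 2 * x) / (β - α) :=
    Real.cos_arccos hr1 hr2
  set φ := Real.arccos ((β + α - 2 * x) / (β - α)) with hφ
  induction k with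
  | zero =>
    constructor
    · simp [chebT, D8_f]
    · simp only [chebT, D8_f, Nat.zero_add, Nat.cast_one, one_mul]
      rw [hc]
      ring
  | succ k ih =>
    refine ⟨ih.2, ?_⟩
    have e1 : chebT α β (k + 1 + 1) = 2 * ((β + α) / (β - α)) * chebT α β (k + 1) -
        chebT α β k := rfl
    have e2 : D8_f α β (k + 1 + 1) x = 2 * ((β + α) / (β - α)) * D8_f α β (k + 1) x -
        D8_f α β k x + 4 / (β - α) * (x * (chebT α β (k + 1) - D8_f α β (k + 1) x)) := rfl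
    have e3 : Real.cos ((k + 1 + 1 : ℕ) * φ) =
        2 * Real.cos φ * Real.cos ((k + 1 : ℕ) * φ) - Real.cos (k * φ) := by
      have h3 : ((k + 1 + 1 : ℕ) : ℝ) * φ = ((k + 1 : ℕ) : ℝ) * φ + φ := by push_cast; ring
      have h4 : (k : ℝ) * φ = ((k + 1 : ℕ) : ℝ) * φ - φ := by push_cast; ring
      rw [h3, h4, Real.cos_add, Real.cos_sub]
      ring
    rw [e1, e2, e3, ← ih.1, ← ih.2, hc]
    ring

theorem D8_f_bound {α β : ℝ} (hαβ : α < β) (k : ℕ) {x : ℝ} (h1 : α ≤ x) (h2 : x ≤ β) :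
    |chebT α β k - D8_f α β k x| ≤ 1 := by
  obtain ⟨φ, h⟩ := D8_f_cos hαβ h1 h2
  rw [(h k).1]
  exact Real.abs_cos_le_one _

theorem D8_T_ge {α β : ℝ} (hα : 0 < α) (hαβ : α < β) (s t k : ℕ) (hs : 1 ≤ s)
    (hs2 : β ≤ (s : ℝ) ^ 2 * α) (hk : s * t ≤ k) : 2 ^ t / 2 ≤ chebT α β k := by
  have hd : 0 < β - α := by linarith
  have hs0 : (0 : ℝ) < s := by exact_mod_cast hs
  set y : ℝ := (β + α) / (β - α) with hy
  have hy1 : 1 + 2 / (s : ℝ) ^ 2 ≤ y := by
    rw [hy, le_div_iff₀ hd]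
    have h1 : 2 / (s : ℝ) ^ 2 * (β - α) ≤ 2 * α := by
      rw [div_mul_eq_mul_div, div_le_iff₀ (by positivity)]
      nlinarith
    linarith
  have hy0 : 1 ≤ y := by
    have : 0 < 2 / (s : ℝ) ^ 2 := by positivity
    linarith
  set q : ℝ := √(y ^ 2 - 1) with hq
  have hqq : q ^ 2 = y ^ 2 - 1 := Real.sq_sqrt (by nlinarith)
  have hq0 : 0 ≤ q := Real.sqrt_nonneg _
  have hq2 : 2 / (s : ℝ) ≤ q := by
    apply Real.le_sqrt_of_sq_le
    have h1 : (2 / (s : ℝ)) ^ 2 = 2 * (2 / (s : ℝ) ^ 2) := by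
      field_simp
    rw [h1]
    nlinarith
  set r : ℝ := y + q with hr
  set r' : ℝ := y - q with hr'
  have hrr : r * r' = 1 := by
    rw [hr, hr']
    nlinarith
  have hr0 : 0 < r := by rw [hr]; linarith
  have hr'0 : 0 < r' := by
    by_contra hc
    push Not at hc
    nlinarith
  have hrsum : r + r' = 2 * y := by rw [hr, hr']; ring
  have key : ∀ j : ℕ, chebT α β j = (r ^ j + r' ^ j) / 2 ∧
      chebT α β (j + 1) = (r ^ (j + 1) + r' ^ (j + 1)) / 2 := by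
    intro j
    induction j with
    | zero =>
      constructor
      · simp [chebT]
      · simp only [chebT, Nat.zero_add, pow_one]
        rw [hrsum, ← hy]
        ring
    | succ j ih =>
      refine ⟨ih.2, ?_⟩
      have e1 : chebT α β (j + 1 + 1) = 2 * y * chebT α β (j + 1) - chebT α β j := rfl
      rw [e1, ih.1, ih.2, ← hrsum]
      have e2 : r ^ (j + 1 + 1) = r * r ^ (j + 1) := by ring
      have e3 : r' ^ (j + 1 + 1) = r' * r' ^ (j + 1) := by ring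
      have e4 : r' * r ^ (j + 1) = r ^ j := by
        rw [pow_succ]
        calc r' * (r ^ j * r) = r ^ j * (r * r') := by ring
          _ = r ^ j := by rw [hrr, mul_one]
      have e5 : r * r' ^ (j + 1) = r' ^ j := by
        rw [pow_succ]
        calc r * (r' ^ j * r') = r' ^ j * (r * r') := by ring
          _ = r' ^ j := by rw [hrr, mul_one]
      rw [e2, e3]
      have e6 : (r + r') * ((r ^ (j + 1) + r' ^ (j + 1)) / 2) =
          (r * r ^ (j + 1) + r' * r ^ (j + 1) + r * r' ^ (j + 1) + r' * r' ^ (j + 1)) / 2 := by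
        ring
      rw [e6, e4, e5]
      ring
  rw [(key k).1]
  have hr1 : 1 + 2 / (s : ℝ) ≤ r := by rw [hr]; linarith
  have hr2 : 1 ≤ r := by
    have : 0 < 2 / (s : ℝ) := by positivity
    linarith
  have h1 : (2 : ℝ) ^ t ≤ r ^ k := by
    have hB : (2 : ℝ) ≤ r ^ s := by
      have h2 := one_add_mul_le_pow (a := 2 / (s : ℝ)) (by
        have : 0 < 2 / (s : ℝ) := by positivity
        linarith) s
      have h3 : (s : ℝ) * (2 / (s : ℝ)) = 2 := by field_simp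
      rw [h3] at h2
      have h4 : (1 + 2 / (s : ℝ)) ^ s ≤ r ^ s :=
        pow_le_pow_left₀ (by positivity) hr1 s
      linarith
    calc (2 : ℝ) ^ t ≤ (r ^ s) ^ t := pow_le_pow_left₀ (by norm_num) hB t
      _ = r ^ (s * t) := by rw [pow_mul]
      _ ≤ r ^ k := pow_le_pow_right₀ hr2 hk
  have h2 : 0 < r' ^ k := pow_pos hr'0 k
  linarith

/-- the iteration on an eigenvector -/
theorem D8_cheb_eig (G : Matrix m m ℝ) (u : m → ℝ) (g α β : ℝ) (hu : G *ᵥ u = g • u) (k : ℕ) :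
    G *ᵥ (chebY G 1 α β k *ᵥ u) = D8_f α β k g • u ∧
      G *ᵥ (chebY G 1 α β (k + 1) *ᵥ u) = D8_f α β (k + 1) g • u := by
  induction k with
  | zero =>
    constructor
    · simp [chebY, D8_f]
    · simp only [chebY, D8_f, smul_mulVec, one_mulVec, mulVec_smul, hu, smul_smul]
  | succ k ih =>
    refine ⟨ih.2, ?_⟩
    have e1 : chebY G 1 α β (k + 1 + 1) =
        (2 * ((β + α) / (β - α))) • chebY G 1 α β (k + 1) - chebY G 1 α β k +
        (4 / (β - α)) • (1 * (chebT α β (k + 1) • (1 : Matrix m m ℝ) -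
          G * chebY G 1 α β (k + 1))) := rfl
    have e2 : D8_f α β (k + 1 + 1) g = 2 * ((β + α) / (β - α)) * D8_f α β (k + 1) g -
        D8_f α β k g + 4 / (β - α) * (g * (chebT α β (k + 1) - D8_f α β (k + 1) g)) := rfl
    rw [e1, e2, Matrix.one_mul, add_mulVec, sub_mulVec, smul_mulVec, smul_mulVec, sub_mulVec,
      smul_mulVec, one_mulVec, ← mulVec_mulVec, ih.2, mulVec_add, mulVec_sub, mulVec_smul, ih.1,
      ih.2, mulVec_smul, mulVec_sub, mulVec_smul, mulVec_smul, hu]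
    module

theorem outer_res {A : Matrix m n ℝ} {Q : Matrix n n ℝ} {l s2 : ℝ} (hl : 0 < l) (hs : 0 < s2)
    (hQ : IsPre (gram A l) Q (1 / 2) 2)
    (hlow : ∀ x, (∀ z, A *ᵥ z = 0 → z ⬝ᵥ x = 0) → s2 * sq x ≤ sq (A *ᵥ x))
    {α : ℝ} (hα : 0 < α) (hα2 : α * (2 * (s2 + l)) ≤ s2) (s t k : ℕ) (hs1 : 1 ≤ s)
    (hs2 : 2 ≤ (s : ℝ) ^ 2 * α) (hk : s * t ≤ k) (x : n → ℝ) :
    sq (A *ᵥ x - (A * Q * Aᵀ) *ᵥ (cheb (A * Q * Aᵀ) 1 α 2 k *ᵥ (A *ᵥ x))) ≤
      (2 * (1 / 2) ^ t) ^ 2 * sq (A *ᵥ x) := by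
  classical
  obtain ⟨hQT, hQ2⟩ := hQ
  obtain ⟨G, hG⟩ : ∃ G, G = A * Q * Aᵀ := ⟨_, rfl⟩
  have hGT : Gᵀ = G := by
    rw [hG, transpose_mul, transpose_mul, transpose_transpose, hQT, Matrix.mul_assoc]
  have hα1 : α < 2 := by
    have h1 : α * (2 * (s2 + l)) ≤ s2 + l := by linarith
    have h2 : 0 < s2 + l := by linarith
    nlinarith
  obtain ⟨u, g, hu, ho, hsum⟩ := D8_spec G hGT
  have hqfG : ∀ y, y ⬝ᵥ (G *ᵥ y) = qf Q (Aᵀ *ᵥ y) := by
    intro y
    unfold qf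
    rw [hG, ← mulVec_mulVec, ← mulVec_mulVec, dotProduct_mulVec, ← mulVec_transpose]
  have hgq : ∀ j, g j = qf Q (Aᵀ *ᵥ u j) := by
    intro j
    rw [← hqfG, hu, dotProduct_smul, ho, if_pos rfl, smul_eq_mul, mul_one]
  have huu : ∀ j, sq (u j) = 1 := by
    intro j
    rw [D8_sq_dot, ho, if_pos rfl]
  -- upper bound for the form
  have hWinv : ∀ v : m → ℝ, qf (gram A l)⁻¹ (Aᵀ *ᵥ v) ≤ sq v := by
    intro v
    obtain ⟨y, hy⟩ : ∃ y, y = (gram A l)⁻¹ *ᵥ (Aᵀ *ᵥ v) := ⟨_, rfl⟩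
    have hM : gram A l * (gram A l)⁻¹ = 1 :=
      mul_nonsing_inv _ ((isUnit_iff_isUnit_det _).1 (D8_posDef A hl).isUnit)
    have hMy : gram A l *ᵥ y = Aᵀ *ᵥ v := by
      rw [hy, mulVec_mulVec, hM, one_mulVec]
    have h1 : qf (gram A l)⁻¹ (Aᵀ *ᵥ v) = v ⬝ᵥ (A *ᵥ y) := by
      unfold qf
      rw [← hy, mulVec_transpose, ← dotProduct_mulVec]
    have h2 : qf (gram A l)⁻¹ (Aᵀ *ᵥ v) = sq (A *ᵥ y) + l * sq y := by
      rw [← D8_qf_gram]
      unfold qf
      rw [hMy, ← hy, dotProduct_comm]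
    have h3 : 0 ≤ sq (v - A *ᵥ y) := D8_sq_nonneg _
    have h4 : sq (v - A *ᵥ y) = sq v - 2 * (v ⬝ᵥ (A *ᵥ y)) + sq (A *ᵥ y) := by
      rw [D8_sq_dot, sub_dotProduct, dotProduct_sub, dotProduct_sub, ← D8_sq_dot, ← D8_sq_dot,
        dotProduct_comm (A *ᵥ y) v]
      ring
    have h5 := mul_nonneg hl.le (D8_sq_nonneg y)
    linarith
  -- the eigenvalues
  have heig : ∀ j, (g j = 0 ∧ ∀ z, u j ⬝ᵥ (A *ᵥ z) = 0) ∨ (α ≤ g j ∧ g j ≤ 2) := by
    intro j
    by_cases hj : g j = 0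
    · left
      refine ⟨hj, fun z => ?_⟩
      have h1 : qf (gram A l)⁻¹ (Aᵀ *ᵥ u j) ≤ 0 := by
        have h2 := (hQ2 (Aᵀ *ᵥ u j)).1
        rw [← hgq, hj] at h2
        linarith
      have h2 : Aᵀ *ᵥ u j = 0 := by
        by_contra hne
        have h3 := (D8_posDef A hl).inv
        have h4 := h3.dotProduct_mulVec_pos hne
        have h5 : star (Aᵀ *ᵥ u j) = Aᵀ *ᵥ u j := by
          funext i
          simp
        rw [h5] at h4
        exact absurd h4 (not_lt.2 h1)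
      rw [dotProduct_mulVec, ← mulVec_transpose, h2, zero_dotProduct]
    · right
      constructor
      · -- u j is in the range of A
        obtain ⟨w, hw1, hw2⟩ := D8_min A ((g j)⁻¹ • (Q *ᵥ (Aᵀ *ᵥ u j)))
        have hw3 : A *ᵥ w = u j := by
          rw [hw1, mulVec_smul, mulVec_mulVec, mulVec_mulVec, ← hG, hu, smul_smul,
            inv_mul_cancel₀ hj, one_smul]
        have hw4 := hlow w hw2
        rw [hw3, huu] at hw4
        obtain ⟨c, hc⟩ : ∃ c : ℝ, c = s2 / (s2 + l) := ⟨_, rfl⟩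
        have hc0 : 0 < c := by rw [hc]; positivity
        have h1 := D8_var A hl (Aᵀ *ᵥ u j) (c • w)
        have h2 : (Aᵀ *ᵥ u j) ⬝ᵥ (c • w) = c := by
          rw [dotProduct_smul, mulVec_transpose, ← dotProduct_mulVec, hw3, ho, if_pos rfl,
            smul_eq_mul, mul_one]
        have h3 : sq (A *ᵥ (c • w)) = c ^ 2 := by
          rw [mulVec_smul, hw3, D8_sq_dot, smul_dotProduct, dotProduct_smul, ho, if_pos rfl,
            smul_eq_mul, smul_eq_mul]
          ring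
        have h4 : sq (c • w) = c ^ 2 * sq w := by
          rw [D8_sq_dot, D8_sq_dot, smul_dotProduct, dotProduct_smul, smul_eq_mul, smul_eq_mul]
          ring
        rw [h2, h3, h4] at h1
        have h5 : c * (s2 + l) = s2 := by rw [hc]; field_simp
        have h6 : c ≤ qf (gram A l)⁻¹ (Aᵀ *ᵥ u j) := by
          -- c^2 (1 + l sq w) ≤ c^2 (s2 + l) / s2 = c
          have h7 : c ^ 2 * (1 + l * sq w) ≤ c := by
            have h8 : s2 * (c ^ 2 * (1 + l * sq w)) ≤ s2 * c := by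
              have h9 : s2 * (c ^ 2 * (1 + l * sq w)) = c ^ 2 * (s2 + l * (s2 * sq w)) := by ring
              have h10 : c ^ 2 * (s2 + l * (s2 * sq w)) ≤ c ^ 2 * (s2 + l) := by
                apply mul_le_mul_of_nonneg_left _ (pow_two_nonneg c)
                nlinarith
              have h11 : c ^ 2 * (s2 + l) = s2 * c := by
                calc c ^ 2 * (s2 + l) = c * (c * (s2 + l)) := by ring
                  _ = s2 * c := by rw [h5]; ring
              linarith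
            exact le_of_mul_le_mul_left h8 hs
          nlinarith
        have h7 := (hQ2 (Aᵀ *ᵥ u j)).1
        rw [← hgq] at h7
        have h8 : α ≤ c / 2 := by
          rw [hc, div_div, le_div_iff₀ (by positivity)]
          linarith
        linarith
      · have h1 := (hQ2 (Aᵀ *ᵥ u j)).2
        have h2 := hWinv (u j)
        rw [← hgq] at h1
        rw [huu] at h2
        linarith
  -- the residual
  obtain ⟨b, hb⟩ : ∃ b, b = A *ᵥ x := ⟨_, rfl⟩
  rw [← hG, ← hb]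
  set τ := chebT α 2 k with hτ
  have hτ1 : 2 ^ t / 2 ≤ τ := D8_T_ge hα hα1 s t k hs1 hs2 hk
  have h2t : (0 : ℝ) < 2 ^ t := by positivity
  have hτ0 : 0 < τ := by linarith
  have hpar : ∀ y : m → ℝ, sq y = ∑ j, (u j ⬝ᵥ y) ^ 2 := by
    intro y
    rw [D8_sq_dot]
    conv_lhs => rw [← hsum y]
    rw [sum_dotProduct]
    refine Finset.sum_congr rfl fun j _ => ?_
    rw [smul_dotProduct, smul_eq_mul, hsum y]
    ring
  have hres : b - G *ᵥ (cheb G 1 α 2 k *ᵥ b) =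
      ∑ j, ((u j ⬝ᵥ b) * ((τ - D8_f α 2 k (g j)) / τ)) • u j := by
    have h1 : G *ᵥ (cheb G 1 α 2 k *ᵥ b) =
        ∑ j, ((u j ⬝ᵥ b) * (τ⁻¹ * D8_f α 2 k (g j))) • u j := by
      conv_lhs => rw [← hsum b]
      rw [mulVec_sum, mulVec_sum]
      refine Finset.sum_congr rfl fun j _ => ?_
      unfold cheb
      rw [mulVec_smul, mulVec_smul, smul_mulVec, mulVec_smul, (D8_cheb_eig G (u j) (g j) α 2
        (hu j) k).1, smul_smul, smul_smul, mul_assoc]
    rw [h1]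
    have h2 : b - ∑ j, ((u j ⬝ᵥ b) * (τ⁻¹ * D8_f α 2 k (g j))) • u j =
        ∑ j, (u j ⬝ᵥ b) • u j - ∑ j, ((u j ⬝ᵥ b) * (τ⁻¹ * D8_f α 2 k (g j))) • u j := by
      rw [hsum b]
    rw [h2, ← Finset.sum_sub_distrib]
    refine Finset.sum_congr rfl fun j _ => ?_
    rw [← sub_smul]
    congr 1
    field_simp
  have hcoef : ∀ j, u j ⬝ᵥ (b - G *ᵥ (cheb G 1 α 2 k *ᵥ b)) =
      (u j ⬝ᵥ b) * ((τ - D8_f α 2 k (g j)) / τ) := by
    intro j
    rw [hres, dotProduct_sum, Finset.sum_eq_single j]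
    · rw [dotProduct_smul, ho, if_pos rfl, smul_eq_mul, mul_one]
    · intro i _ hi
      rw [dotProduct_smul, ho, if_neg (Ne.symm hi), smul_zero]
    · intro h; exact absurd (Finset.mem_univ _) h
  rw [hpar (b - G *ᵥ (cheb G 1 α 2 k *ᵥ b)), hpar b, Finset.mul_sum]
  refine Finset.sum_le_sum fun j _ => ?_
  rw [hcoef]
  rcases heig j with ⟨_, h0⟩ | ⟨h1, h2⟩
  · rw [hb, h0 x]
    simp
  · have h3 := D8_f_bound hα1 k h1 h2
    rw [← hτ] at h3
    have h4 : ((τ - D8_f α 2 k (g j)) / τ) ^ 2 ≤ (2 * (1 / 2) ^ t) ^ 2 := by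
      have h5 : |(τ - D8_f α 2 k (g j)) / τ| ≤ 2 * (1 / 2) ^ t := by
        rw [abs_div, abs_of_pos hτ0, div_le_iff₀ hτ0]
        have h6 : (2 * (1 / 2 : ℝ) ^ t) * (2 ^ t / 2) = 1 := by
          have h7 : (1 / 2 : ℝ) ^ t * 2 ^ t = 1 := by
            rw [← mul_pow]; norm_num
          calc (2 * (1 / 2 : ℝ) ^ t) * (2 ^ t / 2) = (1 / 2 : ℝ) ^ t * 2 ^ t := by ring
            _ = 1 := h7
        have h8 : (2 * (1 / 2 : ℝ) ^ t) * (2 ^ t / 2) ≤ (2 * (1 / 2 : ℝ) ^ t) * τ :=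
          mul_le_mul_of_nonneg_left hτ1 (by positivity)
        linarith
      rw [← sq_abs]
      exact pow_le_pow_left₀ (abs_nonneg _) h5 2
    rw [mul_pow, mul_comm]
    exact mul_le_mul_of_nonneg_right h4 (pow_two_nonneg _)

end D8

end A56
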