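import Pool.Agent.Lib_helper50.A56.Defs
/-!
# MP_a55cb8, block D9: ridge leverage scores (helper73)
-/

open Matrix Finset

namespace A56

section D9

variable {m n : Type*} [Fintype m] [Fintype n] [DecidableEq m] [DecidableEq n]

omit [DecidableEq n] in
theorem D9_sq_dot (x : n → ℝ) : sq x = x ⬝ᵥ x := by
  simp [sq, dotProduct, pow_two]

omit [DecidableEq n] in
theorem D9_sq_nonneg (x : n → ℝ) : 0 ≤ sq x :=
  Finset.sum_nonneg fun i _ => pow_two_nonneg (x i)

omit [DecidableEq n] in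
theorem D9_sq_sub (x y : n → ℝ) (t : ℝ) :
    sq (x - t • y) = sq x - 2 * t * (x ⬝ᵥ y) + t ^ 2 * sq y := by
  simp only [sq, dotProduct, Finset.mul_sum, ← Finset.sum_sub_distrib, ← Finset.sum_add_distrib]
  refine Finset.sum_congr rfl fun i _ => ?_
  simp only [Pi.sub_apply, Pi.smul_apply, smul_eq_mul]
  ring

omit [DecidableEq m] [Fintype n] in
theorem D9_gram_T (A : Matrix m n ℝ) (l : ℝ) : (gram A l)ᵀ = gram A l := by
  simp [gram, transpose_add, transpose_mul]

omit [DecidableEq m] in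
theorem D9_posDef (A : Matrix m n ℝ) {l : ℝ} (hl : 0 < l) : (gram A l).PosDef := by
  have h1 : (Aᵀ * A).PosSemidef := by
    have := posSemidef_conjTranspose_mul_self A
    rwa [conjTranspose_eq_transpose_of_trivial] at this
  exact PosDef.posSemidef_add h1 (PosDef.one.smul hl)

omit [DecidableEq m] in
theorem D9_mul_inv (A : Matrix m n ℝ) {l : ℝ} (hl : 0 < l) : gram A l * (gram A l)⁻¹ = 1 :=
  mul_nonsing_inv _ ((isUnit_iff_isUnit_det _).1 (D9_posDef A hl).isUnit)

omit [DecidableEq m] in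
theorem D9_inv_T (A : Matrix m n ℝ) (l : ℝ) : ((gram A l)⁻¹)ᵀ = (gram A l)⁻¹ := by
  rw [transpose_nonsing_inv, D9_gram_T]

omit [DecidableEq m] in
/-- `AᵀA W = 1 - l W` -/
theorem D9_ata (A : Matrix m n ℝ) {l : ℝ} (hl : 0 < l) :
    Aᵀ * A * (gram A l)⁻¹ = 1 - l • (gram A l)⁻¹ := by
  have h := D9_mul_inv A hl
  have h2 : gram A l * (gram A l)⁻¹ = Aᵀ * A * (gram A l)⁻¹ + l • (gram A l)⁻¹ := by
    conv_lhs => rw [gram, add_mul, smul_mul_assoc, one_mul]
    rfl
  rw [h2] at h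
  rw [← h, add_sub_cancel_right]

omit [DecidableEq m] in
theorem D9_rho (A : Matrix m n ℝ) (l : ℝ) (i : m) :
    rho A l i = A i ⬝ᵥ ((gram A l)⁻¹ *ᵥ A i) := by
  unfold rho
  rw [Matrix.mul_assoc]
  rfl

omit [Fintype m] [DecidableEq m] [DecidableEq n] in
theorem D9_row (M : Matrix m n ℝ) (i : m) : sq (M i) = (M * Mᵀ) i i := by
  rw [D9_sq_dot]
  rfl

theorem rho_eq (A : Matrix m n ℝ) {l : ℝ} (hl : 0 < l) (i : m) :
    rho A l i = sq ((A * (gram A l)⁻¹ * Aᵀ) i) + l⁻¹ * sq (noiseM A l i) := by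
  rw [D9_row (A * (gram A l)⁻¹ * Aᵀ), D9_row (noiseM A l)]
  set W := (gram A l)⁻¹ with hW
  have hWT : Wᵀ = W := D9_inv_T A l
  have h1 : A * W * Aᵀ * (A * W * Aᵀ)ᵀ = A * W * Aᵀ - l • (A * W * W * Aᵀ) := by
    have e : (A * W * Aᵀ)ᵀ = A * W * Aᵀ := by
      rw [transpose_mul, transpose_mul, transpose_transpose, hWT, Matrix.mul_assoc]
    rw [e]
    calc A * W * Aᵀ * (A * W * Aᵀ) = A * W * (Aᵀ * A * W) * Aᵀ := by
          simp only [Matrix.mul_assoc]
      _ = A * W * (1 - l • W) * Aᵀ := by rw [D9_ata A hl]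
      _ = A * W * Aᵀ - l • (A * W * W * Aᵀ) := by
          rw [Matrix.mul_sub, Matrix.mul_one, Matrix.sub_mul, Matrix.mul_smul, Matrix.smul_mul]
  have h2 : noiseM A l * (noiseM A l)ᵀ = (l * l) • (A * W * W * Aᵀ) := by
    unfold noiseM
    rw [← hW, transpose_smul, transpose_mul, hWT, Matrix.smul_mul, Matrix.mul_smul, smul_smul,
      Matrix.mul_assoc (A * W) W Aᵀ]
  rw [h1, h2]
  simp only [Matrix.sub_apply, Matrix.smul_apply, smul_eq_mul]
  have h3 : rho A l i = (A * W * Aᵀ) i i := rfl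
  rw [h3]
  field_simp
  ring

theorem rho_nonneg (A : Matrix m n ℝ) {l : ℝ} (hl : 0 < l) (i : m) : 0 ≤ rho A l i := by
  rw [rho_eq A hl]
  have h1 := D9_sq_nonneg ((A * (gram A l)⁻¹ * Aᵀ) i)
  have h2 := D9_sq_nonneg (noiseM A l i)
  positivity

theorem noise_row_le (A : Matrix m n ℝ) {l : ℝ} (hl : 0 < l) (i : m) :
    sq (noiseM A l i) ≤ l * rho A l i := by
  rw [rho_eq A hl]
  have h1 := D9_sq_nonneg ((A * (gram A l)⁻¹ * Aᵀ) i)
  have h2 : l * (sq ((A * (gram A l)⁻¹ * Aᵀ) i) + l⁻¹ * sq (noiseM A l i)) =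
      l * sq ((A * (gram A l)⁻¹ * Aᵀ) i) + sq (noiseM A l i) := by
    field_simp
  rw [h2]
  have := mul_nonneg hl.le h1
  linarith

theorem rho_le_one (A : Matrix m n ℝ) {l : ℝ} (hl : 0 < l) (i : m) : rho A l i ≤ 1 := by
  have h0 := rho_nonneg A hl i
  have h := rho_eq A hl i
  have h1 : rho A l i ^ 2 ≤ sq ((A * (gram A l)⁻¹ * Aᵀ) i) :=
    Finset.single_le_sum (f := fun j => (A * (gram A l)⁻¹ * Aᵀ) i j ^ 2)
      (fun j _ => pow_two_nonneg _) (Finset.mem_univ i)
  have h2 : 0 ≤ l⁻¹ * sq (noiseM A l i) := mul_nonneg (inv_nonneg.2 hl.le) (D9_sq_nonneg _)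
  have h3 : rho A l i ^ 2 ≤ rho A l i := by linarith
  by_contra hc
  push Not at hc
  nlinarith

/-- the mass of a row: `(A x)_i² ≤ rho · (|A x|² + l |x|²)` -/
theorem row_sq_le_rho (A : Matrix m n ℝ) {l : ℝ} (hl : 0 < l) (i : m) (x : n → ℝ) :
    (A *ᵥ x) i ^ 2 ≤ rho A l i * (sq (A *ᵥ x) + l * sq x) := by
  obtain ⟨y, hy⟩ : ∃ y, y = (gram A l)⁻¹ *ᵥ A i := ⟨_, rfl⟩
  have hMy : gram A l *ᵥ y = A i := by
    rw [hy, mulVec_mulVec, D9_mul_inv A hl, one_mulVec]
  have key : ∀ z : n → ℝ, A i ⬝ᵥ z = (A *ᵥ z) ⬝ᵥ (A *ᵥ y) + l * (z ⬝ᵥ y) := by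
    intro z
    have e1 : gram A l *ᵥ y = Aᵀ *ᵥ (A *ᵥ y) + l • y := by
      rw [gram, add_mulVec, mulVec_mulVec, smul_mulVec, one_mulVec]
    rw [← hMy, e1, add_dotProduct, smul_dotProduct, smul_eq_mul, dotProduct_comm y z,
      dotProduct_comm (Aᵀ *ᵥ (A *ᵥ y)) z, dotProduct_mulVec, vecMul_transpose]
  have hr : rho A l i = sq (A *ᵥ y) + l * sq y := by
    rw [D9_rho, ← hy, key y, ← D9_sq_dot, ← D9_sq_dot]
  have hx : (A *ᵥ x) i = (A *ᵥ x) ⬝ᵥ (A *ᵥ y) + l * (x ⬝ᵥ y) := key x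
  have hq : ∀ t : ℝ, 0 ≤ rho A l i * (t * t) + (-2 * (A *ᵥ x) i) * t +
      (sq (A *ᵥ x) + l * sq x) := by
    intro t
    have h1 := D9_sq_nonneg (A *ᵥ x - t • (A *ᵥ y))
    have h2 := D9_sq_nonneg (x - t • y)
    rw [D9_sq_sub] at h1 h2
    rw [hr, hx]
    have h3 := mul_nonneg hl.le h2
    nlinarith
  have h := discrim_le_zero hq
  unfold discrim at h
  nlinarith

theorem rho_anti (A : Matrix m n ℝ) {l l' : ℝ} (hl : 0 < l) (h : l ≤ l') (i : m) :
    rho A l' i ≤ rho A l i := by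
  have hl' : 0 < l' := lt_of_lt_of_le hl h
  have h0 := rho_nonneg A hl' i
  rcases h0.eq_or_lt with h0 | h0
  · rw [← h0]
    exact rho_nonneg A hl i
  obtain ⟨y, hy⟩ : ∃ y, y = (gram A l')⁻¹ *ᵥ A i := ⟨_, rfl⟩
  have hMy : gram A l' *ᵥ y = A i := by
    rw [hy, mulVec_mulVec, D9_mul_inv A hl', one_mulVec]
  have h1 : (A *ᵥ y) i = rho A l' i := by
    rw [D9_rho, ← hy]
    rfl
  have h2 : rho A l' i = sq (A *ᵥ y) + l' * sq y := by
    rw [D9_rho, ← hy]
    have e1 : gram A l' *ᵥ y = Aᵀ *ᵥ (A *ᵥ y) + l' • y := by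
      rw [gram, add_mulVec, mulVec_mulVec, smul_mulVec, one_mulVec]
    conv_lhs => rw [← hMy, e1]
    rw [add_dotProduct, smul_dotProduct, smul_eq_mul,
      dotProduct_comm (Aᵀ *ᵥ (A *ᵥ y)) y, dotProduct_mulVec, vecMul_transpose, ← D9_sq_dot,
      ← D9_sq_dot]
  have h3 := row_sq_le_rho A hl i y
  rw [h1] at h3
  have h4 : sq (A *ᵥ y) + l * sq y ≤ rho A l' i := by
    rw [h2]
    have := D9_sq_nonneg y
    nlinarith
  have h5 : rho A l i * (sq (A *ᵥ y) + l * sq y) ≤ rho A l i * rho A l' i :=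
    mul_le_mul_of_nonneg_left h4 (rho_nonneg A hl i)
  have h6 : rho A l' i * rho A l' i ≤ rho A l i * rho A l' i := by nlinarith
  exact le_of_mul_le_mul_right h6 h0

/-- spectral theorem for symmetric real matrices, elementary form -/
theorem D9_spec (G : Matrix m m ℝ) (hG : Gᵀ = G) :
    ∃ (u : m → m → ℝ) (g : m → ℝ), (∀ j, G *ᵥ u j = g j • u j) ∧
      (∀ i j, u i ⬝ᵥ u j = if i = j then 1 else 0) ∧
      ∀ x : m → ℝ, ∑ j, (u j ⬝ᵥ x) • u j = x := by
  have hA : G.IsHermitian := by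
    rw [IsHermitian, conjTranspose_eq_transpose_of_trivial, hG]
  set b := hA.eigenvectorBasis with hb
  refine ⟨fun j => ⇑(b j), hA.eigenvalues, fun j => hA.mulVec_eigenvectorBasis j, ?_, ?_⟩
  · intro i j
    have h := (orthonormal_iff_ite.1 b.orthonormal) i j
    rw [EuclideanSpace.inner_eq_star_dotProduct] at h
    rw [← h, dotProduct_comm]
    rfl
  · intro x
    have h := b.sum_repr' (WithLp.toLp 2 x)
    have h2 := congrArg (fun z => WithLp.ofLp z) h
    simp only [WithLp.ofLp_sum, WithLp.ofLp_smul] at h2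
    refine Eq.trans (Finset.sum_congr rfl fun j _ => ?_) h2
    congr 1
    rw [EuclideanSpace.inner_eq_star_dotProduct, dotProduct_comm]
    rfl

/-- scores under a head condition -/
theorem rho_head (A : Matrix m n ℝ) {k : ℕ} {t : ℝ} (ht : 0 ≤ t) (h : Head A k t) :
    ∃ h : m → ℝ, (∀ i, 0 ≤ h i ∧ h i ≤ 1) ∧ ∑ i, h i ≤ k ∧
      ∀ l, 0 < l → ∀ i, rho A l i ≤ h i + t / l := by
  classical
  obtain ⟨u, g, hu, ho, hs⟩ := D9_spec (A * Aᵀ) (by rw [transpose_mul, transpose_transpose])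
  have hpar : ∀ x y : m → ℝ, x ⬝ᵥ y = ∑ j, (u j ⬝ᵥ x) * (u j ⬝ᵥ y) := by
    intro x y
    conv_lhs => rw [← hs x]
    rw [sum_dotProduct]
    refine Finset.sum_congr rfl fun j _ => ?_
    rw [smul_dotProduct, smul_eq_mul]
  set J : Finset m := Finset.univ.filter fun j => t < g j with hJ
  have hg : ∀ j, g j = sq (Aᵀ *ᵥ u j) := by
    intro j
    have h1 : u j ⬝ᵥ ((A * Aᵀ) *ᵥ u j) = g j := by
      rw [hu, dotProduct_smul, ho, if_pos rfl, smul_eq_mul, mul_one]
    rw [← h1, ← mulVec_mulVec, dotProduct_mulVec, D9_sq_dot, mulVec_transpose]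
  have hcard : J.card ≤ k := by
    by_contra hc
    push Not at hc
    obtain ⟨V, hV, hVx⟩ := h
    -- the map from coefficients on J to the dual of V
    let F : (J → ℝ) →ₗ[ℝ] (V →ₗ[ℝ] ℝ) :=
      { toFun := fun c =>
          { toFun := fun v => (v : n → ℝ) ⬝ᵥ (Aᵀ *ᵥ (∑ j : J, c j • u j))
            map_add' := fun v w => by
              simp only [Submodule.coe_add, add_dotProduct]
            map_smul' := fun r v => by
              simp only [Submodule.coe_smul, smul_dotProduct, RingHom.id_apply] }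
        map_add' := fun c d => by
          ext v
          simp only [Pi.add_apply, add_smul, Finset.sum_add_distrib, mulVec_add, dotProduct_add,
            LinearMap.coe_mk, AddHom.coe_mk, LinearMap.add_apply]
        map_smul' := fun r c => by
          ext v
          simp only [Pi.smul_apply, smul_eq_mul, mul_smul, ← Finset.smul_sum, mulVec_smul,
            dotProduct_smul, LinearMap.coe_mk, AddHom.coe_mk, RingHom.id_apply,
            LinearMap.smul_apply] }
    have hdim : Module.finrank ℝ (V →ₗ[ℝ] ℝ) < Module.finrank ℝ (J → ℝ) := by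
      rw [Module.finrank_fintype_fun_eq_card, Fintype.card_coe]
      have h1 : Module.finrank ℝ (V →ₗ[ℝ] ℝ) = Module.finrank ℝ V :=
        Subspace.dual_finrank_eq
      omega
    obtain ⟨c, hc0, hc1⟩ := (Submodule.ne_bot_iff _).1
      (LinearMap.ker_ne_bot_of_finrank_lt hdim (f := F))
    set y : m → ℝ := ∑ j : J, c j • u j with hy
    have hyj : ∀ i : m, u i ⬝ᵥ y = if hi : i ∈ J then c ⟨i, hi⟩ else 0 := by
      intro i
      rw [hy, dotProduct_sum]
      simp only [dotProduct_smul, ho, smul_eq_mul, mul_ite, mul_one, mul_zero]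
      by_cases hi : i ∈ J
      · rw [dif_pos hi, Finset.sum_eq_single (⟨i, hi⟩ : J)]
        · simp
        · intro b _ hb
          rw [if_neg]
          intro hib
          exact hb (Subtype.ext hib.symm)
        · intro h; exact absurd (Finset.mem_univ _) h
      · rw [dif_neg hi]
        refine Finset.sum_eq_zero fun b _ => ?_
        rw [if_neg]
        intro hib
        exact hi (hib ▸ b.2)
    have hx := hVx (Aᵀ *ᵥ y) (fun v hv => by
      have h1 : F c = 0 := hc0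
      have h2 := LinearMap.congr_fun h1 ⟨v, hv⟩
      exact h2)
    have e1 : sq (Aᵀ *ᵥ y) = ∑ j, g j * (u j ⬝ᵥ y) ^ 2 := by
      have h1 : sq (Aᵀ *ᵥ y) = y ⬝ᵥ ((A * Aᵀ) *ᵥ y) := by
        rw [← mulVec_mulVec, dotProduct_mulVec, D9_sq_dot, mulVec_transpose]
      rw [h1, hpar]
      refine Finset.sum_congr rfl fun j _ => ?_
      have h2 : u j ⬝ᵥ ((A * Aᵀ) *ᵥ y) = g j * (u j ⬝ᵥ y) := by
        have h3 : (A * Aᵀ)ᵀ = A * Aᵀ := by rw [transpose_mul, transpose_transpose]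
        rw [dotProduct_mulVec, ← mulVec_transpose, h3, hu, smul_dotProduct, smul_eq_mul]
      rw [h2]; ring
    have e2 : sq (A *ᵥ (Aᵀ *ᵥ y)) = ∑ j, g j ^ 2 * (u j ⬝ᵥ y) ^ 2 := by
      rw [mulVec_mulVec, D9_sq_dot, hpar]
      refine Finset.sum_congr rfl fun j _ => ?_
      have h2 : u j ⬝ᵥ ((A * Aᵀ) *ᵥ y) = g j * (u j ⬝ᵥ y) := by
        have h3 : (A * Aᵀ)ᵀ = A * Aᵀ := by rw [transpose_mul, transpose_transpose]
        rw [dotProduct_mulVec, ← mulVec_transpose, h3, hu, smul_dotProduct, smul_eq_mul]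
      rw [h2]; ring
    rw [e1, e2, Finset.mul_sum] at hx
    have hlt : ∑ j, t * (g j * (u j ⬝ᵥ y) ^ 2) < ∑ j, g j ^ 2 * (u j ⬝ᵥ y) ^ 2 := by
      have hne : ∃ j : J, c j ≠ 0 := by
        by_contra hcc
        push Not at hcc
        exact hc1 (funext hcc)
      obtain ⟨j0, hj0⟩ := hne
      refine Finset.sum_lt_sum (fun j _ => ?_) ⟨(j0 : m), Finset.mem_univ _, ?_⟩
      · rw [hyj]
        by_cases hj : j ∈ J
        · rw [dif_pos hj]
          have h1 : t < g j := (Finset.mem_filter.1 hj).2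
          have h2 : 0 ≤ c ⟨j, hj⟩ ^ 2 := pow_two_nonneg _
          have h3 : 0 ≤ g j := ht.trans h1.le
          have h4 : t * g j ≤ g j ^ 2 := by nlinarith
          calc t * (g j * c ⟨j, hj⟩ ^ 2) = (t * g j) * c ⟨j, hj⟩ ^ 2 := by ring
            _ ≤ g j ^ 2 * c ⟨j, hj⟩ ^ 2 := mul_le_mul_of_nonneg_right h4 h2
        · rw [dif_neg hj]
          simp
      · rw [hyj, dif_pos j0.2]
        have h1 : t < g j0 := (Finset.mem_filter.1 j0.2).2
        have h2 : 0 < c ⟨j0, j0.2⟩ ^ 2 := by positivity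
        have h3 : 0 < g j0 := lt_of_le_of_lt ht h1
        have h4 : t * g j0 < g j0 ^ 2 := by nlinarith
        calc t * (g j0 * c ⟨j0, j0.2⟩ ^ 2) = (t * g j0) * c ⟨j0, j0.2⟩ ^ 2 := by ring
          _ < g j0 ^ 2 * c ⟨j0, j0.2⟩ ^ 2 := mul_lt_mul_of_pos_right h4 h2
    linarith
  have hone : ∀ i, ∑ j, u j i ^ 2 = 1 := by
    intro i
    have h1 := hpar (Pi.single i 1) (Pi.single i 1)
    simp only [dotProduct_single, mul_one, Pi.single_eq_same] at h1
    rw [h1]
    exact Finset.sum_congr rfl fun j _ => by ring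
  refine ⟨fun i => ∑ j ∈ J, u j i ^ 2, ?_, ?_, ?_⟩
  · intro i
    refine ⟨Finset.sum_nonneg fun j _ => pow_two_nonneg _, ?_⟩
    rw [← hone i]
    exact Finset.sum_le_sum_of_subset_of_nonneg (Finset.subset_univ _)
      fun j _ _ => pow_two_nonneg _
  · rw [Finset.sum_comm]
    have h1 : ∀ j ∈ J, ∑ i, u j i ^ 2 = 1 := by
      intro j _
      have := ho j j
      rw [if_pos rfl] at this
      rw [← this]
      simp [dotProduct, pow_two]
    rw [Finset.sum_congr rfl h1, Finset.sum_const, nsmul_eq_mul, mul_one]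
    exact_mod_cast hcard
  · intro l hl i
    -- rho is a sum over the spectral basis
    have hW : ∀ j, (A * (gram A l)⁻¹ * Aᵀ) *ᵥ u j = (g j / (g j + l)) • u j := by
      intro j
      have hgl : 0 < g j + l := by
        have := D9_sq_nonneg (Aᵀ *ᵥ u j)
        rw [← hg] at this
        linarith
      have h1 : gram A l *ᵥ (Aᵀ *ᵥ u j) = (g j + l) • (Aᵀ *ᵥ u j) := by
        rw [gram, add_mulVec, smul_mulVec, one_mulVec, mulVec_mulVec,
          Matrix.mul_assoc, ← mulVec_mulVec, hu, mulVec_smul, add_smul]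
      have h2 : (gram A l)⁻¹ *ᵥ (Aᵀ *ᵥ u j) = (g j + l)⁻¹ • (Aᵀ *ᵥ u j) := by
        have h3 : (gram A l)⁻¹ * gram A l = 1 :=
          nonsing_inv_mul _ ((isUnit_iff_isUnit_det _).1 (D9_posDef A hl).isUnit)
        have h4 := congrArg (fun z => (g j + l)⁻¹ • ((gram A l)⁻¹ *ᵥ z)) h1
        simp only [mulVec_mulVec, mulVec_smul, smul_smul] at h4
        rw [← Matrix.mul_assoc, h3, Matrix.one_mul, inv_mul_cancel₀ hgl.ne', one_smul] at h4
        rw [mulVec_mulVec]
        exact h4.symm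
      rw [← mulVec_mulVec, ← mulVec_mulVec, h2, mulVec_smul, mulVec_mulVec, hu, smul_smul,
        div_eq_inv_mul]
    have hr : rho A l i = ∑ j, (g j / (g j + l)) * u j i ^ 2 := by
      have h1 : rho A l i = (Pi.single i 1 : m → ℝ) ⬝ᵥ
          ((A * (gram A l)⁻¹ * Aᵀ) *ᵥ (Pi.single i 1)) := by
        rw [mulVec_single_one, single_dotProduct, one_mul]
        rfl
      rw [h1, hpar]
      refine Finset.sum_congr rfl fun j _ => ?_
      have hP : (A * (gram A l)⁻¹ * Aᵀ)ᵀ = A * (gram A l)⁻¹ * Aᵀ := by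
        rw [transpose_mul, transpose_mul, transpose_transpose, D9_inv_T, Matrix.mul_assoc]
      rw [dotProduct_mulVec, ← mulVec_transpose, hP, hW, smul_dotProduct, smul_eq_mul,
        dotProduct_single, mul_one]
      ring
    rw [hr]
    have hsplit : ∑ j, (g j / (g j + l)) * u j i ^ 2 ≤
        ∑ j, ((if j ∈ J then u j i ^ 2 else 0) + t / l * u j i ^ 2) := by
      refine Finset.sum_le_sum fun j _ => ?_
      have hg0 : 0 ≤ g j := by
        rw [hg]; exact D9_sq_nonneg _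
      have hu0 : 0 ≤ u j i ^ 2 := pow_two_nonneg _
      by_cases hj : j ∈ J
      · rw [if_pos hj]
        have h1 : g j / (g j + l) ≤ 1 := by
          rw [div_le_one (by linarith)]
          linarith
        have h2 : 0 ≤ t / l * u j i ^ 2 := by positivity
        nlinarith
      · rw [if_neg hj, zero_add]
        have h1 : g j ≤ t := by
          by_contra hc
          push Not at hc
          exact hj (Finset.mem_filter.2 ⟨Finset.mem_univ _, hc⟩)
        have h2 : g j / (g j + l) ≤ t / l := by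
          rw [div_le_div_iff₀ (by linarith) hl]
          nlinarith
        exact mul_le_mul_of_nonneg_right h2 hu0
    refine hsplit.trans ?_
    rw [Finset.sum_add_distrib, ← Finset.mul_sum, hone, mul_one, Finset.sum_ite_mem,
      Finset.univ_inter]

end D9

end A56
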