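import Pool.Agent.Lib_helper50.A56.FDefs
/-!
# MP_a55cb8, block F1a: the weight of the algorithm in numbers (helper89)
-/

open Matrix Finset

namespace A56

/-- counting a decreasing predicate -/
theorem f1a_count (P : ℕ → Prop) [DecidablePred P] (hP : ∀ i, P (i + 1) → P i) (L : ℕ) :
    ((∑ i ∈ range L, if P i then 1 else 0) = L ∧ ∀ i < L, P i) ∨
    ((∑ i ∈ range L, if P i then 1 else 0) < L ∧
      ¬ P (∑ i ∈ range L, if P i then 1 else 0) ∧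
      ((∑ i ∈ range L, if P i then 1 else 0) = 0 ∨
        P ((∑ i ∈ range L, if P i then 1 else 0) - 1))) := by
  have mono : ∀ i j, i ≤ j → P j → P i := by
    intro i j hij
    induction hij with
    | refl => exact id
    | step _ ih => exact fun h => ih (hP _ h)
  induction L with
  | zero =>
    left
    simp
  | succ L ih =>
    rw [sum_range_succ]
    rcases ih with ⟨h1, h2⟩ | ⟨h1, h2, h3⟩
    · rw [h1]
      by_cases h : P L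
      · left
        rw [if_pos h]
        refine ⟨rfl, fun i hi => ?_⟩
        rcases Nat.lt_succ_iff_lt_or_eq.1 hi with h' | h'
        · exact h2 i h'
        · exact h' ▸ h
      · right
        rw [if_neg h, add_zero]
        refine ⟨Nat.lt_succ_self _, h, ?_⟩
        rcases Nat.eq_zero_or_pos L with h0 | h0
        · exact Or.inl h0
        · exact Or.inr (h2 _ (by omega))
    · right
      have h : ¬ P L := fun h => h2 (mono _ _ h1.le h)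
      rw [if_neg h, add_zero]
      exact ⟨h1.trans (Nat.lt_succ_self _), h2, h3⟩

section nat

variable {c : Cst} (x : InT.den)

theorem f1a_l (hc : Big c) : 10 ^ 6 ≤ pl c x := hc.c1.trans (Nat.le_add_left _ _)

theorem f1a_log (hc : Big c) : 1 ≤ Nat.log2 (pl c x) := by
  have h := f1a_l x hc
  exact (Nat.le_log2 (by omega)).2 (by omega)

theorem f1a_pow_le (hc : Big c) : pl c x ^ c.ct ≤ pK c x := by
  have h := f1a_l x hc
  have h1 := f1a_log x hc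
  have h2 : pl c x ≤ 4 ^ Nat.log2 (pl c x) := by
    refine (Nat.lt_log2_self (n := pl c x)).le.trans ?_
    rw [show (4 : ℕ) = 2 ^ 2 by norm_num, ← pow_mul]
    exact Nat.pow_le_pow_right (by norm_num) (by omega)
  unfold pK ptau
  calc pl c x ^ c.ct ≤ (4 ^ Nat.log2 (pl c x)) ^ c.ct := Nat.pow_le_pow_left h2 _
    _ = 4 ^ (c.ct * Nat.log2 (pl c x)) := by rw [← pow_mul, Nat.mul_comm]

theorem f1a_K_le (hc : Big c) : pK c x ≤ pl c x ^ (2 * c.ct) := by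
  have h := f1a_l x hc
  have h2 : 2 ^ Nat.log2 (pl c x) ≤ pl c x := Nat.log2_self_le (by omega)
  unfold pK ptau
  calc 4 ^ (c.ct * Nat.log2 (pl c x)) = (2 ^ Nat.log2 (pl c x)) ^ (2 * c.ct) := by
        rw [show (4 : ℕ) = 2 ^ 2 by norm_num, ← pow_mul, ← pow_mul]
        congr 1
        ring
    _ ≤ _ := Nat.pow_le_pow_left h2 _

/-- `ρ₀ ≤ l^15 2^τ` -/
theorem f1a_rho (hc : Big c) {C : ℕ} (hC : C ≤ c.c1) :
    rho0 C c x ≤ pl c x ^ 15 * 2 ^ ptau c x := by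
  have h := f1a_l x hc
  have hCl : C ≤ pl c x := hC.trans (Nat.le_add_left _ _)
  unfold rho0 pdegK pdeg1 pt
  set l := pl c x with hl
  set S := 2 ^ ptau c x with hS
  have hS1 : 1 ≤ S := Nat.one_le_two_pow
  have h5 : 1 ≤ l ^ 5 := Nat.one_le_pow _ _ (by omega)
  have h6 : 1 ≤ l ^ 6 := Nat.one_le_pow _ _ (by omega)
  have a1 : l * (2 * l ^ 5 + 2) + 2 ≤ 6 * l ^ 6 := by
    have : l * (2 * l ^ 5 + 2) ≤ l * (4 * l ^ 5) := Nat.mul_le_mul_left _ (by omega)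
    have e : l * (4 * l ^ 5) = 4 * l ^ 6 := by ring
    omega
  have a2 : l * S * (2 * l ^ 5 + 2) + 2 ≤ 6 * l ^ 6 * S := by
    have : l * S * (2 * l ^ 5 + 2) ≤ l * S * (4 * l ^ 5) := Nat.mul_le_mul_left _ (by omega)
    have e : l * S * (4 * l ^ 5) = 4 * (l ^ 6 * S) := by ring
    have e2 : 6 * l ^ 6 * S = 6 * (l ^ 6 * S) := by ring
    have h7 : 1 ≤ l ^ 6 * S := Nat.mul_le_mul h6 hS1
    omega
  calc C ^ 2 * (l * S * (2 * l ^ 5 + 2) + 2) * (l * (2 * l ^ 5 + 2) + 2)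
      ≤ l ^ 2 * (6 * l ^ 6 * S) * (6 * l ^ 6) :=
        Nat.mul_le_mul (Nat.mul_le_mul (Nat.pow_le_pow_left hCl _) a2) a1
    _ = 36 * (l ^ 14 * S) := by ring
    _ ≤ l * (l ^ 14 * S) := Nat.mul_le_mul_right _ (by omega)
    _ = l ^ 15 * S := by ring

theorem f1a_K_sq : pK c x = 2 ^ ptau c x * 2 ^ ptau c x := by
  unfold pK
  rw [show (4 : ℕ) = 2 * 2 by norm_num, mul_pow]

theorem f1a_rho_le (hc : Big c) {C : ℕ} (hC : C ≤ c.c1) (ht : 30 ≤ c.ct) :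
    rho0 C c x ≤ pK c x := by
  have h := f1a_l x hc
  refine (f1a_rho x hc hC).trans ?_
  rw [f1a_K_sq]
  refine Nat.mul_le_mul_right _ ?_
  have h1 := f1a_pow_le x hc
  rw [f1a_K_sq] at h1
  have h2 : pl c x ^ 15 * pl c x ^ 15 ≤ 2 ^ ptau c x * 2 ^ ptau c x := by
    refine le_trans ?_ h1
    rw [← pow_add]
    exact Nat.pow_le_pow_right (by omega) (by omega)
  exact Nat.mul_self_le_mul_self_iff.1 h2

theorem f1a_bA (hc : Big c) (hN : x.2.1 ≤ x.1.1 ^ 2) (h1 : 1 ≤ x.2.2.1 * x.1.2) :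
    x.2.1 ^ 2 ≤ pK c x ^ (3 * pbA c x) * (x.2.2.1 * x.1.2) ^ 2 ∧
      ∀ i < pbA c x, pK c x ^ (3 * i) * (x.2.2.1 * x.1.2) ^ 2 < x.2.1 ^ 2 := by
  have hK1 : 1 ≤ pK c x := Nat.one_le_pow _ _ (by norm_num)
  have hmono : ∀ i, pK c x ^ (3 * (i + 1)) * (x.2.2.1 * x.1.2) ^ 2 < x.2.1 ^ 2 →
      pK c x ^ (3 * i) * (x.2.2.1 * x.1.2) ^ 2 < x.2.1 ^ 2 := by
    intro i hi
    refine lt_of_le_of_lt ?_ hi
    exact Nat.mul_le_mul_right _ (Nat.pow_le_pow_right hK1 (by omega))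
  have hmono2 : ∀ i j, i ≤ j → pK c x ^ (3 * j) * (x.2.2.1 * x.1.2) ^ 2 < x.2.1 ^ 2 →
      pK c x ^ (3 * i) * (x.2.2.1 * x.1.2) ^ 2 < x.2.1 ^ 2 := by
    intro i j hij hj
    refine lt_of_le_of_lt ?_ hj
    exact Nat.mul_le_mul_right _ (Nat.pow_le_pow_right hK1 (by omega))
  rcases f1a_count (fun i => pK c x ^ (3 * i) * (x.2.2.1 * x.1.2) ^ 2 < x.2.1 ^ 2) hmono
    (pl c x) with ⟨-, h⟩ | ⟨-, h2, h3⟩
  · exfalso
    have hl := f1a_l x hc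
    have h4 := h (pl c x - 1) (by omega)
    refine absurd h4 (not_lt.2 ?_)
    have h5 : x.2.1 ^ 2 ≤ 4 ^ (2 * (Nat.log2 x.1.1 + 1)) := by
      calc x.2.1 ^ 2 ≤ (x.1.1 ^ 2) ^ 2 := Nat.pow_le_pow_left hN _
        _ ≤ ((2 ^ (Nat.log2 x.1.1 + 1)) ^ 2) ^ 2 :=
          Nat.pow_le_pow_left (Nat.pow_le_pow_left (Nat.lt_log2_self (n := x.1.1)).le _) _
        _ = 4 ^ (2 * (Nat.log2 x.1.1 + 1)) := by
          rw [show (4 : ℕ) = 2 ^ 2 by norm_num, ← pow_mul, ← pow_mul, ← pow_mul]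
          congr 1
          ring
    refine h5.trans ?_
    have ht : 1 ≤ ptau c x := by
      unfold ptau
      exact Nat.mul_le_mul (show 1 ≤ c.ct by have := hc.ct; omega) (f1a_log x hc)
    have h6 : 4 ^ (2 * (Nat.log2 x.1.1 + 1)) ≤ pK c x ^ (3 * (pl c x - 1)) := by
      unfold pK
      rw [← pow_mul]
      refine Nat.pow_le_pow_right (by norm_num) ?_
      have h7 : Nat.log2 x.1.1 + 1 ≤ pl c x - 1 := by
        have := hc.c1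
        unfold pl
        omega
      calc 2 * (Nat.log2 x.1.1 + 1) ≤ 1 * (3 * (pl c x - 1)) := by omega
        _ ≤ _ := Nat.mul_le_mul_right _ ht
    calc 4 ^ (2 * (Nat.log2 x.1.1 + 1)) ≤ pK c x ^ (3 * (pl c x - 1)) * 1 := by
          rw [mul_one]
          exact h6
      _ ≤ _ := Nat.mul_le_mul_left _ (Nat.one_le_pow _ _ h1)
  · refine ⟨not_lt.1 h2, fun i hi => ?_⟩
    rcases h3 with h3 | h3
    · exact absurd hi (by unfold pbA; rw [h3]; exact Nat.not_lt_zero _)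
    · exact hmono2 i _ (Nat.le_sub_one_of_lt hi) h3

theorem f1a_bB (i : ℕ) (hi : i < pbB c x) :
    pK c x ^ i * x.1.2 < x.1.1 ∧ pK c x ^ (2 * i) * x.1.2 < x.2.1 := by
  have hK1 : 1 ≤ pK c x := Nat.one_le_pow _ _ (by norm_num)
  have hmono2 : ∀ i j, i ≤ j →
      (pK c x ^ j * x.1.2 < x.1.1 ∧ pK c x ^ (2 * j) * x.1.2 < x.2.1) →
      (pK c x ^ i * x.1.2 < x.1.1 ∧ pK c x ^ (2 * i) * x.1.2 < x.2.1) := by
    intro i j hij hj
    exact ⟨lt_of_le_of_lt (Nat.mul_le_mul_right _ (Nat.pow_le_pow_right hK1 hij)) hj.1,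
      lt_of_le_of_lt (Nat.mul_le_mul_right _ (Nat.pow_le_pow_right hK1 (by omega))) hj.2⟩
  have e : pbB c x = ∑ b ∈ range (pl c x),
      if (pK c x ^ b * x.1.2 < x.1.1 ∧ pK c x ^ (2 * b) * x.1.2 < x.2.1) then 1 else 0 := by
    unfold pbB
    refine sum_congr rfl fun b _ => ?_
    by_cases h1 : pK c x ^ b * x.1.2 < x.1.1
    · by_cases h2 : pK c x ^ (2 * b) * x.1.2 < x.2.1
      · rw [if_pos h1, if_pos h2, if_pos ⟨h1, h2⟩]
      · rw [if_pos h1, if_neg h2, if_neg fun h => h2 h.2]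
    · rw [if_neg h1, if_neg fun h => h1 h.1]
  rcases f1a_count (fun i => pK c x ^ i * x.1.2 < x.1.1 ∧ pK c x ^ (2 * i) * x.1.2 < x.2.1)
    (fun i hi => hmono2 i _ (Nat.le_succ i) hi) (pl c x) with ⟨h1, h⟩ | ⟨-, -, h3⟩
  · exact h i (by rw [e, h1] at hi; exact hi)
  · rcases h3 with h3 | h3
    · rw [e, h3] at hi
      exact absurd hi (Nat.not_lt_zero _)
    · rw [e] at hi
      exact hmono2 i _ (Nat.le_sub_one_of_lt hi) h3

/-- all facts about the length of the chain -/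
theorem f1a_bb (hc : Big c) (hN : x.2.1 ≤ x.1.1 ^ 2) (h1 : 1 ≤ x.2.2.1 * x.1.2) :
    (pmd c x ≠ 1 → x.2.1 ^ 2 ≤ pK c x ^ (3 * pbb c x) * (x.2.2.1 * x.1.2) ^ 2) ∧
      (pbb c x = 0 ∨ (pK c x ^ (3 * (pbb c x - 1)) * (x.2.2.1 * x.1.2) ^ 2 < x.2.1 ^ 2 ∧
        pK c x ^ (pbb c x - 1) * x.1.2 < x.1.1 ∧
        pK c x ^ (2 * (pbb c x - 1)) * x.1.2 < x.2.1)) := by
  obtain ⟨a1, a2⟩ := f1a_bA x hc hN h1
  have hA : pbb c x ≤ pbA c x := by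
    unfold pbb
    split_ifs with h
    · omega
    · exact le_rfl
  have hB : pbb c x ≤ pbB c x := by
    unfold pbb
    split_ifs with h
    · exact le_rfl
    · omega
  refine ⟨fun h => ?_, ?_⟩
  · have h2 : ¬ pbB c x < pbA c x + 1 := by
      intro h3
      exact h (by unfold pmd; rw [if_pos h3])
    have h3 : pbb c x = pbA c x := by
      unfold pbb
      rw [if_neg h2]
    rw [h3]
    exact a1
  · rcases Nat.eq_zero_or_pos (pbb c x) with h | h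
    · exact Or.inl h
    · right
      obtain ⟨b1, b2⟩ := f1a_bB (c := c) x (pbb c x - 1) (by omega)
      exact ⟨a2 _ (by omega), b1, b2⟩

/-- the sizes of the multiplications -/
theorem f1a_ps (hc : Big c) (hk : 1 ≤ x.1.2) :
    2 ^ ps c x + 1 ≤ x.1.2 * pl c x ^ (c.cB + 1) := by
  have h := f1a_l x hc
  have hcB := hc.cB
  set l := pl c x with hl
  have hlog : ∀ y : ℕ, 1 ≤ y → 2 ^ (Nat.log2 y + 1) ≤ 2 * y := by
    intro y hy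
    rw [pow_succ, Nat.mul_comm]
    exact Nat.mul_le_mul_left _ (Nat.log2_self_le (by omega))
  have hl7 : 1 ≤ l ^ 7 := Nat.one_le_pow _ _ (by omega)
  have m1 : pm1 c x ≤ 32 * ((x.1.2 + 1) * l ^ 7) := by
    unfold pm1 pb1
    rw [← hl]
    calc l * 2 ^ (Nat.log2 (16 * (x.1.2 + 1) * l ^ 6) + 1)
        ≤ l * (2 * (16 * (x.1.2 + 1) * l ^ 6)) :=
          Nat.mul_le_mul_left _ (hlog _ (Nat.mul_le_mul (Nat.mul_le_mul (by norm_num)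
            (by omega) : 1 * 1 ≤ _) (Nat.one_le_pow _ _ (by omega))))
      _ = _ := by ring
  have m0 : x.1.2 + 1 ≤ (x.1.2 + 1) * l ^ 7 := Nat.le_mul_of_pos_right _ hl7
  have gen : ∀ y : ℕ, 1 ≤ y → y ≤ 33 * ((x.1.2 + 1) * l ^ 7) →
      l * 2 ^ (Nat.log2 (16 * y * l ^ 6) + 1) ≤ 1056 * ((x.1.2 + 1) * l ^ 14) := by
    intro y hy hy2
    calc l * 2 ^ (Nat.log2 (16 * y * l ^ 6) + 1)
        ≤ l * (2 * (16 * y * l ^ 6)) :=
          Nat.mul_le_mul_left _ (hlog _ (Nat.mul_le_mul (Nat.mul_le_mul (by norm_num)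
            hy : 1 * 1 ≤ _) (Nat.one_le_pow _ _ (by omega))))
      _ = 32 * l ^ 7 * y := by ring
      _ ≤ 32 * l ^ 7 * (33 * ((x.1.2 + 1) * l ^ 7)) := Nat.mul_le_mul_left _ hy2
      _ = _ := by ring
  have g1 : ∀ n a A : ℕ, a ≤ 32 * A → n + 1 ≤ A → ∀ z, z ≤ a + n + 1 → z ≤ 33 * A := by
    intro n a A h1 h2 z h3
    omega
  have m2 : pm2 c x ≤ 1056 * ((x.1.2 + 1) * l ^ 14) := by
    unfold pm2 pb2
    rw [← hl]
    exact gen _ (by omega) (g1 x.1.2 _ _ m1 m0 _ (by omega))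
  have m3 : pk3 c x ≤ 1056 * ((x.1.2 + 1) * l ^ 14) := by
    unfold pk3 pb3 pkk
    rw [← hl]
    exact gen _ (by omega) (g1 x.1.2 _ _ m1 m0 _ (by omega))
  have hB1 : 1 ≤ l ^ c.cB := Nat.one_le_pow _ _ (by omega)
  have m4 : phcap c x = (x.1.2 + 1) * l ^ c.cB := by
    unfold phcap pBd
    rw [← hl]
    ring
  have m5 : 1056 * ((x.1.2 + 1) * l ^ 14) ≤ (x.1.2 + 1) * l ^ c.cB := by
    calc 1056 * ((x.1.2 + 1) * l ^ 14) = (x.1.2 + 1) * (1056 * l ^ 14) := by ring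
      _ ≤ (x.1.2 + 1) * (l * l ^ 14) :=
        Nat.mul_le_mul_left _ (Nat.mul_le_mul_right _ (by omega))
      _ = (x.1.2 + 1) * l ^ 15 := by ring
      _ ≤ _ := Nat.mul_le_mul_left _ (Nat.pow_le_pow_right (by omega) (by omega))
  have m6 : 1 ≤ (x.1.2 + 1) * l ^ c.cB := Nat.mul_le_mul (Nat.succ_le_succ (Nat.zero_le _) : 1 ≤ x.1.2 + 1) hB1
  unfold ps
  have g2 : ∀ a b d D B : ℕ, a = B → b ≤ 1056 * D → d ≤ 1056 * D → 1056 * D ≤ B → 1 ≤ B →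
      1 ≤ a + b + d ∧ 2 * (a + b + d) ≤ 2 * (3 * B) := by
    intro a b d D B h1 h2 h3 h4 h5
    omega
  have g3 := g2 _ _ _ _ _ m4 m2 m3 m5 m6
  have m7 : 2 ^ (Nat.log2 (phcap c x + pm2 c x + pk3 c x) + 1) ≤
      2 * (3 * ((x.1.2 + 1) * l ^ c.cB)) :=
    (hlog _ g3.1).trans g3.2
  calc 2 ^ (Nat.log2 (phcap c x + pm2 c x + pk3 c x) + 1) + 1
      ≤ 2 * (3 * ((x.1.2 + 1) * l ^ c.cB)) + (x.1.2 + 1) * l ^ c.cB := Nat.add_le_add m7 m6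
    _ = 7 * (x.1.2 + 1) * l ^ c.cB := by ring
    _ ≤ 7 * (2 * x.1.2) * l ^ c.cB := by
      have g4 : ∀ k : ℕ, 1 ≤ k → k + 1 ≤ 2 * k := fun k h => by omega
      exact Nat.mul_le_mul_right _ (Nat.mul_le_mul_left _ (g4 _ hk))
    _ = 14 * (x.1.2 * l ^ c.cB) := by ring
    _ ≤ l * (x.1.2 * l ^ c.cB) := Nat.mul_le_mul_right _ (by omega)
    _ = _ := by ring

end nat

/-! ## real inequalities -/

/-- the bound `Z` of the five terms -/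
noncomputable def f1aZ (φ κ n k N : ℝ) : ℝ :=
  min (min (k * N) (k ^ (3 : ℝ)))
    (min (κ ^ (2 / 3 - φ) * k ^ (5 / 3 - φ) * N ^ (1 / 3 + φ))
      (min (κ * k ^ (3 / 2 - φ) * n ^ (1 / 2 + φ))
        (κ * k ^ (7 / 4 - φ) * N ^ (1 / 4 + φ))))

/-- the inequalities for `G = κ k² (K^b)^(1/2+φ)` -/
theorem f1a_real {φ κ n k N K ρ : ℝ} {b : ℕ} (hφ : 0 < φ) (hφ6 : φ ≤ 1 / 6) (hκ : 1 ≤ κ)
    (hκk : κ ≤ k) (hkn : k ≤ n) (hN : κ * k ≤ N) (hK : 1 ≤ K) (hρ0 : 0 ≤ ρ)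
    (hρ : ρ ≤ K ^ (1 / 2 + φ))
    (h2 : b = 0 ∨ ((K ^ (b - 1)) ^ 3 * (κ * k) ^ 2 < N ^ 2 ∧ K ^ (b - 1) * k < n ∧
      (K ^ (b - 1)) ^ 2 * k < N)) :
    (N ^ 2 ≤ (K ^ b) ^ 3 * (κ * k) ^ 2 → k * (N / K ^ b) ≤ K * (κ * N + f1aZ φ κ n k N)) ∧
    κ * (ρ ^ b * k ^ 2) ≤ K * (κ * N + f1aZ φ κ n k N) := by
  have hκ0 : 0 < κ := by linarith
  have hk0 : 0 < k := by linarith
  have hk1 : 1 ≤ k := by linarith
  have hκk0 : 0 < κ * k := mul_pos hκ0 hk0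
  have hN0 : 0 < N := by linarith
  have hK0 : 0 < K := by linarith
  have hn0 : 0 < n := by linarith
  obtain ⟨R, hR⟩ : ∃ R, N = R * (κ * k) := ⟨N / (κ * k), by field_simp⟩
  obtain ⟨T, hT⟩ : ∃ T, n = T * k := ⟨n / k, by field_simp⟩
  obtain ⟨U, hU⟩ : ∃ U, N = U * k := ⟨N / k, by field_simp⟩
  have hR1 : 1 ≤ R := by
    rw [hR] at hN
    nlinarith
  have hT1 : 1 ≤ T := by
    rw [hT] at hkn
    nlinarith
  have hU1 : 1 ≤ U := by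
    have h3 : U * k = R * κ * k := by rw [← hU, hR]; ring
    have h4 : U = R * κ := mul_right_cancel₀ hk0.ne' h3
    rw [h4]
    nlinarith
  have hR0 : 0 < R := by linarith
  have hT0 : 0 < T := by linarith
  have hU0 : 0 < U := by linarith
  have hB0 : 0 < K ^ b := pow_pos hK0 b
  have hB1 : 1 ≤ K ^ b := one_le_pow₀ hK
  have hKb : b ≠ 0 → K ^ b = K * K ^ (b - 1) := by
    intro hb
    rw [← pow_succ']
    congr 1
    omega
  -- `K^b ≤ K R^(2/3), K T, K U^(1/2)`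
  have hR23 : 1 ≤ R ^ (2 / 3 : ℝ) := Real.one_le_rpow hR1 (by norm_num)
  have hU12 : 1 ≤ U ^ (1 / 2 : ℝ) := Real.one_le_rpow hU1 (by norm_num)
  have b2 : K ^ b ≤ K * R ^ (2 / 3 : ℝ) := by
    rcases Nat.eq_zero_or_pos b with hb | hb
    · rw [hb, pow_zero]
      nlinarith
    · have h3 : (K ^ (b - 1)) ^ 3 * (κ * k) ^ 2 < N ^ 2 := (h2.resolve_left (by omega)).1
      have hB1 : 0 < K ^ (b - 1) := pow_pos hK0 _
      have e : (K ^ (b - 1)) ^ 3 ≤ R ^ 2 := by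
        have h4 : (K ^ (b - 1)) ^ 3 * (κ * k) ^ 2 < R ^ 2 * (κ * k) ^ 2 := by
          rw [← mul_pow R, ← hR]
          exact h3
        exact (lt_of_mul_lt_mul_right h4 (by positivity)).le
      have := Real.rpow_le_rpow (by positivity) e (by norm_num : (0 : ℝ) ≤ 1 / 3)
      rw [← Real.rpow_natCast, ← Real.rpow_natCast R 2, ← Real.rpow_mul hR0.le,
        ← Real.rpow_mul hB1.le] at this
      norm_num at this
      rw [hKb (by omega)]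
      exact mul_le_mul_of_nonneg_left this hK0.le
  have b3 : K ^ b ≤ K * T := by
    rcases Nat.eq_zero_or_pos b with hb | hb
    · rw [hb, pow_zero]
      nlinarith
    · have h3 : K ^ (b - 1) * k < n := (h2.resolve_left (by omega)).2.1
      rw [hT] at h3
      rw [hKb (by omega)]
      exact mul_le_mul_of_nonneg_left (lt_of_mul_lt_mul_right h3 hk0.le).le hK0.le
  have b4 : K ^ b ≤ K * U ^ (1 / 2 : ℝ) := by
    rcases Nat.eq_zero_or_pos b with hb | hb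
    · rw [hb, pow_zero]
      nlinarith
    · have h3 : (K ^ (b - 1)) ^ 2 * k < N := (h2.resolve_left (by omega)).2.2
      rw [hU] at h3
      have hB1 : 0 < K ^ (b - 1) := pow_pos hK0 _
      have e : (K ^ (b - 1)) ^ 2 ≤ U := (lt_of_mul_lt_mul_right h3 hk0.le).le
      have := Real.rpow_le_rpow (by positivity) e (by norm_num : (0 : ℝ) ≤ 1 / 2)
      rw [← Real.rpow_natCast, ← Real.rpow_mul hB1.le] at this
      norm_num at this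
      rw [hKb (by omega)]
      refine mul_le_mul_of_nonneg_left ?_ hK0.le
      norm_num
      exact this
  -- the forms of the terms
  have hX1 : κ ^ (2 / 3 - φ) * k ^ (5 / 3 - φ) * N ^ (1 / 3 + φ) =
      κ * k ^ 2 * R ^ (1 / 3 + φ) := by
    rw [hR, Real.mul_rpow hR0.le hκk0.le, Real.mul_rpow hκ0.le hk0.le]
    have e1 : κ ^ (2 / 3 - φ) * κ ^ (1 / 3 + φ) = κ := by
      rw [← Real.rpow_add hκ0]
      norm_num
    have e2 : k ^ (5 / 3 - φ) * k ^ (1 / 3 + φ) = k ^ 2 := by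
      rw [← Real.rpow_add hk0, ← Real.rpow_natCast]
      norm_num
    calc κ ^ (2 / 3 - φ) * k ^ (5 / 3 - φ) * (R ^ (1 / 3 + φ) * (κ ^ (1 / 3 + φ) *
          k ^ (1 / 3 + φ))) = (κ ^ (2 / 3 - φ) * κ ^ (1 / 3 + φ)) *
            (k ^ (5 / 3 - φ) * k ^ (1 / 3 + φ)) * R ^ (1 / 3 + φ) := by ring
      _ = _ := by rw [e1, e2]
  have hX2 : κ * k ^ (3 / 2 - φ) * n ^ (1 / 2 + φ) = κ * k ^ 2 * T ^ (1 / 2 + φ) := by
    rw [hT, Real.mul_rpow hT0.le hk0.le]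
    have e2 : k ^ (3 / 2 - φ) * k ^ (1 / 2 + φ) = k ^ 2 := by
      rw [← Real.rpow_add hk0, ← Real.rpow_natCast]
      norm_num
    calc κ * k ^ (3 / 2 - φ) * (T ^ (1 / 2 + φ) * k ^ (1 / 2 + φ)) =
          κ * (k ^ (3 / 2 - φ) * k ^ (1 / 2 + φ)) * T ^ (1 / 2 + φ) := by ring
      _ = _ := by rw [e2]
  have hX3 : κ * k ^ (7 / 4 - φ) * N ^ (1 / 4 + φ) = κ * k ^ 2 * U ^ (1 / 4 + φ) := by
    rw [hU, Real.mul_rpow hU0.le hk0.le]
    have e2 : k ^ (7 / 4 - φ) * k ^ (1 / 4 + φ) = k ^ 2 := by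
      rw [← Real.rpow_add hk0, ← Real.rpow_natCast]
      norm_num
    calc κ * k ^ (7 / 4 - φ) * (U ^ (1 / 4 + φ) * k ^ (1 / 4 + φ)) =
          κ * (k ^ (7 / 4 - φ) * k ^ (1 / 4 + φ)) * U ^ (1 / 4 + φ) := by ring
      _ = _ := by rw [e2]
  -- the bounds of `G`
  have hKφ : K ^ (1 / 2 + φ) ≤ K := by
    calc K ^ (1 / 2 + φ) ≤ K ^ (1 : ℝ) :=
          Real.rpow_le_rpow_of_exponent_le hK (by linarith)
      _ = K := Real.rpow_one K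
  have hgen : ∀ S : ℝ, 1 ≤ S → ∀ p q : ℝ, 0 ≤ p → p * (1 / 2 + φ) ≤ q →
      K ^ b ≤ K * S ^ p → (K ^ b) ^ (1 / 2 + φ) ≤ K * S ^ q := by
    intro S hS p q hp hpq h
    have hS0 : 0 < S := by linarith
    calc (K ^ b) ^ (1 / 2 + φ) ≤ (K * S ^ p) ^ (1 / 2 + φ) :=
          Real.rpow_le_rpow hB0.le h (by positivity)
      _ = K ^ (1 / 2 + φ) * S ^ (p * (1 / 2 + φ)) := by
        rw [Real.mul_rpow hK0.le (by positivity), ← Real.rpow_mul hS0.le]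
      _ ≤ K * S ^ q := by
        refine mul_le_mul hKφ ?_ (by positivity) hK0.le
        exact Real.rpow_le_rpow_of_exponent_le hS hpq
  have c1 : (K ^ b) ^ (1 / 2 + φ) ≤ K * R ^ (1 / 3 + φ) :=
    hgen R hR1 (2 / 3) _ (by norm_num) (by linarith) b2
  have c2 : (K ^ b) ^ (1 / 2 + φ) ≤ K * T ^ (1 / 2 + φ) :=
    hgen T hT1 1 _ (by norm_num) (by linarith) (by rw [Real.rpow_one]; exact b3)
  have c3 : (K ^ b) ^ (1 / 2 + φ) ≤ K * U ^ (1 / 4 + φ) :=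
    hgen U hU1 (1 / 2) _ (by norm_num) (by linarith) b4
  set G : ℝ := κ * k ^ 2 * (K ^ b) ^ (1 / 2 + φ) with hG
  have hκk2 : 0 < κ * k ^ 2 := by positivity
  have d1 : G ≤ K * (κ ^ (2 / 3 - φ) * k ^ (5 / 3 - φ) * N ^ (1 / 3 + φ)) := by
    rw [hX1]
    calc G ≤ κ * k ^ 2 * (K * R ^ (1 / 3 + φ)) := mul_le_mul_of_nonneg_left c1 hκk2.le
      _ = _ := by ring
  have d2 : G ≤ K * (κ * k ^ (3 / 2 - φ) * n ^ (1 / 2 + φ)) := by
    rw [hX2]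
    calc G ≤ κ * k ^ 2 * (K * T ^ (1 / 2 + φ)) := mul_le_mul_of_nonneg_left c2 hκk2.le
      _ = _ := by ring
  have d3 : G ≤ K * (κ * k ^ (7 / 4 - φ) * N ^ (1 / 4 + φ)) := by
    rw [hX3]
    calc G ≤ κ * k ^ 2 * (K * U ^ (1 / 4 + φ)) := mul_le_mul_of_nonneg_left c3 hκk2.le
      _ = _ := by ring
  have d4 : G ≤ K * (k * N) := by
    refine d1.trans (mul_le_mul_of_nonneg_left ?_ hK0.le)
    rw [hX1]
    have e1 : R ^ (1 / 3 + φ) ≤ R := by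
      calc R ^ (1 / 3 + φ) ≤ R ^ (1 : ℝ) :=
            Real.rpow_le_rpow_of_exponent_le hR1 (by linarith)
        _ = R := Real.rpow_one R
    calc κ * k ^ 2 * R ^ (1 / 3 + φ) ≤ κ * k ^ 2 * R := mul_le_mul_of_nonneg_left e1 hκk2.le
      _ = k * N := by rw [hR]; ring
  have d5 : G ≤ K * (κ * N + k ^ (3 : ℝ)) := by
    refine d1.trans (mul_le_mul_of_nonneg_left ?_ hK0.le)
    have e6 : κ ^ (2 / 3 - φ) * k ^ (5 / 3 - φ) * N ^ (1 / 3 + φ) ≤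
        (κ * N) ^ (1 / 3 + φ) * (k ^ (3 : ℝ)) ^ (2 / 3 - φ) := by
      rw [Real.mul_rpow hκ0.le hN0.le, ← Real.rpow_mul hk0.le]
      have e7 : κ ^ (2 / 3 - φ) = κ ^ (1 / 3 + φ) * κ ^ (1 / 3 - 2 * φ) := by
        rw [← Real.rpow_add hκ0]
        congr 1
        ring
      have e8 : k ^ (3 * (2 / 3 - φ)) = k ^ (5 / 3 - φ) * k ^ (1 / 3 - 2 * φ) := by
        rw [← Real.rpow_add hk0]
        congr 1
        ring
      have e9 : κ ^ (1 / 3 - 2 * φ) ≤ k ^ (1 / 3 - 2 * φ) :=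
        Real.rpow_le_rpow hκ0.le hκk (by linarith)
      rw [e7, e8]
      calc κ ^ (1 / 3 + φ) * κ ^ (1 / 3 - 2 * φ) * k ^ (5 / 3 - φ) * N ^ (1 / 3 + φ)
          ≤ κ ^ (1 / 3 + φ) * k ^ (1 / 3 - 2 * φ) * k ^ (5 / 3 - φ) * N ^ (1 / 3 + φ) := by
            gcongr
        _ = _ := by ring
    have e10 := Real.geom_mean_le_arith_mean2_weighted (w₁ := 1 / 3 + φ) (w₂ := 2 / 3 - φ)
      (p₁ := κ * N) (p₂ := k ^ (3 : ℝ)) (by positivity) (by linarith) (by positivity)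
      (by positivity) (by ring)
    have h5 : 0 ≤ κ * N := by positivity
    have h6 : 0 ≤ k ^ (3 : ℝ) := by positivity
    have h7 : (1 / 3 + φ) * (κ * N) ≤ 1 * (κ * N) :=
      mul_le_mul_of_nonneg_right (by linarith) h5
    have h8 : (2 / 3 - φ) * k ^ (3 : ℝ) ≤ 1 * k ^ (3 : ℝ) :=
      mul_le_mul_of_nonneg_right (by linarith) h6
    linarith
  have hκN : 0 < κ * N := mul_pos hκ0 hN0
  have hZ : G ≤ K * (κ * N + f1aZ φ κ n k N) := by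
    rw [← div_le_iff₀' hK0] at d1 d2 d3 d4 d5 ⊢
    have e1 : G / K - κ * N ≤ f1aZ φ κ n k N := by
      unfold f1aZ
      refine le_min (le_min ?_ ?_) (le_min ?_ (le_min ?_ ?_)) <;> linarith
    linarith
  refine ⟨fun h1 => le_trans ?_ hZ, le_trans ?_ hZ⟩
  · -- `k N / K^b ≤ κ k² (K^b)^(1/2)`
    have e1 : N ≤ (K ^ b) ^ (3 / 2 : ℝ) * (κ * k) := by
      have e2 : ((K ^ b) ^ (3 / 2 : ℝ) * (κ * k)) ^ 2 = (K ^ b) ^ 3 * (κ * k) ^ 2 := by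
        rw [mul_pow, ← Real.rpow_natCast ((K ^ b) ^ (3 / 2 : ℝ)) 2, ← Real.rpow_mul hB0.le]
        norm_num
      refine le_of_sq_le_sq ?_ (by positivity)
      rw [e2]
      exact h1
    have e3 : (K ^ b) ^ (3 / 2 : ℝ) = (K ^ b) ^ (1 / 2 : ℝ) * K ^ b := by
      nth_rewrite 3 [← Real.rpow_one (K ^ b)]
      rw [← Real.rpow_add hB0]
      norm_num
    have e4 : N / K ^ b ≤ (K ^ b) ^ (1 / 2 : ℝ) * (κ * k) := by
      rw [div_le_iff₀ hB0]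
      refine e1.trans (le_of_eq ?_)
      rw [e3]
      ring
    have e5 : (K ^ b) ^ (1 / 2 : ℝ) ≤ (K ^ b) ^ (1 / 2 + φ) :=
      Real.rpow_le_rpow_of_exponent_le hB1 (by linarith)
    calc k * (N / K ^ b) ≤ k * ((K ^ b) ^ (1 / 2 : ℝ) * (κ * k)) := by gcongr
      _ = κ * k ^ 2 * (K ^ b) ^ (1 / 2 : ℝ) := by ring
      _ ≤ G := mul_le_mul_of_nonneg_left e5 hκk2.le
  · have e4 : ρ ^ b ≤ (K ^ b) ^ (1 / 2 + φ) := by
      calc ρ ^ b ≤ (K ^ (1 / 2 + φ)) ^ b := pow_le_pow_left₀ hρ0 hρ b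
        _ = _ := by
          rw [← Real.rpow_natCast, ← Real.rpow_mul hK0.le, ← Real.rpow_natCast K b,
            ← Real.rpow_mul hK0.le, mul_comm]
    calc κ * (ρ ^ b * k ^ 2) = κ * k ^ 2 * ρ ^ b := by ring
      _ ≤ G := mul_le_mul_of_nonneg_left e4 hκk2.le

/-- the multiplication terms -/
theorem f1a_mul {w : ℝ} (h2 : 2 ≤ w) (h3 : w ≤ 3) {k l M c0 B P : ℕ} (hl : 10 ^ 6 ≤ l)
    (hk : 1 ≤ k) (hM : (M : ℝ) ≤ c0 * ((P : ℝ) + 1) ^ w) (hP : P + 1 ≤ 4 * (k * l ^ (B + 1))) :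
    (M : ℝ) ≤ 64 * (l : ℝ) ^ (c0 + 3 * (B + 1)) * (k : ℝ) ^ w := by
  have hkR : (1 : ℝ) ≤ k := by exact_mod_cast hk
  have hlR : (10 : ℝ) ^ 6 ≤ l := by exact_mod_cast hl
  have hl1 : (1 : ℝ) ≤ l := by linarith
  have hPR : (P : ℝ) + 1 ≤ 4 * ((k : ℝ) * (l : ℝ) ^ (B + 1)) := by exact_mod_cast hP
  have hL1 : (1 : ℝ) ≤ (l : ℝ) ^ (B + 1) := one_le_pow₀ hl1
  have e0 : (4 : ℝ) ^ w ≤ 64 := by
    calc (4 : ℝ) ^ w ≤ (4 : ℝ) ^ (3 : ℝ) :=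
          Real.rpow_le_rpow_of_exponent_le (by norm_num) h3
      _ = 64 := by
        rw [show (3 : ℝ) = ((3 : ℕ) : ℝ) by norm_num, Real.rpow_natCast]
        norm_num
  have e1 : ((P : ℝ) + 1) ^ w ≤ 64 * ((k : ℝ) ^ w * ((l : ℝ) ^ (B + 1)) ^ 3) := by
    calc ((P : ℝ) + 1) ^ w ≤ (4 * ((k : ℝ) * (l : ℝ) ^ (B + 1))) ^ w :=
          Real.rpow_le_rpow (by positivity) hPR (by linarith)
      _ = (4 : ℝ) ^ w * ((k : ℝ) ^ w * ((l : ℝ) ^ (B + 1)) ^ w) := by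
        rw [Real.mul_rpow (by norm_num) (by positivity),
          Real.mul_rpow (by positivity) (by positivity)]
      _ ≤ 64 * ((k : ℝ) ^ w * ((l : ℝ) ^ (B + 1)) ^ (3 : ℝ)) := by
        refine mul_le_mul e0 ?_ (by positivity) (by norm_num)
        refine mul_le_mul_of_nonneg_left ?_ (by positivity)
        exact Real.rpow_le_rpow_of_exponent_le hL1 h3
      _ = _ := by
        congr 2
        exact_mod_cast Real.rpow_natCast ((l : ℝ) ^ (B + 1)) 3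
  have e2 : (c0 : ℝ) ≤ (l : ℝ) ^ c0 := by
    have : c0 ≤ l ^ c0 := (Nat.lt_pow_self (by omega)).le
    exact_mod_cast this
  calc (M : ℝ) ≤ c0 * ((P : ℝ) + 1) ^ w := hM
    _ ≤ (l : ℝ) ^ c0 * (64 * ((k : ℝ) ^ w * ((l : ℝ) ^ (B + 1)) ^ 3)) := by gcongr
    _ = 64 * (l : ℝ) ^ (c0 + 3 * (B + 1)) * (k : ℝ) ^ w := by ring

/-- the final numeric inequality -/
theorem f1a_T {w φ : ℝ} (h2 : 2 ≤ w) (h3 : w ≤ 3) (hφ : 0 < φ) (hφ6 : φ ≤ 1 / 6)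
    {κ n k N q l K b ρ M M2 c0 B t P P2 : ℕ} {p : Prop} [Decidable p] (hl : 10 ^ 6 ≤ l)
    (hκ : 1 ≤ κ) (hκk : κ < k) (hkn : k < n)
    (hN : κ * k ≤ N) (hK : 1 ≤ K) (hK2 : K ≤ l ^ (2 * t))
    (hρ : (ρ : ℝ) ≤ (K : ℝ) ^ (1 / 2 + φ)) (hb1 : ¬ p → N ^ 2 ≤ K ^ (3 * b) * (κ * k) ^ 2)
    (hb2 : b = 0 ∨ (K ^ (3 * (b - 1)) * (κ * k) ^ 2 < N ^ 2 ∧ K ^ (b - 1) * k < n ∧
      K ^ (2 * (b - 1)) * k < N))
    (hM : (M : ℝ) ≤ c0 * ((P : ℝ) + 1) ^ w) (hP : P + 1 ≤ k * l ^ (B + 1))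
    (hM2 : (M2 : ℝ) ≤ c0 * ((P2 : ℝ) + 1) ^ w) (hP2 : P2 + 1 ≤ 4 * (k * l ^ (B + 1))) :
    ((M + (if p then M2 else k * (N / K ^ b + 1)) +
        (κ + 1) * (q + 1) * (ρ ^ b * k ^ 2 + N) : ℕ) : ℝ) ≤
      (l : ℝ) ^ (c0 + 3 * (B + 1) + 2 * t + 1) * (q + 1) * bnd w φ κ n k N := by
  have hκR : (1 : ℝ) ≤ κ := by exact_mod_cast hκ
  have hkR : (κ : ℝ) ≤ k := by exact_mod_cast hκk.le
  have hk1 : (1 : ℝ) ≤ k := hκR.trans hkR
  have hknR : (k : ℝ) ≤ n := by exact_mod_cast hkn.le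
  have hNR : (κ : ℝ) * k ≤ N := by exact_mod_cast hN
  have hKR : (1 : ℝ) ≤ K := by exact_mod_cast hK
  have hlR : (10 : ℝ) ^ 6 ≤ l := by exact_mod_cast hl
  have hl1 : (1 : ℝ) ≤ l := by linarith
  have hl0 : (0 : ℝ) < l := by linarith
  have hK2R : (K : ℝ) ≤ (l : ℝ) ^ (2 * t) := by exact_mod_cast hK2
  have hN0 : (0 : ℝ) ≤ N := Nat.cast_nonneg N
  have hq0 : (0 : ℝ) ≤ q := Nat.cast_nonneg q
  have hn0 : (0 : ℝ) ≤ n := Nat.cast_nonneg n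
  have g1 : ¬ p → (N : ℝ) ^ 2 ≤ ((K : ℝ) ^ b) ^ 3 * ((κ : ℝ) * k) ^ 2 := by
    intro hp
    have : (N : ℝ) ^ 2 ≤ (K : ℝ) ^ (3 * b) * ((κ : ℝ) * k) ^ 2 := by exact_mod_cast hb1 hp
    rwa [Nat.mul_comm, pow_mul] at this
  have g2 : b = 0 ∨ (((K : ℝ) ^ (b - 1)) ^ 3 * ((κ : ℝ) * k) ^ 2 < (N : ℝ) ^ 2 ∧
      (K : ℝ) ^ (b - 1) * k < n ∧ ((K : ℝ) ^ (b - 1)) ^ 2 * k < N) := by
    refine hb2.imp_right fun h => ⟨?_, ?_, ?_⟩
    · have : (K : ℝ) ^ (3 * (b - 1)) * ((κ : ℝ) * k) ^ 2 < (N : ℝ) ^ 2 := by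
        exact_mod_cast h.1
      rwa [Nat.mul_comm, pow_mul] at this
    · exact_mod_cast h.2.1
    · have : (K : ℝ) ^ (2 * (b - 1)) * (k : ℝ) < (N : ℝ) := by exact_mod_cast h.2.2
      rwa [Nat.mul_comm, pow_mul] at this
  obtain ⟨x1, x2⟩ := f1a_real hφ hφ6 hκR hkR hknR hNR hKR (Nat.cast_nonneg ρ) hρ g2
  have hkw : 1 ≤ (k : ℝ) ^ w := Real.one_le_rpow hk1 (by linarith)
  have hkw2 : (k : ℝ) ≤ (k : ℝ) ^ w := by
    calc (k : ℝ) = (k : ℝ) ^ (1 : ℝ) := (Real.rpow_one _).symm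
      _ ≤ _ := Real.rpow_le_rpow_of_exponent_le hk1 (by linarith)
  have hκN : 0 ≤ (κ : ℝ) * N := by positivity
  set Z : ℝ := f1aZ φ κ n k N with hZdef
  have hZ0 : 0 ≤ Z := by
    rw [hZdef]
    unfold f1aZ
    refine le_min (le_min ?_ ?_) (le_min ?_ (le_min ?_ ?_)) <;> positivity
  have hbnd : bnd w φ κ n k N = (k : ℝ) ^ w + κ * N + Z := rfl
  set Y : ℝ := bnd w φ κ n k N with hY
  have hY0 : 0 ≤ Y := by
    rw [hbnd]
    positivity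
  have hkY : (k : ℝ) ^ w ≤ Y := by
    rw [hbnd]
    linarith
  have hZY : (κ : ℝ) * N + Z ≤ Y := by
    rw [hbnd]
    linarith
  set E : ℝ := (l : ℝ) ^ (c0 + 3 * (B + 1) + 2 * t) with hE
  have hEa : (l : ℝ) ^ (c0 + 3 * (B + 1)) ≤ E := pow_le_pow_right₀ hl1 (by omega)
  have hEb : (l : ℝ) ^ (2 * t) ≤ E := pow_le_pow_right₀ hl1 (by omega)
  have hEc : 1 ≤ E := one_le_pow₀ hl1
  have hKE : (K : ℝ) ≤ E := hK2R.trans hEb
  have hZ : 0 ≤ ((q : ℝ) + 1) * Y := by positivity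
  have hYZ : Y ≤ ((q : ℝ) + 1) * Y := by nlinarith
  have hYE : ∀ a : ℝ, a ≤ E → a * Y ≤ E * ((q + 1) * Y) := fun a ha =>
    mul_le_mul ha hYZ hY0 (by linarith)
  -- the three terms
  have q1 : (M : ℝ) ≤ 64 * (E * ((q + 1) * Y)) := by
    calc (M : ℝ) ≤ 64 * (l : ℝ) ^ (c0 + 3 * (B + 1)) * (k : ℝ) ^ w :=
          f1a_mul h2 h3 hl (hκ.trans hκk.le) hM (by omega)
      _ ≤ 64 * ((l : ℝ) ^ (c0 + 3 * (B + 1)) * Y) := by
        rw [mul_assoc]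
        gcongr
      _ ≤ _ := mul_le_mul_of_nonneg_left (hYE _ hEa) (by norm_num)
  have q2 : ((if p then M2 else k * (N / K ^ b + 1) : ℕ) : ℝ) ≤ 64 * (E * ((q + 1) * Y)) := by
    split_ifs with hp
    · calc (M2 : ℝ) ≤ 64 * (l : ℝ) ^ (c0 + 3 * (B + 1)) * (k : ℝ) ^ w :=
            f1a_mul h2 h3 hl (hκ.trans hκk.le) hM2 hP2
        _ ≤ 64 * ((l : ℝ) ^ (c0 + 3 * (B + 1)) * Y) := by
          rw [mul_assoc]
          gcongr
        _ ≤ _ := mul_le_mul_of_nonneg_left (hYE _ hEa) (by norm_num)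
    · push_cast
      have e1 : ((N / K ^ b : ℕ) : ℝ) ≤ (N : ℝ) / (K : ℝ) ^ b := by
        have := @Nat.cast_div_le ℝ _ _ _ N (K ^ b)
        rwa [Nat.cast_pow] at this
      have e2 : (k : ℝ) * (((N / K ^ b : ℕ) : ℝ) + 1) ≤ K * Y + 1 * Y := by
        calc (k : ℝ) * (((N / K ^ b : ℕ) : ℝ) + 1) ≤ k * ((N : ℝ) / (K : ℝ) ^ b + 1) := by
              gcongr
          _ = k * ((N : ℝ) / (K : ℝ) ^ b) + k := by ring
          _ ≤ K * (κ * N + Z) + (k : ℝ) ^ w := add_le_add (x1 (g1 hp)) hkw2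
          _ ≤ K * Y + 1 * Y := by
            rw [one_mul]
            gcongr
      have e3 := hYE _ hKE
      have e4 := hYE _ hEc
      have e5 : 0 ≤ E * ((q + 1) * Y) := mul_nonneg (by linarith) hZ
      linarith
  have q3 : (((κ + 1) * (q + 1) * (ρ ^ b * k ^ 2 + N) : ℕ) : ℝ) ≤ 4 * (E * ((q + 1) * Y)) := by
    push_cast
    have e1 : (κ : ℝ) * ((ρ : ℝ) ^ b * (k : ℝ) ^ 2 + N) ≤ K * (2 * Y) := by
      calc (κ : ℝ) * ((ρ : ℝ) ^ b * (k : ℝ) ^ 2 + N) =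
            κ * ((ρ : ℝ) ^ b * (k : ℝ) ^ 2) + 1 * (κ * N) := by ring
        _ ≤ K * (κ * N + Z) + K * (κ * N) :=
          add_le_add x2 (mul_le_mul_of_nonneg_right hKR hκN)
        _ = K * ((κ * N + Z) + κ * N) := by ring
        _ ≤ _ := by
          refine mul_le_mul_of_nonneg_left ?_ (by linarith)
          linarith
    have e0 : 0 ≤ (ρ : ℝ) ^ b * (k : ℝ) ^ 2 + N := by positivity
    calc ((κ : ℝ) + 1) * (q + 1) * ((ρ : ℝ) ^ b * (k : ℝ) ^ 2 + N)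
        ≤ (2 * κ) * (q + 1) * ((ρ : ℝ) ^ b * (k : ℝ) ^ 2 + N) := by
          gcongr
          linarith
      _ = 2 * (q + 1) * (κ * ((ρ : ℝ) ^ b * (k : ℝ) ^ 2 + N)) := by ring
      _ ≤ 2 * (q + 1) * (K * (2 * Y)) := by gcongr
      _ = 4 * (K * ((q + 1) * Y)) := by ring
      _ ≤ _ := by
        refine mul_le_mul_of_nonneg_left ?_ (by norm_num)
        exact mul_le_mul_of_nonneg_right hKE hZ
  have q4 : 0 ≤ E * ((q + 1) * Y) := mul_nonneg (by linarith) hZ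
  rw [Nat.cast_add, Nat.cast_add]
  calc (M : ℝ) + ((if p then M2 else k * (N / K ^ b + 1) : ℕ) : ℝ) +
        (((κ + 1) * (q + 1) * (ρ ^ b * k ^ 2 + N) : ℕ) : ℝ)
      ≤ 132 * (E * ((q + 1) * Y)) := by linarith
    _ ≤ l * (E * ((q + 1) * Y)) := mul_le_mul_of_nonneg_right (by linarith) q4
    _ = (l : ℝ) ^ (c0 + 3 * (B + 1) + 2 * t + 1) * (q + 1) * Y := by
      rw [hE, pow_succ _ (c0 + 3 * (B + 1) + 2 * t)]
      ring

/-- `ρ₀ ≤ K^(1/2+φ)` -/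
theorem f1a_rhoR {φ : ℝ} {l K S ρ ct : ℕ} (hl : 10 ^ 6 ≤ l) (hct : 1 ≤ ct)
    (hφct : 15 ≤ φ * ct) (hK : K = S * S) (hlK : l ^ ct ≤ K) (hρ : ρ ≤ l ^ 15 * S) :
    (ρ : ℝ) ≤ (K : ℝ) ^ (1 / 2 + φ) := by
  have hct0 : (0 : ℝ) < ct := by exact_mod_cast hct
  have hl0 : (0 : ℝ) < l := by
    have : 0 < l := by omega
    exact_mod_cast this
  have hK1 : 1 ≤ K := (Nat.one_le_pow _ _ (by omega)).trans hlK
  have hKR : (1 : ℝ) ≤ K := by exact_mod_cast hK1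
  have hK0 : (0 : ℝ) < K := by linarith
  have hKS : (K : ℝ) = (S : ℝ) ^ (2 : ℝ) := by
    rw [hK]
    push_cast
    rw [show (2 : ℝ) = ((2 : ℕ) : ℝ) by norm_num, Real.rpow_natCast]
    ring
  have e1 : (S : ℝ) = (K : ℝ) ^ (1 / 2 : ℝ) := by
    rw [hKS, ← Real.rpow_mul (Nat.cast_nonneg S)]
    norm_num
  have e2 : (l : ℝ) ^ 15 ≤ (K : ℝ) ^ φ := by
    have e3 : ((l : ℝ) ^ ct) ≤ K := by exact_mod_cast hlK
    calc (l : ℝ) ^ 15 = ((l : ℝ) ^ ct) ^ (15 / (ct : ℝ)) := by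
          rw [← Real.rpow_natCast (l : ℝ) ct, ← Real.rpow_mul hl0.le, mul_div_cancel₀ _ hct0.ne',
            show (15 : ℝ) = ((15 : ℕ) : ℝ) by norm_num, Real.rpow_natCast]
      _ ≤ (K : ℝ) ^ (15 / (ct : ℝ)) := Real.rpow_le_rpow (by positivity) e3 (by positivity)
      _ ≤ _ := by
        refine Real.rpow_le_rpow_of_exponent_le hKR ?_
        rw [div_le_iff₀ hct0]
        linarith
  have hρR : (ρ : ℝ) ≤ (l : ℝ) ^ 15 * S := by exact_mod_cast hρ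
  calc (ρ : ℝ) ≤ (l : ℝ) ^ 15 * S := hρR
    _ ≤ (K : ℝ) ^ φ * (K : ℝ) ^ (1 / 2 : ℝ) := by
      rw [← e1]
      exact mul_le_mul_of_nonneg_right e2 (Nat.cast_nonneg S)
    _ = _ := by
      rw [← Real.rpow_add hK0]
      congr 1
      ring

theorem wAlg_num (w φ : ℝ) (h2 : 2 ≤ w) (h3 : w ≤ 3) (hφ : 0 < φ) (hφ6 : φ ≤ 1 / 6) (C : ℕ) :
    ∃ ct0 : ℕ, ∀ c : Cst, Big c → ct0 ≤ c.ct → C ≤ c.c1 →
      (∀ x, rho0 C c x ≤ pK c x) ∧
      ∀ c0 : ℕ, ∃ e : ℕ, ∀ (mm : ℕ → ℕ) (x : InT.den), (∀ m, (mm m : ℝ) ≤ c0 * (m + 1 : ℝ) ^ w) →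
        1 ≤ x.2.2.1 → x.2.2.1 < x.1.2 → x.1.2 < x.1.1 → x.1.1 ≤ x.2.1 → x.2.1 ≤ x.1.1 ^ 2 →
        x.2.2.1 * x.1.2 ≤ x.2.1 →
        (wAlg mm C c x : ℝ) ≤
          (pl c x : ℝ) ^ e * (x.2.2.2 + 1) * bnd w φ x.2.2.1 x.1.1 x.1.2 x.2.1 := by
  refine ⟨max 30 ⌈15 / φ⌉₊, fun c hc hct hC => ⟨fun x => f1a_rho_le x hc hC
    ((le_max_left _ _).trans hct), fun c0 => ⟨c0 + 3 * (c.cB + 1) + 2 * c.ct + 1, ?_⟩⟩⟩
  intro mm x hmm y1 y2 y3 y4 y5 y6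
  have hct1 : 1 ≤ c.ct := le_trans (by norm_num) ((le_max_left _ _).trans hct)
  have hφct : 15 ≤ φ * c.ct := by
    have h4 : (⌈15 / φ⌉₊ : ℝ) ≤ c.ct := by exact_mod_cast (le_max_right _ _).trans hct
    have h5 : 15 / φ ≤ c.ct := (Nat.le_ceil _).trans h4
    rw [div_le_iff₀ hφ] at h5
    linarith
  have hk1 : 1 ≤ x.1.2 := y1.trans y2.le
  obtain ⟨b1, b2⟩ := f1a_bb x hc y5 (Nat.mul_le_mul y1 hk1)
  have hps := f1a_ps x hc hk1
  have hps2 : 2 ^ (ps c x + 2) + 1 ≤ 4 * (x.1.2 * pl c x ^ (c.cB + 1)) := by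
    have e : 2 ^ (ps c x + 2) = 4 * 2 ^ ps c x := by
      rw [pow_add]
      ring
    rw [e]
    exact (fun a b h => by omega : ∀ a b : ℕ, a + 1 ≤ b → 4 * a + 1 ≤ 4 * b) _ _ hps
  exact f1a_T (κ := x.2.2.1) (n := x.1.1) (k := x.1.2) (N := x.2.1) (q := x.2.2.2)
    (l := pl c x) (K := pK c x) (b := pbb c x) (ρ := rho0 C c x) (M := mm (2 ^ ps c x))
    (M2 := mm (2 ^ (ps c x + 2))) (B := c.cB) (t := c.ct) (P := 2 ^ ps c x)
    (P2 := 2 ^ (ps c x + 2)) (p := pmd c x = 1) h2 h3 hφ hφ6 (f1a_l x hc) y1 y2 y3 y6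
    (Nat.one_le_pow _ _ (by norm_num)) (f1a_K_le x hc)
    (f1a_rhoR (f1a_l x hc) hct1 hφct (f1a_K_sq x) (f1a_pow_le x hc)
      (f1a_rho x hc hC)) b1 b2 (hmm _) hps (hmm _) hps2

end A56
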