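import Pool.Agent.Lib_helper50.A56.FDefs
/-!
# MP_a55cb8: block F1b (helper37): numbers
-/

open Matrix Finset

namespace A56

theorem Big_exists (ct ch cB c0 : ℕ) (h1 : 20 ≤ ct) (h2 : 300 ≤ ch)
    (h3 : 4 * ch + 4 * ct + 1000 ≤ cB) : ∃ c1, c0 ≤ c1 ∧ Big ⟨c1, ct, cB, ch⟩ := by
  obtain ⟨D, hD⟩ : ∃ D, D = 1000 * (ct + cB + ch + 1000) := ⟨_, rfl⟩
  obtain ⟨d, hd⟩ : ∃ d, d = Nat.log2 D := ⟨_, rfl⟩
  have hD2 : D < 2 ^ (d + 1) := by rw [hd]; exact Nat.lt_log2_self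
  refine ⟨c0 + 10 ^ 6 + 2 ^ (2 * d + 4), le_add_right (Nat.le_add_right _ _), ?_, h1, h2, h3,
    ?_⟩
  · simp only
    have : 0 < 2 ^ (2 * d + 4) := by positivity
    omega
  · intro l hl
    simp only at hl ⊢
    rw [← hD]
    have hl0 : l ≠ 0 := by
      have : 0 < 2 ^ (2 * d + 4) := by positivity
      omega
    have hL : 2 * d + 4 ≤ Nat.log2 l := (Nat.le_log2 hl0).2 (by omega)
    obtain ⟨j, hj⟩ : ∃ j, Nat.log2 l = d + 1 + (j + 1) := ⟨Nat.log2 l - d - 2, by omega⟩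
    have h4 : 2 ^ Nat.log2 l ≤ l := Nat.log2_self_le hl0
    have h5 : j + 1 ≤ 2 ^ j := Nat.lt_two_pow_self
    have h6 : Nat.log2 l + 1 ≤ 2 ^ (j + 1) := by
      rw [pow_succ]
      omega
    calc D * (Nat.log2 l + 1) ≤ 2 ^ (d + 1) * 2 ^ (j + 1) := Nat.mul_le_mul hD2.le h6
      _ = 2 ^ Nat.log2 l := by rw [← pow_add, hj]
      _ ≤ l := h4

theorem F1b_min {a b c d e a' b' c' d' e' : ℝ} (ha : a' ≤ 2 * a) (hb : b' ≤ 2 * b)
    (hc : c' ≤ 2 * c) (hd : d' ≤ 2 * d) (he : e' ≤ 2 * e) :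
    min (min a' b') (min c' (min d' e')) ≤ 2 * min (min a b) (min c (min d e)) := by
  rw [mul_min_of_nonneg _ _ (by norm_num : (0 : ℝ) ≤ 2),
    mul_min_of_nonneg _ _ (by norm_num : (0 : ℝ) ≤ 2),
    mul_min_of_nonneg _ _ (by norm_num : (0 : ℝ) ≤ 2),
    mul_min_of_nonneg _ _ (by norm_num : (0 : ℝ) ≤ 2)]
  exact min_le_min (min_le_min ha hb) (min_le_min hc (min_le_min hd he))

theorem F1b_min0 {φ κ : ℝ} (hκ : 0 ≤ κ) (n k N : ℕ) :
    (0 : ℝ) ≤ min (min ((k : ℝ) * N) ((k : ℝ) ^ (3 : ℝ)))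
    (min (κ ^ (2 / 3 - φ) * (k : ℝ) ^ (5 / 3 - φ) * (N : ℝ) ^ (1 / 3 + φ))
      (min (κ * (k : ℝ) ^ (3 / 2 - φ) * (n : ℝ) ^ (1 / 2 + φ))
        (κ * (k : ℝ) ^ (7 / 4 - φ) * (N : ℝ) ^ (1 / 4 + φ)))) := by
  refine le_min (le_min ?_ ?_) (le_min ?_ (le_min ?_ ?_)) <;> positivity

theorem F1b_bnd {w φ κ κ' : ℝ} (hφ : 0 < φ) (hφ6 : φ ≤ 1 / 6) (hκ : 0 ≤ κ') (h : κ' ≤ 2 * κ)
    (hκ0 : 0 ≤ κ) (n k N : ℕ) : bnd w φ κ' n k N ≤ 2 * bnd w φ κ n k N := by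
  have h1 : (0 : ℝ) ≤ (k : ℝ) ^ w := Real.rpow_nonneg (Nat.cast_nonneg _) _
  have h2 : κ' * N ≤ 2 * (κ * N) := by
    have := mul_le_mul_of_nonneg_right h (Nat.cast_nonneg N : (0 : ℝ) ≤ N)
    linarith
  have h3 : (0 : ℝ) ≤ (k : ℝ) ^ (3 : ℝ) := Real.rpow_nonneg (Nat.cast_nonneg _) _
  have h4 : (0 : ℝ) ≤ (k : ℝ) ^ (5 / 3 - φ) := Real.rpow_nonneg (Nat.cast_nonneg _) _
  have h5 : (0 : ℝ) ≤ (N : ℝ) ^ (1 / 3 + φ) := Real.rpow_nonneg (Nat.cast_nonneg _) _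
  have h0 : (0 : ℝ) ≤ 2 / 3 - φ := by linarith
  have h6 : κ' ^ (2 / 3 - φ) ≤ 2 * κ ^ (2 / 3 - φ) := by
    calc κ' ^ (2 / 3 - φ) ≤ (2 * κ) ^ (2 / 3 - φ) := Real.rpow_le_rpow hκ h h0
      _ = 2 ^ (2 / 3 - φ) * κ ^ (2 / 3 - φ) := Real.mul_rpow (by norm_num) hκ0
      _ ≤ 2 * κ ^ (2 / 3 - φ) := by
          refine mul_le_mul_of_nonneg_right ?_ (Real.rpow_nonneg hκ0 _)
          exact Real.rpow_le_self_of_one_le (by norm_num) (by linarith)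
  have h7 : (0 : ℝ) ≤ (k : ℝ) * N := by positivity
  have h8 := mul_le_mul_of_nonneg_right (mul_le_mul_of_nonneg_right h6 h4) h5
  have h9 : ∀ a b : ℝ, 0 ≤ a → 0 ≤ b → κ' * a * b ≤ 2 * (κ * a * b) := by
    intro a b ha hb
    have := mul_le_mul_of_nonneg_right (mul_le_mul_of_nonneg_right h ha) hb
    linarith
  have h10 := F1b_min (a := (k : ℝ) * N) (a' := (k : ℝ) * N) (b := (k : ℝ) ^ (3 : ℝ))
    (b' := (k : ℝ) ^ (3 : ℝ))
    (c := κ ^ (2 / 3 - φ) * (k : ℝ) ^ (5 / 3 - φ) * (N : ℝ) ^ (1 / 3 + φ))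
    (c' := κ' ^ (2 / 3 - φ) * (k : ℝ) ^ (5 / 3 - φ) * (N : ℝ) ^ (1 / 3 + φ))
    (by linarith) (by linarith) (by linarith)
    (h9 ((k : ℝ) ^ (3 / 2 - φ)) ((n : ℝ) ^ (1 / 2 + φ)) (by positivity) (by positivity))
    (h9 ((k : ℝ) ^ (7 / 4 - φ)) ((N : ℝ) ^ (1 / 4 + φ)) (by positivity) (by positivity))
  unfold bnd
  linarith

theorem F1b_kN {w φ κ : ℝ} (hφ : 0 < φ) (hφ6 : φ ≤ 1 / 6) (hκ : 1 ≤ κ) {n k N : ℕ} (hN : 1 ≤ N)
    (hkn : k < n) (hnN : n ≤ N)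
    (h : (N : ℝ) ≤ 2 * κ * k) : (k : ℝ) * N ≤ 2 * bnd w φ κ n k N := by
  have hκ0 : 0 < κ := by linarith
  have hk0 : 0 < k := by
    rcases Nat.eq_zero_or_pos k with h0 | h0
    · rw [h0] at h
      have : (1 : ℝ) ≤ N := by exact_mod_cast hN
      norm_num at h
      have h9 : N = 0 := by exact_mod_cast h
      omega
    · exact h0
  have hk : (0 : ℝ) < k := by exact_mod_cast hk0
  have hN0 : (0 : ℝ) < N := by exact_mod_cast hN
  have hkn' : (k : ℝ) ≤ n := by exact_mod_cast hkn.le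
  have hkN' : (k : ℝ) ≤ N := by exact_mod_cast (hkn.le.trans hnN)
  have h1 : (0 : ℝ) ≤ (k : ℝ) ^ w := Real.rpow_nonneg hk.le _
  by_cases hNk : (N : ℝ) ≤ (k : ℝ) ^ 2
  · have h5 : (k : ℝ) * N ≤ 2 * (k : ℝ) ^ (3 : ℝ) := by
      have h6 : (k : ℝ) ^ (3 : ℝ) = (k : ℝ) ^ (3 : ℕ) := by
        rw [← Real.rpow_natCast]
        norm_num
      rw [h6]
      nlinarith [pow_pos hk 3]
    have h0 : (0 : ℝ) ≤ 2 / 3 - φ := by linarith
    have h6 : (k : ℝ) * N ≤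
        2 * (κ ^ (2 / 3 - φ) * (k : ℝ) ^ (5 / 3 - φ) * (N : ℝ) ^ (1 / 3 + φ)) := by
      have h7 : (N : ℝ) ^ (2 / 3 - φ) ≤ 2 * (κ * k) ^ (2 / 3 - φ) := by
        calc (N : ℝ) ^ (2 / 3 - φ) ≤ (2 * (κ * k)) ^ (2 / 3 - φ) :=
              Real.rpow_le_rpow hN0.le (by linarith) h0
          _ = 2 ^ (2 / 3 - φ) * (κ * k) ^ (2 / 3 - φ) :=
              Real.mul_rpow (by norm_num) (by positivity)
          _ ≤ 2 * (κ * k) ^ (2 / 3 - φ) := by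
              refine mul_le_mul_of_nonneg_right ?_ (Real.rpow_nonneg (by positivity) _)
              exact Real.rpow_le_self_of_one_le (by norm_num) (by linarith)
      have h8 : (N : ℝ) = (N : ℝ) ^ (2 / 3 - φ) * (N : ℝ) ^ (1 / 3 + φ) := by
        rw [← Real.rpow_add hN0]
        conv_lhs => rw [← Real.rpow_one (N : ℝ)]
        congr 1
        ring
      have h9 : (k : ℝ) ^ (5 / 3 - φ) = k * (k : ℝ) ^ (2 / 3 - φ) := by
        conv_rhs => rw [← Real.rpow_one (k : ℝ), ← Real.rpow_mul hk.le, ← Real.rpow_add hk]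
        congr 1
        ring
      have h10 : (κ * k) ^ (2 / 3 - φ) = κ ^ (2 / 3 - φ) * (k : ℝ) ^ (2 / 3 - φ) :=
        Real.mul_rpow hκ0.le hk.le
      calc (k : ℝ) * N = k * ((N : ℝ) ^ (2 / 3 - φ) * (N : ℝ) ^ (1 / 3 + φ)) := by rw [← h8]
        _ ≤ k * ((2 * (κ * k) ^ (2 / 3 - φ)) * (N : ℝ) ^ (1 / 3 + φ)) := by
            refine mul_le_mul_of_nonneg_left (mul_le_mul_of_nonneg_right h7 ?_) hk.le
            exact Real.rpow_nonneg hN0.le _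
        _ = 2 * (κ ^ (2 / 3 - φ) * (k : ℝ) ^ (5 / 3 - φ) * (N : ℝ) ^ (1 / 3 + φ)) := by
            rw [h9, h10]
            ring
    have gen : ∀ (a b y : ℝ), 0 ≤ b → (k : ℝ) ≤ y → a + b = 2 →
        (k : ℝ) * N ≤ 2 * (κ * (k : ℝ) ^ a * y ^ b) := by
      intro a b y hb hy hab
      have g1 : (k : ℝ) ^ b ≤ y ^ b := Real.rpow_le_rpow hk.le hy hb
      have g2 : (k : ℝ) ^ a * (k : ℝ) ^ b = (k : ℝ) ^ 2 := by
        rw [← Real.rpow_add hk, hab, Real.rpow_two]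
      have g3 : (0 : ℝ) ≤ κ * (k : ℝ) ^ a := by positivity
      calc (k : ℝ) * N ≤ k * (2 * κ * k) := mul_le_mul_of_nonneg_left h hk.le
        _ = 2 * (κ * ((k : ℝ) ^ a * (k : ℝ) ^ b)) := by rw [g2]; ring
        _ = 2 * (κ * (k : ℝ) ^ a * (k : ℝ) ^ b) := by ring
        _ ≤ 2 * (κ * (k : ℝ) ^ a * y ^ b) :=
            mul_le_mul_of_nonneg_left (mul_le_mul_of_nonneg_left g1 g3) (by norm_num)
    have h7 := F1b_min (a := (k : ℝ) * N) (a' := (k : ℝ) * N) (b := (k : ℝ) ^ (3 : ℝ))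
      (b' := (k : ℝ) * N)
      (c := κ ^ (2 / 3 - φ) * (k : ℝ) ^ (5 / 3 - φ) * (N : ℝ) ^ (1 / 3 + φ))
      (c' := (k : ℝ) * N) (by nlinarith [mul_pos hk hN0]) h5 h6
      (gen (3 / 2 - φ) (1 / 2 + φ) n (by linarith) hkn' (by ring))
      (gen (7 / 4 - φ) (1 / 4 + φ) N (by linarith) hkN' (by ring))
    simp only [min_self] at h7
    have h8 : 0 ≤ κ * N := by positivity
    unfold bnd
    linarith
  · have h5 : (k : ℝ) ^ 2 < 2 * κ * k := (not_le.1 hNk).trans_le h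
    have h6 : (k : ℝ) < 2 * κ := by
      by_contra h7
      have := not_lt.1 h7
      nlinarith
    have h7 := F1b_min0 (φ := φ) hκ0.le n k N
    have h8 : (k : ℝ) * N ≤ 2 * κ * N := mul_le_mul_of_nonneg_right h6.le hN0.le
    unfold bnd
    linarith

/-- the logarithms -/
theorem F1b_logs {c1 n : ℕ} {κ ε : ℝ} (hc1 : 1 ≤ c1) (hn : 1 ≤ n) (hκ : 1 ≤ κ) (hε : 0 < ε)
    (hε1 : ε < 1) : 1 ≤ 1 + Real.log (n * κ / ε) ∧
      ((Nat.log2 n + c1 : ℕ) : ℝ) ≤ (c1 + 2 : ℕ) * (1 + Real.log (n * κ / ε)) ∧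
      (⌈Real.logb 2 (1 / ε)⌉₊ : ℝ) ≤ 2 * (1 + Real.log (n * κ / ε)) := by
  have hn' : (1 : ℝ) ≤ n := by exact_mod_cast hn
  have hn0 : (0 : ℝ) < n := by linarith
  have hκ0 : 0 < κ := by linarith
  have e1 : Real.log (n * κ / ε) = Real.log n + Real.log κ + Real.log (1 / ε) := by
    rw [Real.log_div (by positivity) hε.ne', Real.log_mul hn0.ne' hκ0.ne', one_div,
      Real.log_inv]
    ring
  have l1 : 0 ≤ Real.log n := Real.log_nonneg hn'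
  have l2 : 0 ≤ Real.log κ := Real.log_nonneg hκ
  have l3 : 0 ≤ Real.log (1 / ε) := Real.log_nonneg (by rw [le_div_iff₀ hε]; linarith)
  have l4 : (1 : ℝ) / 2 < Real.log 2 := by
    have := Real.log_two_gt_d9
    linarith
  have hc1' : (1 : ℝ) ≤ c1 := by exact_mod_cast hc1
  have g1 : (Nat.log2 n : ℝ) ≤ 2 * Real.log n := by
    have h5 : (2 : ℝ) ^ Nat.log2 n ≤ n := by exact_mod_cast Nat.log2_self_le (by omega : n ≠ 0)
    have h6 := Real.log_le_log (by positivity) h5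
    rw [Real.log_pow] at h6
    have h7 : (0 : ℝ) ≤ (Nat.log2 n : ℝ) := Nat.cast_nonneg _
    nlinarith
  refine ⟨by linarith, ?_, ?_⟩
  · push_cast
    rw [e1]
    nlinarith
  · have h5 : 0 ≤ Real.logb 2 (1 / ε) := by
      rw [Real.logb]
      exact div_nonneg l3 (by linarith)
    have h6 := Nat.ceil_lt_add_one h5
    have h7 : Real.logb 2 (1 / ε) ≤ 2 * Real.log (1 / ε) := by
      rw [Real.logb, div_le_iff₀ (by linarith)]
      nlinarith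
    rw [e1]
    linarith

theorem main_num (w φ : ℝ) (h2 : 2 ≤ w) (h3 : w ≤ 3) (hφ : 0 < φ) (hφ6 : φ ≤ 1 / 6) (C e c0 : ℕ)
    (c : Cst) (hc : Big c)
    (hnum : ∃ e : ℕ, ∀ (mm : ℕ → ℕ) (x : InT.den), (∀ m, (mm m : ℝ) ≤ c0 * (m + 1 : ℝ) ^ w) →
        1 ≤ x.2.2.1 → x.2.2.1 < x.1.2 → x.1.2 < x.1.1 → x.1.1 ≤ x.2.1 → x.2.1 ≤ x.1.1 ^ 2 →
        x.2.2.1 * x.1.2 ≤ x.2.1 →
        (wAlg mm C c x : ℝ) ≤
          (pl c x : ℝ) ^ e * (x.2.2.2 + 1) * bnd w φ x.2.2.1 x.1.1 x.1.2 x.2.1) (C1 : ℕ) :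
    ∃ C' : ℕ, ∀ (mm : ℕ → ℕ) (n k N : ℕ) (κ ε : ℝ), (∀ m, (mm m : ℝ) ≤ c0 * (m + 1 : ℝ) ^ w) →
      1 ≤ κ → k < n → n ≤ N → N ≤ n ^ 2 → 0 < ε → ε < 1 →
      ((C1 * (wMain mm C e c ((n, k), (N, (⌈κ⌉₊, ⌈Real.logb 2 (1 / ε)⌉₊))) + 1) : ℕ) : ℝ) ≤
        C' * bnd w φ κ n k N * (1 + Real.log (n * κ / ε)) ^ C' ∧
      (((2 * (pl c ((n, k), (N, (⌈κ⌉₊, ⌈Real.logb 2 (1 / ε)⌉₊))) ^ 3 + 1) + 3) *
        pW c ((n, k), (N, (⌈κ⌉₊, ⌈Real.logb 2 (1 / ε)⌉₊))) : ℕ) : ℝ) ≤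
        C' * bnd w φ κ n k N * (1 + Real.log (n * κ / ε)) ^ C' := by
  obtain ⟨e', he'⟩ := hnum
  refine ⟨41 * C1 * (c.c1 + 2) ^ (e + e') + 7 * (c.c1 + 2) ^ 11 + (e + e' + 1) + 11, ?_⟩
  intro mm n k N κ ε hmm hκ hkn hnN hN2 hε hε1
  have hc1 : 1 ≤ c.c1 := le_trans (by norm_num) hc.c1
  have hn : 1 ≤ n := by omega
  obtain ⟨hL1, hpl, hq⟩ := F1b_logs hc1 hn hκ hε hε1
  obtain ⟨L, hL⟩ : ∃ L, L = 1 + Real.log (n * κ / ε) := ⟨_, rfl⟩
  obtain ⟨q, hq'⟩ : ∃ q, q = ⌈Real.logb 2 (1 / ε)⌉₊ := ⟨_, rfl⟩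
  obtain ⟨kk, hkk⟩ : ∃ kk, kk = ⌈κ⌉₊ := ⟨_, rfl⟩
  rw [← hL] at hL1 hpl hq ⊢
  rw [← hq'] at hq ⊢
  rw [← hkk]
  have hκ0 : 0 < κ := by linarith
  have hkk1 : (kk : ℝ) ≤ 2 * κ := by
    have := Nat.ceil_lt_add_one hκ0.le
    rw [← hkk] at this
    linarith
  have hkk2 : 1 ≤ kk := by
    rw [hkk]
    exact Nat.one_le_ceil_iff.2 hκ0
  have hN1 : (1 : ℝ) ≤ N := by exact_mod_cast (hn.trans hnN)
  have hnN' : (n : ℝ) ≤ N := by exact_mod_cast hnN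
  obtain ⟨B, hB⟩ : ∃ B, B = bnd w φ κ n k N := ⟨_, rfl⟩
  have hkw : (0 : ℝ) ≤ (k : ℝ) ^ w := Real.rpow_nonneg (Nat.cast_nonneg _) _
  have hmin := F1b_min0 (φ := φ) hκ0.le n k N
  have hB1 : κ * N ≤ B := by
    rw [hB]
    unfold bnd
    linarith
  have hNB : (N : ℝ) ≤ B := le_trans (by nlinarith) hB1
  have hB0 : 1 ≤ B := hN1.trans hNB
  obtain ⟨P, hP⟩ : ∃ P : ℕ, P = Nat.log2 n + c.c1 := ⟨_, rfl⟩
  have hplP : pl c ((n, k), (N, (kk, q))) = P := by rw [hP]; rfl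
  have hPle : (P : ℝ) ≤ (c.c1 + 2 : ℕ) * L := by rw [hP]; exact hpl
  have hP0 : (0 : ℝ) ≤ P := Nat.cast_nonneg _
  have hP1 : (1 : ℝ) ≤ P := by
    have : 1 ≤ P := by omega
    exact_mod_cast this
  obtain ⟨K, hK⟩ : ∃ K : ℝ, K = ((c.c1 + 2 : ℕ) : ℝ) := ⟨_, rfl⟩
  have hK1 : 1 ≤ K := by
    rw [hK]
    exact_mod_cast (by omega : 1 ≤ c.c1 + 2)
  rw [← hK] at hPle
  -- the final step
  have fin : ∀ (y : ℝ) (a p : ℕ), y ≤ a * B * L ^ p →
      a ≤ 41 * C1 * (c.c1 + 2) ^ (e + e') + 7 * (c.c1 + 2) ^ 11 + (e + e' + 1) + 11 →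
      p ≤ 41 * C1 * (c.c1 + 2) ^ (e + e') + 7 * (c.c1 + 2) ^ 11 + (e + e' + 1) + 11 →
      y ≤ ((41 * C1 * (c.c1 + 2) ^ (e + e') + 7 * (c.c1 + 2) ^ 11 + (e + e' + 1) + 11 : ℕ) : ℝ) *
        B * L ^ (41 * C1 * (c.c1 + 2) ^ (e + e') + 7 * (c.c1 + 2) ^ 11 + (e + e' + 1) + 11) := by
    intro y a p hy ha hp
    refine hy.trans ?_
    have h5 : (a : ℝ) ≤ ((41 * C1 * (c.c1 + 2) ^ (e + e') + 7 * (c.c1 + 2) ^ 11 +
        (e + e' + 1) + 11 : ℕ) : ℝ) := by exact_mod_cast ha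
    have hB' : (0 : ℝ) ≤ B := by linarith
    exact mul_le_mul (mul_le_mul_of_nonneg_right h5 hB') (pow_le_pow_right₀ hL1 hp)
      (pow_nonneg (by linarith) _) (mul_nonneg (Nat.cast_nonneg _) hB')
  rw [← hB]
  constructor
  · -- the weight
    have key : (wMain mm C e c ((n, k), (N, (kk, q))) : ℝ) + 1 ≤
        41 * K ^ (e + e') * B * L ^ (e + e' + 1) := by
      have hKe : 1 ≤ K ^ (e + e') := one_le_pow₀ hK1
      have hLe : 1 ≤ L ^ (e + e') := one_le_pow₀ hL1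
      have hq3 : (q : ℝ) + 1 ≤ 3 * L := by linarith
      unfold wMain
      by_cases hcase : kk < k ∧ kk * k ≤ N
      · rw [if_pos hcase, hplP]
        have h5 := he' mm ((n, k), (N, (kk, q))) hmm hkk2 hcase.1 hkn hnN hN2 hcase.2
        rw [hplP] at h5
        have h6 : bnd w φ (kk : ℝ) n k N ≤ 2 * B := by
          rw [hB]
          exact F1b_bnd hφ hφ6 (Nat.cast_nonneg _) hkk1 hκ0.le n k N
        have h7 : (P : ℝ) ^ (e + e') ≤ K ^ (e + e') * L ^ (e + e') := by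
          rw [← mul_pow]
          exact pow_le_pow_left₀ hP0 hPle _
        have h8 : (0 : ℝ) ≤ (P : ℝ) ^ (e + e') := pow_nonneg hP0 _
        have h9 : (0 : ℝ) ≤ K ^ (e + e') * L ^ (e + e') := h8.trans h7
        have h10 : ((P ^ e * wAlg mm C c ((n, k), (N, (kk, q))) : ℕ) : ℝ) ≤
            K ^ (e + e') * L ^ (e + e') * (3 * L) * (2 * B) := by
          calc ((P ^ e * wAlg mm C c ((n, k), (N, (kk, q))) : ℕ) : ℝ)
              = (P : ℝ) ^ e * (wAlg mm C c ((n, k), (N, (kk, q))) : ℝ) := by push_cast; rfl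
            _ ≤ (P : ℝ) ^ e * ((P : ℝ) ^ e' * ((q : ℝ) + 1) * bnd w φ (kk : ℝ) n k N) :=
                mul_le_mul_of_nonneg_left h5 (pow_nonneg hP0 _)
            _ = (P : ℝ) ^ (e + e') * ((q : ℝ) + 1) * bnd w φ (kk : ℝ) n k N := by
                rw [pow_add]
                ring
            _ ≤ (P : ℝ) ^ (e + e') * ((q : ℝ) + 1) * (2 * B) :=
                mul_le_mul_of_nonneg_left h6 (mul_nonneg h8 (by positivity))
            _ ≤ K ^ (e + e') * L ^ (e + e') * (3 * L) * (2 * B) := by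
                refine mul_le_mul_of_nonneg_right ?_ (by linarith)
                exact mul_le_mul h7 hq3 (by positivity) h9
        have h11 : 1 ≤ K ^ (e + e') * B * (L ^ (e + e') * L) :=
          one_le_mul_of_one_le_of_one_le (one_le_mul_of_one_le_of_one_le hKe hB0)
            (one_le_mul_of_one_le_of_one_le hLe hL1)
        rw [pow_succ]
        calc ((P ^ e * wAlg mm C c ((n, k), (N, (kk, q))) : ℕ) : ℝ) + 1
            ≤ K ^ (e + e') * L ^ (e + e') * (3 * L) * (2 * B) +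
              K ^ (e + e') * B * (L ^ (e + e') * L) := add_le_add h10 h11
          _ = 7 * (K ^ (e + e') * B * (L ^ (e + e') * L)) := by ring
          _ ≤ 41 * (K ^ (e + e') * B * (L ^ (e + e') * L)) := by linarith
          _ = 41 * K ^ (e + e') * B * (L ^ (e + e') * L) := by ring
      · rw [if_neg hcase]
        have hkkN : (kk : ℝ) * N ≤ 2 * B := by
          have := mul_le_mul_of_nonneg_right hkk1 (by linarith : (0 : ℝ) ≤ N)
          linarith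
        have hkN : (k : ℝ) * N ≤ 2 * B := by
          by_cases h5 : k ≤ kk
          · have h6 : (k : ℝ) ≤ kk := by exact_mod_cast h5
            have := mul_le_mul_of_nonneg_right h6 (by linarith : (0 : ℝ) ≤ N)
            linarith
          · have h6 : ¬ kk * k ≤ N := fun h => hcase ⟨not_le.1 h5, h⟩
            have h7 : (N : ℝ) ≤ kk * k := by exact_mod_cast (not_le.1 h6).le
            have h8 : (kk : ℝ) * k ≤ 2 * κ * k :=
              mul_le_mul_of_nonneg_right hkk1 (Nat.cast_nonneg _)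
            rw [hB]
            exact F1b_kN hφ hφ6 hκ (hn.trans hnN) hkn hnN (h7.trans h8)
        have h10 : (((k + kk * (q + 1) + 1) * (N + n + 1) : ℕ) : ℝ) ≤
            (k + kk * (3 * L) + 1) * (3 * N) := by
          push_cast
          refine mul_le_mul ?_ (by linarith) (by positivity) (by positivity)
          have := mul_le_mul_of_nonneg_left hq3 (Nat.cast_nonneg kk : (0 : ℝ) ≤ kk)
          linarith
        have h11 : ((k : ℝ) + kk * (3 * L) + 1) * (3 * N) ≤ 27 * (B * L) := by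
          have h12 : (kk : ℝ) * N * L ≤ 2 * B * L := mul_le_mul_of_nonneg_right hkkN (by linarith)
          have h13 : B ≤ B * L := le_mul_of_one_le_right (by linarith) hL1
          have h14 : ((k : ℝ) + kk * (3 * L) + 1) * (3 * N) =
              3 * (k * N) + 9 * (kk * N * L) + 3 * N := by ring
          rw [h14]
          linarith
        have h12 : B * L ≤ K ^ (e + e') * B * L ^ (e + e' + 1) := by
          rw [pow_succ]
          have h13 : B ≤ K ^ (e + e') * B := le_mul_of_one_le_left (by linarith) hKe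
          have h14 : L ≤ L ^ (e + e') * L := le_mul_of_one_le_left (by linarith) hLe
          exact mul_le_mul h13 h14 (by linarith) (by positivity)
        have h13 : 1 ≤ B * L := one_le_mul_of_one_le_of_one_le hB0 hL1
        calc (((k + kk * (q + 1) + 1) * (N + n + 1) : ℕ) : ℝ) + 1
            ≤ 27 * (B * L) + B * L := add_le_add (h10.trans h11) h13
          _ = 28 * (B * L) := by ring
          _ ≤ 41 * (B * L) := by linarith
          _ ≤ 41 * (K ^ (e + e') * B * L ^ (e + e' + 1)) := by linarith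
          _ = 41 * K ^ (e + e') * B * L ^ (e + e' + 1) := by ring
    refine fin _ (41 * C1 * (c.c1 + 2) ^ (e + e')) (e + e' + 1) ?_ (by omega) (by omega)
    push_cast
    have h5 := mul_le_mul_of_nonneg_left key (Nat.cast_nonneg C1 : (0 : ℝ) ≤ C1)
    rw [hK] at h5
    push_cast at h5
    refine h5.trans (le_of_eq ?_)
    ring
  · -- the number of bits
    rw [hplP]
    have h5 : pW c ((n, k), (N, (kk, q))) = n * P ^ 8 := by
      rw [← hplP]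
      rfl
    rw [h5]
    refine fin _ (7 * (c.c1 + 2) ^ 11) 11 ?_ (by omega) (by omega)
    push_cast
    have h6 : (1 : ℝ) ≤ (P : ℝ) ^ 3 := one_le_pow₀ hP1
    have h7 : (P : ℝ) ^ 11 ≤ K ^ 11 * L ^ 11 := by
      rw [← mul_pow]
      exact pow_le_pow_left₀ hP0 hPle _
    have h8 : (n : ℝ) ≤ B := hnN'.trans hNB
    have h9 : ((c.c1 : ℝ) + 2) = K := by rw [hK]; push_cast; rfl
    rw [h9]
    calc (2 * ((P : ℝ) ^ 3 + 1) + 3) * ((n : ℝ) * (P : ℝ) ^ 8)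
        ≤ (7 * (P : ℝ) ^ 3) * ((n : ℝ) * (P : ℝ) ^ 8) :=
          mul_le_mul_of_nonneg_right (by linarith) (by positivity)
      _ = 7 * n * (P : ℝ) ^ 11 := by ring
      _ ≤ 7 * B * (K ^ 11 * L ^ 11) := by
          refine mul_le_mul (by linarith) h7 (by positivity) (by linarith)
      _ = 7 * K ^ 11 * B * L ^ 11 := by ring

end A56
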