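import Pool.Agent.Lib_helper50.A56.Defs
/-!
# MP_a55cb8: block F2a (helper37): a spectral head space
-/

open Matrix Finset

namespace A56

/-- the spectral decomposition of a symmetric real matrix -/
theorem F2a_spec {n : ℕ} (H : Matrix (Fin n) (Fin n) ℝ) (hH : Hᵀ = H) :
    ∃ (u : Fin n → Fin n → ℝ) (μ : Fin n → ℝ), (∀ i, H *ᵥ u i = μ i • u i) ∧
      (∀ i j, u i ⬝ᵥ u j = if i = j then 1 else 0) ∧
      ∀ x : Fin n → ℝ, x = ∑ i, (u i ⬝ᵥ x) • u i := by
  have hH' : H.IsHermitian := by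
    rw [Matrix.IsHermitian, conjTranspose_eq_transpose_of_trivial]
    exact hH
  set b := hH'.eigenvectorBasis with hb
  have hin : ∀ x y : EuclideanSpace ℝ (Fin n), inner ℝ x y = x.ofLp ⬝ᵥ y.ofLp := fun x y => by
    rw [EuclideanSpace.inner_eq_star_dotProduct, dotProduct_comm]
    rfl
  refine ⟨fun i => (b i).ofLp, hH'.eigenvalues, fun i => hH'.mulVec_eigenvectorBasis i,
    fun i j => ?_, fun x => ?_⟩
  · rw [← hin]
    exact orthonormal_iff_ite.1 b.orthonormal i j
  · have h1 := b.sum_repr' (WithLp.toLp 2 x)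
    have h2 := congrArg (fun z => z.ofLp) h1
    simp only at h2
    rw [← h2]
    have h3 : (∑ i, inner ℝ (b i) (WithLp.toLp 2 x) • b i).ofLp =
        ∑ i, inner ℝ (b i) (WithLp.toLp 2 x) • (b i).ofLp := by
      simp
    rw [h3]
    refine Finset.sum_congr rfl fun i _ => ?_
    rw [hin, ← h3, h2]

theorem F2a_sq {n : ℕ} {u : Fin n → Fin n → ℝ}
    (hu : ∀ i j, u i ⬝ᵥ u j = if i = j then 1 else 0)
    (hx : ∀ x : Fin n → ℝ, x = ∑ i, (u i ⬝ᵥ x) • u i) (x : Fin n → ℝ) :
    sq x = ∑ i, (u i ⬝ᵥ x) ^ 2 := by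
  have h1 : sq x = x ⬝ᵥ x := by
    rw [sq, dotProduct]
    exact Finset.sum_congr rfl fun i _ => by ring
  rw [h1]
  conv_lhs => rw [hx x]
  rw [sum_dotProduct]
  refine Finset.sum_congr rfl fun i _ => ?_
  rw [smul_dotProduct, ← hx x]
  rw [smul_eq_mul]
  ring

theorem F2a_form {m n : ℕ} (X : Matrix (Fin m) (Fin n) ℝ) {u : Fin n → Fin n → ℝ}
    {μ : Fin n → ℝ} (hμ : ∀ i, (Xᵀ * X) *ᵥ u i = μ i • u i)
    (hx : ∀ x : Fin n → ℝ, x = ∑ i, (u i ⬝ᵥ x) • u i) (x : Fin n → ℝ) :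
    sq (X *ᵥ x) = ∑ i, μ i * (u i ⬝ᵥ x) ^ 2 := by
  have h1 : sq (X *ᵥ x) = x ⬝ᵥ ((Xᵀ * X) *ᵥ x) := by
    rw [← mulVec_mulVec, dotProduct_mulVec, vecMul_transpose, sq, dotProduct]
    exact Finset.sum_congr rfl fun i _ => by ring
  have h2 : (Xᵀ * X) *ᵥ x = ∑ i, (u i ⬝ᵥ x) • (μ i • u i) := by
    conv_lhs => rw [hx x]
    rw [mulVec_sum]
    exact Finset.sum_congr rfl fun i _ => by rw [mulVec_smul, hμ]
  rw [h1, h2, dotProduct_sum]
  refine Finset.sum_congr rfl fun i _ => ?_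
  rw [dotProduct_smul, dotProduct_smul, dotProduct_comm x (u i), smul_eq_mul, smul_eq_mul]
  ring

/-- a spectral head space -/
theorem Head.spectral {m n k : ℕ} {X : Matrix (Fin m) (Fin n) ℝ} {t : ℝ} (ht : 0 ≤ t)
    (h : Head X k t) : ∃ V : Submodule ℝ (Fin n → ℝ), Module.finrank ℝ V ≤ k ∧
      (∀ v ∈ V, (Xᵀ * X) *ᵥ v ∈ V) ∧ ∀ x, (∀ v ∈ V, v ⬝ᵥ x = 0) → sq (X *ᵥ x) ≤ t * sq x := by
  obtain ⟨V, hVk, hV⟩ := h
  obtain ⟨u, μ, hμ, hu, hx⟩ := F2a_spec (Xᵀ * X) (by rw [transpose_mul, transpose_transpose])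
  classical
  set J : Finset (Fin n) := Finset.univ.filter fun i => t < μ i with hJ
  -- the number of large eigenvalues
  have hcard : J.card ≤ k := by
    by_contra hlt
    have hlt : k < J.card := not_le.1 hlt
    let φ : (J → ℝ) →ₗ[ℝ] Module.Dual ℝ V := LinearMap.mk₂ ℝ
      (fun (c : J → ℝ) (v : V) => (v : Fin n → ℝ) ⬝ᵥ ∑ i, c i • u i)
      (fun c d v => by
        rw [← dotProduct_add, ← Finset.sum_add_distrib]
        exact congrArg _ (Finset.sum_congr rfl fun i _ => by rw [Pi.add_apply, add_smul]))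
      (fun r c v => by
        rw [smul_eq_mul, ← smul_eq_mul, ← dotProduct_smul, Finset.smul_sum]
        exact congrArg _ (Finset.sum_congr rfl fun i _ => by
          rw [Pi.smul_apply, smul_eq_mul, mul_smul]))
      (fun c v w => by rw [Submodule.coe_add, add_dotProduct])
      (fun r c v => by rw [Submodule.coe_smul, smul_dotProduct])
    have h1 : Module.finrank ℝ (Module.Dual ℝ V) < Module.finrank ℝ (J → ℝ) := by
      rw [Subspace.dual_finrank_eq, Module.finrank_fintype_fun_eq_card, Fintype.card_coe]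
      omega
    obtain ⟨c, hc, hc0⟩ := (Submodule.ne_bot_iff _).1 (LinearMap.ker_ne_bot_of_finrank_lt
      (f := φ) h1)
    set x : Fin n → ℝ := ∑ i : J, c i • u i with hxdef
    have h2 : ∀ v ∈ V, v ⬝ᵥ x = 0 := fun v hv => by
      have h3 := LinearMap.congr_fun (LinearMap.mem_ker.1 hc) ⟨v, hv⟩
      exact h3
    have h3 : ∀ i : J, u i ⬝ᵥ x = c i := fun i => by
      rw [hxdef, dotProduct_sum, Finset.sum_eq_single i]
      · rw [dotProduct_smul, hu, if_pos rfl, smul_eq_mul, mul_one]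
      · intro j _ hj
        have h4 : (i : Fin n) ≠ j := fun h => hj (Subtype.ext h.symm)
        rw [dotProduct_smul, hu, if_neg h4, smul_eq_mul, mul_zero]
      · intro h
        exact absurd (Finset.mem_univ _) h
    have h4 : ∀ i, i ∉ J → u i ⬝ᵥ x = 0 := fun i hi => by
      rw [hxdef, dotProduct_sum]
      refine Finset.sum_eq_zero fun j _ => ?_
      have h5 : i ≠ (j : Fin n) := fun h => hi (h ▸ j.2)
      rw [dotProduct_smul, hu, if_neg h5, smul_eq_mul, mul_zero]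
    have h5 := hV x h2
    rw [F2a_form X hμ hx, F2a_sq hu hx, Finset.mul_sum] at h5
    obtain ⟨i, hi⟩ : ∃ i : J, c i ≠ 0 := by
      by_contra hne
      push Not at hne
      exact hc0 (funext hne)
    have h6 : ∑ j, t * (u j ⬝ᵥ x) ^ 2 < ∑ j, μ j * (u j ⬝ᵥ x) ^ 2 := by
      refine Finset.sum_lt_sum (fun j _ => ?_) ⟨i, Finset.mem_univ _, ?_⟩
      · by_cases hj : j ∈ J
        · exact mul_le_mul_of_nonneg_right (Finset.mem_filter.1 hj).2.le (sq_nonneg _)
        · rw [h4 j hj]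
          norm_num
      · rw [h3 i]
        exact mul_lt_mul_of_pos_right (Finset.mem_filter.1 i.2).2 (by positivity)
    linarith
  refine ⟨Submodule.span ℝ ((J.image u : Finset (Fin n → ℝ)) : Set (Fin n → ℝ)), ?_, ?_, ?_⟩
  · exact ((finrank_span_finset_le_card _).trans Finset.card_image_le).trans hcard
  · intro v hv
    induction hv using Submodule.span_induction with
    | mem v hv =>
      obtain ⟨i, hi, rfl⟩ := Finset.mem_image.1 (Finset.mem_coe.1 hv)
      rw [hμ]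
      exact Submodule.smul_mem _ _ (Submodule.subset_span (Finset.mem_coe.2
        (Finset.mem_image_of_mem u hi)))
    | zero => rw [mulVec_zero]; exact Submodule.zero_mem _
    | add v w _ _ hv hw => rw [mulVec_add]; exact Submodule.add_mem _ hv hw
    | smul r v _ hv => rw [mulVec_smul]; exact Submodule.smul_mem _ _ hv
  · intro x hx0
    rw [F2a_form X hμ hx, F2a_sq hu hx, Finset.mul_sum]
    refine Finset.sum_le_sum fun i _ => ?_
    by_cases hi : i ∈ J
    · rw [hx0 (u i) (Submodule.subset_span (Finset.mem_coe.2 (Finset.mem_image_of_mem u hi)))]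
      norm_num
    · have h1 : μ i ≤ t := by
        by_contra hlt
        exact hi (Finset.mem_filter.2 ⟨Finset.mem_univ _, not_le.1 hlt⟩)
      exact mul_le_mul_of_nonneg_right h1 (sq_nonneg _)

end A56
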