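import Pool.Agent.Lib_helper50.A56.Prog
import Pool.Agent.Lib_helper50.A56.B.D1a
import Pool.Agent.Lib_helper50.A56.B.D1b
/-!
# MP_a55cb8: block F2b, the base preconditioner (helper92)
-/

open Matrix Finset

namespace A56

-- BEGIN COPY (D1)
section formsCopy2

variable {m n a b c : Type*} [Fintype m] [Fintype n] [Fintype a] [Fintype b] [Fintype c]
  [DecidableEq m] [DecidableEq n] [DecidableEq a] [DecidableEq b] [DecidableEq c]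

end formsCopy2
-- END COPY

/-! ### log-convexity -/

theorem F2b_ratio (s : ℕ → ℝ) (h0 : ∀ i, 0 ≤ s i) (h : ∀ i, s (i + 1) ^ 2 ≤ s i * s (i + 2))
    (m : ℕ) : s 1 * s m ≤ s 0 * s (m + 1) := by
  induction m with
  | zero => rw [mul_comm]
  | succ m ih =>
    rcases (h0 (m + 1)).eq_or_lt with h1 | h1
    · rw [← h1, mul_zero]
      exact mul_nonneg (h0 _) (h0 _)
    · have h2 := h m
      have h3 : s 1 * s (m + 1) * s (m + 1) ≤ s 0 * s (m + 2) * s (m + 1) := by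
        calc s 1 * s (m + 1) * s (m + 1) = s 1 * s (m + 1) ^ 2 := by ring
          _ ≤ s 1 * (s m * s (m + 2)) := mul_le_mul_of_nonneg_left h2 (h0 1)
          _ = s 1 * s m * s (m + 2) := by ring
          _ ≤ s 0 * s (m + 1) * s (m + 2) := mul_le_mul_of_nonneg_right ih (h0 _)
          _ = s 0 * s (m + 2) * s (m + 1) := by ring
      exact le_of_mul_le_mul_right h3 h1

theorem F2b_jensen (s : ℕ → ℝ) (h0 : ∀ i, 0 ≤ s i) (h : ∀ i, s (i + 1) ^ 2 ≤ s i * s (i + 2))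
    (m : ℕ) : s 1 ^ (m + 1) ≤ s (m + 1) * s 0 ^ m := by
  induction m with
  | zero => simp
  | succ m ih =>
    calc s 1 ^ (m + 2) = s 1 * s 1 ^ (m + 1) := by ring
      _ ≤ s 1 * (s (m + 1) * s 0 ^ m) := mul_le_mul_of_nonneg_left ih (h0 1)
      _ = s 1 * s (m + 1) * s 0 ^ m := by ring
      _ ≤ s 0 * s (m + 2) * s 0 ^ m :=
          mul_le_mul_of_nonneg_right (F2b_ratio s h0 h (m + 1)) (pow_nonneg (h0 0) m)
      _ = s (m + 2) * s 0 ^ (m + 1) := by ring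

section F2bgen

variable {m n : Type*} [Fintype m] [Fintype n] [DecidableEq m] [DecidableEq n]

theorem F2b_dot (M : Matrix m n ℝ) (x : n → ℝ) (y : m → ℝ) :
    (M *ᵥ x) ⬝ᵥ y = x ⬝ᵥ (Mᵀ *ᵥ y) := by
  rw [Matrix.mulVec_transpose, dotProduct_comm, Matrix.dotProduct_mulVec, dotProduct_comm]

theorem F2b_neg (x : n → ℝ) : sq (-x) = sq x := by
  unfold sq
  refine Finset.sum_congr rfl fun i _ => ?_
  rw [Pi.neg_apply, neg_sq]

theorem F2b_sub_le (x y : n → ℝ) : sq (x - y) ≤ 2 * sq x + 2 * sq y := by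
  have h1 := sq_add_le x (-y)
  rw [F2b_neg, ← sub_eq_add_neg] at h1
  exact h1

/-- Pythagoras -/
theorem F2b_pyth {x y : n → ℝ} (h : x ⬝ᵥ y = 0) : sq (x + y) = sq x + sq y := by
  rw [sq_eq_dot, sq_eq_dot, sq_eq_dot, add_dotProduct, dotProduct_add, dotProduct_add,
    dotProduct_comm y x, h]
  ring

theorem F2b_symm (X : Matrix m n ℝ) (i : ℕ) : ((Xᵀ * X) ^ i)ᵀ = (Xᵀ * X) ^ i := by
  rw [Matrix.transpose_pow, Matrix.transpose_mul, Matrix.transpose_transpose]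

/-- `|X r|^(4 q) ≤ |H^q r|² |r|^(4 q - 2)` -/
theorem F2b_power (X : Matrix m n ℝ) (r : n → ℝ) (q : ℕ) (hq : 1 ≤ q) :
    sq (X *ᵥ r) ^ (2 * q) ≤ sq (((Xᵀ * X) ^ q) *ᵥ r) * sq r ^ (2 * q - 1) := by
  set H := Xᵀ * X with hH
  have hHs : ∀ i, (H ^ i)ᵀ = H ^ i := F2b_symm X
  let s : ℕ → ℝ := fun i => r ⬝ᵥ ((H ^ i) *ᵥ r)
  have hs : ∀ i, s i = r ⬝ᵥ ((H ^ i) *ᵥ r) := fun i => rfl
  have he : ∀ i j, r ⬝ᵥ ((H ^ (i + j)) *ᵥ r) = ((H ^ i) *ᵥ r) ⬝ᵥ ((H ^ j) *ᵥ r) := by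
    intro i j
    rw [pow_add, ← Matrix.mulVec_mulVec, F2b_dot, hHs]
  have ho : ∀ i j, r ⬝ᵥ ((H ^ (i + j + 1)) *ᵥ r) =
      (X *ᵥ ((H ^ i) *ᵥ r)) ⬝ᵥ (X *ᵥ ((H ^ j) *ᵥ r)) := by
    intro i j
    rw [show i + j + 1 = i + (1 + j) by omega, he, F2b_dot X, pow_add, pow_one, hH,
      ← Matrix.mulVec_mulVec, ← Matrix.mulVec_mulVec]
  have hse : ∀ j, s (2 * j) = sq ((H ^ j) *ᵥ r) := by
    intro j
    rw [hs, two_mul, he, sq_eq_dot]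
  have hso : ∀ j, s (2 * j + 1) = sq (X *ᵥ ((H ^ j) *ᵥ r)) := by
    intro j
    rw [hs, two_mul, ho, sq_eq_dot]
  have h0 : ∀ i, 0 ≤ s i := by
    intro i
    obtain ⟨j, hj | hj⟩ := Nat.even_or_odd' i
    · rw [hj, hse]; exact sq_nonneg' _
    · rw [hj, hso]; exact sq_nonneg' _
  have h1 : ∀ i, s (i + 1) ^ 2 ≤ s i * s (i + 2) := by
    intro i
    obtain ⟨j, hj | hj⟩ := Nat.even_or_odd' i
    · subst hj
      rw [show 2 * j + 2 = 2 * (j + 1) by omega, hse, hse, hs,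
        show 2 * j + 1 = j + (j + 1) by omega, he]
      exact dot_sq_le _ _
    · subst hj
      rw [show 2 * j + 1 + 2 = 2 * (j + 1) + 1 by omega, hso, hso, hs,
        show 2 * j + 1 + 1 = j + (j + 1) + 1 - 0 by omega, Nat.sub_zero, ho]
      exact dot_sq_le _ _
  have h2 := F2b_jensen s h0 h1 (2 * q - 1)
  rw [show 2 * q - 1 + 1 = 2 * q by omega, hse] at h2
  have e0 : s 0 = sq r := by
    rw [hs, pow_zero, Matrix.one_mulVec, sq_eq_dot]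
  have e1 : s 1 = sq (X *ᵥ r) := by
    have := hso 0
    rw [mul_zero, zero_add, pow_zero, Matrix.one_mulVec] at this
    exact this
  rwa [e0, e1] at h2

/-- a symmetric generalized inverse gives `Z H Zᵀ Z = Z` -/
theorem F2b_proj {Z : Matrix m n ℝ} {H : Matrix n n ℝ}
    (hg : (Zᵀ * Z) * H * (Zᵀ * Z) = Zᵀ * Z) : Z * (H * Zᵀ) * Z = Z := by
  have h1 : Zᵀ * (Z * (H * Zᵀ) * Z - Z) = 0 := by
    rw [Matrix.mul_sub, sub_eq_zero]
    calc Zᵀ * (Z * (H * Zᵀ) * Z) = (Zᵀ * Z) * H * (Zᵀ * Z) := by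
          simp only [Matrix.mul_assoc]
      _ = Zᵀ * Z := hg
  have h2 : Z * (H * Zᵀ) * Z - Z = Z * (H * (Zᵀ * Z) - 1) := by
    rw [Matrix.mul_sub, Matrix.mul_one]
    simp only [Matrix.mul_assoc]
  rw [← sub_eq_zero]
  ext i j
  have h3 : sq ((Z * (H * Zᵀ) * Z - Z) *ᵥ (Pi.single j 1)) = 0 := by
    rw [sq_eq_dot]
    nth_rewrite 1 [h2]
    rw [← Matrix.mulVec_mulVec, F2b_dot, Matrix.mulVec_mulVec, h1, Matrix.zero_mulVec,
      dotProduct_zero]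
  have h5 := (sq_eq_zero_iff _).1 h3
  have h6 := congrFun h5 i
  rw [Matrix.mulVec_single_one] at h6
  exact h6

/-- the same with a weight: `Y Z (Yᵀ N Y) = Y` -/
theorem F2b_projN {X : Matrix m n ℝ} {k : Type*} [Fintype k] [DecidableEq k] {Y : Matrix n k ℝ}
    {Z : Matrix k k ℝ} {l : ℝ} (hl : 0 < l)
    (hg : (Yᵀ * gram X l * Y) * Z * (Yᵀ * gram X l * Y) = Yᵀ * gram X l * Y) :
    Y * (Z * (Yᵀ * gram X l * Y)) = Y := by
  set N := gram X l with hN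
  set K := Z * (Yᵀ * N * Y) - 1 with hK
  have h1 : (Yᵀ * N * Y) * K = 0 := by
    rw [hK, Matrix.mul_sub, Matrix.mul_one, ← Matrix.mul_assoc, hg, sub_self]
  have h2 : Y * (Z * (Yᵀ * N * Y)) - Y = Y * K := by
    rw [hK, Matrix.mul_sub, Matrix.mul_one]
  rw [← sub_eq_zero, h2]
  ext i j
  have h3 : qf N ((Y * K) *ᵥ (Pi.single j 1)) = 0 := by
    unfold qf
    rw [← Matrix.mulVec_mulVec, F2b_dot, Matrix.mulVec_mulVec, Matrix.mulVec_mulVec,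
      Matrix.mulVec_mulVec]
    rw [h1, Matrix.zero_mulVec, dotProduct_zero]
  rw [hN, qf_gram] at h3
  have h4 := sq_nonneg' (X *ᵥ ((Y * K) *ᵥ (Pi.single j 1)))
  have h5 := sq_nonneg' ((Y * K) *ᵥ (Pi.single j 1))
  have h6 : sq ((Y * K) *ᵥ (Pi.single j 1)) = 0 := by nlinarith
  have h7 := (sq_eq_zero_iff _).1 h6
  have h8 := congrFun h7 i
  rw [Matrix.mulVec_single_one] at h8
  exact h8

end F2bgen

/-- the orthogonal projection to `V` -/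
theorem F2b_split {n : ℕ} (V : Submodule ℝ (Fin n → ℝ)) (x : Fin n → ℝ) :
    ∃ y ∈ V, ∀ u ∈ V, u ⬝ᵥ (x - y) = 0 := by
  let Φ : V →ₗ[ℝ] V →ₗ[ℝ] ℝ := LinearMap.mk₂ ℝ
    (fun u u' : V => (u : Fin n → ℝ) ⬝ᵥ (u' : Fin n → ℝ))
    (fun u1 u2 u' => by simp only [Submodule.coe_add, add_dotProduct])
    (fun r u u' => by simp only [Submodule.coe_smul, smul_dotProduct])
    (fun u u1 u2 => by simp only [Submodule.coe_add, dotProduct_add])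
    (fun r u u' => by simp only [Submodule.coe_smul, dotProduct_smul])
  have hΦ : ∀ u u' : V, Φ u u' = (u : Fin n → ℝ) ⬝ᵥ (u' : Fin n → ℝ) := fun u u' => rfl
  have hinj : Function.Injective Φ := by
    rw [← LinearMap.ker_eq_bot, LinearMap.ker_eq_bot']
    intro u hu
    have h1 : Φ u u = 0 := by rw [hu, LinearMap.zero_apply]
    rw [hΦ, ← sq_eq_dot] at h1
    exact Subtype.ext ((sq_eq_zero_iff _).1 h1)
  have hsurj : Function.Surjective Φ := by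
    have h4 : Module.finrank ℝ V = Module.finrank ℝ (V →ₗ[ℝ] ℝ) :=
      (Subspace.dual_finrank_eq (K := ℝ) (V := V)).symm
    exact (LinearMap.injective_iff_surjective_of_finrank_eq_finrank h4).1 hinj
  let φ : V →ₗ[ℝ] ℝ :=
    { toFun := fun u => (u : Fin n → ℝ) ⬝ᵥ x
      map_add' := fun u u' => by simp only [Submodule.coe_add, add_dotProduct]
      map_smul' := fun r u => by
        simp only [Submodule.coe_smul, smul_dotProduct, RingHom.id_apply] }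
  obtain ⟨u0, hu0⟩ := hsurj φ
  refine ⟨u0, u0.2, fun u hu => ?_⟩
  have h5 : (u0 : Fin n → ℝ) ⬝ᵥ u = u ⬝ᵥ x := by
    have : Φ u0 ⟨u, hu⟩ = φ ⟨u, hu⟩ := by rw [hu0]
    exact this
  rw [dotProduct_sub, ← h5, dotProduct_comm, sub_self]

section F2bmain

variable {m n k : ℕ} {X : Matrix (Fin m) (Fin n) ℝ} {V : Submodule ℝ (Fin n → ℝ)} {t : ℝ}

theorem F2b_inV (hV : ∀ v ∈ V, (Xᵀ * X) *ᵥ v ∈ V) (q : ℕ) {v : Fin n → ℝ} (hv : v ∈ V) :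
    ((Xᵀ * X) ^ q) *ᵥ v ∈ V := by
  induction q with
  | zero => rwa [pow_zero, Matrix.one_mulVec]
  | succ q ih =>
    rw [pow_succ', ← Matrix.mulVec_mulVec]
    exact hV _ ih

theorem F2b_perp (hV : ∀ v ∈ V, (Xᵀ * X) *ᵥ v ∈ V) (q : ℕ) {w : Fin n → ℝ}
    (hw : ∀ v ∈ V, v ⬝ᵥ w = 0) : ∀ v ∈ V, v ⬝ᵥ (((Xᵀ * X) ^ q) *ᵥ w) = 0 := by
  intro v hv
  have h1 := hw _ (F2b_inV hV q hv)
  rwa [F2b_dot, F2b_symm] at h1

theorem F2b_tail (hV : ∀ v ∈ V, (Xᵀ * X) *ᵥ v ∈ V)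
    (hV2 : ∀ x, (∀ v ∈ V, v ⬝ᵥ x = 0) → sq (X *ᵥ x) ≤ t * sq x) (ht : 0 ≤ t) (q : ℕ)
    {w : Fin n → ℝ} (hw : ∀ v ∈ V, v ⬝ᵥ w = 0) :
    sq (((Xᵀ * X) ^ q) *ᵥ w) ≤ (t ^ 2) ^ q * sq w := by
  induction q with
  | zero => rw [pow_zero, Matrix.one_mulVec, pow_zero, one_mul]
  | succ q ih =>
    set z := ((Xᵀ * X) ^ q) *ᵥ w with hz
    have hz2 : ∀ v ∈ V, v ⬝ᵥ z = 0 := F2b_perp hV q hw
    have h1 : ((Xᵀ * X) ^ (q + 1)) *ᵥ w = (Xᵀ * X) *ᵥ z := by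
      rw [pow_succ', ← Matrix.mulVec_mulVec]
    rw [h1]
    have hz3 : ∀ v ∈ V, v ⬝ᵥ ((Xᵀ * X) *ᵥ z) = 0 := by
      have := F2b_perp hV 1 hz2
      rwa [pow_one] at this
    set y := (Xᵀ * X) *ᵥ z with hy
    have h2 : sq y = (X *ᵥ y) ⬝ᵥ (X *ᵥ z) := by
      rw [sq_eq_dot, F2b_dot X y, Matrix.mulVec_mulVec]
    have h3 := dot_sq_le (X *ᵥ y) (X *ᵥ z)
    rw [← h2] at h3
    have h4 := hV2 y hz3
    have h5 := hV2 z hz2
    have h6 := sq_nonneg' y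
    have h7 := sq_nonneg' z
    have h8 := sq_nonneg' (X *ᵥ z)
    have h9 : sq y ≤ t ^ 2 * sq z := by
      rcases h6.eq_or_lt with h10 | h10
      · rw [← h10]
        positivity
      · have h11 : sq y ^ 2 ≤ (t * sq y) * (t * sq z) :=
          h3.trans (mul_le_mul h4 h5 h8 (mul_nonneg ht h6))
        nlinarith
    calc sq y ≤ t ^ 2 * sq z := h9
      _ ≤ t ^ 2 * ((t ^ 2) ^ q * sq w) := mul_le_mul_of_nonneg_left ih (sq_nonneg t)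
      _ = (t ^ 2) ^ (q + 1) * sq w := by ring

/-- the bound outside of the range of `Y` -/
theorem F2b_rest {Λ ν : ℝ} {q : ℕ} {Om : Matrix (Fin n) (Fin k) ℝ} (ht : 0 ≤ t)
    (hq : 1 ≤ q) (hV : ∀ v ∈ V, (Xᵀ * X) *ᵥ v ∈ V)
    (hV2 : ∀ x, (∀ v ∈ V, v ⬝ᵥ x = 0) → sq (X *ᵥ x) ≤ t * sq x)
    (hΛ : 0 ≤ Λ) (hOm : ∀ v ∈ V, sq v ≤ Λ * sq (Omᵀ *ᵥ v)) (hν : ∀ v, sq (Omᵀ *ᵥ v) ≤ ν * sq v)
    (hΛq : 1 + Λ * ν ≤ 4 ^ q) {r : Fin n → ℝ} (hr : ((Xᵀ * X) ^ q * Om)ᵀ *ᵥ r = 0) :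
    sq (X *ᵥ r) ≤ 2 * t * sq r := by
  obtain ⟨rh, hrh, hrt⟩ := F2b_split V r
  set rt := r - rh with hrtd
  have h1 : r = rh + rt := by rw [hrtd]; abel
  have h2 : sq r = sq rh + sq rt := by
    rw [h1]; exact F2b_pyth (hrt rh hrh)
  have h3 : ((Xᵀ * X) ^ q) *ᵥ r = ((Xᵀ * X) ^ q) *ᵥ rh + ((Xᵀ * X) ^ q) *ᵥ rt := by
    conv_lhs => rw [h1]
    rw [Matrix.mulVec_add]
  have h4 : sq (((Xᵀ * X) ^ q) *ᵥ r) =
      sq (((Xᵀ * X) ^ q) *ᵥ rh) + sq (((Xᵀ * X) ^ q) *ᵥ rt) := by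
    rw [h3]; exact F2b_pyth (F2b_perp hV q hrt _ (F2b_inV hV q hrh))
  have h5 : Omᵀ *ᵥ (((Xᵀ * X) ^ q) *ᵥ rh) = -(Omᵀ *ᵥ (((Xᵀ * X) ^ q) *ᵥ rt)) := by
    have h6 : Omᵀ *ᵥ (((Xᵀ * X) ^ q) *ᵥ r) = 0 := by
      rw [← hr, Matrix.transpose_mul, F2b_symm, Matrix.mulVec_mulVec]
    rw [h3, Matrix.mulVec_add] at h6
    exact eq_neg_of_add_eq_zero_left h6
  have h6 := hOm _ (F2b_inV hV q hrh)
  rw [h5, F2b_neg] at h6
  have h7 := hν (((Xᵀ * X) ^ q) *ᵥ rt)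
  have h8 := F2b_tail hV hV2 ht q hrt
  have h9 := sq_nonneg' (((Xᵀ * X) ^ q) *ᵥ rt)
  have h10 := sq_nonneg' rh
  have h11 := sq_nonneg' rt
  have h12 : sq (((Xᵀ * X) ^ q) *ᵥ r) ≤ 4 ^ q * ((t ^ 2) ^ q * sq r) := by
    have h13 : sq (((Xᵀ * X) ^ q) *ᵥ rh) ≤ Λ * (ν * sq (((Xᵀ * X) ^ q) *ᵥ rt)) :=
      h6.trans (mul_le_mul_of_nonneg_left h7 hΛ)
    calc sq (((Xᵀ * X) ^ q) *ᵥ r) ≤ (1 + Λ * ν) * sq (((Xᵀ * X) ^ q) *ᵥ rt) := by
          rw [h4]; linarith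
      _ ≤ 4 ^ q * sq (((Xᵀ * X) ^ q) *ᵥ rt) := mul_le_mul_of_nonneg_right hΛq h9
      _ ≤ 4 ^ q * ((t ^ 2) ^ q * sq rt) := mul_le_mul_of_nonneg_left h8 (by positivity)
      _ ≤ 4 ^ q * ((t ^ 2) ^ q * sq r) := by
          refine mul_le_mul_of_nonneg_left (mul_le_mul_of_nonneg_left ?_ (by positivity))
            (by positivity)
          linarith
  have h13 := F2b_power X r q hq
  have h14 := sq_nonneg' r
  have h15 := sq_nonneg' (X *ᵥ r)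
  have h16 : sq (X *ᵥ r) ^ (2 * q) ≤ (2 * t * sq r) ^ (2 * q) := by
    calc sq (X *ᵥ r) ^ (2 * q) ≤ sq (((Xᵀ * X) ^ q) *ᵥ r) * sq r ^ (2 * q - 1) := h13
      _ ≤ (4 ^ q * ((t ^ 2) ^ q * sq r)) * sq r ^ (2 * q - 1) :=
          mul_le_mul_of_nonneg_right h12 (pow_nonneg h14 _)
      _ = (2 * t * sq r) ^ (2 * q) := by
          obtain ⟨e, he⟩ : ∃ e, 2 * q = e + 1 := ⟨2 * q - 1, by omega⟩
          rw [he, Nat.add_sub_cancel]
          have h17 : (4 : ℝ) ^ q * (t ^ 2) ^ q = (2 * t) ^ (e + 1) := by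
            rw [← he, pow_mul, ← mul_pow]
            ring
          calc (4 : ℝ) ^ q * ((t ^ 2) ^ q * sq r) * sq r ^ e =
                ((4 : ℝ) ^ q * (t ^ 2) ^ q) * (sq r * sq r ^ e) := by ring
            _ = (2 * t) ^ (e + 1) * sq r ^ (e + 1) := by rw [h17]; ring
            _ = (2 * t * sq r) ^ (e + 1) := (mul_pow _ _ _).symm
  exact le_of_pow_le_pow_left₀ (by omega) (by positivity) h16

theorem base_pre {m n k : ℕ} (X : Matrix (Fin m) (Fin n) ℝ) (l t C Λ ν : ℝ) (q : ℕ)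
    (Om : Matrix (Fin n) (Fin k) ℝ) (Z1 Z2 : Matrix (Fin k) (Fin k) ℝ)
    (V : Submodule ℝ (Fin n → ℝ)) (hl : 0 < l) (ht : 0 ≤ t) (hC : 0 ≤ C) (htC : t ≤ C * l)
    (hq : 1 ≤ q) (hV : ∀ v ∈ V, (Xᵀ * X) *ᵥ v ∈ V)
    (hV2 : ∀ x, (∀ v ∈ V, v ⬝ᵥ x = 0) → sq (X *ᵥ x) ≤ t * sq x)
    (hΛ : 0 ≤ Λ) (hOm : ∀ v ∈ V, sq v ≤ Λ * sq (Omᵀ *ᵥ v)) (hν : ∀ v, sq (Omᵀ *ᵥ v) ≤ ν * sq v)
    (hΛq : 1 + Λ * ν ≤ 4 ^ q)
    (Y : Matrix (Fin n) (Fin k) ℝ) (hY : Y = (Xᵀ * X) ^ q * Om) (hZ1 : Z1ᵀ = Z1) (hZ2 : Z2ᵀ = Z2)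
    (hg1 : (Yᵀ * Y) * Z1 * (Yᵀ * Y) = Yᵀ * Y)
    (hg2 : (Yᵀ * gram X l * Y) * Z2 * (Yᵀ * gram X l * Y) = Yᵀ * gram X l * Y) :
    IsPre (gram X l) (basePre X l q Om Z1 Z2) (1 / (4 * C + 5)) (4 * C + 2) := by
  obtain ⟨P, hP⟩ : ∃ P, P = Y * Z1 * Yᵀ := ⟨_, rfl⟩
  obtain ⟨N, hN⟩ : ∃ N, N = gram X l := ⟨_, rfl⟩
  obtain ⟨B, hB⟩ : ∃ B, B = basePre X l q Om Z1 Z2 := ⟨_, rfl⟩
  rw [← hB, ← hN]
  have hB1 : B = l⁻¹ • (1 - P) + Y * Z2 * Yᵀ := by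
    rw [hB, hP, hY]; rfl
  have hPY : P * Y = Y := by
    rw [hP, Matrix.mul_assoc Y Z1 Yᵀ]
    exact F2b_proj hg1
  have hPt : Pᵀ = P := by
    rw [hP, Matrix.transpose_mul, Matrix.transpose_mul, Matrix.transpose_transpose, hZ1,
      Matrix.mul_assoc]
  have hPP : P * P = P := by
    nth_rewrite 2 [hP]
    rw [← Matrix.mul_assoc, ← Matrix.mul_assoc, hPY, hP]
  have hYP : Yᵀ * P = Yᵀ := by
    rw [← hPt, ← Matrix.transpose_mul, hPY]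
  have hNt : Nᵀ = N := by rw [hN]; exact gram_transpose X l
  have hBt : Bᵀ = B := by
    rw [hB1, Matrix.transpose_add, Matrix.transpose_smul, Matrix.transpose_sub,
      Matrix.transpose_one, hPt, Matrix.transpose_mul, Matrix.transpose_mul,
      Matrix.transpose_transpose, hZ2, ← Matrix.mul_assoc]
  obtain ⟨M, hM⟩ : ∃ M, M = P * N * P + l • (1 - P) := ⟨_, rfl⟩
  have hMt : Mᵀ = M := by
    rw [hM, Matrix.transpose_add, Matrix.transpose_smul, Matrix.transpose_sub,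
      Matrix.transpose_one, hPt, Matrix.transpose_mul, Matrix.transpose_mul, hPt, hNt,
      ← Matrix.mul_assoc]
  have hN2 : Y * (Z2 * (Yᵀ * N * Y)) = Y := by
    rw [← hN] at hg2
    rw [hN] at hg2 ⊢
    exact F2b_projN hl hg2
  have hBM : B * M = 1 := by
    have e1 : (1 - P) * P = 0 := by rw [Matrix.sub_mul, Matrix.one_mul, hPP, sub_self]
    have e2 : (1 - P) * (1 - P) = 1 - P := by
      rw [Matrix.mul_sub, Matrix.mul_one, e1, sub_zero]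
    have e3 : Yᵀ * (1 - P) = 0 := by rw [Matrix.mul_sub, Matrix.mul_one, hYP, sub_self]
    have e4 : Y * Z2 * Yᵀ * (P * N * P) = P := by
      calc Y * Z2 * Yᵀ * (P * N * P) = Y * Z2 * (Yᵀ * P) * N * P := by
            simp only [Matrix.mul_assoc]
        _ = Y * Z2 * Yᵀ * N * P := by rw [hYP]
        _ = Y * Z2 * Yᵀ * N * (Y * Z1 * Yᵀ) := by rw [← hP]
        _ = (Y * (Z2 * (Yᵀ * N * Y))) * Z1 * Yᵀ := by simp only [Matrix.mul_assoc]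
        _ = P := by rw [hN2, hP]
    have e5 : l⁻¹ • (1 - P) * (P * N * P) = 0 := by
      rw [Matrix.smul_mul, Matrix.mul_assoc P, ← Matrix.mul_assoc, e1, Matrix.zero_mul, smul_zero]
    have e6 : l⁻¹ • (1 - P) * (l • (1 - P)) = 1 - P := by
      rw [Matrix.smul_mul, Matrix.mul_smul, e2, smul_smul, inv_mul_cancel₀ hl.ne', one_smul]
    have e7 : Y * Z2 * Yᵀ * (l • (1 - P)) = 0 := by
      rw [Matrix.mul_smul, Matrix.mul_assoc _ Yᵀ, e3, Matrix.mul_zero, smul_zero]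
    rw [hB1, hM, Matrix.mul_add, Matrix.add_mul, Matrix.add_mul, e4, e5, e6, e7, zero_add,
      add_zero]
    abel
  have hMinv : M⁻¹ = B := Matrix.inv_eq_left_inv hBM
  -- the forms
  have hqM : ∀ x, qf M x = sq (X *ᵥ (P *ᵥ x)) + l * sq (P *ᵥ x) + l * sq (x - P *ᵥ x) := by
    intro x
    have e1 : qf M x = qf N (P *ᵥ x) + l * (x ⬝ᵥ (x - P *ᵥ x)) := by
      unfold qf
      rw [hM, Matrix.add_mulVec, dotProduct_add, Matrix.smul_mulVec, dotProduct_smul,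
        Matrix.sub_mulVec, Matrix.one_mulVec, smul_eq_mul, F2b_dot P x, hPt,
        Matrix.mulVec_mulVec, Matrix.mulVec_mulVec]
    have e2 : x ⬝ᵥ (x - P *ᵥ x) = sq (x - P *ᵥ x) := by
      have e3 : (P *ᵥ x) ⬝ᵥ (x - P *ᵥ x) = 0 := by
        rw [F2b_dot, hPt, Matrix.mulVec_sub, Matrix.mulVec_mulVec, hPP, sub_self,
          dotProduct_zero]
      rw [sq_eq_dot, sub_dotProduct, e3, sub_zero]
    rw [e1, e2, hN, qf_gram]
  have hr : ∀ x, sq (X *ᵥ (x - P *ᵥ x)) ≤ 2 * t * sq (x - P *ᵥ x) := by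
    intro x
    refine F2b_rest ht hq hV hV2 hΛ hOm hν hΛq ?_
    rw [← hY, Matrix.mulVec_sub, Matrix.mulVec_mulVec, hYP, sub_self]
  have hpy : ∀ x, sq x = sq (P *ᵥ x) + sq (x - P *ᵥ x) := by
    intro x
    have e3 : (P *ᵥ x) ⬝ᵥ (x - P *ᵥ x) = 0 := by
      rw [F2b_dot, hPt, Matrix.mulVec_sub, Matrix.mulVec_mulVec, hPP, sub_self,
        dotProduct_zero]
    rw [← F2b_pyth e3]
    congr 1
    abel
  have h1 : ∀ x, qf N x ≤ (4 * C + 2) * qf M x := by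
    intro x
    rw [hqM, hN, qf_gram, hpy x]
    have e1 : sq (X *ᵥ x) ≤ 2 * sq (X *ᵥ (P *ᵥ x)) + 2 * sq (X *ᵥ (x - P *ᵥ x)) := by
      have := sq_add_le (X *ᵥ (P *ᵥ x)) (X *ᵥ (x - P *ᵥ x))
      rw [← Matrix.mulVec_add] at this
      rwa [show P *ᵥ x + (x - P *ᵥ x) = x by abel] at this
    have e2 := hr x
    have e3 := sq_nonneg' (X *ᵥ (P *ᵥ x))
    have e4 := sq_nonneg' (P *ᵥ x)
    have e5 := sq_nonneg' (x - P *ᵥ x)
    have e6 : t * sq (x - P *ᵥ x) ≤ C * l * sq (x - P *ᵥ x) :=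
      mul_le_mul_of_nonneg_right htC e5
    have e7 : 0 ≤ C * sq (X *ᵥ (P *ᵥ x)) := mul_nonneg hC e3
    have e8 : 0 ≤ C * (l * sq (P *ᵥ x)) := mul_nonneg hC (mul_nonneg hl.le e4)
    have e9 : 0 ≤ l * sq (P *ᵥ x) := mul_nonneg hl.le e4
    have e10 : 0 ≤ l * sq (x - P *ᵥ x) := mul_nonneg hl.le e5
    nlinarith
  have h2 : ∀ x, qf M x ≤ (4 * C + 5) * qf N x := by
    intro x
    rw [hqM, hN, qf_gram, hpy x]
    have e1 : sq (X *ᵥ (P *ᵥ x)) ≤ 2 * sq (X *ᵥ x) + 2 * sq (X *ᵥ (x - P *ᵥ x)) := by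
      have := F2b_sub_le (X *ᵥ x) (X *ᵥ (x - P *ᵥ x))
      rw [← Matrix.mulVec_sub] at this
      rwa [show x - (x - P *ᵥ x) = P *ᵥ x by abel] at this
    have e2 := hr x
    have e3 := sq_nonneg' (X *ᵥ x)
    have e4 := sq_nonneg' (P *ᵥ x)
    have e5 := sq_nonneg' (x - P *ᵥ x)
    have e6 : t * sq (x - P *ᵥ x) ≤ C * l * sq (x - P *ᵥ x) :=
      mul_le_mul_of_nonneg_right htC e5
    have e7 : 0 ≤ C * sq (X *ᵥ x) := mul_nonneg hC e3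
    have e8 : 0 ≤ C * (l * sq (P *ᵥ x)) := mul_nonneg hC (mul_nonneg hl.le e4)
    have e9 : 0 ≤ l * sq (P *ᵥ x) := mul_nonneg hl.le e4
    have e10 : 0 ≤ l * sq (x - P *ᵥ x) := mul_nonneg hl.le e5
    nlinarith
  have hNpd : N.PosDef := by rw [hN]; exact gram_posDef X hl
  have hc2 : 0 < 4 * C + 2 := by linarith
  have hc5 : 0 < 4 * C + 5 := by linarith
  have hMpd : M.PosDef := by
    refine Matrix.PosDef.of_dotProduct_mulVec_pos ?_ fun x hx => ?_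
    · rw [Matrix.IsHermitian, Matrix.conjTranspose_eq_transpose_of_trivial, hMt]
    · rw [star_trivial]
      have e1 := hNpd.dotProduct_mulVec_pos hx
      rw [star_trivial] at e1
      have e2 : x ⬝ᵥ (N *ᵥ x) ≤ (4 * C + 2) * (x ⬝ᵥ (M *ᵥ x)) := h1 x
      by_contra hcon
      rw [not_lt] at hcon
      nlinarith
  refine ⟨hBt, fun x => ⟨?_, ?_⟩⟩
  · have e1 := inv_anti hNpd hMpd (r := 1 / (4 * C + 5)) (by positivity)
      (fun x => by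
        have := h2 x
        rw [div_mul_eq_mul_div, one_mul, div_le_iff₀ hc5]
        linarith) x
    rwa [hMinv] at e1
  · have e1 := inv_anti hMpd hNpd (r := 1 / (4 * C + 2)) (by positivity)
      (fun x => by
        have := h1 x
        rw [div_mul_eq_mul_div, one_mul, div_le_iff₀ hc2]
        linarith) x
    rw [hMinv, div_mul_eq_mul_div, one_mul, div_le_iff₀ hc2] at e1
    linarith

end F2bmain

end A56
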