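import Pool.Agent.Lib_helper50.A56.FDefs
/-!
# MP_a55cb8: block F5, the polynomial for conjugate gradients (helper83)
(`F5_closed`, `F5_chebT_ge`, `F5_cos`, `F5_chebF_bound` are copies of helper45's D7b)
-/

open Matrix Finset

namespace A56


theorem F5_closed {y r q : ℝ} (h1 : r + q = 2 * y) (h2 : r * q = 1) {α β : ℝ}
    (hy : y = (β + α) / (β - α)) (k : ℕ) :
    chebT α β k = (r ^ k + q ^ k) / 2 ∧ chebT α β (k + 1) = (r ^ (k + 1) + q ^ (k + 1)) / 2 := by
  induction k with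
  | zero =>
    refine ⟨by simp [chebT], ?_⟩
    rw [chebT, ← hy]
    simp only [zero_add, pow_one]
    linarith
  | succ k ih =>
    refine ⟨ih.2, ?_⟩
    rw [chebT, ← hy, ih.1, ih.2, ← h1]
    have : r ^ (k + 1 + 1) + q ^ (k + 1 + 1) =
        (r + q) * (r ^ (k + 1) + q ^ (k + 1)) - (r * q) * (r ^ k + q ^ k) := by ring
    rw [this, h2]
    ring

/-- the scalar facts behind it (also used for the outer iteration) -/
theorem F5_chebT_ge {α β : ℝ} (hα : 0 < α) (hαβ : α < β) (s t k : ℕ) (hs : 1 ≤ s)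
    (hs2 : β ≤ (s : ℝ) ^ 2 * α) (hk : s * t ≤ k) : 2 ^ t / 2 ≤ chebT α β k := by
  have hd : 0 < β - α := by linarith
  obtain ⟨y, hy⟩ : ∃ y, y = (β + α) / (β - α) := ⟨_, rfl⟩
  have hs1 : (1 : ℝ) ≤ s := by exact_mod_cast hs
  have hs0 : (0 : ℝ) < s := by linarith
  -- y ≥ 1 + 2/s²
  have hy1 : 1 + 2 / (s : ℝ) ^ 2 ≤ y := by
    have e : y - 1 = 2 * α / (β - α) := by
      rw [hy]; field_simp; ring
    have : 2 / (s : ℝ) ^ 2 ≤ 2 * α / (β - α) := by
      rw [div_le_div_iff₀ (by positivity) hd]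
      nlinarith
    linarith
  have hy2 : 1 ≤ y := by
    have : 0 < 2 / (s : ℝ) ^ 2 := by positivity
    linarith
  obtain ⟨w, hw⟩ : ∃ w, w = Real.sqrt (y ^ 2 - 1) := ⟨_, rfl⟩
  have hw0 : 0 ≤ w := by rw [hw]; exact Real.sqrt_nonneg _
  have hww : w ^ 2 = y ^ 2 - 1 := by
    rw [hw]; exact Real.sq_sqrt (by nlinarith)
  have hw1 : 2 / (s : ℝ) ≤ w := by
    rw [hw]
    refine Real.le_sqrt_of_sq_le ?_
    have : (2 / (s : ℝ)) ^ 2 = 2 / (s : ℝ) ^ 2 * 2 := by ring
    rw [this]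
    have h3 : 0 < 2 / (s : ℝ) ^ 2 := by positivity
    nlinarith
  have hq : 0 ≤ y - w := by
    nlinarith
  have h1 : (y + w) + (y - w) = 2 * y := by ring
  have h2 : (y + w) * (y - w) = 1 := by nlinarith
  have hc := (F5_closed h1 h2 hy k).1
  have hr : 1 + 2 / (s : ℝ) ≤ y + w := by linarith
  have hr1 : 1 ≤ y + w := by
    have : 0 < 2 / (s : ℝ) := by positivity
    linarith
  have hb : (2 : ℝ) ≤ (y + w) ^ s := by
    have hB := one_add_mul_le_pow (a := 2 / (s : ℝ)) (by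
      have : 0 < 2 / (s : ℝ) := by positivity
      linarith) s
    have e : (s : ℝ) * (2 / s) = 2 := by field_simp
    rw [e] at hB
    calc (2 : ℝ) ≤ 1 + 2 := by norm_num
      _ ≤ (1 + 2 / (s : ℝ)) ^ s := hB
      _ ≤ (y + w) ^ s := pow_le_pow_left₀ (by positivity) hr s
  have hpk : (2 : ℝ) ^ t ≤ (y + w) ^ k := by
    calc (2 : ℝ) ^ t ≤ ((y + w) ^ s) ^ t := pow_le_pow_left₀ (by norm_num) hb t
      _ = (y + w) ^ (s * t) := by rw [pow_mul]
      _ ≤ (y + w) ^ k := pow_le_pow_right₀ hr1 hk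
  have hqk : 0 ≤ (y - w) ^ k := pow_nonneg hq k
  rw [hc]
  linarith

theorem F5_cos {α β : ℝ} (hαβ : α < β) {x th : ℝ} (hth : Real.cos th = (β + α - 2 * x) / (β - α))
    (k : ℕ) : chebT α β k - chebF α β k x = Real.cos (k * th) ∧
      chebT α β (k + 1) - chebF α β (k + 1) x = Real.cos ((k + 1 : ℕ) * th) := by
  have hd : β - α ≠ 0 := by linarith
  induction k with
  | zero =>
    refine ⟨by simp [chebT, chebF], ?_⟩
    simp only [chebT, chebF, zero_add, Nat.cast_one, one_mul]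
    rw [hth]
    field_simp
  | succ k ih =>
    refine ⟨ih.2, ?_⟩
    have e1 : Real.cos ((k + 1 + 1 : ℕ) * th) =
        2 * Real.cos th * Real.cos ((k + 1 : ℕ) * th) - Real.cos (k * th) := by
      have a1 : ((k + 1 + 1 : ℕ) : ℝ) * th = ((k + 1 : ℕ) : ℝ) * th + th := by push_cast; ring
      have a2 : (k : ℝ) * th = ((k + 1 : ℕ) : ℝ) * th - th := by push_cast; ring
      rw [a1, a2, Real.cos_add, Real.cos_sub]
      ring
    rw [e1, ← ih.1, ← ih.2, hth]
    simp only [chebT, chebF]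
    field_simp
    ring

theorem F5_chebF_bound {α β : ℝ} (hαβ : α < β) (k : ℕ) {x : ℝ} (h1 : α ≤ x) (h2 : x ≤ β) :
    |chebT α β k - chebF α β k x| ≤ 1 := by
  have hd : 0 < β - α := by linarith
  have hth : Real.cos (Real.arccos ((β + α - 2 * x) / (β - α))) = (β + α - 2 * x) / (β - α) := by
    refine Real.cos_arccos ?_ ?_
    · rw [le_div_iff₀ hd]; linarith
    · rw [div_le_iff₀ hd]; linarith
  rw [(F5_cos hαβ hth k).1]
  exact Real.abs_cos_le_one _


theorem F5_pow {n : ℕ} {U : Matrix (Fin n) (Fin n) ℝ} (D : Fin n → ℝ) (hU : U * Uᵀ = 1)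
    (hU' : Uᵀ * U = 1) (k : ℕ) :
    (U * diagonal D * Uᵀ) ^ k = U * diagonal (fun i => D i ^ k) * Uᵀ := by
  induction k with
  | zero =>
    have h1 : (fun i : Fin n => D i ^ 0) = fun _ => (1 : ℝ) := by funext i; rw [pow_zero]
    rw [pow_zero, h1, diagonal_one, Matrix.mul_one, hU]
  | succ k ih =>
    rw [pow_succ, ih]
    have h1 : U * diagonal (fun i => D i ^ k) * Uᵀ * (U * diagonal D * Uᵀ) =
        U * (diagonal (fun i => D i ^ k) * (Uᵀ * U) * diagonal D) * Uᵀ := by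
      simp only [Matrix.mul_assoc]
    rw [h1, hU', Matrix.mul_one, diagonal_mul_diagonal]
    congr 3

theorem F5_aeval {n : ℕ} {U : Matrix (Fin n) (Fin n) ℝ} (D : Fin n → ℝ) (hU : U * Uᵀ = 1)
    (hU' : Uᵀ * U = 1) (p : Polynomial ℝ) :
    Polynomial.aeval (U * diagonal D * Uᵀ) p = U * diagonal (fun i => p.eval (D i)) * Uᵀ := by
  induction p using Polynomial.induction_on' with
  | add p q hp hq =>
    have h1 : (fun i => (p + q).eval (D i)) = fun i => p.eval (D i) + q.eval (D i) := by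
      funext i; rw [Polynomial.eval_add]
    rw [map_add, hp, hq, h1, ← diagonal_add, Matrix.mul_add, Matrix.add_mul]
  | monomial k a =>
    have h1 : (fun i => (Polynomial.monomial k a).eval (D i)) = fun i => a * D i ^ k := by
      funext i; rw [Polynomial.eval_monomial]
    have h2 : diagonal (fun i => a * D i ^ k) = a • diagonal (fun i => D i ^ k) := by
      rw [← diagonal_smul]; congr 1
    rw [Polynomial.aeval_monomial, F5_pow D hU hU', h1, h2, Matrix.mul_smul, Matrix.smul_mul,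
      Algebra.algebraMap_eq_smul_one, smul_mul_assoc, Matrix.one_mul]

theorem F5_sqdot {k : Type*} [Fintype k] (v : k → ℝ) : sq v = v ⬝ᵥ v := by
  unfold sq dotProduct
  exact Finset.sum_congr rfl fun i _ => pow_two _

theorem F5_iso {m n : Type*} [Fintype m] [Fintype n] [DecidableEq n] {U : Matrix m n ℝ}
    (hU : Uᵀ * U = 1) (y : n → ℝ) : sq (U *ᵥ y) = sq y := by
  rw [F5_sqdot, F5_sqdot, dotProduct_mulVec, ← mulVec_transpose, mulVec_mulVec, hU, one_mulVec]

theorem F5_dotsq {m n : Type*} [Fintype m] [Fintype n] (A : Matrix m n ℝ) (x : n → ℝ) :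
    sq (A *ᵥ x) = x ⬝ᵥ ((Aᵀ * A) *ᵥ x) := by
  have h1 : sq (A *ᵥ x) = (A *ᵥ x) ⬝ᵥ (A *ᵥ x) := by
    unfold sq dotProduct
    exact Finset.sum_congr rfl fun i _ => pow_two _
  rw [h1, dotProduct_mulVec, ← mulVec_transpose, mulVec_mulVec, dotProduct_comm]

/-- `|A U_I c|²` and `|U_I c|²` for columns `I` of the eigenbasis -/
theorem F5_cols {n : ℕ} {A U : Matrix (Fin n) (Fin n) ℝ} {D : Fin n → ℝ} (hU' : Uᵀ * U = 1)
    (hM : Aᵀ * A = U * diagonal D * Uᵀ) (I : Finset (Fin n)) (c : I → ℝ) :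
    sq (A *ᵥ (U.submatrix id (fun i : I => (i : Fin n)) *ᵥ c)) = ∑ i : I, D i * c i ^ 2 ∧
      sq (U.submatrix id (fun i : I => (i : Fin n)) *ᵥ c) = ∑ i, c i ^ 2 := by
  set W := U.submatrix id (fun i : I => (i : Fin n)) with hW
  have hWt : Wᵀ = Uᵀ.submatrix (fun i : I => (i : Fin n)) id := by
    rw [hW]; rfl
  have h1 : Wᵀ * W = 1 := by
    rw [hWt, hW]
    have h2 : Uᵀ.submatrix (fun i : I => (i : Fin n)) id * U.submatrix id (fun i : I => (i : Fin n))
        = (Uᵀ * U).submatrix (fun i : I => (i : Fin n)) (fun i : I => (i : Fin n)) := by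
      ext i j
      simp only [Matrix.mul_apply, Matrix.submatrix_apply, id]
    rw [h2, hU', Matrix.submatrix_one _ Subtype.val_injective]
  have h3 : (A * W)ᵀ * (A * W) = diagonal (fun i : I => D i) := by
    have h4 : (A * W)ᵀ * (A * W) = Wᵀ * (Aᵀ * A) * W := by
      rw [transpose_mul]; simp only [Matrix.mul_assoc]
    rw [h4, hM, hWt]
    have h5 : Uᵀ.submatrix (fun i : I => (i : Fin n)) id * (U * diagonal D * Uᵀ) * W =
        (Uᵀ * (U * diagonal D * Uᵀ) * U).submatrix (fun i : I => (i : Fin n))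
          (fun i : I => (i : Fin n)) := by
      rw [hW]
      ext i j
      simp only [Matrix.mul_apply, Matrix.submatrix_apply, id]
    rw [h5]
    have h6 : Uᵀ * (U * diagonal D * Uᵀ) * U = diagonal D := by
      have h7 : Uᵀ * (U * diagonal D * Uᵀ) * U = (Uᵀ * U) * diagonal D * (Uᵀ * U) := by
        simp only [Matrix.mul_assoc]
      rw [h7, hU', Matrix.one_mul, Matrix.mul_one]
    rw [h6]
    ext i j
    simp only [Matrix.submatrix_apply, Matrix.diagonal_apply, Subtype.ext_iff]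
  refine ⟨?_, ?_⟩
  · rw [mulVec_mulVec, F5_dotsq, h3]
    unfold dotProduct
    refine Finset.sum_congr rfl fun i _ => ?_
    rw [mulVec_diagonal]; ring
  · rw [F5_iso h1]; rfl

/-- at most `k` eigenvalues are larger than `sg` -/
theorem F5_card {n : ℕ} {A U : Matrix (Fin n) (Fin n) ℝ} {D : Fin n → ℝ} (hU' : Uᵀ * U = 1)
    (hM : Aᵀ * A = U * diagonal D * Uᵀ) {k : ℕ} {sg : ℝ} (V : Submodule ℝ (Fin n → ℝ))
    (hk : Module.finrank ℝ V ≤ k)
    (hV : ∀ v, (∀ u ∈ V, u ⬝ᵥ v = 0) → sq (A *ᵥ v) ≤ sg * sq v) (I : Finset (Fin n))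
    (hI : ∀ i ∈ I, sg < D i) : I.card ≤ k := by
  by_contra hc
  push Not at hc
  set W := U.submatrix id (fun i : I => (i : Fin n)) with hW
  let T : (I → ℝ) →ₗ[ℝ] Module.Dual ℝ V :=
    { toFun := fun c =>
        { toFun := fun v => (v : Fin n → ℝ) ⬝ᵥ (W *ᵥ c)
          map_add' := fun u v => by rw [Submodule.coe_add, add_dotProduct]
          map_smul' := fun a v => by
            rw [Submodule.coe_smul, smul_dotProduct]; rfl }
      map_add' := fun c d => by
        ext v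
        show (v : Fin n → ℝ) ⬝ᵥ (W *ᵥ (c + d)) = _
        rw [mulVec_add, dotProduct_add]; rfl
      map_smul' := fun a c => by
        ext v
        show (v : Fin n → ℝ) ⬝ᵥ (W *ᵥ (a • c)) = _
        rw [mulVec_smul, dotProduct_smul]; rfl }
  have hlt : Module.finrank ℝ (Module.Dual ℝ V) < Module.finrank ℝ (I → ℝ) := by
    rw [Subspace.dual_finrank_eq, Module.finrank_fintype_fun_eq_card, Fintype.card_coe]
    omega
  have hker := LinearMap.ker_ne_bot_of_finrank_lt (f := T) hlt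
  obtain ⟨c, hc0, hc1⟩ := Submodule.exists_mem_ne_zero_of_ne_bot hker
  have hc2 : ∀ u ∈ V, u ⬝ᵥ (W *ᵥ c) = 0 := by
    intro u hu
    have h1 : T c = 0 := LinearMap.mem_ker.1 hc0
    have h2 := LinearMap.congr_fun h1 ⟨u, hu⟩
    exact h2
  have h3 := hV _ hc2
  obtain ⟨h4, h5⟩ := F5_cols (A := A) hU' hM I c
  rw [h4, h5, Finset.mul_sum] at h3
  obtain ⟨j, hj⟩ : ∃ j, c j ≠ 0 := by
    by_contra h6
    push Not at h6
    exact hc1 (funext h6)
  have h7 : ∑ i : I, sg * c i ^ 2 < ∑ i : I, D i * c i ^ 2 := by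
    refine Finset.sum_lt_sum (fun i _ => ?_) ⟨j, Finset.mem_univ _, ?_⟩
    · exact mul_le_mul_of_nonneg_right (hI i i.2).le (sq_nonneg _)
    · exact mul_lt_mul_of_pos_right (hI j j.2) (by positivity)
  linarith

/-- the Chebyshev polynomials of `[α, β]` -/
noncomputable def F5_P (α β : ℝ) : ℕ → Polynomial ℝ
  | 0 => 1
  | 1 => Polynomial.C ((β + α) / (β - α)) - Polynomial.C (2 / (β - α)) * Polynomial.X
  | k + 2 => Polynomial.C 2 *
      (Polynomial.C ((β + α) / (β - α)) - Polynomial.C (2 / (β - α)) * Polynomial.X) *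
        F5_P α β (k + 1) - F5_P α β k

theorem F5_Peval {α β : ℝ} (x : ℝ) (hd : α < β) : ∀ k,
    (F5_P α β k).eval x = chebT α β k - chebF α β k x
  | 0 => by simp [F5_P, chebT, chebF]
  | 1 => by simp [F5_P, chebT, chebF]
  | k + 2 => by
    have h1 := F5_Peval x hd k
    have h2 := F5_Peval x hd (k + 1)
    have h3 : β - α ≠ 0 := by linarith
    simp only [F5_P, Polynomial.eval_sub, Polynomial.eval_mul, Polynomial.eval_C,
      Polynomial.eval_X, h1, h2, chebT, chebF]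
    field_simp
    ring

theorem F5_lin (a b : ℝ) : (Polynomial.C a - Polynomial.C b * Polynomial.X).natDegree ≤ 1 := by
  refine (Polynomial.natDegree_sub_le _ _).trans ?_
  rw [Polynomial.natDegree_C]
  refine max_le (Nat.zero_le _) ((Polynomial.natDegree_C_mul_le _ _).trans ?_)
  rw [Polynomial.natDegree_X]

theorem F5_Pdeg {α β : ℝ} : ∀ k, (F5_P α β k).natDegree ≤ k
  | 0 => by simp [F5_P]
  | 1 => F5_lin _ _
  | k + 2 => by
    have h1 := F5_Pdeg (α := α) (β := β) k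
    have h2 := F5_Pdeg (α := α) (β := β) (k + 1)
    rw [F5_P]
    refine (Polynomial.natDegree_sub_le _ _).trans (max_le ?_ (by omega))
    refine (Polynomial.natDegree_mul_le).trans ?_
    have h3 := (Polynomial.natDegree_C_mul_le (2 : ℝ)
      (Polynomial.C ((β + α) / (β - α)) - Polynomial.C (2 / (β - α)) * Polynomial.X)).trans
        (F5_lin ((β + α) / (β - α)) (2 / (β - α)))
    omega

/-- the small polynomial on `[sn, κ² sn]` -/
theorem F5_small {κ q : ℕ} {sn : ℝ} (hsn : 0 < sn) (hκ : 1 ≤ κ) :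
    ∃ p : Polynomial ℝ, p.natDegree ≤ κ * (q + 1) ∧ p.eval 0 = 1 ∧
      ∀ x, sn ≤ x → x ≤ (κ : ℝ) ^ 2 * sn → |p.eval x| ≤ (1 / 2) ^ q := by
  rcases Nat.lt_or_ge 1 κ with h1 | h1
  · have h2 : (1 : ℝ) < κ := by exact_mod_cast h1
    have h3' : (1 : ℝ) < (κ : ℝ) ^ 2 := by nlinarith
    have h3 : sn < (κ : ℝ) ^ 2 * sn := by nlinarith
    have h4 := F5_chebT_ge hsn h3 κ (q + 1) (κ * (q + 1)) hκ le_rfl le_rfl
    have h5 : (2 : ℝ) ^ (q + 1) / 2 = 2 ^ q := by rw [pow_succ]; ring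
    rw [h5] at h4
    have h6 : (0 : ℝ) < 2 ^ q := by positivity
    obtain ⟨τ, hτ⟩ : ∃ τ, τ = chebT sn ((κ : ℝ) ^ 2 * sn) (κ * (q + 1)) := ⟨_, rfl⟩
    have h7 : 0 < τ := by rw [hτ]; linarith
    refine ⟨Polynomial.C (1 / τ) * F5_P sn ((κ : ℝ) ^ 2 * sn) (κ * (q + 1)), ?_, ?_, ?_⟩
    · exact (Polynomial.natDegree_C_mul_le _ _).trans (F5_Pdeg _)
    · rw [Polynomial.eval_mul, Polynomial.eval_C, F5_Peval 0 h3]
      have h8 : ∀ k, chebF sn ((κ : ℝ) ^ 2 * sn) k 0 = 0 := by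
        have h9 : ∀ k, chebF sn ((κ : ℝ) ^ 2 * sn) k 0 = 0 ∧
            chebF sn ((κ : ℝ) ^ 2 * sn) (k + 1) 0 = 0 := by
          intro k
          induction k with
          | zero => simp [chebF]
          | succ k ih =>
            refine ⟨ih.2, ?_⟩
            simp [chebF, ih.1, ih.2]
        exact fun k => (h9 k).1
      rw [h8, sub_zero, ← hτ, one_div, inv_mul_cancel₀ h7.ne']
    · intro x hx1 hx2
      rw [Polynomial.eval_mul, Polynomial.eval_C, F5_Peval x h3, abs_mul,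
        abs_of_pos (by positivity : (0 : ℝ) < 1 / τ)]
      have h8 := F5_chebF_bound h3 (κ * (q + 1)) hx1 hx2
      have h9 : 1 / τ ≤ (1 / 2) ^ q := by
        rw [_root_.one_div_pow]
        exact one_div_le_one_div_of_le h6 (by rw [hτ]; exact h4)
      calc 1 / τ * _ ≤ (1 / 2) ^ q * 1 := mul_le_mul h9 h8 (abs_nonneg _) (by positivity)
        _ = _ := mul_one _
  · obtain rfl : κ = 1 := by omega
    refine ⟨Polynomial.C 1 - Polynomial.C (1 / sn) * Polynomial.X,
      (F5_lin _ _).trans (by omega), by simp, ?_⟩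
    intro x hx1 hx2
    have hx : x = sn := le_antisymm (by simpa using hx2) hx1
    rw [hx]
    simp only [Polynomial.eval_sub, Polynomial.eval_mul, Polynomial.eval_C, Polynomial.eval_X]
    rw [one_div, inv_mul_cancel₀ hsn.ne', sub_self, abs_zero]
    positivity

theorem F5_spec {n : ℕ} {A : Matrix (Fin n) (Fin n) ℝ} (hA : A.IsHermitian) :
    ∃ (U : Matrix (Fin n) (Fin n) ℝ) (D : Fin n → ℝ), U * Uᵀ = 1 ∧ A = U * diagonal D * Uᵀ := by
  refine ⟨hA.eigenvectorUnitary, hA.eigenvalues, ?_, ?_⟩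
  · have h := (Matrix.mem_unitaryGroup_iff).1 hA.eigenvectorUnitary.2
    rw [star_eq_conjTranspose, conjTranspose_eq_transpose_of_trivial] at h
    exact h
  · have h := hA.spectral_theorem
    rw [Unitary.conjStarAlgAut_apply] at h
    rw [← conjTranspose_eq_transpose_of_trivial, ← star_eq_conjTranspose]
    exact h

theorem cg_poly {n : ℕ} (A : Matrix (Fin n) (Fin n) ℝ) (k κ q : ℕ) (sg sn : ℝ) (hsn : 0 < sn)
    (hκ : 1 ≤ κ) (hsg : sg ≤ (κ : ℝ) ^ 2 * sn) (hA : ∀ v, sn * sq v ≤ sq (A *ᵥ v))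
    (hV : ∃ V : Submodule ℝ (Fin n → ℝ), Module.finrank ℝ V ≤ k ∧
      ∀ v, (∀ u ∈ V, u ⬝ᵥ v = 0) → sq (A *ᵥ v) ≤ sg * sq v) :
    ∃ p : Polynomial ℝ, p.natDegree ≤ k + κ * (q + 1) ∧ p.eval 0 = 1 ∧
      ∀ x, sq (Polynomial.aeval (Aᵀ * A) p *ᵥ x) ≤ (1 / 4) ^ q * sq x := by
  obtain ⟨V, hk, hV⟩ := hV
  have hherm : (Aᵀ * A).IsHermitian := by
    unfold Matrix.IsHermitian
    rw [conjTranspose_eq_transpose_of_trivial, transpose_mul, transpose_transpose]
  obtain ⟨U, D, hU, hM⟩ := F5_spec hherm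
  have hU' : Uᵀ * U = 1 := mul_eq_one_comm.1 hU
  have hD : ∀ i, sn ≤ D i := by
    intro i
    obtain ⟨h4, h5⟩ := F5_cols (A := A) hU' hM {i} (fun _ => 1)
    have h6 := hA (U.submatrix id (fun j : ({i} : Finset (Fin n)) => (j : Fin n)) *ᵥ fun _ => 1)
    rw [h4, h5] at h6
    have h7 : ∑ j : ({i} : Finset (Fin n)), (1 : ℝ) ^ 2 = 1 := by simp
    have h8 : ∑ j : ({i} : Finset (Fin n)), D j * (1 : ℝ) ^ 2 = D i := by
      rw [Finset.sum_coe_sort ({i} : Finset (Fin n)) (fun j => D j * (1 : ℝ) ^ 2)]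
      simp
    rw [h7, h8] at h6
    linarith
  set I := Finset.univ.filter fun i => sg < D i with hI
  have hcard : I.card ≤ k := F5_card hU' hM V hk hV I fun i hi => (Finset.mem_filter.1 hi).2
  obtain ⟨p2, hp2, hp20, hp2x⟩ := F5_small (κ := κ) (q := q) hsn hκ
  have hD0 : ∀ i, 0 < D i := fun i => lt_of_lt_of_le hsn (hD i)
  refine ⟨(∏ i ∈ I, (Polynomial.C 1 - Polynomial.C (1 / D i) * Polynomial.X)) * p2, ?_, ?_, ?_⟩
  · refine Polynomial.natDegree_mul_le.trans ?_
    have h1 : (∏ i ∈ I, (Polynomial.C (1 : ℝ) - Polynomial.C (1 / D i) * Polynomial.X)).natDegree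
        ≤ I.card := by
      refine (Polynomial.natDegree_prod_le _ _).trans ?_
      have h2 := Finset.sum_le_card_nsmul I
        (fun i => (Polynomial.C (1 : ℝ) - Polynomial.C (1 / D i) * Polynomial.X).natDegree) 1
        (fun i _ => F5_lin _ _)
      simpa using h2
    omega
  · rw [Polynomial.eval_mul, hp20, mul_one, Polynomial.eval_prod]
    refine Finset.prod_eq_one fun i _ => ?_
    simp
  · intro x
    have hval : ∀ i, (((∏ i ∈ I, (Polynomial.C 1 - Polynomial.C (1 / D i) * Polynomial.X)) *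
        p2).eval (D i)) ^ 2 ≤ (1 / 4 : ℝ) ^ q := by
      intro i
      rw [Polynomial.eval_mul, Polynomial.eval_prod]
      by_cases hi : i ∈ I
      · rw [Finset.prod_eq_zero hi, zero_mul]
        · rw [zero_pow two_ne_zero]; positivity
        · simp only [Polynomial.eval_sub, Polynomial.eval_mul, Polynomial.eval_C,
            Polynomial.eval_X]
          rw [one_div, inv_mul_cancel₀ (hD0 i).ne', sub_self]
      · have hi1 : D i ≤ sg := by
          by_contra h
          exact hi (Finset.mem_filter.2 ⟨Finset.mem_univ _, not_le.1 h⟩)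
        have h1 := hp2x (D i) (hD i) (hi1.trans hsg)
        have h2 : |∏ j ∈ I, (Polynomial.C 1 - Polynomial.C (1 / D j) * Polynomial.X).eval (D i)|
            ≤ 1 := by
          rw [Finset.abs_prod]
          refine Finset.prod_le_one (fun j _ => abs_nonneg _) fun j hj => ?_
          have hj1 : sg < D j := (Finset.mem_filter.1 hj).2
          simp only [Polynomial.eval_sub, Polynomial.eval_mul, Polynomial.eval_C,
            Polynomial.eval_X]
          have h3 : 1 / D j * D i ≤ 1 := by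
            rw [one_div, inv_mul_le_iff₀ (hD0 j)]; linarith
          have h4 : 0 ≤ 1 / D j * D i := by
            have := hD0 j; have := hD0 i; positivity
          rw [abs_le]; constructor <;> linarith
        have h5 : |(∏ j ∈ I, (Polynomial.C 1 - Polynomial.C (1 / D j) * Polynomial.X).eval (D i)) *
            p2.eval (D i)| ≤ (1 / 2) ^ q := by
          rw [abs_mul]
          calc _ ≤ 1 * (1 / 2 : ℝ) ^ q := mul_le_mul h2 h1 (abs_nonneg _) zero_le_one
            _ = _ := one_mul _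
        have h6 : ((1 / 2 : ℝ) ^ q) ^ 2 = (1 / 4) ^ q := by
          rw [← pow_mul, mul_comm, pow_mul]; norm_num
        rw [← h6]
        exact sq_le_sq' (by linarith [abs_le.1 h5]) (abs_le.1 h5).2
    have hUt : (Uᵀ)ᵀ * Uᵀ = 1 := by rw [transpose_transpose]; exact hU
    rw [hM, F5_aeval D hU hU', ← mulVec_mulVec, ← mulVec_mulVec, F5_iso hU']
    have h1 : sq x = sq (Uᵀ *ᵥ x) := (F5_iso hUt x).symm
    rw [h1]
    unfold sq
    rw [Finset.mul_sum]
    refine Finset.sum_le_sum fun i _ => ?_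
    rw [mulVec_diagonal, mul_pow]
    exact mul_le_mul_of_nonneg_right (hval i) (sq_nonneg _)

end A56
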