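import Pool.Agent.Lib_helper50.A56.FDefs
import Pool.Agent.Lib_helper50.A56.B.C12
/-!
# MP_a55cb8: block F6, the conjugate gradient program, the main program (helper92)
-/

open Matrix Finset

namespace A56

section

variable {mm : ℕ → ℕ} (Φ : Lib mm)

-- BEGIN COPY (alg_oc)
-- END COPY

theorem F6_cooT_ok {n : ℕ} {A0 : CooT.den} (hA : CooOK n n A0) : CooOK n n (cooT A0) :=
  fun e he => ⟨(hA e he).2, (hA e he).1⟩

theorem F6_cooT_mat (n : ℕ) (A0 : CooT.den) :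
    toM n n (cooA (cooT A0)) = (toM n n (cooA A0))ᵀ := by
  ext i j
  show cooA (cooT A0) i j = cooA A0 j i
  unfold cooA cooT
  refine sum_congr rfl fun e _ => ?_
  simp only [and_comm]

theorem F6_sq {n : ℕ} (x : Fin n → ℝ) : x ⬝ᵥ x = sq x := by
  unfold dotProduct sq
  exact sum_congr rfl fun i _ => by ring

theorem F6_step (n : ℕ) (A0 : CooT.den) (hA : CooOK n n A0) (s : CgT.den)
    (x r p : Fin n → ℝ) (hx : toV n s.1 = x) (hr : toV n s.2.1 = r) (hp : toV n s.2.2 = p) :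
    toV n (cgStep Φ n A0 s).1 = x + (sq r / sq p) • p ∧
    toV n (cgStep Φ n A0 s).2.1 = r - (sq r / sq p) • (toM n n (cooA A0) *ᵥ p) ∧
    toV n (cgStep Φ n A0 s).2.2 =
      (toM n n (cooA A0))ᵀ *ᵥ (r - (sq r / sq p) • (toM n n (cooA A0) *ᵥ p)) +
        (sq (r - (sq r / sq p) • (toM n n (cooA A0) *ᵥ p)) / sq r) • p := by
  have h1 : toV n (cgStep Φ n A0 s).2.1 = r - (sq r / sq p) • (toM n n (cooA A0) *ᵥ p) := by
    show toV n (Φ.lin (n, ((1, s.2.1), (-(Φ.dot (n, (s.2.1, s.2.1)) /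
      Φ.dot (n, (s.2.2, s.2.2))), Φ.mvC (n, (A0, s.2.2)))))) = _
    rw [Φ.lin_eq, Φ.mvC_eq _ _ _ _ hA, Φ.dot_eq, Φ.dot_eq, hr, hp, F6_sq, F6_sq, one_smul,
      neg_smul, ← sub_eq_add_neg]
  refine ⟨?_, h1, ?_⟩
  · show toV n (Φ.lin (n, ((1, s.1), (Φ.dot (n, (s.2.1, s.2.1)) /
      Φ.dot (n, (s.2.2, s.2.2)), s.2.2)))) = _
    rw [Φ.lin_eq, Φ.dot_eq, Φ.dot_eq, hx, hr, hp, F6_sq, F6_sq, one_smul]
  · show toV n (Φ.lin (n, ((1, Φ.mvC (n, (cooT A0, (cgStep Φ n A0 s).2.1))),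
      (Φ.dot (n, ((cgStep Φ n A0 s).2.1, (cgStep Φ n A0 s).2.1)) /
        Φ.dot (n, (s.2.1, s.2.1)), s.2.2)))) = _
    rw [Φ.lin_eq, Φ.mvC_eq _ _ _ _ (F6_cooT_ok hA), Φ.dot_eq, Φ.dot_eq, h1, hr, hp, F6_sq,
      F6_sq, one_smul, F6_cooT_mat]

theorem cgF_val (n : ℕ) (A0 : CooT.den) (hA : CooOK n n A0) (b : VecT.den) (m : ℕ) :
    toV n (cgF Φ n A0 b m) = (cgS (toM n n (cooA A0)) (toV n b) m).1 := by
  have key : ∀ m : ℕ,
      toV n (iterV (fun _ s => cgStep Φ n A0 s)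
        ((fun _ => 0), (b, Φ.mvC (n, (cooT A0, b)))) m : CgT.den).1 =
        (cgS (toM n n (cooA A0)) (toV n b) m).1 ∧
      toV n (iterV (fun _ s => cgStep Φ n A0 s)
        ((fun _ => 0), (b, Φ.mvC (n, (cooT A0, b)))) m : CgT.den).2.1 =
        (cgS (toM n n (cooA A0)) (toV n b) m).2.1 ∧
      toV n (iterV (fun _ s => cgStep Φ n A0 s)
        ((fun _ => 0), (b, Φ.mvC (n, (cooT A0, b)))) m : CgT.den).2.2 =
        (cgS (toM n n (cooA A0)) (toV n b) m).2.2 := by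
    intro m
    induction m with
    | zero =>
      refine ⟨?_, rfl, ?_⟩
      · funext i
        rfl
      · show toV n (Φ.mvC (n, (cooT A0, b))) = (toM n n (cooA A0))ᵀ *ᵥ toV n b
        rw [Φ.mvC_eq _ _ _ _ (F6_cooT_ok hA), F6_cooT_mat]
    | succ m ih =>
      obtain ⟨h1, h2, h3⟩ := ih
      exact F6_step Φ n A0 hA _ _ _ _ h1 h2 h3
  exact (key m).1

theorem F6_le_one {a b : ℕ} (h : a ≤ b) : a ≤ 1 * (b + 1) := by omega

theorem F6_arith1 (n m a : ℕ) : n + a ≤ (m + 1) * (a + n + 1) := by nlinarith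

theorem F6_arith2 (n m a : ℕ) :
    m * (a + n + 1) ≤ 1 * ((m + 1) * (a + n + 1) + 1) := by nlinarith

theorem F6_step_oc : OC (.prod (.prod (.prod .nat .nat) (.prod CooT VecT)) (.prod .nat CgT)) CgT
    (fun _ => True) (fun p => cgStep Φ p.1.1.1 p.1.2.1 p.2.2)
    (fun p => p.1.2.1.1 + p.1.1.1) := by
  have hn : OC (.prod (.prod (.prod .nat .nat) (.prod CooT VecT)) (.prod .nat CgT)) .nat
      (fun _ => True) (fun p => p.1.1.1) (fun p => p.1.2.1.1 + p.1.1.1) :=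
    OC.fst (OC.fst (OC.fst OC.id))
  have hA : OC (.prod (.prod (.prod .nat .nat) (.prod CooT VecT)) (.prod .nat CgT)) CooT
      (fun _ => True) (fun p => p.1.2.1) (fun p => p.1.2.1.1 + p.1.1.1) :=
    OC.fst (OC.snd (OC.fst OC.id))
  have hAT : OC (.prod (.prod (.prod .nat .nat) (.prod CooT VecT)) (.prod .nat CgT)) CooT
      (fun _ => True) (fun p => cooT p.1.2.1) (fun p => p.1.2.1.1 + p.1.1.1) :=
    OC.pair (OC.fst hA) (OC.pair (OC.fst (OC.snd (OC.snd hA)))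
      (OC.pair (OC.fst (OC.snd hA)) (OC.snd (OC.snd (OC.snd hA)))))
  have hs : OC (.prod (.prod (.prod .nat .nat) (.prod CooT VecT)) (.prod .nat CgT)) CgT
      (fun _ => True) (fun p => p.2.2) (fun p => p.1.2.1.1 + p.1.1.1) :=
    OC.snd (OC.snd OC.id)
  have hdot : ∀ {F G : (Ty.prod (.prod (.prod .nat .nat) (.prod CooT VecT))
      (.prod .nat CgT)).den → VecT.den},
      OC (.prod (.prod (.prod .nat .nat) (.prod CooT VecT)) (.prod .nat CgT)) VecT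
        (fun _ => True) F (fun p => p.1.2.1.1 + p.1.1.1) →
      OC (.prod (.prod (.prod .nat .nat) (.prod CooT VecT)) (.prod .nat CgT)) VecT
        (fun _ => True) G (fun p => p.1.2.1.1 + p.1.1.1) →
      OC (.prod (.prod (.prod .nat .nat) (.prod CooT VecT)) (.prod .nat CgT)) .real
        (fun _ => True) (fun p => Φ.dot (p.1.1.1, (F p, G p)))
        (fun p => p.1.2.1.1 + p.1.1.1) := by
    intro F G hF hG
    exact OC.comp (s := .prod (.prod (.prod .nat .nat) (.prod CooT VecT)) (.prod .nat CgT))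
      (F := fun p => (p.1.1.1, (F p, G p))) Φ.dot_oc (OC.pair hn (OC.pair hF hG))
      (fun _ _ => trivial) 1 (fun x _ => F6_le_one (Nat.le_add_left _ _))
  have hlin : ∀ {a c : (Ty.prod (.prod (.prod .nat .nat) (.prod CooT VecT))
      (.prod .nat CgT)).den → ℝ} {F G : (Ty.prod (.prod (.prod .nat .nat) (.prod CooT VecT))
      (.prod .nat CgT)).den → VecT.den},
      OC (.prod (.prod (.prod .nat .nat) (.prod CooT VecT)) (.prod .nat CgT)) .real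
        (fun _ => True) a (fun p => p.1.2.1.1 + p.1.1.1) →
      OC (.prod (.prod (.prod .nat .nat) (.prod CooT VecT)) (.prod .nat CgT)) VecT
        (fun _ => True) F (fun p => p.1.2.1.1 + p.1.1.1) →
      OC (.prod (.prod (.prod .nat .nat) (.prod CooT VecT)) (.prod .nat CgT)) .real
        (fun _ => True) c (fun p => p.1.2.1.1 + p.1.1.1) →
      OC (.prod (.prod (.prod .nat .nat) (.prod CooT VecT)) (.prod .nat CgT)) VecT
        (fun _ => True) G (fun p => p.1.2.1.1 + p.1.1.1) →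
      OC (.prod (.prod (.prod .nat .nat) (.prod CooT VecT)) (.prod .nat CgT)) VecT
        (fun _ => True) (fun p => Φ.lin (p.1.1.1, ((a p, F p), (c p, G p))))
        (fun p => p.1.2.1.1 + p.1.1.1) := by
    intro a c F G ha hF hc hG
    exact OC.comp (s := .prod (.prod (.prod .nat .nat) (.prod CooT VecT)) (.prod .nat CgT))
      (F := fun p => (p.1.1.1, ((a p, F p), (c p, G p)))) Φ.lin_oc
      (OC.pair hn (OC.pair (OC.pair ha hF) (OC.pair hc hG)))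
      (fun _ _ => trivial) 1 (fun x _ => F6_le_one (Nat.le_add_left _ _))
  have hrr := hdot (OC.fst (OC.snd hs)) (OC.fst (OC.snd hs))
  have hal := OC.div hrr (hdot (OC.snd (OC.snd hs)) (OC.snd (OC.snd hs)))
  have hmv : OC (.prod (.prod (.prod .nat .nat) (.prod CooT VecT)) (.prod .nat CgT)) VecT
      (fun _ => True) (fun p => Φ.mvC (p.1.1.1, (p.1.2.1, p.2.2.2.2)))
      (fun p => p.1.2.1.1 + p.1.1.1) :=
    OC.comp (s := .prod (.prod (.prod .nat .nat) (.prod CooT VecT)) (.prod .nat CgT))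
      (F := fun p => (p.1.1.1, (p.1.2.1, p.2.2.2.2))) Φ.mvC_oc
      (OC.pair hn (OC.pair hA (OC.snd (OC.snd hs))))
      (fun _ _ => trivial) 1 (fun x _ => F6_le_one (le_of_eq (Nat.add_comm _ _)))
  have hr := hlin OC.r1 (OC.fst (OC.snd hs)) (OC.neg hal) hmv
  have hmvT : OC (.prod (.prod (.prod .nat .nat) (.prod CooT VecT)) (.prod .nat CgT)) VecT
      (fun _ => True) (fun p => Φ.mvC (p.1.1.1, (cooT p.1.2.1,
        Φ.lin (p.1.1.1, ((1, p.2.2.2.1), (-(Φ.dot (p.1.1.1, (p.2.2.2.1, p.2.2.2.1)) /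
          Φ.dot (p.1.1.1, (p.2.2.2.2, p.2.2.2.2))),
          Φ.mvC (p.1.1.1, (p.1.2.1, p.2.2.2.2))))))))
      (fun p => p.1.2.1.1 + p.1.1.1) :=
    OC.comp (s := .prod (.prod (.prod .nat .nat) (.prod CooT VecT)) (.prod .nat CgT))
      (F := fun p => (p.1.1.1, (cooT p.1.2.1,
        Φ.lin (p.1.1.1, ((1, p.2.2.2.1), (-(Φ.dot (p.1.1.1, (p.2.2.2.1, p.2.2.2.1)) /
          Φ.dot (p.1.1.1, (p.2.2.2.2, p.2.2.2.2))),
          Φ.mvC (p.1.1.1, (p.1.2.1, p.2.2.2.2)))))))) Φ.mvC_oc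
      (OC.pair hn (OC.pair hAT hr))
      (fun _ _ => trivial) 1 (fun x _ => F6_le_one (le_of_eq (Nat.add_comm _ _)))
  have h1 := hlin OC.r1 (OC.fst hs) hal (OC.snd (OC.snd hs))
  have h2 := hlin OC.r1 hmvT (OC.div (hdot hr hr) hrr) (OC.snd (OC.snd hs))
  exact OC.pair h1 (OC.pair hr h2)

/-- input `((n, m), (A0, b))` -/
theorem cgF_oc : OC (.prod (.prod .nat .nat) (.prod CooT VecT)) VecT (fun _ => True)
    (fun y => cgF Φ y.1.1 y.2.1 y.2.2 y.1.2) (fun y => (y.1.2 + 1) * (y.2.1.1 + y.1.1 + 1)) := by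
  have hle : ∀ x : (Ty.prod (.prod .nat .nat) (.prod CooT VecT)).den,
      x.1.1 + x.2.1.1 ≤ (x.1.2 + 1) * (x.2.1.1 + x.1.1 + 1) := by
    intro x
    exact F6_arith1 _ _ _
  have h0 : OC (.prod (.prod .nat .nat) (.prod CooT VecT)) CgT (fun _ => True)
      (fun y => ((fun _ => 0), (y.2.2, Φ.mvC (y.1.1, (cooT y.2.1, y.2.2)))))
      (fun y => (y.1.2 + 1) * (y.2.1.1 + y.1.1 + 1)) := by
    refine OC.pair (OC.dflt VecT) (OC.pair (OC.snd (OC.snd OC.id)) ?_)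
    have hA : OC (.prod (.prod .nat .nat) (.prod CooT VecT)) CooT (fun _ => True)
      (fun y => y.2.1) (fun y => (y.1.2 + 1) * (y.2.1.1 + y.1.1 + 1)) := OC.fst (OC.snd OC.id)
    have hAT : OC (.prod (.prod .nat .nat) (.prod CooT VecT)) CooT (fun _ => True)
      (fun y => cooT y.2.1) (fun y => (y.1.2 + 1) * (y.2.1.1 + y.1.1 + 1)) :=
      OC.pair (OC.fst hA) (OC.pair (OC.fst (OC.snd (OC.snd hA)))
        (OC.pair (OC.fst (OC.snd hA)) (OC.snd (OC.snd (OC.snd hA)))))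
    exact OC.comp (s := .prod (.prod .nat .nat) (.prod CooT VecT))
      (F := fun y => (y.1.1, (cooT y.2.1, y.2.2))) Φ.mvC_oc
      (OC.pair (OC.fst (OC.fst OC.id)) (OC.pair hAT (OC.snd (OC.snd OC.id))))
      (fun _ _ => trivial) 1 (fun x _ => F6_le_one (hle x))
  have h1 := OC.iter (s := .prod (.prod .nat .nat) (.prod CooT VecT)) (t := CgT)
    (V := fun _ => True) (w := fun y => (y.1.2 + 1) * (y.2.1.1 + y.1.1 + 1))
    (N := fun y => y.1.2)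
    (A := fun y => ((fun _ => 0), (y.2.2, Φ.mvC (y.1.1, (cooT y.2.1, y.2.2)))))
    (B := fun y _ s => cgStep Φ y.1.1 y.2.1 s) (OC.snd (OC.fst OC.id)) h0
    ((F6_step_oc Φ).weaken fun _ _ => trivial) 1 (fun x _ => by
      show ∑ _j ∈ range x.1.2, (x.2.1.1 + x.1.1 + 1) ≤ _
      rw [sum_const, card_range, smul_eq_mul]
      exact F6_arith2 _ _ _)
  exact OC.fst h1

/-- the whole program on every run -/
theorem main_oc (c : Cst) (hc : 1000 ≤ c.c1) (hC2 : Φ.C ≤ c.c1) (hsq : ∀ m, (m + 1) ^ 2 ≤ mm m)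
    (hρ : ∀ x, rho0 Φ.C c x ≤ pK c x) :
    ∃ e, OC (.prod InT (.prod CooT (.prod VecT NArr))) VecT
      (fun y => CooOK y.1.1.1 y.1.1.1 y.2.1 ∧ y.2.1.1 = y.1.2.1 ∧ 1 ≤ y.1.2.2.1 ∧
        y.1.1.2 < y.1.1.1 ∧ y.1.1.1 ≤ y.1.2.1)
      (mainF Φ c) (fun y => wMain mm Φ.C e c y.1) := by
  obtain ⟨e, he⟩ := alg_oc Φ c hc hC2 hsq
  refine ⟨e, ?_⟩
  have hcg : ∀ V : (Ty.prod InT (.prod CooT (.prod VecT NArr))).den → Prop,
      (∀ y, V y → y.2.1.1 = y.1.2.1 ∧ ¬ (y.1.2.2.1 < y.1.1.2 ∧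
        y.1.2.2.1 * y.1.1.2 ≤ y.1.2.1)) →
      OC (.prod InT (.prod CooT (.prod VecT NArr))) VecT V
        (fun y => cgF Φ y.1.1.1 y.2.1 y.2.2.1 (y.1.1.2 + y.1.2.2.1 * (y.1.2.2.2 + 1)))
        (fun y => wMain mm Φ.C e c y.1) := by
    intro V hV
    refine OC.comp (s := .prod InT (.prod CooT (.prod VecT NArr)))
      (F := fun y => ((y.1.1.1, y.1.1.2 + y.1.2.2.1 * (y.1.2.2.2 + 1)),
      (y.2.1, y.2.2.1))) (cgF_oc Φ) ?_ (fun _ _ => trivial) 1 (fun y hy => ?_)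
    · exact OC.pair (OC.pair (OC.fst (OC.fst (OC.fst OC.id)))
        (OC.nadd (OC.snd (OC.fst (OC.fst OC.id)))
          (OC.nmul (OC.fst (OC.snd (OC.snd (OC.fst OC.id))))
            (OC.nadd (OC.snd (OC.snd (OC.snd (OC.fst OC.id)))) (OC.nlit 1)))))
        (OC.pair (OC.fst (OC.snd OC.id)) (OC.fst (OC.snd (OC.snd OC.id))))
    · obtain ⟨h1, h2⟩ := hV y hy
      refine F6_le_one (le_of_eq ?_)
      show (y.1.1.2 + y.1.2.2.1 * (y.1.2.2.2 + 1) + 1) * (y.2.1.1 + y.1.1.1 + 1) = _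
      rw [wMain, if_neg h2, h1]
  have hk : ∀ {V : (Ty.prod InT (.prod CooT (.prod VecT NArr))).den → Prop}
      {w : (Ty.prod InT (.prod CooT (.prod VecT NArr))).den → ℕ},
      OC (.prod InT (.prod CooT (.prod VecT NArr))) .nat V (fun y => y.1.1.2) w :=
    OC.snd (OC.fst (OC.fst OC.id))
  have hκ : ∀ {V : (Ty.prod InT (.prod CooT (.prod VecT NArr))).den → Prop}
      {w : (Ty.prod InT (.prod CooT (.prod VecT NArr))).den → ℕ},
      OC (.prod InT (.prod CooT (.prod VecT NArr))) .nat V (fun y => y.1.2.2.1) w :=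
    OC.fst (OC.snd (OC.snd (OC.fst OC.id)))
  have hN : ∀ {V : (Ty.prod InT (.prod CooT (.prod VecT NArr))).den → Prop}
      {w : (Ty.prod InT (.prod CooT (.prod VecT NArr))).den → ℕ},
      OC (.prod InT (.prod CooT (.prod VecT NArr))) .nat V (fun y => y.1.2.1) w :=
    OC.fst (OC.snd (OC.fst OC.id))
  refine OC.ifN hκ hk (OC.ifN (OC.nmul hκ hk) (OC.nadd hN (OC.nlit 1)) ?_ (hcg _ ?_))
    (hcg _ ?_)
  · refine OC.le (he.weaken ?_) 1 ?_
    · rintro y ⟨⟨⟨h1, h2, h3, h4, h5⟩, h6⟩, h7⟩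
      exact ⟨h1, h2, hρ _, lt_of_le_of_lt (Nat.zero_le _) h6, h4, h5⟩
    · rintro y ⟨⟨⟨h1, h2, h3, h4, h5⟩, h6⟩, h7⟩
      refine F6_le_one (le_of_eq ?_)
      rw [wMain, if_pos ⟨h6, Nat.lt_succ_iff.1 h7⟩]
  · rintro y ⟨⟨⟨h1, h2, h3, h4, h5⟩, h6⟩, h7⟩
    exact ⟨h2, fun h => h7 (Nat.lt_succ_iff.2 h.2)⟩
  · rintro y ⟨⟨h1, h2, h3, h4, h5⟩, h7⟩
    exact ⟨h2, fun h => h7 h.1⟩

end

end A56
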