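import Pool.Agent.Lib_helper50.A56.FDefs
/-!
# MP_a55cb8: block F7
-/

open Matrix Finset

namespace A56

section F7sec

variable {n : ℕ} (A : Matrix (Fin n) (Fin n) ℝ)

/-- the index of an eigenvector -/
noncomputable def F7_ix (n : ℕ) : Fin n ≃ Fin (Fintype.card (Fin n)) :=
  (Fintype.equivOfCardEq (Fintype.card_fin _)).symm

/-- the eigenvalues of `AᵀA` -/
noncomputable def F7_ev (i : Fin n) : ℝ :=
  (Matrix.isHermitian_conjTranspose_mul_self A).eigenvalues i

/-- the eigenvectors of `AᵀA` -/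
noncomputable def F7_b : OrthonormalBasis (Fin n) ℝ (EuclideanSpace ℝ (Fin n)) :=
  (Matrix.isHermitian_conjTranspose_mul_self A).eigenvectorBasis

/-- the eigenvectors of `AᵀA` as vectors -/
noncomputable def F7_v (i : Fin n) : Fin n → ℝ := (F7_b A i).ofLp

theorem F7_mul (i : Fin n) : (Aᵀ * A) *ᵥ F7_v A i = F7_ev A i • F7_v A i :=
  (Matrix.isHermitian_conjTranspose_mul_self A).mulVec_eigenvectorBasis i

theorem F7_inner (i : Fin n) (x : Fin n → ℝ) :
    inner ℝ (F7_b A i) (WithLp.toLp 2 x) = F7_v A i ⬝ᵥ x := by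
  rw [EuclideanSpace.inner_eq_star_dotProduct]
  simp [F7_v, dotProduct_comm]

theorem F7_sq (x : Fin n → ℝ) : sq x = ∑ i, (F7_v A i ⬝ᵥ x) ^ 2 := by
  have h := (F7_b A).sum_sq_norm_inner_right (WithLp.toLp 2 x)
  have h2 : ‖(WithLp.toLp 2 x : EuclideanSpace ℝ (Fin n))‖ ^ 2 = sq x := by
    rw [EuclideanSpace.norm_sq_eq]
    simp [sq]
  rw [h2] at h
  rw [← h]
  apply Finset.sum_congr rfl
  intro i _
  rw [F7_inner, Real.norm_eq_abs, sq_abs]

theorem F7_repr (x : Fin n → ℝ) : x = ∑ i, (F7_v A i ⬝ᵥ x) • F7_v A i := by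
  have h := (F7_b A).sum_repr' (WithLp.toLp 2 x)
  have h2 := congrArg (fun z : EuclideanSpace ℝ (Fin n) => z.ofLp) h
  simp only [WithLp.ofLp_sum, WithLp.ofLp_smul] at h2
  rw [← h2]
  apply Finset.sum_congr rfl
  intro i _
  rw [F7_inner]
  have : (∑ j, (inner ℝ (F7_b A j) (WithLp.toLp 2 x) : ℝ) • (F7_b A j).ofLp) = x := h2
  rw [this]
  rfl

theorem F7_form (x : Fin n → ℝ) : sq (A *ᵥ x) = ∑ i, F7_ev A i * (F7_v A i ⬝ᵥ x) ^ 2 := by
  have h1 : sq (A *ᵥ x) = x ⬝ᵥ ((Aᵀ * A) *ᵥ x) := by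
    rw [← Matrix.mulVec_mulVec, Matrix.dotProduct_mulVec, Matrix.vecMul_transpose]
    simp [sq, dotProduct, pow_two]
  rw [h1]
  conv_lhs =>
    arg 2
    rw [F7_repr A x]
  rw [Matrix.mulVec_sum, dotProduct_sum]
  apply Finset.sum_congr rfl
  intro i _
  rw [Matrix.mulVec_smul, F7_mul, dotProduct_smul, dotProduct_smul, dotProduct_comm x]
  simp only [smul_eq_mul]
  ring

theorem F7_vv (i : Fin n) : sq (F7_v A i) = 1 := by
  have h : ‖F7_b A i‖ = 1 := (F7_b A).orthonormal.1 i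
  have h2 : ‖F7_b A i‖ ^ 2 = sq (F7_v A i) := by
    rw [EuclideanSpace.norm_sq_eq]
    simp [sq, F7_v]
  rw [← h2, h]
  norm_num

theorem F7_sqpos (x : Fin n → ℝ) (h : x ≠ 0) : 0 < sq x := by
  unfold sq
  obtain ⟨i, hi⟩ := Function.ne_iff.mp h
  have h0 : ∀ j ∈ (Finset.univ : Finset (Fin n)), 0 ≤ x j ^ 2 := fun j _ => sq_nonneg _
  refine lt_of_lt_of_le ?_ (Finset.single_le_sum h0 (Finset.mem_univ i))
  exact pow_pos_of_ne hi
where pow_pos_of_ne {a : ℝ} (h : a ≠ 0) : 0 < a ^ 2 := by positivity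

theorem F7_evpos (hA : IsUnit A.det) (i : Fin n) : 0 < F7_ev A i := by
  have h1 : sq (A *ᵥ F7_v A i) = F7_ev A i := by
    have h2 : sq (A *ᵥ F7_v A i) = F7_v A i ⬝ᵥ ((Aᵀ * A) *ᵥ F7_v A i) := by
      rw [← Matrix.mulVec_mulVec, Matrix.dotProduct_mulVec, Matrix.vecMul_transpose]
      simp [sq, dotProduct, pow_two]
    rw [h2, F7_mul, dotProduct_smul]
    have h3 : F7_v A i ⬝ᵥ F7_v A i = 1 := by
      rw [← F7_vv A i]
      simp [sq, dotProduct, pow_two]
    rw [h3]
    simp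
  rw [← h1]
  apply F7_sqpos
  intro h0
  have h4 : F7_v A i = 0 := by
    have h5 : A⁻¹ *ᵥ (A *ᵥ F7_v A i) = F7_v A i := by
      rw [Matrix.mulVec_mulVec, Matrix.nonsing_inv_mul A hA, Matrix.one_mulVec]
    rw [← h5, h0, Matrix.mulVec_zero]
  have h6 := F7_vv A i
  rw [h4] at h6
  simp [sq] at h6

theorem F7_sval (j : ℕ) (h : j < n) : ∃ i : Fin n, ((F7_ix n i : Fin _) : ℕ) = j ∧
    sval A j = Real.sqrt (F7_ev A i) := by
  refine ⟨(F7_ix n).symm ⟨j, by simpa using h⟩, ?_, ?_⟩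
  · simp
  · unfold sval
    rw [dif_pos h]
    unfold F7_ev Matrix.IsHermitian.eigenvalues
    congr 2
    exact ((F7_ix n).apply_symm_apply _).symm

theorem F7_anti (i j : Fin n) (h : ((F7_ix n i : Fin _) : ℕ) ≤ F7_ix n j) :
    F7_ev A j ≤ F7_ev A i := by
  unfold F7_ev Matrix.IsHermitian.eigenvalues
  exact (Matrix.isHermitian_conjTranspose_mul_self A).eigenvalues₀_antitone h

end F7sec

theorem sval_facts {n : ℕ} (A : Matrix (Fin n) (Fin n) ℝ) (hA : IsUnit A.det) (k : ℕ)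
    (hk : k < n) : 0 < sval A (n - 1) ∧ 0 < sval A k ∧
      (∀ v, sval A (n - 1) ^ 2 * sq v ≤ sq (A *ᵥ v)) ∧
      ∃ V : Submodule ℝ (Fin n → ℝ), Module.finrank ℝ V ≤ k ∧
        ∀ v, (∀ u ∈ V, u ⬝ᵥ v = 0) → sq (A *ᵥ v) ≤ sval A k ^ 2 * sq v := by
  obtain ⟨iN, hN1, hN2⟩ := F7_sval A (n - 1) (by omega)
  obtain ⟨iK, hK1, hK2⟩ := F7_sval A k hk
  have hlt : ∀ i : Fin n, ((F7_ix n i : Fin _) : ℕ) < n := by
    intro i
    have := (F7_ix n i).2
    simpa using this
  refine ⟨?_, ?_, ?_, ?_⟩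
  · rw [hN2]; exact Real.sqrt_pos.mpr (F7_evpos A hA _)
  · rw [hK2]; exact Real.sqrt_pos.mpr (F7_evpos A hA _)
  · intro v
    rw [hN2, Real.sq_sqrt (F7_evpos A hA _).le, F7_form A v, F7_sq A v, Finset.mul_sum]
    apply Finset.sum_le_sum
    intro i _
    apply mul_le_mul_of_nonneg_right _ (sq_nonneg _)
    apply F7_anti
    have := hlt i
    omega
  · classical
    let F : Finset (Fin n) := Finset.univ.filter fun i => ((F7_ix n i : Fin _) : ℕ) < k
    refine ⟨Submodule.span ℝ ((F.image (F7_v A) : Finset (Fin n → ℝ)) : Set (Fin n → ℝ)), ?_, ?_⟩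
    · refine (finrank_span_finset_le_card _).trans ?_
      refine Finset.card_image_le.trans ?_
      have : F.card ≤ (Finset.range k).card := by
        apply Finset.card_le_card_of_injOn (fun i => ((F7_ix n i : Fin _) : ℕ))
        · intro i hi
          have := (Finset.mem_filter.mp hi).2
          simpa using this
        · intro i _ j _ hij
          exact (F7_ix n).injective (Fin.ext hij)
      simpa using this
    · intro v hv
      rw [hK2, Real.sq_sqrt (F7_evpos A hA _).le, F7_form A v, F7_sq A v, Finset.mul_sum]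
      apply Finset.sum_le_sum
      intro i _
      by_cases hi : ((F7_ix n i : Fin _) : ℕ) < k
      · have h0 : F7_v A i ⬝ᵥ v = 0 := by
          apply hv
          apply Submodule.subset_span
          simp only [Finset.coe_image, Set.mem_image]
          exact ⟨i, by simpa [F] using hi, rfl⟩
        rw [h0]
        simp
      · apply mul_le_mul_of_nonneg_right _ (sq_nonneg _)
        apply F7_anti
        omega

theorem nnz_facts {n N : ℕ} (A : Matrix (Fin n) (Fin n) ℝ) (hA : IsUnit A.det)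
    (e : Fin N ≃ {p : Fin n × Fin n // A p.1 p.2 ≠ 0}) : n ≤ N ∧ N ≤ n ^ 2 := by
  classical
  have hN : N = Fintype.card {p : Fin n × Fin n // A p.1 p.2 ≠ 0} := by
    rw [← Fintype.card_congr e, Fintype.card_fin]
  have hrow : ∀ i : Fin n, ∃ j : Fin n, A i j ≠ 0 := by
    intro i
    by_contra hcon
    push Not at hcon
    have : A.det = 0 := Matrix.det_eq_zero_of_row_eq_zero i hcon
    rw [this] at hA
    simp at hA
  choose f hf using hrow
  constructor
  · rw [hN]
    have := Fintype.card_le_of_injective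
      (fun i : Fin n => (⟨(i, f i), hf i⟩ : {p : Fin n × Fin n // A p.1 p.2 ≠ 0}))
      (fun i j hij => by simpa using congrArg (fun z => z.1.1) hij)
    simpa using this
  · rw [hN]
    refine (Fintype.card_subtype_le _).trans ?_
    simp [pow_two]

end A56
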