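import Pool.Agent.Lib_helper50.A56.FDefs
/-! # MP_a55cb8, block F8 (helper76) -/

open Matrix Finset

namespace A56

/-- the list of the matrix -/
noncomputable def inA {n N : ℕ} (A : Matrix (Fin n) (Fin n) ℝ)
    (e : Fin N ≃ {p : Fin n × Fin n // A p.1 p.2 ≠ 0}) : CooT.den :=
  (N, ((fun i => if h : i < N then ((e ⟨i, h⟩).1.1 : ℕ) else 0),
    ((fun i => if h : i < N then ((e ⟨i, h⟩).1.2 : ℕ) else 0),
      (fun i => if h : i < N then A (e ⟨i, h⟩).1.1 (e ⟨i, h⟩).1.2 else 0))))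

theorem F8_fst {n N : ℕ} (A : Matrix (Fin n) (Fin n) ℝ)
    (e : Fin N ≃ {p : Fin n × Fin n // A p.1 p.2 ≠ 0}) : (inA A e).1 = N := rfl

theorem F8_row {n N : ℕ} (A : Matrix (Fin n) (Fin n) ℝ)
    (e : Fin N ≃ {p : Fin n × Fin n // A p.1 p.2 ≠ 0}) {a : ℕ} (h : a < N) :
    (inA A e).2.1 a = ((e ⟨a, h⟩).1.1 : ℕ) := by simp [inA, h]

theorem F8_col {n N : ℕ} (A : Matrix (Fin n) (Fin n) ℝ)
    (e : Fin N ≃ {p : Fin n × Fin n // A p.1 p.2 ≠ 0}) {a : ℕ} (h : a < N) :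
    (inA A e).2.2.1 a = ((e ⟨a, h⟩).1.2 : ℕ) := by simp [inA, h]

theorem F8_val {n N : ℕ} (A : Matrix (Fin n) (Fin n) ℝ)
    (e : Fin N ≃ {p : Fin n × Fin n // A p.1 p.2 ≠ 0}) {a : ℕ} (h : a < N) :
    (inA A e).2.2.2 a = A (e ⟨a, h⟩).1.1 (e ⟨a, h⟩).1.2 := by simp [inA, h]

/-- two list entries at the same place are equal -/
theorem F8_inj {n N : ℕ} (A : Matrix (Fin n) (Fin n) ℝ)
    (e : Fin N ≃ {p : Fin n × Fin n // A p.1 p.2 ≠ 0}) {a a' : ℕ} (h : a < N) (h' : a' < N)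
    (h1 : (inA A e).2.1 a = (inA A e).2.1 a') (h2 : (inA A e).2.2.1 a = (inA A e).2.2.1 a') :
    a = a' := by
  rw [F8_row A e h, F8_row A e h'] at h1
  rw [F8_col A e h, F8_col A e h'] at h2
  have h3 : e ⟨a, h⟩ = e ⟨a', h'⟩ := by
    apply Subtype.ext
    exact Prod.ext (Fin.ext h1) (Fin.ext h2)
  exact congrArg Fin.val (e.injective h3)

theorem inA_ok {n N : ℕ} (A : Matrix (Fin n) (Fin n) ℝ)
    (e : Fin N ≃ {p : Fin n × Fin n // A p.1 p.2 ≠ 0}) :
    CooOK n n (inA A e) ∧ (inA A e).1 = N ∧ toM n n (cooA (inA A e)) = A ∧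
      ∀ i j, ((range (inA A e).1).filter fun a =>
        (inA A e).2.1 a = i ∧ (inA A e).2.2.1 a = j).card ≤ 1 := by
  refine ⟨?_, rfl, ?_, ?_⟩
  · intro a ha
    rw [F8_fst] at ha
    rw [F8_row A e ha, F8_col A e ha]
    exact ⟨Fin.is_lt _, Fin.is_lt _⟩
  · ext i j
    show cooA (inA A e) i j = A i j
    unfold cooA
    rw [F8_fst]
    by_cases hA : A i j = 0
    · rw [hA]
      refine sum_eq_zero fun a ha => ?_
      rw [mem_range] at ha
      rw [F8_row A e ha, F8_col A e ha, F8_val A e ha]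
      split_ifs with h
      · exfalso
        have h1 : (e ⟨a, ha⟩).1.1 = i := Fin.ext h.1
        have h2 : (e ⟨a, ha⟩).1.2 = j := Fin.ext h.2
        have := (e ⟨a, ha⟩).2
        rw [h1, h2] at this
        exact this hA
      · rfl
    · obtain ⟨a, ha⟩ : ∃ a, a = e.symm ⟨(i, j), hA⟩ := ⟨_, rfl⟩
      have hea : e a = ⟨(i, j), hA⟩ := by rw [ha, Equiv.apply_symm_apply]
      rw [sum_eq_single (a : ℕ)]
      · rw [F8_row A e a.2, F8_col A e a.2, F8_val A e a.2]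
        simp [hea]
      · intro b hb hne
        rw [mem_range] at hb
        split_ifs with h
        · exfalso
          refine hne (F8_inj A e hb a.2 ?_ ?_)
          · rw [h.1, F8_row A e a.2]
            simp [hea]
          · rw [h.2, F8_col A e a.2]
            simp [hea]
        · rfl
      · intro h
        exact absurd (mem_range.2 a.2) h
  · intro i j
    rw [card_le_one]
    intro a ha b hb
    rw [mem_filter, mem_range] at ha hb
    exact F8_inj A e ha.1 hb.1 (ha.2.1.trans hb.2.1.symm) (ha.2.2.trans hb.2.2.symm)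

/-- a program on the input environment from a program on the data -/
theorem env_prog {V : (Ty.prod InT (.prod CooT (.prod VecT NArr))).den → Prop}
    {F : (Ty.prod InT (.prod CooT (.prod VecT NArr))).den → VecT.den}
    {w : (Ty.prod InT (.prod CooT (.prod VecT NArr))).den → ℕ}
    (h : OC (.prod InT (.prod CooT (.prod VecT NArr))) VecT V F w) :
    ∃ (P : Tm VecT) (C : ℕ), ∀ (n k N κ q m : ℕ) (A : Matrix (Fin n) (Fin n) ℝ) (b : Fin n → ℝ)
      (e : Fin N ≃ {p : Fin n × Fin n // A p.1 p.2 ≠ 0}) (r : Fin m → Bool)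
      (y : (Ty.prod InT (.prod CooT (.prod VecT NArr))).den),
      y = (((n, k), (N, (κ, q))), (inA A e, ((fun i => if h : i < n then b ⟨i, h⟩ else 0),
        bw r))) → V y →
      (P.eval (input k κ q A b e r)).1 = F y ∧
        (P.eval (input k κ q A b e r)).2 ≤ C * (w y + 1) := by
  obtain ⟨C, Q, hQ⟩ := h
  refine ⟨.letE 0 (.pair (.pair (.pair (.var .nat 0) (.var .nat 1))
    (.pair (.var .nat 2) (.pair (.var .nat 3) (.var .nat 4))))
    (.pair (.pair (.var .nat 2) (.pair (.var NArr 0) (.pair (.var NArr 1) (.var VecT 0))))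
      (.pair (.var VecT 1) (.var NArr 2)))) Q, C + 30, ?_⟩
  intro n k N κ q m A b e r y hy hV
  obtain ⟨ρ, hρ⟩ : ∃ ρ, ρ = input k κ q A b e r := ⟨_, rfl⟩
  rw [← hρ]
  have e0 : ρ.val .nat 0 = n := by rw [hρ]; simp [input, Env.set]
  have e1 : ρ.val .nat 1 = k := by rw [hρ]; simp [input, Env.set]
  have e2 : ρ.val .nat 2 = N := by rw [hρ]; simp [input, Env.set]
  have e3 : ρ.val .nat 3 = κ := by rw [hρ]; simp [input, Env.set]
  have e4 : ρ.val .nat 4 = q := by rw [hρ]; simp [input, Env.set]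
  have e5 : ρ.val NArr 0 = (inA A e).2.1 := by rw [hρ]; simp [input, Env.set, inA]
  have e6 : ρ.val NArr 1 = (inA A e).2.2.1 := by rw [hρ]; simp [input, Env.set, inA]
  have e7 : ρ.val VecT 0 = (inA A e).2.2.2 := by rw [hρ]; simp [input, Env.set, inA]
  have e8 : ρ.val VecT 1 = fun i => if h : i < n then b ⟨i, h⟩ else 0 := by
    rw [hρ]; simp [input, Env.set]
  have e9 : ρ.val NArr 2 = bw r := by
    rw [hρ]; simp [input, Env.set]; rfl
  have hy2 : y = (((ρ.val .nat 0, ρ.val .nat 1), (ρ.val .nat 2, (ρ.val .nat 3, ρ.val .nat 4))),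
      ((ρ.val .nat 2, (ρ.val NArr 0, (ρ.val NArr 1, ρ.val VecT 0))),
        (ρ.val VecT 1, ρ.val NArr 2))) := by
    rw [e0, e1, e2, e3, e4, e5, e6, e7, e8, e9, hy]
    rfl
  have h1 := hQ (ρ.set (.prod InT (.prod CooT (.prod VecT NArr))) 0 y) (by
    rw [Env.set_same]; exact hV)
  rw [Env.set_same] at h1
  simp only [Tm.eval]
  rw [← hy2]
  refine ⟨h1.1, ?_⟩
  have h2 := h1.2
  nlinarith [Nat.zero_le (w y)]

end A56
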