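import Pool.Agent.Lib_helper50.A56.FDefs
/-! # MP_a55cb8, block F9 (helper76) -/

open Matrix Finset

namespace A56

abbrev F9_T : Ty := .prod .nat (.prod MatT MatT)

theorem F9_num (m : ℕ) : m * (m ^ 2 + 1) ≤ 2 * (m ^ 3 + 1) := by
  have h : m ≤ m ^ 3 := Nat.le_self_pow (by norm_num) _
  have h2 : m * (m ^ 2 + 1) = m ^ 3 + m := by ring
  omega

theorem F9_oc : OC F9_T MatT (fun _ => True)
    (fun x => tabV VecT x.1 (fun i => tabV .real x.1 (fun j =>
      ∑ l ∈ range x.1, x.2.1 i l * x.2.2 l j))) (fun x => x.1 ^ 3) := by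
  refine OC.tab (w' := fun p => p.1.1 ^ 2) (OC.fst OC.id) ?_ 2 ?_
  · refine OC.tab (s := .prod F9_T .nat) (w' := fun p => p.1.1.1) (OC.fst (OC.fst OC.id)) ?_ 2 ?_
    · refine OC.sum (s := .prod (.prod F9_T .nat) .nat) (w' := fun _ => 0)
        (OC.fst (OC.fst (OC.fst OC.id))) ?_ 1 ?_
      · refine OC.mul ?_ ?_
        · exact OC.get (OC.get (OC.fst (OC.snd (OC.fst (OC.fst (OC.fst OC.id)))))
            (OC.snd (OC.fst (OC.fst OC.id)))) (OC.snd OC.id)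
        · exact OC.get (OC.get (OC.snd (OC.snd (OC.fst (OC.fst (OC.fst OC.id)))))
            (OC.snd OC.id)) (OC.snd (OC.fst OC.id))
      · intro x _
        simp
    · intro x _
      simp only [sum_const, card_range, smul_eq_mul]
      nlinarith
  · intro x _
    simp only [sum_const, card_range, smul_eq_mul]
    exact F9_num x.1

theorem naive_mul : ∃ (Mul : Tm MatT) (c : ℕ), IsMul Mul c 3 := by
  obtain ⟨C, Q, hQ⟩ := F9_oc
  refine ⟨.letE 0 (.pair (.var .nat 0) (.pair (.var MatT 0) (.var MatT 1))) Q, C + 6, ?_⟩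
  intro m ρ hm
  have h := hQ (ρ.set F9_T 0 (ρ.val .nat 0, (ρ.val MatT 0, ρ.val MatT 1))) trivial
  rw [Env.set_same] at h
  rw [hm] at h
  simp only [Tm.eval, hm]
  refine ⟨fun i hi j hj => ?_, ?_⟩
  · rw [h.1]
    simp only
    rw [tabV_lt hi, tabV_lt hj]
  · have h1 := h.2
    simp only at h1
    have h2 : (1 + (1 + 1 + (1 + 1 + 1)) +
        (Q.eval (ρ.set F9_T 0 (m, (ρ.val MatT 0, ρ.val MatT 1)))).2 : ℕ) ≤
        (C + 6) * (m + 1) ^ 3 := by
      have h3 : m ^ 3 + 1 ≤ (m + 1) ^ 3 := by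
        have : (m + 1) ^ 3 = m ^ 3 + 3 * m ^ 2 + 3 * m + 1 := by ring
        omega
      have h4 : C * (m ^ 3 + 1) ≤ C * (m + 1) ^ 3 := Nat.mul_le_mul_left _ h3
      have h5 : 1 ≤ (m + 1) ^ 3 := Nat.one_le_pow _ _ (by omega)
      nlinarith
    have h6 : ((1 + (1 + 1 + (1 + 1 + 1)) +
        (Q.eval (ρ.set F9_T 0 (m, (ρ.val MatT 0, ρ.val MatT 1)))).2 : ℕ) : ℝ) ≤
        (((C + 6) * (m + 1) ^ 3 : ℕ) : ℝ) := by exact_mod_cast h2
    refine h6.trans (le_of_eq ?_)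
    have h7 : ((m : ℝ) + 1) ^ (3 : ℝ) = ((m : ℝ) + 1) ^ (3 : ℕ) := by
      rw [← Real.rpow_natCast]; norm_num
    rw [h7]
    push_cast
    ring

end A56
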