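import Pool.Agent.Lib_helper50.A56.Prog
/-!
# MP_a55cb8: block P11 (helper38): products of dense rectangular matrices
-/

open Matrix Finset

namespace A56

theorem P11_set_ty (ρ : Env) (s : Ty) (x : ℕ) (v : s.den) (t : Ty) (y : ℕ) (h : s ≠ t) :
    (ρ.set s x v).val t y = ρ.val t y := by
  simp [Env.set, h]

/-- the argument type of the square multiplication -/
abbrev P11_T : Ty := .prod .nat (.prod MatT MatT)

/-- the product of two `m × m` matrices as a table -/
noncomputable def P11_mul (x : P11_T.den) : MatT.den :=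
  tabV VecT x.1 fun i => tabV .real x.1 fun j => ∑ l ∈ range x.1, x.2.1 i l * x.2.2 l j

/-- the program -/
def P11_prog (Mul : Tm MatT) : Tm MatT :=
  .letE (s := MatT) 2
    (.letE (s := MatT) 1 (.snd (.snd (.var P11_T 0)))
      (.letE (s := MatT) 0 (.fst (.snd (.var P11_T 0)))
        (.letE (s := .nat) 0 (.fst (.var P11_T 0)) Mul)))
    (.tab (.fst (.var P11_T 0)) 1
      (.tab (.fst (.var P11_T 0)) 2
        (.get (.get (.var MatT 2) (.var .nat 1)) (.var .nat 2))))

theorem P11_arith {a b M W : ℕ} (h2 : a ≤ M) (h3 : b ≤ M) (h : (M + 1) ^ 2 ≤ W) :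
    a * (b + 1) ≤ 1 * (W + 1) := by
  have h4 : a * (b + 1) ≤ M * (M + 1) := Nat.mul_le_mul h2 (by omega)
  nlinarith

theorem P11_T_ne1 : MatT ≠ P11_T := by simp [P11_T]
theorem P11_T_ne2 : Ty.nat ≠ P11_T := by simp [P11_T]
theorem P11_T_ne3 : Ty.nat ≠ MatT := by simp

theorem P11_cp (Mul : Tm MatT) (mm : ℕ → ℕ) (hMul : MulOK Mul mm) :
    Cp P11_T MatT (fun _ _ => True) P11_mul (fun x => mm x.1 + 20 * (x.1 + 1) ^ 2) := by
  refine ⟨P11_prog Mul, fun ρ _ => ?_⟩
  set x := ρ.val P11_T 0 with hx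
  set ρ₁ : Env := ρ.set MatT 1 x.2.2 with h1
  set ρ₂ : Env := ρ₁.set MatT 0 x.2.1 with h2
  set ρ₃ : Env := ρ₂.set .nat 0 x.1 with h3
  have v1 : ρ₁.val P11_T 0 = x := by rw [h1, P11_set_ty _ _ _ _ _ _ P11_T_ne1]
  have v2 : ρ₂.val P11_T 0 = x := by rw [h2, P11_set_ty _ _ _ _ _ _ P11_T_ne1, v1]
  have m0 : ρ₃.val .nat 0 = x.1 := by rw [h3, Env.set_same]
  have m1 : ρ₃.val MatT 0 = x.2.1 := by
    rw [h3, P11_set_ty _ _ _ _ _ _ P11_T_ne3, h2, Env.set_same]
  have m2 : ρ₃.val MatT 1 = x.2.2 := by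
    rw [h3, P11_set_ty _ _ _ _ _ _ P11_T_ne3, h2, Env.set_ne _ _ _ _ _ _ (by decide), h1,
      Env.set_same]
  obtain ⟨k1, k2⟩ := hMul x.1 ρ₃ m0
  rw [m1, m2] at k1
  set R := (Mul.eval ρ₃).1 with hR
  have w1 : (ρ.set MatT 2 R).val P11_T 0 = x := by rw [P11_set_ty _ _ _ _ _ _ P11_T_ne1]
  have w2 : ∀ i : ℕ, ((ρ.set MatT 2 R).set .nat 1 i).val P11_T 0 = x := fun i => by
    rw [P11_set_ty _ _ _ _ _ _ P11_T_ne2, w1]
  have w3 : ∀ i j : ℕ, (((ρ.set MatT 2 R).set .nat 1 i).set .nat 2 j).val MatT 2 = R :=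
    fun i j => by
    rw [P11_set_ty _ _ _ _ _ _ P11_T_ne3, P11_set_ty _ _ _ _ _ _ P11_T_ne3, Env.set_same]
  have w4 : ∀ i j : ℕ, (((ρ.set MatT 2 R).set .nat 1 i).set .nat 2 j).val .nat 1 = i :=
    fun i j => by
    rw [Env.set_ne _ _ _ _ _ _ (by decide), Env.set_same]
  have ev : (P11_prog Mul).eval ρ =
      ((fun i : ℕ => if i < x.1 then (fun j : ℕ => if j < x.1 then R i j else Ty.real.default)
          else VecT.default),
        1 + (1 + 3 + (1 + 3 + (1 + 2 + (Mul.eval ρ₃).2))) +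
          (1 + 2 + ∑ _i ∈ range x.1, (1 + 2 + ∑ _j ∈ range x.1, 5))) := by
    simp only [P11_prog, Tm.eval, ← hx, ← h1, v1, ← h2, v2, ← h3, ← hR, w1, w2, w3, w4,
      Env.set_same]
  rw [ev]
  constructor
  · simp only [P11_mul]
    funext i
    by_cases hi : i < x.1
    · rw [tabV_lt hi]
      simp only [hi, if_true]
      funext j
      by_cases hj : j < x.1
      · rw [tabV_lt hj]
        simp only [hj, if_true]
        exact k1 i hi j hj
      · rw [tabV_ge (not_lt.1 hj)]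
        simp only [hj, if_false]
    · rw [tabV_ge (not_lt.1 hi)]
      simp only [hi, if_false]
  · simp only [sum_const, card_range, smul_eq_mul]
    nlinarith [k2]

section dense

variable (Mul : Tm MatT) (mm : ℕ → ℕ) (hMul : MulOK Mul mm)
  (hmono : Monotone mm) (hsq : ∀ m, (m + 1) ^ 2 ≤ mm m) (hdbl : ∀ m, 1 ≤ m → 2 * mm m ≤ mm (2 * m))

include hMul hmono hsq

/-- input `((a, (b, c)), (X, Y))` -/
theorem dmul_prog : ∃ F : (Ty.prod (.prod .nat (.prod .nat .nat)) (.prod MatT MatT)).den → MatT.den,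
    OC _ MatT (fun _ => True) F (fun x => mm (max x.1.1 (max x.1.2.1 x.1.2.2))) ∧
    ∀ a b c X Y, toM a c (F ((a, (b, c)), (X, Y))) = toM a b X * toM b c Y := by
  refine ⟨fun x => P11_mul (max x.1.1 (max x.1.2.1 x.1.2.2),
    (tabV VecT x.1.1 fun i => tabV .real x.1.2.1 fun l => x.2.1 i l, x.2.2)), ?_, ?_⟩
  · have hmul : OC P11_T MatT (fun _ => True) P11_mul (fun x => mm x.1) := by
      refine OC.of_Cp 21 (P11_cp Mul mm hMul) fun x _ => ?_
      have := hsq x.1
      nlinarith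
    refine OC.comp (s := .prod (.prod .nat (.prod .nat .nat)) (.prod MatT MatT))
      (V := fun _ => True) (w := fun x => mm (max x.1.1 (max x.1.2.1 x.1.2.2)))
      (F := fun x : (Ty.prod (.prod .nat (.prod .nat .nat))
      (.prod MatT MatT)).den => ((max x.1.1 (max x.1.2.1 x.1.2.2),
        (tabV VecT x.1.1 fun i => tabV .real x.1.2.1 fun l => x.2.1 i l, x.2.2)) : P11_T.den))
      hmul ?_ (fun _ _ => trivial) 1 (fun x _ => by simp only; omega)
    refine OC.pair (OC.nmax (OC.fst (OC.fst OC.id))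
      (OC.nmax (OC.fst (OC.snd (OC.fst OC.id))) (OC.snd (OC.snd (OC.fst OC.id))))) (OC.pair ?_
      (OC.snd (OC.snd OC.id)))
    refine OC.tab (w' := fun p => p.1.1.2.1) (OC.fst (OC.fst OC.id)) ?_ 1 ?_
    · refine OC.tab0 (OC.fst (OC.snd (OC.fst (OC.fst OC.id)))) ?_ 1
        (fun p _ => by rw [one_mul]; exact Nat.le_succ _)
      exact OC.get (OC.get (OC.fst (OC.snd (OC.fst (OC.fst OC.id))))
        (OC.snd (OC.fst OC.id))) (OC.snd OC.id)
    · intro x _
      have h1 := hsq (max x.1.1 (max x.1.2.1 x.1.2.2))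
      have h2 : x.1.1 ≤ max x.1.1 (max x.1.2.1 x.1.2.2) := le_max_left _ _
      have h3 : x.1.2.1 ≤ max x.1.1 (max x.1.2.1 x.1.2.2) :=
        (le_max_left _ _).trans (le_max_right _ _)
      simp only [sum_const, card_range, smul_eq_mul]
      exact P11_arith h2 h3 h1
  · intro a b c X Y
    ext i j
    have hi : (i : ℕ) < max a (max b c) := lt_of_lt_of_le i.2 (le_max_left _ _)
    have hj : (j : ℕ) < max a (max b c) :=
      lt_of_lt_of_le j.2 ((le_max_right _ _).trans (le_max_right _ _))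
    simp only [toM, P11_mul, Matrix.mul_apply]
    rw [tabV_lt hi, tabV_lt hj]
    have hb : b ≤ max a (max b c) := (le_max_left _ _).trans (le_max_right _ _)
    rw [tabV_lt i.2]
    have e : ∑ l ∈ range (max a (max b c)), tabV .real b (fun l => X i l) l * Y l j =
        ∑ l ∈ range b, X i l * Y l j := by
      symm
      rw [← Finset.sum_subset (Finset.range_mono hb) (f := fun l =>
        tabV .real b (fun l => X i l) l * Y l j)]
      · refine Finset.sum_congr rfl fun l hl => ?_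
        rw [tabV_lt (Finset.mem_range.1 hl)]
      · intro l _ hl
        rw [tabV_ge (not_lt.1 fun h => hl (Finset.mem_range.2 h))]
        exact zero_mul _
    rw [e, Finset.sum_range]

end dense

end A56
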