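import Pool.Agent.Lib_helper50.A56.B.P11
/-!
# MP_a55cb8: block P12 (helper85): symmetric g-inverses of positive semidefinite matrices
-/

open Matrix Finset

namespace A56

/-! ## the 2 x 2 block formula -/

section P12block

variable {n : Type*} [Fintype n] [DecidableEq n]

theorem P12_gram {A B C : Matrix n n ℝ} (hM : (fromBlocks A B Bᵀ C).PosSemidef) :
    ∃ X Y : Matrix (n ⊕ n) n ℝ, A = Xᵀ * X ∧ B = Xᵀ * Y ∧ C = Yᵀ * Y := by
  open scoped MatrixOrder in
  obtain ⟨R, hR⟩ := CStarAlgebra.nonneg_iff_eq_star_mul_self.mp hM.nonneg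
  rw [star_eq_conjTranspose, conjTranspose_eq_transpose_of_trivial] at hR
  refine ⟨R.submatrix id Sum.inl, R.submatrix id Sum.inr, ?_, ?_, ?_⟩
  · ext i j
    have := congrFun (congrFun hR (Sum.inl i)) (Sum.inl j)
    simpa [Matrix.mul_apply] using this
  · ext i j
    have := congrFun (congrFun hR (Sum.inl i)) (Sum.inr j)
    simpa [Matrix.mul_apply] using this
  · ext i j
    have := congrFun (congrFun hR (Sum.inr i)) (Sum.inr j)
    simpa [Matrix.mul_apply] using this

omit [DecidableEq n] in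
theorem P12_XAA {m : Type*} [Fintype m] [DecidableEq m] {X : Matrix m n ℝ} {A A' : Matrix n n ℝ}
    (hA : A = Xᵀ * X) (hs : A'ᵀ = A') (h : A * A' * A = A) : X * A' * A = X := by
  have h1 : (X * A' * A - X)ᵀ * (X * A' * A - X) = 0 := by
    have hAs : Aᵀ = A := by rw [hA, transpose_mul, transpose_transpose]
    rw [transpose_sub, transpose_mul, transpose_mul, hs, hAs, Matrix.sub_mul, Matrix.mul_sub,
      Matrix.mul_sub]
    have e1 : A * (A' * Xᵀ) * (X * A' * A) = A := by
      calc A * (A' * Xᵀ) * (X * A' * A) = (A * A' * (Xᵀ * X)) * A' * A := by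
            simp only [Matrix.mul_assoc]
        _ = A := by rw [← hA, h, h]
    have e2 : A * (A' * Xᵀ) * X = A := by
      calc A * (A' * Xᵀ) * X = A * A' * (Xᵀ * X) := by simp only [Matrix.mul_assoc]
        _ = A := by rw [← hA, h]
    have e3 : Xᵀ * (X * A' * A) = A := by
      calc Xᵀ * (X * A' * A) = (Xᵀ * X) * A' * A := by simp only [Matrix.mul_assoc]
        _ = A := by rw [← hA, h]
    rw [e1, e2, e3, ← hA]
    simp
  have h2 : X * A' * A - X = 0 := by
    rw [← conjTranspose_eq_transpose_of_trivial] at h1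
    exact conjTranspose_mul_self_eq_zero.1 h1
  exact sub_eq_zero.1 h2

theorem P12_AAB {A B C A' : Matrix n n ℝ} (hM : (fromBlocks A B Bᵀ C).PosSemidef)
    (hs : A'ᵀ = A') (h : A * A' * A = A) : Aᵀ = A ∧ A * A' * B = B ∧
      (C - Bᵀ * (A' * B)).PosSemidef := by
  obtain ⟨X, Y, hA, hB, hC⟩ := P12_gram hM
  have h1 := P12_XAA hA hs h
  have hAs : Aᵀ = A := by rw [hA, transpose_mul, transpose_transpose]
  have h2 : A * A' * Xᵀ = Xᵀ := by
    have := congrArg transpose h1
    rw [transpose_mul, transpose_mul, hs, hAs, ← Matrix.mul_assoc] at this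
    exact this
  refine ⟨hAs, ?_, ?_⟩
  · rw [hB, ← Matrix.mul_assoc, h2]
  · have hP : X * A' * Xᵀ * (X * A' * Xᵀ) = X * A' * Xᵀ := by
      calc X * A' * Xᵀ * (X * A' * Xᵀ) = (X * A' * (Xᵀ * X)) * A' * Xᵀ := by
            simp only [Matrix.mul_assoc]
        _ = _ := by rw [← hA, h1]
    have hPs : (X * A' * Xᵀ)ᵀ = X * A' * Xᵀ := by
      rw [transpose_mul, transpose_mul, transpose_transpose, hs, Matrix.mul_assoc]
    have hD : C - Bᵀ * (A' * B) = (Y - X * A' * Xᵀ * Y)ᵀ * (Y - X * A' * Xᵀ * Y) := by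
      rw [transpose_sub, transpose_mul, hPs, Matrix.sub_mul, Matrix.mul_sub, Matrix.mul_sub]
      have e1 : Yᵀ * (X * A' * Xᵀ) * (X * A' * Xᵀ * Y) = Yᵀ * (X * A' * Xᵀ) * Y := by
        calc Yᵀ * (X * A' * Xᵀ) * (X * A' * Xᵀ * Y) =
            Yᵀ * (X * A' * Xᵀ * (X * A' * Xᵀ)) * Y := by simp only [Matrix.mul_assoc]
          _ = _ := by rw [hP]
      rw [e1]
      have e2 : Yᵀ * (X * A' * Xᵀ * Y) = Yᵀ * (X * A' * Xᵀ) * Y := by
        simp only [Matrix.mul_assoc]
      have e3 : Bᵀ * (A' * B) = Yᵀ * (X * A' * Xᵀ) * Y := by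
        rw [hB, transpose_mul, transpose_transpose]
        simp only [Matrix.mul_assoc]
      rw [e2, e3, hC]
      simp
    rw [hD, ← conjTranspose_eq_transpose_of_trivial]
    exact posSemidef_conjTranspose_mul_self _

theorem P12_block {A B C A' D' : Matrix n n ℝ} (hM : (fromBlocks A B Bᵀ C).PosSemidef)
    (hs : A'ᵀ = A') (h : A * A' * A = A) (hs' : D'ᵀ = D')
    (h' : (C - Bᵀ * (A' * B)) * D' * (C - Bᵀ * (A' * B)) = C - Bᵀ * (A' * B)) :
    (fromBlocks (A' + A' * B * D' * (A' * B)ᵀ) (-(A' * B * D')) (-(A' * B * D')ᵀ) D')ᵀ =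
      fromBlocks (A' + A' * B * D' * (A' * B)ᵀ) (-(A' * B * D')) (-(A' * B * D')ᵀ) D' ∧
    fromBlocks A B Bᵀ C *
      fromBlocks (A' + A' * B * D' * (A' * B)ᵀ) (-(A' * B * D')) (-(A' * B * D')ᵀ) D' *
      fromBlocks A B Bᵀ C = fromBlocks A B Bᵀ C := by
  obtain ⟨hAs, hAB, -⟩ := P12_AAB hM hs h
  have hBA : Bᵀ * A' * A = Bᵀ := by
    have := congrArg transpose hAB
    rw [transpose_mul, transpose_mul, hs, hAs, ← Matrix.mul_assoc] at this
    exact this
  set D := C - Bᵀ * (A' * B) with hD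
  have hC : C = D + Bᵀ * (A' * B) := by rw [hD]; simp
  have hUt : (A' * B)ᵀ = Bᵀ * A' := by rw [transpose_mul, hs]
  have hWt : (A' * B * D')ᵀ = D' * (Bᵀ * A') := by rw [transpose_mul, hUt, hs']
  constructor
  · rw [fromBlocks_transpose]
    have e1 : (A' * B * D' * (A' * B)ᵀ)ᵀ = A' * B * D' * (A' * B)ᵀ := by
      rw [transpose_mul, transpose_transpose, transpose_mul, hs']
      simp only [Matrix.mul_assoc]
    have e2 : (-(A' * B * D')ᵀ)ᵀ = -(A' * B * D') := by
      rw [transpose_neg, transpose_transpose]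
    rw [transpose_add, hs, e1, e2, transpose_neg, hs']
  · rw [hWt, hUt, fromBlocks_multiply]
    have e11 : A * (A' + A' * B * D' * (Bᵀ * A')) + B * -(D' * (Bᵀ * A')) = A * A' := by
      have : A * (A' * B * D' * (Bᵀ * A')) = B * (D' * (Bᵀ * A')) := by
        calc A * (A' * B * D' * (Bᵀ * A')) = (A * A' * B) * (D' * (Bᵀ * A')) := by
              simp only [Matrix.mul_assoc]
          _ = _ := by rw [hAB]
      rw [Matrix.mul_add, this, Matrix.mul_neg]
      simp
    have e12 : A * -(A' * B * D') + B * D' = 0 := by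
      have : A * (A' * B * D') = B * D' := by
        calc A * (A' * B * D') = (A * A' * B) * D' := by simp only [Matrix.mul_assoc]
          _ = _ := by rw [hAB]
      rw [Matrix.mul_neg, this]
      simp
    have e21 : Bᵀ * (A' + A' * B * D' * (Bᵀ * A')) + C * -(D' * (Bᵀ * A')) =
        Bᵀ * A' - D * D' * (Bᵀ * A') := by
      rw [hC, Matrix.mul_add, Matrix.mul_neg, Matrix.add_mul]
      have : Bᵀ * (A' * B * D' * (Bᵀ * A')) = Bᵀ * (A' * B) * (D' * (Bᵀ * A')) := by
        simp only [Matrix.mul_assoc]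
      rw [this]
      have e : D * (D' * (Bᵀ * A')) = D * D' * (Bᵀ * A') := by simp only [Matrix.mul_assoc]
      rw [e]
      abel
    have e22 : Bᵀ * -(A' * B * D') + C * D' = D * D' := by
      rw [hC, Matrix.mul_neg, Matrix.add_mul]
      have : Bᵀ * (A' * B * D') = Bᵀ * (A' * B) * D' := by simp only [Matrix.mul_assoc]
      rw [this]
      abel
    rw [e11, e12, e21, e22, fromBlocks_multiply]
    congr 1
    · rw [h, Matrix.zero_mul, add_zero]
    · rw [hAB, Matrix.zero_mul, add_zero]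
    · rw [Matrix.sub_mul]
      have : D * D' * (Bᵀ * A') * A = D * D' * Bᵀ := by
        calc D * D' * (Bᵀ * A') * A = D * D' * (Bᵀ * A' * A) := by
              simp only [Matrix.mul_assoc]
          _ = _ := by rw [hBA]
      rw [this, hBA]
      abel
    · rw [Matrix.sub_mul]
      have e1 : Bᵀ * A' * B = Bᵀ * (A' * B) := by rw [Matrix.mul_assoc]
      have e2 : D * D' * (Bᵀ * A') * B = D * D' * (Bᵀ * (A' * B)) := by
        simp only [Matrix.mul_assoc]
      have e3 : D * D' * C = D + D * D' * (Bᵀ * (A' * B)) := by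
        rw [hC, Matrix.mul_add, h']
      rw [e1, e2, e3]
      conv_rhs => rw [hC]
      abel

end P12block

/-! ## tools -/

/-- two nested tables -/
theorem P12_tab2 {s : Ty} {V : s.den → Prop} {w : s.den → ℕ} {N : s.den → ℕ}
    {f : s.den → ℕ → ℕ → ℝ} (hN : OC s .nat V N (fun _ => 0))
    (hf : OC (.prod (.prod s .nat) .nat) .real (fun p => V p.1.1)
      (fun p => f p.1.1 p.1.2 p.2) (fun _ => 0)) (K : ℕ)
    (hw : ∀ x, V x → (N x + 1) ^ 2 ≤ K * (w x + 1)) :
    OC s MatT V (fun x => tabV VecT (N x) fun i => tabV .real (N x) fun l => f x i l) w := by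
  refine OC.tab (w' := fun p => N p.1) (hN.le 0 fun _ _ => by simp) ?_ K ?_
  · refine OC.tab0 (t := .real) (N := fun p : (Ty.prod s .nat).den => N p.1)
      (F := fun p l => f p.1 p.2 l) ?_ ?_ 1 (fun p _ => by omega)
    · refine OC.comp (s := .prod s .nat) (F := fun p => p.1) hN (OC.fst OC.id)
        (fun p hp => hp.1) 0 (fun _ _ => by simp)
    · exact hf.weaken fun p hp => hp.1
  · intro x hx
    simp only [sum_const, card_range, smul_eq_mul]
    have := hw x hx
    nlinarith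

theorem P12_ar {a M : ℕ} (h : (a + 1) ^ 2 ≤ M) : (a + a + 1) ^ 2 ≤ 4 * (M + 1) := by
  calc (a + a + 1) ^ 2 ≤ (2 * (a + 1)) ^ 2 := Nat.pow_le_pow_left (by omega) 2
    _ = 4 * (a + 1) ^ 2 := by ring
    _ ≤ 4 * (M + 1) := Nat.mul_le_mul_left _ (by omega)

/-- the power of two -/
theorem P12_pow : OC .nat .nat (fun _ => True) (fun x => 2 ^ x) (fun x => x) := by
  refine (OC.iter0 (s := .nat) (t := .nat) (N := fun x => x) (A := fun _ => 1)
    (B := fun _ _ a => a + a) OC.id (OC.nlit 1) (OC.nadd (OC.snd (OC.snd OC.id))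
    (OC.snd (OC.snd OC.id))) 1 (fun x _ => by omega)).congr fun x _ => ?_
  have : ∀ m : ℕ, iterV (fun _ a : ℕ => a + a) 1 m = 2 ^ m := by
    intro m
    induction m with
    | zero => rfl
    | succ m ih => rw [iterV_succ, ih, pow_succ]; omega
  exact this x

/-! ## the pieces -/

/-- `(N, x)`, `(N, (X, Y))` -/
abbrev P12_T1 : Ty := .prod .nat MatT
abbrev P12_T2 : Ty := .prod .nat (.prod MatT MatT)

/-- upper left block -/
noncomputable def P12_b00 (y : P12_T1.den) : MatT.den :=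
  tabV VecT y.1 fun i => tabV .real y.1 fun l => y.2 i l
/-- upper right block -/
noncomputable def P12_b01 (y : P12_T1.den) : MatT.den :=
  tabV VecT y.1 fun i => tabV .real y.1 fun l => y.2 i (y.1 + l)
/-- lower left block -/
noncomputable def P12_b10 (y : P12_T1.den) : MatT.den :=
  tabV VecT y.1 fun i => tabV .real y.1 fun l => y.2 (y.1 + i) l
/-- the transposed matrix -/
noncomputable def P12_tr (y : P12_T1.den) : MatT.den :=
  tabV VecT y.1 fun i => tabV .real y.1 fun l => y.2 l i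
/-- lower right block minus a matrix -/
noncomputable def P12_sub (y : P12_T2.den) : MatT.den :=
  tabV VecT y.1 fun i => tabV .real y.1 fun l => y.2.1 (y.1 + i) (y.1 + l) - y.2.2 i l
/-- the assembled matrix; input `(N, ((A', Z), (W, D')))` -/
noncomputable def P12_asm (y : (Ty.prod .nat (.prod (.prod MatT MatT) (.prod MatT MatT))).den) :
    MatT.den :=
  tabV VecT (y.1 + y.1) fun i => tabV .real (y.1 + y.1) fun l =>
    if i < y.1 then
      (if l < y.1 then y.2.1.1 i l + y.2.1.2 i l else - y.2.2.1 i (l - y.1))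
    else
      (if l < y.1 then - y.2.2.1 l (i - y.1) else y.2.2.2 (i - y.1) (l - y.1))

section pieces

variable (mm : ℕ → ℕ) (hsq : ∀ m, (m + 1) ^ 2 ≤ mm m)

include hsq

theorem P12_oc00 : OC P12_T1 MatT (fun _ => True) P12_b00 (fun y => mm y.1) :=
  P12_tab2 (OC.fst OC.id) (OC.get (OC.get (OC.snd (OC.fst (OC.fst OC.id)))
    (OC.snd (OC.fst OC.id))) (OC.snd OC.id)) 1 fun y _ => by
      have := hsq y.1
      omega

theorem P12_oc01 : OC P12_T1 MatT (fun _ => True) P12_b01 (fun y => mm y.1) :=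
  P12_tab2 (OC.fst OC.id) (OC.get (OC.get (OC.snd (OC.fst (OC.fst OC.id)))
    (OC.snd (OC.fst OC.id))) (OC.nadd (OC.fst (OC.fst (OC.fst OC.id))) (OC.snd OC.id))) 1
    fun y _ => by
      have := hsq y.1
      omega

theorem P12_oc10 : OC P12_T1 MatT (fun _ => True) P12_b10 (fun y => mm y.1) :=
  P12_tab2 (OC.fst OC.id) (OC.get (OC.get (OC.snd (OC.fst (OC.fst OC.id)))
    (OC.nadd (OC.fst (OC.fst (OC.fst OC.id))) (OC.snd (OC.fst OC.id)))) (OC.snd OC.id)) 1
    fun y _ => by
      have := hsq y.1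
      omega

theorem P12_octr : OC P12_T1 MatT (fun _ => True) P12_tr (fun y => mm y.1) :=
  P12_tab2 (OC.fst OC.id) (OC.get (OC.get (OC.snd (OC.fst (OC.fst OC.id)))
    (OC.snd OC.id)) (OC.snd (OC.fst OC.id))) 1 fun y _ => by
      have := hsq y.1
      omega

theorem P12_ocsub : OC P12_T2 MatT (fun _ => True) P12_sub (fun y => mm y.1) := by
  have hN : OC (.prod (.prod P12_T2 .nat) .nat) .nat (fun _ => True) (fun p => p.1.1.1)
      (fun _ => 0) := OC.fst (OC.fst (OC.fst OC.id))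
  refine P12_tab2 (OC.fst OC.id) (OC.sub (OC.get (OC.get (OC.fst (OC.snd (OC.fst (OC.fst OC.id))))
    (OC.nadd hN (OC.snd (OC.fst OC.id)))) (OC.nadd hN (OC.snd OC.id)))
    (OC.get (OC.get (OC.snd (OC.snd (OC.fst (OC.fst OC.id)))) (OC.snd (OC.fst OC.id)))
    (OC.snd OC.id))) 1 fun y _ => by
      have := hsq y.1
      omega

theorem P12_ocasm : OC (.prod .nat (.prod (.prod MatT MatT) (.prod MatT MatT))) MatT
    (fun _ => True) P12_asm (fun y => mm y.1) := by
  refine P12_tab2 (s := .prod .nat (.prod (.prod MatT MatT) (.prod MatT MatT)))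
    (OC.nadd (OC.fst OC.id) (OC.fst OC.id)) ?_ 4 fun y _ => P12_ar (hsq y.1)
  have hN : ∀ V : (Ty.prod (.prod (.prod .nat (.prod (.prod MatT MatT) (.prod MatT MatT))) .nat)
      .nat).den → Prop, OC (.prod (.prod (.prod .nat (.prod (.prod MatT MatT) (.prod MatT MatT)))
      .nat) .nat) .nat V (fun p => p.1.1.1) (fun _ => 0) := fun V => OC.fst (OC.fst (OC.fst OC.id))
  have hi : ∀ V : (Ty.prod (.prod (.prod .nat (.prod (.prod MatT MatT) (.prod MatT MatT))) .nat)
      .nat).den → Prop, OC (.prod (.prod (.prod .nat (.prod (.prod MatT MatT) (.prod MatT MatT)))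
      .nat) .nat) .nat V (fun p => p.1.2) (fun _ => 0) := fun V => OC.snd (OC.fst OC.id)
  have hl : ∀ V : (Ty.prod (.prod (.prod .nat (.prod (.prod MatT MatT) (.prod MatT MatT))) .nat)
      .nat).den → Prop, OC (.prod (.prod (.prod .nat (.prod (.prod MatT MatT) (.prod MatT MatT)))
      .nat) .nat) .nat V (fun p => p.2) (fun _ => 0) := fun V => OC.snd OC.id
  refine OC.ifN (hi _) (hN _) (OC.ifN (hl _) (hN _) (OC.add ?_ ?_) (OC.neg ?_))
    (OC.ifN (hl _) (hN _) (OC.neg ?_) ?_)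
  · exact OC.get (OC.get (OC.fst (OC.fst (OC.snd (OC.fst (OC.fst OC.id))))) (hi _)) (hl _)
  · exact OC.get (OC.get (OC.snd (OC.fst (OC.snd (OC.fst (OC.fst OC.id))))) (hi _)) (hl _)
  · exact OC.get (OC.get (OC.fst (OC.snd (OC.snd (OC.fst (OC.fst OC.id))))) (hi _))
      (OC.nsub (hl _) (hN _))
  · exact OC.get (OC.get (OC.fst (OC.snd (OC.snd (OC.fst (OC.fst OC.id))))) (hl _))
      (OC.nsub (hi _) (hN _))
  · exact OC.get (OC.get (OC.snd (OC.snd (OC.snd (OC.fst (OC.fst OC.id)))))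
      (OC.nsub (hi _) (hN _))) (OC.nsub (hl _) (hN _))

end pieces

/-! ## the recursion -/

/-- the recursion -/
noncomputable def P12_G (fa : P12_T1.den → MatT.den)
    (fb : (Ty.prod P12_T1 MatT).den → (Ty.prod P12_T1 (.prod MatT MatT)).den)
    (fd : (Ty.prod (.prod P12_T1 (.prod MatT MatT)) MatT).den → MatT.den) :
    ℕ → MatT.den → MatT.den
  | 0, x => tabV VecT 1 fun _ => tabV .real 1 fun _ => (x 0 0)⁻¹
  | j + 1, x => fd (fb ((j, x), P12_G fa fb fd j (fa (j, x))),
      P12_G fa fb fd j (fb ((j, x), P12_G fa fb fd j (fa (j, x)))).2.2)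

theorem P12_rec (mm : ℕ → ℕ) (hsq : ∀ m, (m + 1) ^ 2 ≤ mm m)
    (hdbl : ∀ m, 1 ≤ m → 2 * mm m ≤ mm (2 * m)) {fa : P12_T1.den → MatT.den}
    {fb : (Ty.prod P12_T1 MatT).den → (Ty.prod P12_T1 (.prod MatT MatT)).den}
    {fd : (Ty.prod (.prod P12_T1 (.prod MatT MatT)) MatT).den → MatT.den}
    (ha : OC P12_T1 MatT (fun _ => True) fa (fun y => mm (2 ^ y.1)))
    (hb : OC (.prod P12_T1 MatT) (.prod P12_T1 (.prod MatT MatT)) (fun _ => True) fb
      (fun y => mm (2 ^ y.1.1)))
    (hd : OC (.prod (.prod P12_T1 (.prod MatT MatT)) MatT) MatT (fun _ => True) fd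
      (fun y => mm (2 ^ y.1.1.1)))
    (hfb : ∀ y, (fb y).1.1 = y.1.1) :
    OC P12_T1 MatT (fun _ => True) (fun x => P12_G fa fb fd x.1 x.2)
      (fun x => (x.1 + 1) * mm (2 ^ x.1)) := by
  obtain ⟨Ca, ha⟩ := ha
  obtain ⟨Cb, hb⟩ := hb
  obtain ⟨Cd, hd⟩ := hd
  have h0 : OC MatT MatT (fun _ => True) (P12_G fa fb fd 0) (fun _ => 0) := by
    refine OC.tab0 (t := VecT) (F := fun (x : MatT.den) _ => tabV .real 1 fun _ => (x 0 0)⁻¹)
      (OC.nlit 1) ?_ 1 fun _ _ => by norm_num
    refine OC.tab0 (s := .prod MatT .nat) (t := .real) (N := fun _ => 1)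
      (F := fun (x : (Ty.prod MatT .nat).den) _ => (x.1 0 0)⁻¹)
      (OC.nlit 1) ?_ 1 fun _ _ => by norm_num
    exact OC.inv (OC.get (OC.get (OC.fst (OC.fst OC.id)) (OC.nlit 0)) (OC.nlit 0))
  obtain ⟨C0, h0⟩ := h0
  set G := P12_G fa fb fd with hG
  set K : ℕ := Ca + Cb + Cd + C0 + 40 with hK
  set γ : ℕ → MatT.den → ℕ := fun j _ => K * ((j + 1) * mm (2 ^ j)) with hγ
  have hM : ∀ j : ℕ, 4 ≤ mm (2 ^ j) := by
    intro j
    have h1 := hsq (2 ^ j)
    have h2 : 1 ≤ 2 ^ j := Nat.one_le_two_pow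
    nlinarith
  have hS : Cp (.prod .nat MatT) MatT (fun φ p => True ∧ ∀ y, True →
        (φ MatT MatT 0 y).1 = G p.1 y ∧ (φ MatT MatT 0 y).2 ≤ γ p.1 y)
      (fun p => G (p.1 + 1) p.2) (fun p => γ (p.1 + 1) p.2 - 4) := by
    have c1 := ha.weaken (W := fun φ (p : P12_T1.den) => True ∧ ∀ y, True →
        (φ MatT MatT 0 y).1 = G p.1 y ∧ (φ MatT MatT 0 y).2 ≤ γ p.1 y) (fun _ _ _ => trivial)
    have c2 := Cp.call (G := fun (p : P12_T1.den) => G p.1) (γ := fun (p : P12_T1.den) => γ p.1)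
      c1 (fun φ p h => h.2 _ trivial)
    have c3 := Cp.pair Cp.id c2
    have c4 := Cp.comp hb c3 (fun _ _ _ => trivial)
    have c5 := Cp.call (s := .prod P12_T1 (.prod MatT MatT)) (u := MatT) (t := MatT)
      (V := fun φ (y : (Ty.prod P12_T1 (.prod MatT MatT)).den) => ∀ z : MatT.den,
        (φ MatT MatT 0 z).1 = G y.1.1 z ∧ (φ MatT MatT 0 z).2 ≤ γ y.1.1 z)
      (G := fun y => G y.1.1) (γ := fun y => γ y.1.1)
      (Cp.snd (Cp.snd Cp.id)) (fun φ y h => h _)
    have c6 := Cp.pair Cp.id c5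
    have c7 := Cp.comp hd c6 (fun _ _ _ => trivial)
    have c8 := Cp.comp c7 c4 (fun φ p h z => by
      rw [hfb]
      exact h.2 z trivial)
    have c9 := c8.congr (G := fun p : P12_T1.den => G (p.1 + 1) p.2) fun φ p _ => by
      rw [hfb]
      rfl
    refine c9.cost _ fun φ p _ => ?_
    simp only [hγ, hfb]
    have e1 := hdbl (2 ^ p.1) Nat.one_le_two_pow
    rw [← pow_succ'] at e1
    have e2 := hM p.1
    have e3 : K * ((p.1 + 1) * mm (2 ^ p.1)) + K * ((p.1 + 1) * mm (2 ^ p.1)) +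
        K * (2 * mm (2 ^ p.1)) ≤ K * ((p.1 + 1 + 1) * mm (2 ^ (p.1 + 1))) := by
      calc _ = K * ((p.1 + 1 + 1) * (2 * mm (2 ^ p.1))) := by ring
        _ ≤ _ := by gcongr
    have e4 : (Ca + Cb + Cd) * (mm (2 ^ p.1) + 1) + 40 ≤ K * (2 * mm (2 ^ p.1)) := by
      rw [hK]
      nlinarith [Nat.zero_le (Ca + Cb + Cd), Nat.zero_le (C0 * mm (2 ^ p.1))]
    have e5 : (Ca + Cb + Cd) * (mm (2 ^ p.1) + 1) = Ca * (mm (2 ^ p.1) + 1) +
        Cb * (mm (2 ^ p.1) + 1) + Cd * (mm (2 ^ p.1) + 1) := by ring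
    omega
  have hrec := Cp.rec (s := P12_T1) (V := fun _ _ => True) (N := fun x => x.1) (X := fun x => x.2)
    (G := G) (U := fun _ _ => True) (γ := γ) (Cp.fst Cp.id) (Cp.snd Cp.id)
    (h0.cost _ fun _ x _ => by
      simp only [hγ]
      have := hM 0
      rw [hK]
      nlinarith [Nat.zero_le (Ca + Cb + Cd)]) hS (fun j x => by
      simp only [hγ]
      have := hM (j + 1)
      rw [hK]
      nlinarith [Nat.zero_le (Ca + Cb + Cd), Nat.zero_le ((Ca + Cb + Cd + C0 + 40) *
        ((j + 1) * mm (2 ^ (j + 1))))]) (fun _ _ _ => trivial)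
  refine OC.of_Cp (K + 8) hrec fun x _ => ?_
  simp only [hγ]
  nlinarith [Nat.zero_le ((x.1 + 1) * mm (2 ^ x.1))]

/-! ## the steps -/

/-- `(2^j, x)` -/
noncomputable def P12_fa (y : P12_T1.den) : MatT.den := P12_b00 ((2 ^ y.1 : ℕ), y.2)

/-- second step, with the size `N` -/
noncomputable def P12_fb' (dm : P12_T2.den → MatT.den)
    (y : (Ty.prod .nat (.prod P12_T1 MatT)).den) : (Ty.prod P12_T1 (.prod MatT MatT)).den :=
  letV (dm (y.1, (y.2.2, P12_b01 (y.1, y.2.1.2)))) fun U =>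
    ((y.2.1.1, y.2.2), (U, P12_sub (y.1, (y.2.1.2, dm (y.1, (P12_b10 (y.1, y.2.1.2), U))))))

noncomputable def P12_fb (dm : P12_T2.den → MatT.den) (y : (Ty.prod P12_T1 MatT).den) :
    (Ty.prod P12_T1 (.prod MatT MatT)).den := P12_fb' dm ((2 ^ y.1.1 : ℕ), y)

/-- third step, with the size `N` -/
noncomputable def P12_fd' (dm : P12_T2.den → MatT.den)
    (y : (Ty.prod .nat (.prod (.prod P12_T1 (.prod MatT MatT)) MatT)).den) : MatT.den :=
  letV (dm (y.1, (y.2.1.2.1, y.2.2))) fun W =>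
    P12_asm (y.1, ((y.2.1.1.2, dm (y.1, (W, P12_tr (y.1, y.2.1.2.1)))), (W, y.2.2)))

noncomputable def P12_fd (dm : P12_T2.den → MatT.den)
    (y : (Ty.prod (.prod P12_T1 (.prod MatT MatT)) MatT).den) : MatT.den :=
  P12_fd' dm ((2 ^ y.1.1.1 : ℕ), y)

theorem P12_fb_fst (dm : P12_T2.den → MatT.den) (y : (Ty.prod P12_T1 MatT).den) :
    (P12_fb dm y).1.1 = y.1.1 := rfl

/-- composition with the same weight -/
theorem P12_cp {s t u : Ty} {V : s.den → Prop} {w' : u.den → ℕ} {w : s.den → ℕ}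
    {F : s.den → u.den} {G : u.den → t.den} (hG : OC u t (fun _ => True) G w')
    (hF : OC s u V F w) (hw : ∀ x, w' (F x) = w x) : OC s t V (fun x => G (F x)) w :=
  OC.comp hG hF (fun _ _ => trivial) 1 fun x _ => by rw [hw]; omega

section steps

variable (mm : ℕ → ℕ) (hsq : ∀ m, (m + 1) ^ 2 ≤ mm m)

include hsq

theorem P12_ocpow {s : Ty} {J : s.den → ℕ} (hJ : OC s .nat (fun _ => True) J (fun _ => 0)) :
    OC s .nat (fun _ => True) (fun x => 2 ^ J x) (fun x => mm (2 ^ J x)) := by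
  have h : ∀ x : s.den, J x ≤ mm (2 ^ J x) := by
    intro x
    have h1 := hsq (2 ^ J x)
    have h2 : J x < 2 ^ J x := Nat.lt_two_pow_self
    nlinarith
  exact OC.comp (w := fun x => mm (2 ^ J x)) (F := J) P12_pow (hJ.le 0 fun _ _ => by simp)
    (fun _ _ => trivial) 1 fun x _ => by
      have := h x
      omega

theorem P12_ocfa : OC P12_T1 MatT (fun _ => True) P12_fa (fun y => mm (2 ^ y.1)) :=
  P12_cp (s := P12_T1) (u := P12_T1) (F := fun y => ((2 ^ y.1 : ℕ), y.2)) (P12_oc00 mm hsq)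
    (OC.pair (P12_ocpow mm hsq (s := P12_T1) (J := fun y => y.1) (OC.fst OC.id))
      (OC.snd OC.id)) fun _ => rfl

theorem P12_ocfb' {dm : P12_T2.den → MatT.den}
    (hdm : OC P12_T2 MatT (fun _ => True) dm (fun y => mm y.1)) :
    OC (.prod .nat (.prod P12_T1 MatT)) (.prod P12_T1 (.prod MatT MatT)) (fun _ => True)
      (P12_fb' dm) (fun y => mm y.1) := by
  have c1 : OC (.prod .nat (.prod P12_T1 MatT)) MatT (fun _ => True)
      (fun y => P12_b01 (y.1, y.2.1.2)) (fun y => mm y.1) :=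
    P12_cp (F := fun y : (Ty.prod .nat (.prod P12_T1 MatT)).den => (y.1, y.2.1.2))
      (P12_oc01 mm hsq) (OC.pair (OC.fst OC.id) (OC.snd (OC.fst (OC.snd OC.id)))) fun _ => rfl
  have c2 : OC (.prod .nat (.prod P12_T1 MatT)) MatT (fun _ => True)
      (fun y => dm (y.1, (y.2.2, P12_b01 (y.1, y.2.1.2)))) (fun y => mm y.1) :=
    P12_cp (F := fun y : (Ty.prod .nat (.prod P12_T1 MatT)).den =>
      (y.1, (y.2.2, P12_b01 (y.1, y.2.1.2)))) hdm
      (OC.pair (OC.fst OC.id) (OC.pair (OC.snd (OC.snd OC.id)) c1)) fun _ => rfl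
  refine OC.let_ c2 (w' := fun p => mm p.1.1) ?_ 1 fun _ _ => by
    simp only
    omega
  have c3 : OC (.prod (.prod .nat (.prod P12_T1 MatT)) MatT) MatT (fun _ => True)
      (fun p => P12_b10 (p.1.1, p.1.2.1.2)) (fun p => mm p.1.1) :=
    P12_cp (F := fun p : (Ty.prod (.prod .nat (.prod P12_T1 MatT)) MatT).den =>
      (p.1.1, p.1.2.1.2)) (P12_oc10 mm hsq)
      (OC.pair (OC.fst (OC.fst OC.id)) (OC.snd (OC.fst (OC.snd (OC.fst OC.id))))) fun _ => rfl
  have c4 : OC (.prod (.prod .nat (.prod P12_T1 MatT)) MatT) MatT (fun _ => True)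
      (fun p => dm (p.1.1, (P12_b10 (p.1.1, p.1.2.1.2), p.2))) (fun p => mm p.1.1) :=
    P12_cp (F := fun p : (Ty.prod (.prod .nat (.prod P12_T1 MatT)) MatT).den =>
      (p.1.1, (P12_b10 (p.1.1, p.1.2.1.2), p.2))) hdm
      (OC.pair (OC.fst (OC.fst OC.id)) (OC.pair c3 (OC.snd OC.id))) fun _ => rfl
  have c5 : OC (.prod (.prod .nat (.prod P12_T1 MatT)) MatT) MatT (fun _ => True)
      (fun p => P12_sub (p.1.1, (p.1.2.1.2, dm (p.1.1, (P12_b10 (p.1.1, p.1.2.1.2), p.2)))))
      (fun p => mm p.1.1) :=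
    P12_cp (F := fun p : (Ty.prod (.prod .nat (.prod P12_T1 MatT)) MatT).den =>
      (p.1.1, (p.1.2.1.2, dm (p.1.1, (P12_b10 (p.1.1, p.1.2.1.2), p.2))))) (P12_ocsub mm hsq)
      (OC.pair (OC.fst (OC.fst OC.id))
        (OC.pair (OC.snd (OC.fst (OC.snd (OC.fst OC.id)))) c4)) fun _ => rfl
  exact (OC.pair (OC.pair (OC.fst (OC.fst (OC.snd (OC.fst OC.id)))) (OC.snd (OC.snd (OC.fst OC.id))))
    (OC.pair (OC.snd OC.id) c5)).weaken fun _ _ => trivial

theorem P12_ocfb {dm : P12_T2.den → MatT.den}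
    (hdm : OC P12_T2 MatT (fun _ => True) dm (fun y => mm y.1)) :
    OC (.prod P12_T1 MatT) (.prod P12_T1 (.prod MatT MatT)) (fun _ => True)
      (P12_fb dm) (fun y => mm (2 ^ y.1.1)) :=
  P12_cp (F := fun y : (Ty.prod P12_T1 MatT).den => ((2 ^ y.1.1 : ℕ), y)) (P12_ocfb' mm hsq hdm)
    (OC.pair (P12_ocpow mm hsq (s := .prod P12_T1 MatT) (J := fun y => y.1.1)
      (OC.fst (OC.fst OC.id))) OC.id) fun _ => rfl

theorem P12_ocfd' {dm : P12_T2.den → MatT.den}
    (hdm : OC P12_T2 MatT (fun _ => True) dm (fun y => mm y.1)) :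
    OC (.prod .nat (.prod (.prod P12_T1 (.prod MatT MatT)) MatT)) MatT (fun _ => True)
      (P12_fd' dm) (fun y => mm y.1) := by
  have c2 : OC (.prod .nat (.prod (.prod P12_T1 (.prod MatT MatT)) MatT)) MatT (fun _ => True)
      (fun y => dm (y.1, (y.2.1.2.1, y.2.2))) (fun y => mm y.1) :=
    P12_cp (F := fun y : (Ty.prod .nat (.prod (.prod P12_T1 (.prod MatT MatT)) MatT)).den =>
      (y.1, (y.2.1.2.1, y.2.2))) hdm
      (OC.pair (OC.fst OC.id) (OC.pair (OC.fst (OC.snd (OC.fst (OC.snd OC.id))))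
        (OC.snd (OC.snd OC.id)))) fun _ => rfl
  refine OC.let_ c2 (w' := fun p => mm p.1.1) ?_ 1 fun _ _ => by
    simp only
    omega
  have c3 : OC (.prod (.prod .nat (.prod (.prod P12_T1 (.prod MatT MatT)) MatT)) MatT) MatT
      (fun _ => True) (fun p => P12_tr (p.1.1, p.1.2.1.2.1)) (fun p => mm p.1.1) :=
    P12_cp (F := fun p : (Ty.prod (.prod .nat (.prod (.prod P12_T1 (.prod MatT MatT)) MatT))
      MatT).den => (p.1.1, p.1.2.1.2.1)) (P12_octr mm hsq)
      (OC.pair (OC.fst (OC.fst OC.id)) (OC.fst (OC.snd (OC.fst (OC.snd (OC.fst OC.id))))))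
      fun _ => rfl
  have c4 : OC (.prod (.prod .nat (.prod (.prod P12_T1 (.prod MatT MatT)) MatT)) MatT) MatT
      (fun _ => True) (fun p => dm (p.1.1, (p.2, P12_tr (p.1.1, p.1.2.1.2.1))))
      (fun p => mm p.1.1) :=
    P12_cp (F := fun p : (Ty.prod (.prod .nat (.prod (.prod P12_T1 (.prod MatT MatT)) MatT))
      MatT).den => (p.1.1, (p.2, P12_tr (p.1.1, p.1.2.1.2.1)))) hdm
      (OC.pair (OC.fst (OC.fst OC.id)) (OC.pair (OC.snd OC.id) c3)) fun _ => rfl
  exact (P12_cp (F := fun p : (Ty.prod (.prod .nat (.prod (.prod P12_T1 (.prod MatT MatT)) MatT))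
      MatT).den => (p.1.1, ((p.1.2.1.1.2, dm (p.1.1, (p.2, P12_tr (p.1.1, p.1.2.1.2.1)))),
        (p.2, p.1.2.2)))) (P12_ocasm mm hsq)
      (OC.pair (OC.fst (OC.fst OC.id)) (OC.pair (OC.pair (OC.snd (OC.fst (OC.fst (OC.snd
        (OC.fst OC.id))))) c4) (OC.pair (OC.snd OC.id) (OC.snd (OC.snd (OC.fst OC.id))))))
      fun _ => rfl).weaken fun _ _ => trivial

theorem P12_ocfd {dm : P12_T2.den → MatT.den}
    (hdm : OC P12_T2 MatT (fun _ => True) dm (fun y => mm y.1)) :
    OC (.prod (.prod P12_T1 (.prod MatT MatT)) MatT) MatT (fun _ => True)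
      (P12_fd dm) (fun y => mm (2 ^ y.1.1.1)) :=
  P12_cp (F := fun y : (Ty.prod (.prod P12_T1 (.prod MatT MatT)) MatT).den =>
      ((2 ^ y.1.1.1 : ℕ), y)) (P12_ocfd' mm hsq hdm)
    (OC.pair (P12_ocpow mm hsq (s := .prod (.prod P12_T1 (.prod MatT MatT)) MatT)
      (J := fun y => y.1.1.1) (OC.fst (OC.fst (OC.fst OC.id)))) OC.id) fun _ => rfl

end steps

/-! ## the values -/

/-- the value of the multiplication on squares -/
def P12_mulOK (dm : P12_T2.den → MatT.den) : Prop :=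
  ∀ (N : ℕ) (X Y : MatT.den), toM N N (dm (N, (X, Y))) = toM N N X * toM N N Y

/-- the specification -/
def P12_Spec (n : ℕ) (H G : MatT.den) : Prop :=
  (toM n n G)ᵀ = toM n n G ∧ toM n n H * toM n n G * toM n n H = toM n n H

theorem P12_val2 {N : ℕ} {f : ℕ → ℕ → ℝ} {i l : ℕ} (hi : i < N) (hl : l < N) :
    tabV VecT N (fun i => tabV .real N fun l => f i l) i l = f i l := by
  rw [tabV_lt hi, tabV_lt hl]

/-- blocks -/
theorem P12_blocks (N : ℕ) (X : ℕ → ℕ → ℝ) :
    (toM (N + N) (N + N) X).submatrix finSumFinEquiv finSumFinEquiv =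
      fromBlocks (toM N N X) (toM N N fun i l => X i (N + l)) (toM N N fun i l => X (N + i) l)
        (toM N N fun i l => X (N + i) (N + l)) := by
  ext i l
  rcases i with i | i <;> rcases l with l | l <;> simp [toM, Nat.add_comm]

theorem P12_sub_mul {N : ℕ} (A B C : Matrix (Fin (N + N)) (Fin (N + N)) ℝ) :
    (A * B * C).submatrix finSumFinEquiv finSumFinEquiv =
      A.submatrix finSumFinEquiv finSumFinEquiv * B.submatrix finSumFinEquiv finSumFinEquiv *
        (C.submatrix finSumFinEquiv finSumFinEquiv : Matrix (Fin N ⊕ Fin N) (Fin N ⊕ Fin N) ℝ) := by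
  rw [Matrix.submatrix_mul_equiv, Matrix.submatrix_mul_equiv]

theorem P12_sub_inj {N : ℕ} {A B : Matrix (Fin (N + N)) (Fin (N + N)) ℝ}
    (h : (A.submatrix finSumFinEquiv finSumFinEquiv : Matrix (Fin N ⊕ Fin N) (Fin N ⊕ Fin N) ℝ) =
      B.submatrix finSumFinEquiv finSumFinEquiv) : A = B := by
  ext i j
  have := congrFun (congrFun h (finSumFinEquiv.symm i)) (finSumFinEquiv.symm j)
  simpa using this

/-- one step -/
theorem P12_step {dm : P12_T2.den → MatT.den} (hdm : P12_mulOK dm) (j : ℕ) (x A' D' : MatT.den)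
    (hx : (toM (2 ^ j + 2 ^ j) (2 ^ j + 2 ^ j) x).PosSemidef)
    (hA : (toM (2 ^ j) (2 ^ j) (P12_fa (j, x))).PosSemidef → P12_Spec (2 ^ j) (P12_fa (j, x)) A')
    (hD : (toM (2 ^ j) (2 ^ j) (P12_fb dm ((j, x), A')).2.2).PosSemidef →
      P12_Spec (2 ^ j) (P12_fb dm ((j, x), A')).2.2 D') :
    P12_Spec (2 ^ j + 2 ^ j) x (P12_fd dm (P12_fb dm ((j, x), A'), D')) := by
  set N := 2 ^ j with hN
  set A := toM N N x with hAd
  set B := toM N N (fun i l => x i (N + l)) with hB
  set C := toM N N (fun i l => x (N + i) (N + l)) with hC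
  have hs : (fun i l : ℕ => x (N + i) l : ℕ → ℕ → ℝ) = fun i l => x (N + i) l := rfl
  have hBt : toM N N (fun i l => x (N + i) l) = Bᵀ := by
    ext i l
    have h1 := hx.isHermitian
    have h2 := congrFun (congrFun h1 (Fin.castAdd N l)) (Fin.natAdd N i)
    simpa [toM, hB, Matrix.conjTranspose_apply, Nat.add_comm] using h2
  have hM : (fromBlocks A B Bᵀ C).PosSemidef := by
    have h1 := hx.submatrix (finSumFinEquiv : Fin N ⊕ Fin N → Fin (N + N))
    rw [P12_blocks N x, hBt] at h1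
    exact h1
  have hfa : toM N N (P12_fa (j, x)) = A := by
    ext i l
    simp only [toM, P12_fa, P12_b00, hAd]
    exact P12_val2 i.2 l.2
  have hAp : A.PosSemidef := by
    have h1 := hM.submatrix (Sum.inl : Fin N → Fin N ⊕ Fin N)
    have h2 : (fromBlocks A B Bᵀ C).submatrix (Sum.inl : Fin N → Fin N ⊕ Fin N) Sum.inl = A := by
      ext i l
      rfl
    rwa [h2] at h1
  obtain ⟨a1, a2⟩ := hA (by rw [hfa]; exact hAp)
  rw [hfa] at a2
  -- the second step
  have hU : toM N N (P12_fb dm ((j, x), A')).2.1 = toM N N A' * B := by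
    have : (P12_fb dm ((j, x), A')).2.1 = dm (N, (A', P12_b01 (N, x))) := rfl
    rw [this, hdm]
    congr 1
    ext i l
    simp only [toM, P12_b01, hB]
    exact P12_val2 i.2 l.2
  have hDd : toM N N (P12_fb dm ((j, x), A')).2.2 = C - Bᵀ * (toM N N A' * B) := by
    have : (P12_fb dm ((j, x), A')).2.2 = P12_sub (N, (x, dm (N, (P12_b10 (N, x),
        (P12_fb dm ((j, x), A')).2.1)))) := rfl
    rw [this]
    have e1 : toM N N (P12_b10 (N, x)) = Bᵀ := by
      rw [← hBt]
      ext i l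
      simp only [toM, P12_b10]
      exact P12_val2 i.2 l.2
    have e2 := hdm N (P12_b10 (N, x)) (P12_fb dm ((j, x), A')).2.1
    rw [e1, hU] at e2
    rw [← e2]
    ext i l
    simp only [toM, P12_sub, Matrix.sub_apply, hC]
    exact P12_val2 (f := fun i l => x (N + i) (N + l) -
      dm (N, (P12_b10 (N, x), (P12_fb dm ((j, x), A')).2.1)) i l) i.2 l.2
  obtain ⟨hAs, hAB, hDp⟩ := P12_AAB hM a1 a2
  obtain ⟨d1, d2⟩ := hD (by rw [hDd]; exact hDp)
  rw [hDd] at d2
  obtain ⟨m1, m2⟩ := P12_block hM a1 a2 d1 d2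
  -- the third step
  set W := dm (N, ((P12_fb dm ((j, x), A')).2.1, D')) with hW
  set Z := dm (N, (W, P12_tr (N, (P12_fb dm ((j, x), A')).2.1))) with hZ
  have hfd : P12_fd dm (P12_fb dm ((j, x), A'), D') = P12_asm (N, ((A', Z), (W, D'))) := rfl
  have hWv : toM N N W = toM N N A' * B * toM N N D' := by rw [hW, hdm, hU]
  have hZv : toM N N Z = toM N N A' * B * toM N N D' * (toM N N A' * B)ᵀ := by
    rw [hZ, hdm, hWv]
    congr 1
    rw [← hU]
    ext i l
    simp only [toM, P12_tr, transpose_apply]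
    exact P12_val2 i.2 l.2
  have hG : (toM (N + N) (N + N) (P12_asm (N, ((A', Z), (W, D'))))).submatrix finSumFinEquiv
      finSumFinEquiv = fromBlocks (toM N N A' + toM N N Z) (-toM N N W) (-(toM N N W)ᵀ)
        (toM N N D') := by
    rw [P12_blocks]
    congr 1
    · ext i l
      have hi := i.2
      have hl := l.2
      simp only [toM, P12_asm, Matrix.add_apply]
      rw [tabV_lt (by omega), tabV_lt (by omega), if_pos hi, if_pos hl]
    · ext i l
      have hi := i.2
      have hl := l.2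
      simp only [toM, P12_asm, Matrix.neg_apply]
      rw [tabV_lt (by omega), tabV_lt (by omega), if_pos hi, if_neg (by omega)]
      congr 2
      omega
    · ext i l
      have hi := i.2
      have hl := l.2
      simp only [toM, P12_asm, Matrix.neg_apply, transpose_apply]
      rw [tabV_lt (by omega), tabV_lt (by omega), if_neg (by omega), if_pos hl]
      congr 2
      omega
    · ext i l
      have hi := i.2
      have hl := l.2
      simp only [toM, P12_asm]
      rw [tabV_lt (by omega), tabV_lt (by omega), if_neg (by omega), if_neg (by omega)]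
      congr 1
      · omega
      · omega
  rw [hWv, hZv] at hG
  rw [hfd]
  constructor
  · apply P12_sub_inj
    have : ((toM (N + N) (N + N) (P12_asm (N, ((A', Z), (W, D')))))ᵀ).submatrix
        finSumFinEquiv finSumFinEquiv = ((toM (N + N) (N + N) (P12_asm (N, ((A', Z), (W,
        D'))))).submatrix (finSumFinEquiv : Fin N ⊕ Fin N ≃ Fin (N + N)) finSumFinEquiv)ᵀ := rfl
    rw [this, hG]
    exact m1
  · apply P12_sub_inj
    rw [P12_sub_mul, hG, P12_blocks N x, hBt]
    exact m2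

theorem P12_G_spec {dm : P12_T2.den → MatT.den} (hdm : P12_mulOK dm) (j : ℕ) :
    ∀ x : MatT.den, (toM (2 ^ j) (2 ^ j) x).PosSemidef →
      P12_Spec (2 ^ j) x (P12_G P12_fa (P12_fb dm) (P12_fd dm) j x) := by
  induction j with
  | zero =>
    intro x hx
    have e1 : (2 : ℕ) ^ 0 = 1 := pow_zero 2
    rw [e1]
    have hv : toM 1 1 (P12_G P12_fa (P12_fb dm) (P12_fd dm) 0 x) 0 0 = (x 0 0)⁻¹ := by
      simp only [toM, P12_G]
      rfl
    constructor
    · ext i l
      rw [Subsingleton.elim i 0, Subsingleton.elim l 0, transpose_apply]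
    · ext i l
      rw [Subsingleton.elim i 0, Subsingleton.elim l 0, Matrix.mul_apply, Fin.sum_univ_one,
        Matrix.mul_apply, Fin.sum_univ_one, hv]
      have h1 : toM 1 1 x 0 0 = x 0 0 := rfl
      rw [h1]
      by_cases h0 : x 0 0 = 0
      · rw [h0, mul_zero]
      · rw [mul_inv_cancel₀ h0, one_mul]
  | succ j ih =>
    intro x hx
    have e : 2 ^ (j + 1) = 2 ^ j + 2 ^ j := by ring
    rw [e] at hx ⊢
    exact P12_step hdm j x _ _ hx (ih _) (ih _)

theorem P12_restrict {p N : ℕ} (hp : p ≤ N) {f g : ℕ → ℝ} (h1 : ∀ j < p, g j = f j)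
    (h2 : ∀ j, p ≤ j → g j = 0) : ∑ j : Fin p, f j = ∑ j : Fin N, g j := by
  rw [← Finset.sum_range f, ← Finset.sum_range g]
  rw [← Finset.sum_subset (Finset.range_mono hp) (f := g)]
  · exact Finset.sum_congr rfl fun j hj => (h1 j (Finset.mem_range.1 hj)).symm
  · intro j _ hj
    exact h2 j (not_lt.1 fun h => hj (Finset.mem_range.2 h))

/-! ## padding and the theorem -/

/-- padding by zeros; input `(N, (p, H))` -/
noncomputable def P12_pad (y : (Ty.prod .nat (.prod .nat MatT)).den) : MatT.den :=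
  tabV VecT y.1 fun i => tabV .real y.1 fun l =>
    if i < y.2.1 then (if l < y.2.1 then y.2.2 i l else 0) else 0

theorem P12_ocpad (mm : ℕ → ℕ) (hsq : ∀ m, (m + 1) ^ 2 ≤ mm m) :
    OC (.prod .nat (.prod .nat MatT)) MatT (fun _ => True) P12_pad (fun y => mm y.1) := by
  refine P12_tab2 (s := .prod .nat (.prod .nat MatT)) (OC.fst OC.id) ?_ 1 fun y _ => by
      have := hsq y.1
      omega
  refine OC.ifN (OC.snd (OC.fst OC.id)) (OC.fst (OC.snd (OC.fst (OC.fst OC.id))))
    (OC.ifN (OC.snd OC.id) (OC.fst (OC.snd (OC.fst (OC.fst OC.id)))) ?_ OC.r0) OC.r0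
  exact OC.get (OC.get (OC.snd (OC.snd (OC.fst (OC.fst OC.id)))) (OC.snd (OC.fst OC.id)))
    (OC.snd OC.id)

section dense

variable (Mul : Tm MatT) (mm : ℕ → ℕ) (hMul : MulOK Mul mm)
  (hmono : Monotone mm) (hsq : ∀ m, (m + 1) ^ 2 ≤ mm m) (hdbl : ∀ m, 1 ≤ m → 2 * mm m ≤ mm (2 * m))

include hMul hmono hsq hdbl

/-- symmetric g-inverse of a positive semidefinite matrix; input `((s, p), H)`, `p ≤ 2^s` -/
theorem ginv_prog : ∃ F : (Ty.prod (.prod .nat .nat) MatT).den → MatT.den,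
    OC _ MatT (fun _ => True) F (fun x => (x.1.1 + 1) * mm (2 ^ x.1.1)) ∧
    ∀ s p H, p ≤ 2 ^ s → (toM p p H).PosSemidef →
      (toM p p (F ((s, p), H)))ᵀ = toM p p (F ((s, p), H)) ∧
      toM p p H * toM p p (F ((s, p), H)) * toM p p H = toM p p H := by
  obtain ⟨Fd, hFd, hFd2⟩ := dmul_prog Mul mm hMul hmono hsq
  set dm : P12_T2.den → MatT.den := fun y => Fd ((y.1, (y.1, y.1)), y.2) with hdmd
  have hdm : OC P12_T2 MatT (fun _ => True) dm (fun y => mm y.1) := by
    refine P12_cp (s := P12_T2) (F := fun y => ((y.1, (y.1, y.1)), y.2)) hFd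
      (OC.pair (OC.pair (OC.fst OC.id) (OC.pair (OC.fst OC.id) (OC.fst OC.id))) (OC.snd OC.id))
      fun y => ?_
    simp
  have hdm2 : P12_mulOK dm := fun N X Y => hFd2 N N N X Y
  have hrec := P12_rec mm hsq hdbl (P12_ocfa mm hsq) (P12_ocfb mm hsq hdm) (P12_ocfd mm hsq hdm)
    (P12_fb_fst dm)
  refine ⟨fun x => P12_G P12_fa (P12_fb dm) (P12_fd dm) x.1.1
    (P12_pad ((2 ^ x.1.1 : ℕ), (x.1.2, x.2))), ?_, ?_⟩
  · have c1 : OC (.prod (.prod .nat .nat) MatT) MatT (fun _ => True)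
        (fun x => P12_pad ((2 ^ x.1.1 : ℕ), (x.1.2, x.2))) (fun x => mm (2 ^ x.1.1)) :=
      P12_cp (F := fun x : (Ty.prod (.prod .nat .nat) MatT).den =>
        ((2 ^ x.1.1 : ℕ), (x.1.2, x.2))) (P12_ocpad mm hsq)
        (OC.pair (P12_ocpow mm hsq (s := .prod (.prod .nat .nat) MatT) (J := fun x => x.1.1)
          (OC.fst (OC.fst OC.id))) (OC.pair (OC.snd (OC.fst OC.id)) (OC.snd OC.id)))
        fun _ => rfl
    have c2 : OC (.prod (.prod .nat .nat) MatT) MatT (fun _ => True)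
        (fun x => P12_pad ((2 ^ x.1.1 : ℕ), (x.1.2, x.2)))
        (fun x => (x.1.1 + 1) * mm (2 ^ x.1.1)) := c1.le 1 fun x _ => by nlinarith
    exact P12_cp (F := fun x : (Ty.prod (.prod .nat .nat) MatT).den =>
      (x.1.1, P12_pad ((2 ^ x.1.1 : ℕ), (x.1.2, x.2)))) hrec
      (OC.pair (OC.fst (OC.fst OC.id)) c2) fun _ => rfl
  · intro s p H hp hH
    set N := 2 ^ s with hN
    set H' := P12_pad (N, (p, H)) with hH'
    have hval : ∀ i < N, ∀ l < N, H' i l = if i < p then (if l < p then H i l else 0) else 0 := by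
      intro i hi l hl
      rw [hH']
      simp only [P12_pad]
      exact P12_val2 hi hl
    have hpsd : (toM N N H').PosSemidef := by
      have h1 : toM N N H' = (Matrix.of fun (i : Fin p) (k : Fin N) => if (k : ℕ) = i then (1 : ℝ)
          else 0)ᵀ * toM p p H * (Matrix.of fun (i : Fin p) (k : Fin N) => if (k : ℕ) = i
          then (1 : ℝ) else 0) := by
        ext i l
        simp only [Matrix.mul_apply, toM, transpose_apply, of_apply]
        rw [hval i i.2 l l.2]
        by_cases hi : (i : ℕ) < p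
        · by_cases hl : (l : ℕ) < p
          · rw [if_pos hi, if_pos hl, Finset.sum_eq_single (⟨l, hl⟩ : Fin p)]
            · rw [Finset.sum_eq_single (⟨i, hi⟩ : Fin p)]
              · simp
              · intro b _ hb
                rw [if_neg (fun h => hb (Fin.ext h.symm)), zero_mul]
              · intro h; exact absurd (Finset.mem_univ _) h
            · intro b _ hb
              rw [if_neg (fun h => hb (Fin.ext h.symm)), mul_zero]
            · intro h; exact absurd (Finset.mem_univ _) h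
          · rw [if_pos hi, if_neg hl]
            symm
            apply Finset.sum_eq_zero
            intro b _
            rw [if_neg (by have := b.2; omega), mul_zero]
        · rw [if_neg hi]
          symm
          apply Finset.sum_eq_zero
          intro b _
          have : ∑ k : Fin p, (if (i : ℕ) = k then (1 : ℝ) else 0) * H k b = 0 := by
            apply Finset.sum_eq_zero
            intro k _
            rw [if_neg (by have := k.2; omega), zero_mul]
          rw [this, zero_mul]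
      rw [h1, ← conjTranspose_eq_transpose_of_trivial]
      exact hH.conjTranspose_mul_mul_same _
    obtain ⟨g1, g2⟩ := P12_G_spec hdm2 s H' hpsd
    set G := P12_G P12_fa (P12_fb dm) (P12_fd dm) s H' with hG
    constructor
    · ext i l
      have := congrFun (congrFun g1 ⟨i, by have := i.2; omega⟩) ⟨l, by have := l.2; omega⟩
      exact this
    · ext i l
      have h1 := congrFun (congrFun g2 ⟨i, by have := i.2; omega⟩) ⟨l, by have := l.2; omega⟩
      simp only [Matrix.mul_apply, toM] at h1 ⊢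
      rw [hval i (by have := i.2; omega) l (by have := l.2; omega), if_pos i.2, if_pos l.2] at h1
      rw [← h1]
      have hv1 : ∀ k : ℕ, p ≤ k → H' i k = 0 := by
        intro k hk
        by_cases hkN : k < N
        · rw [hval i (by have := i.2; omega) k hkN, if_pos i.2, if_neg (by omega)]
        · rw [hH']
          simp only [P12_pad]
          rw [tabV_lt (by have := i.2; omega), tabV_ge (not_lt.1 hkN)]
          rfl
      have hv2 : ∀ k : ℕ, p ≤ k → H' k l = 0 := by
        intro k hk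
        by_cases hkN : k < N
        · rw [hval k hkN l (by have := l.2; omega), if_neg (by omega)]
        · rw [hH']
          simp only [P12_pad]
          rw [tabV_ge (not_lt.1 hkN)]
          rfl
      refine P12_restrict hp (f := fun j => (∑ k : Fin p, H i k * G k j) * H j l)
        (g := fun j => (∑ k : Fin N, H' i k * G k j) * H' j l) ?_ ?_
      · intro j hj
        rw [hval j (by omega) l (by have := l.2; omega), if_pos hj, if_pos l.2]
        congr 1
        symm
        refine P12_restrict hp (f := fun k => H i k * G k j) (g := fun k => H' i k * G k j) ?_ ?_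
        · intro k hk
          rw [hval i (by have := i.2; omega) k (by omega), if_pos i.2, if_pos hk]
        · intro k hk
          rw [hv1 k hk, zero_mul]
      · intro j hj
        rw [hv2 j hj, mul_zero]

end dense

end A56
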