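import Pool.Agent.Lib_helper50.A56.Prog
import Pool.Agent.Lib_helper50.A56.B.P11
import Pool.Agent.Lib_helper50.A56.B.P12
import Pool.Agent.Lib_helper50.A56.Alg
/-! # MP_a55cb8, block P13 : the compressed inverse -/

open Matrix Finset

namespace A56

/-! Copy of the definition in PStmt.lean (drop it when the files are wired). -/

/-! Copies of the statements of P11, P12. -/

section dense

variable (Mul : Tm MatT) (mm : ℕ → ℕ) (hMul : MulOK Mul mm)
  (hmono : Monotone mm) (hsq : ∀ m, (m + 1) ^ 2 ≤ mm m) (hdbl : ∀ m, 1 ≤ m → 2 * mm m ≤ mm (2 * m))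

include hMul hmono hsq

include hdbl

end dense

/-! ## P13 -/

theorem P13_le1 {a b : ℕ} (h : a ≤ b) : a ≤ 1 * (b + 1) := by omega

theorem P13_le2 (a b : ℕ) : a * (b + 1) ≤ (b + 1) * (a + 1) := by
  calc a * (b + 1) ≤ (a + 1) * (b + 1) := Nat.mul_le_mul_right _ (Nat.le_succ _)
    _ = (b + 1) * (a + 1) := Nat.mul_comm _ _

abbrev P13T : Ty := .prod (.prod .nat (.prod .nat .nat)) (.prod (.prod .nat .nat) (.prod CooT CooT))

/-- one step of the product of the two sparse lists -/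
noncomputable def P13_st (x : P13T.den) (e t : ℕ) (Z : MatT.den) : MatT.den :=
  Function.update Z (x.2.2.2.2.1 (t * x.1.1 + x.2.2.1.2.1 e))
    (Function.update (Z (x.2.2.2.2.1 (t * x.1.1 + x.2.2.1.2.1 e))) (x.2.2.1.2.2.1 e)
      (Z (x.2.2.2.2.1 (t * x.1.1 + x.2.2.1.2.1 e)) (x.2.2.1.2.2.1 e) +
        x.2.2.2.2.2.2 (t * x.1.1 + x.2.2.1.2.1 e) * x.2.2.1.2.2.2 e))

theorem P13_st_val (x : P13T.den) (e t : ℕ) (Z : MatT.den) (i j : ℕ) :
    P13_st x e t Z i j = Z i j + if x.2.2.2.2.1 (t * x.1.1 + x.2.2.1.2.1 e) = i ∧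
      x.2.2.1.2.2.1 e = j then x.2.2.2.2.2.2 (t * x.1.1 + x.2.2.1.2.1 e) * x.2.2.1.2.2.2 e
      else 0 := by
  unfold P13_st
  by_cases h1 : x.2.2.2.2.1 (t * x.1.1 + x.2.2.1.2.1 e) = i
  · by_cases h2 : x.2.2.1.2.2.1 e = j
    · rw [if_pos ⟨h1, h2⟩, h1, h2, Function.update_self, Function.update_self]
    · rw [if_neg (fun h => h2 h.2), h1, Function.update_self,
        Function.update_of_ne (fun h => h2 h.symm), add_zero]
  · rw [if_neg (fun h => h1 h.1), Function.update_of_ne (fun h => h1 h.symm), add_zero]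

theorem P13_in_val (x : P13T.den) (e m : ℕ) (Z : MatT.den) (i j : ℕ) :
    iterV (P13_st x e) Z m i j = Z i j + ∑ t ∈ range m,
      if x.2.2.2.2.1 (t * x.1.1 + x.2.2.1.2.1 e) = i ∧ x.2.2.1.2.2.1 e = j then
        x.2.2.2.2.2.2 (t * x.1.1 + x.2.2.1.2.1 e) * x.2.2.1.2.2.2 e else 0 := by
  induction m with
  | zero => simp
  | succ m ih => rw [iterV_succ, P13_st_val, ih, sum_range_succ, add_assoc]

theorem P13_out_val (x : P13T.den) (J m : ℕ) (i j : ℕ) :
    iterV (fun e Z => iterV (P13_st x e) Z J) (MatT.default) m i j = ∑ e ∈ range m,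
      ∑ t ∈ range J,
      if x.2.2.2.2.1 (t * x.1.1 + x.2.2.1.2.1 e) = i ∧ x.2.2.1.2.2.1 e = j then
        x.2.2.2.2.2.2 (t * x.1.1 + x.2.2.1.2.1 e) * x.2.2.1.2.2.2 e else 0 := by
  induction m with
  | zero => simp [Ty.default]
  | succ m ih => rw [iterV_succ, P13_in_val, ih, sum_range_succ]

theorem P13_st_oc {V : (Ty.prod (.prod P13T (.prod .nat MatT)) (.prod .nat MatT)).den → Prop}
    {w : (Ty.prod (.prod P13T (.prod .nat MatT)) (.prod .nat MatT)).den → ℕ} :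
    OC (.prod (.prod P13T (.prod .nat MatT)) (.prod .nat MatT)) MatT V
      (fun q => P13_st q.1.1 q.1.2.1 q.2.1 q.2.2) w := by
  have hx : OC (.prod (.prod P13T (.prod .nat MatT)) (.prod .nat MatT)) P13T V
      (fun q => q.1.1) w := OC.fst (OC.fst OC.id)
  have he : OC (.prod (.prod P13T (.prod .nat MatT)) (.prod .nat MatT)) .nat V
      (fun q => q.1.2.1) w := OC.fst (OC.snd (OC.fst OC.id))
  have ht : OC (.prod (.prod P13T (.prod .nat MatT)) (.prod .nat MatT)) .nat V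
      (fun q => q.2.1) w := OC.fst (OC.snd OC.id)
  have hZ : OC (.prod (.prod P13T (.prod .nat MatT)) (.prod .nat MatT)) MatT V
      (fun q => q.2.2) w := OC.snd (OC.snd OC.id)
  have hn := OC.fst (OC.fst hx)
  have hU := OC.fst (OC.snd (OC.snd hx))
  have hS := OC.snd (OC.snd (OC.snd hx))
  have hidx := OC.nadd (OC.nmul ht hn) (OC.get (OC.fst (OC.snd hU)) he)
  have hr := OC.get (OC.fst (OC.snd hS)) hidx
  have hp := OC.get (OC.fst (OC.snd (OC.snd hU))) he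
  have hv := OC.mul (OC.get (OC.snd (OC.snd (OC.snd hS))) hidx)
    (OC.get (OC.snd (OC.snd (OC.snd hU))) he)
  exact OC.upd hZ hr (OC.upd (OC.get hZ hr) hp (OC.add (OC.get (OC.get hZ hr) hp) hv))

/-- the dense product -/
noncomputable def P13_Z (x : P13T.den) : MatT.den :=
  iterV (fun e Z => iterV (P13_st x e) Z x.1.2.2) (MatT.default) x.2.2.1.1

theorem P13_Z_oc {V : P13T.den → Prop} {w : P13T.den → ℕ}
    (hw : ∀ x, V x → (x.1.2.2 + 1) * (x.2.2.1.1 + 1) ≤ w x) :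
    OC P13T MatT V P13_Z w := by
  have hN : OC P13T .nat V (fun x => x.2.2.1.1) w :=
    OC.fst (OC.fst (OC.snd (OC.snd OC.id)))
  have hB : OC (.prod P13T (.prod .nat MatT)) MatT
      (fun p => V p.1 ∧ p.2.1 < p.1.2.2.1.1 ∧
        p.2.2 = iterV ((fun (x : P13T.den) e Z => iterV (P13_st x e) Z x.1.2.2) p.1)
          (MatT.default) p.2.1)
      (fun p => (fun (x : P13T.den) e Z => iterV (P13_st x e) Z x.1.2.2) p.1 p.2.1 p.2.2)
      (fun p => p.1.1.2.2) := by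
    refine OC.iter0 (N := fun p : (Ty.prod P13T (.prod .nat MatT)).den => p.1.1.2.2)
      (A := fun p : (Ty.prod P13T (.prod .nat MatT)).den => p.2.2)
      (B := fun (p : (Ty.prod P13T (.prod .nat MatT)).den) t Z => P13_st p.1 p.2.1 t Z)
      (OC.snd (OC.snd (OC.fst (OC.fst OC.id)))) (OC.snd (OC.snd OC.id)) P13_st_oc 1
      fun p _ => by omega
  refine OC.iter (N := fun x : P13T.den => x.2.2.1.1) (A := fun _ => MatT.default)
    (B := fun (x : P13T.den) e Z => iterV (P13_st x e) Z x.1.2.2) hN (OC.dflt MatT) hB 1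
    fun x hx => ?_
  have := hw x hx
  simp only [sum_const, card_range, smul_eq_mul]
  exact P13_le1 ((P13_le2 _ _).trans this)

theorem P13_sum_mul {α : Type} [AddCommMonoid α] (f : ℕ → α) (n J : ℕ) :
    ∑ e ∈ range (J * n), f e = ∑ t ∈ range J, ∑ c ∈ range n, f (t * n + c) := by
  induction J with
  | zero => simp
  | succ J ih => rw [Nat.succ_mul, sum_range_add, ih, sum_range_succ]

theorem P13_cooA_sk {n J m : ℕ} {S : CooT.den} (hS : SkOK n J m S) (i : ℕ) {c : ℕ} (hc : c < n) :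
    cooA S i c = ∑ t ∈ range J, if S.2.1 (t * n + c) = i then S.2.2.2 (t * n + c) else 0 := by
  unfold cooA
  rw [hS.1, P13_sum_mul]
  refine sum_congr rfl fun t ht => ?_
  rw [sum_eq_single_of_mem c (mem_range.mpr hc)]
  · have := (hS.2 t (mem_range.mp ht) c hc).1
    simp only [this, and_true]
  · intro c' hc' hne
    have := (hS.2 t (mem_range.mp ht) c' (mem_range.mp hc')).1
    rw [if_neg]
    rintro ⟨-, h⟩
    exact hne (this.symm.trans h)

theorem P13_Z_val {n s J m1 m2 : ℕ} {U S : CooT.den} (hU : CooOK n m1 U) (hS : SkOK n J m2 S) :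
    toM m2 m1 (P13_Z ((n, (s, J)), ((m1, m2), (U, S)))) =
      toM m2 n (cooA S) * toM n m1 (cooA U) := by
  ext i j
  rw [Matrix.mul_apply]
  show P13_Z ((n, (s, J)), ((m1, m2), (U, S))) i j = ∑ c : Fin n, cooA S i c * cooA U c j
  rw [Fin.sum_univ_eq_sum_range (fun c => cooA S i c * cooA U c j) n]
  unfold P13_Z
  rw [P13_out_val]
  have h1 : ∀ c, cooA S i c * cooA U c j = ∑ e ∈ range U.1,
      cooA S i c * if U.2.1 e = c ∧ U.2.2.1 e = j then U.2.2.2 e else 0 := by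
    intro c
    rw [← mul_sum]
    rfl
  simp_rw [h1]
  conv_rhs => rw [sum_comm]
  refine sum_congr rfl fun e he => ?_
  have he' := hU e (mem_range.mp he)
  rw [sum_eq_single_of_mem (U.2.1 e) (mem_range.mpr he'.1)]
  · rw [P13_cooA_sk hS _ he'.1, sum_mul]
    refine sum_congr rfl fun t _ => ?_
    simp only [true_and, ite_mul, zero_mul, mul_ite, mul_zero]
    by_cases h2 : U.2.2.1 e = j
    · simp [h2]
    · simp [h2]
  · intro c _ hne
    rw [if_neg (fun h => hne h.1.symm), mul_zero]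

section dense

variable (Mul : Tm MatT) (mm : ℕ → ℕ) (hMul : MulOK Mul mm)
  (hmono : Monotone mm) (hsq : ∀ m, (m + 1) ^ 2 ≤ mm m) (hdbl : ∀ m, 1 ≤ m → 2 * mm m ≤ mm (2 * m))

include hMul hmono hsq hdbl

/-- `Γ = H⁻ Zᵀ`, `Z = S U` (dense), `H = ZᵀZ`; input `((n, (s, J)), ((m1, m2), (U, S)))`,
`U : n × m1`, `S : m2 × n` -/
theorem gamma_prog : ∃ F : (Ty.prod (.prod .nat (.prod .nat .nat))
      (.prod (.prod .nat .nat) (.prod CooT CooT))).den → MatT.den,
    OC (.prod (.prod .nat (.prod .nat .nat)) (.prod (.prod .nat .nat) (.prod CooT CooT))) MatT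
      (fun x => x.2.1.1 ≤ 2 ^ x.1.2.1 ∧ x.2.1.2 ≤ 2 ^ x.1.2.1) F
      (fun x => (x.1.2.1 + 1) * mm (2 ^ x.1.2.1) + x.1.1 + (x.1.2.2 + 1) * (x.2.2.1.1 + 1)) ∧
    ∀ n s J m1 m2 U S, m1 ≤ 2 ^ s → m2 ≤ 2 ^ s → CooOK n m1 U → SkOK n J m2 S →
      ∃ Hm : Matrix (Fin m1) (Fin m1) ℝ, ∀ Z : Matrix (Fin m2) (Fin m1) ℝ,
        Z = toM m2 n (cooA S) * toM n m1 (cooA U) → Hmᵀ = Hm ∧
        (Zᵀ * Z) * Hm * (Zᵀ * Z) = Zᵀ * Z ∧
        toM m1 m2 (F ((n, (s, J)), ((m1, m2), (U, S)))) = Hm * Zᵀ := by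
  obtain ⟨dm, dmo, dmv⟩ := dmul_prog Mul mm hMul hmono hsq
  obtain ⟨gi, gio, giv⟩ := ginv_prog Mul mm hMul hmono hsq hdbl
  set V : P13T.den → Prop := fun x => x.2.1.1 ≤ 2 ^ x.1.2.1 ∧ x.2.1.2 ≤ 2 ^ x.1.2.1 with hV
  set w : P13T.den → ℕ := fun x => (x.1.2.1 + 1) * mm (2 ^ x.1.2.1) + x.1.1 +
    (x.1.2.2 + 1) * (x.2.2.1.1 + 1) with hw
  have hwmm : ∀ x : P13T.den, mm (2 ^ x.1.2.1) ≤ w x := fun x => by
    show mm (2 ^ x.1.2.1) ≤ (x.1.2.1 + 1) * mm (2 ^ x.1.2.1) + x.1.1 +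
      (x.1.2.2 + 1) * (x.2.2.1.1 + 1)
    nlinarith [Nat.zero_le (x.1.2.1 * mm (2 ^ x.1.2.1)),
      Nat.zero_le ((x.1.2.2 + 1) * (x.2.2.1.1 + 1))]
  have hwg : ∀ x : P13T.den, (x.1.2.1 + 1) * mm (2 ^ x.1.2.1) ≤ w x := fun x => by
    show (x.1.2.1 + 1) * mm (2 ^ x.1.2.1) ≤ (x.1.2.1 + 1) * mm (2 ^ x.1.2.1) + x.1.1 +
      (x.1.2.2 + 1) * (x.2.2.1.1 + 1)
    exact le_trans (Nat.le_add_right _ _) (Nat.le_add_right _ _)
  -- the transposed matrix
  let ZT : P13T.den → MatT.den → MatT.den := fun x Z =>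
    tabV VecT x.2.1.1 fun i => tabV .real x.2.1.2 fun j => Z j i
  -- the last three steps
  let F4 : P13T.den → MatT.den → MatT.den → MatT.den → MatT.den := fun x Z T H =>
    dm ((x.2.1.1, (x.2.1.1, x.2.1.2)), (gi ((x.1.2.1, x.2.1.1), H), T))
  let F3 : P13T.den → MatT.den → MatT.den → MatT.den := fun x Z T =>
    letV (dm ((x.2.1.1, (x.2.1.2, x.2.1.1)), (T, Z))) (F4 x Z T)
  let F2 : P13T.den → MatT.den → MatT.den := fun x Z => letV (ZT x Z) (F3 x Z)
  let F1 : P13T.den → MatT.den := fun x => letV (P13_Z x) (F2 x)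
  have hmax : ∀ x : P13T.den, V x → mm (max x.2.1.1 (max x.2.1.1 x.2.1.2)) ≤ w x := fun x hx =>
    (hmono (max_le hx.1 (max_le hx.1 hx.2))).trans (hwmm x)
  have hmax' : ∀ x : P13T.den, V x → mm (max x.2.1.1 (max x.2.1.2 x.2.1.1)) ≤ w x := fun x hx =>
    (hmono (max_le hx.1 (max_le hx.2 hx.1))).trans (hwmm x)
  have o4 : OC (.prod (.prod (.prod P13T MatT) MatT) MatT) MatT (fun q => V q.1.1.1)
      (fun q => F4 q.1.1.1 q.1.1.2 q.1.2 q.2) (fun q => w q.1.1.1) := by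
    have hx : OC (.prod (.prod (.prod P13T MatT) MatT) MatT) P13T (fun q => V q.1.1.1)
      (fun q => q.1.1.1) (fun q => w q.1.1.1) := OC.fst (OC.fst (OC.fst OC.id))
    have hT : OC (.prod (.prod (.prod P13T MatT) MatT) MatT) MatT (fun q => V q.1.1.1)
      (fun q => q.1.2) (fun q => w q.1.1.1) := OC.snd (OC.fst OC.id)
    have hH : OC (.prod (.prod (.prod P13T MatT) MatT) MatT) MatT (fun q => V q.1.1.1)
      (fun q => q.2) (fun q => w q.1.1.1) := OC.snd OC.id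
    have hm1 := OC.fst (OC.fst (OC.snd hx))
    have hm2 := OC.snd (OC.fst (OC.snd hx))
    have hs := OC.fst (OC.snd (OC.fst hx))
    have hg : OC (.prod (.prod (.prod P13T MatT) MatT) MatT) MatT (fun q => V q.1.1.1)
      (fun q => gi ((q.1.1.1.1.2.1, q.1.1.1.2.1.1), q.2)) (fun q => w q.1.1.1) :=
      OC.comp (F := fun q : (Ty.prod (.prod (.prod P13T MatT) MatT) MatT).den =>
        ((q.1.1.1.1.2.1, q.1.1.1.2.1.1), q.2)) gio (OC.pair (OC.pair hs hm1) hH)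
        (fun _ _ => trivial) 1 fun q _ => P13_le1 (hwg q.1.1.1)
    exact OC.comp (F := fun q : (Ty.prod (.prod (.prod P13T MatT) MatT) MatT).den =>
        ((q.1.1.1.2.1.1, (q.1.1.1.2.1.1, q.1.1.1.2.1.2)),
          (gi ((q.1.1.1.1.2.1, q.1.1.1.2.1.1), q.2), q.1.2))) dmo
        (OC.pair (OC.pair hm1 (OC.pair hm1 hm2)) (OC.pair hg hT))
        (fun _ _ => trivial) 1 fun q hq => P13_le1 (hmax q.1.1.1 hq)
  have o3 : OC (.prod (.prod P13T MatT) MatT) MatT (fun q => V q.1.1)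
      (fun q => F3 q.1.1 q.1.2 q.2) (fun q => w q.1.1) := by
    have hx : OC (.prod (.prod P13T MatT) MatT) P13T (fun q => V q.1.1)
      (fun q => q.1.1) (fun q => w q.1.1) := OC.fst (OC.fst OC.id)
    have hZ : OC (.prod (.prod P13T MatT) MatT) MatT (fun q => V q.1.1)
      (fun q => q.1.2) (fun q => w q.1.1) := OC.snd (OC.fst OC.id)
    have hT : OC (.prod (.prod P13T MatT) MatT) MatT (fun q => V q.1.1)
      (fun q => q.2) (fun q => w q.1.1) := OC.snd OC.id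
    have hm1 := OC.fst (OC.fst (OC.snd hx))
    have hm2 := OC.snd (OC.fst (OC.snd hx))
    have hA : OC (.prod (.prod P13T MatT) MatT) MatT (fun q => V q.1.1)
      (fun q => dm ((q.1.1.2.1.1, (q.1.1.2.1.2, q.1.1.2.1.1)), (q.2, q.1.2)))
      (fun q => w q.1.1) :=
      OC.comp (F := fun q : (Ty.prod (.prod P13T MatT) MatT).den =>
        ((q.1.1.2.1.1, (q.1.1.2.1.2, q.1.1.2.1.1)), (q.2, q.1.2))) dmo
        (OC.pair (OC.pair hm1 (OC.pair hm2 hm1)) (OC.pair hT hZ))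
        (fun _ _ => trivial) 1 fun q hq => P13_le1 (hmax' q.1.1 hq)
    exact OC.let_ (B := fun q : (Ty.prod (.prod P13T MatT) MatT).den => F4 q.1.1 q.1.2 q.2) hA
      (o4.weaken fun q hq => hq.1) 1 fun q _ => P13_le1 le_rfl
  have o2 : OC (.prod P13T MatT) MatT (fun q => V q.1)
      (fun q => F2 q.1 q.2) (fun q => w q.1) := by
    have hx : OC (.prod P13T MatT) P13T (fun q => V q.1)
      (fun q => q.1) (fun q => w q.1) := OC.fst OC.id
    have hm1 := OC.fst (OC.fst (OC.snd hx))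
    have hA : OC (.prod P13T MatT) MatT (fun q => V q.1)
      (fun q => ZT q.1 q.2) (fun q => w q.1) := by
      refine OC.tab (N := fun q : (Ty.prod P13T MatT).den => q.1.2.1.1)
        (F := fun (q : (Ty.prod P13T MatT).den) i => tabV .real q.1.2.1.2 fun j => q.2 j i)
        (w' := fun q => q.1.1.2.1.2) hm1 ?_ 1 ?_
      · refine OC.tab0 (N := fun q : (Ty.prod (.prod P13T MatT) .nat).den => q.1.1.2.1.2)
          (F := fun (q : (Ty.prod (.prod P13T MatT) .nat).den) j => q.1.2 j q.2)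
          (OC.snd (OC.fst (OC.snd (OC.fst (OC.fst OC.id))))) ?_ 1 fun q _ => by omega
        exact OC.get (OC.get (OC.snd (OC.fst (OC.fst OC.id))) (OC.snd OC.id))
          (OC.snd (OC.fst OC.id))
      · intro q hq
        have h1 : q.1.2.1.1 * (q.1.2.1.2 + 1) ≤ (2 ^ q.1.1.2.1 + 1) ^ 2 := by
          have h2 := hq.1
          have h3 := hq.2
          calc q.1.2.1.1 * (q.1.2.1.2 + 1) ≤ (2 ^ q.1.1.2.1 + 1) * (2 ^ q.1.1.2.1 + 1) :=
                Nat.mul_le_mul (h2.trans (Nat.le_succ _)) (Nat.succ_le_succ h3)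
            _ = _ := (pow_two _).symm
        have h4 := h1.trans ((hsq _).trans (hwmm q.1))
        simp only [sum_const, card_range, smul_eq_mul]
        exact P13_le1 h4
    exact OC.let_ (B := fun q : (Ty.prod P13T MatT).den => F3 q.1 q.2) hA
      (o3.weaken fun q hq => hq.1) 1 fun q _ => P13_le1 le_rfl
  have o1 : OC P13T MatT V F1 w := by
    have hA : OC P13T MatT V P13_Z w := P13_Z_oc fun x _ => Nat.le_add_left _ _
    exact OC.let_ (B := fun x : P13T.den => F2 x) hA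
      (o2.weaken fun q hq => hq.1) 1 fun q _ => P13_le1 le_rfl
  refine ⟨F1, o1, fun n s J m1 m2 U S h1 h2 hU hS => ?_⟩
  set x : P13T.den := ((n, (s, J)), ((m1, m2), (U, S))) with hx
  have hZv : toM m2 m1 (P13_Z x) = toM m2 n (cooA S) * toM n m1 (cooA U) := P13_Z_val hU hS
  have hZT : toM m1 m2 (ZT x (P13_Z x)) = (toM m2 m1 (P13_Z x))ᵀ := by
    ext i j
    show tabV VecT m1 (fun i => tabV .real m2 fun j => P13_Z x j i) i j = P13_Z x j i
    rw [tabV_lt i.2, tabV_lt j.2]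
  set H := dm ((m1, (m2, m1)), (ZT x (P13_Z x), P13_Z x)) with hH
  have hHv : toM m1 m1 H = (toM m2 m1 (P13_Z x))ᵀ * toM m2 m1 (P13_Z x) := by
    rw [hH, dmv, hZT]
  have hpsd : (toM m1 m1 H).PosSemidef := by
    rw [hHv]
    exact Matrix.posSemidef_conjTranspose_mul_self (toM m2 m1 (P13_Z x))
  obtain ⟨g1, g2⟩ := giv s m1 H h1 hpsd
  refine ⟨toM m1 m1 (gi ((s, m1), H)), fun Z hZ => ⟨g1, ?_, ?_⟩⟩
  · rw [hZ, ← hZv, ← hHv]
    exact g2
  · show toM m1 m2 (dm ((m1, (m1, m2)), (gi ((s, m1), H), ZT x (P13_Z x)))) = _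
    rw [dmv, hZT, hZ, ← hZv]

end dense

end A56
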