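import Pool.Agent.Lib_helper50.A56.B.P14
import Pool.Agent.Lib_helper50.A56.B.P15
/-!
# MP_a55cb8: block P16 (helper50): the Gram matrix of a sparse list

Rows with a flag are collected in a dense matrix; the other rows are processed entry by entry.
-/

open Matrix Finset

namespace A56

/-! ## buckets -/

/-- numbers of entries of the rows, lists of entries of the rows -/
abbrev P16_B : Ty := .prod NArr (.arr NArr)

/-- one step -/
def P16_bstep (M : CooT.den) (e : ℕ) (st : P16_B.den) : P16_B.den :=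
  (Function.update st.1 (M.2.1 e) (st.1 (M.2.1 e) + 1),
    Function.update st.2 (M.2.1 e) (Function.update (st.2 (M.2.1 e)) (st.1 (M.2.1 e)) e))

/-- the buckets -/
def P16_buck (M : CooT.den) : P16_B.den :=
  iterV (P16_bstep M) ((Ty.arr .nat).default, (Ty.arr NArr).default) M.1

theorem P16_ocbuck : OC CooT P16_B (fun _ => True) P16_buck (fun x => x.1) := by
  refine OC.iter0 (s := CooT) (t := P16_B) (N := fun x => x.1)
    (A := fun _ => ((Ty.arr .nat).default, (Ty.arr NArr).default))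
    (B := P16_bstep) (OC.fst OC.id) (OC.pair (OC.dflt _) (OC.dflt _)) ?_ 1
    (fun x _ => by omega)
  have hst : ∀ V : (Ty.prod CooT (.prod .nat P16_B)).den → Prop,
      OC (.prod CooT (.prod .nat P16_B)) P16_B V (fun p => p.2.2) (fun _ => 0) :=
    fun V => OC.snd (OC.snd OC.id)
  have hi : ∀ V : (Ty.prod CooT (.prod .nat P16_B)).den → Prop,
      OC (.prod CooT (.prod .nat P16_B)) .nat V (fun p => p.2.1) (fun _ => 0) :=
    fun V => OC.fst (OC.snd OC.id)
  have hr : ∀ V : (Ty.prod CooT (.prod .nat P16_B)).den → Prop,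
      OC (.prod CooT (.prod .nat P16_B)) .nat V (fun p => p.1.2.1 p.2.1) (fun _ => 0) :=
    fun V => OC.get (OC.fst (OC.snd (OC.fst OC.id))) (hi V)
  exact OC.pair (OC.upd (OC.fst (hst _)) (hr _)
      (OC.nadd (OC.get (OC.fst (hst _)) (hr _)) (OC.nlit 1)))
    (OC.upd (OC.snd (hst _)) (hr _) (OC.upd (OC.get (OC.snd (hst _)) (hr _))
      (OC.get (OC.fst (hst _)) (hr _)) (hi _)))

theorem P16_buck_spec (M : CooT.den) (m r : ℕ) :
    (iterV (P16_bstep M) ((Ty.arr .nat).default, (Ty.arr NArr).default) m).1 r =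
      ((range m).filter fun e => M.2.1 e = r).card ∧
    ∀ f : ℕ → ℝ, ∑ j ∈ range ((iterV (P16_bstep M)
        ((Ty.arr .nat).default, (Ty.arr NArr).default) m).1 r),
        f ((iterV (P16_bstep M) ((Ty.arr .nat).default, (Ty.arr NArr).default) m).2 r j) =
      ∑ e ∈ range m, if M.2.1 e = r then f e else 0 := by
  induction m with
  | zero =>
    refine ⟨?_, fun f => ?_⟩
    · rw [iterV_zero]; simp [Ty.default]
    · rw [iterV_zero]; simp [Ty.default]
  | succ m ih =>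
    obtain ⟨h1, h2⟩ := ih
    rw [iterV_succ]
    set st := iterV (P16_bstep M) ((Ty.arr .nat).default, (Ty.arr NArr).default) m
    unfold P16_bstep
    by_cases hr : M.2.1 m = r
    · subst hr
      refine ⟨?_, fun f => ?_⟩
      · simp only [Function.update_self]
        rw [Finset.range_add_one, Finset.filter_insert, if_pos rfl,
          Finset.card_insert_of_notMem (by simp), h1]
      · simp only [Function.update_self]
        rw [Finset.sum_range_succ, Finset.sum_range_succ, if_pos rfl, Function.update_self,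
          ← h2 f]
        congr 1
        refine Finset.sum_congr rfl fun j hj => ?_
        rw [Function.update_of_ne (Finset.mem_range.1 hj).ne]
    · refine ⟨?_, fun f => ?_⟩
      · simp only [Function.update_of_ne (Ne.symm hr)]
        rw [Finset.range_add_one, Finset.filter_insert, if_neg hr, h1]
      · simp only [Function.update_of_ne (Ne.symm hr)]
        rw [Finset.sum_range_succ, if_neg hr, add_zero]
        exact h2 f

/-! ## sums of entries -/

/-- add `v` at the position `(a, b)` -/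
noncomputable def P16_add (G : MatT.den) (a b : ℕ) (v : ℝ) : MatT.den :=
  Function.update G a (Function.update (G a) b (G a b + v))

theorem P16_add_val (G : MatT.den) (a b : ℕ) (v : ℝ) (i l : ℕ) :
    P16_add G a b v i l = G i l + if a = i ∧ b = l then v else 0 := by
  unfold P16_add
  by_cases h1 : a = i
  · subst h1
    rw [Function.update_self]
    by_cases h2 : b = l
    · subst h2
      rw [Function.update_self, if_pos ⟨rfl, rfl⟩]
    · rw [Function.update_of_ne (Ne.symm h2), if_neg (fun h => h2 h.2), add_zero]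
  · rw [Function.update_of_ne (Ne.symm h1), if_neg (fun h => h1 h.1), add_zero]

theorem P16_addoc {s : Ty} {V : s.den → Prop} {w : s.den → ℕ} {G : s.den → MatT.den}
    {a b : s.den → ℕ} {v : s.den → ℝ} (hG : OC s MatT V G w) (ha : OC s .nat V a w)
    (hb : OC s .nat V b w) (hv : OC s .real V v w) :
    OC s MatT V (fun x => P16_add (G x) (a x) (b x) (v x)) w :=
  OC.upd hG ha (OC.upd (OC.get hG ha) hb (OC.add (OC.get (OC.get hG ha) hb) hv))

theorem P16_iter_val (a b : ℕ → ℕ) (v : ℕ → ℝ) (G : MatT.den) (n i l : ℕ) :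
    iterV (fun j G => P16_add G (a j) (b j) (v j)) G n i l =
      G i l + ∑ j ∈ range n, if a j = i ∧ b j = l then v j else 0 := by
  induction n with
  | zero => rw [iterV_zero, Finset.sum_range_zero, add_zero]
  | succ n ih => rw [iterV_succ, Finset.sum_range_succ, ← add_assoc, ← ih, P16_add_val]

/-! ## the light rows -/

/-- `(((k, s), h), (M, (F, I)))` -/
abbrev P16_T : Ty := .prod (.prod (.prod .nat .nat) .nat) (.prod CooT (.prod NArr NArr))

/-- one step; input `(x, buckets)` -/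
noncomputable def P16_ustep (y : (Ty.prod P16_T P16_B).den) (e : ℕ) (G : MatT.den) : MatT.den :=
  if 0 < y.1.2.2.1 (y.1.2.1.2.1 e) then G
  else iterV (fun j G => P16_add G (y.1.2.1.2.2.1 e) (y.1.2.1.2.2.1 (y.2.2 (y.1.2.1.2.1 e) j))
    (y.1.2.1.2.2.2 e * y.1.2.1.2.2.2 (y.2.2 (y.1.2.1.2.1 e) j))) G (y.2.1 (y.1.2.1.2.1 e))

/-- the part of the light rows -/
noncomputable def P16_U (y : (Ty.prod P16_T P16_B).den) : MatT.den :=
  iterV (P16_ustep y) MatT.default y.1.2.1.1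

/-- the light weight -/
def P16_light (M : CooT.den) (F : ℕ → ℕ) : ℕ :=
  ∑ e ∈ range M.1, if 0 < F (M.2.1 e) then 0 else rowCnt M (M.2.1 e)

theorem P16_ocU : OC (.prod P16_T P16_B) MatT (fun y => y.2 = P16_buck y.1.2.1) P16_U
    (fun y => P16_light y.1.2.1 y.1.2.2.1 + y.1.2.1.1) := by
  refine OC.iter (s := .prod P16_T P16_B) (t := MatT)
    (w' := fun p => if 0 < p.1.1.2.2.1 (p.1.1.2.1.2.1 p.2.1) then 0 else
      p.1.2.1 (p.1.1.2.1.2.1 p.2.1))
    (N := fun y => y.1.2.1.1) (A := fun _ => MatT.default) (B := P16_ustep)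
    (OC.fst (OC.fst (OC.snd (OC.fst OC.id)))) (OC.dflt _) ?_ 1 ?_
  · have hM : ∀ (V : (Ty.prod (.prod P16_T P16_B) (.prod .nat MatT)).den → Prop) w,
        OC (.prod (.prod P16_T P16_B) (.prod .nat MatT)) CooT V (fun p => p.1.1.2.1) w :=
      fun V w => OC.fst (OC.snd (OC.fst (OC.fst OC.id)))
    have hE : ∀ (V : (Ty.prod (.prod P16_T P16_B) (.prod .nat MatT)).den → Prop) w,
        OC (.prod (.prod P16_T P16_B) (.prod .nat MatT)) .nat V (fun p => p.2.1) w :=
      fun V w => OC.fst (OC.snd OC.id)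
    have hr : ∀ (V : (Ty.prod (.prod P16_T P16_B) (.prod .nat MatT)).den → Prop) w,
        OC (.prod (.prod P16_T P16_B) (.prod .nat MatT)) .nat V
          (fun p => p.1.1.2.1.2.1 p.2.1) w :=
      fun V w => OC.get (OC.fst (OC.snd (hM V w))) (hE V w)
    have hG : ∀ (V : (Ty.prod (.prod P16_T P16_B) (.prod .nat MatT)).den → Prop) w,
        OC (.prod (.prod P16_T P16_B) (.prod .nat MatT)) MatT V (fun p => p.2.2) w :=
      fun V w => OC.snd (OC.snd OC.id)
    refine OC.ifN (OC.nlit 0) (OC.get (OC.fst (OC.snd (OC.snd (OC.fst (OC.fst OC.id)))))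
      (hr _ _)) (hG _ _) ?_
    refine OC.iter0 (s := .prod (.prod P16_T P16_B) (.prod .nat MatT)) (t := MatT)
      (N := fun p => p.1.2.1 (p.1.1.2.1.2.1 p.2.1)) (A := fun p => p.2.2)
      (B := fun p j G => P16_add G (p.1.1.2.1.2.2.1 p.2.1)
        (p.1.1.2.1.2.2.1 (p.1.2.2 (p.1.1.2.1.2.1 p.2.1) j))
        (p.1.1.2.1.2.2.2 p.2.1 * p.1.1.2.1.2.2.2 (p.1.2.2 (p.1.1.2.1.2.1 p.2.1) j)))
      (OC.get (OC.fst (OC.snd (OC.fst OC.id))) (hr _ _)) (hG _ _) ?_ 1 fun p hp => by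
        rw [if_neg hp.2]
        omega
    have hM' : ∀ (V : (Ty.prod (.prod (.prod P16_T P16_B) (.prod .nat MatT))
        (.prod .nat MatT)).den → Prop) w, OC (.prod (.prod (.prod P16_T P16_B)
        (.prod .nat MatT)) (.prod .nat MatT)) CooT V (fun p => p.1.1.1.2.1) w :=
      fun V w => OC.fst (OC.snd (OC.fst (OC.fst (OC.fst OC.id))))
    have hE' : ∀ (V : (Ty.prod (.prod (.prod P16_T P16_B) (.prod .nat MatT))
        (.prod .nat MatT)).den → Prop) w, OC (.prod (.prod (.prod P16_T P16_B)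
        (.prod .nat MatT)) (.prod .nat MatT)) .nat V (fun p => p.1.2.1) w :=
      fun V w => OC.fst (OC.snd (OC.fst OC.id))
    have hX : ∀ (V : (Ty.prod (.prod (.prod P16_T P16_B) (.prod .nat MatT))
        (.prod .nat MatT)).den → Prop) w, OC (.prod (.prod (.prod P16_T P16_B)
        (.prod .nat MatT)) (.prod .nat MatT)) .nat V
        (fun p => p.1.1.2.2 (p.1.1.1.2.1.2.1 p.1.2.1) p.2.1) w :=
      fun V w => OC.get (OC.get (OC.snd (OC.snd (OC.fst (OC.fst OC.id))))
        (OC.get (OC.fst (OC.snd (hM' V w))) (hE' V w))) (OC.fst (OC.snd OC.id))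
    exact P16_addoc (OC.snd (OC.snd OC.id))
      (OC.get (OC.fst (OC.snd (OC.snd (hM' _ _)))) (hE' _ _))
      (OC.get (OC.fst (OC.snd (OC.snd (hM' _ _)))) (hX _ _))
      (OC.mul (OC.get (OC.snd (OC.snd (OC.snd (hM' _ _)))) (hE' _ _))
        (OC.get (OC.snd (OC.snd (OC.snd (hM' _ _)))) (hX _ _)))
  · intro y hy
    simp only
    have h1 : ∑ j ∈ range y.1.2.1.1, ((if 0 < y.1.2.2.1 (y.1.2.1.2.1 j) then 0 else
        y.2.1 (y.1.2.1.2.1 j)) + 1) = P16_light y.1.2.1 y.1.2.2.1 + y.1.2.1.1 := by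
      rw [Finset.sum_add_distrib, Finset.sum_const, card_range, smul_eq_mul, mul_one]
      congr 1
      refine Finset.sum_congr rfl fun j _ => ?_
      have h2 : y.2.1 (y.1.2.1.2.1 j) = rowCnt y.1.2.1 (y.1.2.1.2.1 j) := by
        rw [hy]
        exact (P16_buck_spec y.1.2.1 y.1.2.1.1 _).1
      rw [h2]
    rw [h1]
    omega

theorem P16_U_val (y : (Ty.prod P16_T P16_B).den) (hy : y.2 = P16_buck y.1.2.1) (i l : ℕ) :
    P16_U y i l = ∑ e ∈ range y.1.2.1.1, if 0 < y.1.2.2.1 (y.1.2.1.2.1 e) then 0 else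
      ∑ e' ∈ range y.1.2.1.1, if y.1.2.1.2.1 e' = y.1.2.1.2.1 e then
        (if y.1.2.1.2.2.1 e = i ∧ y.1.2.1.2.2.1 e' = l then
          y.1.2.1.2.2.2 e * y.1.2.1.2.2.2 e' else 0) else 0 := by
  have key : ∀ m : ℕ, iterV (P16_ustep y) MatT.default m i l =
      ∑ e ∈ range m, if 0 < y.1.2.2.1 (y.1.2.1.2.1 e) then 0 else
      ∑ e' ∈ range y.1.2.1.1, if y.1.2.1.2.1 e' = y.1.2.1.2.1 e then
        (if y.1.2.1.2.2.1 e = i ∧ y.1.2.1.2.2.1 e' = l then
          y.1.2.1.2.2.2 e * y.1.2.1.2.2.2 e' else 0) else 0 := by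
    intro m
    induction m with
    | zero => rw [iterV_zero]; rfl
    | succ m ih =>
      rw [iterV_succ, Finset.sum_range_succ, ← ih]
      set G := iterV (P16_ustep y) MatT.default m
      unfold P16_ustep
      by_cases h1 : 0 < y.1.2.2.1 (y.1.2.1.2.1 m)
      · rw [if_pos h1, if_pos h1, add_zero]
      · rw [if_neg h1, if_neg h1, P16_iter_val]
        congr 1
        have h2 := (P16_buck_spec y.1.2.1 y.1.2.1.1 (y.1.2.1.2.1 m)).2 (fun e' =>
          if y.1.2.1.2.2.1 m = i ∧ y.1.2.1.2.2.1 e' = l then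
            y.1.2.1.2.2.2 m * y.1.2.1.2.2.2 e' else 0)
        rw [hy]
        exact h2
  exact key y.1.2.1.1

/-! ## the dense rows -/

/-- one step -/
noncomputable def P16_dstep (x : P16_T.den) (e : ℕ) (D : MatT.den) : MatT.den :=
  if 0 < x.2.2.1 (x.2.1.2.1 e) then
    P16_add D (x.2.2.2 (x.2.1.2.1 e)) (x.2.1.2.2.1 e) (x.2.1.2.2.2 e)
  else D

/-- the dense rows -/
noncomputable def P16_D (x : P16_T.den) : MatT.den := iterV (P16_dstep x) MatT.default x.2.1.1

theorem P16_ocD : OC P16_T MatT (fun _ => True) P16_D (fun x => x.2.1.1) := by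
  refine OC.iter0 (s := P16_T) (t := MatT) (N := fun x => x.2.1.1)
    (A := fun _ => MatT.default) (B := P16_dstep) (OC.fst (OC.fst (OC.snd OC.id))) (OC.dflt _)
    ?_ 1 (fun x _ => by omega)
  have hM : ∀ V : (Ty.prod P16_T (.prod .nat MatT)).den → Prop,
      OC (.prod P16_T (.prod .nat MatT)) CooT V (fun p => p.1.2.1) (fun _ => 0) :=
    fun V => OC.fst (OC.snd (OC.fst OC.id))
  have hE : ∀ V : (Ty.prod P16_T (.prod .nat MatT)).den → Prop,
      OC (.prod P16_T (.prod .nat MatT)) .nat V (fun p => p.2.1) (fun _ => 0) :=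
    fun V => OC.fst (OC.snd OC.id)
  have hr : ∀ V : (Ty.prod P16_T (.prod .nat MatT)).den → Prop,
      OC (.prod P16_T (.prod .nat MatT)) .nat V (fun p => p.1.2.1.2.1 p.2.1) (fun _ => 0) :=
    fun V => OC.get (OC.fst (OC.snd (hM V))) (hE V)
  exact OC.ifN (OC.nlit 0) (OC.get (OC.fst (OC.snd (OC.snd (OC.fst OC.id)))) (hr _))
    (P16_addoc (OC.snd (OC.snd OC.id)) (OC.get (OC.snd (OC.snd (OC.snd (OC.fst OC.id)))) (hr _))
      (OC.get (OC.fst (OC.snd (OC.snd (hM _)))) (hE _))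
      (OC.get (OC.snd (OC.snd (OC.snd (hM _)))) (hE _))) (OC.snd (OC.snd OC.id))

theorem P16_D_val (x : P16_T.den) (a i : ℕ) :
    P16_D x a i = ∑ e ∈ range x.2.1.1, if 0 < x.2.2.1 (x.2.1.2.1 e) ∧
      x.2.2.2 (x.2.1.2.1 e) = a ∧ x.2.1.2.2.1 e = i then x.2.1.2.2.2 e else 0 := by
  have key : ∀ m : ℕ, iterV (P16_dstep x) MatT.default m a i = ∑ e ∈ range m,
      if 0 < x.2.2.1 (x.2.1.2.1 e) ∧ x.2.2.2 (x.2.1.2.1 e) = a ∧ x.2.1.2.2.1 e = i then
        x.2.1.2.2.2 e else 0 := by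
    intro m
    induction m with
    | zero => rw [iterV_zero]; rfl
    | succ m ih =>
      rw [iterV_succ, Finset.sum_range_succ, ← ih]
      set D := iterV (P16_dstep x) MatT.default m
      unfold P16_dstep
      by_cases h1 : 0 < x.2.2.1 (x.2.1.2.1 m)
      · rw [if_pos h1, P16_add_val]
        congr 1
        by_cases h2 : x.2.2.2 (x.2.1.2.1 m) = a ∧ x.2.1.2.2.1 m = i
        · rw [if_pos h2, if_pos ⟨h1, h2⟩]
        · rw [if_neg h2, if_neg (fun h => h2 h.2)]
      · rw [if_neg h1, if_neg (fun h => h1 h.1), add_zero]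
  exact key x.2.1.1

/-! ## the Gram matrix -/

/-- sums over the rows -/
theorem P16_gram_split (n k : ℕ) (M : CooT.den) (hM : CooOK n k M) (F I : ℕ → ℕ) (h : ℕ)
    (hI : ∀ r < n, 0 < F r → I r < h)
    (hinj : ∀ r < n, ∀ r' < n, 0 < F r → 0 < F r' → I r = I r' → r = r') (i l : ℕ) :
    ∑ r ∈ range n, cooA M r i * cooA M r l =
      (∑ e ∈ range M.1, if 0 < F (M.2.1 e) then 0 else
        ∑ e' ∈ range M.1, if M.2.1 e' = M.2.1 e then
          (if M.2.2.1 e = i ∧ M.2.2.1 e' = l then M.2.2.2 e * M.2.2.2 e' else 0) else 0) +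
      ∑ a ∈ range h, (∑ e ∈ range M.1, if 0 < F (M.2.1 e) ∧ I (M.2.1 e) = a ∧ M.2.2.1 e = i then
        M.2.2.2 e else 0) * (∑ e ∈ range M.1, if 0 < F (M.2.1 e) ∧ I (M.2.1 e) = a ∧
          M.2.2.1 e = l then M.2.2.2 e else 0) := by
  have h1 : ∑ r ∈ range n, cooA M r i * cooA M r l =
      ∑ r ∈ (range n).filter (fun r => ¬ 0 < F r), cooA M r i * cooA M r l +
      ∑ r ∈ (range n).filter (fun r => 0 < F r), cooA M r i * cooA M r l := by
    rw [add_comm, Finset.sum_filter_add_sum_filter_not]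
  rw [h1]
  congr 1
  · -- light rows
    have h2 : ∀ r ∈ (range n).filter (fun r => ¬ 0 < F r), cooA M r i * cooA M r l =
        ∑ e ∈ range M.1, if M.2.1 e = r then (if 0 < F (M.2.1 e) then 0 else
        ∑ e' ∈ range M.1, if M.2.1 e' = M.2.1 e then
          (if M.2.2.1 e = i ∧ M.2.2.1 e' = l then M.2.2.2 e * M.2.2.2 e' else 0) else 0)
          else 0 := by
      intro r hr
      have hF : ¬ 0 < F r := (Finset.mem_filter.1 hr).2
      unfold cooA
      rw [Finset.sum_mul]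
      refine Finset.sum_congr rfl fun e _ => ?_
      by_cases he : M.2.1 e = r
      · rw [if_pos he, he, if_neg hF, Finset.mul_sum]
        refine Finset.sum_congr rfl fun e' _ => ?_
        by_cases h3 : M.2.2.1 e = i <;> by_cases h4 : M.2.1 e' = r <;>
          by_cases h5 : M.2.2.1 e' = l <;> simp [h3, h4, h5]
      · rw [if_neg (fun h => he h.1), if_neg he, zero_mul]
    rw [Finset.sum_congr rfl h2, Finset.sum_comm]
    refine Finset.sum_congr rfl fun e he => ?_
    have hrow : M.2.1 e < n := (hM e (Finset.mem_range.1 he)).1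
    rw [Finset.sum_ite_eq]
    by_cases hF : 0 < F (M.2.1 e)
    · rw [if_pos hF, if_neg]
      exact fun h => (Finset.mem_filter.1 h).2 hF
    · rw [if_neg hF, if_pos (Finset.mem_filter.2 ⟨Finset.mem_range.2 hrow, hF⟩)]
  · -- heavy rows
    have h2 : ∀ (r : ℕ) (j : ℕ), r ∈ (range n).filter (fun r => 0 < F r) →
        (∑ e ∈ range M.1, if 0 < F (M.2.1 e) ∧ I (M.2.1 e) = I r ∧ M.2.2.1 e = j then
          M.2.2.2 e else 0) = cooA M r j := by
      intro r j hr
      have hr1 := Finset.mem_range.1 (Finset.mem_filter.1 hr).1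
      have hr2 := (Finset.mem_filter.1 hr).2
      unfold cooA
      refine Finset.sum_congr rfl fun e he => ?_
      have hrow : M.2.1 e < n := (hM e (Finset.mem_range.1 he)).1
      by_cases h3 : M.2.1 e = r
      · subst h3
        by_cases h4 : M.2.2.1 e = j
        · rw [if_pos ⟨hr2, rfl, h4⟩, if_pos ⟨rfl, h4⟩]
        · rw [if_neg (fun h => h4 h.2.2), if_neg (fun h => h4 h.2)]
      · rw [if_neg (fun h => h3 (hinj _ hrow _ hr1 h.1 hr2 h.2.1)), if_neg (fun h => h3 h.1)]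
    have h3 : ∑ r ∈ (range n).filter (fun r => 0 < F r), cooA M r i * cooA M r l =
        ∑ a ∈ ((range n).filter (fun r => 0 < F r)).image I,
        (∑ e ∈ range M.1, if 0 < F (M.2.1 e) ∧ I (M.2.1 e) = a ∧ M.2.2.1 e = i then
        M.2.2.2 e else 0) * (∑ e ∈ range M.1, if 0 < F (M.2.1 e) ∧ I (M.2.1 e) = a ∧
          M.2.2.1 e = l then M.2.2.2 e else 0) := by
      rw [Finset.sum_image]
      · exact Finset.sum_congr rfl fun r hr => by rw [h2 r i hr, h2 r l hr]
      · intro r hr r' hr' hh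
        have hr := Finset.mem_filter.1 (Finset.mem_coe.1 hr)
        have hr' := Finset.mem_filter.1 (Finset.mem_coe.1 hr')
        exact hinj r (Finset.mem_range.1 hr.1) r' (Finset.mem_range.1 hr'.1) hr.2 hr'.2 hh
    rw [h3]
    refine Finset.sum_subset ?_ ?_
    · intro a ha
      obtain ⟨r, hr, rfl⟩ := Finset.mem_image.1 ha
      have hr := Finset.mem_filter.1 hr
      exact Finset.mem_range.2 (hI r (Finset.mem_range.1 hr.1) hr.2)
    · intro a _ ha
      have h4 : (∑ e ∈ range M.1, if 0 < F (M.2.1 e) ∧ I (M.2.1 e) = a ∧ M.2.2.1 e = i then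
        M.2.2.2 e else 0) = 0 := by
        refine Finset.sum_eq_zero fun e he => ?_
        have hrow : M.2.1 e < n := (hM e (Finset.mem_range.1 he)).1
        rw [if_neg]
        intro h
        exact ha (Finset.mem_image.2 ⟨M.2.1 e, Finset.mem_filter.2
          ⟨Finset.mem_range.2 hrow, h.1⟩, h.2.1⟩)
      rw [h4, zero_mul]

/-- the Gram matrix -/
noncomputable def P16_F (Fd : P14_TD.den → MatT.den) (x : P16_T.den) : MatT.den :=
  letV (P16_buck x.2.1) fun bk =>
    letV (P16_U (x, bk)) fun G =>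
      letV (P16_D x) fun D =>
        letV (Fd ((x.1.1.1, (x.1.2, x.1.1.1)),
          (tabV VecT x.1.1.1 fun i => tabV .real x.1.2 fun a => D a i, D))) fun P =>
          tabV VecT x.1.1.1 fun i => tabV .real x.1.1.1 fun l => G i l + P i l

theorem P16_F_val (Fd : P14_TD.den → MatT.den)
    (hFd : ∀ a b c X Y, toM a c (Fd ((a, (b, c)), (X, Y))) = toM a b X * toM b c Y)
    (k s h n : ℕ) (M : CooT.den) (hM : CooOK n k M) (F I : ℕ → ℕ)
    (hI : ∀ r < n, 0 < F r → I r < h)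
    (hinj : ∀ r < n, ∀ r' < n, 0 < F r → 0 < F r' → I r = I r' → r = r') :
    toM k k (P16_F Fd (((k, s), h), (M, (F, I)))) = (toM n k (cooA M))ᵀ * toM n k (cooA M) := by
  ext i l
  have e1 : P16_F Fd (((k, s), h), (M, (F, I))) =
      tabV VecT k fun i => tabV .real k fun l =>
        P16_U ((((k, s), h), (M, (F, I))), P16_buck M) i l +
        Fd ((k, (h, k)), (tabV VecT k fun i => tabV .real h fun a =>
          P16_D (((k, s), h), (M, (F, I))) a i, P16_D (((k, s), h), (M, (F, I))))) i l := rfl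
  have e2 : toM k k (P16_F Fd (((k, s), h), (M, (F, I)))) i l =
      P16_F Fd (((k, s), h), (M, (F, I))) i l := rfl
  rw [e2, e1, tabV_lt i.2, tabV_lt l.2, P16_U_val _ rfl]
  have e3 := congrFun (congrFun (hFd k h k (tabV VecT k fun i => tabV .real h fun a =>
    P16_D (((k, s), h), (M, (F, I))) a i) (P16_D (((k, s), h), (M, (F, I))))) i) l
  have e4 : Fd ((k, (h, k)), (tabV VecT k fun i => tabV .real h fun a =>
          P16_D (((k, s), h), (M, (F, I))) a i, P16_D (((k, s), h), (M, (F, I))))) i l =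
      ∑ a ∈ range h, P16_D (((k, s), h), (M, (F, I))) a i *
        P16_D (((k, s), h), (M, (F, I))) a l := by
    rw [Finset.sum_range]
    refine e3.trans ?_
    rw [Matrix.mul_apply]
    refine Finset.sum_congr rfl fun a _ => ?_
    simp only [toM]
    rw [tabV_lt i.2, tabV_lt a.2]
  rw [e4]
  have e5 : ((toM n k (cooA M))ᵀ * toM n k (cooA M)) i l =
      ∑ r ∈ range n, cooA M r i * cooA M r l := by
    rw [Matrix.mul_apply, Finset.sum_range]
    rfl
  rw [e5, P16_gram_split n k M hM F I h hI hinj i l]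
  simp only [P16_D_val]

theorem P16_F_oc (mm : ℕ → ℕ) (hmono : Monotone mm) (hsq : ∀ m, (m + 1) ^ 2 ≤ mm m)
    (Fd : P14_TD.den → MatT.den)
    (hFd : OC P14_TD MatT (fun _ => True) Fd (fun x => mm (max x.1.1 (max x.1.2.1 x.1.2.2)))) :
    OC P16_T MatT (fun x => x.1.1.1 ≤ 2 ^ x.1.1.2 ∧ x.1.2 ≤ 2 ^ x.1.1.2) (P16_F Fd)
      (fun x => mm (2 ^ x.1.1.2) + P16_light x.2.1 x.2.2.1 + x.2.1.1) := by
  have hX2 : ∀ a b m : ℕ, a ≤ m → b ≤ m → a * (b + 1) ≤ mm m := by
    intro a b m ha hb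
    have := hsq m
    nlinarith
  refine OC.let_ (w' := fun p => mm (2 ^ p.1.1.1.2) + P16_light p.1.2.1 p.1.2.2.1 + p.1.2.1.1)
    ((P14_cp (w := fun x : P16_T.den => mm (2 ^ x.1.1.2) + P16_light x.2.1 x.2.2.1 + x.2.1.1)
      (F := fun x : P16_T.den => x.2.1) P16_ocbuck (OC.fst (OC.snd OC.id)) fun x => by omega))
    ?_ 1 (fun x _ => by simp only; omega)
  refine OC.let_ (w' := fun p => mm (2 ^ p.1.1.1.1.2) + P16_light p.1.1.2.1 p.1.1.2.2.1 +
      p.1.1.2.1.1) (A := fun p : (Ty.prod P16_T P16_B).den => P16_U (p.1, p.2))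
    ((OC.comp (F := fun p : (Ty.prod P16_T P16_B).den => (p.1, p.2)) P16_ocU
      (OC.pair (OC.fst OC.id) (OC.snd OC.id)) (fun p hp => hp.2) 1
      fun p _ => by simp only; omega))
    ?_ 1 (fun x _ => by simp only; omega)
  refine OC.let_ (w' := fun p => mm (2 ^ p.1.1.1.1.1.2) + P16_light p.1.1.1.2.1 p.1.1.1.2.2.1 +
      p.1.1.1.2.1.1) (A := fun p : (Ty.prod (Ty.prod P16_T P16_B) MatT).den => P16_D p.1.1)
    (P14_cp (F := fun p : (Ty.prod (Ty.prod P16_T P16_B) MatT).den => p.1.1) P16_ocD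
      (OC.fst (OC.fst OC.id)) fun x => by omega)
    ?_ 1 (fun x _ => by simp only; omega)
  refine OC.let_ (w' := fun p => mm (2 ^ p.1.1.1.1.1.1.2) + P16_light p.1.1.1.1.2.1
      p.1.1.1.1.2.2.1 + p.1.1.1.1.2.1.1)
    (A := fun p : (Ty.prod (Ty.prod (Ty.prod P16_T P16_B) MatT) MatT).den =>
      Fd ((p.1.1.1.1.1.1, (p.1.1.1.1.2, p.1.1.1.1.1.1)),
          (tabV VecT p.1.1.1.1.1.1 fun i => tabV .real p.1.1.1.1.2 fun a => p.2 a i, p.2)))
    ?_ ?_ 1 (fun x _ => by simp only; omega)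
  · have hk : OC (.prod (.prod (.prod P16_T P16_B) MatT) MatT) .nat (fun _ => True)
        (fun p => p.1.1.1.1.1.1) (fun _ => 0) :=
      OC.fst (OC.fst (OC.fst (OC.fst (OC.fst (OC.fst OC.id)))))
    have hh : OC (.prod (.prod (.prod P16_T P16_B) MatT) MatT) .nat (fun _ => True)
        (fun p => p.1.1.1.1.2) (fun _ => 0) :=
      OC.snd (OC.fst (OC.fst (OC.fst (OC.fst OC.id))))
    refine OC.comp (F := fun p : (Ty.prod (Ty.prod (Ty.prod P16_T P16_B) MatT) MatT).den =>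
      ((p.1.1.1.1.1.1, (p.1.1.1.1.2, p.1.1.1.1.1.1)),
          (tabV VecT p.1.1.1.1.1.1 fun i => tabV .real p.1.1.1.1.2 fun a => p.2 a i, p.2))) hFd
      (OC.pair (OC.pair ?_ (OC.pair ?_ ?_)) (OC.pair ?_ (OC.snd OC.id)))
      (fun _ _ => trivial) 1 ?_
    · exact OC.fst (OC.fst (OC.fst (OC.fst (OC.fst (OC.fst OC.id)))))
    · exact OC.snd (OC.fst (OC.fst (OC.fst (OC.fst OC.id))))
    · exact OC.fst (OC.fst (OC.fst (OC.fst (OC.fst (OC.fst OC.id)))))
    · refine P14_tab2 (hk.weaken fun _ _ => trivial) (hh.weaken fun _ _ => trivial)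
        (OC.get (OC.get (OC.snd (OC.fst (OC.fst OC.id))) (OC.snd OC.id))
          (OC.snd (OC.fst OC.id))) 1 ?_
      rintro ⟨⟨⟨x, bk⟩, G⟩, D⟩ ⟨⟨⟨⟨h1, h2⟩, _⟩, _⟩, _⟩
      have := hX2 x.1.1.1 x.1.2 (2 ^ x.1.1.2) h1 h2
      simp only
      omega
    · rintro ⟨⟨⟨x, bk⟩, G⟩, D⟩ ⟨⟨⟨⟨h1, h2⟩, _⟩, _⟩, _⟩
      have : mm (max x.1.1.1 (max x.1.2 x.1.1.1)) ≤ mm (2 ^ x.1.1.2) :=
        hmono (max_le h1 (max_le h2 h1))
      simp only
      omega
  · have hk : OC (.prod (.prod (.prod (.prod P16_T P16_B) MatT) MatT) MatT) .nat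
        (fun _ => True) (fun p => p.1.1.1.1.1.1.1) (fun _ => 0) :=
      OC.fst (OC.fst (OC.fst (OC.fst (OC.fst (OC.fst (OC.fst OC.id))))))
    refine P14_tab2 (hk.weaken fun _ _ => trivial) (hk.weaken fun _ _ => trivial)
      (OC.add (OC.get (OC.get (OC.snd (OC.fst (OC.fst (OC.fst (OC.fst OC.id)))))
          (OC.snd (OC.fst OC.id))) (OC.snd OC.id))
        (OC.get (OC.get (OC.snd (OC.fst (OC.fst OC.id))) (OC.snd (OC.fst OC.id)))
          (OC.snd OC.id))) 1 ?_
    rintro ⟨⟨⟨⟨x, bk⟩, G⟩, D⟩, P⟩ ⟨⟨⟨⟨⟨h1, h2⟩, _⟩, _⟩, _⟩, _⟩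
    have := hX2 x.1.1.1 x.1.1.1 (2 ^ x.1.1.2) h1 h1
    simp only
    omega

section dense

variable (Mul : Tm MatT) (mm : ℕ → ℕ) (hMul : MulOK Mul mm)
  (hmono : Monotone mm) (hsq : ∀ m, (m + 1) ^ 2 ≤ mm m)

include hMul hmono hsq

/-- The Gram matrix `MᵀM` (`k × k`) of a list; input `(((k, s), h), (M, (F, I)))`: the rows with
flag `F r > 0` are numbered by `I r < h`; `k, h ≤ 2^s`. -/
theorem gramS_prog : ∃ G : P16_T.den → MatT.den,
    OC P16_T MatT (fun x => x.1.1.1 ≤ 2 ^ x.1.1.2 ∧ x.1.2 ≤ 2 ^ x.1.1.2) G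
      (fun x => mm (2 ^ x.1.1.2) + P16_light x.2.1 x.2.2.1 + x.2.1.1) ∧
    ∀ (k s h n : ℕ) (M : CooT.den) (F I : ℕ → ℕ), CooOK n k M → (∀ r < n, 0 < F r → I r < h) →
      (∀ r < n, ∀ r' < n, 0 < F r → 0 < F r' → I r = I r' → r = r') →
      toM k k (G (((k, s), h), (M, (F, I)))) = (toM n k (cooA M))ᵀ * toM n k (cooA M) := by
  obtain ⟨Fd, hFd, hFd2⟩ := dmul_prog Mul mm hMul hmono hsq
  exact ⟨P16_F Fd, P16_F_oc mm hmono hsq Fd hFd, fun k s h n M F I hM hI hinj =>
    P16_F_val Fd hFd2 k s h n M hM F I hI hinj⟩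

end dense

end A56
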