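import Pool.Agent.Lib_helper50.A56.B.P16
/-!
# MP_a55cb8: block P17a (helper50): the core of an operator
-/

open Matrix Finset

namespace A56

/-! ## counting -/

/-- `((rows, number of entries), initial counts)` -/
abbrev P17_C : Ty := .prod (.prod NArr .nat) NArr

/-- the counts of the entries of the rows -/
def P17_cnt (y : P17_C.den) : NArr.den :=
  iterV (fun e L => Function.update L (y.1.1 e) (L (y.1.1 e) + 1)) y.2 y.1.2

theorem P17_occnt : OC P17_C NArr (fun _ => True) P17_cnt (fun y => y.1.2) := by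
  refine OC.iter0 (s := P17_C) (t := NArr) (N := fun y => y.1.2) (A := fun y => y.2)
    (B := fun y e L => Function.update L (y.1.1 e) (L (y.1.1 e) + 1))
    (OC.snd (OC.fst OC.id)) (OC.snd OC.id) ?_ 1 (fun x _ => by omega)
  have hr : ∀ V : (Ty.prod P17_C (.prod .nat NArr)).den → Prop,
      OC (.prod P17_C (.prod .nat NArr)) .nat V (fun p => p.1.1.1 p.2.1) (fun _ => 0) :=
    fun V => OC.get (OC.fst (OC.fst (OC.fst OC.id))) (OC.fst (OC.snd OC.id))
  exact OC.upd (OC.snd (OC.snd OC.id)) (hr _)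
    (OC.nadd (OC.get (OC.snd (OC.snd OC.id)) (hr _)) (OC.nlit 1))

theorem P17_cnt_val (y : P17_C.den) (p : ℕ) :
    P17_cnt y p = y.2 p + ((range y.1.2).filter fun e => y.1.1 e = p).card := by
  have key : ∀ m, iterV (fun e L => Function.update L (y.1.1 e) (L (y.1.1 e) + 1)) y.2 m p =
      y.2 p + ((range m).filter fun e => y.1.1 e = p).card := by
    intro m
    induction m with
    | zero => rw [iterV_zero]; simp
    | succ m ih =>
      rw [iterV_succ, Finset.range_add_one, Finset.filter_insert]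
      by_cases h : y.1.1 m = p
      · rw [if_pos h, Finset.card_insert_of_notMem (by simp), ← add_assoc, ← ih, h,
          Function.update_self]
      · rw [if_neg h, ← ih, Function.update_of_ne (Ne.symm h)]
  exact key y.1.2

/-! ## flags -/

/-- `((h, s), t), (λ, (x, (fr, fc)))` -/
abbrev P17_I : Ty := .prod (.prod (.prod .nat .nat) .nat)
  (.prod .real (.prod OpT (.prod NArr NArr)))

/-- the rows with an entry in a light column -/
def P17_mark (y : P17_I.den) : NArr.den :=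
  iterV (fun e L => if 0 < y.2.2.2.2 (y.2.2.1.2.2.1.1.2.2.1 e) then L
    else Function.update L (y.2.2.1.2.2.1.1.2.1 e) 1) (Ty.arr .nat).default
    y.2.2.1.2.2.1.1.1

theorem P17_s4' (a b c d e f : ℕ) : a ≤ a + b + c + d + e + f := by omega
theorem P17_s5' (a b c d e f : ℕ) : b ≤ a + b + c + d + e + f := by omega
theorem P17_s4 (x : OpT.den) : x.1.1 ≤ opSize x := P17_s4' _ _ _ _ _ _
theorem P17_s5 (x : OpT.den) : x.1.2 ≤ opSize x := P17_s5' _ _ _ _ _ _

theorem P17_ocmark : OC P17_I NArr (fun _ => True) P17_mark (fun y => opSize y.2.2.1) := by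
  refine OC.iter0 (s := P17_I) (t := NArr) (N := fun y => y.2.2.1.2.2.1.1.1)
    (A := fun _ => (Ty.arr .nat).default)
    (B := fun y e L => if 0 < y.2.2.2.2 (y.2.2.1.2.2.1.1.2.2.1 e) then L
      else Function.update L (y.2.2.1.2.2.1.1.2.1 e) 1)
    (OC.fst (OC.fst (OC.fst (OC.snd (OC.snd (OC.fst (OC.snd (OC.snd OC.id))))))))
    (OC.dflt _) ?_ 1 (fun x _ => by unfold opSize; omega)
  have hA : ∀ V : (Ty.prod P17_I (.prod .nat NArr)).den → Prop,
      OC (.prod P17_I (.prod .nat NArr)) CooT V (fun p => p.1.2.2.1.2.2.1.1) (fun _ => 0) :=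
    fun V => OC.fst (OC.fst (OC.snd (OC.snd (OC.fst (OC.snd (OC.snd (OC.fst OC.id)))))))
  have hE : ∀ V : (Ty.prod P17_I (.prod .nat NArr)).den → Prop,
      OC (.prod P17_I (.prod .nat NArr)) .nat V (fun p => p.2.1) (fun _ => 0) :=
    fun V => OC.fst (OC.snd OC.id)
  exact OC.ifN (OC.nlit 0) (OC.get (OC.snd (OC.snd (OC.snd (OC.snd (OC.fst OC.id)))))
      (OC.get (OC.fst (OC.snd (OC.snd (hA _)))) (hE _))) (OC.snd (OC.snd OC.id))
    (OC.upd (OC.snd (OC.snd OC.id)) (OC.get (OC.fst (OC.snd (hA _))) (hE _)) (OC.nlit 1))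

theorem P17_mark_val (y : P17_I.den) (p : ℕ) : 0 < P17_mark y p ↔
    ∃ e < y.2.2.1.2.2.1.1.1, y.2.2.1.2.2.1.1.2.1 e = p ∧
      y.2.2.2.2 (y.2.2.1.2.2.1.1.2.2.1 e) = 0 := by
  have key : ∀ m, 0 < iterV (fun e L => if 0 < y.2.2.2.2 (y.2.2.1.2.2.1.1.2.2.1 e) then L
    else Function.update L (y.2.2.1.2.2.1.1.2.1 e) 1) (Ty.arr .nat).default m p ↔
      ∃ e < m, y.2.2.1.2.2.1.1.2.1 e = p ∧ y.2.2.2.2 (y.2.2.1.2.2.1.1.2.2.1 e) = 0 := by
    intro m
    induction m with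
    | zero => rw [iterV_zero]; simp [Ty.default]
    | succ m ih =>
      rw [iterV_succ]
      set L := iterV (fun e L => if 0 < y.2.2.2.2 (y.2.2.1.2.2.1.1.2.2.1 e) then L
        else Function.update L (y.2.2.1.2.2.1.1.2.1 e) 1) (Ty.arr .nat).default m
      by_cases h1 : 0 < y.2.2.2.2 (y.2.2.1.2.2.1.1.2.2.1 m)
      · rw [if_pos h1, ih]
        constructor
        · rintro ⟨e, he, h2⟩
          exact ⟨e, by omega, h2⟩
        · rintro ⟨e, he, h2, h3⟩
          refine ⟨e, ?_, h2, h3⟩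
          rcases Nat.lt_succ_iff_lt_or_eq.1 he with h4 | h4
          · exact h4
          · subst h4
            exact absurd h3 (Nat.pos_iff_ne_zero.1 h1)
      · rw [if_neg h1]
        by_cases h2 : y.2.2.1.2.2.1.1.2.1 m = p
        · rw [h2, Function.update_self]
          exact ⟨fun _ => ⟨m, by omega, h2, Nat.eq_zero_of_not_pos h1⟩, fun _ => Nat.one_pos⟩
        · rw [Function.update_of_ne (Ne.symm h2), ih]
          constructor
          · rintro ⟨e, he, h3⟩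
            exact ⟨e, by omega, h3⟩
          · rintro ⟨e, he, h3, h4⟩
            refine ⟨e, ?_, h3, h4⟩
            rcases Nat.lt_succ_iff_lt_or_eq.1 he with h5 | h5
            · exact h5
            · subst h5
              exact absurd h3 h2
  exact key _

/-- flags of the rows of the core -/
def P17_fR (y : P17_I.den) : NArr.den :=
  letV (P17_mark y) fun L =>
    letV (P17_cnt ((y.2.2.1.2.2.1.2.2.1, y.2.2.1.2.2.1.2.1),
      P17_cnt ((y.2.2.1.2.2.1.1.2.1, y.2.2.1.2.2.1.1.1), (Ty.arr .nat).default))) fun c =>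
      tabV .nat y.2.2.1.1.1 fun p => y.2.2.2.1 p + (L p + if y.1.2 < c p then 1 else 0)

/-- flags of the columns of the core -/
def P17_fC (y : P17_I.den) : NArr.den :=
  letV (P17_cnt ((y.2.2.1.2.2.2.1.2.2.1, y.2.2.1.2.2.2.1.1),
      P17_cnt ((y.2.2.1.2.2.1.1.2.2.1, y.2.2.1.2.2.1.1.1), (Ty.arr .nat).default))) fun c =>
    tabV .nat y.2.2.1.1.2 fun r => y.2.2.2.2 r + if y.1.2 < c r then 1 else 0

theorem P17_ar1 (a b c t : ℕ) : 0 < a + (b + if t < c then 1 else 0) ↔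
    a ≠ 0 ∨ 0 < b ∨ t < c := by split_ifs <;> omega

theorem P17_ar2 (a c t : ℕ) : 0 < a + (if t < c then 1 else 0) ↔ a ≠ 0 ∨ t < c := by
  split_ifs <;> omega

theorem P17_fR_iff (y : P17_I.den) (p : ℕ) : 0 < P17_fR y p ↔
    p < opR y.2.2.1 ∧ coreRow y.2.2.1 y.2.2.2.1 y.2.2.2.2 y.1.2 p := by
  have h1 := P17_mark_val y p
  unfold P17_fR
  rw [letV_eq, letV_eq]
  by_cases hp : p < y.2.2.1.1.1
  · rw [tabV_lt hp]
    refine (P17_ar1 _ _ _ _).trans ?_
    rw [h1]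
    simp only [P17_cnt_val]
    unfold coreRow rowCnt opR
    simp only [Ty.default, zero_add]
    exact ⟨fun h => ⟨hp, h⟩, fun h => h.2⟩
  · rw [tabV_ge (not_lt.1 hp)]
    constructor
    · intro h
      exact absurd h (by simp [Ty.default])
    · intro h
      exact absurd h.1 hp

theorem P17_fC_iff (y : P17_I.den) (r : ℕ) : 0 < P17_fC y r ↔
    r < opC y.2.2.1 ∧ coreCol y.2.2.1 y.2.2.2.2 y.1.2 r := by
  unfold P17_fC
  rw [letV_eq]
  by_cases hr : r < y.2.2.1.1.2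
  · rw [tabV_lt hr]
    refine (P17_ar2 _ _ _).trans ?_
    simp only [P17_cnt_val]
    unfold coreCol colCnt opC
    simp only [Ty.default, zero_add]
    exact ⟨fun h => ⟨hr, h⟩, fun h => h.2⟩
  · rw [tabV_ge (not_lt.1 hr)]
    constructor
    · intro h
      exact absurd h (by simp [Ty.default])
    · intro h
      exact absurd h.1 hr

theorem P17_ocfR : OC P17_I NArr (fun _ => True) P17_fR (fun y => opSize y.2.2.1) := by
  refine OC.let_ (w' := fun p => opSize p.1.2.2.1) P17_ocmark ?_ 1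
    (fun x _ => by simp only; omega)
  have hL : ∀ {x : OpT.den}, x.2.2.1.1.1 ≤ opSize x := fun {x} => P14_s1 x
  have hL2 : ∀ {x : OpT.den}, x.2.2.1.2.1 ≤ opSize x := fun {x} => P14_s3 x
  refine OC.let_ (w' := fun p => opSize p.1.1.2.2.1)
    (A := fun p : (Ty.prod P17_I NArr).den => P17_cnt ((p.1.2.2.1.2.2.1.2.2.1,
      p.1.2.2.1.2.2.1.2.1), P17_cnt ((p.1.2.2.1.2.2.1.1.2.1, p.1.2.2.1.2.2.1.1.1),
      (Ty.arr .nat).default))) ?_ ?_ 1 (fun x _ => by simp only; omega)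
  · have hA : ∀ (V : (Ty.prod P17_I NArr).den → Prop) w,
        OC (.prod P17_I NArr) CooT V (fun p => p.1.2.2.1.2.2.1.1) w :=
      fun V w => OC.fst (OC.fst (OC.snd (OC.snd (OC.fst (OC.snd (OC.snd (OC.fst OC.id)))))))
    have hU : ∀ (V : (Ty.prod P17_I NArr).den → Prop) w,
        OC (.prod P17_I NArr) CooT V (fun p => p.1.2.2.1.2.2.1.2) w :=
      fun V w => OC.snd (OC.fst (OC.snd (OC.snd (OC.fst (OC.snd (OC.snd (OC.fst OC.id)))))))
    refine P14_cp (F := fun p : (Ty.prod P17_I NArr).den => ((p.1.2.2.1.2.2.1.2.2.1,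
      p.1.2.2.1.2.2.1.2.1), P17_cnt ((p.1.2.2.1.2.2.1.1.2.1, p.1.2.2.1.2.2.1.1.1),
      (Ty.arr .nat).default))) P17_occnt (OC.pair (OC.pair (OC.fst (OC.snd (hU _ _)))
        (OC.fst (hU _ _))) ?_) fun p => hL2
    exact P14_cp (F := fun p : (Ty.prod P17_I NArr).den => ((p.1.2.2.1.2.2.1.1.2.1,
      p.1.2.2.1.2.2.1.1.1), (Ty.arr .nat).default)) P17_occnt (OC.pair (OC.pair
        (OC.fst (OC.snd (hA _ _))) (OC.fst (hA _ _))) (OC.dflt _)) fun p => hL
  · refine OC.tab0 (s := .prod (.prod P17_I NArr) NArr) (t := .nat)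
      (N := fun p => p.1.1.2.2.1.1.1)
      (F := fun p j => p.1.1.2.2.2.1 j + (p.1.2 j + if p.1.1.1.2 < p.2 j then 1 else 0))
      (OC.fst (OC.fst (OC.fst (OC.snd (OC.snd (OC.fst (OC.fst OC.id))))))) ?_ 1
      (fun p _ => by rw [one_mul]; exact (P17_s4 _).trans (Nat.le_succ _))
    exact OC.nadd (OC.get (OC.fst (OC.snd (OC.snd (OC.snd (OC.fst (OC.fst (OC.fst OC.id)))))))
      (OC.snd OC.id)) (OC.nadd (OC.get (OC.snd (OC.fst (OC.fst OC.id))) (OC.snd OC.id))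
      (OC.ifN (OC.snd (OC.fst (OC.fst (OC.fst (OC.fst OC.id)))))
        (OC.get (OC.snd (OC.fst OC.id)) (OC.snd OC.id)) (OC.nlit 1) (OC.nlit 0)))

theorem P17_ocfC : OC P17_I NArr (fun _ => True) P17_fC (fun y => opSize y.2.2.1) := by
  have hL : ∀ {x : OpT.den}, x.2.2.1.1.1 ≤ opSize x := fun {x} => P14_s1 x
  have hL2 : ∀ {x : OpT.den}, x.2.2.2.1.1 ≤ opSize x := fun {x} => P14_s2 x
  refine OC.let_ (w' := fun p => opSize p.1.2.2.1)
    (A := fun p : P17_I.den => P17_cnt ((p.2.2.1.2.2.2.1.2.2.1,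
      p.2.2.1.2.2.2.1.1), P17_cnt ((p.2.2.1.2.2.1.1.2.2.1, p.2.2.1.2.2.1.1.1),
      (Ty.arr .nat).default))) ?_ ?_ 1 (fun x _ => by simp only; omega)
  · have hA : ∀ (V : P17_I.den → Prop) w,
        OC P17_I CooT V (fun p => p.2.2.1.2.2.1.1) w :=
      fun V w => OC.fst (OC.fst (OC.snd (OC.snd (OC.fst (OC.snd (OC.snd OC.id))))))
    have hV : ∀ (V : P17_I.den → Prop) w,
        OC P17_I CooT V (fun p => p.2.2.1.2.2.2.1) w :=
      fun V w => OC.fst (OC.snd (OC.snd (OC.snd (OC.fst (OC.snd (OC.snd OC.id))))))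
    refine P14_cp (F := fun p : P17_I.den => ((p.2.2.1.2.2.2.1.2.2.1,
      p.2.2.1.2.2.2.1.1), P17_cnt ((p.2.2.1.2.2.1.1.2.2.1, p.2.2.1.2.2.1.1.1),
      (Ty.arr .nat).default))) P17_occnt (OC.pair (OC.pair (OC.fst (OC.snd (OC.snd (hV _ _))))
        (OC.fst (hV _ _))) ?_) fun p => hL2
    exact P14_cp (F := fun p : P17_I.den => ((p.2.2.1.2.2.1.1.2.2.1,
      p.2.2.1.2.2.1.1.1), (Ty.arr .nat).default)) P17_occnt (OC.pair (OC.pair
        (OC.fst (OC.snd (OC.snd (hA _ _)))) (OC.fst (hA _ _))) (OC.dflt _)) fun p => hL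
  · refine OC.tab0 (s := .prod P17_I NArr) (t := .nat)
      (N := fun p => p.1.2.2.1.1.2)
      (F := fun p j => p.1.2.2.2.2 j + if p.1.1.2 < p.2 j then 1 else 0)
      (OC.snd (OC.fst (OC.fst (OC.snd (OC.snd (OC.fst OC.id)))))) ?_ 1
      (fun p _ => by rw [one_mul]; exact (P17_s5 _).trans (Nat.le_succ _))
    exact OC.nadd (OC.get (OC.snd (OC.snd (OC.snd (OC.snd (OC.fst (OC.fst OC.id))))))
      (OC.snd OC.id))
      (OC.ifN (OC.snd (OC.fst (OC.fst (OC.fst OC.id))))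
        (OC.get (OC.snd (OC.fst OC.id)) (OC.snd OC.id)) (OC.nlit 1) (OC.nlit 0))

/-- counts of light rows of the core flags -/
theorem P17_rowCnt_le (y : P17_I.den) (p : ℕ) (hp : p < opR y.2.2.1) (h : ¬ 0 < P17_fR y p) :
    rowCnt y.2.2.1.2.2.1.1 p + rowCnt y.2.2.1.2.2.1.2 p ≤ y.1.2 ∧ y.2.2.2.1 p = 0 ∧
      ∀ e < y.2.2.1.2.2.1.1.1, y.2.2.1.2.2.1.1.2.1 e = p →
        y.2.2.2.2 (y.2.2.1.2.2.1.1.2.2.1 e) ≠ 0 := by
  rw [P17_fR_iff] at h
  have h1 : ¬ coreRow y.2.2.1 y.2.2.2.1 y.2.2.2.2 y.1.2 p := fun h' => h ⟨hp, h'⟩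
  unfold coreRow at h1
  push Not at h1
  exact ⟨h1.2.2, h1.1, fun e he h2 => h1.2.1 e he h2⟩

theorem P17_colCnt_le (y : P17_I.den) (r : ℕ) (hr : r < opC y.2.2.1) (h : ¬ 0 < P17_fC y r) :
    colCnt y.2.2.1.2.2.1.1 r + colCnt y.2.2.1.2.2.2.1 r ≤ y.1.2 ∧ y.2.2.2.2 r = 0 := by
  rw [P17_fC_iff] at h
  have h1 : ¬ coreCol y.2.2.1 y.2.2.2.2 y.1.2 r := fun h' => h ⟨hr, h'⟩
  unfold coreCol at h1
  push Not at h1
  exact ⟨h1.2, h1.1⟩

end A56
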