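import Pool.Agent.Lib_helper50.A56.B.P17a
/-!
# MP_a55cb8: block P17b (helper50): the factors `X`, `Y` of an operator
-/

open Matrix Finset

namespace A56

/-! ## concatenation -/

/-- concatenation of two lists -/
def P17_cat (y : (Ty.prod CooT CooT).den) : CooT.den :=
  (y.1.1 + y.2.1,
    (tabV .nat (y.1.1 + y.2.1) fun z => if z < y.1.1 then y.1.2.1 z else y.2.2.1 (z - y.1.1),
    (tabV .nat (y.1.1 + y.2.1) fun z => if z < y.1.1 then y.1.2.2.1 z else y.2.2.2.1 (z - y.1.1),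
      tabV .real (y.1.1 + y.2.1) fun z =>
        if z < y.1.1 then y.1.2.2.2 z else y.2.2.2.2 (z - y.1.1))))

theorem P17_occat : OC (.prod CooT CooT) CooT (fun _ => True) P17_cat
    (fun y => y.1.1 + y.2.1) := by
  have hn : ∀ (V : (Ty.prod CooT CooT).den → Prop) w,
      OC (.prod CooT CooT) .nat V (fun y => y.1.1 + y.2.1) w :=
    fun V w => OC.nadd (OC.fst (OC.fst OC.id)) (OC.fst (OC.snd OC.id))
  have h1 : ∀ (V : (Ty.prod (.prod CooT CooT) .nat).den → Prop) w,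
      OC (.prod (.prod CooT CooT) .nat) .nat V (fun y => y.1.1.1) w :=
    fun V w => OC.fst (OC.fst (OC.fst OC.id))
  have h2 : ∀ (V : (Ty.prod (.prod CooT CooT) .nat).den → Prop) w,
      OC (.prod (.prod CooT CooT) .nat) .nat V (fun y => y.2) w :=
    fun V w => OC.snd OC.id
  refine OC.pair (hn _ _) (OC.pair ?_ (OC.pair ?_ ?_))
  · exact OC.tab0 (s := .prod CooT CooT) (t := .nat) (hn _ _) (OC.ifN (h2 _ _) (h1 _ _)
      (OC.get (OC.fst (OC.snd (OC.fst (OC.fst OC.id)))) (h2 _ _))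
      (OC.get (OC.fst (OC.snd (OC.snd (OC.fst OC.id)))) (OC.nsub (h2 _ _) (h1 _ _)))) 1
      (fun _ _ => by omega)
  · exact OC.tab0 (s := .prod CooT CooT) (t := .nat) (hn _ _) (OC.ifN (h2 _ _) (h1 _ _)
      (OC.get (OC.fst (OC.snd (OC.snd (OC.fst (OC.fst OC.id))))) (h2 _ _))
      (OC.get (OC.fst (OC.snd (OC.snd (OC.snd (OC.fst OC.id))))) (OC.nsub (h2 _ _) (h1 _ _)))) 1
      (fun _ _ => by omega)
  · exact OC.tab0 (s := .prod CooT CooT) (t := .real) (hn _ _) (OC.ifN (h2 _ _) (h1 _ _)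
      (OC.get (OC.snd (OC.snd (OC.snd (OC.fst (OC.fst OC.id))))) (h2 _ _))
      (OC.get (OC.snd (OC.snd (OC.snd (OC.snd (OC.fst OC.id))))) (OC.nsub (h2 _ _) (h1 _ _)))) 1
      (fun _ _ => by omega)

theorem P17_ar3 {a b e : ℕ} (h : e < b) : a + e < a + b ∧ ¬ a + e < a := by omega
theorem P17_ar4 {a b e : ℕ} (h : e < a + b) (h' : ¬ e < a) : e - a < b := by omega

theorem P17_cat_sum {α : Type} [AddCommMonoid α] (y : (Ty.prod CooT CooT).den)
    (f : ℕ → ℕ → ℝ → α) :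
    ∑ e ∈ range (P17_cat y).1, f ((P17_cat y).2.1 e) ((P17_cat y).2.2.1 e)
        ((P17_cat y).2.2.2 e) =
      ∑ e ∈ range y.1.1, f (y.1.2.1 e) (y.1.2.2.1 e) (y.1.2.2.2 e) +
      ∑ e ∈ range y.2.1, f (y.2.2.1 e) (y.2.2.2.1 e) (y.2.2.2.2 e) := by
  have h0 : (P17_cat y).1 = y.1.1 + y.2.1 := rfl
  rw [h0, Finset.sum_range_add]
  congr 1
  · refine Finset.sum_congr rfl fun e he => ?_
    have he := Finset.mem_range.1 he
    have he2 : e < y.1.1 + y.2.1 := by omega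
    simp only [P17_cat]
    rw [tabV_lt he2, tabV_lt he2, tabV_lt he2, if_pos he, if_pos he, if_pos he]
  · refine Finset.sum_congr rfl fun e he => ?_
    have he := Finset.mem_range.1 he
    have he2 : y.1.1 + e < y.1.1 + y.2.1 := (P17_ar3 he).1
    have he3 : ¬ y.1.1 + e < y.1.1 := (P17_ar3 (b := y.2.1) he).2
    simp only [P17_cat]
    rw [tabV_lt he2, tabV_lt he2, tabV_lt he2, if_neg he3, if_neg he3, if_neg he3,
      Nat.add_sub_cancel_left]

theorem P17_cat_all (y : (Ty.prod CooT CooT).den) (Q : ℕ → ℕ → Prop)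
    (h1 : ∀ e < y.1.1, Q (y.1.2.1 e) (y.1.2.2.1 e))
    (h2 : ∀ e < y.2.1, Q (y.2.2.1 e) (y.2.2.2.1 e)) :
    ∀ e < (P17_cat y).1, Q ((P17_cat y).2.1 e) ((P17_cat y).2.2.1 e) := by
  intro e he
  have he : e < y.1.1 + y.2.1 := he
  simp only [P17_cat]
  rw [tabV_lt he, tabV_lt he]
  by_cases h : e < y.1.1
  · rw [if_pos h, if_pos h]
    exact h1 e h
  · rw [if_neg h, if_neg h]
    exact h2 _ (P17_ar4 he h)

theorem P17_cat_A (y : (Ty.prod CooT CooT).den) (i j : ℕ) :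
    cooA (P17_cat y) i j = cooA y.1 i j + cooA y.2 i j :=
  P17_cat_sum y fun r c v => if r = i ∧ c = j then v else 0

theorem P17_rowCnt (x : CooT.den) (p : ℕ) :
    rowCnt x p = ∑ e ∈ range x.1, if x.2.1 e = p then 1 else 0 := by
  unfold rowCnt
  rw [Finset.card_filter]

theorem P17_cat_row (y : (Ty.prod CooT CooT).den) (p : ℕ) :
    rowCnt (P17_cat y) p = rowCnt y.1 p + rowCnt y.2 p := by
  rw [P17_rowCnt, P17_rowCnt, P17_rowCnt]
  exact P17_cat_sum y fun r _ _ => if r = p then 1 else 0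

/-- light entries -/
def P17_lt (x : CooT.den) (F : ℕ → ℕ) : ℕ := ((range x.1).filter fun e => ¬ 0 < F (x.2.1 e)).card

theorem P17_lt_sum (x : CooT.den) (F : ℕ → ℕ) :
    P17_lt x F = ∑ e ∈ range x.1, if ¬ 0 < F (x.2.1 e) then 1 else 0 := by
  unfold P17_lt
  rw [Finset.card_filter]

theorem P17_cat_lt (y : (Ty.prod CooT CooT).den) (F : ℕ → ℕ) :
    P17_lt (P17_cat y) F = P17_lt y.1 F + P17_lt y.2 F := by
  rw [P17_lt_sum, P17_lt_sum, P17_lt_sum]
  exact P17_cat_sum y fun r _ _ => if ¬ 0 < F r then 1 else 0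

theorem P17_light_le (x : CooT.den) (F : ℕ → ℕ) (n T : ℕ) (h0 : ∀ e < x.1, x.2.1 e < n)
    (h : ∀ r < n, ¬ 0 < F r → rowCnt x r ≤ T) : P16_light x F ≤ T * P17_lt x F := by
  unfold P16_light
  rw [P17_lt_sum, Finset.mul_sum]
  refine Finset.sum_le_sum fun e he => ?_
  by_cases hF : 0 < F (x.2.1 e)
  · rw [if_pos hF]
    exact Nat.zero_le _
  · rw [if_neg hF, if_pos hF, mul_one]
    exact h _ (h0 e (Finset.mem_range.1 he)) hF

/-! ## the pieces -/

/-- diagonal list; input `((n, off), (fl, pos))` -/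
noncomputable def P17_dg (y : (Ty.prod (.prod .nat .nat) (.prod NArr NArr)).den) : CooT.den :=
  (y.1.1, (tabV .nat y.1.1 fun p => p,
    (tabV .nat y.1.1 fun p => if 0 < y.2.1 p then y.1.2 + y.2.2 p else 0,
      tabV .real y.1.1 fun p => if 0 < y.2.1 p then 1 else 0)))

theorem P17_ocdg : OC (.prod (.prod .nat .nat) (.prod NArr NArr)) CooT (fun _ => True) P17_dg
    (fun y => y.1.1) := by
  have hn : ∀ (V : (Ty.prod (.prod .nat .nat) (.prod NArr NArr)).den → Prop) w,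
      OC (.prod (.prod .nat .nat) (.prod NArr NArr)) .nat V (fun y => y.1.1) w :=
    fun V w => OC.fst (OC.fst OC.id)
  refine OC.pair (hn _ _) (OC.pair ?_ (OC.pair ?_ ?_))
  · exact OC.tab0 (s := .prod (.prod .nat .nat) (.prod NArr NArr)) (t := .nat)
      (F := fun _ p => p) (hn _ _) (OC.snd OC.id) 1 (fun _ _ => by omega)
  · exact OC.tab0 (s := .prod (.prod .nat .nat) (.prod NArr NArr)) (t := .nat)
      (F := fun y p => if 0 < y.2.1 p then y.1.2 + y.2.2 p else 0) (hn _ _)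
      (OC.ifN (OC.nlit 0) (OC.get (OC.fst (OC.snd (OC.fst OC.id))) (OC.snd OC.id))
        (OC.nadd (OC.snd (OC.fst (OC.fst OC.id)))
          (OC.get (OC.snd (OC.snd (OC.fst OC.id))) (OC.snd OC.id))) (OC.nlit 0)) 1
      (fun _ _ => by omega)
  · exact OC.tab0 (s := .prod (.prod .nat .nat) (.prod NArr NArr)) (t := .real)
      (F := fun y p => if 0 < y.2.1 p then (1 : ℝ) else 0) (hn _ _)
      (OC.ifN (OC.nlit 0) (OC.get (OC.fst (OC.snd (OC.fst OC.id))) (OC.snd OC.id))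
        OC.r1 OC.r0) 1 (fun _ _ => by omega)

theorem P17_dg_A (n off : ℕ) (fl pos : ℕ → ℕ) (i j : ℕ) (hi : i < n) :
    cooA (P17_dg ((n, off), (fl, pos))) i j = if 0 < fl i ∧ off + pos i = j then 1 else 0 := by
  have h1 : cooA (P17_dg ((n, off), (fl, pos))) i j = ∑ e ∈ range n,
      if e = i ∧ (if 0 < fl e then off + pos e else 0) = j then
        (if 0 < fl e then (1 : ℝ) else 0) else 0 := by
    unfold cooA
    refine Finset.sum_congr rfl fun e he => ?_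
    have he : e < n := Finset.mem_range.1 he
    simp only [P17_dg]
    rw [tabV_lt he, tabV_lt he, tabV_lt he]
  rw [h1, Finset.sum_eq_single i]
  · by_cases h2 : 0 < fl i
    · simp [h2]
    · simp [h2]
  · intro e _ he
    rw [if_neg (fun h => he h.1)]
  · intro h
    exact absurd (Finset.mem_range.2 hi) h

theorem P17_dg_row (n off : ℕ) (fl pos : ℕ → ℕ) (i : ℕ) :
    rowCnt (P17_dg ((n, off), (fl, pos))) i ≤ 1 := by
  unfold rowCnt
  rw [Finset.card_le_one]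
  intro a ha b hb
  have h1 := Finset.mem_filter.1 ha
  have h2 := Finset.mem_filter.1 hb
  have ha' : a < n := Finset.mem_range.1 h1.1
  have hb' : b < n := Finset.mem_range.1 h2.1
  have h3 : tabV .nat n (fun p => p) a = i := h1.2
  have h4 : tabV .nat n (fun p => p) b = i := h2.2
  rw [tabV_lt ha'] at h3
  rw [tabV_lt hb'] at h4
  rw [h3, h4]

theorem P17_dg_lt (n off : ℕ) (fl pos F : ℕ → ℕ) :
    P17_lt (P17_dg ((n, off), (fl, pos))) F ≤ n := by
  unfold P17_lt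
  exact (Finset.card_filter_le _ _).trans (by rw [card_range]; exact le_rfl)

theorem P17_dg_all (n off : ℕ) (fl pos : ℕ → ℕ) (Q : ℕ → ℕ → Prop)
    (h : ∀ p < n, (0 < fl p → Q p (off + pos p)) ∧ (¬ 0 < fl p → Q p 0)) :
    ∀ e < (P17_dg ((n, off), (fl, pos))).1, Q ((P17_dg ((n, off), (fl, pos))).2.1 e)
      ((P17_dg ((n, off), (fl, pos))).2.2.1 e) := by
  intro e he
  have he : e < n := he
  simp only [P17_dg]
  rw [tabV_lt he, tabV_lt he]
  by_cases h2 : 0 < fl e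
  · rw [if_pos h2]; exact (h e he).1 h2
  · rw [if_neg h2]; exact (h e he).2 h2

/-- shifted list; input `(off, M)` -/
def P17_sh (y : (Ty.prod .nat CooT).den) : CooT.den :=
  (y.2.1, (y.2.2.1, (tabV .nat y.2.1 fun e => y.1 + y.2.2.2.1 e, y.2.2.2.2)))

theorem P17_ocsh : OC (.prod .nat CooT) CooT (fun _ => True) P17_sh (fun y => y.2.1) := by
  refine OC.pair (OC.fst (OC.snd OC.id)) (OC.pair (OC.fst (OC.snd (OC.snd OC.id))) (OC.pair ?_
    (OC.snd (OC.snd (OC.snd (OC.snd OC.id))))))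
  exact OC.tab0 (s := .prod .nat CooT) (t := .nat)
    (F := fun y e => y.1 + y.2.2.2.1 e) (OC.fst (OC.snd OC.id))
    (OC.nadd (OC.fst (OC.fst OC.id)) (OC.get (OC.fst (OC.snd (OC.snd (OC.snd (OC.fst OC.id)))))
      (OC.snd OC.id))) 1 (fun _ _ => by omega)

theorem P17_sh_A (off : ℕ) (M : CooT.den) (i j : ℕ) :
    cooA (P17_sh (off, M)) i j = ∑ e ∈ range M.1,
      if M.2.1 e = i ∧ off + M.2.2.1 e = j then M.2.2.2 e else 0 := by
  unfold cooA
  refine Finset.sum_congr rfl fun e he => ?_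
  have he : e < M.1 := Finset.mem_range.1 he
  simp only [P17_sh]
  rw [tabV_lt he]

theorem P17_sh_row (off : ℕ) (M : CooT.den) (i : ℕ) :
    rowCnt (P17_sh (off, M)) i = rowCnt M i := rfl

theorem P17_sh_lt (off : ℕ) (M : CooT.den) (F : ℕ → ℕ) :
    P17_lt (P17_sh (off, M)) F = P17_lt M F := rfl

/-- the part of the light rows in the core columns; input `((fR, pC), (h, A))` -/
noncomputable def P17_x2 (y : (Ty.prod (.prod NArr NArr) (.prod .nat CooT)).den) : CooT.den :=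
  (y.2.2.1, (y.2.2.2.1,
    (tabV .nat y.2.2.1 fun e => if 0 < y.1.1 (y.2.2.2.1 e) then 0
        else y.2.1 + y.1.2 (y.2.2.2.2.1 e),
      tabV .real y.2.2.1 fun e => if 0 < y.1.1 (y.2.2.2.1 e) then 0 else y.2.2.2.2.2 e)))

/-- the part of the core rows; input `((fR, pR), A)` -/
noncomputable def P17_y1 (y : (Ty.prod (.prod NArr NArr) CooT).den) : CooT.den :=
  (y.2.1, (y.2.2.2.1,
    (tabV .nat y.2.1 fun e => if 0 < y.1.1 (y.2.2.1 e) then y.1.2 (y.2.2.1 e) else 0,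
      tabV .real y.2.1 fun e => if 0 < y.1.1 (y.2.2.1 e) then y.2.2.2.2 e else 0)))

theorem P17_ocx2 : OC (.prod (.prod NArr NArr) (.prod .nat CooT)) CooT (fun _ => True) P17_x2
    (fun y => y.2.2.1) := by
  have hn : ∀ (V : (Ty.prod (.prod NArr NArr) (.prod .nat CooT)).den → Prop) w,
      OC (.prod (.prod NArr NArr) (.prod .nat CooT)) .nat V (fun y => y.2.2.1) w :=
    fun V w => OC.fst (OC.snd (OC.snd OC.id))
  have hr : ∀ (V : (Ty.prod (.prod (.prod NArr NArr) (.prod .nat CooT)) .nat).den → Prop) w,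
      OC (.prod (.prod (.prod NArr NArr) (.prod .nat CooT)) .nat) .nat V
        (fun y => y.1.1.1 (y.1.2.2.2.1 y.2)) w :=
    fun V w => OC.get (OC.fst (OC.fst (OC.fst OC.id)))
      (OC.get (OC.fst (OC.snd (OC.snd (OC.snd (OC.fst OC.id))))) (OC.snd OC.id))
  refine OC.pair (hn _ _) (OC.pair (OC.fst (OC.snd (OC.snd (OC.snd OC.id)))) (OC.pair ?_ ?_))
  · exact OC.tab0 (s := .prod (.prod NArr NArr) (.prod .nat CooT)) (t := .nat)
      (F := fun y e => if 0 < y.1.1 (y.2.2.2.1 e) then 0 else y.2.1 + y.1.2 (y.2.2.2.2.1 e))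
      (hn _ _)
      (OC.ifN (OC.nlit 0) (hr _ _) (OC.nlit 0) (OC.nadd (OC.fst (OC.snd (OC.fst OC.id)))
        (OC.get (OC.snd (OC.fst (OC.fst OC.id)))
          (OC.get (OC.fst (OC.snd (OC.snd (OC.snd (OC.snd (OC.fst OC.id)))))) (OC.snd OC.id)))))
      1 (fun _ _ => by omega)
  · exact OC.tab0 (s := .prod (.prod NArr NArr) (.prod .nat CooT)) (t := .real)
      (F := fun y e => if 0 < y.1.1 (y.2.2.2.1 e) then 0 else y.2.2.2.2.2 e) (hn _ _)
      (OC.ifN (OC.nlit 0) (hr _ _) OC.r0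
        (OC.get (OC.snd (OC.snd (OC.snd (OC.snd (OC.snd (OC.fst OC.id)))))) (OC.snd OC.id)))
      1 (fun _ _ => by omega)

theorem P17_ocy1 : OC (.prod (.prod NArr NArr) CooT) CooT (fun _ => True) P17_y1
    (fun y => y.2.1) := by
  have hn : ∀ (V : (Ty.prod (.prod NArr NArr) CooT).den → Prop) w,
      OC (.prod (.prod NArr NArr) CooT) .nat V (fun y => y.2.1) w :=
    fun V w => OC.fst (OC.snd OC.id)
  have hi : ∀ (V : (Ty.prod (.prod (.prod NArr NArr) CooT) .nat).den → Prop) w,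
      OC (.prod (.prod (.prod NArr NArr) CooT) .nat) .nat V (fun y => y.1.2.2.1 y.2) w :=
    fun V w => OC.get (OC.fst (OC.snd (OC.snd (OC.fst OC.id)))) (OC.snd OC.id)
  have hr : ∀ (V : (Ty.prod (.prod (.prod NArr NArr) CooT) .nat).den → Prop) w,
      OC (.prod (.prod (.prod NArr NArr) CooT) .nat) .nat V
        (fun y => y.1.1.1 (y.1.2.2.1 y.2)) w :=
    fun V w => OC.get (OC.fst (OC.fst (OC.fst OC.id))) (hi V w)
  refine OC.pair (hn _ _) (OC.pair (OC.fst (OC.snd (OC.snd (OC.snd OC.id)))) (OC.pair ?_ ?_))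
  · exact OC.tab0 (s := .prod (.prod NArr NArr) CooT) (t := .nat)
      (F := fun y e => if 0 < y.1.1 (y.2.2.1 e) then y.1.2 (y.2.2.1 e) else 0)
      (hn _ _)
      (OC.ifN (OC.nlit 0) (hr _ _) (OC.get (OC.snd (OC.fst (OC.fst OC.id))) (hi _ _))
        (OC.nlit 0)) 1 (fun _ _ => by omega)
  · exact OC.tab0 (s := .prod (.prod NArr NArr) CooT) (t := .real)
      (F := fun y e => if 0 < y.1.1 (y.2.2.1 e) then y.2.2.2.2 e else 0) (hn _ _)
      (OC.ifN (OC.nlit 0) (hr _ _)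
        (OC.get (OC.snd (OC.snd (OC.snd (OC.snd (OC.fst OC.id))))) (OC.snd OC.id)) OC.r0)
      1 (fun _ _ => by omega)

theorem P17_x2_A (fR pC : ℕ → ℕ) (h : ℕ) (A : CooT.den) (i j : ℕ) :
    cooA (P17_x2 ((fR, pC), (h, A))) i j = ∑ e ∈ range A.1,
      if A.2.1 e = i ∧ (if 0 < fR (A.2.1 e) then 0 else h + pC (A.2.2.1 e)) = j then
        (if 0 < fR (A.2.1 e) then 0 else A.2.2.2 e) else 0 := by
  unfold cooA
  refine Finset.sum_congr rfl fun e he => ?_
  have he : e < A.1 := Finset.mem_range.1 he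
  simp only [P17_x2]
  rw [tabV_lt he, tabV_lt he]

theorem P17_y1_A (fR pR : ℕ → ℕ) (A : CooT.den) (i j : ℕ) :
    cooA (P17_y1 ((fR, pR), A)) i j = ∑ e ∈ range A.1,
      if A.2.2.1 e = i ∧ (if 0 < fR (A.2.1 e) then pR (A.2.1 e) else 0) = j then
        (if 0 < fR (A.2.1 e) then A.2.2.2 e else 0) else 0 := by
  unfold cooA
  refine Finset.sum_congr rfl fun e he => ?_
  have he : e < A.1 := Finset.mem_range.1 he
  simp only [P17_y1]
  rw [tabV_lt he, tabV_lt he]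

theorem P17_x2_row (fR pC : ℕ → ℕ) (h : ℕ) (A : CooT.den) (i : ℕ) :
    rowCnt (P17_x2 ((fR, pC), (h, A))) i = rowCnt A i := rfl

theorem P17_x2_lt (fR pC : ℕ → ℕ) (h : ℕ) (A : CooT.den) (F : ℕ → ℕ) :
    P17_lt (P17_x2 ((fR, pC), (h, A))) F = P17_lt A F := rfl

theorem P17_y1_row (fR pR : ℕ → ℕ) (A : CooT.den) (i : ℕ) :
    rowCnt (P17_y1 ((fR, pR), A)) i = colCnt A i := rfl

theorem P17_y1_lt (fR pR : ℕ → ℕ) (A : CooT.den) (F : ℕ → ℕ) :
    P17_lt (P17_y1 ((fR, pR), A)) F =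
      ((range A.1).filter fun e => ¬ 0 < F (A.2.2.1 e)).card := rfl

end A56
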