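import Pool.Agent.Lib_helper50.A56.B.P17b
/-!
# MP_a55cb8: block P17c (helper50): the factorization `D = X J Yᵀ`
-/

open Matrix Finset

namespace A56

/-- the list of `X`; `pC`, `pR` number the core columns and rows -/
noncomputable def P17_X (x : OpT.den) (h : ℕ) (fR pR pC : ℕ → ℕ) : CooT.den :=
  P17_cat (P17_cat (P17_dg ((x.1.1, 0), (fR, pR)), P17_x2 ((fR, pC), (h, x.2.2.1.1))),
    P17_sh (h + h, x.2.2.1.2))

/-- the list of `Y` -/
noncomputable def P17_Y (x : OpT.den) (h : ℕ) (fR fC pR pC : ℕ → ℕ) : CooT.den :=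
  P17_cat (P17_cat (P17_y1 ((fR, pR), x.2.2.1.1), P17_dg ((x.1.2, h), (fC, pC))),
    P17_sh (h + h, cooT x.2.2.2.1))

/-- the matrix between -/
def P17_J (h m1 m2 : ℕ) (Ga : ℕ → ℕ → ℝ) :
    Matrix (Fin (h + h + m1)) (Fin (h + h + m2)) ℝ := fun a b =>
  if (a : ℕ) < h + h then (if (a : ℕ) = b then 1 else 0)
  else if (b : ℕ) < h + h then 0 else - Ga (a - (h + h)) (b - (h + h))

/-- hypotheses on the numbering -/
structure P17_H (x : OpT.den) (h : ℕ) (fR fC pR pC : ℕ → ℕ) : Prop where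
  ok : OpOK x
  h1 : 1 ≤ h
  bR : ∀ p < opR x, 0 < fR p → pR p < h
  bC : ∀ r < opC x, 0 < fC r → pC r < h
  iR : ∀ p < opR x, ∀ q < opR x, 0 < fR p → 0 < fR q → pR p = pR q → p = q
  iC : ∀ p < opC x, ∀ q < opC x, 0 < fC p → 0 < fC q → pC p = pC q → p = q
  lt : ∀ e < x.2.2.1.1.1, ¬ 0 < fR (x.2.2.1.1.2.1 e) → 0 < fC (x.2.2.1.1.2.2.1 e)

theorem P17_b0 {h : ℕ} (m : ℕ) (h1 : 1 ≤ h) : 0 < h + h + m := by omega
theorem P17_b1 {h a : ℕ} (m : ℕ) (ha : a < h) : a < h + h + m := by omega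
theorem P17_b2 {h a : ℕ} (m : ℕ) (ha : a < h) : h + a < h + h + m := by omega

section

variable {x : OpT.den} {h : ℕ} {fR fC pR pC : ℕ → ℕ}

theorem P17_Xok (H : P17_H x h fR fC pR pC) :
    CooOK (opR x) (h + h + x.2.1.1) (P17_X x h fR pR pC) := by
  have hh := H.h1
  refine P17_cat_all _ (fun i j => i < opR x ∧ j < h + h + x.2.1.1)
    (P17_cat_all _ (fun i j => i < opR x ∧ j < h + h + x.2.1.1) ?_ ?_) ?_
  · refine P17_dg_all _ _ _ _ (fun i j => i < opR x ∧ j < h + h + x.2.1.1) fun p hp => ⟨fun hf =>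
      ⟨hp, ?_⟩, fun hf => ⟨hp, ?_⟩⟩
    · rw [Nat.zero_add]
      exact P17_b1 _ (H.bR p hp hf)
    · exact P17_b0 _ hh
  · intro e he
    have he : e < x.2.2.1.1.1 := he
    obtain ⟨h1, h2⟩ := H.ok.1 e he
    refine ⟨h1, ?_⟩
    show tabV .nat x.2.2.1.1.1 (fun e => if 0 < fR (x.2.2.1.1.2.1 e) then 0
        else h + pC (x.2.2.1.1.2.2.1 e)) e < _
    rw [tabV_lt he]
    by_cases h3 : 0 < fR (x.2.2.1.1.2.1 e)
    · rw [if_pos h3]
      exact P17_b0 _ hh
    · rw [if_neg h3]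
      exact P17_b2 _ (H.bC _ h2 (H.lt e he h3))
  · intro e he
    have he : e < x.2.2.1.2.1 := he
    obtain ⟨h1, h2⟩ := H.ok.2.1 e he
    refine ⟨h1, ?_⟩
    show tabV .nat x.2.2.1.2.1 (fun e => h + h + x.2.2.1.2.2.2.1 e) e < _
    rw [tabV_lt he]
    exact Nat.add_lt_add_left h2 _

theorem P17_Yok (H : P17_H x h fR fC pR pC) :
    CooOK (opC x) (h + h + x.2.1.2) (P17_Y x h fR fC pR pC) := by
  have hh := H.h1
  refine P17_cat_all _ (fun i j => i < opC x ∧ j < h + h + x.2.1.2)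
    (P17_cat_all _ (fun i j => i < opC x ∧ j < h + h + x.2.1.2) ?_ ?_) ?_
  · intro e he
    have he : e < x.2.2.1.1.1 := he
    obtain ⟨h1, h2⟩ := H.ok.1 e he
    refine ⟨h2, ?_⟩
    show tabV .nat x.2.2.1.1.1 (fun e => if 0 < fR (x.2.2.1.1.2.1 e) then
      pR (x.2.2.1.1.2.1 e) else 0) e < _
    rw [tabV_lt he]
    by_cases h3 : 0 < fR (x.2.2.1.1.2.1 e)
    · rw [if_pos h3]
      exact P17_b1 _ (H.bR _ h1 h3)
    · rw [if_neg h3]
      exact P17_b0 _ hh
  · refine P17_dg_all _ _ _ _ (fun i j => i < opC x ∧ j < h + h + x.2.1.2) fun p hp => ⟨fun hf =>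
      ⟨hp, ?_⟩, fun hf => ⟨hp, ?_⟩⟩
    · exact P17_b2 _ (H.bC p hp hf)
    · exact P17_b0 _ hh
  · intro e he
    have he : e < x.2.2.2.1.1 := he
    obtain ⟨h1, h2⟩ := H.ok.2.2 e he
    refine ⟨h2, ?_⟩
    show tabV .nat x.2.2.2.1.1 (fun e => h + h + x.2.2.2.1.2.1 e) e < _
    rw [tabV_lt he]
    exact Nat.add_lt_add_left h1 _

theorem P17_XA (x : OpT.den) (h : ℕ) (fR pR pC : ℕ → ℕ) (p a : ℕ) (hp : p < opR x) :
    cooA (P17_X x h fR pR pC) p a =
      (if 0 < fR p ∧ 0 + pR p = a then 1 else 0) +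
      (∑ e ∈ range x.2.2.1.1.1, if x.2.2.1.1.2.1 e = p ∧
        (if 0 < fR (x.2.2.1.1.2.1 e) then 0 else h + pC (x.2.2.1.1.2.2.1 e)) = a then
        (if 0 < fR (x.2.2.1.1.2.1 e) then 0 else x.2.2.1.1.2.2.2 e) else 0) +
      ∑ e ∈ range x.2.2.1.2.1, if x.2.2.1.2.2.1 e = p ∧ h + h + x.2.2.1.2.2.2.1 e = a then
        x.2.2.1.2.2.2.2 e else 0 := by
  unfold P17_X
  rw [P17_cat_A]
  simp only
  rw [P17_cat_A]
  simp only
  rw [P17_dg_A _ _ _ _ _ _ (show p < x.1.1 from hp), P17_x2_A, P17_sh_A]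

theorem P17_YA (x : OpT.den) (h : ℕ) (fR fC pR pC : ℕ → ℕ) (c b : ℕ) (hc : c < opC x) :
    cooA (P17_Y x h fR fC pR pC) c b =
      (∑ e ∈ range x.2.2.1.1.1, if x.2.2.1.1.2.2.1 e = c ∧
        (if 0 < fR (x.2.2.1.1.2.1 e) then pR (x.2.2.1.1.2.1 e) else 0) = b then
        (if 0 < fR (x.2.2.1.1.2.1 e) then x.2.2.1.1.2.2.2 e else 0) else 0) +
      (if 0 < fC c ∧ h + pC c = b then 1 else 0) +
      ∑ e ∈ range x.2.2.2.1.1, if x.2.2.2.1.2.2.1 e = c ∧ h + h + x.2.2.2.1.2.1 e = b then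
        x.2.2.2.1.2.2.2 e else 0 := by
  unfold P17_Y
  rw [P17_cat_A]
  simp only
  rw [P17_cat_A]
  simp only
  rw [P17_dg_A _ _ _ _ _ _ (show c < x.1.2 from hc), P17_y1_A, P17_sh_A]
  rfl

/-- the columns of `X` of the second kind -/
theorem P17_XA2 (H : P17_H x h fR fC pR pC) (p a : ℕ) (hp : p < opR x) :
    cooA (P17_X x h fR pR pC) p (h + h + a) = cooA x.2.2.1.2 p a := by
  rw [P17_XA _ _ _ _ _ _ _ hp, if_neg, zero_add]
  · have h1 : (∑ e ∈ range x.2.2.1.1.1, if x.2.2.1.1.2.1 e = p ∧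
        (if 0 < fR (x.2.2.1.1.2.1 e) then 0 else h + pC (x.2.2.1.1.2.2.1 e)) = h + h + a then
        (if 0 < fR (x.2.2.1.1.2.1 e) then 0 else x.2.2.1.1.2.2.2 e) else (0 : ℝ)) = 0 := by
      refine Finset.sum_eq_zero fun e he => ?_
      have he := Finset.mem_range.1 he
      by_cases h3 : 0 < fR (x.2.2.1.1.2.1 e)
      · rw [if_pos h3, if_pos h3]
        exact ite_self _
      · rw [if_neg h3, if_neg h3, if_neg]
        rintro ⟨_, h4⟩
        have := H.bC _ (H.ok.1 e he).2 (H.lt e he h3)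
        omega
    rw [h1, zero_add]
    unfold cooA
    refine Finset.sum_congr rfl fun e _ => ?_
    by_cases h3 : x.2.2.1.2.2.2.1 e = a
    · simp [h3]
    · rw [if_neg, if_neg (fun h => h3 h.2)]
      rintro ⟨_, h4⟩
      exact h3 (Nat.add_left_cancel h4)
  · rintro ⟨h1, h2⟩
    have := H.bR p hp h1
    omega

theorem P17_YA2 (H : P17_H x h fR fC pR pC) (c b : ℕ) (hc : c < opC x) :
    cooA (P17_Y x h fR fC pR pC) c (h + h + b) = cooA x.2.2.2.1 b c := by
  rw [P17_YA _ _ _ _ _ _ _ _ hc]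
  have h1 : (∑ e ∈ range x.2.2.1.1.1, if x.2.2.1.1.2.2.1 e = c ∧
        (if 0 < fR (x.2.2.1.1.2.1 e) then pR (x.2.2.1.1.2.1 e) else 0) = h + h + b then
        (if 0 < fR (x.2.2.1.1.2.1 e) then x.2.2.1.1.2.2.2 e else 0) else (0 : ℝ)) = 0 := by
    refine Finset.sum_eq_zero fun e he => ?_
    have he := Finset.mem_range.1 he
    by_cases h3 : 0 < fR (x.2.2.1.1.2.1 e)
    · rw [if_pos h3, if_pos h3, if_neg]
      rintro ⟨_, h4⟩
      have := H.bR _ (H.ok.1 e he).1 h3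
      omega
    · rw [if_neg h3, if_neg h3]
      exact ite_self _
  rw [h1, zero_add, if_neg, zero_add]
  · unfold cooA
    refine Finset.sum_congr rfl fun e _ => ?_
    by_cases h3 : x.2.2.2.1.2.1 e = b
    · by_cases h4 : x.2.2.2.1.2.2.1 e = c <;> simp [h3, h4]
    · rw [if_neg, if_neg (fun h => h3 h.1)]
      rintro ⟨_, h4⟩
      exact h3 (Nat.add_left_cancel h4)
  · rintro ⟨h1, h2⟩
    have := H.bC c hc h1
    omega

/-- the sparse part -/
theorem P17_XYA (H : P17_H x h fR fC pR pC) (p c : ℕ) (hp : p < opR x) (hc : c < opC x) :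
    ∑ a ∈ range (h + h), cooA (P17_X x h fR pR pC) p a * cooA (P17_Y x h fR fC pR pC) c a =
      cooA x.2.2.1.1 p c := by
  have hX3 : ∀ a < h + h, (∑ e ∈ range x.2.2.1.2.1,
      if x.2.2.1.2.2.1 e = p ∧ h + h + x.2.2.1.2.2.2.1 e = a then
        x.2.2.1.2.2.2.2 e else (0 : ℝ)) = 0 := by
    intro a ha
    refine Finset.sum_eq_zero fun e _ => ?_
    rw [if_neg]
    rintro ⟨_, h4⟩
    have : h + h ≤ a := by rw [← h4]; exact Nat.le_add_right _ _
    omega
  have hY3 : ∀ a < h + h, (∑ e ∈ range x.2.2.2.1.1,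
      if x.2.2.2.1.2.2.1 e = c ∧ h + h + x.2.2.2.1.2.1 e = a then
        x.2.2.2.1.2.2.2 e else (0 : ℝ)) = 0 := by
    intro a ha
    refine Finset.sum_eq_zero fun e _ => ?_
    rw [if_neg]
    rintro ⟨_, h4⟩
    have : h + h ≤ a := by rw [← h4]; exact Nat.le_add_right _ _
    omega
  by_cases hf : 0 < fR p
  · have hpR := H.bR p hp hf
    have hX : ∀ a < h + h, cooA (P17_X x h fR pR pC) p a = if a = pR p then 1 else 0 := by
      intro a ha
      rw [P17_XA _ _ _ _ _ _ _ hp, hX3 a ha, add_zero]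
      have h1 : (∑ e ∈ range x.2.2.1.1.1, if x.2.2.1.1.2.1 e = p ∧
          (if 0 < fR (x.2.2.1.1.2.1 e) then 0 else h + pC (x.2.2.1.1.2.2.1 e)) = a then
          (if 0 < fR (x.2.2.1.1.2.1 e) then 0 else x.2.2.1.1.2.2.2 e) else (0 : ℝ)) = 0 := by
        refine Finset.sum_eq_zero fun e _ => ?_
        by_cases h3 : x.2.2.1.1.2.1 e = p
        · rw [h3, if_pos hf, if_pos hf]
          exact ite_self _
        · rw [if_neg (fun h => h3 h.1)]
      rw [h1, add_zero, Nat.zero_add]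
      by_cases h4 : a = pR p
      · rw [if_pos h4, if_pos ⟨hf, h4.symm⟩]
      · rw [if_neg h4, if_neg (fun h => h4 h.2.symm)]
    rw [Finset.sum_eq_single (pR p)]
    · rw [hX _ (by omega), if_pos rfl, one_mul, P17_YA _ _ _ _ _ _ _ _ hc,
        hY3 _ (by omega), add_zero, if_neg (by rintro ⟨_, h4⟩; omega), add_zero]
      unfold cooA
      refine Finset.sum_congr rfl fun e he => ?_
      have he := Finset.mem_range.1 he
      obtain ⟨h5, h6⟩ := H.ok.1 e he
      by_cases h3 : 0 < fR (x.2.2.1.1.2.1 e)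
      · rw [if_pos h3, if_pos h3]
        by_cases h7 : x.2.2.1.1.2.1 e = p
        · by_cases h8 : x.2.2.1.1.2.2.1 e = c <;> simp [h7, h8]
        · rw [if_neg (fun h => h7 (H.iR _ h5 _ hp h3 hf h.2)), if_neg (fun h => h7 h.1)]
      · rw [if_neg h3, if_neg h3, ite_self, if_neg]
        rintro ⟨h7, _⟩
        rw [h7] at h3
        exact h3 hf
    · intro a ha hne
      rw [hX a (Finset.mem_range.1 ha), if_neg hne, zero_mul]
    · intro h1
      exact absurd (Finset.mem_range.2 (by omega)) h1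
  · have hX : ∀ a < h + h, cooA (P17_X x h fR pR pC) p a = ∑ e ∈ range x.2.2.1.1.1,
        if x.2.2.1.1.2.1 e = p ∧ h + pC (x.2.2.1.1.2.2.1 e) = a then
          x.2.2.1.1.2.2.2 e else 0 := by
      intro a ha
      rw [P17_XA _ _ _ _ _ _ _ hp, hX3 a ha, add_zero, if_neg (fun h => hf h.1), zero_add]
      refine Finset.sum_congr rfl fun e _ => ?_
      by_cases h3 : x.2.2.1.1.2.1 e = p
      · rw [h3, if_neg hf, if_neg hf]
      · rw [if_neg (fun h => h3 h.1), if_neg (fun h => h3 h.1)]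
    have hY : ∀ r < opC x, 0 < fC r → cooA (P17_Y x h fR fC pR pC) c (h + pC r) =
        if r = c then 1 else 0 := by
      intro r hr hfr
      have hpr := H.bC r hr hfr
      rw [P17_YA _ _ _ _ _ _ _ _ hc, hY3 _ (by omega), add_zero]
      have h1 : (∑ e ∈ range x.2.2.1.1.1, if x.2.2.1.1.2.2.1 e = c ∧
        (if 0 < fR (x.2.2.1.1.2.1 e) then pR (x.2.2.1.1.2.1 e) else 0) = h + pC r then
        (if 0 < fR (x.2.2.1.1.2.1 e) then x.2.2.1.1.2.2.2 e else 0) else (0 : ℝ)) = 0 := by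
        refine Finset.sum_eq_zero fun e he => ?_
        have he := Finset.mem_range.1 he
        by_cases h3 : 0 < fR (x.2.2.1.1.2.1 e)
        · rw [if_pos h3, if_pos h3, if_neg]
          rintro ⟨_, h4⟩
          have := H.bR _ (H.ok.1 e he).1 h3
          omega
        · rw [if_neg h3, if_neg h3]
          exact ite_self _
      rw [h1, zero_add]
      by_cases h4 : r = c
      · rw [if_pos h4, if_pos ⟨h4 ▸ hfr, by rw [h4]⟩]
      · rw [if_neg h4, if_neg]
        rintro ⟨h5, h6⟩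
        exact h4 (H.iC r hr c hc hfr h5 (by omega))
    have h1 : ∀ a ∈ range (h + h), cooA (P17_X x h fR pR pC) p a *
        cooA (P17_Y x h fR fC pR pC) c a = ∑ e ∈ range x.2.2.1.1.1,
          if h + pC (x.2.2.1.1.2.2.1 e) = a then (if x.2.2.1.1.2.1 e = p then
            x.2.2.1.1.2.2.2 e * cooA (P17_Y x h fR fC pR pC) c a else 0) else 0 := by
      intro a ha
      rw [hX a (Finset.mem_range.1 ha), Finset.sum_mul]
      refine Finset.sum_congr rfl fun e _ => ?_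
      by_cases h3 : x.2.2.1.1.2.1 e = p
      · by_cases h4 : h + pC (x.2.2.1.1.2.2.1 e) = a
        · rw [if_pos ⟨h3, h4⟩, if_pos h4, if_pos h3]
        · rw [if_neg (fun h => h4 h.2), if_neg h4, zero_mul]
      · rw [if_neg (fun h => h3 h.1), if_neg h3, ite_self, zero_mul]
    rw [Finset.sum_congr rfl h1, Finset.sum_comm]
    unfold cooA
    refine Finset.sum_congr rfl fun e he => ?_
    have he := Finset.mem_range.1 he
    obtain ⟨h5, h6⟩ := H.ok.1 e he
    rw [Finset.sum_ite_eq]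
    by_cases h3 : x.2.2.1.1.2.1 e = p
    · have h7 : 0 < fC (x.2.2.1.1.2.2.1 e) := H.lt e he (by rw [h3]; exact hf)
      have h8 := H.bC _ h6 h7
      have h9 := hY _ h6 h7
      unfold cooA at h9
      rw [if_pos (Finset.mem_range.2 (by omega)), if_pos h3, h9]
      by_cases h10 : x.2.2.1.1.2.2.1 e = c
      · rw [if_pos h10, if_pos ⟨h3, h10⟩, mul_one]
      · rw [if_neg h10, if_neg (fun h => h10 h.2), mul_zero]
    · rw [if_neg h3, ite_self, if_neg (fun h => h3 h.1)]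

/-- the factorization -/
theorem P17_fact (H : P17_H x h fR fC pR pC) :
    toM (opR x) (opC x) (opA x) =
      toM (opR x) (h + h + x.2.1.1) (cooA (P17_X x h fR pR pC)) *
        P17_J h x.2.1.1 x.2.1.2 x.2.2.2.2 *
        (toM (opC x) (h + h + x.2.1.2) (cooA (P17_Y x h fR fC pR pC)))ᵀ := by
  ext p c
  have hp : (p : ℕ) < opR x := p.2
  have hc : (c : ℕ) < opC x := c.2
  obtain ⟨Xl, hXl⟩ : ∃ Xl : ℕ → ℝ, Xl = fun a => cooA (P17_X x h fR pR pC) p a := ⟨_, rfl⟩
  obtain ⟨Yl, hYl⟩ : ∃ Yl : ℕ → ℝ, Yl = fun a => cooA (P17_Y x h fR fC pR pC) c a := ⟨_, rfl⟩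
  have e1 : (toM (opR x) (h + h + x.2.1.1) (cooA (P17_X x h fR pR pC)) *
        P17_J h x.2.1.1 x.2.1.2 x.2.2.2.2 *
        (toM (opC x) (h + h + x.2.1.2) (cooA (P17_Y x h fR fC pR pC)))ᵀ) p c =
      ∑ a ∈ range (h + h + x.2.1.1), Xl a * ∑ b ∈ range (h + h + x.2.1.2),
        (if a < h + h then (if a = b then 1 else 0)
          else if b < h + h then 0 else - x.2.2.2.2 (a - (h + h)) (b - (h + h))) * Yl b := by
    rw [Matrix.mul_assoc, Matrix.mul_apply, Finset.sum_range]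
    refine Finset.sum_congr rfl fun a _ => ?_
    rw [Matrix.mul_apply, Finset.sum_range, hXl, hYl]
    rfl
  rw [e1]
  have e2 : ∀ a < h + h, (∑ b ∈ range (h + h + x.2.1.2),
        (if a < h + h then (if a = b then (1 : ℝ) else 0)
          else if b < h + h then 0 else - x.2.2.2.2 (a - (h + h)) (b - (h + h))) * Yl b) =
      Yl a := by
    intro a ha
    rw [Finset.sum_eq_single a]
    · rw [if_pos ha, if_pos rfl, one_mul]
    · intro b _ hb
      rw [if_pos ha, if_neg (Ne.symm hb), zero_mul]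
    · intro hh
      exact absurd (Finset.mem_range.2 (by omega)) hh
  have e3 : ∀ a, (∑ b ∈ range (h + h + x.2.1.2),
        (if h + h + a < h + h then (if h + h + a = b then (1 : ℝ) else 0)
          else if b < h + h then 0 else - x.2.2.2.2 (h + h + a - (h + h)) (b - (h + h))) *
            Yl b) = - ∑ b ∈ range x.2.1.2, x.2.2.2.2 a b * Yl (h + h + b) := by
    intro a
    rw [Finset.sum_range_add]
    have e4 : ∑ b ∈ range (h + h), (if h + h + a < h + h then (if h + h + a = b then (1 : ℝ)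
        else 0) else if b < h + h then 0 else - x.2.2.2.2 (h + h + a - (h + h)) (b - (h + h))) *
            Yl b = 0 := by
      refine Finset.sum_eq_zero fun b hb => ?_
      rw [if_neg (by omega), if_pos (Finset.mem_range.1 hb), zero_mul]
    rw [e4, zero_add, ← Finset.sum_neg_distrib]
    refine Finset.sum_congr rfl fun b _ => ?_
    rw [if_neg (by omega), if_neg (by omega), Nat.add_sub_cancel_left, Nat.add_sub_cancel_left]
    ring
  have e5 := P17_XYA H p c hp hc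
  have e6 : ∀ a, Xl (h + h + a) = cooA x.2.2.1.2 p a := fun a => by
    rw [hXl]; exact P17_XA2 H p a hp
  have e7 : ∀ b, Yl (h + h + b) = cooA x.2.2.2.1 b c := fun b => by
    rw [hYl]; exact P17_YA2 H c b hc
  have e8 : ∑ a ∈ range (h + h), Xl a * ∑ b ∈ range (h + h + x.2.1.2),
        (if a < h + h then (if a = b then (1 : ℝ) else 0)
          else if b < h + h then 0 else - x.2.2.2.2 (a - (h + h)) (b - (h + h))) * Yl b =
      cooA x.2.2.1.1 p c := by
    rw [← e5]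
    refine Finset.sum_congr rfl fun a ha => ?_
    rw [e2 a (Finset.mem_range.1 ha), hXl, hYl]
  rw [Finset.sum_range_add, e8]
  show opA x p c = _
  unfold opA
  rw [sub_eq_add_neg, ← Finset.sum_neg_distrib]
  congr 1
  refine Finset.sum_congr rfl fun a _ => ?_
  rw [e3 a, e6 a, mul_neg, Finset.mul_sum]
  congr 1
  refine Finset.sum_congr rfl fun b _ => ?_
  rw [e7 b]
  ring

end

end A56
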