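import Pool.Agent.Lib_helper50.A56.B.P17c
/-!
# MP_a55cb8: block P17d (helper50): numbering, lists, Gram matrices
-/

open Matrix Finset

namespace A56

/-- numbering of the core rows -/
def P17_nR (y : P17_I.den) : P14_TS.den := P14_num (y.2.2.1.1.1, ((0 : ℕ), P17_fR y))
/-- numbering of the core columns -/
def P17_nC (y : P17_I.den) : P14_TS.den := P14_num (y.2.2.1.1.2, ((0 : ℕ), P17_fC y))

theorem P17_ocnR : OC P17_I P14_TS (fun _ => True) P17_nR (fun y => opSize y.2.2.1) :=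
  P14_cp (s := P17_I) (F := fun y : P17_I.den => (y.2.2.1.1.1, ((0 : ℕ), P17_fR y))) P14_ocnum
    (OC.pair (OC.fst (OC.fst (OC.fst (OC.snd (OC.snd OC.id))))) (OC.pair (OC.nlit 0) P17_ocfR))
    fun y => P17_s4 _

theorem P17_ocnC : OC P17_I P14_TS (fun _ => True) P17_nC (fun y => opSize y.2.2.1) :=
  P14_cp (s := P17_I) (F := fun y : P17_I.den => (y.2.2.1.1.2, ((0 : ℕ), P17_fC y))) P14_ocnum
    (OC.pair (OC.snd (OC.fst (OC.fst (OC.snd (OC.snd OC.id))))) (OC.pair (OC.nlit 0) P17_ocfC))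
    fun y => P17_s5 _

theorem P17_num_H (n : ℕ) (f : ℕ → ℕ) :
    (P14_num (n, ((0 : ℕ), f))).1 = ((range n).filter fun j => 0 < f j).card ∧
    (∀ i < n, 0 < f i → (P14_num (n, ((0 : ℕ), f))).2.1 i < (P14_num (n, ((0 : ℕ), f))).1) ∧
    ∀ i < n, ∀ j < n, 0 < f i → 0 < f j → (P14_num (n, ((0 : ℕ), f))).2.1 i =
      (P14_num (n, ((0 : ℕ), f))).2.1 j → i = j := by
  obtain ⟨h1, h2, _⟩ := P14_num_spec (n, ((0 : ℕ), f)) n
  have hz : ∀ i, 0 < f i → 0 < 0 + f i := fun i hi => by omega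
  refine ⟨?_, ?_, ?_⟩
  · refine h1.trans ?_
    unfold P14_rank
    simp only [Nat.zero_add]
  · intro i hi hf
    have e1 : (P14_num (n, ((0 : ℕ), f))).2.1 i = P14_rank 0 f i := h2 i hi (hz i hf)
    have e2 : (P14_num (n, ((0 : ℕ), f))).1 = P14_rank 0 f n := h1
    rw [e1, e2]
    exact P14_rank_lt 0 f hi (hz i hf)
  · intro i hi j hj hfi hfj h
    have e1 : (P14_num (n, ((0 : ℕ), f))).2.1 i = P14_rank 0 f i := h2 i hi (hz i hfi)
    have e2 : (P14_num (n, ((0 : ℕ), f))).2.1 j = P14_rank 0 f j := h2 j hj (hz j hfj)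
    rw [e1, e2] at h
    exact P14_rank_inj 0 f (hz i hfi) (hz j hfj) h

theorem P17_nR_card (y : P17_I.den) : (P17_nR y).1 = open Classical in
    ((range (opR y.2.2.1)).filter fun p => coreRow y.2.2.1 y.2.2.2.1 y.2.2.2.2 y.1.2 p).card := by
  refine (P17_num_H _ _).1.trans ?_
  congr 1
  ext p
  simp only [mem_filter, mem_range]
  constructor
  · rintro ⟨h1, h2⟩
    exact ⟨h1, ((P17_fR_iff y p).1 h2).2⟩
  · rintro ⟨h1, h2⟩
    exact ⟨h1, (P17_fR_iff y p).2 ⟨h1, h2⟩⟩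

theorem P17_nC_card (y : P17_I.den) : (P17_nC y).1 = open Classical in
    ((range (opC y.2.2.1)).filter fun r => coreCol y.2.2.1 y.2.2.2.2 y.1.2 r).card := by
  refine (P17_num_H _ _).1.trans ?_
  congr 1
  ext p
  simp only [mem_filter, mem_range]
  constructor
  · rintro ⟨h1, h2⟩
    exact ⟨h1, ((P17_fC_iff y p).1 h2).2⟩
  · rintro ⟨h1, h2⟩
    exact ⟨h1, (P17_fC_iff y p).2 ⟨h1, h2⟩⟩

theorem P17_lt_of (y : P17_I.den) (hok : OpOK y.2.2.1) : ∀ e < y.2.2.1.2.2.1.1.1,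
    ¬ 0 < P17_fR y (y.2.2.1.2.2.1.1.2.1 e) → 0 < P17_fC y (y.2.2.1.2.2.1.1.2.2.1 e) := by
  intro e he hf
  obtain ⟨h1, h2⟩ := hok.1 e he
  have h3 := (P17_rowCnt_le y _ h1 hf).2.2 e he rfl
  exact (P17_fC_iff y _).2 ⟨h2, Or.inl h3⟩

theorem P17_H_of (y : P17_I.den) (hok : OpOK y.2.2.1) (h1 : 1 ≤ y.1.1.1)
    (hR : (P17_nR y).1 ≤ y.1.1.1) (hC : (P17_nC y).1 ≤ y.1.1.1) :
    P17_H y.2.2.1 y.1.1.1 (P17_fR y) (P17_fC y) (P17_nR y).2.1 (P17_nC y).2.1 where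
  ok := hok
  h1 := h1
  bR := fun p hp hf => lt_of_lt_of_le ((P17_num_H _ _).2.1 p hp hf) hR
  bC := fun p hp hf => lt_of_lt_of_le ((P17_num_H _ _).2.1 p hp hf) hC
  iR := fun p hp q hq hf hg h => (P17_num_H _ _).2.2 p hp q hq hf hg h
  iC := fun p hp q hq hf hg h => (P17_num_H _ _).2.2 p hp q hq hf hg h
  lt := P17_lt_of y hok

/-- the list of `X` -/
noncomputable def P17_Xl (y : P17_I.den) : CooT.den :=
  P17_X y.2.2.1 y.1.1.1 (P17_fR y) (P17_nR y).2.1 (P17_nC y).2.1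

/-- the list of `Y` -/
noncomputable def P17_Yl (y : P17_I.den) : CooT.den :=
  P17_Y y.2.2.1 y.1.1.1 (P17_fR y) (P17_fC y) (P17_nR y).2.1 (P17_nC y).2.1

theorem P17_s6' (a b c d e f : ℕ) : a + c + d ≤ a + b + c + d + e + f := by omega
theorem P17_s7' (a b c d e f : ℕ) : c + b + e ≤ a + b + c + d + e + f := by omega

theorem P17_Xl_len (y : P17_I.den) : (P17_Xl y).1 ≤ opSize y.2.2.1 := P17_s6' _ _ _ _ _ _
theorem P17_Yl_len (y : P17_I.den) : (P17_Yl y).1 ≤ opSize y.2.2.1 := P17_s7' _ _ _ _ _ _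

theorem P17_ocXl : OC P17_I CooT (fun _ => True) P17_Xl (fun y => opSize y.2.2.1) := by
  have hh : OC P17_I .nat (fun _ => True) (fun y => y.1.1.1) (fun y => opSize y.2.2.1) :=
    OC.fst (OC.fst (OC.fst OC.id))
  have e1 : OC P17_I CooT (fun _ => True)
      (fun y => P17_dg ((y.2.2.1.1.1, 0), (P17_fR y, (P17_nR y).2.1)))
      (fun y => opSize y.2.2.1) :=
    P14_cp (s := P17_I) (F := fun y : P17_I.den => ((y.2.2.1.1.1, (0 : ℕ)),
        (P17_fR y, (P17_nR y).2.1))) P17_ocdg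
      (OC.pair (OC.pair (OC.fst (OC.fst (OC.fst (OC.snd (OC.snd OC.id))))) (OC.nlit 0))
        (OC.pair P17_ocfR (OC.fst (OC.snd P17_ocnR)))) fun y => P17_s4 _
  have e2 : OC P17_I CooT (fun _ => True)
      (fun y => P17_x2 ((P17_fR y, (P17_nC y).2.1), (y.1.1.1, y.2.2.1.2.2.1.1)))
      (fun y => opSize y.2.2.1) :=
    P14_cp (s := P17_I) (F := fun y : P17_I.den => ((P17_fR y, (P17_nC y).2.1),
        (y.1.1.1, y.2.2.1.2.2.1.1))) P17_ocx2
      (OC.pair (OC.pair P17_ocfR (OC.fst (OC.snd P17_ocnC)))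
        (OC.pair hh (OC.fst (OC.fst (OC.snd (OC.snd (OC.fst (OC.snd (OC.snd OC.id)))))))))
      fun y => P14_s1 _
  have e3 : OC P17_I CooT (fun _ => True)
      (fun y => P17_sh (y.1.1.1 + y.1.1.1, y.2.2.1.2.2.1.2)) (fun y => opSize y.2.2.1) :=
    P14_cp (s := P17_I) (F := fun y : P17_I.den => (y.1.1.1 + y.1.1.1, y.2.2.1.2.2.1.2)) P17_ocsh
      (OC.pair (OC.nadd hh hh)
        (OC.snd (OC.fst (OC.snd (OC.snd (OC.fst (OC.snd (OC.snd OC.id))))))))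
      fun y => P14_s3 _
  refine P14_cp (s := P17_I) (F := fun y : P17_I.den =>
    (P17_cat (P17_dg ((y.2.2.1.1.1, 0), (P17_fR y, (P17_nR y).2.1)),
      P17_x2 ((P17_fR y, (P17_nC y).2.1), (y.1.1.1, y.2.2.1.2.2.1.1))),
      P17_sh (y.1.1.1 + y.1.1.1, y.2.2.1.2.2.1.2))) P17_occat (OC.pair ?_ e3)
    fun y => P17_Xl_len y
  refine P14_cp (s := P17_I) (F := fun y : P17_I.den =>
    (P17_dg ((y.2.2.1.1.1, 0), (P17_fR y, (P17_nR y).2.1)),
      P17_x2 ((P17_fR y, (P17_nC y).2.1), (y.1.1.1, y.2.2.1.2.2.1.1)))) P17_occat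
    (OC.pair e1 e2) fun y => (Nat.le_add_right _ _).trans (P17_Xl_len y)

theorem P17_ocYl : OC P17_I CooT (fun _ => True) P17_Yl (fun y => opSize y.2.2.1) := by
  have hh : OC P17_I .nat (fun _ => True) (fun y => y.1.1.1) (fun y => opSize y.2.2.1) :=
    OC.fst (OC.fst (OC.fst OC.id))
  have e1 : OC P17_I CooT (fun _ => True)
      (fun y => P17_y1 ((P17_fR y, (P17_nR y).2.1), y.2.2.1.2.2.1.1))
      (fun y => opSize y.2.2.1) :=
    P14_cp (s := P17_I) (F := fun y : P17_I.den => ((P17_fR y, (P17_nR y).2.1),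
        y.2.2.1.2.2.1.1)) P17_ocy1
      (OC.pair (OC.pair P17_ocfR (OC.fst (OC.snd P17_ocnR)))
        (OC.fst (OC.fst (OC.snd (OC.snd (OC.fst (OC.snd (OC.snd OC.id))))))))
      fun y => P14_s1 _
  have e2 : OC P17_I CooT (fun _ => True)
      (fun y => P17_dg ((y.2.2.1.1.2, y.1.1.1), (P17_fC y, (P17_nC y).2.1)))
      (fun y => opSize y.2.2.1) :=
    P14_cp (s := P17_I) (F := fun y : P17_I.den => ((y.2.2.1.1.2, y.1.1.1),
        (P17_fC y, (P17_nC y).2.1))) P17_ocdg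
      (OC.pair (OC.pair (OC.snd (OC.fst (OC.fst (OC.snd (OC.snd OC.id))))) hh)
        (OC.pair P17_ocfC (OC.fst (OC.snd P17_ocnC)))) fun y => P17_s5 _
  have hV : OC P17_I CooT (fun _ => True) (fun y => y.2.2.1.2.2.2.1)
      (fun y => opSize y.2.2.1) :=
    OC.fst (OC.snd (OC.snd (OC.snd (OC.fst (OC.snd (OC.snd OC.id))))))
  have e3 : OC P17_I CooT (fun _ => True)
      (fun y => P17_sh (y.1.1.1 + y.1.1.1, cooT y.2.2.1.2.2.2.1)) (fun y => opSize y.2.2.1) :=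
    P14_cp (s := P17_I) (F := fun y : P17_I.den => (y.1.1.1 + y.1.1.1,
        cooT y.2.2.1.2.2.2.1)) P17_ocsh
      (OC.pair (OC.nadd hh hh) (OC.pair (OC.fst hV) (OC.pair (OC.fst (OC.snd (OC.snd hV)))
        (OC.pair (OC.fst (OC.snd hV)) (OC.snd (OC.snd (OC.snd hV)))))))
      fun y => P14_s2 _
  refine P14_cp (s := P17_I) (F := fun y : P17_I.den =>
    (P17_cat (P17_y1 ((P17_fR y, (P17_nR y).2.1), y.2.2.1.2.2.1.1),
      P17_dg ((y.2.2.1.1.2, y.1.1.1), (P17_fC y, (P17_nC y).2.1))),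
      P17_sh (y.1.1.1 + y.1.1.1, cooT y.2.2.1.2.2.2.1))) P17_occat (OC.pair ?_ e3)
    fun y => P17_Yl_len y
  refine P14_cp (s := P17_I) (F := fun y : P17_I.den =>
    (P17_y1 ((P17_fR y, (P17_nR y).2.1), y.2.2.1.2.2.1.1),
      P17_dg ((y.2.2.1.1.2, y.1.1.1), (P17_fC y, (P17_nC y).2.1)))) P17_occat
    (OC.pair e1 e2) fun y => (Nat.le_add_right _ _).trans (P17_Yl_len y)

/-! ## light weights -/

theorem P17_Xl_rows (y : P17_I.den) (hok : OpOK y.2.2.1) :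
    ∀ e < (P17_Xl y).1, (P17_Xl y).2.1 e < opR y.2.2.1 := by
  refine P17_cat_all _ (fun i _ => i < opR y.2.2.1)
    (P17_cat_all _ (fun i _ => i < opR y.2.2.1) ?_ ?_) ?_
  · exact P17_dg_all _ _ _ _ (fun i _ => i < opR y.2.2.1) fun p hp => ⟨fun _ => hp, fun _ => hp⟩
  · exact fun e he => (hok.1 e he).1
  · exact fun e he => (hok.2.1 e he).1

theorem P17_Yl_rows (y : P17_I.den) (hok : OpOK y.2.2.1) :
    ∀ e < (P17_Yl y).1, (P17_Yl y).2.1 e < opC y.2.2.1 := by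
  refine P17_cat_all _ (fun i _ => i < opC y.2.2.1)
    (P17_cat_all _ (fun i _ => i < opC y.2.2.1) ?_ ?_) ?_
  · exact fun e he => (hok.1 e he).2
  · exact P17_dg_all _ _ _ _ (fun i _ => i < opC y.2.2.1) fun p hp => ⟨fun _ => hp, fun _ => hp⟩
  · exact fun e he => (hok.2.2 e he).2

theorem P17_ar5 (R Cc a b c : ℕ) : R + a + b ≤ R + Cc + a + b + c := by omega
theorem P17_ar6 (R Cc a b c : ℕ) : a + Cc + c ≤ R + Cc + a + b + c := by omega

theorem P17_Xl_light (y : P17_I.den) (hok : OpOK y.2.2.1) :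
    P16_light (P17_Xl y) (P17_fR y) ≤ (y.1.2 + 1) * opRest y.2.2.1 y.2.2.2.1 y.2.2.2.2 := by
  refine (P17_light_le _ _ (opR y.2.2.1) (y.1.2 + 1) (P17_Xl_rows y hok) ?_).trans
    (Nat.mul_le_mul_left _ ?_)
  · intro r hr hf
    have h1 := (P17_rowCnt_le y r hr hf).1
    unfold P17_Xl P17_X
    rw [P17_cat_row, P17_sh_row]
    simp only
    rw [P17_cat_row, P17_x2_row]
    simp only
    have h2 := P17_dg_row y.2.2.1.1.1 0 (P17_fR y) (P17_nR y).2.1 r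
    omega
  · have h0 : P17_lt (P17_Xl y) (P17_fR y) = P17_lt (P17_dg ((y.2.2.1.1.1, 0),
        (P17_fR y, (P17_nR y).2.1))) (P17_fR y) + P17_lt y.2.2.1.2.2.1.1 (P17_fR y) +
        P17_lt y.2.2.1.2.2.1.2 (P17_fR y) := by
      unfold P17_Xl P17_X
      rw [P17_cat_lt, P17_sh_lt]
      simp only
      rw [P17_cat_lt, P17_x2_lt]
    rw [h0]
    have h1 := P17_dg_lt y.2.2.1.1.1 0 (P17_fR y) (P17_nR y).2.1 (P17_fR y)
    have h2 : P17_lt y.2.2.1.2.2.1.1 (P17_fR y) ≤ ((range y.2.2.1.2.2.1.1.1).filter fun e =>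
        y.2.2.2.1 (y.2.2.1.2.2.1.1.2.1 e) = 0 ∨
          y.2.2.2.2 (y.2.2.1.2.2.1.1.2.2.1 e) = 0).card := by
      refine Finset.card_le_card fun e he => ?_
      have he := Finset.mem_filter.1 he
      have h3 := P17_rowCnt_le y _ (hok.1 e (Finset.mem_range.1 he.1)).1 he.2
      exact Finset.mem_filter.2 ⟨he.1, Or.inl h3.2.1⟩
    have h3 : P17_lt y.2.2.1.2.2.1.2 (P17_fR y) ≤ ((range y.2.2.1.2.2.1.2.1).filter fun e =>
        y.2.2.2.1 (y.2.2.1.2.2.1.2.2.1 e) = 0).card := by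
      refine Finset.card_le_card fun e he => ?_
      have he := Finset.mem_filter.1 he
      have h3 := P17_rowCnt_le y _ (hok.2.1 e (Finset.mem_range.1 he.1)).1 he.2
      exact Finset.mem_filter.2 ⟨he.1, h3.2.1⟩
    unfold opRest
    exact (Nat.add_le_add (Nat.add_le_add h1 h2) h3).trans (P17_ar5 _ _ _ _ _)

theorem P17_Yl_light (y : P17_I.den) (hok : OpOK y.2.2.1) :
    P16_light (P17_Yl y) (P17_fC y) ≤ (y.1.2 + 1) * opRest y.2.2.1 y.2.2.2.1 y.2.2.2.2 := by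
  refine (P17_light_le _ _ (opC y.2.2.1) (y.1.2 + 1) (P17_Yl_rows y hok) ?_).trans
    (Nat.mul_le_mul_left _ ?_)
  · intro r hr hf
    have h1 := (P17_colCnt_le y r hr hf).1
    unfold P17_Yl P17_Y
    rw [P17_cat_row, P17_sh_row]
    simp only
    rw [P17_cat_row, P17_y1_row]
    simp only
    have h2 := P17_dg_row y.2.2.1.1.2 y.1.1.1 (P17_fC y) (P17_nC y).2.1 r
    have h3 : rowCnt (cooT y.2.2.1.2.2.2.1) r = colCnt y.2.2.1.2.2.2.1 r := rfl
    rw [h3]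
    omega
  · have h0 : P17_lt (P17_Yl y) (P17_fC y) = ((range y.2.2.1.2.2.1.1.1).filter fun e =>
          ¬ 0 < P17_fC y (y.2.2.1.2.2.1.1.2.2.1 e)).card + P17_lt (P17_dg ((y.2.2.1.1.2, y.1.1.1),
        (P17_fC y, (P17_nC y).2.1))) (P17_fC y) +
        ((range y.2.2.1.2.2.2.1.1).filter fun e =>
          ¬ 0 < P17_fC y (y.2.2.1.2.2.2.1.2.2.1 e)).card := by
      unfold P17_Yl P17_Y
      rw [P17_cat_lt, P17_sh_lt]
      simp only
      rw [P17_cat_lt, P17_y1_lt]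
      rfl
    rw [h0]
    have h1 := P17_dg_lt y.2.2.1.1.2 y.1.1.1 (P17_fC y) (P17_nC y).2.1 (P17_fC y)
    have h2 : ((range y.2.2.1.2.2.1.1.1).filter fun e =>
          ¬ 0 < P17_fC y (y.2.2.1.2.2.1.1.2.2.1 e)).card ≤
        ((range y.2.2.1.2.2.1.1.1).filter fun e =>
        y.2.2.2.1 (y.2.2.1.2.2.1.1.2.1 e) = 0 ∨
          y.2.2.2.2 (y.2.2.1.2.2.1.1.2.2.1 e) = 0).card := by
      refine Finset.card_le_card fun e he => ?_
      have he := Finset.mem_filter.1 he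
      have h3 := P17_colCnt_le y _ (hok.1 e (Finset.mem_range.1 he.1)).2 he.2
      exact Finset.mem_filter.2 ⟨he.1, Or.inr h3.2⟩
    have h3 : ((range y.2.2.1.2.2.2.1.1).filter fun e =>
          ¬ 0 < P17_fC y (y.2.2.1.2.2.2.1.2.2.1 e)).card ≤
        ((range y.2.2.1.2.2.2.1.1).filter fun e =>
        y.2.2.2.2 (y.2.2.1.2.2.2.1.2.2.1 e) = 0).card := by
      refine Finset.card_le_card fun e he => ?_
      have he := Finset.mem_filter.1 he
      have h3 := P17_colCnt_le y _ (hok.2.2 e (Finset.mem_range.1 he.1)).2 he.2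
      exact Finset.mem_filter.2 ⟨he.1, h3.2⟩
    unfold opRest
    exact (Nat.add_le_add (Nat.add_le_add h2 h1) h3).trans (P17_ar6 _ _ _ _ _)

end A56
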