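import Pool.Agent.Lib_helper50.A56.B.P17d
/-!
# MP_a55cb8: block P18 (helper50): the exact base data of mode 3
-/

open Matrix Finset

namespace A56

/-- number of columns of `X` -/
def P18_k1 (y : P17_I.den) : ℕ := y.1.1.1 + y.1.1.1 + y.2.2.1.2.1.1
/-- number of columns of `Y` -/
def P18_k2 (y : P17_I.den) : ℕ := y.1.1.1 + y.1.1.1 + y.2.2.1.2.1.2

/-- the domain -/
def P18_V (y : P17_I.den) : Prop :=
  OpOK y.2.2.1 ∧ y.1.1.1 ≤ 2 ^ y.1.1.2 ∧ y.2.2.1.2.1.1 ≤ y.1.1.1 ∧ y.2.2.1.2.1.2 ≤ y.1.1.1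

/-- the weight -/
def P18_W (mm : ℕ → ℕ) (y : P17_I.den) : ℕ :=
  (y.1.1.2 + 3) * mm (2 ^ (y.1.1.2 + 2)) +
    (y.1.2 + 1) * (opRest y.2.2.1 y.2.2.2.1 y.2.2.2.2 + 1) + opSize y.2.2.1

theorem P18_k1_le (y : P17_I.den) (h : P18_V y) : P18_k1 y ≤ 2 ^ (y.1.1.2 + 2) := by
  obtain ⟨_, h1, h2, h3⟩ := h
  unfold P18_k1
  rw [pow_add]
  have : ∀ a b c : ℕ, a ≤ c → b ≤ a → a + a + b ≤ c * 2 ^ 2 := fun a b c _ _ => by omega
  exact this _ _ _ h1 h2

theorem P18_k2_le (y : P17_I.den) (h : P18_V y) : P18_k2 y ≤ 2 ^ (y.1.1.2 + 2) := by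
  obtain ⟨_, h1, h2, h3⟩ := h
  unfold P18_k2
  rw [pow_add]
  have : ∀ a b c : ℕ, a ≤ c → b ≤ a → a + a + b ≤ c * 2 ^ 2 := fun a b c _ _ => by omega
  exact this _ _ _ h1 h3

theorem P18_h_le (y : P17_I.den) (h : P18_V y) : y.1.1.1 ≤ 2 ^ (y.1.1.2 + 2) :=
  h.2.1.trans (Nat.pow_le_pow_right (by norm_num) (by omega))

theorem P18_m_le (y : P17_I.den) (h : P18_V y) : y.2.2.1.2.1.1 ≤ 2 ^ (y.1.1.2 + 2) ∧
    y.2.2.1.2.1.2 ≤ 2 ^ (y.1.1.2 + 2) :=
  ⟨h.2.2.1.trans (P18_h_le y h), h.2.2.2.trans (P18_h_le y h)⟩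

theorem P18_ock1 {w : P17_I.den → ℕ} {V : P17_I.den → Prop} : OC P17_I .nat V P18_k1 w :=
  OC.nadd (OC.nadd (OC.fst (OC.fst (OC.fst OC.id))) (OC.fst (OC.fst (OC.fst OC.id))))
    (OC.fst (OC.fst (OC.snd (OC.fst (OC.snd (OC.snd OC.id))))))

theorem P18_ock2 {w : P17_I.den → ℕ} {V : P17_I.den → Prop} : OC P17_I .nat V P18_k2 w :=
  OC.nadd (OC.nadd (OC.fst (OC.fst (OC.fst OC.id))) (OC.fst (OC.fst (OC.fst OC.id))))
    (OC.snd (OC.fst (OC.snd (OC.fst (OC.snd (OC.snd OC.id))))))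

theorem P18_ar1 {s M t R S L X : ℕ} (h1 : L ≤ (t + 1) * R) (h2 : X ≤ S) :
    M + L + X ≤ 1 * ((s + 3) * M + (t + 1) * (R + 1) + S + 1) := by nlinarith

theorem P18_ar2 {s M t R S X : ℕ} (h : X ≤ S) :
    X ≤ 1 * ((s + 3) * M + (t + 1) * (R + 1) + S + 1) := by nlinarith

theorem P18_ar3 {s M t R S X : ℕ} (h : X ≤ M) :
    X ≤ (s + 3) * M + (t + 1) * (R + 1) + S := by nlinarith

section dense

variable (mm : ℕ → ℕ)

/-- Gram matrices -/
noncomputable def P18_GX (G : P16_T.den → MatT.den) (y : P17_I.den) : MatT.den :=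
  G (((P18_k1 y, y.1.1.2 + 2), y.1.1.1), (P17_Xl y, (P17_fR y, (P17_nR y).2.1)))

noncomputable def P18_GY (G : P16_T.den → MatT.den) (y : P17_I.den) : MatT.den :=
  G (((P18_k2 y, y.1.1.2 + 2), y.1.1.1), (P17_Yl y, (P17_fC y, (P17_nC y).2.1)))

theorem P18_lift {t : Ty} {F : P17_I.den → t.den} {V : P17_I.den → Prop}
    (h : OC P17_I t (fun _ => True) F (fun y => opSize y.2.2.1)) :
    OC P17_I t V F (P18_W mm) :=
  (h.weaken fun _ _ => trivial).le 1 fun _ _ => P18_ar2 le_rfl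

theorem P18_ocGX (G : P16_T.den → MatT.den)
    (hG : OC P16_T MatT (fun x => x.1.1.1 ≤ 2 ^ x.1.1.2 ∧ x.1.2 ≤ 2 ^ x.1.1.2) G
      (fun x => mm (2 ^ x.1.1.2) + P16_light x.2.1 x.2.2.1 + x.2.1.1)) :
    OC P17_I MatT P18_V (P18_GX G) (P18_W mm) := by
  refine OC.comp (s := P17_I) (u := P16_T) (w := P18_W mm)
    (F := fun y : P17_I.den => (((P18_k1 y, y.1.1.2 + 2), y.1.1.1),
      (P17_Xl y, (P17_fR y, (P17_nR y).2.1)))) hG
    (OC.pair (OC.pair (OC.pair P18_ock1 (OC.nadd (OC.snd (OC.fst (OC.fst OC.id)))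
      (OC.nlit 2))) (OC.fst (OC.fst (OC.fst OC.id)))) (OC.pair (P18_lift mm P17_ocXl)
      (OC.pair (P18_lift mm P17_ocfR) (OC.fst (OC.snd (P18_lift mm P17_ocnR))))))
    (fun y hy => ⟨P18_k1_le y hy, P18_h_le y hy⟩) 1 fun y hy => ?_
  exact P18_ar1 (P17_Xl_light y hy.1) (P17_Xl_len y)

theorem P18_ocGY (G : P16_T.den → MatT.den)
    (hG : OC P16_T MatT (fun x => x.1.1.1 ≤ 2 ^ x.1.1.2 ∧ x.1.2 ≤ 2 ^ x.1.1.2) G
      (fun x => mm (2 ^ x.1.1.2) + P16_light x.2.1 x.2.2.1 + x.2.1.1)) :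
    OC P17_I MatT P18_V (P18_GY G) (P18_W mm) := by
  refine OC.comp (s := P17_I) (u := P16_T) (w := P18_W mm)
    (F := fun y : P17_I.den => (((P18_k2 y, y.1.1.2 + 2), y.1.1.1),
      (P17_Yl y, (P17_fC y, (P17_nC y).2.1)))) hG
    (OC.pair (OC.pair (OC.pair P18_ock2 (OC.nadd (OC.snd (OC.fst (OC.fst OC.id)))
      (OC.nlit 2))) (OC.fst (OC.fst (OC.fst OC.id)))) (OC.pair (P18_lift mm P17_ocYl)
      (OC.pair (P18_lift mm P17_ocfC) (OC.fst (OC.snd (P18_lift mm P17_ocnC))))))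
    (fun y hy => ⟨P18_k2_le y hy, P18_h_le y hy⟩) 1 fun y hy => ?_
  exact P18_ar1 (P17_Yl_light y hy.1) (P17_Yl_len y)

/-- `J · G` for a `k2 × k2` matrix `G`; input `(y, G)` -/
noncomputable def P18_JG (Fd : P14_TD.den → MatT.den) (z : (Ty.prod P17_I MatT).den) :
    MatT.den :=
  letV (Fd ((z.1.2.2.1.2.1.1, (z.1.2.2.1.2.1.2, P18_k2 z.1)), (z.1.2.2.1.2.2.2.2,
    tabV VecT z.1.2.2.1.2.1.2 fun r => tabV .real (P18_k2 z.1) fun b =>
      z.2 (z.1.1.1.1 + z.1.1.1.1 + r) b))) fun P =>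
    tabV VecT (P18_k1 z.1) fun a => tabV .real (P18_k2 z.1) fun b =>
      if a < z.1.1.1.1 + z.1.1.1.1 then z.2 a b
      else - P (a - (z.1.1.1.1 + z.1.1.1.1)) b

variable (hmono : Monotone mm) (hsq : ∀ m, (m + 1) ^ 2 ≤ mm m)

include hsq in
theorem P18_sq {a b m : ℕ} (ha : a ≤ m) (hb : b ≤ m) : a * (b + 1) ≤ mm m := by
  have := hsq m
  nlinarith

include hmono hsq in
theorem P18_ocJG (Fd : P14_TD.den → MatT.den)
    (hFd : OC P14_TD MatT (fun _ => True) Fd (fun x => mm (max x.1.1 (max x.1.2.1 x.1.2.2)))) :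
    OC (.prod P17_I MatT) MatT (fun z => P18_V z.1) (P18_JG Fd)
      (fun z => mm (2 ^ (z.1.1.1.2 + 2))) := by
  have hh : ∀ {s : Ty} {V : s.den → Prop} {w : s.den → ℕ} {F : s.den → P17_I.den},
      OC s P17_I V F w → OC s .nat V (fun x => (F x).1.1.1 + (F x).1.1.1) w :=
    fun hF => OC.nadd (OC.fst (OC.fst (OC.fst hF))) (OC.fst (OC.fst (OC.fst hF)))
  have hk2 : ∀ {s : Ty} {V : s.den → Prop} {w : s.den → ℕ} {F : s.den → P17_I.den},
      OC s P17_I V F w → OC s .nat V (fun x => P18_k2 (F x)) w :=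
    fun hF => OC.nadd (OC.nadd (OC.fst (OC.fst (OC.fst hF))) (OC.fst (OC.fst (OC.fst hF))))
      (OC.snd (OC.fst (OC.snd (OC.fst (OC.snd (OC.snd hF))))))
  have hk1 : ∀ {s : Ty} {V : s.den → Prop} {w : s.den → ℕ} {F : s.den → P17_I.den},
      OC s P17_I V F w → OC s .nat V (fun x => P18_k1 (F x)) w :=
    fun hF => OC.nadd (OC.nadd (OC.fst (OC.fst (OC.fst hF))) (OC.fst (OC.fst (OC.fst hF))))
      (OC.fst (OC.fst (OC.snd (OC.fst (OC.snd (OC.snd hF))))))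
  have hm1 : ∀ {s : Ty} {V : s.den → Prop} {w : s.den → ℕ} {F : s.den → P17_I.den},
      OC s P17_I V F w → OC s .nat V (fun x => (F x).2.2.1.2.1.1) w :=
    fun hF => OC.fst (OC.fst (OC.snd (OC.fst (OC.snd (OC.snd hF)))))
  have hm2 : ∀ {s : Ty} {V : s.den → Prop} {w : s.den → ℕ} {F : s.den → P17_I.den},
      OC s P17_I V F w → OC s .nat V (fun x => (F x).2.2.1.2.1.2) w :=
    fun hF => OC.snd (OC.fst (OC.snd (OC.fst (OC.snd (OC.snd hF)))))
  refine OC.let_ (w' := fun p => mm (2 ^ (p.1.1.1.1.2 + 2)))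
    (A := fun z : (Ty.prod P17_I MatT).den => Fd ((z.1.2.2.1.2.1.1,
      (z.1.2.2.1.2.1.2, P18_k2 z.1)), (z.1.2.2.1.2.2.2.2,
      tabV VecT z.1.2.2.1.2.1.2 fun r => tabV .real (P18_k2 z.1) fun b =>
        z.2 (z.1.1.1.1 + z.1.1.1.1 + r) b))) ?_ ?_ 1 fun z _ => by simp only; omega
  · refine OC.comp (s := .prod P17_I MatT) (u := P14_TD)
      (w := fun z => mm (2 ^ (z.1.1.1.2 + 2)))
      (F := fun z : (Ty.prod P17_I MatT).den => ((z.1.2.2.1.2.1.1,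
      (z.1.2.2.1.2.1.2, P18_k2 z.1)), (z.1.2.2.1.2.2.2.2,
      tabV VecT z.1.2.2.1.2.1.2 fun r => tabV .real (P18_k2 z.1) fun b =>
        z.2 (z.1.1.1.1 + z.1.1.1.1 + r) b))) hFd
      (OC.pair (OC.pair (hm1 (OC.fst OC.id)) (OC.pair (hm2 (OC.fst OC.id))
        (hk2 (OC.fst OC.id)))) (OC.pair
        (OC.snd (OC.snd (OC.snd (OC.snd (OC.fst (OC.snd (OC.snd (OC.fst OC.id)))))))) ?_))
      (fun _ _ => trivial) 1 ?_
    · refine P14_tab2 (s := .prod P17_I MatT)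
        (f := fun z r b => z.2 (z.1.1.1.1 + z.1.1.1.1 + r) b) (hm2 (OC.fst OC.id))
        (hk2 (OC.fst OC.id)) ?_ 1 ?_
      · exact OC.get (OC.get (OC.snd (OC.fst (OC.fst OC.id)))
          (OC.nadd (hh (OC.fst (OC.fst (OC.fst OC.id)))) (OC.snd (OC.fst OC.id))))
          (OC.snd OC.id)
      · intro z hz
        have := P18_sq mm hsq (P18_m_le z.1 hz).2 (P18_k2_le z.1 hz)
        omega
    · intro z hz
      have h1 : mm (max z.1.2.2.1.2.1.1 (max z.1.2.2.1.2.1.2 (P18_k2 z.1))) ≤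
          mm (2 ^ (z.1.1.1.2 + 2)) :=
        hmono (max_le (P18_m_le z.1 hz).1 (max_le (P18_m_le z.1 hz).2 (P18_k2_le z.1 hz)))
      simp only
      omega
  · refine P14_tab2 (s := .prod (.prod P17_I MatT) MatT)
      (f := fun z a b => if a < z.1.1.1.1.1 + z.1.1.1.1.1 then z.1.2 a b
      else - z.2 (a - (z.1.1.1.1.1 + z.1.1.1.1.1)) b) (hk1 (OC.fst (OC.fst OC.id)))
      (hk2 (OC.fst (OC.fst OC.id))) ?_ 1 ?_
    · exact OC.ifN (OC.snd (OC.fst OC.id)) (hh (OC.fst (OC.fst (OC.fst (OC.fst OC.id)))))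
        (OC.get (OC.get (OC.snd (OC.fst (OC.fst (OC.fst OC.id)))) (OC.snd (OC.fst OC.id)))
          (OC.snd OC.id))
        (OC.neg (OC.get (OC.get (OC.snd (OC.fst (OC.fst OC.id)))
          (OC.nsub (OC.snd (OC.fst OC.id)) (hh (OC.fst (OC.fst (OC.fst (OC.fst OC.id)))))))
          (OC.snd OC.id)))
    · intro z hz
      have := P18_sq mm hsq (P18_k1_le z.1.1 hz.1) (P18_k2_le z.1.1 hz.1)
      omega

/-- the Gram matrix of `Y` in the inner product of `gram X λ`; input `(y, (GX, GY))` -/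
noncomputable def P18_H2 (Fd : P14_TD.den → MatT.den)
    (z : (Ty.prod P17_I (.prod MatT MatT)).den) : MatT.den :=
  letV (P18_JG Fd (z.1, z.2.2)) fun JG =>
    letV (Fd ((P18_k1 z.1, (P18_k1 z.1, P18_k2 z.1)), (z.2.1, JG))) fun P =>
      letV (Fd ((P18_k2 z.1, (P18_k1 z.1, P18_k2 z.1)),
        (tabV VecT (P18_k2 z.1) fun a => tabV .real (P18_k1 z.1) fun b => JG b a, P))) fun R =>
        tabV VecT (P18_k2 z.1) fun a => tabV .real (P18_k2 z.1) fun b =>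
          R a b + z.1.2.1 * z.2.2 a b

include hmono hsq in
theorem P18_ocH2 (Fd : P14_TD.den → MatT.den)
    (hFd : OC P14_TD MatT (fun _ => True) Fd (fun x => mm (max x.1.1 (max x.1.2.1 x.1.2.2)))) :
    OC (.prod P17_I (.prod MatT MatT)) MatT (fun z => P18_V z.1) (P18_H2 Fd)
      (fun z => mm (2 ^ (z.1.1.1.2 + 2))) := by
  have hk2 : ∀ {s : Ty} {V : s.den → Prop} {w : s.den → ℕ} {F : s.den → P17_I.den},
      OC s P17_I V F w → OC s .nat V (fun x => P18_k2 (F x)) w :=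
    fun hF => OC.nadd (OC.nadd (OC.fst (OC.fst (OC.fst hF))) (OC.fst (OC.fst (OC.fst hF))))
      (OC.snd (OC.fst (OC.snd (OC.fst (OC.snd (OC.snd hF))))))
  have hk1 : ∀ {s : Ty} {V : s.den → Prop} {w : s.den → ℕ} {F : s.den → P17_I.den},
      OC s P17_I V F w → OC s .nat V (fun x => P18_k1 (F x)) w :=
    fun hF => OC.nadd (OC.nadd (OC.fst (OC.fst (OC.fst hF))) (OC.fst (OC.fst (OC.fst hF))))
      (OC.fst (OC.fst (OC.snd (OC.fst (OC.snd (OC.snd hF))))))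
  refine OC.let_ (w' := fun p => mm (2 ^ (p.1.1.1.1.2 + 2)))
    (A := fun z : (Ty.prod P17_I (.prod MatT MatT)).den => P18_JG Fd (z.1, z.2.2)) ?_ ?_ 1
    fun z _ => by simp only; omega
  · exact OC.comp (s := .prod P17_I (.prod MatT MatT)) (u := .prod P17_I MatT)
      (w := fun z => mm (2 ^ (z.1.1.1.2 + 2)))
      (F := fun z : (Ty.prod P17_I (.prod MatT MatT)).den => (z.1, z.2.2))
      (P18_ocJG mm hmono hsq Fd hFd) (OC.pair (OC.fst OC.id) (OC.snd (OC.snd OC.id)))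
      (fun z hz => hz) 1 fun z _ => by simp only; omega
  refine OC.let_ (w' := fun p => mm (2 ^ (p.1.1.1.1.1.2 + 2)))
    (A := fun p : (Ty.prod (Ty.prod P17_I (.prod MatT MatT)) MatT).den =>
      Fd ((P18_k1 p.1.1, (P18_k1 p.1.1, P18_k2 p.1.1)), (p.1.2.1, p.2))) ?_ ?_ 1
    fun z _ => by simp only; omega
  · refine OC.comp (s := .prod (.prod P17_I (.prod MatT MatT)) MatT) (u := P14_TD)
      (w := fun p => mm (2 ^ (p.1.1.1.1.2 + 2)))
      (F := fun p : (Ty.prod (Ty.prod P17_I (.prod MatT MatT)) MatT).den =>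
        ((P18_k1 p.1.1, (P18_k1 p.1.1, P18_k2 p.1.1)), (p.1.2.1, p.2))) hFd
      (OC.pair (OC.pair (hk1 (OC.fst (OC.fst OC.id))) (OC.pair (hk1 (OC.fst (OC.fst OC.id)))
        (hk2 (OC.fst (OC.fst OC.id))))) (OC.pair (OC.fst (OC.snd (OC.fst OC.id)))
        (OC.snd OC.id))) (fun _ _ => trivial) 1 ?_
    rintro ⟨z, p⟩ ⟨hz, _⟩
    have h1 : mm (max (P18_k1 z.1) (max (P18_k1 z.1) (P18_k2 z.1))) ≤
        mm (2 ^ (z.1.1.1.2 + 2)) :=
      hmono (max_le (P18_k1_le z.1 hz) (max_le (P18_k1_le z.1 hz) (P18_k2_le z.1 hz)))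
    simp only
    omega
  refine OC.let_ (w' := fun p => mm (2 ^ (p.1.1.1.1.1.1.2 + 2)))
    (A := fun p : (Ty.prod (Ty.prod (Ty.prod P17_I (.prod MatT MatT)) MatT) MatT).den =>
      Fd ((P18_k2 p.1.1.1, (P18_k1 p.1.1.1, P18_k2 p.1.1.1)),
        (tabV VecT (P18_k2 p.1.1.1) fun a => tabV .real (P18_k1 p.1.1.1) fun b => p.1.2 b a,
          p.2))) ?_ ?_ 1
    fun z _ => by simp only; omega
  · refine OC.comp (s := .prod (.prod (.prod P17_I (.prod MatT MatT)) MatT) MatT) (u := P14_TD)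
      (w := fun p => mm (2 ^ (p.1.1.1.1.1.2 + 2)))
      (F := fun p : (Ty.prod (Ty.prod (Ty.prod P17_I (.prod MatT MatT)) MatT) MatT).den =>
        ((P18_k2 p.1.1.1, (P18_k1 p.1.1.1, P18_k2 p.1.1.1)),
        (tabV VecT (P18_k2 p.1.1.1) fun a => tabV .real (P18_k1 p.1.1.1) fun b => p.1.2 b a,
          p.2))) hFd
      (OC.pair (OC.pair (hk2 (OC.fst (OC.fst (OC.fst OC.id))))
        (OC.pair (hk1 (OC.fst (OC.fst (OC.fst OC.id))))
        (hk2 (OC.fst (OC.fst (OC.fst OC.id)))))) (OC.pair ?_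
        (OC.snd OC.id))) (fun _ _ => trivial) 1 ?_
    · refine P14_tab2 (s := .prod (.prod (.prod P17_I (.prod MatT MatT)) MatT) MatT)
        (f := fun p a b => p.1.2 b a) (hk2 (OC.fst (OC.fst (OC.fst OC.id))))
        (hk1 (OC.fst (OC.fst (OC.fst OC.id)))) ?_ 1 ?_
      · exact OC.get (OC.get (OC.snd (OC.fst (OC.fst (OC.fst OC.id)))) (OC.snd OC.id))
          (OC.snd (OC.fst OC.id))
      · rintro ⟨⟨z, q⟩, p⟩ ⟨⟨hz, _⟩, _⟩
        have := P18_sq mm hsq (P18_k2_le z.1 hz) (P18_k1_le z.1 hz)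
        simp only
        omega
    · rintro ⟨⟨z, q⟩, p⟩ ⟨⟨hz, _⟩, _⟩
      have h1 : mm (max (P18_k2 z.1) (max (P18_k1 z.1) (P18_k2 z.1))) ≤
          mm (2 ^ (z.1.1.1.2 + 2)) :=
        hmono (max_le (P18_k2_le z.1 hz) (max_le (P18_k1_le z.1 hz) (P18_k2_le z.1 hz)))
      simp only
      omega
  · refine P14_tab2 (s := .prod (.prod (.prod (.prod P17_I (.prod MatT MatT)) MatT) MatT) MatT)
      (f := fun p a b => p.2 a b + p.1.1.1.1.2.1 * p.1.1.1.2.2 a b)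
      (hk2 (OC.fst (OC.fst (OC.fst (OC.fst OC.id)))))
      (hk2 (OC.fst (OC.fst (OC.fst (OC.fst OC.id))))) ?_ 1 ?_
    · exact OC.add (OC.get (OC.get (OC.snd (OC.fst (OC.fst OC.id))) (OC.snd (OC.fst OC.id)))
        (OC.snd OC.id))
        (OC.mul (OC.fst (OC.snd (OC.fst (OC.fst (OC.fst (OC.fst (OC.fst (OC.fst OC.id))))))))
          (OC.get (OC.get (OC.snd (OC.snd (OC.fst (OC.fst (OC.fst (OC.fst (OC.fst OC.id)))))))
            (OC.snd (OC.fst OC.id))) (OC.snd OC.id)))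
    · rintro ⟨⟨⟨z, q⟩, p⟩, r⟩ ⟨⟨⟨hz, _⟩, _⟩, _⟩
      have := P18_sq mm hsq (P18_k2_le z.1 hz) (P18_k2_le z.1 hz)
      simp only
      omega

end dense

/-! ## values -/

section values

variable (Fd : P14_TD.den → MatT.den)
  (hFd : ∀ a b c X Y, toM a c (Fd ((a, (b, c)), (X, Y))) = toM a b X * toM b c Y)

/-- the matrix `J` of the input -/
noncomputable def P18_J (y : P17_I.den) : Matrix (Fin (P18_k1 y)) (Fin (P18_k2 y)) ℝ :=
  P17_J y.1.1.1 y.2.2.1.2.1.1 y.2.2.1.2.1.2 y.2.2.1.2.2.2.2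

include hFd in
theorem P18_JG_val (y : P17_I.den) (G : MatT.den) :
    toM (P18_k1 y) (P18_k2 y) (P18_JG Fd (y, G)) =
      P18_J y * toM (P18_k2 y) (P18_k2 y) G := by
  ext a b
  obtain ⟨hh, hhh⟩ : ∃ hh : ℕ, hh = y.1.1.1 + y.1.1.1 := ⟨_, rfl⟩
  obtain ⟨m1, hm1⟩ : ∃ m1 : ℕ, m1 = y.2.2.1.2.1.1 := ⟨_, rfl⟩
  obtain ⟨m2, hm2⟩ : ∃ m2 : ℕ, m2 = y.2.2.1.2.1.2 := ⟨_, rfl⟩
  have hk1 : P18_k1 y = hh + m1 := by rw [hhh, hm1]; rfl
  have hk2 : P18_k2 y = hh + m2 := by rw [hhh, hm2]; rfl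
  have e0 : toM (P18_k1 y) (P18_k2 y) (P18_JG Fd (y, G)) a b =
      (tabV VecT (P18_k1 y) fun a => tabV .real (P18_k2 y) fun b =>
        if a < y.1.1.1 + y.1.1.1 then G a b
        else - Fd ((y.2.2.1.2.1.1, (y.2.2.1.2.1.2, P18_k2 y)), (y.2.2.1.2.2.2.2,
          tabV VecT y.2.2.1.2.1.2 fun r => tabV .real (P18_k2 y) fun b =>
            G (y.1.1.1 + y.1.1.1 + r) b)) (a - (y.1.1.1 + y.1.1.1)) b) (a : ℕ) (b : ℕ) := rfl
  rw [e0, tabV_lt a.2, tabV_lt b.2, ← hhh, ← hm1, ← hm2]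
  have e1 : (P18_J y * toM (P18_k2 y) (P18_k2 y) G) a b = ∑ c ∈ range (P18_k2 y),
      (if (a : ℕ) < hh then (if (a : ℕ) = c then 1 else 0)
      else if c < hh then 0 else - y.2.2.1.2.2.2.2 (a - hh) (c - hh)) * G c b := by
    rw [Matrix.mul_apply, Finset.sum_range, hhh]
    rfl
  rw [e1]
  by_cases ha : (a : ℕ) < hh
  · rw [if_pos ha, Finset.sum_eq_single (a : ℕ)]
    · rw [if_pos ha, if_pos rfl, one_mul]
    · intro c _ hc
      rw [if_pos ha, if_neg (Ne.symm hc), zero_mul]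
    · intro h
      exact absurd (Finset.mem_range.2 (by rw [hk2]; omega)) h
  · rw [if_neg ha]
    have ha2 : (a : ℕ) - hh < m1 := by
      have := lt_of_lt_of_eq a.2 hk1
      omega
    have e2 := congrFun (congrFun (hFd m1 m2 (P18_k2 y) y.2.2.1.2.2.2.2
      (tabV VecT m2 fun r => tabV .real (P18_k2 y) fun b => G (hh + r) b))
      ⟨a - hh, ha2⟩) b
    have e3 : Fd ((m1, (m2, P18_k2 y)), (y.2.2.1.2.2.2.2,
          tabV VecT m2 fun r => tabV .real (P18_k2 y) fun b => G (hh + r) b)) (a - hh) b =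
        ∑ r ∈ range m2, y.2.2.1.2.2.2.2 (a - hh) r * G (hh + r) b := by
      rw [Finset.sum_range]
      refine e2.trans ?_
      rw [Matrix.mul_apply]
      refine Finset.sum_congr rfl fun r _ => ?_
      simp only [toM]
      rw [tabV_lt r.2, tabV_lt b.2]
    have e5 : ∀ f : ℕ → ℝ, ∑ c ∈ range (P18_k2 y), f c = ∑ c ∈ range (hh + m2), f c :=
      fun f => by rw [hk2]
    rw [e3, e5, Finset.sum_range_add]
    have e4 : ∑ c ∈ range hh, (if (a : ℕ) < hh then (if (a : ℕ) = c then (1 : ℝ) else 0)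
        else if c < hh then 0 else - y.2.2.1.2.2.2.2 (a - hh) (c - hh)) * G c b = 0 := by
      refine Finset.sum_eq_zero fun c hc => ?_
      rw [if_neg ha, if_pos (Finset.mem_range.1 hc), zero_mul]
    rw [e4, zero_add, ← Finset.sum_neg_distrib]
    refine Finset.sum_congr rfl fun r _ => ?_
    rw [if_neg ha, if_neg (by omega), Nat.add_sub_cancel_left]
    ring

include hFd in
theorem P18_H2_val (y : P17_I.den) (GX GY : MatT.den) :
    toM (P18_k2 y) (P18_k2 y) (P18_H2 Fd (y, (GX, GY))) =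
      (P18_J y * toM (P18_k2 y) (P18_k2 y) GY)ᵀ * (toM (P18_k1 y) (P18_k1 y) GX *
        (P18_J y * toM (P18_k2 y) (P18_k2 y) GY)) + y.2.1 • toM (P18_k2 y) (P18_k2 y) GY := by
  rw [← P18_JG_val Fd hFd]
  obtain ⟨JG, hJG⟩ : ∃ JG, JG = P18_JG Fd (y, GY) := ⟨_, rfl⟩
  rw [← hJG]
  have e0 : P18_H2 Fd (y, (GX, GY)) = tabV VecT (P18_k2 y) fun a => tabV .real (P18_k2 y) fun b =>
      Fd ((P18_k2 y, (P18_k1 y, P18_k2 y)),
        (tabV VecT (P18_k2 y) fun a => tabV .real (P18_k1 y) fun b => JG b a,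
          Fd ((P18_k1 y, (P18_k1 y, P18_k2 y)), (GX, JG)))) a b + y.2.1 * GY a b := by
    rw [hJG]; rfl
  have e1 : toM (P18_k2 y) (P18_k1 y)
      (tabV VecT (P18_k2 y) fun a => tabV .real (P18_k1 y) fun b => JG b a) =
      (toM (P18_k1 y) (P18_k2 y) JG)ᵀ := by
    ext a b
    show (tabV VecT (P18_k2 y) fun a => tabV .real (P18_k1 y) fun b => JG b a) a b = _
    rw [tabV_lt a.2, tabV_lt b.2]
    rfl
  have e2 := hFd (P18_k2 y) (P18_k1 y) (P18_k2 y)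
    (tabV VecT (P18_k2 y) fun a => tabV .real (P18_k1 y) fun b => JG b a)
    (Fd ((P18_k1 y, (P18_k1 y, P18_k2 y)), (GX, JG)))
  have e3 := hFd (P18_k1 y) (P18_k1 y) (P18_k2 y) GX JG
  rw [e1, e3] at e2
  rw [e0, ← e2]
  ext a b
  show (tabV VecT (P18_k2 y) fun a => tabV .real (P18_k2 y) fun b => _) a b = _
  rw [tabV_lt a.2, tabV_lt b.2]
  rfl

end values

section dense

variable (Mul : Tm MatT) (mm : ℕ → ℕ) (hMul : MulOK Mul mm)
  (hmono : Monotone mm) (hsq : ∀ m, (m + 1) ^ 2 ≤ mm m) (hdbl : ∀ m, 1 ≤ m → 2 * mm m ≤ mm (2 * m))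

/-- the g-inverses -/
noncomputable def P18_ZZ (G : P16_T.den → MatT.den) (Fd : P14_TD.den → MatT.den)
    (Gi : (Ty.prod (.prod .nat .nat) MatT).den → MatT.den) (y : P17_I.den) :
    (Ty.prod MatT MatT).den :=
  letV (P18_GX G y) fun GX => letV (P18_GY G y) fun GY =>
    (Gi ((y.1.1.2 + 2, P18_k2 y), GY), Gi ((y.1.1.2 + 2, P18_k2 y), P18_H2 Fd (y, (GX, GY))))

/-- the default value -/
def P18_d : (Ty.prod CooT (.prod MatT MatT)).den := (Ty.prod CooT (.prod MatT MatT)).default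

/-- number of entries out of range; input `((a, c), M)` -/
def P18_bad (y : (Ty.prod (.prod .nat .nat) CooT).den) : ℕ :=
  iterV (fun e (acc : ℕ) => if y.2.2.1 e < y.1.1 then
    (if y.2.2.2.1 e < y.1.2 then acc else acc + 1) else acc + 1) 0 y.2.1

theorem P18_ocbad : OC (.prod (.prod .nat .nat) CooT) .nat (fun _ => True) P18_bad
    (fun y => y.2.1) := by
  refine OC.iter0 (s := .prod (.prod .nat .nat) CooT) (t := .nat) (N := fun y => y.2.1)
    (A := fun _ => (0 : ℕ)) (B := fun y e (acc : ℕ) => if y.2.2.1 e < y.1.1 then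
    (if y.2.2.2.1 e < y.1.2 then acc else acc + 1) else acc + 1)
    (OC.fst (OC.snd OC.id)) (OC.nlit 0) ?_ 1 (fun x _ => by omega)
  have ha : ∀ V : (Ty.prod (.prod (.prod .nat .nat) CooT) (.prod .nat .nat)).den → Prop,
      OC (.prod (.prod (.prod .nat .nat) CooT) (.prod .nat .nat)) .nat V (fun p => p.2.2)
        (fun _ => 0) := fun V => OC.snd (OC.snd OC.id)
  exact OC.ifN (OC.get (OC.fst (OC.snd (OC.snd (OC.fst OC.id)))) (OC.fst (OC.snd OC.id)))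
    (OC.fst (OC.fst (OC.fst OC.id)))
    (OC.ifN (OC.get (OC.fst (OC.snd (OC.snd (OC.snd (OC.fst OC.id))))) (OC.fst (OC.snd OC.id)))
      (OC.snd (OC.fst (OC.fst OC.id))) (ha _) (OC.nadd (ha _) (OC.nlit 1)))
    (OC.nadd (ha _) (OC.nlit 1))

theorem P18_bad_iff (y : (Ty.prod (.prod .nat .nat) CooT).den) :
    P18_bad y < 1 ↔ CooOK y.1.1 y.1.2 y.2 := by
  have key : ∀ m : ℕ, iterV (fun e (acc : ℕ) => if y.2.2.1 e < y.1.1 then
      (if y.2.2.2.1 e < y.1.2 then acc else acc + 1) else acc + 1) 0 m = 0 ↔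
      ∀ e < m, y.2.2.1 e < y.1.1 ∧ y.2.2.2.1 e < y.1.2 := by
    intro m
    induction m with
    | zero => simp
    | succ m ih =>
      rw [iterV_succ]
      by_cases h1 : y.2.2.1 m < y.1.1
      · by_cases h2 : y.2.2.2.1 m < y.1.2
        · rw [if_pos h1, if_pos h2, ih]
          constructor
          · intro h e he
            rcases Nat.lt_succ_iff_lt_or_eq.1 he with h3 | h3
            · exact h e h3
            · subst h3; exact ⟨h1, h2⟩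
          · exact fun h e he => h e (Nat.lt_succ_of_lt he)
        · rw [if_pos h1, if_neg h2]
          exact ⟨fun h => absurd h (Nat.succ_ne_zero _), fun h =>
            absurd (h m (Nat.lt_succ_self m)).2 h2⟩
      · rw [if_neg h1]
        exact ⟨fun h => absurd h (Nat.succ_ne_zero _), fun h =>
          absurd (h m (Nat.lt_succ_self m)).1 h1⟩
  exact Nat.lt_one_iff.trans (key y.2.1)

/-- entries out of range of the three lists -/
def P18_b3 (y : P17_I.den) : ℕ :=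
  P18_bad ((y.2.2.1.1.1, y.2.2.1.1.2), y.2.2.1.2.2.1.1) +
    (P18_bad ((y.2.2.1.1.1, y.2.2.1.2.1.1), y.2.2.1.2.2.1.2) +
      P18_bad ((y.2.2.1.2.1.2, y.2.2.1.1.2), y.2.2.1.2.2.2.1))

theorem P18_ar6 (a b c : ℕ) : a + (b + c) < 1 ↔ a < 1 ∧ b < 1 ∧ c < 1 := by omega

theorem P18_b3_iff (y : P17_I.den) : P18_b3 y < 1 ↔ OpOK y.2.2.1 := by
  unfold P18_b3
  refine (P18_ar6 _ _ _).trans ?_
  rw [P18_bad_iff, P18_bad_iff, P18_bad_iff]
  rfl

theorem P18_ocb3 : OC P17_I .nat (fun _ => True) P18_b3 (fun y => opSize y.2.2.1) := by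
  have hA : OC P17_I CooT (fun _ => True) (fun p => p.2.2.1.2.2.1.1)
      (fun y => opSize y.2.2.1) :=
    OC.fst (OC.fst (OC.snd (OC.snd (OC.fst (OC.snd (OC.snd OC.id))))))
  have hU : OC P17_I CooT (fun _ => True) (fun p => p.2.2.1.2.2.1.2)
      (fun y => opSize y.2.2.1) :=
    OC.snd (OC.fst (OC.snd (OC.snd (OC.fst (OC.snd (OC.snd OC.id))))))
  have hV : OC P17_I CooT (fun _ => True) (fun p => p.2.2.1.2.2.2.1)
      (fun y => opSize y.2.2.1) :=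
    OC.fst (OC.snd (OC.snd (OC.snd (OC.fst (OC.snd (OC.snd OC.id))))))
  have hR : OC P17_I .nat (fun _ => True) (fun p => p.2.2.1.1.1) (fun y => opSize y.2.2.1) :=
    OC.fst (OC.fst (OC.fst (OC.snd (OC.snd OC.id))))
  have hC : OC P17_I .nat (fun _ => True) (fun p => p.2.2.1.1.2) (fun y => opSize y.2.2.1) :=
    OC.snd (OC.fst (OC.fst (OC.snd (OC.snd OC.id))))
  have h1 : OC P17_I .nat (fun _ => True) (fun p => p.2.2.1.2.1.1) (fun y => opSize y.2.2.1) :=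
    OC.fst (OC.fst (OC.snd (OC.fst (OC.snd (OC.snd OC.id)))))
  have h2 : OC P17_I .nat (fun _ => True) (fun p => p.2.2.1.2.1.2) (fun y => opSize y.2.2.1) :=
    OC.snd (OC.fst (OC.snd (OC.fst (OC.snd (OC.snd OC.id)))))
  exact OC.nadd (P14_cp (s := P17_I) (F := fun y : P17_I.den =>
      ((y.2.2.1.1.1, y.2.2.1.1.2), y.2.2.1.2.2.1.1)) P18_ocbad
      (OC.pair (OC.pair hR hC) hA) fun y => P14_s1 _)
    (OC.nadd (P14_cp (s := P17_I) (F := fun y : P17_I.den =>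
        ((y.2.2.1.1.1, y.2.2.1.2.1.1), y.2.2.1.2.2.1.2)) P18_ocbad
        (OC.pair (OC.pair hR h1) hU) fun y => P14_s3 _)
      (P14_cp (s := P17_I) (F := fun y : P17_I.den =>
        ((y.2.2.1.2.1.2, y.2.2.1.1.2), y.2.2.1.2.2.2.1)) P18_ocbad
        (OC.pair (OC.pair h2 hC) hV) fun y => P14_s2 _))

/-- the base data -/
noncomputable def P18_F (G : P16_T.den → MatT.den) (Fd : P14_TD.den → MatT.den)
    (Gi : (Ty.prod (.prod .nat .nat) MatT).den → MatT.den) (y : P17_I.den) : BaseT.den :=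
  ((0, P18_k2 y), if P18_b3 y < 1 then (if (P17_nR y).1 < y.1.1.1 + 1 then
    (if (P17_nC y).1 < y.1.1.1 + 1 then (P17_Yl y, P18_ZZ G Fd Gi y) else P18_d) else P18_d)
    else P18_d)

theorem P18_ar4 {s M t R S X : ℕ} (h : X ≤ (s + 2 + 1) * M) :
    X ≤ 1 * ((s + 3) * M + (t + 1) * (R + 1) + S + 1) := by nlinarith

theorem P18_ar5 (a : ℕ) : a ≤ 1 * (a + 1) := by omega

theorem P18_ocZZ (G : P16_T.den → MatT.den)
    (hG : OC P16_T MatT (fun x => x.1.1.1 ≤ 2 ^ x.1.1.2 ∧ x.1.2 ≤ 2 ^ x.1.1.2) G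
      (fun x => mm (2 ^ x.1.1.2) + P16_light x.2.1 x.2.2.1 + x.2.1.1))
    (Fd : P14_TD.den → MatT.den) (hmono : Monotone mm) (hsq : ∀ m, (m + 1) ^ 2 ≤ mm m)
    (hFd : OC P14_TD MatT (fun _ => True) Fd (fun x => mm (max x.1.1 (max x.1.2.1 x.1.2.2))))
    (Gi : (Ty.prod (.prod .nat .nat) MatT).den → MatT.den)
    (hGi : OC (.prod (.prod .nat .nat) MatT) MatT (fun _ => True) Gi
      (fun x => (x.1.1 + 1) * mm (2 ^ x.1.1))) :
    OC P17_I (.prod MatT MatT) P18_V (P18_ZZ G Fd Gi) (P18_W mm) := by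
  have hs : ∀ {s : Ty} {V : s.den → Prop} {w : s.den → ℕ} {F : s.den → P17_I.den},
      OC s P17_I V F w → OC s .nat V (fun x => (F x).1.1.2 + 2) w :=
    fun hF => OC.nadd (OC.snd (OC.fst (OC.fst hF))) (OC.nlit 2)
  have hk2 : ∀ {s : Ty} {V : s.den → Prop} {w : s.den → ℕ} {F : s.den → P17_I.den},
      OC s P17_I V F w → OC s .nat V (fun x => P18_k2 (F x)) w :=
    fun hF => OC.nadd (OC.nadd (OC.fst (OC.fst (OC.fst hF))) (OC.fst (OC.fst (OC.fst hF))))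
      (OC.snd (OC.fst (OC.snd (OC.fst (OC.snd (OC.snd hF))))))
  refine OC.let_ (w' := fun p => P18_W mm p.1) (P18_ocGX mm G hG) ?_ 1
    fun z _ => P18_ar5 _
  refine OC.let_ (w' := fun p => P18_W mm p.1.1)
    (A := fun p : (Ty.prod P17_I MatT).den => P18_GY G p.1) ?_ ?_ 1
    fun z _ => P18_ar5 _
  · exact OC.comp (s := .prod P17_I MatT) (u := P17_I) (w := fun p => P18_W mm p.1)
      (F := fun p : (Ty.prod P17_I MatT).den => p.1) (P18_ocGY mm G hG) (OC.fst OC.id)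
      (fun z hz => hz.1) 1 fun z _ => P18_ar5 _
  refine OC.pair ?_ ?_
  · exact OC.comp (s := .prod (.prod P17_I MatT) MatT) (u := .prod (.prod .nat .nat) MatT)
      (w := fun p => P18_W mm p.1.1)
      (F := fun p : (Ty.prod (Ty.prod P17_I MatT) MatT).den =>
        ((p.1.1.1.1.2 + 2, P18_k2 p.1.1), p.2)) hGi
      (OC.pair (OC.pair (hs (OC.fst (OC.fst OC.id))) (hk2 (OC.fst (OC.fst OC.id))))
        (OC.snd OC.id)) (fun _ _ => trivial) 1 fun p _ => P18_ar4 le_rfl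
  · refine OC.comp (s := .prod (.prod P17_I MatT) MatT) (u := .prod (.prod .nat .nat) MatT)
      (w := fun p => P18_W mm p.1.1)
      (F := fun p : (Ty.prod (Ty.prod P17_I MatT) MatT).den =>
        ((p.1.1.1.1.2 + 2, P18_k2 p.1.1), P18_H2 Fd (p.1.1, (p.1.2, p.2)))) hGi
      (OC.pair (OC.pair (hs (OC.fst (OC.fst OC.id))) (hk2 (OC.fst (OC.fst OC.id))))
        ?_) (fun _ _ => trivial) 1 fun p _ => P18_ar4 le_rfl
    refine OC.comp (s := .prod (.prod P17_I MatT) MatT) (u := .prod P17_I (.prod MatT MatT))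
      (w := fun p => P18_W mm p.1.1)
      (F := fun p : (Ty.prod (Ty.prod P17_I MatT) MatT).den =>
        (p.1.1, (p.1.2, p.2))) (P18_ocH2 mm hmono hsq Fd hFd)
      (OC.pair (OC.fst (OC.fst OC.id)) (OC.pair (OC.snd (OC.fst OC.id)) (OC.snd OC.id)))
      (fun p hp => hp.1.1) 1 fun p _ => P18_ar4 (by nlinarith)

theorem P18_ocF (G : P16_T.den → MatT.den)
    (hG : OC P16_T MatT (fun x => x.1.1.1 ≤ 2 ^ x.1.1.2 ∧ x.1.2 ≤ 2 ^ x.1.1.2) G
      (fun x => mm (2 ^ x.1.1.2) + P16_light x.2.1 x.2.2.1 + x.2.1.1))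
    (Fd : P14_TD.den → MatT.den) (hmono : Monotone mm) (hsq : ∀ m, (m + 1) ^ 2 ≤ mm m)
    (hFd : OC P14_TD MatT (fun _ => True) Fd (fun x => mm (max x.1.1 (max x.1.2.1 x.1.2.2))))
    (Gi : (Ty.prod (.prod .nat .nat) MatT).den → MatT.den)
    (hGi : OC (.prod (.prod .nat .nat) MatT) MatT (fun _ => True) Gi
      (fun x => (x.1.1 + 1) * mm (2 ^ x.1.1))) :
    OC P17_I BaseT (fun y => y.1.1.1 ≤ 2 ^ y.1.1.2 ∧ y.2.2.1.2.1.1 ≤ y.1.1.1 ∧
      y.2.2.1.2.1.2 ≤ y.1.1.1) (P18_F G Fd Gi) (P18_W mm) := by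
  refine OC.pair (OC.pair (OC.nlit 0) P18_ock2)
    (OC.ifN (P18_lift mm P18_ocb3) (OC.nlit 1)
      (OC.ifN (OC.fst (P18_lift mm P17_ocnR)) (OC.nadd (OC.fst (OC.fst (OC.fst OC.id)))
      (OC.nlit 1)) (OC.ifN (OC.fst (P18_lift mm P17_ocnC))
        (OC.nadd (OC.fst (OC.fst (OC.fst OC.id))) (OC.nlit 1))
        (OC.pair (P18_lift mm P17_ocYl)
          ((P18_ocZZ mm G hG Fd hmono hsq hFd Gi hGi).weaken fun y hy =>
            ⟨(P18_b3_iff y).1 hy.1.1.2, hy.1.1.1⟩))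
        (OC.dflt _)) (OC.dflt _)) (OC.dflt _))

include hMul hmono hsq hdbl in
/-- Base data of mode 3.  Input `(((h, s), t), (λ, (x, (fr, fc))))`. -/
theorem base3_prog : ∃ F : P17_I.den → BaseT.den,
    OC P17_I BaseT (fun x => x.1.1.1 ≤ 2 ^ x.1.1.2 ∧
        x.2.2.1.2.1.1 ≤ x.1.1.1 ∧ x.2.2.1.2.1.2 ≤ x.1.1.1) F
      (fun x => (x.1.1.2 + 3) * mm (2 ^ (x.1.1.2 + 2)) +
        (x.1.2 + 1) * (opRest x.2.2.1 x.2.2.2.1 x.2.2.2.2 + 1) + opSize x.2.2.1) ∧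
    (∀ h s t lam x fr fc, OpOK x → 1 ≤ h → h ≤ 2 ^ s → x.2.1.1 ≤ h → x.2.1.2 ≤ h →
      opCore x fr fc t h → 0 ≤ lam →
      ∀ (X : Matrix (Fin (opR x)) (Fin (opC x)) ℝ) (y : BaseT.den)
        (Y : Matrix (Fin (opC x)) (Fin y.1.2) ℝ), X = toM _ _ (opA x) →
        y = F (((h, s), t), (lam, (x, (fr, fc)))) → Y = toM (opC x) y.1.2 (cooA y.2.1) →
        (∃ W : Matrix (Fin (opR x)) (Fin y.1.2) ℝ, X = W * Yᵀ) ∧
        (toM y.1.2 y.1.2 y.2.2.1)ᵀ = toM y.1.2 y.1.2 y.2.2.1 ∧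
        (toM y.1.2 y.1.2 y.2.2.2)ᵀ = toM y.1.2 y.1.2 y.2.2.2 ∧
        (Yᵀ * Y) * toM y.1.2 y.1.2 y.2.2.1 * (Yᵀ * Y) = Yᵀ * Y ∧
        (Yᵀ * gram X lam * Y) * toM y.1.2 y.1.2 y.2.2.2 * (Yᵀ * gram X lam * Y) =
          Yᵀ * gram X lam * Y) ∧
    ∀ h s t lam x fr fc,
      (F (((h, s), t), (lam, (x, (fr, fc))))).1 = (0, 2 * h + x.2.1.2) ∧
      (F (((h, s), t), (lam, (x, (fr, fc))))).2.1.1 ≤ opSize x ∧
      (OpOK x → 1 ≤ h → CooOK (opC x) (2 * h + x.2.1.2)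
        (F (((h, s), t), (lam, (x, (fr, fc))))).2.1) := by
  obtain ⟨G, hG, hGv⟩ := gramS_prog Mul mm hMul hmono hsq
  obtain ⟨Fd, hFd, hFdv⟩ := dmul_prog Mul mm hMul hmono hsq
  obtain ⟨Gi, hGi, hGiv⟩ := ginv_prog Mul mm hMul hmono hsq hdbl
  refine ⟨P18_F G Fd Gi, P18_ocF mm G hG Fd hmono hsq hFd Gi hGi, ?_, ?_⟩
  · intro h s t lam x fr fc hok h1 hs hm1 hm2 hcore hlam X y Y hX hy hY
    obtain ⟨I, hI⟩ : ∃ I : P17_I.den, I = (((h, s), t), (lam, (x, (fr, fc)))) := ⟨_, rfl⟩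
    have hVI : P18_V I := by rw [hI]; exact ⟨hok, hs, hm1, hm2⟩
    have hnR : (P17_nR I).1 ≤ I.1.1.1 := by
      rw [P17_nR_card, hI]; exact hcore.1
    have hnC : (P17_nC I).1 ≤ I.1.1.1 := by
      rw [P17_nC_card, hI]; exact hcore.2
    have H := P17_H_of I hVI.1 (by rw [hI]; exact h1) hnR hnC
    have hy' : y = ((0, P18_k2 I), (P17_Yl I, P18_ZZ G Fd Gi I)) := by
      rw [hy, ← hI]
      unfold P18_F
      rw [if_pos ((P18_b3_iff I).2 hVI.1), if_pos (Nat.lt_succ_of_le hnR),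
        if_pos (Nat.lt_succ_of_le hnC)]
    have hx : I.2.2.1 = x := by rw [hI]
    have hl : I.2.1 = lam := by rw [hI]
    have hs' : I.1.1.2 = s := by rw [hI]
    clear hy hI
    subst hx
    subst hl
    subst hy'
    have hYok : CooOK (opC I.2.2.1) (P18_k2 I) (P17_Yl I) := P17_Yok H
    have hXok : CooOK (opR I.2.2.1) (P18_k1 I) (P17_Xl I) := P17_Xok H
    obtain ⟨Xm, hXm⟩ : ∃ Xm : Matrix (Fin (opR I.2.2.1)) (Fin (P18_k1 I)) ℝ,
      Xm = toM (opR I.2.2.1) (P18_k1 I) (cooA (P17_Xl I)) := ⟨_, rfl⟩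
    have hfact : X = Xm * P18_J I * Yᵀ := by
      rw [hX, hXm, hY]
      exact P17_fact H
    have hGX : toM (P18_k1 I) (P18_k1 I) (P18_GX G I) = Xmᵀ * Xm := by
      rw [hXm]
      exact hGv (P18_k1 I) (I.1.1.2 + 2) I.1.1.1 (opR I.2.2.1) (P17_Xl I) (P17_fR I)
        (P17_nR I).2.1 hXok H.bR H.iR
    have hGY : toM (P18_k2 I) (P18_k2 I) (P18_GY G I) = Yᵀ * Y := by
      rw [hY]
      exact hGv (P18_k2 I) (I.1.1.2 + 2) I.1.1.1 (opC I.2.2.1) (P17_Yl I) (P17_fC I)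
        (P17_nC I).2.1 hYok H.bC H.iC
    have hgram : ∀ c : ℝ, Yᵀ * gram X c * Y = (X * Y)ᵀ * (X * Y) + c • (Yᵀ * Y) := by
      intro c
      rw [gram, Matrix.mul_add, Matrix.add_mul, Matrix.mul_smul, Matrix.mul_one,
        Matrix.smul_mul, transpose_mul]
      simp only [Matrix.mul_assoc]
    have hH2 : toM (P18_k2 I) (P18_k2 I) (P18_H2 Fd (I, (P18_GX G I, P18_GY G I))) =
        Yᵀ * gram X I.2.1 * Y := by
      rw [P18_H2_val Fd hFdv, hGX, hGY, hgram]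
      congr 1
      have e1 : X * Y = Xm * (P18_J I * (Yᵀ * Y)) := by
        rw [hfact]
        simp only [Matrix.mul_assoc]
      rw [e1, transpose_mul (M := Xm)]
      simp only [Matrix.mul_assoc]
    have hps1 : (toM (P18_k2 I) (P18_k2 I) (P18_GY G I)).PosSemidef := by
      rw [hGY]
      have := posSemidef_conjTranspose_mul_self Y
      rwa [conjTranspose_eq_transpose_of_trivial] at this
    have hps2 : (toM (P18_k2 I) (P18_k2 I)
        (P18_H2 Fd (I, (P18_GX G I, P18_GY G I)))).PosSemidef := by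
      rw [hH2, hgram]
      have h1 := posSemidef_conjTranspose_mul_self (X * Y)
      have h2 := posSemidef_conjTranspose_mul_self Y
      rw [conjTranspose_eq_transpose_of_trivial] at h1 h2
      exact h1.add (h2.smul hlam)
    obtain ⟨a1, a2⟩ := hGiv (I.1.1.2 + 2) (P18_k2 I) (P18_GY G I) (P18_k2_le I hVI) hps1
    obtain ⟨b1, b2⟩ := hGiv (I.1.1.2 + 2) (P18_k2 I) (P18_H2 Fd (I, (P18_GX G I, P18_GY G I)))
      (P18_k2_le I hVI) hps2
    rw [hGY] at a2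
    rw [hH2] at b2
    exact ⟨⟨Xm * P18_J I, hfact⟩, a1, b1, a2, b2⟩
  · intro h s t lam x fr fc
    obtain ⟨I, hI⟩ : ∃ I : P17_I.den, I = (((h, s), t), (lam, (x, (fr, fc)))) := ⟨_, rfl⟩
    rw [← hI]
    have e0 : (P18_F G Fd Gi I).2 = if P18_b3 I < 1 then (if (P17_nR I).1 < I.1.1.1 + 1 then
      (if (P17_nC I).1 < I.1.1.1 + 1 then (P17_Yl I, P18_ZZ G Fd Gi I) else P18_d) else P18_d)
      else P18_d := rfl
    refine ⟨?_, ?_, ?_⟩
    · rw [hI]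
      show (0, h + h + x.2.1.2) = (0, 2 * h + x.2.1.2)
      rw [two_mul]
    · rw [e0]
      have hd : P18_d.1.1 = 0 := rfl
      have hl := P17_Yl_len I
      have hx : I.2.2.1 = x := by rw [hI]
      rw [hx] at hl
      split_ifs
      · exact hl
      · rw [hd]; exact Nat.zero_le _
      · rw [hd]; exact Nat.zero_le _
      · rw [hd]; exact Nat.zero_le _
    · intro hok h1
      rw [e0]
      have hd : ∀ a b, CooOK a b P18_d.1 := fun a b e he => absurd he (Nat.not_lt_zero e)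
      split_ifs with h0 h2 h3
      · have H := P17_H_of I (by rw [hI]; exact hok) (by rw [hI]; exact h1)
          (Nat.lt_succ_iff.1 h2) (Nat.lt_succ_iff.1 h3)
        have := P17_Yok H
        rw [two_mul]
        have hx : I.2.2.1 = x := by rw [hI]
        have hh : I.1.1.1 = h := by rw [hI]
        clear hI
        subst hx
        subst hh
        exact this
      · exact hd _ _
      · exact hd _ _
      · exact hd _ _

end dense

end A56
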