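import Pool.Agent.Lib_helper50.A56.B.Coo
import Pool.Agent.Lib_helper50.A56.ProbIface
import Pool.Agent.Lib_helper50.A56.Alg
/-! # MP_a55cb8, block P4: the product `A Sᵀ` -/

open Matrix Finset

namespace A56

-- BEGIN COPY (definition of PStmt)
-- END COPY

abbrev P4_T : Ty := .prod (.prod .nat (.prod .nat .nat)) (.prod CooT CooT)

/-- row counts -/
def P4_cnt (A : CooT.den) : NArr.den :=
  iterV (fun e a => Function.update a (A.2.1 e) (a (A.2.1 e) + 1)) NArr.default A.1

/-- dense accumulation -/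
def P4_den (x : P4_T.den) : MatT.den :=
  iterV (fun e d => iterV (fun t d' => Function.update d' (x.2.1.2.1 e)
      (Function.update (d' (x.2.1.2.1 e)) (x.2.2.2.1 (t * x.1.1 + x.2.1.2.2.1 e))
        (d' (x.2.1.2.1 e) (x.2.2.2.1 (t * x.1.1 + x.2.1.2.2.1 e)) +
          x.2.1.2.2.2 e * x.2.2.2.2.2 (t * x.1.1 + x.2.1.2.2.1 e)))) d x.1.2.1)
    MatT.default x.2.1.1

/-- the entries of the light rows -/
def P4_light (x : P4_T.den) (c : NArr.den) : CooT.den :=
  iterV (fun e y => iterV (fun t z => cPush z (x.2.1.2.1 e)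
      (x.2.2.2.1 (t * x.1.1 + x.2.1.2.2.1 e))
      (x.2.1.2.2.2 e * x.2.2.2.2.2 (t * x.1.1 + x.2.1.2.2.1 e))) y
      (if x.2.1.2.1 e < x.1.1 then
        (if x.1.2.2 < x.1.2.1 * c (x.2.1.2.1 e) then 0 else x.1.2.1) else 0))
    CooT.default x.2.1.1

/-- the entries of the heavy rows -/
def P4_heavy (x : P4_T.den) (c : NArr.den) (d : MatT.den) (l : CooT.den) : CooT.den :=
  iterV (fun i y => iterV (fun p z => cPush z i p (d i p)) y
      (if x.1.2.2 < x.1.2.1 * c i then x.1.2.2 else 0)) l x.1.1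

def P4_F (x : P4_T.den) : CooT.den :=
  letV (P4_cnt x.2.1) fun c => P4_heavy x c (P4_den x) (P4_light x c)

def P4_w (x : P4_T.den) : ℕ := (x.1.2.1 + 1) * (x.2.1.1 + 1) + x.1.1

/-! ## costs -/

theorem P4_ocCnt : OC CooT NArr (fun _ => True) P4_cnt (fun x => x.1) := by
  refine OC.iter0 (s := CooT) (t := NArr) (N := fun x => x.1) (A := fun _ => NArr.default)
    (B := fun x e a => Function.update a (x.2.1 e) (a (x.2.1 e) + 1))
    (OC.fst OC.id) (OC.dflt NArr) ?_ 1 (fun x _ => by omega)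
  have he : OC (.prod CooT (.prod .nat NArr)) .nat (fun _ => True)
      (fun p => p.2.1) (fun _ => 0) := OC.fst (OC.snd OC.id)
  have ha : OC (.prod CooT (.prod .nat NArr)) NArr (fun _ => True)
      (fun p => p.2.2) (fun _ => 0) := OC.snd (OC.snd OC.id)
  have hr : OC (.prod CooT (.prod .nat NArr)) .nat (fun _ => True)
      (fun p => p.1.2.1 p.2.1) (fun _ => 0) := OC.get (OC.fst (OC.snd (OC.fst OC.id))) he
  exact OC.upd ha hr (OC.nadd (OC.get ha hr) (OC.nlit 1))

theorem P4_ocDen : OC P4_T MatT (fun _ => True) P4_den P4_w := by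
  refine OC.iter (s := P4_T) (t := MatT) (N := fun x => x.2.1.1) (A := fun _ => MatT.default)
    (B := fun x e d => iterV (fun t d' => Function.update d' (x.2.1.2.1 e)
      (Function.update (d' (x.2.1.2.1 e)) (x.2.2.2.1 (t * x.1.1 + x.2.1.2.2.1 e))
        (d' (x.2.1.2.1 e) (x.2.2.2.1 (t * x.1.1 + x.2.1.2.2.1 e)) +
          x.2.1.2.2.2 e * x.2.2.2.2.2 (t * x.1.1 + x.2.1.2.2.1 e)))) d x.1.2.1)
    (w' := fun p => p.1.1.2.1)
    (OC.fst (OC.fst (OC.snd OC.id))) (OC.dflt MatT) ?_ 1 ?_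
  · refine OC.iter0 (s := .prod P4_T (.prod .nat MatT)) (t := MatT)
      (N := fun p => p.1.1.2.1) (A := fun p => p.2.2)
      (B := fun p t d' => Function.update d' (p.1.2.1.2.1 p.2.1)
        (Function.update (d' (p.1.2.1.2.1 p.2.1))
          (p.1.2.2.2.1 (t * p.1.1.1 + p.1.2.1.2.2.1 p.2.1))
          (d' (p.1.2.1.2.1 p.2.1) (p.1.2.2.2.1 (t * p.1.1.1 + p.1.2.1.2.2.1 p.2.1)) +
            p.1.2.1.2.2.2 p.2.1 * p.1.2.2.2.2.2 (t * p.1.1.1 + p.1.2.1.2.2.1 p.2.1))))
      (OC.fst (OC.snd (OC.fst (OC.fst OC.id)))) (OC.snd (OC.snd OC.id)) ?_ 1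
      (fun x _ => by omega)
    refine OC.weaken (V := fun _ => True) ?_ fun _ _ => trivial
    have hx : OC (.prod (.prod P4_T (.prod .nat MatT)) (.prod .nat MatT)) P4_T (fun _ => True)
        (fun q => q.1.1) (fun _ => 0) := OC.fst (OC.fst OC.id)
    have he : OC (.prod (.prod P4_T (.prod .nat MatT)) (.prod .nat MatT)) .nat (fun _ => True)
        (fun q => q.1.2.1) (fun _ => 0) := OC.fst (OC.snd (OC.fst OC.id))
    have ht : OC (.prod (.prod P4_T (.prod .nat MatT)) (.prod .nat MatT)) .nat (fun _ => True)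
        (fun q => q.2.1) (fun _ => 0) := OC.fst (OC.snd OC.id)
    have hd : OC (.prod (.prod P4_T (.prod .nat MatT)) (.prod .nat MatT)) MatT (fun _ => True)
        (fun q => q.2.2) (fun _ => 0) := OC.snd (OC.snd OC.id)
    have hr := OC.get (OC.fst (OC.snd (OC.fst (OC.snd hx)))) he
    have hc := OC.get (OC.fst (OC.snd (OC.snd (OC.fst (OC.snd hx))))) he
    have hv := OC.get (OC.snd (OC.snd (OC.snd (OC.fst (OC.snd hx))))) he
    have hi := OC.nadd (OC.nmul ht (OC.fst (OC.fst hx))) hc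
    have hp := OC.get (OC.fst (OC.snd (OC.snd (OC.snd hx)))) hi
    have hs := OC.get (OC.snd (OC.snd (OC.snd (OC.snd (OC.snd hx))))) hi
    exact OC.upd hd hr (OC.upd (OC.get hd hr) hp (OC.add (OC.get (OC.get hd hr) hp) (OC.mul hv hs)))
  · intro x _
    simp only [sum_const, card_range, smul_eq_mul]
    unfold P4_w
    nlinarith [Nat.zero_le x.1.1]

theorem P4_ocLight : OC (.prod P4_T NArr) CooT (fun _ => True) (fun y => P4_light y.1 y.2)
    (fun y => P4_w y.1) := by
  refine OC.iter (s := .prod P4_T NArr) (t := CooT) (N := fun y => y.1.2.1.1)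
    (A := fun _ => CooT.default)
    (B := fun x e y => iterV (fun t z => cPush z (x.1.2.1.2.1 e)
      (x.1.2.2.2.1 (t * x.1.1.1 + x.1.2.1.2.2.1 e))
      (x.1.2.1.2.2.2 e * x.1.2.2.2.2.2 (t * x.1.1.1 + x.1.2.1.2.2.1 e))) y
      (if x.1.2.1.2.1 e < x.1.1.1 then
        (if x.1.1.2.2 < x.1.1.2.1 * x.2 (x.1.2.1.2.1 e) then 0 else x.1.1.2.1) else 0))
    (w' := fun p => p.1.1.1.2.1)
    (OC.fst (OC.fst (OC.snd (OC.fst OC.id)))) (OC.dflt CooT) ?_ 1 ?_
  · refine OC.iter0 (s := .prod (.prod P4_T NArr) (.prod .nat CooT)) (t := CooT)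
      (N := fun p => (if p.1.1.2.1.2.1 p.2.1 < p.1.1.1.1 then
        (if p.1.1.1.2.2 < p.1.1.1.2.1 * p.1.2 (p.1.1.2.1.2.1 p.2.1) then 0
          else p.1.1.1.2.1) else 0)) (A := fun p => p.2.2)
      (B := fun p t z => cPush z (p.1.1.2.1.2.1 p.2.1)
        (p.1.1.2.2.2.1 (t * p.1.1.1.1 + p.1.1.2.1.2.2.1 p.2.1))
        (p.1.1.2.1.2.2.2 p.2.1 * p.1.1.2.2.2.2.2 (t * p.1.1.1.1 + p.1.1.2.1.2.2.1 p.2.1)))
      ?_ (OC.snd (OC.snd OC.id)) ?_ 1
      (fun x _ => by split_ifs <;> omega)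
    · refine OC.weaken (V := fun _ => True) ?_ fun _ _ => trivial
      have hx : OC (.prod (.prod P4_T NArr) (.prod .nat CooT)) P4_T (fun _ => True)
          (fun q => q.1.1) (fun p => p.1.1.1.2.1) := OC.fst (OC.fst OC.id)
      have hcn : OC (.prod (.prod P4_T NArr) (.prod .nat CooT)) NArr (fun _ => True)
          (fun q => q.1.2) (fun p => p.1.1.1.2.1) := OC.snd (OC.fst OC.id)
      have he : OC (.prod (.prod P4_T NArr) (.prod .nat CooT)) .nat (fun _ => True)
          (fun q => q.2.1) (fun p => p.1.1.1.2.1) := OC.fst (OC.snd OC.id)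
      have hr := OC.get (OC.fst (OC.snd (OC.fst (OC.snd hx)))) he
      have hJ := OC.fst (OC.snd (OC.fst hx))
      exact OC.ifN hr (OC.fst (OC.fst hx))
        (OC.weaken (OC.ifN (OC.snd (OC.snd (OC.fst hx))) (OC.nmul hJ (OC.get hcn hr))
          (OC.nlit 0) (OC.weaken hJ fun _ _ => trivial)) fun _ _ => trivial) (OC.nlit 0)
    · refine OC.weaken (V := fun _ => True) ?_ fun _ _ => trivial
      have hx : OC (.prod (.prod (.prod P4_T NArr) (.prod .nat CooT)) (.prod .nat CooT)) P4_T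
          (fun _ => True) (fun q => q.1.1.1) (fun _ => 0) := OC.fst (OC.fst (OC.fst OC.id))
      have he : OC (.prod (.prod (.prod P4_T NArr) (.prod .nat CooT)) (.prod .nat CooT)) .nat
          (fun _ => True) (fun q => q.1.2.1) (fun _ => 0) := OC.fst (OC.snd (OC.fst OC.id))
      have ht : OC (.prod (.prod (.prod P4_T NArr) (.prod .nat CooT)) (.prod .nat CooT)) .nat
          (fun _ => True) (fun q => q.2.1) (fun _ => 0) := OC.fst (OC.snd OC.id)
      have hz : OC (.prod (.prod (.prod P4_T NArr) (.prod .nat CooT)) (.prod .nat CooT)) CooT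
          (fun _ => True) (fun q => q.2.2) (fun _ => 0) := OC.snd (OC.snd OC.id)
      have hr := OC.get (OC.fst (OC.snd (OC.fst (OC.snd hx)))) he
      have hc := OC.get (OC.fst (OC.snd (OC.snd (OC.fst (OC.snd hx))))) he
      have hv := OC.get (OC.snd (OC.snd (OC.snd (OC.fst (OC.snd hx))))) he
      have hi := OC.nadd (OC.nmul ht (OC.fst (OC.fst hx))) hc
      have hp := OC.get (OC.fst (OC.snd (OC.snd (OC.snd hx)))) hi
      have hs := OC.get (OC.snd (OC.snd (OC.snd (OC.snd (OC.snd hx))))) hi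
      exact OC.push hz hr hp (OC.mul hv hs)
  · intro x _
    simp only [sum_const, card_range, smul_eq_mul]
    unfold P4_w
    nlinarith [Nat.zero_le x.1.1.1]

theorem P4_cnt_spec (A : CooT.den) (i : ℕ) : P4_cnt A i = rowCnt A i := by
  have key : ∀ N : ℕ, iterV (fun e a => Function.update a (A.2.1 e) (a (A.2.1 e) + 1))
      NArr.default N i = ((range N).filter fun e => A.2.1 e = i).card := by
    intro N
    induction N with
    | zero => rfl
    | succ N ih =>
      rw [iterV_succ, range_add_one, filter_insert]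
      by_cases h : A.2.1 N = i
      · rw [if_pos h, card_insert_of_notMem (by simp), ← ih, ← h, Function.update_self]
      · rw [if_neg h, Function.update_of_ne (fun h' => h h'.symm), ih]
  exact key A.1

theorem P4_cnt_sum (A : CooT.den) (n : ℕ) : ∑ i ∈ range n, rowCnt A i ≤ A.1 := by
  unfold rowCnt
  simp only [card_filter]
  rw [sum_comm]
  calc ∑ e ∈ range A.1, ∑ i ∈ range n, (if A.2.1 e = i then 1 else 0)
      ≤ ∑ e ∈ range A.1, 1 := sum_le_sum fun e _ => by
        rw [sum_ite_eq]; split_ifs <;> first | exact le_rfl | exact Nat.zero_le _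
    _ = A.1 := by simp

theorem P4_arith (J len n s : ℕ) (h : J * s ≤ J * len) :
    J * s + n ≤ 1 * ((J + 1) * (len + 1) + n + 1) := by nlinarith

theorem P4_ocHeavy : OC (.prod (.prod P4_T NArr) (.prod MatT CooT)) CooT
    (fun y => y.1.2 = P4_cnt y.1.1.2.1) (fun y => P4_heavy y.1.1 y.1.2 y.2.1 y.2.2)
    (fun y => P4_w y.1.1) := by
  refine OC.iter (s := .prod (.prod P4_T NArr) (.prod MatT CooT)) (t := CooT)
    (N := fun y => y.1.1.1.1) (A := fun y => y.2.2)
    (B := fun x i y => iterV (fun p z => cPush z i p (x.2.1 i p)) y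
      (if x.1.1.1.2.2 < x.1.1.1.2.1 * x.1.2 i then x.1.1.1.2.2 else 0))
    (w' := fun q => if q.1.1.1.1.2.2 < q.1.1.1.1.2.1 * q.1.1.2 q.2.1 then q.1.1.1.1.2.2 else 0)
    (OC.fst (OC.fst (OC.fst (OC.fst OC.id)))) (OC.snd (OC.snd OC.id)) ?_ 1 ?_
  · refine OC.iter0 (s := .prod (.prod (.prod P4_T NArr) (.prod MatT CooT)) (.prod .nat CooT))
      (t := CooT)
      (N := fun q => if q.1.1.1.1.2.2 < q.1.1.1.1.2.1 * q.1.1.2 q.2.1
        then q.1.1.1.1.2.2 else 0) (A := fun q => q.2.2)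
      (B := fun q p z => cPush z q.2.1 p (q.1.2.1 q.2.1 p)) ?_ (OC.snd (OC.snd OC.id)) ?_ 1
      (fun x _ => by omega)
    · refine OC.weaken (V := fun _ => True) ?_ fun _ _ => trivial
      have hm : OC (.prod (.prod (.prod P4_T NArr) (.prod MatT CooT)) (.prod .nat CooT)) .nat
          (fun _ => True) (fun q => q.1.1.1.1.2.2) (fun q => if q.1.1.1.1.2.2 <
            q.1.1.1.1.2.1 * q.1.1.2 q.2.1 then q.1.1.1.1.2.2 else 0) :=
        OC.snd (OC.snd (OC.fst (OC.fst (OC.fst (OC.fst OC.id)))))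
      have hJ : OC (.prod (.prod (.prod P4_T NArr) (.prod MatT CooT)) (.prod .nat CooT)) .nat
          (fun _ => True) (fun q => q.1.1.1.1.2.1) (fun q => if q.1.1.1.1.2.2 <
            q.1.1.1.1.2.1 * q.1.1.2 q.2.1 then q.1.1.1.1.2.2 else 0) :=
        OC.fst (OC.snd (OC.fst (OC.fst (OC.fst (OC.fst OC.id)))))
      have hc : OC (.prod (.prod (.prod P4_T NArr) (.prod MatT CooT)) (.prod .nat CooT)) NArr
          (fun _ => True) (fun q => q.1.1.2) (fun q => if q.1.1.1.1.2.2 <
            q.1.1.1.1.2.1 * q.1.1.2 q.2.1 then q.1.1.1.1.2.2 else 0) :=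
        OC.snd (OC.fst (OC.fst OC.id))
      exact OC.ifN hm (OC.nmul hJ (OC.get hc (OC.fst (OC.snd OC.id))))
        (OC.weaken hm fun _ _ => trivial) (OC.nlit 0)
    · refine OC.weaken (V := fun _ => True) ?_ fun _ _ => trivial
      have hi : OC (.prod (.prod (.prod (.prod P4_T NArr) (.prod MatT CooT)) (.prod .nat CooT))
          (.prod .nat CooT)) .nat (fun _ => True) (fun r => r.1.2.1) (fun _ => 0) :=
        OC.fst (OC.snd (OC.fst OC.id))
      have hp : OC (.prod (.prod (.prod (.prod P4_T NArr) (.prod MatT CooT)) (.prod .nat CooT))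
          (.prod .nat CooT)) .nat (fun _ => True) (fun r => r.2.1) (fun _ => 0) :=
        OC.fst (OC.snd OC.id)
      have hz : OC (.prod (.prod (.prod (.prod P4_T NArr) (.prod MatT CooT)) (.prod .nat CooT))
          (.prod .nat CooT)) CooT (fun _ => True) (fun r => r.2.2) (fun _ => 0) :=
        OC.snd (OC.snd OC.id)
      have hd : OC (.prod (.prod (.prod (.prod P4_T NArr) (.prod MatT CooT)) (.prod .nat CooT))
          (.prod .nat CooT)) MatT (fun _ => True) (fun r => r.1.1.2.1) (fun _ => 0) :=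
        OC.fst (OC.snd (OC.fst (OC.fst OC.id)))
      exact OC.push hz hi hp (OC.get (OC.get hd hi) hp)
  · intro x hx
    simp only
    have h1 : ∀ i ∈ range x.1.1.1.1, ((if x.1.1.1.2.2 < x.1.1.1.2.1 * x.1.2 i then
        x.1.1.1.2.2 else 0) + 1) ≤ x.1.1.1.2.1 * rowCnt x.1.1.2.1 i + 1 := by
      intro i _
      rw [hx, P4_cnt_spec]
      split_ifs with h
      · exact Nat.add_le_add_right h.le 1
      · exact Nat.add_le_add_right (Nat.zero_le _) 1
    refine (sum_le_sum h1).trans ?_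
    rw [sum_add_distrib, ← mul_sum, sum_const, card_range, smul_eq_mul, mul_one]
    exact P4_arith _ _ _ _ (Nat.mul_le_mul_left x.1.1.1.2.1 (P4_cnt_sum x.1.1.2.1 x.1.1.1.1))

theorem P4_oc : OC P4_T CooT (fun _ => True) P4_F P4_w := by
  refine OC.let_ (s := P4_T) (u := NArr) (t := CooT) (A := fun x => P4_cnt x.2.1)
    (B := fun x c => P4_heavy x c (P4_den x) (P4_light x c)) (w' := fun p => P4_w p.1) ?_ ?_ 1
    (fun x _ => by show P4_w x ≤ 1 * (P4_w x + 1); omega)
  · exact OC.comp (W := fun _ => True) P4_ocCnt (OC.fst (OC.snd OC.id)) (fun _ _ => trivial) 1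
      (fun x _ => by unfold P4_w; nlinarith [Nat.zero_le (x.1.2.1 * x.2.1.1)])
  · have h1 : OC (.prod P4_T NArr) MatT (fun p => True ∧ p.2 = P4_cnt p.1.2.1)
        (fun p => P4_den p.1) (fun p => P4_w p.1) :=
      OC.comp (W := fun _ => True) P4_ocDen (OC.fst OC.id) (fun _ _ => trivial) 1
        (fun x _ => by omega)
    have h2 : OC (.prod P4_T NArr) CooT (fun p => True ∧ p.2 = P4_cnt p.1.2.1)
        (fun p => P4_light p.1 p.2) (fun p => P4_w p.1) :=
      OC.weaken P4_ocLight fun _ _ => trivial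
    exact OC.comp (s := .prod P4_T NArr) (u := .prod (.prod P4_T NArr) (.prod MatT CooT))
      (F := fun p => (p, (P4_den p.1, P4_light p.1 p.2))) P4_ocHeavy
      (OC.pair OC.id (OC.pair h1 h2)) (fun x hx => hx.2) 1 (fun x _ => by simp only; omega)

/-! ## values -/

theorem P4_den_spec (x : P4_T.den) (i p : ℕ) : P4_den x i p =
    ∑ e ∈ range x.2.1.1, ∑ t ∈ range x.1.2.1,
      (if x.2.1.2.1 e = i ∧ x.2.2.2.1 (t * x.1.1 + x.2.1.2.2.1 e) = p then
        x.2.1.2.2.2 e * x.2.2.2.2.2 (t * x.1.1 + x.2.1.2.2.1 e) else 0) := by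
  have inner : ∀ (e : ℕ) (d : MatT.den) (N : ℕ),
      iterV (α := MatT.den) (fun t d' => Function.update d' (x.2.1.2.1 e)
      (Function.update (d' (x.2.1.2.1 e)) (x.2.2.2.1 (t * x.1.1 + x.2.1.2.2.1 e))
        (d' (x.2.1.2.1 e) (x.2.2.2.1 (t * x.1.1 + x.2.1.2.2.1 e)) +
          x.2.1.2.2.2 e * x.2.2.2.2.2 (t * x.1.1 + x.2.1.2.2.1 e)))) d N i p =
      d i p + ∑ t ∈ range N,
        (if x.2.1.2.1 e = i ∧ x.2.2.2.1 (t * x.1.1 + x.2.1.2.2.1 e) = p then
        x.2.1.2.2.2 e * x.2.2.2.2.2 (t * x.1.1 + x.2.1.2.2.1 e) else 0) := by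
    intro e d N
    induction N with
    | zero => simp
    | succ N ih =>
      rw [iterV_succ, sum_range_succ, ← add_assoc, ← ih]
      by_cases h1 : x.2.1.2.1 e = i
      · rw [h1, Function.update_self]
        by_cases h2 : x.2.2.2.1 (N * x.1.1 + x.2.1.2.2.1 e) = p
        · rw [h2, Function.update_self, if_pos ⟨rfl, rfl⟩]
        · rw [Function.update_of_ne (fun h => h2 h.symm), if_neg (fun h => h2 h.2), add_zero]
      · rw [Function.update_of_ne (fun h => h1 h.symm), if_neg (fun h => h1 h.1), add_zero]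
  have outer : ∀ N : ℕ, iterV (α := MatT.den) (fun e d => iterV (fun t d' => Function.update d' (x.2.1.2.1 e)
      (Function.update (d' (x.2.1.2.1 e)) (x.2.2.2.1 (t * x.1.1 + x.2.1.2.2.1 e))
        (d' (x.2.1.2.1 e) (x.2.2.2.1 (t * x.1.1 + x.2.1.2.2.1 e)) +
          x.2.1.2.2.2 e * x.2.2.2.2.2 (t * x.1.1 + x.2.1.2.2.1 e)))) d x.1.2.1)
      MatT.default N i p = ∑ e ∈ range N, ∑ t ∈ range x.1.2.1,
      (if x.2.1.2.1 e = i ∧ x.2.2.2.1 (t * x.1.1 + x.2.1.2.2.1 e) = p then
        x.2.1.2.2.2 e * x.2.2.2.2.2 (t * x.1.1 + x.2.1.2.2.1 e) else 0) := by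
    intro N
    induction N with
    | zero => rfl
    | succ N ih => rw [iterV_succ, inner, ih, sum_range_succ]
  exact outer _

section

variable {M : Type*} [AddCommMonoid M]

theorem P4_sumLight (g : ℕ → ℕ → ℝ → M) (x : P4_T.den) (c : NArr.den) :
    cSum g (P4_light x c) = ∑ e ∈ range x.2.1.1,
      ∑ t ∈ range (if x.2.1.2.1 e < x.1.1 then
        (if x.1.2.2 < x.1.2.1 * c (x.2.1.2.1 e) then 0 else x.1.2.1) else 0),
        g (x.2.1.2.1 e) (x.2.2.2.1 (t * x.1.1 + x.2.1.2.2.1 e))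
          (x.2.1.2.2.2 e * x.2.2.2.2.2 (t * x.1.1 + x.2.1.2.2.1 e)) := by
  unfold P4_light
  rw [cSum_iter g _ _ _ CooT.default, cSum_default, zero_add]
  intro e y
  refine cSum_iter g _ _ ?_ _ _
  intro t z
  exact cSum_push _ _ _ _ _

theorem P4_sumHeavy (g : ℕ → ℕ → ℝ → M) (x : P4_T.den) (c : NArr.den) (d : MatT.den)
    (l : CooT.den) : cSum g (P4_heavy x c d l) = cSum g l + ∑ i ∈ range x.1.1,
      ∑ p ∈ range (if x.1.2.2 < x.1.2.1 * c i then x.1.2.2 else 0), g i p (d i p) := by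
  unfold P4_heavy
  refine cSum_iter g _ _ ?_ l _
  intro i y
  refine cSum_iter g _ _ ?_ _ _
  intro t z
  exact cSum_push _ _ _ _ _

end

theorem P4_regroup (F : ℕ → ℕ → ℝ) (x : CooT.den) (a b : ℕ) (hx : CooOK a b x) :
    ∑ e ∈ range x.1, F (x.2.1 e) (x.2.2.1 e) * x.2.2.2 e =
      ∑ i ∈ range a, ∑ c ∈ range b, F i c * cooA x i c := by
  have h1 : ∀ i c, F i c * cooA x i c = ∑ e ∈ range x.1,
      (if x.2.1 e = i then (if x.2.2.1 e = c then F i c * x.2.2.2 e else 0) else 0) := by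
    intro i c
    unfold cooA
    rw [mul_sum]
    refine sum_congr rfl fun e _ => ?_
    by_cases h1 : x.2.1 e = i <;> by_cases h2 : x.2.2.1 e = c <;> simp [h1, h2]
  simp only [h1]
  have h2 : ∀ i, ∑ c ∈ range b, ∑ e ∈ range x.1,
      (if x.2.1 e = i then (if x.2.2.1 e = c then F i c * x.2.2.2 e else 0) else 0) =
      ∑ e ∈ range x.1, (if x.2.1 e = i then F i (x.2.2.1 e) * x.2.2.2 e else 0) := by
    intro i
    rw [sum_comm]
    refine sum_congr rfl fun e he => ?_
    have hok := hx e (mem_range.1 he)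
    split_ifs
    · rw [sum_ite_eq, if_pos (mem_range.2 hok.2)]
    · simp
  simp only [h2]
  rw [sum_comm]
  refine sum_congr rfl fun e he => ?_
  have hok := hx e (mem_range.1 he)
  rw [sum_ite_eq, if_pos (mem_range.2 hok.1)]

theorem P4_blocks (f : ℕ → ℝ) (J n : ℕ) :
    ∑ k ∈ range (J * n), f k = ∑ t ∈ range J, ∑ i ∈ range n, f (t * n + i) := by
  induction J with
  | zero => simp
  | succ J ih => rw [Nat.succ_mul, sum_range_add, ih, sum_range_succ]

theorem P4_skA (n J m : ℕ) (S : CooT.den) (hS : SkOK n J m S) (p c : ℕ) (hc : c < n) :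
    cooA S p c = ∑ t ∈ range J,
      if S.2.1 (t * n + c) = p then S.2.2.2 (t * n + c) else 0 := by
  unfold cooA
  rw [hS.1, P4_blocks]
  refine sum_congr rfl fun t ht => ?_
  have h1 : ∀ i ∈ range n, (if S.2.1 (t * n + i) = p ∧ S.2.2.1 (t * n + i) = c then
      S.2.2.2 (t * n + i) else 0) =
      if c = i then (if S.2.1 (t * n + i) = p then S.2.2.2 (t * n + i) else 0) else 0 := by
    intro i hi
    rw [(hS.2 t (mem_range.1 ht) i (mem_range.1 hi)).1]
    by_cases h2 : c = i
    · subst h2; simp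
    · rw [if_neg (fun h => h2 h.2.symm), if_neg h2]
  rw [sum_congr rfl h1, sum_ite_eq, if_pos (mem_range.2 hc)]

/-- the value of the dense entries -/
theorem P4_X (n J m : ℕ) (A S : CooT.den) (hA : CooOK n n A) (hS : SkOK n J m S) (i p : ℕ)
    (hi : i < n) :
    ∑ e ∈ range A.1, ∑ t ∈ range J,
      (if A.2.1 e = i ∧ S.2.1 (t * n + A.2.2.1 e) = p then
        A.2.2.2 e * S.2.2.2 (t * n + A.2.2.1 e) else 0) =
      ∑ c ∈ range n, cooA A i c * cooA S p c := by
  have h1 : ∑ c ∈ range n, cooA A i c * cooA S p c =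
      ∑ i' ∈ range n, ∑ c ∈ range n,
        ((if i = i' then 1 else 0) * cooA S p c) * cooA A i' c := by
    rw [sum_comm]
    refine sum_congr rfl fun c _ => ?_
    have h2 : ∀ i', ((if i = i' then 1 else 0) * cooA S p c) * cooA A i' c =
        if i = i' then cooA A i' c * cooA S p c else 0 := fun i' => by
      split_ifs <;> ring
    simp only [h2]
    rw [sum_ite_eq, if_pos (mem_range.2 hi)]
  rw [h1, ← P4_regroup (fun i' c => (if i = i' then 1 else 0) * cooA S p c) A n n hA]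
  refine sum_congr rfl fun e he => ?_
  have hok := hA e (mem_range.1 he)
  rw [P4_skA n J m S hS p _ hok.2]
  by_cases h : A.2.1 e = i
  · rw [if_pos h.symm, one_mul, sum_mul]
    refine sum_congr rfl fun t _ => ?_
    by_cases h3 : S.2.1 (t * n + A.2.2.1 e) = p
    · rw [if_pos ⟨h, h3⟩, if_pos h3]; ring
    · rw [if_neg (fun h => h3 h.2), if_neg h3]; ring
  · rw [if_neg (fun h' => h h'.symm), zero_mul, zero_mul]
    exact sum_eq_zero fun t _ => if_neg fun h' => h h'.1

/-- the product `A Sᵀ` with at most `min (J cnt) m` entries per row; input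
`((n, (J, m)), (A, S))` -/
theorem mkU_prog : ∃ F : (Ty.prod (.prod .nat (.prod .nat .nat)) (.prod CooT CooT)).den → CooT.den,
    OC _ CooT (fun _ => True) F (fun x => (x.1.2.1 + 1) * (x.2.1.1 + 1) + x.1.1) ∧
    ∀ n J m A S, CooOK n n A → SkOK n J m S →
      CooOK n m (F ((n, (J, m)), (A, S))) ∧
      (∀ i < n, ∀ p < m, cooA (F ((n, (J, m)), (A, S))) i p =
        ∑ c ∈ range n, cooA A i c * cooA S p c) ∧
      ∀ i < n, rowCnt (F ((n, (J, m)), (A, S))) i ≤ min (J * rowCnt A i) m := by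
  refine ⟨P4_F, P4_oc, fun n J m A S hA hS => ?_⟩
  set x : P4_T.den := ((n, (J, m)), (A, S)) with hx
  have hsum : ∀ {M : Type} [AddCommMonoid M] (g : ℕ → ℕ → ℝ → M), cSum g (P4_F x) =
      ∑ e ∈ range A.1, ∑ t ∈ range (if A.2.1 e < n then
        (if m < J * rowCnt A (A.2.1 e) then 0 else J) else 0),
        g (A.2.1 e) (S.2.1 (t * n + A.2.2.1 e)) (A.2.2.2 e * S.2.2.2 (t * n + A.2.2.1 e)) +
      ∑ i ∈ range n, ∑ p ∈ range (if m < J * rowCnt A i then m else 0),
        g i p (P4_den x i p) := by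
    intro M _ g
    unfold P4_F
    rw [letV_eq, P4_sumHeavy, P4_sumLight]
    simp only [P4_cnt_spec]
    rfl
  refine ⟨?_, ?_, ?_⟩
  · refine forall_of_cSum (P4_F x) (fun r c => r < n ∧ c < m) ?_
    rw [hsum]
    have h1 : ∑ e ∈ range A.1, ∑ t ∈ range (if A.2.1 e < n then
        (if m < J * rowCnt A (A.2.1 e) then 0 else J) else 0),
        (if A.2.1 e < n ∧ S.2.1 (t * n + A.2.2.1 e) < m then 0 else 1) = 0 := by
      refine sum_eq_zero fun e he => sum_eq_zero fun t ht => ?_
      have hok := hA e (mem_range.1 he)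
      rw [if_pos hok.1, mem_range] at ht
      have htJ : t < J := by
        split_ifs at ht
        · exact absurd ht (Nat.not_lt_zero _)
        · exact ht
      exact if_pos ⟨hok.1, (hS.2 t htJ _ hok.2).2⟩
    have h2 : ∑ i ∈ range n, ∑ p ∈ range (if m < J * rowCnt A i then m else 0),
        (if i < n ∧ p < m then 0 else 1) = 0 := by
      refine sum_eq_zero fun i hi => sum_eq_zero fun p hp => ?_
      rw [mem_range] at hp hi
      refine if_pos ⟨hi, ?_⟩
      split_ifs at hp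
      · exact hp
      · exact absurd hp (Nat.not_lt_zero _)
    rw [h1, h2]
  · intro i hi p hp
    rw [cooA_eq_cSum, hsum, ← P4_X n J m A S hA hS i p hi]
    by_cases hh : m < J * rowCnt A i
    · have h1 : ∑ e ∈ range A.1, ∑ t ∈ range (if A.2.1 e < n then
          (if m < J * rowCnt A (A.2.1 e) then 0 else J) else 0),
          (if A.2.1 e = i ∧ S.2.1 (t * n + A.2.2.1 e) = p then
            A.2.2.2 e * S.2.2.2 (t * n + A.2.2.1 e) else 0) = 0 := by
        refine sum_eq_zero fun e he => ?_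
        by_cases h : A.2.1 e = i
        · rw [h, if_pos hi, if_pos hh]; simp
        · exact sum_eq_zero fun t _ => if_neg fun h' => h h'.1
      have h2 : ∑ i' ∈ range n, ∑ p' ∈ range (if m < J * rowCnt A i' then m else 0),
          (if i' = i ∧ p' = p then P4_den x i' p' else 0) = P4_den x i p := by
        rw [sum_eq_single_of_mem i (mem_range.2 hi) (fun i' _ hne => sum_eq_zero fun p' _ =>
          if_neg fun h' => hne h'.1), if_pos hh,
          sum_eq_single_of_mem p (mem_range.2 hp) (fun p' _ hne => if_neg fun h' => hne h'.2),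
          if_pos ⟨rfl, rfl⟩]
      rw [h1, h2, zero_add, P4_den_spec]
    · have h1 : ∀ e ∈ range A.1, ∑ t ∈ range (if A.2.1 e < n then
          (if m < J * rowCnt A (A.2.1 e) then 0 else J) else 0),
          (if A.2.1 e = i ∧ S.2.1 (t * n + A.2.2.1 e) = p then
            A.2.2.2 e * S.2.2.2 (t * n + A.2.2.1 e) else 0) = ∑ t ∈ range J,
          (if A.2.1 e = i ∧ S.2.1 (t * n + A.2.2.1 e) = p then
            A.2.2.2 e * S.2.2.2 (t * n + A.2.2.1 e) else 0) := by
        intro e he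
        by_cases h : A.2.1 e = i
        · rw [h, if_pos hi, if_neg hh]
        · rw [sum_eq_zero fun t _ => if_neg fun h' => h h'.1,
            sum_eq_zero fun t _ => if_neg fun h' => h h'.1]
      have h2 : ∑ i' ∈ range n, ∑ p' ∈ range (if m < J * rowCnt A i' then m else 0),
          (if i' = i ∧ p' = p then P4_den x i' p' else 0) = 0 := by
        refine sum_eq_zero fun i' _ => ?_
        by_cases h : i' = i
        · rw [h, if_neg hh]; simp
        · exact sum_eq_zero fun p' _ => if_neg fun h' => h h'.1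
      rw [sum_congr rfl h1, h2, add_zero]
  · intro i hi
    rw [rowCnt_eq_cSum, hsum]
    by_cases hh : m < J * rowCnt A i
    · have h1 : ∑ e ∈ range A.1, ∑ t ∈ range (if A.2.1 e < n then
          (if m < J * rowCnt A (A.2.1 e) then 0 else J) else 0),
          (if A.2.1 e = i then 1 else 0) = 0 := by
        refine sum_eq_zero fun e he => ?_
        by_cases h : A.2.1 e = i
        · rw [h, if_pos hi, if_pos hh]; simp
        · exact sum_eq_zero fun t _ => if_neg h
      have h2 : ∑ i' ∈ range n, ∑ p' ∈ range (if m < J * rowCnt A i' then m else 0),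
          (if i' = i then 1 else 0) = m := by
        rw [sum_eq_single_of_mem i (mem_range.2 hi) (fun i' _ hne => sum_eq_zero fun p' _ =>
          if_neg hne), if_pos hh]
        simp
      rw [h1, h2, zero_add, min_eq_right hh.le]
    · have h1 : ∑ e ∈ range A.1, ∑ t ∈ range (if A.2.1 e < n then
          (if m < J * rowCnt A (A.2.1 e) then 0 else J) else 0),
          (if A.2.1 e = i then 1 else 0) = J * rowCnt A i := by
        unfold rowCnt
        rw [card_filter, mul_sum]
        refine sum_congr rfl fun e he => ?_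
        by_cases h : A.2.1 e = i
        · rw [if_pos h, h, if_pos hi]
          unfold rowCnt at hh
          rw [if_neg hh]
          simp
        · rw [if_neg h, mul_zero]
          exact sum_eq_zero fun t _ => rfl
      have h2 : ∑ i' ∈ range n, ∑ p' ∈ range (if m < J * rowCnt A i' then m else 0),
          (if i' = i then 1 else 0) = 0 := by
        refine sum_eq_zero fun i' _ => ?_
        by_cases h : i' = i
        · rw [h, if_neg hh]; simp
        · exact sum_eq_zero fun p' _ => if_neg h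
      rw [h1, h2, add_zero, min_eq_left (not_lt.1 hh)]

end A56
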