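import Pool.Agent.Lib_helper50.A56.B.Coo
/-! # MP_a55cb8, block P5: sampled operators -/

open Matrix Finset

namespace A56

/-- rows and columns filtered -/
def P5_M1 (x : (Ty.prod OpT (.prod SDT SDT)).den) : CooT.den :=
  iterV (fun e y => if x.2.1.2.1 (x.1.2.2.1.1.2.1 e) = 0 then y else
      if x.2.2.2.1 (x.1.2.2.1.1.2.2.1 e) = 0 then y else
        cPush y (x.2.1.2.1 (x.1.2.2.1.1.2.1 e) - 1) (x.2.2.2.1 (x.1.2.2.1.1.2.2.1 e) - 1)
          (x.2.1.2.2.1 (x.1.2.2.1.1.2.1 e) * x.1.2.2.1.1.2.2.2 e *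
            x.2.2.2.2.1 (x.1.2.2.1.1.2.2.1 e)))
    CooT.default x.1.2.2.1.1.1

/-- rows filtered -/
def P5_M2 (x : (Ty.prod OpT (.prod SDT SDT)).den) : CooT.den :=
  iterV (fun e y => if x.2.1.2.1 (x.1.2.2.1.2.2.1 e) = 0 then y else
        cPush y (x.2.1.2.1 (x.1.2.2.1.2.2.1 e) - 1) (x.1.2.2.1.2.2.2.1 e)
          (x.2.1.2.2.1 (x.1.2.2.1.2.2.1 e) * x.1.2.2.1.2.2.2.2 e))
    CooT.default x.1.2.2.1.2.1

/-- columns filtered -/
def P5_M3 (x : (Ty.prod OpT (.prod SDT SDT)).den) : CooT.den :=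
  iterV (fun e y => if x.2.2.2.1 (x.1.2.2.2.1.2.2.1 e) = 0 then y else
        cPush y (x.1.2.2.2.1.2.1 e) (x.2.2.2.1 (x.1.2.2.2.1.2.2.1 e) - 1)
          (x.1.2.2.2.1.2.2.2 e * x.2.2.2.2.1 (x.1.2.2.2.1.2.2.1 e)))
    CooT.default x.1.2.2.2.1.1

/-- the program -/
def P5_F (x : (Ty.prod OpT (.prod SDT SDT)).den) : OpT.den :=
  ((x.2.1.1, x.2.2.1), (x.1.2.1, ((P5_M1 x, P5_M2 x), (P5_M3 x, x.1.2.2.2.2))))

def P5_w (x : (Ty.prod OpT (.prod SDT SDT)).den) : ℕ :=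
  x.1.2.2.1.1.1 + x.1.2.2.1.2.1 + x.1.2.2.2.1.1

theorem P5_oc1 : OC (.prod OpT (.prod SDT SDT)) CooT (fun _ => True) P5_M1 P5_w := by
  refine OC.iter0 (s := .prod OpT (.prod SDT SDT)) (t := CooT) (N := fun x => x.1.2.2.1.1.1) (A := fun _ => CooT.default)
    (B := fun x e y => if x.2.1.2.1 (x.1.2.2.1.1.2.1 e) = 0 then y else
      if x.2.2.2.1 (x.1.2.2.1.1.2.2.1 e) = 0 then y else
        cPush y (x.2.1.2.1 (x.1.2.2.1.1.2.1 e) - 1) (x.2.2.2.1 (x.1.2.2.1.1.2.2.1 e) - 1)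
          (x.2.1.2.2.1 (x.1.2.2.1.1.2.1 e) * x.1.2.2.1.1.2.2.2 e *
            x.2.2.2.2.1 (x.1.2.2.1.1.2.2.1 e)))
    (OC.fst (OC.fst (OC.fst (OC.snd (OC.snd (OC.fst OC.id)))))) (OC.dflt CooT) ?_ 1
    (fun x _ => by unfold P5_w; omega)
  have hS : OC (.prod (.prod OpT (.prod SDT SDT)) (.prod .nat CooT)) SDT (fun _ => True)
      (fun p => p.1.2.1) (fun _ => 0) := OC.fst (OC.snd (OC.fst OC.id))
  have hT : OC (.prod (.prod OpT (.prod SDT SDT)) (.prod .nat CooT)) SDT (fun _ => True)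
      (fun p => p.1.2.2) (fun _ => 0) := OC.snd (OC.snd (OC.fst OC.id))
  have hM : OC (.prod (.prod OpT (.prod SDT SDT)) (.prod .nat CooT)) CooT (fun _ => True)
      (fun p => p.1.1.2.2.1.1) (fun _ => 0) :=
    OC.fst (OC.fst (OC.snd (OC.snd (OC.fst (OC.fst OC.id)))))
  have he : OC (.prod (.prod OpT (.prod SDT SDT)) (.prod .nat CooT)) .nat (fun _ => True)
      (fun p => p.2.1) (fun _ => 0) := OC.fst (OC.snd OC.id)
  have hy : OC (.prod (.prod OpT (.prod SDT SDT)) (.prod .nat CooT)) CooT (fun _ => True)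
      (fun p => p.2.2) (fun _ => 0) := OC.snd (OC.snd OC.id)
  have hr : OC (.prod (.prod OpT (.prod SDT SDT)) (.prod .nat CooT)) .nat (fun _ => True)
      (fun p => p.1.1.2.2.1.1.2.1 p.2.1) (fun _ => 0) := OC.get (OC.fst (OC.snd hM)) he
  have hc : OC (.prod (.prod OpT (.prod SDT SDT)) (.prod .nat CooT)) .nat (fun _ => True)
      (fun p => p.1.1.2.2.1.1.2.2.1 p.2.1) (fun _ => 0) :=
    OC.get (OC.fst (OC.snd (OC.snd hM))) he
  have hv : OC (.prod (.prod OpT (.prod SDT SDT)) (.prod .nat CooT)) .real (fun _ => True)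
      (fun p => p.1.1.2.2.1.1.2.2.2 p.2.1) (fun _ => 0) :=
    OC.get (OC.snd (OC.snd (OC.snd hM))) he
  have hSr := OC.get (OC.fst (OC.snd hS)) hr
  have hTc := OC.get (OC.fst (OC.snd hT)) hc
  have hSw := OC.get (OC.fst (OC.snd (OC.snd hS))) hr
  have hTw := OC.get (OC.fst (OC.snd (OC.snd hT))) hc
  exact OC.ifEq hSr (OC.nlit 0) hy (OC.ifEq hTc (OC.nlit 0) hy
    (OC.push hy (OC.nsub hSr (OC.nlit 1)) (OC.nsub hTc (OC.nlit 1))
      (OC.mul (OC.mul hSw hv) hTw)))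

theorem P5_oc2 : OC (.prod OpT (.prod SDT SDT)) CooT (fun _ => True) P5_M2 P5_w := by
  refine OC.iter0 (s := .prod OpT (.prod SDT SDT)) (t := CooT) (N := fun x => x.1.2.2.1.2.1) (A := fun _ => CooT.default)
    (B := fun x e y => if x.2.1.2.1 (x.1.2.2.1.2.2.1 e) = 0 then y else
        cPush y (x.2.1.2.1 (x.1.2.2.1.2.2.1 e) - 1) (x.1.2.2.1.2.2.2.1 e)
          (x.2.1.2.2.1 (x.1.2.2.1.2.2.1 e) * x.1.2.2.1.2.2.2.2 e))
    (OC.fst (OC.snd (OC.fst (OC.snd (OC.snd (OC.fst OC.id)))))) (OC.dflt CooT) ?_ 1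
    (fun x _ => by unfold P5_w; omega)
  have hS : OC (.prod (.prod OpT (.prod SDT SDT)) (.prod .nat CooT)) SDT (fun _ => True)
      (fun p => p.1.2.1) (fun _ => 0) := OC.fst (OC.snd (OC.fst OC.id))
  have hM : OC (.prod (.prod OpT (.prod SDT SDT)) (.prod .nat CooT)) CooT (fun _ => True)
      (fun p => p.1.1.2.2.1.2) (fun _ => 0) :=
    OC.snd (OC.fst (OC.snd (OC.snd (OC.fst (OC.fst OC.id)))))
  have he : OC (.prod (.prod OpT (.prod SDT SDT)) (.prod .nat CooT)) .nat (fun _ => True)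
      (fun p => p.2.1) (fun _ => 0) := OC.fst (OC.snd OC.id)
  have hy : OC (.prod (.prod OpT (.prod SDT SDT)) (.prod .nat CooT)) CooT (fun _ => True)
      (fun p => p.2.2) (fun _ => 0) := OC.snd (OC.snd OC.id)
  have hr := OC.get (OC.fst (OC.snd hM)) he
  have hc := OC.get (OC.fst (OC.snd (OC.snd hM))) he
  have hv := OC.get (OC.snd (OC.snd (OC.snd hM))) he
  have hSr := OC.get (OC.fst (OC.snd hS)) hr
  have hSw := OC.get (OC.fst (OC.snd (OC.snd hS))) hr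
  exact OC.ifEq hSr (OC.nlit 0) hy
    (OC.push hy (OC.nsub hSr (OC.nlit 1)) hc (OC.mul hSw hv))

theorem P5_oc3 : OC (.prod OpT (.prod SDT SDT)) CooT (fun _ => True) P5_M3 P5_w := by
  refine OC.iter0 (s := .prod OpT (.prod SDT SDT)) (t := CooT) (N := fun x => x.1.2.2.2.1.1) (A := fun _ => CooT.default)
    (B := fun x e y => if x.2.2.2.1 (x.1.2.2.2.1.2.2.1 e) = 0 then y else
        cPush y (x.1.2.2.2.1.2.1 e) (x.2.2.2.1 (x.1.2.2.2.1.2.2.1 e) - 1)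
          (x.1.2.2.2.1.2.2.2 e * x.2.2.2.2.1 (x.1.2.2.2.1.2.2.1 e)))
    (OC.fst (OC.fst (OC.snd (OC.snd (OC.snd (OC.fst OC.id)))))) (OC.dflt CooT) ?_ 1
    (fun x _ => by unfold P5_w; omega)
  have hT : OC (.prod (.prod OpT (.prod SDT SDT)) (.prod .nat CooT)) SDT (fun _ => True)
      (fun p => p.1.2.2) (fun _ => 0) := OC.snd (OC.snd (OC.fst OC.id))
  have hM : OC (.prod (.prod OpT (.prod SDT SDT)) (.prod .nat CooT)) CooT (fun _ => True)
      (fun p => p.1.1.2.2.2.1) (fun _ => 0) :=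
    OC.fst (OC.snd (OC.snd (OC.snd (OC.fst (OC.fst OC.id)))))
  have he : OC (.prod (.prod OpT (.prod SDT SDT)) (.prod .nat CooT)) .nat (fun _ => True)
      (fun p => p.2.1) (fun _ => 0) := OC.fst (OC.snd OC.id)
  have hy : OC (.prod (.prod OpT (.prod SDT SDT)) (.prod .nat CooT)) CooT (fun _ => True)
      (fun p => p.2.2) (fun _ => 0) := OC.snd (OC.snd OC.id)
  have hr := OC.get (OC.fst (OC.snd hM)) he
  have hc := OC.get (OC.fst (OC.snd (OC.snd hM))) he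
  have hv := OC.get (OC.snd (OC.snd (OC.snd hM))) he
  have hTc := OC.get (OC.fst (OC.snd hT)) hc
  have hTw := OC.get (OC.fst (OC.snd (OC.snd hT))) hc
  exact OC.ifEq hTc (OC.nlit 0) hy
    (OC.push hy hr (OC.nsub hTc (OC.nlit 1)) (OC.mul hv hTw))

theorem P5_oc : OC (.prod OpT (.prod SDT SDT)) OpT (fun _ => True) P5_F P5_w :=
  OC.pair (OC.pair (OC.fst (OC.fst (OC.snd OC.id))) (OC.fst (OC.snd (OC.snd OC.id))))
    (OC.pair (OC.fst (OC.snd (OC.fst OC.id)))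
      (OC.pair (OC.pair P5_oc1 P5_oc2)
        (OC.pair P5_oc3 (OC.snd (OC.snd (OC.snd (OC.snd (OC.fst OC.id))))))))

/-! ## values -/

section

variable {M : Type*} [AddCommMonoid M]

theorem P5_sum1 (g : ℕ → ℕ → ℝ → M) (x : (Ty.prod OpT (.prod SDT SDT)).den) :
    cSum g (P5_M1 x) = ∑ e ∈ range x.1.2.2.1.1.1,
      if x.2.1.2.1 (x.1.2.2.1.1.2.1 e) = 0 then 0 else
      if x.2.2.2.1 (x.1.2.2.1.1.2.2.1 e) = 0 then 0 else
        g (x.2.1.2.1 (x.1.2.2.1.1.2.1 e) - 1) (x.2.2.2.1 (x.1.2.2.1.1.2.2.1 e) - 1)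
          (x.2.1.2.2.1 (x.1.2.2.1.1.2.1 e) * x.1.2.2.1.1.2.2.2 e *
            x.2.2.2.2.1 (x.1.2.2.1.1.2.2.1 e)) := by
  unfold P5_M1
  rw [cSum_iter g _ _ _ CooT.default, cSum_default, zero_add]
  intro e y
  split_ifs
  · rw [add_zero]
  · rw [add_zero]
  · exact cSum_push _ _ _ _ _

theorem P5_sum2 (g : ℕ → ℕ → ℝ → M) (x : (Ty.prod OpT (.prod SDT SDT)).den) :
    cSum g (P5_M2 x) = ∑ e ∈ range x.1.2.2.1.2.1,
      if x.2.1.2.1 (x.1.2.2.1.2.2.1 e) = 0 then 0 else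
        g (x.2.1.2.1 (x.1.2.2.1.2.2.1 e) - 1) (x.1.2.2.1.2.2.2.1 e)
          (x.2.1.2.2.1 (x.1.2.2.1.2.2.1 e) * x.1.2.2.1.2.2.2.2 e) := by
  unfold P5_M2
  rw [cSum_iter g _ _ _ CooT.default, cSum_default, zero_add]
  intro e y
  split_ifs
  · rw [add_zero]
  · exact cSum_push _ _ _ _ _

theorem P5_sum3 (g : ℕ → ℕ → ℝ → M) (x : (Ty.prod OpT (.prod SDT SDT)).den) :
    cSum g (P5_M3 x) = ∑ e ∈ range x.1.2.2.2.1.1,
      if x.2.2.2.1 (x.1.2.2.2.1.2.2.1 e) = 0 then 0 else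
        g (x.1.2.2.2.1.2.1 e) (x.2.2.2.1 (x.1.2.2.2.1.2.2.1 e) - 1)
          (x.1.2.2.2.1.2.2.2 e * x.2.2.2.2.1 (x.1.2.2.2.1.2.2.1 e)) := by
  unfold P5_M3
  rw [cSum_iter g _ _ _ CooT.default, cSum_default, zero_add]
  intro e y
  split_ifs
  · rw [add_zero]
  · exact cSum_push _ _ _ _ _

end

theorem P5_regroup (F : ℕ → ℕ → ℝ) (x : CooT.den) (a b : ℕ) (hx : CooOK a b x) :
    ∑ e ∈ range x.1, F (x.2.1 e) (x.2.2.1 e) * x.2.2.2 e =
      ∑ i ∈ range a, ∑ c ∈ range b, F i c * cooA x i c := by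
  have h1 : ∀ i c, F i c * cooA x i c = ∑ e ∈ range x.1,
      (if x.2.1 e = i then (if x.2.2.1 e = c then F i c * x.2.2.2 e else 0) else 0) := by
    intro i c
    unfold cooA
    rw [mul_sum]
    refine sum_congr rfl fun e _ => ?_
    by_cases h1 : x.2.1 e = i <;> by_cases h2 : x.2.2.1 e = c <;> simp [h1, h2]
  simp only [h1]
  have h2 : ∀ i, ∑ c ∈ range b, ∑ e ∈ range x.1,
      (if x.2.1 e = i then (if x.2.2.1 e = c then F i c * x.2.2.2 e else 0) else 0) =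
      ∑ e ∈ range x.1, (if x.2.1 e = i then F i (x.2.2.1 e) * x.2.2.2 e else 0) := by
    intro i
    rw [sum_comm]
    refine sum_congr rfl fun e he => ?_
    have hok := hx e (mem_range.1 he)
    split_ifs
    · rw [sum_ite_eq, if_pos (mem_range.2 hok.2)]
    · simp
  simp only [h2]
  rw [sum_comm]
  refine sum_congr rfl fun e he => ?_
  have hok := hx e (mem_range.1 he)
  rw [sum_ite_eq, if_pos (mem_range.2 hok.1)]

theorem P5_pt1 (a b p r : ℕ) (u v z : ℝ) :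
    (if a = 0 then 0 else if b = 0 then 0 else if a - 1 = p ∧ b - 1 = r then u * v * z else 0) =
      (if a = p + 1 then u else 0) * (if b = r + 1 then z else 0) * v := by
  rcases a with _ | a
  · simp
  rcases b with _ | b
  · simp
  simp only [Nat.add_eq_zero_iff, one_ne_zero, and_false, if_false, Nat.add_sub_cancel,
    Nat.add_right_cancel_iff]
  by_cases h1 : a = p <;> by_cases h2 : b = r <;> simp [h1, h2]
  ring

theorem P5_pt2 (a c p q : ℕ) (u v : ℝ) :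
    (if a = 0 then 0 else if a - 1 = p ∧ c = q then u * v else 0) =
      (if a = p + 1 then u else 0) * (if q = c then 1 else 0) * v := by
  rcases a with _ | a
  · simp
  simp only [Nat.add_eq_zero_iff, one_ne_zero, and_false, if_false, Nat.add_sub_cancel,
    Nat.add_right_cancel_iff]
  by_cases h1 : a = p <;> by_cases h2 : c = q
  · simp [h1, h2]
  · rw [if_neg (fun h => h2 h.2), if_neg (fun h => h2 (Eq.symm h))]; ring
  · simp [h1, h2]
  · simp [h1, h2]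

theorem P5_pt3 (b c r q : ℕ) (z v : ℝ) :
    (if b = 0 then 0 else if c = q ∧ b - 1 = r then v * z else 0) =
      (if q = c then 1 else 0) * (if b = r + 1 then z else 0) * v := by
  rcases b with _ | b
  · simp
  simp only [Nat.add_eq_zero_iff, one_ne_zero, and_false, if_false, Nat.add_sub_cancel,
    Nat.add_right_cancel_iff]
  by_cases h1 : b = r <;> by_cases h2 : c = q
  · simp [h1, h2, mul_comm]
  · rw [if_neg (fun h => h2 h.1), if_neg (fun h => h2 (Eq.symm h))]; ring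
  · simp [h1, h2]
  · simp [h1, h2]

theorem P5_pt4 (a b s t : ℕ) (ha : a ≤ s) (hb : b ≤ t) :
    (if a = 0 then 0 else if b = 0 then 0 else if a - 1 < s ∧ b - 1 < t then 0 else 1) = 0 := by
  split_ifs <;> first | rfl | omega

theorem P5_pt5 (a s c m : ℕ) (ha : a ≤ s) (hc : c < m) :
    (if a = 0 then 0 else if a - 1 < s ∧ c < m then 0 else 1) = 0 := by
  split_ifs <;> first | rfl | omega

theorem P5_pt6 (b t c m : ℕ) (hb : b ≤ t) (hc : c < m) :
    (if b = 0 then 0 else if c < m ∧ b - 1 < t then 0 else 1) = 0 := by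
  split_ifs <;> first | rfl | omega

theorem P5_pt7 (a p : ℕ) (q : Prop) [Decidable q] (h : a = p + 1 ↔ q) :
    (if a = 0 then 0 else if a - 1 = p then 1 else 0) = if q then 1 else 0 := by
  by_cases hq : q
  · have := h.2 hq
    rw [if_pos hq, if_neg (by omega), if_pos (by omega)]
  · have h1 : ¬ a = p + 1 := fun h2 => hq (h.1 h2)
    rw [if_neg hq]
    split_ifs <;> first | rfl | omega

theorem P5_pt8 (a b p : ℕ) (q : Prop) [Decidable q] (h : a = p + 1 ↔ q) :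
    (if a = 0 then 0 else if b = 0 then 0 else if a - 1 = p then 1 else 0) =
      if q ∧ b ≠ 0 then 1 else 0 := by
  by_cases hb : b = 0
  · subst hb
    simp
  · rw [if_neg hb, P5_pt7 a p q h]
    by_cases hq : q
    · rw [if_pos hq, if_pos ⟨hq, hb⟩]
    · rw [if_neg hq, if_neg (fun h => hq h.1)]

theorem P5_pt9 (a b r : ℕ) (q : Prop) [Decidable q] (h : b = r + 1 ↔ q) :
    (if a = 0 then 0 else if b = 0 then 0 else if b - 1 = r then 1 else 0) =
      if q ∧ a ≠ 0 then 1 else 0 := by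
  by_cases ha : a = 0
  · subst ha
    simp
  · rw [if_neg ha, P5_pt7 b r q h]
    by_cases hq : q
    · rw [if_pos hq, if_pos ⟨hq, ha⟩]
    · rw [if_neg hq, if_neg (fun h => hq h.1)]

/-- entries of the filtered list `M1` -/
theorem P5_A1 (x : (Ty.prod OpT (.prod SDT SDT)).den) (n p r : ℕ)
    (hM : CooOK n n x.1.2.2.1.1) :
    cooA (P5_M1 x) p r = ∑ i ∈ range n, ∑ c ∈ range n,
      (sdA x.2.1 p i * sdA x.2.2 r c) * cooA x.1.2.2.1.1 i c := by
  rw [← P5_regroup (fun i c => sdA x.2.1 p i * sdA x.2.2 r c) _ n n hM, cooA_eq_cSum, P5_sum1]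
  refine sum_congr rfl fun e _ => ?_
  exact P5_pt1 _ _ _ _ _ _ _

theorem P5_A2 (x : (Ty.prod OpT (.prod SDT SDT)).den) (n m p a : ℕ)
    (hM : CooOK n m x.1.2.2.1.2) (ha : a < m) :
    cooA (P5_M2 x) p a = ∑ i ∈ range n, sdA x.2.1 p i * cooA x.1.2.2.1.2 i a := by
  have h0 : ∑ i ∈ range n, sdA x.2.1 p i * cooA x.1.2.2.1.2 i a =
      ∑ i ∈ range n, ∑ c ∈ range m,
        (sdA x.2.1 p i * (if a = c then 1 else 0)) * cooA x.1.2.2.1.2 i c := by
    refine sum_congr rfl fun i _ => ?_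
    have h1 : ∀ c, (sdA x.2.1 p i * (if a = c then 1 else 0)) * cooA x.1.2.2.1.2 i c =
        if a = c then sdA x.2.1 p i * cooA x.1.2.2.1.2 i c else 0 := fun c => by
      split_ifs <;> ring
    simp only [h1]
    rw [sum_ite_eq, if_pos (mem_range.2 ha)]
  rw [h0, ← P5_regroup (fun i c => sdA x.2.1 p i * (if a = c then 1 else 0)) _ n m hM,
    cooA_eq_cSum, P5_sum2]
  refine sum_congr rfl fun e _ => ?_
  exact P5_pt2 _ _ _ _ _ _

theorem P5_A3 (x : (Ty.prod OpT (.prod SDT SDT)).den) (n m b r : ℕ)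
    (hM : CooOK m n x.1.2.2.2.1) (hb : b < m) :
    cooA (P5_M3 x) b r = ∑ c ∈ range n, cooA x.1.2.2.2.1 b c * sdA x.2.2 r c := by
  have h0 : ∑ c ∈ range n, cooA x.1.2.2.2.1 b c * sdA x.2.2 r c =
      ∑ i ∈ range m, ∑ c ∈ range n,
        ((if b = i then 1 else 0) * sdA x.2.2 r c) * cooA x.1.2.2.2.1 i c := by
    rw [sum_comm]
    refine sum_congr rfl fun c _ => ?_
    have h1 : ∀ i, ((if b = i then 1 else 0) * sdA x.2.2 r c) * cooA x.1.2.2.2.1 i c =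
        if b = i then cooA x.1.2.2.2.1 i c * sdA x.2.2 r c else 0 := fun i => by
      split_ifs <;> ring
    simp only [h1]
    rw [sum_ite_eq, if_pos (mem_range.2 hb)]
  rw [h0, ← P5_regroup (fun i c => (if b = i then 1 else 0) * sdA x.2.2 r c) _ m n hM,
    cooA_eq_cSum, P5_sum3]
  refine sum_congr rfl fun e _ => ?_
  exact P5_pt3 _ _ _ _ _ _

/-- exchanging the sums -/
theorem P5_swap (n m1 m2 : ℕ) (u v : ℕ → ℝ) (A B : ℕ → ℕ → ℝ) (G : ℕ → ℕ → ℝ) :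
    ∑ a ∈ range m1, ∑ b ∈ range m2, (∑ i ∈ range n, u i * A i a) * G a b *
        (∑ c ∈ range n, B b c * v c) =
      ∑ i ∈ range n, ∑ c ∈ range n, u i *
        (∑ a ∈ range m1, ∑ b ∈ range m2, A i a * G a b * B b c) * v c := by
  have h1 : ∀ a b, (∑ i ∈ range n, u i * A i a) * G a b * (∑ c ∈ range n, B b c * v c) =
      ∑ p ∈ range n ×ˢ range n, u p.1 * A p.1 a * G a b * (B b p.2 * v p.2) := by
    intro a b
    rw [sum_mul, sum_mul_sum, sum_product]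
  have h2 : ∀ i c, u i * (∑ a ∈ range m1, ∑ b ∈ range m2, A i a * G a b * B b c) * v c =
      ∑ q ∈ range m1 ×ˢ range m2, u i * A i q.1 * G q.1 q.2 * (B q.2 c * v c) := by
    intro i c
    rw [sum_product, mul_sum, sum_mul]
    refine sum_congr rfl fun a _ => ?_
    rw [mul_sum, sum_mul]
    refine sum_congr rfl fun b _ => ?_
    ring
  simp only [h1, h2]
  rw [← sum_product (range m1) (range m2) (fun q => ∑ p ∈ range n ×ˢ range n,
      u p.1 * A p.1 q.1 * G q.1 q.2 * (B q.2 p.2 * v p.2)),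
    ← sum_product (range n) (range n) (fun p => ∑ q ∈ range m1 ×ˢ range m2,
      u p.1 * A p.1 q.1 * G q.1 q.2 * (B q.2 p.2 * v p.2)), sum_comm]

theorem P5_op (E : OpT.den) (S T : SDT.den) (n p r : ℕ) (hE : OpOK E) (hn : E.1 = (n, n)) :
    opA (P5_F (E, (S, T))) p r =
      ∑ i ∈ range n, ∑ c ∈ range n, sdA S p i * opA E i c * sdA T r c := by
  obtain ⟨h1, h2, h3⟩ := hE
  rw [hn] at h1 h2 h3
  have hL : opA (P5_F (E, (S, T))) p r = cooA (P5_M1 (E, (S, T))) p r -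
      ∑ a ∈ range E.2.1.1, ∑ b ∈ range E.2.1.2,
        cooA (P5_M2 (E, (S, T))) p a * E.2.2.2.2 a b * cooA (P5_M3 (E, (S, T))) b r := rfl
  have h4 : ∑ a ∈ range E.2.1.1, ∑ b ∈ range E.2.1.2,
        cooA (P5_M2 (E, (S, T))) p a * E.2.2.2.2 a b * cooA (P5_M3 (E, (S, T))) b r =
      ∑ a ∈ range E.2.1.1, ∑ b ∈ range E.2.1.2,
        (∑ i ∈ range n, sdA S p i * cooA E.2.2.1.2 i a) * E.2.2.2.2 a b *
          (∑ c ∈ range n, cooA E.2.2.2.1 b c * sdA T r c) := by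
    refine sum_congr rfl fun a ha => sum_congr rfl fun b hb => ?_
    rw [P5_A2 (E, (S, T)) n _ p a h2 (mem_range.1 ha),
      P5_A3 (E, (S, T)) n _ b r h3 (mem_range.1 hb)]
  rw [hL, h4, P5_A1 (E, (S, T)) n p r h1, P5_swap, ← sum_sub_distrib]
  refine sum_congr rfl fun i _ => ?_
  rw [← sum_sub_distrib]
  refine sum_congr rfl fun c _ => ?_
  unfold opA
  ring

theorem P5_posiff {n : ℕ} {S : SDT.den} (hS : SDOK n S) {p i j : ℕ} (hi : i < n)
    (hp : S.2.1 i = p + 1) (hj : j < n) : S.2.1 j = p + 1 ↔ j = i := by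
  constructor
  · intro h
    exact hS.2.1 j hj i hi (h.trans hp.symm) (by rw [h]; exact Nat.succ_ne_zero _)
  · rintro rfl
    exact hp

theorem P5_pt10 (a b : ℕ) (q : Prop) [Decidable q] :
    (if a = 0 then 0 else if b = 0 then 0 else if q then 1 else 0) =
      if a ≠ 0 ∧ b ≠ 0 ∧ q then 1 else 0 := by
  by_cases ha : a = 0 <;> by_cases hb : b = 0 <;> by_cases hq : q <;> simp [ha, hb, hq]

/-- positions of the entries -/
theorem P5_cnt (E : OpT.den) (S T : SDT.den) (Q : ℕ → ℕ → Prop) [∀ i j, Decidable (Q i j)] :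
    ((range (P5_F (E, (S, T))).2.2.1.1.1).filter fun e =>
        Q ((P5_F (E, (S, T))).2.2.1.1.2.1 e) ((P5_F (E, (S, T))).2.2.1.1.2.2.1 e)).card =
      ((range E.2.2.1.1.1).filter fun e => S.2.1 (E.2.2.1.1.2.1 e) ≠ 0 ∧
        T.2.1 (E.2.2.1.1.2.2.1 e) ≠ 0 ∧ Q (S.2.1 (E.2.2.1.1.2.1 e) - 1)
          (T.2.1 (E.2.2.1.1.2.2.1 e) - 1)).card := by
  have h1 := P5_sum1 (fun i j _ => if Q i j then (1 : ℕ) else 0) (E, (S, T))
  rw [card_filter, card_filter]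
  refine h1.trans (sum_congr rfl fun e _ => ?_)
  exact P5_pt10 _ _ _

/-- input `(E, (S, T))`: the operator `S E Tᵀ` -/
theorem mkOp_prog : ∃ F : (Ty.prod OpT (.prod SDT SDT)).den → OpT.den,
    OC (.prod OpT (.prod SDT SDT)) OpT (fun _ => True) F
      (fun x => x.1.2.2.1.1.1 + x.1.2.2.1.2.1 + x.1.2.2.2.1.1) ∧
    (∀ E S T n, OpOK E → E.1 = (n, n) → SDOK n S → SDOK n T →
      OpOK (F (E, (S, T))) ∧ (F (E, (S, T))).1 = (S.1, T.1) ∧
      (F (E, (S, T))).2.1 = E.2.1 ∧ (F (E, (S, T))).2.2.2.2 = E.2.2.2.2 ∧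
      (∀ p < S.1, ∀ r < T.1, opA (F (E, (S, T))) p r =
        ∑ i ∈ range n, ∑ c ∈ range n, sdA S p i * opA E i c * sdA T r c) ∧
      (∀ p < S.1, ∀ i < n, S.2.1 i = p + 1 →
        rowCnt (F (E, (S, T))).2.2.1.2 p = rowCnt E.2.2.1.2 i ∧
        rowCnt (F (E, (S, T))).2.2.1.1 p = ((range E.2.2.1.1.1).filter fun e =>
          E.2.2.1.1.2.1 e = i ∧ T.2.1 (E.2.2.1.1.2.2.1 e) ≠ 0).card) ∧
      (∀ r < T.1, ∀ c < n, T.2.1 c = r + 1 →
        colCnt (F (E, (S, T))).2.2.2.1 r = colCnt E.2.2.2.1 c ∧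
        colCnt (F (E, (S, T))).2.2.1.1 r = ((range E.2.2.1.1.1).filter fun e =>
          E.2.2.1.1.2.2.1 e = c ∧ S.2.1 (E.2.2.1.1.2.1 e) ≠ 0).card)) ∧
    ∀ (E : OpT.den) (S T : SDT.den) (n : ℕ), OpOK E → E.1 = (n, n) → SDOK n S → SDOK n T →
      ∀ (Q : ℕ → ℕ → Prop) [∀ i j, Decidable (Q i j)],
      ((range (F (E, (S, T))).2.2.1.1.1).filter fun e =>
        Q ((F (E, (S, T))).2.2.1.1.2.1 e) ((F (E, (S, T))).2.2.1.1.2.2.1 e)).card =
      ((range E.2.2.1.1.1).filter fun e => S.2.1 (E.2.2.1.1.2.1 e) ≠ 0 ∧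
        T.2.1 (E.2.2.1.1.2.2.1 e) ≠ 0 ∧ Q (S.2.1 (E.2.2.1.1.2.1 e) - 1)
          (T.2.1 (E.2.2.1.1.2.2.1 e) - 1)).card := by
  refine ⟨P5_F, P5_oc, ?_, fun E S T n _ _ _ _ Q _ => P5_cnt E S T Q⟩
  intro E S T n hE hn hS hT
  obtain ⟨h1, h2, h3⟩ := id hE
  rw [hn] at h1 h2 h3
  simp only at h1 h2 h3
  refine ⟨⟨?_, ?_, ?_⟩, rfl, rfl, rfl, fun p _ r _ => P5_op E S T n p r hE hn, ?_, ?_⟩
  · show ∀ e < (P5_M1 (E, (S, T))).1, _
    refine forall_of_cSum (P5_M1 (E, (S, T))) (fun r c => r < S.1 ∧ c < T.1) ?_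
    rw [P5_sum1]
    refine sum_eq_zero fun e he => ?_
    have hok := h1 e (mem_range.1 he)
    exact P5_pt4 _ _ _ _ (hS.1 _ hok.1) (hT.1 _ hok.2)
  · show ∀ e < (P5_M2 (E, (S, T))).1, _
    refine forall_of_cSum (P5_M2 (E, (S, T))) (fun r c => r < S.1 ∧ c < E.2.1.1) ?_
    rw [P5_sum2]
    refine sum_eq_zero fun e he => ?_
    have hok := h2 e (mem_range.1 he)
    exact P5_pt5 _ _ _ _ (hS.1 _ hok.1) hok.2
  · show ∀ e < (P5_M3 (E, (S, T))).1, _
    refine forall_of_cSum (P5_M3 (E, (S, T))) (fun r c => r < E.2.1.2 ∧ c < T.1) ?_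
    rw [P5_sum3]
    refine sum_eq_zero fun e he => ?_
    have hok := h3 e (mem_range.1 he)
    exact P5_pt6 _ _ _ _ (hT.1 _ hok.2) hok.1
  · intro p _ i hi hp
    constructor
    · show rowCnt (P5_M2 (E, (S, T))) p = _
      rw [rowCnt_eq_cSum, P5_sum2]
      unfold rowCnt
      rw [card_filter]
      refine sum_congr rfl fun e he => ?_
      exact P5_pt7 _ _ _ (P5_posiff hS hi hp (h2 e (mem_range.1 he)).1)
    · show rowCnt (P5_M1 (E, (S, T))) p = _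
      rw [rowCnt_eq_cSum, P5_sum1, card_filter]
      refine sum_congr rfl fun e he => ?_
      exact P5_pt8 _ _ _ _ (P5_posiff hS hi hp (h1 e (mem_range.1 he)).1)
  · intro r _ c hc hr
    constructor
    · show colCnt (P5_M3 (E, (S, T))) r = _
      rw [colCnt_eq_cSum, P5_sum3]
      unfold colCnt
      rw [card_filter]
      refine sum_congr rfl fun e he => ?_
      exact P5_pt7 _ _ _ (P5_posiff hT hc hr (h3 e (mem_range.1 he)).2)
    · show colCnt (P5_M1 (E, (S, T))) r = _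
      rw [colCnt_eq_cSum, P5_sum1, card_filter]
      refine sum_congr rfl fun e he => ?_
      exact P5_pt9 _ _ _ _ (P5_posiff hT hc hr (h1 e (mem_range.1 he)).2)

end A56
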