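import Pool.Agent.Lib_helper50.A56.Prog
/-!
# MP_a55cb8, block P7: sampling and sign vectors (helper73)
-/

open Matrix Finset

namespace A56

/-- sign vectors: input `((M, d), bits)` -/
theorem signs_prog : ∃ F : (Ty.prod (.prod .nat .nat) NArr).den → (Ty.arr VecT).den,
    OC _ (.arr VecT) (fun _ => True) F (fun x => (x.1.1 + 1) * (x.1.2 + 1)) ∧
    ∀ M d bits, ∀ r < M, ∀ j < d,
      F ((M, d), bits) r j = sgn (decide (bits (r * d + j) = 1)) := by
  refine ⟨fun x => tabV VecT x.1.1 fun r => tabV .real x.1.2 fun j =>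
    if x.2 (r * x.1.2 + j) = 1 then 1 else -1, ?_, ?_⟩
  · refine OC.tab (s := Ty.prod (.prod .nat .nat) NArr) (t := VecT) (N := fun x => x.1.1)
      (F := fun x r => tabV .real x.1.2 fun j => if x.2 (r * x.1.2 + j) = 1 then 1 else -1)
      (w' := fun p => p.1.1.2) (OC.fst (OC.fst OC.id)) ?_ 1 ?_
    · refine OC.tab0 (s := Ty.prod (Ty.prod (.prod .nat .nat) NArr) .nat) (t := .real)
        (N := fun p => p.1.1.2)
        (F := fun p j => if p.1.2 (p.2 * p.1.1.2 + j) = 1 then 1 else -1)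
        (OC.snd (OC.fst (OC.fst OC.id))) ?_ 1 ?_
      · exact OC.ifEq
          (OC.get (t := .nat) (OC.snd (OC.fst (OC.fst OC.id))) (OC.nadd (OC.nmul (OC.snd (OC.fst OC.id))
            (OC.snd (OC.fst (OC.fst (OC.fst OC.id))))) (OC.snd OC.id))) (OC.nlit 1) OC.r1 (OC.neg OC.r1)
      · intro x _
        omega
    · intro x _
      have h1 : ∑ j ∈ range x.1.1, (x.1.2 + 1) ≤ 1 * ((x.1.1 + 1) * (x.1.2 + 1) + 1) := by
        rw [sum_const, card_range, smul_eq_mul]
        have h2 : (x.1.1 + 1) * (x.1.2 + 1) = x.1.1 * (x.1.2 + 1) + (x.1.2 + 1) := by ring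
        rw [h2, one_mul]
        exact le_trans (Nat.le_add_right _ _) (Nat.le_add_right _ _)
      exact h1
  · intro M d bits r hr j hj
    show tabV VecT M _ r j = _
    rw [tabV_lt hr, tabV_lt hj]
    unfold sgn
    by_cases h : bits (r * d + j) = 1
    · rw [if_pos h, if_pos (by simpa using h)]
    · rw [if_neg h, if_neg (by simpa using h)]

/-- input type of the sampling program -/
abbrev P7_I : Ty := Ty.prod (.prod .nat (.prod .nat .nat)) (.prod NArr (.prod NArr NArr))

/-- one step of the flag loop -/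
def P7_fb (x : P7_I.den) (i t : ℕ) (acc : ℕ) : ℕ :=
  if x.2.2.2 (i * x.1.2.1 + t) = 1 then acc else 0

/-- the flag of index `i` -/
def P7_flag (x : P7_I.den) (i : ℕ) : ℕ :=
  iterV (P7_fb x i) (if x.2.2.1 i = 1 then 0 else 1) (2 * x.2.1 i)

/-- the weight of index `i` -/
noncomputable def P7_wt (x : P7_I.den) (i : ℕ) : ℝ := iterV (fun _ acc => 2 * acc) 1 (x.2.1 i)

/-- the new state if the index is kept -/
noncomputable def P7_new (x : P7_I.den) (i : ℕ) (st : SDT.den) : SDT.den :=
  (st.1 + 1, (Function.update st.2.1 i (st.1 + 1), (Function.update st.2.2.1 i (P7_wt x i),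
    Function.update st.2.2.2 st.1 (if x.2.1 i < x.1.2.2 then 1 else 0))))

/-- one step of the main loop -/
noncomputable def P7_step (x : P7_I.den) (i : ℕ) (st : SDT.den) : SDT.den :=
  if 0 < P7_flag x i then P7_new x i st else st

theorem P7_flag_eq (x : P7_I.den) (i : ℕ) :
    (0 < P7_flag x i ↔ x.2.2.1 i ≠ 1 ∧ ∀ t < 2 * x.2.1 i, x.2.2.2 (i * x.1.2.1 + t) = 1) := by
  unfold P7_flag
  obtain ⟨N, hN⟩ : ∃ N : ℕ, N = 2 * x.2.1 i := ⟨_, rfl⟩
  rw [← hN]
  clear hN
  induction N with
  | zero =>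
    rw [iterV_zero]
    by_cases h : x.2.2.1 i = 1
    · rw [if_pos h]
      simp [h]
    · rw [if_neg h]
      simp [h]
  | succ m ih =>
    rw [iterV_succ, P7_fb]
    by_cases h : x.2.2.2 (i * x.1.2.1 + m) = 1
    · rw [if_pos h, ih]
      constructor
      · rintro ⟨h1, h2⟩
        refine ⟨h1, fun t ht => ?_⟩
        rcases Nat.lt_succ_iff_lt_or_eq.1 ht with h3 | h3
        · exact h2 t h3
        · rw [h3]; exact h
      · rintro ⟨h1, h2⟩
        exact ⟨h1, fun t ht => h2 t (Nat.lt_succ_of_lt ht)⟩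
    · rw [if_neg h]
      constructor
      · intro h3; exact absurd h3 (lt_irrefl 0)
      · rintro ⟨_, h2⟩
        exact absurd (h2 m (Nat.lt_succ_self m)) h

theorem P7_wt_eq (x : P7_I.den) (i : ℕ) : P7_wt x i = 2 ^ x.2.1 i := by
  unfold P7_wt
  induction (x.2.1 i) with
  | zero => rw [iterV_zero, pow_zero]
  | succ m ih => rw [iterV_succ, ih, pow_succ]; ring

/-- the invariant -/
structure P7_Inv (K : ℕ → Prop) (e : ℕ → ℕ) (h m cnt : ℕ) (pos : ℕ → ℕ) (w : ℕ → ℝ)
    (hv : ℕ → ℕ) : Prop where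
  le : ∀ i < m, pos i ≤ cnt
  out : ∀ i, m ≤ i → pos i = 0
  inj : ∀ i < m, ∀ i' < m, pos i = pos i' → pos i ≠ 0 → i = i'
  surj : ∀ p < cnt, ∃ i < m, pos i = p + 1
  kept : ∀ i < m, K i → pos i ≠ 0 ∧ w i = 2 ^ e i
  drop : ∀ i < m, ¬ K i → pos i = 0
  heavy : ∀ i < m, ∀ p, pos i = p + 1 → hv p = if e i < h then 1 else 0

theorem P7_Inv.keep {K : ℕ → Prop} {e : ℕ → ℕ} {h m cnt : ℕ} {pos : ℕ → ℕ} {w : ℕ → ℝ}
    {hv : ℕ → ℕ} (ih : P7_Inv K e h m cnt pos w hv) (hK : K m) :
    P7_Inv K e h (m + 1) (cnt + 1) (Function.update pos m (cnt + 1))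
      (Function.update w m (2 ^ e m))
      (Function.update hv cnt (if e m < h then 1 else 0)) := by
  have u1 : Function.update pos m (cnt + 1) m = cnt + 1 := Function.update_self ..
  have u2 : ∀ i, i ≠ m → Function.update pos m (cnt + 1) i = pos i :=
    fun i hi => Function.update_of_ne hi _ _
  refine ⟨?_, ?_, ?_, ?_, ?_, ?_, ?_⟩
  · intro i hi
    by_cases h : i = m
    · rw [h, u1]
    · rw [u2 i h]
      exact (ih.le i (by omega)).trans (Nat.le_succ _)
  · intro i hi
    rw [u2 i (by omega)]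
    exact ih.out i (by omega)
  · intro i hi i' hi'
    by_cases h : i = m
    · rw [h, u1]
      by_cases h' : i' = m
      · intro _ _; exact h'.symm
      · rw [u2 i' h']
        intro h3 _
        have := ih.le i' (by omega)
        omega
    · rw [u2 i h]
      by_cases h' : i' = m
      · rw [h', u1]
        intro h3 _
        have := ih.le i (by omega)
        omega
      · rw [u2 i' h']
        exact ih.inj i (by omega) i' (by omega)
  · intro p hp
    by_cases h : p = cnt
    · exact ⟨m, Nat.lt_succ_self m, by rw [u1, h]⟩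
    · obtain ⟨i, hi, hp2⟩ := ih.surj p (by omega)
      exact ⟨i, by omega, by rw [u2 i (by omega), hp2]⟩
  · intro i hi h3
    by_cases h : i = m
    · rw [h, u1, Function.update_self]
      exact ⟨by omega, rfl⟩
    · rw [u2 i h, Function.update_of_ne h]
      exact ih.kept i (by omega) h3
  · intro i hi h3
    by_cases h : i = m
    · rw [h] at h3; exact absurd hK h3
    · rw [u2 i h]
      exact ih.drop i (by omega) h3
  · intro i hi p hp
    by_cases h : i = m
    · rw [h, u1] at hp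
      have : p = cnt := by omega
      rw [this, Function.update_self, h]
    · rw [u2 i h] at hp
      have h3 := ih.le i (by omega)
      rw [Function.update_of_ne (by omega)]
      exact ih.heavy i (by omega) p hp

theorem P7_Inv.skip {K : ℕ → Prop} {e : ℕ → ℕ} {h m cnt : ℕ} {pos : ℕ → ℕ} {w : ℕ → ℝ}
    {hv : ℕ → ℕ} (ih : P7_Inv K e h m cnt pos w hv) (hK : ¬ K m) :
    P7_Inv K e h (m + 1) cnt pos w hv := by
  refine ⟨?_, fun i hi => ih.out i (by omega), ?_, ?_, ?_, ?_, ?_⟩
  · intro i hi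
    by_cases h : i = m
    · rw [h, ih.out m le_rfl]; exact Nat.zero_le _
    · exact ih.le i (by omega)
  · intro i hi i' hi' h3 h4
    by_cases h : i = m
    · rw [h, ih.out m le_rfl] at h4
      exact absurd rfl h4
    · by_cases h' : i' = m
      · rw [h3, h', ih.out m le_rfl] at h4
        exact absurd rfl h4
      · exact ih.inj i (by omega) i' (by omega) h3 h4
  · intro p hp
    obtain ⟨i, hi, hp2⟩ := ih.surj p hp
    exact ⟨i, by omega, hp2⟩
  · intro i hi h3
    by_cases h : i = m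
    · rw [h] at h3; exact absurd h3 hK
    · exact ih.kept i (by omega) h3
  · intro i hi h3
    by_cases h : i = m
    · rw [h]; exact ih.out m le_rfl
    · exact ih.drop i (by omega) h3
  · intro i hi p hp
    by_cases h : i = m
    · rw [h, ih.out m le_rfl] at hp
      omega
    · exact ih.heavy i (by omega) p hp

theorem P7_inv (x : P7_I.den) (m : ℕ) :
    P7_Inv (fun i => 0 < P7_flag x i) x.2.1 x.1.2.2 m
      (iterV (P7_step x) SDT.default m).1 (iterV (P7_step x) SDT.default m).2.1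
      (iterV (P7_step x) SDT.default m).2.2.1 (iterV (P7_step x) SDT.default m).2.2.2 := by
  induction m with
  | zero =>
    rw [iterV_zero]
    refine ⟨fun i hi => absurd hi (Nat.not_lt_zero _), fun i _ => rfl,
      fun i hi => absurd hi (Nat.not_lt_zero _), fun p hp => absurd hp (Nat.not_lt_zero _),
      fun i hi => absurd hi (Nat.not_lt_zero _), fun i hi => absurd hi (Nat.not_lt_zero _),
      fun i hi => absurd hi (Nat.not_lt_zero _)⟩
  | succ m ih =>
    rw [iterV_succ]
    obtain ⟨st, hst⟩ : ∃ st, st = iterV (P7_step x) SDT.default m := ⟨_, rfl⟩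
    rw [← hst] at ih ⊢
    unfold P7_step
    by_cases hf : 0 < P7_flag x m
    · rw [if_pos hf]
      unfold P7_new
      rw [P7_wt_eq]
      exact ih.keep hf
    · rw [if_neg hf]
      exact ih.skip hf

theorem P7_step_OC : OC (.prod P7_I (.prod .nat SDT)) SDT (fun _ => True)
    (fun p => P7_step p.1 p.2.1 p.2.2) (fun p => p.1.2.1 p.2.1) := by
  have hflag : OC (.prod P7_I (.prod .nat SDT)) .nat (fun _ => True)
      (fun p => P7_flag p.1 p.2.1) (fun p => p.1.2.1 p.2.1) := by
    refine OC.iter0 (s := .prod P7_I (.prod .nat SDT)) (t := .nat)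
      (N := fun p => 2 * p.1.2.1 p.2.1)
      (A := fun p => if p.1.2.2.1 p.2.1 = 1 then 0 else 1)
      (B := fun p t acc => P7_fb p.1 p.2.1 t acc) ?_ ?_ ?_ 2 ?_
    · exact OC.nmul (OC.nlit 2) (OC.get (t := .nat) (OC.fst (OC.snd (OC.fst OC.id)))
        (OC.fst (OC.snd OC.id)))
    · exact OC.ifEq (OC.get (t := .nat) (OC.fst (OC.snd (OC.snd (OC.fst OC.id))))
        (OC.fst (OC.snd OC.id))) (OC.nlit 1) (OC.nlit 0) (OC.nlit 1)
    · exact OC.ifEq (OC.get (t := .nat) (OC.snd (OC.snd (OC.snd (OC.fst (OC.fst OC.id)))))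
        (OC.nadd (OC.nmul (OC.fst (OC.snd (OC.fst OC.id)))
          (OC.fst (OC.snd (OC.fst (OC.fst (OC.fst OC.id)))))) (OC.fst (OC.snd OC.id))))
        (OC.nlit 1) (OC.snd (OC.snd OC.id)) (OC.nlit 0)
    · intro x _
      omega
  have hwt : OC (.prod P7_I (.prod .nat SDT)) .real (fun _ => True)
      (fun p => P7_wt p.1 p.2.1) (fun p => p.1.2.1 p.2.1) := by
    refine OC.iter0 (s := .prod P7_I (.prod .nat SDT)) (t := .real)
      (N := fun p => p.1.2.1 p.2.1) (A := fun _ => 1)
      (B := fun _ _ acc => 2 * acc) ?_ OC.r1 ?_ 1 ?_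
    · exact OC.get (t := .nat) (OC.fst (OC.snd (OC.fst OC.id))) (OC.fst (OC.snd OC.id))
    · exact OC.mul (OC.rofNat 2) (OC.snd (OC.snd OC.id))
    · intro x _
      omega
  have hnew : OC (.prod P7_I (.prod .nat SDT)) SDT (fun _ => True)
      (fun p => P7_new p.1 p.2.1 p.2.2) (fun p => p.1.2.1 p.2.1) := by
    have hst : OC (.prod P7_I (.prod .nat SDT)) SDT (fun _ => True)
        (fun p => p.2.2) (fun p => p.1.2.1 p.2.1) := OC.snd (OC.snd OC.id)
    have hi : OC (.prod P7_I (.prod .nat SDT)) .nat (fun _ => True)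
        (fun p => p.2.1) (fun p => p.1.2.1 p.2.1) := OC.fst (OC.snd OC.id)
    have hx : OC (.prod P7_I (.prod .nat SDT)) P7_I (fun _ => True)
        (fun p => p.1) (fun p => p.1.2.1 p.2.1) := OC.fst OC.id
    exact OC.pair (OC.nadd (OC.fst hst) (OC.nlit 1))
      (OC.pair (OC.upd (t := .nat) (OC.fst (OC.snd hst)) hi (OC.nadd (OC.fst hst) (OC.nlit 1)))
        (OC.pair (OC.upd (t := .real) (OC.fst (OC.snd (OC.snd hst))) hi hwt)
          (OC.upd (t := .nat) (OC.snd (OC.snd (OC.snd hst))) (OC.fst hst)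
            (OC.ifN (OC.get (t := .nat) (OC.fst (OC.snd hx)) hi)
              (OC.snd (OC.snd (OC.fst hx))) (OC.nlit 1) (OC.nlit 0)))))
  exact OC.ifN (OC.nlit 0) hflag (hnew.weaken fun _ _ => trivial)
    (OC.snd (OC.snd OC.id))

/-- sampling: input `((n, (B, h)), (e, (bad, bits)))`: index `i` is kept iff it is not bad and
the bits `i B, ..., i B + 2 e_i - 1` are `1`; weight `2^(e_i)`; heavy iff `e_i < h` -/
theorem sample_prog : ∃ F : (Ty.prod (.prod .nat (.prod .nat .nat))
      (.prod NArr (.prod NArr NArr))).den → SDT.den,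
    OC _ SDT (fun _ => True) F (fun x => ∑ i ∈ range x.1.1, (x.2.1 i + 1)) ∧
    ∀ n B h e bad bits, (∀ i < n, 2 * e i ≤ B) →
      SDOK n (F ((n, (B, h)), (e, (bad, bits)))) ∧
      (∀ i : Fin n, sdW (F ((n, (B, h)), (e, (bad, bits)))) i =
        wt (e i) (decide (bad i = 1)) (fun t : Fin B => decide (bits (i * B + t) = 1))) ∧
      (∀ i < n, ∀ p, (F ((n, (B, h)), (e, (bad, bits)))).2.1 i = p + 1 →
        (F ((n, (B, h)), (e, (bad, bits)))).2.2.2 p = if e i < h then 1 else 0) ∧
      ∀ i < n, (F ((n, (B, h)), (e, (bad, bits)))).2.1 i ≠ 0 →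
        sdW (F ((n, (B, h)), (e, (bad, bits)))) i ≠ 0 := by
  refine ⟨fun x => iterV (P7_step x) SDT.default x.1.1, ?_, ?_⟩
  · refine OC.iter (s := P7_I) (t := SDT) (N := fun x => x.1.1) (A := fun _ => SDT.default)
      (B := P7_step) (w' := fun p => p.1.2.1 p.2.1) (OC.fst (OC.fst OC.id)) (OC.dflt SDT)
      (P7_step_OC.weaken fun _ _ => trivial) 1 ?_
    intro x _
    have h1 : ∑ j ∈ range x.1.1, (x.2.1 j + 1) ≤ 1 * (∑ j ∈ range x.1.1, (x.2.1 j + 1) + 1) := by
      rw [one_mul]
      exact Nat.le_succ _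
    exact h1
  · intro n B h e bad bits hB
    obtain ⟨x, hx⟩ : ∃ x : P7_I.den, x = ((n, (B, h)), (e, (bad, bits))) := ⟨_, rfl⟩
    have e1 : x.1.1 = n := by rw [hx]
    have e2 : x.1.2.1 = B := by rw [hx]
    have e3 : x.1.2.2 = h := by rw [hx]
    have e4 : x.2.1 = e := by rw [hx]
    have e5 : x.2.2.1 = bad := by rw [hx]
    have e6 : x.2.2.2 = bits := by rw [hx]
    rw [← hx]
    show SDOK n (iterV (P7_step x) SDT.default x.1.1) ∧ (∀ i : Fin n,
        sdW (iterV (P7_step x) SDT.default x.1.1) i =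
        wt (e i) (decide (bad i = 1)) (fun t : Fin B => decide (bits (i * B + t) = 1))) ∧
      (∀ i < n, ∀ p, (iterV (P7_step x) SDT.default x.1.1).2.1 i = p + 1 →
        (iterV (P7_step x) SDT.default x.1.1).2.2.2 p = if e i < h then 1 else 0) ∧
      ∀ i < n, (iterV (P7_step x) SDT.default x.1.1).2.1 i ≠ 0 →
        sdW (iterV (P7_step x) SDT.default x.1.1) i ≠ 0
    rw [e1]
    have I := P7_inv x n
    obtain ⟨st, hst⟩ : ∃ st, st = iterV (P7_step x) SDT.default n := ⟨_, rfl⟩
    rw [← hst] at I ⊢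
    refine ⟨⟨I.le, I.inj, I.surj⟩, ?_, ?_, ?_⟩
    · rintro ⟨i, hi⟩
      show sdW st i = wt (e i) (decide (bad i = 1)) (fun t : Fin B => decide (bits (i * B + t) = 1))
      have hK : 0 < P7_flag x i ↔ (decide (bad i = 1) = false ∧
          hit (e i) (fun t : Fin B => decide (bits (i * B + t) = 1))) := by
        rw [P7_flag_eq, e2, e4, e5, e6]
        constructor
        · rintro ⟨h1, h2⟩
          refine ⟨by simpa using h1, fun t ht => ?_⟩
          simpa using h2 t ht
        · rintro ⟨h1, h2⟩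
          refine ⟨by simpa using h1, fun t ht => ?_⟩
          have h3 := h2 ⟨t, lt_of_lt_of_le ht (hB i hi)⟩ ht
          simpa using h3
      unfold sdW wt
      by_cases hf : 0 < P7_flag x i
      · obtain ⟨h1, h2⟩ := I.kept i hi hf
        rw [if_neg h1, if_pos (hK.1 hf), h2, e4]
      · rw [if_pos (I.drop i hi hf), if_neg (fun h3 => hf (hK.2 h3))]
    · intro i hi p hp
      rw [I.heavy i hi p hp, e4, e3]
    · intro i hi hp
      have hf : 0 < P7_flag x i := by
        by_contra hf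
        exact hp (I.drop i hi hf)
      obtain ⟨h1, h2⟩ := I.kept i hi hf
      unfold sdW
      rw [if_neg h1, h2]
      positivity

end A56
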