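import Pool.Agent.Lib_helper50.A56.Prog
import Pool.Agent.Lib_helper50.A56.B.P2
import Pool.Agent.Lib_helper50.A56.B.P8
/-!
# MP_a55cb8: blocks P9, P10 (helper38): scores, cleaning estimates, outer iteration
-/

open Matrix Finset

namespace A56

/-! ### stubs -/

/-! ### dimensions and transposes -/

theorem P9_size_pos (x : OpT.den) : 1 ≤ opSize x := by
  have h : 0 < (x.2.1.1 + 1) * (x.2.1.2 + 1) := Nat.mul_pos (Nat.succ_pos _) (Nat.succ_pos _)
  unfold opSize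
  exact le_trans h (Nat.le_add_left _ _)

theorem P9_R_le (x : FOpT.den) : fopR x ≤ opSize x.2 := by
  have h1 : opR x.2 ≤ opSize x.2 := by
    unfold opR opSize
    calc x.2.1.1 ≤ x.2.1.1 + (x.2.1.2 + x.2.2.2.1.1.1 + x.2.2.2.1.2.1 + x.2.2.2.2.1.1 +
        (x.2.2.1.1 + 1) * (x.2.2.1.2 + 1)) := Nat.le_add_right _ _
      _ = _ := by ring
  have h2 : opC x.2 ≤ opSize x.2 := by
    unfold opC opSize
    calc x.2.1.2 ≤ x.2.1.2 + (x.2.1.1 + x.2.2.2.1.1.1 + x.2.2.2.1.2.1 + x.2.2.2.2.1.1 +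
        (x.2.2.1.1 + 1) * (x.2.2.1.2 + 1)) := Nat.le_add_right _ _
      _ = _ := by ring
  unfold fopR
  split_ifs
  · exact h1
  · exact h2

theorem P9_RT (x : FOpT.den) : fopR (fopT x) = fopC x := by
  rcases x with ⟨f, x⟩
  rcases Nat.eq_zero_or_pos f with h | h
  · subst h
    rfl
  · have h1 : (1 : ℕ) - f = 0 := by omega
    have h2 : f ≠ 0 := Nat.pos_iff_ne_zero.1 h
    simp [fopT, fopR, fopC, h1, h2]

theorem P9_CT (x : FOpT.den) : fopC (fopT x) = fopR x := by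
  rcases x with ⟨f, x⟩
  rcases Nat.eq_zero_or_pos f with h | h
  · subst h
    rfl
  · have h1 : (1 : ℕ) - f = 0 := by omega
    have h2 : f ≠ 0 := Nat.pos_iff_ne_zero.1 h
    simp [fopT, fopR, fopC, h1, h2]

theorem P9_AT (x : FOpT.den) (i j : ℕ) : fopA (fopT x) i j = fopA x j i := by
  rcases x with ⟨f, x⟩
  rcases Nat.eq_zero_or_pos f with h | h
  · subst h
    rfl
  · have h1 : (1 : ℕ) - f = 0 := by omega
    have h2 : f ≠ 0 := Nat.pos_iff_ne_zero.1 h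
    simp [fopT, fopA, h1, h2]

theorem P9_C_le (x : FOpT.den) : fopC x ≤ opSize x.2 := by
  rw [← P9_RT]
  exact P9_R_le (fopT x)

section rules

variable {s : Ty} {V : s.den → Prop} {w : s.den → ℕ}

theorem P9_ocR {X : s.den → FOpT.den} (h : OC s FOpT V X w) :
    OC s .nat V (fun x => fopR (X x)) w :=
  OC.ifEq (OC.fst h) (OC.nlit 0) (OC.fst (OC.fst (OC.snd h))) (OC.snd (OC.fst (OC.snd h)))

theorem P9_ocT {X : s.den → FOpT.den} (h : OC s FOpT V X w) :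
    OC s FOpT V (fun x => fopT (X x)) w :=
  OC.pair (OC.nsub (OC.nlit 1) (OC.fst h)) (OC.snd h)

theorem P9_ocC {X : s.den → FOpT.den} (h : OC s FOpT V X w) :
    OC s .nat V (fun x => fopC (X x)) w :=
  (P9_ocR (P9_ocT h)).congr fun x _ => P9_RT (X x)

end rules

/-- the interface: application of operators and of the solver -/
structure P9_I (C : ℕ) (Fm : (Ty.prod FOpT VecT).den → VecT.den)
    (Fs : (Ty.prod .nat (.prod ChT VecT)).den → VecT.den) : Prop where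
  mv : OC (.prod FOpT VecT) VecT (fun _ => True) Fm (fun x => opSize x.1.2)
  mvv : ∀ x v, OpOK x.2 → toV (fopR x) (Fm (x, v)) = fopM x *ᵥ toV (fopC x) v
  sv : Cp (.prod .nat (.prod ChT VecT)) VecT (fun _ _ => True) Fs (fun x => chCost C x.2.1 x.1)
  svv : ∀ R Θ v, ChOK Θ R →
      toV (chD Θ R) (Fs (R, (Θ, v))) = (chainOf Θ).g R *ᵥ toV (chD Θ R) v

theorem P9_exists : ∃ C Fm Fs, P9_I C Fm Fs := by
  obtain ⟨Fm, h1, h2⟩ := mvOp_prog
  obtain ⟨C, Fs, h3, h4⟩ := solve_prog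
  exact ⟨C, Fm, Fs, h1, h2, h3, h4⟩

section

variable {C : ℕ} {Fm : (Ty.prod FOpT VecT).den → VecT.den}
  {Fs : (Ty.prod .nat (.prod ChT VecT)).den → VecT.den}

/-- work of one application -/
def P9_W (C : ℕ) (Θ : ChT.den) (R : ℕ) : ℕ := chCost C Θ R + opSize (Θ.1 R).2

theorem P9_W_pos (C : ℕ) (Θ : ChT.den) (R : ℕ) : 1 ≤ P9_W C Θ R :=
  le_trans (P9_size_pos _) (Nat.le_add_left _ _)

theorem P9_ocM (I : P9_I C Fm Fs) {s : Ty} {V : s.den → Prop} {w : s.den → ℕ}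
    {X : s.den → FOpT.den} {v : s.den → VecT.den} (hX : OC s FOpT V X w) (hv : OC s VecT V v w)
    (hw : ∀ x, V x → opSize (X x).2 ≤ w x) : OC s VecT V (fun x => Fm (X x, v x)) w :=
  OC.comp (F := fun x => ((X x, v x) : (Ty.prod FOpT VecT).den)) I.mv (OC.pair hX hv)
    (fun _ _ => trivial) 1 (fun x hx => (hw x hx).trans (by rw [one_mul]; exact Nat.le_succ _))

theorem P9_ocS (I : P9_I C Fm Fs) {s : Ty} {V : s.den → Prop} {w : s.den → ℕ}
    {R : s.den → ℕ} {Θ : s.den → ChT.den} {v : s.den → VecT.den} (hR : OC s .nat V R w)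
    (hΘ : OC s ChT V Θ w) (hv : OC s VecT V v w)
    (hw : ∀ x, V x → chCost C (Θ x) (R x) ≤ w x) :
    OC s VecT V (fun x => Fs (R x, (Θ x, v x))) w := by
  have h1 : OC (.prod .nat (.prod ChT VecT)) VecT (fun _ => True) Fs
      (fun x => chCost C x.2.1 x.1) :=
    OC.of_Cp 1 I.sv fun x _ => by rw [one_mul]; exact Nat.le_succ _
  exact OC.comp (F := fun x => ((R x, (Θ x, v x)) : (Ty.prod .nat (.prod ChT VecT)).den)) h1
    (OC.pair hR (OC.pair hΘ hv)) (fun _ _ => trivial) 1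
    (fun x hx => (hw x hx).trans (by rw [one_mul]; exact Nat.le_succ _))

theorem P9_mv (I : P9_I C Fm Fs) {x : FOpT.den} (hx : OpOK x.2) {a c : ℕ} (ha : a = fopR x)
    (hc : c = fopC x) (v : VecT.den) : toV a (Fm (x, v)) = toM a c (fopA x) *ᵥ toV c v := by
  subst ha hc
  exact I.mvv x v hx

theorem P9_mvT (I : P9_I C Fm Fs) {x : FOpT.den} (hx : OpOK x.2) {a c : ℕ} (ha : a = fopR x)
    (hc : c = fopC x) (v : VecT.den) :
    toV c (Fm (fopT x, v)) = (toM a c (fopA x))ᵀ *ᵥ toV a v := by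
  have h := P9_mv I (x := fopT x) hx (a := c) (c := a) (by rw [P9_RT, hc])
    (by rw [P9_CT, ha]) v
  rw [h]
  congr 1
  ext i j
  exact P9_AT x i j

theorem P9_dim {Θ : ChT.den} {R : ℕ} (h : ChOK Θ R) : chD Θ R = fopC (Θ.1 R) := by
  cases R with
  | zero => rfl
  | succ R => exact (h.2.1 R (Nat.lt_succ_self R)).symm

/-- `X g Xᵀ v` -/
theorem P9_XgXt (I : P9_I C Fm Fs) {Θ : ChT.den} {R : ℕ} (h : ChOK Θ R) (v : VecT.den) :
    toV (fopR (Θ.1 R)) (Fm (Θ.1 R, Fs (R, (Θ, Fm (fopT (Θ.1 R), v))))) =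
      (chainOf Θ).X R *ᵥ ((chainOf Θ).g R *ᵥ (((chainOf Θ).X R)ᵀ *ᵥ
        toV (fopR (Θ.1 R)) v)) := by
  have h1 := P9_mvT I (h.1 R le_rfl) (a := fopR (Θ.1 R)) rfl (P9_dim h) v
  have h2 := I.svv R Θ (Fm (fopT (Θ.1 R), v)) h
  have h3 := P9_mv I (h.1 R le_rfl) (a := fopR (Θ.1 R)) rfl (P9_dim h)
    (Fs (R, (Θ, Fm (fopT (Θ.1 R), v))))
  rw [h3, h2, h1]
  rfl

/-- `X g v` -/
theorem P9_Xg (I : P9_I C Fm Fs) {Θ : ChT.den} {R : ℕ} (h : ChOK Θ R) (v : VecT.den) :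
    toV (fopR (Θ.1 R)) (Fm (Θ.1 R, Fs (R, (Θ, v)))) =
      (chainOf Θ).X R *ᵥ ((chainOf Θ).g R *ᵥ toV (chD Θ R) v) := by
  have h2 := I.svv R Θ v h
  have h3 := P9_mv I (h.1 R le_rfl) (a := fopR (Θ.1 R)) rfl (P9_dim h)
    (Fs (R, (Θ, v)))
  rw [h3, h2]
  rfl

/-- `g Xᵀ v` -/
theorem P9_gXt (I : P9_I C Fm Fs) {Θ : ChT.den} {R : ℕ} (h : ChOK Θ R) (v : VecT.den) :
    toV (chD Θ R) (Fs (R, (Θ, Fm (fopT (Θ.1 R), v)))) =
      (chainOf Θ).g R *ᵥ (((chainOf Θ).X R)ᵀ *ᵥ toV (fopR (Θ.1 R)) v) := by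
  have h1 := P9_mvT I (h.1 R le_rfl) (a := fopR (Θ.1 R)) rfl (P9_dim h) v
  have h2 := I.svv R Θ (Fm (fopT (Θ.1 R), v)) h
  rw [h2, h1]
  rfl

/-- from `OC` to the form of the cost of the statements -/
theorem P9_cost {s t : Ty} {F : s.den → t.den} {M R : s.den → ℕ} {Θ : s.den → ChT.den}
    (h : OC s t (fun _ => True) F (fun x => (M x + 1) * P9_W C (Θ x) (R x))) :
    ∃ C' : ℕ, Cp s t (fun _ _ => True) F
      (fun x => C' * (M x + 1) * (chCost C' (Θ x) (R x) + opSize ((Θ x).1 (R x)).2)) := by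
  obtain ⟨D, hD⟩ := h
  refine ⟨max C (2 * D), hD.cost _ fun _ x _ => ?_⟩
  have h1 := chCost_mono (le_max_left C (2 * D)) (Θ x) (R x)
  have h2 := P9_W_pos C (Θ x) (R x)
  have h3 : P9_W C (Θ x) (R x) ≤
      chCost (max C (2 * D)) (Θ x) (R x) + opSize ((Θ x).1 (R x)).2 :=
    Nat.add_le_add_right h1 _
  have h4 : 2 * D ≤ max C (2 * D) := le_max_right _ _
  beta_reduce
  generalize P9_W C (Θ x) (R x) = W at *
  generalize chCost (max C (2 * D)) (Θ x) (R x) + opSize ((Θ x).1 (R x)).2 = W' at *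
  generalize max C (2 * D) = E at *
  generalize M x = m at *
  calc D * ((m + 1) * W + 1) ≤ D * (2 * ((m + 1) * W)) := by
        apply Nat.mul_le_mul_left
        nlinarith
    _ = (2 * D) * (m + 1) * W := by ring
    _ ≤ E * (m + 1) * W' := by gcongr

/-! ### P9 -/

/-- the argument type of the scores -/
abbrev P9_TS : Ty := .prod .nat (.prod ChT (.prod .nat (.prod (.arr VecT) (.arr VecT))))

/-- score estimates -/
noncomputable def P9_FS (Fm : (Ty.prod FOpT VecT).den → VecT.den)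
    (Fs : (Ty.prod .nat (.prod ChT VecT)).den → VecT.den) (x : P9_TS.den) : VecT.den :=
  letV (tabV VecT x.2.2.1 fun r =>
      Fm (x.2.1.1 x.1, Fs (x.1, (x.2.1, Fm (fopT (x.2.1.1 x.1), x.2.2.2.1 r))))) fun Y1 =>
    letV (tabV VecT x.2.2.1 fun r =>
      Fm (x.2.1.1 x.1, Fs (x.1, (x.2.1, x.2.2.2.2 r)))) fun Y2 =>
      tabV .real (fopR (x.2.1.1 x.1)) fun i =>
        ∑ r ∈ range x.2.2.1, (Y1 r i * Y1 r i + x.2.1.2.1.1 x.1 * (Y2 r i * Y2 r i))

section rules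

variable {s : Ty} {V : s.den → Prop} {w : s.den → ℕ}

/-- the operator number `R` -/
theorem P9_ocX {R : s.den → ℕ} {Θ : s.den → ChT.den} (hR : OC s .nat V R w)
    (hΘ : OC s ChT V Θ w) : OC s FOpT V (fun x => (Θ x).1 (R x)) w :=
  OC.get (OC.fst hΘ) hR

/-- the ridge number `R` -/
theorem P9_ocL {R : s.den → ℕ} {Θ : s.den → ChT.den} (hR : OC s .nat V R w)
    (hΘ : OC s ChT V Θ w) : OC s .real V (fun x => (Θ x).2.1.1 (R x)) w :=
  OC.get (OC.fst (OC.fst (OC.snd hΘ))) hR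

theorem P9_ocgXt (I : P9_I C Fm Fs) {R : s.den → ℕ} {Θ : s.den → ChT.den}
    {v : s.den → VecT.den} (hR : OC s .nat V R w) (hΘ : OC s ChT V Θ w) (hv : OC s VecT V v w)
    (hw : ∀ x, V x → P9_W C (Θ x) (R x) ≤ w x) :
    OC s VecT V (fun x => Fs (R x, (Θ x, Fm (fopT ((Θ x).1 (R x)), v x)))) w :=
  P9_ocS I hR hΘ (P9_ocM I (P9_ocT (P9_ocX hR hΘ)) hv
    (fun x hx => (Nat.le_add_left _ _).trans (hw x hx)))
    (fun x hx => (Nat.le_add_right _ _).trans (hw x hx))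

theorem P9_ocXg (I : P9_I C Fm Fs) {R : s.den → ℕ} {Θ : s.den → ChT.den}
    {v : s.den → VecT.den} (hR : OC s .nat V R w) (hΘ : OC s ChT V Θ w) (hv : OC s VecT V v w)
    (hw : ∀ x, V x → P9_W C (Θ x) (R x) ≤ w x) :
    OC s VecT V (fun x => Fm ((Θ x).1 (R x), Fs (R x, (Θ x, v x)))) w :=
  P9_ocM I (P9_ocX hR hΘ) (P9_ocS I hR hΘ hv
    (fun x hx => (Nat.le_add_right _ _).trans (hw x hx)))
    (fun x hx => (Nat.le_add_left _ _).trans (hw x hx))

theorem P9_ocXgXt (I : P9_I C Fm Fs) {R : s.den → ℕ} {Θ : s.den → ChT.den}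
    {v : s.den → VecT.den} (hR : OC s .nat V R w) (hΘ : OC s ChT V Θ w) (hv : OC s VecT V v w)
    (hw : ∀ x, V x → P9_W C (Θ x) (R x) ≤ w x) :
    OC s VecT V (fun x => Fm ((Θ x).1 (R x), Fs (R x, (Θ x, Fm (fopT ((Θ x).1 (R x)), v x))))) w :=
  P9_ocM I (P9_ocX hR hΘ) (P9_ocgXt I hR hΘ hv hw)
    (fun x hx => (Nat.le_add_left _ _).trans (hw x hx))

end rules

theorem P9_arith1 {M W : ℕ} (hW : 1 ≤ W) : M * (W + 1) ≤ 2 * ((M + 1) * W + 1) := by
  nlinarith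

theorem P9_arith2 {n M W : ℕ} (hW : n ≤ W) : n * (M + 1) ≤ 1 * ((M + 1) * W + 1) := by
  nlinarith

theorem P9_FS_oc (I : P9_I C Fm Fs) : OC P9_TS VecT (fun _ => True) (P9_FS Fm Fs)
    (fun x => (x.2.2.1 + 1) * P9_W C x.2.1 x.1) := by
  unfold P9_FS
  refine OC.let_ (s := P9_TS) (w' := fun p => (p.1.2.2.1 + 1) * P9_W C p.1.2.1 p.1.1)
    ?_ ?_ 1 (fun x _ => by rw [one_mul]; exact Nat.le_succ _)
  · refine OC.tab (s := P9_TS) (w' := fun p => P9_W C p.1.2.1 p.1.1)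
      (OC.fst (OC.snd (OC.snd OC.id))) ?_ 2 ?_
    · exact P9_ocXgXt I (OC.fst (OC.fst OC.id)) (OC.fst (OC.snd (OC.fst OC.id)))
        (OC.get (OC.fst (OC.snd (OC.snd (OC.snd (OC.fst OC.id))))) (OC.snd OC.id))
        (fun _ _ => le_rfl)
    · intro x _
      dsimp only
      rw [sum_const, card_range, smul_eq_mul]
      exact P9_arith1 (P9_W_pos C _ _)
  · refine OC.let_ (s := .prod P9_TS (.arr VecT))
      (w' := fun p => (p.1.1.2.2.1 + 1) * P9_W C p.1.1.2.1 p.1.1.1)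
      ?_ ?_ 1 (fun x _ => by rw [one_mul]; exact Nat.le_succ _)
    · refine OC.tab (s := .prod P9_TS (.arr VecT)) (w' := fun p => P9_W C p.1.1.2.1 p.1.1.1)
        (OC.fst (OC.snd (OC.snd (OC.fst OC.id)))) ?_ 2 ?_
      · exact P9_ocXg I (OC.fst (OC.fst (OC.fst OC.id)))
          (OC.fst (OC.snd (OC.fst (OC.fst OC.id))))
          (OC.get (OC.snd (OC.snd (OC.snd (OC.snd (OC.fst (OC.fst OC.id)))))) (OC.snd OC.id))
          (fun _ _ => le_rfl)
      · intro x _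
        dsimp only
        rw [sum_const, card_range, smul_eq_mul]
        exact P9_arith1 (P9_W_pos C _ _)
    · refine OC.tab (s := .prod (.prod P9_TS (.arr VecT)) (.arr VecT))
        (w' := fun p => p.1.1.1.2.2.1)
        (P9_ocR (P9_ocX (OC.fst (OC.fst (OC.fst OC.id)))
          (OC.fst (OC.snd (OC.fst (OC.fst OC.id)))))) ?_ 1 ?_
      · have hx : ∀ {s : Ty} {V : s.den → Prop} {w : s.den → ℕ}
          {X : s.den → P9_TS.den} {Y1 Y2 : s.den → (Ty.arr VecT).den} {i r : s.den → ℕ},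
          OC s P9_TS V X w → OC s (.arr VecT) V Y1 w → OC s (.arr VecT) V Y2 w →
          OC s .nat V i w → OC s .nat V r w →
          OC s .real V (fun x => Y1 x (r x) (i x) * Y1 x (r x) (i x) +
            (X x).2.1.2.1.1 (X x).1 * (Y2 x (r x) (i x) * Y2 x (r x) (i x))) w := by
          intro s V w X Y1 Y2 i r hX h1 h2 hi hr
          exact OC.add (OC.mul (OC.get (OC.get h1 hr) hi) (OC.get (OC.get h1 hr) hi))
            (OC.mul (P9_ocL (OC.fst hX) (OC.fst (OC.snd hX)))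
              (OC.mul (OC.get (OC.get h2 hr) hi) (OC.get (OC.get h2 hr) hi)))
        refine OC.sum (w' := fun _ => 0) (OC.fst (OC.snd (OC.snd (OC.fst (OC.fst (OC.fst
          OC.id)))))) ?_ 1 ?_
        · exact hx (OC.fst (OC.fst (OC.fst (OC.fst OC.id))))
            (OC.snd (OC.fst (OC.fst (OC.fst OC.id)))) (OC.snd (OC.fst (OC.fst OC.id)))
            (OC.snd (OC.fst OC.id)) (OC.snd OC.id)
        · intro x _
          simp only [zero_add, sum_const, card_range, smul_eq_mul, mul_one, one_mul]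
          exact Nat.le_succ _
      · intro x _
        dsimp only
        rw [sum_const, card_range, smul_eq_mul]
        exact P9_arith2 ((P9_R_le _).trans (Nat.le_add_left _ _))

/-- score estimates with the solver number `R` and its operator `X = X_R`; input
`(R, (Θ, (M, (s1, s2))))` -/
theorem score_prog : ∃ (C : ℕ)
      (F : (Ty.prod .nat (.prod ChT (.prod .nat (.prod (.arr VecT) (.arr VecT))))).den → VecT.den),
    Cp (.prod .nat (.prod ChT (.prod .nat (.prod (.arr VecT) (.arr VecT))))) VecT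
      (fun _ _ => True) F
      (fun x => C * (x.2.2.1 + 1) * (chCost C x.2.1 x.1 + opSize (x.2.1.1 x.1).2)) ∧
    ∀ R Θ M s1 s2, ChOK Θ R → ∀ i : Fin (fopR (Θ.1 R)),
      F (R, (Θ, (M, (s1, s2)))) i =
        ∑ r ∈ range M, (((chainOf Θ).X R *ᵥ ((chainOf Θ).g R *ᵥ (((chainOf Θ).X R)ᵀ *ᵥ
              toV (fopR (Θ.1 R)) (s1 r)))) i ^ 2 +
          Θ.2.1.1 R * ((chainOf Θ).X R *ᵥ ((chainOf Θ).g R *ᵥ
              toV (chD Θ R) (s2 r))) i ^ 2) := by
  obtain ⟨C, Fm, Fs, I⟩ := P9_exists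
  obtain ⟨C', hC'⟩ := P9_cost (s := P9_TS) (M := fun x => x.2.2.1) (R := fun x => x.1) (Θ := fun x => x.2.1)
    (P9_FS_oc I)
  refine ⟨C', P9_FS Fm Fs, hC', ?_⟩
  intro R Θ M s1 s2 h i
  simp only [P9_FS, letV_eq]
  rw [tabV_lt i.2]
  refine Finset.sum_congr rfl fun r hr => ?_
  rw [tabV_lt (Finset.mem_range.1 hr), tabV_lt (Finset.mem_range.1 hr)]
  have e1 := congrFun (P9_XgXt I h (s1 r)) i
  have e2 := congrFun (P9_Xg I h (s2 r)) i
  rw [← e1, ← e2]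
  simp only [toV]
  ring

/-! ### cleaning -/

/-- the argument type of the cleaning estimates -/
abbrev P9_TC : Ty := .prod .nat (.prod ChT (.prod .nat (.prod VecT (.arr VecT))))

/-- cleaning estimates -/
noncomputable def P9_FC (Fm : (Ty.prod FOpT VecT).den → VecT.den)
    (Fs : (Ty.prod .nat (.prod ChT VecT)).den → VecT.den) (x : P9_TC.den) : VecT.den :=
  letV (tabV VecT x.2.2.1 fun r =>
      Fs (x.1, (x.2.1, Fm (fopT (x.2.1.1 x.1),
        tabV .real (fopR (x.2.1.1 x.1)) fun p => x.2.2.2.1 p * x.2.2.2.2 r p)))) fun Y =>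
    tabV .real (fopC (x.2.1.1 x.1)) fun i =>
      ∑ r ∈ range x.2.2.1, (x.2.1.2.1.1 x.1 * Y r i) * (x.2.1.2.1.1 x.1 * Y r i)

theorem P9_FC_oc (I : P9_I C Fm Fs) : OC P9_TC VecT (fun _ => True) (P9_FC Fm Fs)
    (fun x => (x.2.2.1 + 1) * P9_W C x.2.1 x.1) := by
  unfold P9_FC
  refine OC.let_ (s := P9_TC) (w' := fun p => (p.1.2.2.1 + 1) * P9_W C p.1.2.1 p.1.1)
    ?_ ?_ 1 (fun x _ => by rw [one_mul]; exact Nat.le_succ _)
  · refine OC.tab (s := P9_TC) (w' := fun p => P9_W C p.1.2.1 p.1.1)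
      (OC.fst (OC.snd (OC.snd OC.id))) ?_ 2 ?_
    · refine P9_ocgXt I (OC.fst (OC.fst OC.id)) (OC.fst (OC.snd (OC.fst OC.id)))
        ?_ (fun _ _ => le_rfl)
      refine OC.tab0 (P9_ocR (P9_ocX (OC.fst (OC.fst OC.id)) (OC.fst (OC.snd (OC.fst OC.id)))))
        ?_ 1 (fun x _ => ?_)
      · exact OC.mul (OC.get (OC.fst (OC.snd (OC.snd (OC.snd (OC.fst (OC.fst OC.id))))))
          (OC.snd OC.id)) (OC.get (OC.get (OC.snd (OC.snd (OC.snd (OC.snd (OC.fst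
            (OC.fst OC.id)))))) (OC.snd (OC.fst OC.id))) (OC.snd OC.id))
      · rw [one_mul]
        exact ((P9_R_le _).trans (Nat.le_add_left _ _)).trans (Nat.le_succ _)
    · intro x _
      dsimp only
      rw [sum_const, card_range, smul_eq_mul]
      exact P9_arith1 (P9_W_pos C _ _)
  · refine OC.tab (s := .prod P9_TC (.arr VecT)) (w' := fun p => p.1.1.2.2.1)
        (P9_ocC (P9_ocX (OC.fst (OC.fst OC.id)) (OC.fst (OC.snd (OC.fst OC.id))))) ?_ 1 ?_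
    · have hx : ∀ {s : Ty} {V : s.den → Prop} {w : s.den → ℕ}
        {X : s.den → P9_TC.den} {Y : s.den → (Ty.arr VecT).den} {i r : s.den → ℕ},
        OC s P9_TC V X w → OC s (.arr VecT) V Y w →
        OC s .nat V i w → OC s .nat V r w →
        OC s .real V (fun x => ((X x).2.1.2.1.1 (X x).1 * Y x (r x) (i x)) *
          ((X x).2.1.2.1.1 (X x).1 * Y x (r x) (i x))) w := by
        intro s V w X Y i r hX h1 hi hr
        have h2 := OC.mul (P9_ocL (OC.fst hX) (OC.fst (OC.snd hX))) (OC.get (OC.get h1 hr) hi)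
        exact OC.mul h2 h2
      refine OC.sum (w' := fun _ => 0) (OC.fst (OC.snd (OC.snd (OC.fst (OC.fst
        OC.id))))) ?_ 1 ?_
      · exact hx (OC.fst (OC.fst (OC.fst OC.id)))
          (OC.snd (OC.fst (OC.fst OC.id)))
          (OC.snd (OC.fst OC.id)) (OC.snd OC.id)
      · intro x _
        simp only [zero_add, sum_const, card_range, smul_eq_mul, mul_one, one_mul]
        exact Nat.le_succ _
    · intro x _
      dsimp only
      rw [sum_const, card_range, smul_eq_mul]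
      exact P9_arith2 ((P9_C_le _).trans (Nat.le_add_left _ _))

theorem P9_toV_tab (n : ℕ) (f : ℕ → ℝ) : toV n (tabV .real n f) = fun i : Fin n => f i := by
  funext i
  exact tabV_lt i.2

/-- cleaning estimates with the last solver `g = g_R` and its operator `X = X_R`; input
`(R, (Θ, (M, (w, s))))`: `∑_r (λ (g Xᵀ (w ∘ s_r))_i)²` -/
theorem clean_prog : ∃ (C : ℕ)
      (F : (Ty.prod .nat (.prod ChT (.prod .nat (.prod VecT (.arr VecT))))).den → VecT.den),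
    Cp (.prod .nat (.prod ChT (.prod .nat (.prod VecT (.arr VecT))))) VecT (fun _ _ => True) F
      (fun x => C * (x.2.2.1 + 1) * (chCost C x.2.1 x.1 + opSize (x.2.1.1 x.1).2)) ∧
    ∀ R Θ M w s, ChOK Θ R → ∀ i : Fin (chD Θ R),
      F (R, (Θ, (M, (w, s)))) i =
        ∑ r ∈ range M, (Θ.2.1.1 R * ((chainOf Θ).g R *ᵥ (((chainOf Θ).X R)ᵀ *ᵥ
          toV (fopR (Θ.1 R)) (fun p => w p * s r p))) i) ^ 2 := by
  obtain ⟨C, Fm, Fs, I⟩ := P9_exists
  obtain ⟨C', hC'⟩ := P9_cost (s := P9_TC) (M := fun x => x.2.2.1) (R := fun x => x.1)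
    (Θ := fun x => x.2.1) (P9_FC_oc I)
  refine ⟨C', P9_FC Fm Fs, hC', ?_⟩
  intro R Θ M w s h i
  simp only [P9_FC, letV_eq]
  have hi : (i : ℕ) < fopC (Θ.1 R) := by rw [← P9_dim h]; exact i.2
  rw [tabV_lt hi]
  refine Finset.sum_congr rfl fun r hr => ?_
  rw [tabV_lt (Finset.mem_range.1 hr)]
  have e1 := congrFun (P9_gXt I h (tabV .real (fopR (Θ.1 R)) fun p => w p * s r p)) i
  rw [P9_toV_tab] at e1
  have e2 : (fun i : Fin (fopR (Θ.1 R)) => w i * s r i) =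
    toV (fopR (Θ.1 R)) (fun p => w p * s r p) := rfl
  rw [e2] at e1
  rw [← e1]
  simp only [toV]
  ring

/-! ### P10: the outer iteration -/

/-- the argument type of the outer iteration -/
abbrev P9_TO : Ty := .prod (.prod .nat .nat) (.prod (.prod ChT .real) VecT)

/-- the state of the outer iteration -/
abbrev P9_St : Ty := .prod (.prod VecT VecT) (.prod .real .real)

/-- start of the outer iteration -/
noncomputable def P9_init (x : P9_TO.den) : P9_St.den :=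
  ((VecT.default, tabV .real (fopR (x.2.1.1.1 x.1.1)) fun i => 2 / (2 - x.2.1.2) * x.2.2 i),
    (1, (2 + x.2.1.2) / (2 - x.2.1.2)))

/-- step of the outer iteration -/
noncomputable def P9_step (Fm : (Ty.prod FOpT VecT).den → VecT.den)
    (Fs : (Ty.prod .nat (.prod ChT VecT)).den → VecT.den) (x : P9_TO.den) (_k : ℕ)
    (y : P9_St.den) : P9_St.den :=
  letV (Fm (x.2.1.1.1 x.1.1, Fs (x.1.1, (x.2.1.1, Fm (fopT (x.2.1.1.1 x.1.1), y.1.2)))))
    fun z =>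
    ((y.1.2, tabV .real (fopR (x.2.1.1.1 x.1.1)) fun i =>
        2 * ((2 + x.2.1.2) / (2 - x.2.1.2)) * y.1.2 i - y.1.1 i +
          4 / (2 - x.2.1.2) * (y.2.2 * x.2.2 i - z i)),
      (y.2.2, 2 * ((2 + x.2.1.2) / (2 - x.2.1.2)) * y.2.2 - y.2.1))

/-- the outer iteration -/
noncomputable def P9_FO (Fm : (Ty.prod FOpT VecT).den → VecT.den)
    (Fs : (Ty.prod .nat (.prod ChT VecT)).den → VecT.den) (x : P9_TO.den) : VecT.den :=
  letV (iterV (P9_step Fm Fs x) (P9_init x) x.1.2) fun y =>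
    Fs (x.1.1, (x.2.1.1, Fm (fopT (x.2.1.1.1 x.1.1),
      tabV .real (fopR (x.2.1.1.1 x.1.1)) fun i => (y.2.1)⁻¹ * y.1.1 i)))

section rules

variable {s : Ty} {V : s.den → Prop} {w : s.den → ℕ} {X : s.den → P9_TO.den}

theorem P9_oal (hX : OC s P9_TO V X w) : OC s .real V (fun x => (X x).2.1.2) w :=
  OC.snd (OC.fst (OC.snd hX))

theorem P9_ob (hX : OC s P9_TO V X w) {i : s.den → ℕ} (hi : OC s .nat V i w) :
    OC s .real V (fun x => (X x).2.2 (i x)) w :=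
  OC.get (OC.snd (OC.snd hX)) hi

theorem P9_oden (hX : OC s P9_TO V X w) : OC s .real V (fun x => 2 - (X x).2.1.2) w :=
  OC.sub (OC.rofNat 2) (P9_oal hX)

theorem P9_oth (hX : OC s P9_TO V X w) :
    OC s .real V (fun x => (2 + (X x).2.1.2) / (2 - (X x).2.1.2)) w :=
  OC.div (OC.add (OC.rofNat 2) (P9_oal hX)) (P9_oden hX)

theorem P9_oN (hX : OC s P9_TO V X w) :
    OC s .nat V (fun x => fopR ((X x).2.1.1.1 (X x).1.1)) w :=
  P9_ocR (P9_ocX (OC.fst (OC.fst hX)) (OC.fst (OC.fst (OC.snd hX))))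

end rules

theorem P9_init_oc : OC P9_TO P9_St (fun _ => True) P9_init
    (fun x => P9_W C x.2.1.1 x.1.1) := by
  refine OC.pair (OC.pair (OC.dflt VecT) ?_) (OC.pair OC.r1 (P9_oth OC.id))
  refine OC.tab0 (P9_oN OC.id) ?_ 1
    (fun x _ => by
      rw [one_mul]
      exact ((P9_R_le _).trans (Nat.le_add_left _ _)).trans (Nat.le_succ _))
  exact OC.mul (OC.div (OC.rofNat 2) (P9_oden (OC.fst OC.id)))
    (P9_ob (OC.fst OC.id) (OC.snd OC.id))

theorem P9_step_oc (I : P9_I C Fm Fs) : OC (.prod P9_TO (.prod .nat P9_St)) P9_St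
    (fun _ => True) (fun p => P9_step Fm Fs p.1 p.2.1 p.2.2)
    (fun p => P9_W C p.1.2.1.1 p.1.1.1) := by
  unfold P9_step
  refine OC.let_ (s := .prod P9_TO (.prod .nat P9_St))
    (w' := fun p => P9_W C p.1.1.2.1.1 p.1.1.1.1) ?_ ?_ 1
    (fun x _ => by rw [one_mul]; exact Nat.le_succ _)
  · exact P9_ocXgXt I (OC.fst (OC.fst (OC.fst OC.id)))
      (OC.fst (OC.fst (OC.snd (OC.fst OC.id))))
      (OC.snd (OC.fst (OC.snd (OC.snd OC.id)))) (fun _ _ => le_rfl)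
  · have hX : ∀ {V : (Ty.prod (.prod P9_TO (.prod .nat P9_St)) VecT).den → Prop}
        {w : (Ty.prod (.prod P9_TO (.prod .nat P9_St)) VecT).den → ℕ},
        OC (.prod (.prod P9_TO (.prod .nat P9_St)) VecT) P9_TO V (fun p => p.1.1) w :=
      OC.fst (OC.fst OC.id)
    have hy : ∀ {V : (Ty.prod (.prod P9_TO (.prod .nat P9_St)) VecT).den → Prop}
        {w : (Ty.prod (.prod P9_TO (.prod .nat P9_St)) VecT).den → ℕ},
        OC (.prod (.prod P9_TO (.prod .nat P9_St)) VecT) P9_St V (fun p => p.1.2.2) w :=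
      OC.snd (OC.snd (OC.fst OC.id))
    refine OC.pair (OC.pair (OC.snd (OC.fst hy)) ?_) (OC.pair (OC.snd (OC.snd hy))
      (OC.sub (OC.mul (OC.mul (OC.rofNat 2) (P9_oth hX)) (OC.snd (OC.snd hy)))
        (OC.fst (OC.snd hy))))
    refine OC.tab0 (P9_oN hX) ?_ 1
      (fun x _ => by
        rw [one_mul]
        exact ((P9_R_le _).trans (Nat.le_add_left _ _)).trans (Nat.le_succ _))
    have hX' : ∀ {V : (Ty.prod (Ty.prod (.prod P9_TO (.prod .nat P9_St)) VecT) .nat).den → Prop}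
        {w : (Ty.prod (Ty.prod (.prod P9_TO (.prod .nat P9_St)) VecT) .nat).den → ℕ},
        OC (.prod (.prod (.prod P9_TO (.prod .nat P9_St)) VecT) .nat) P9_TO V
          (fun p => p.1.1.1) w :=
      OC.fst (OC.fst (OC.fst OC.id))
    have hy' : ∀ {V : (Ty.prod (Ty.prod (.prod P9_TO (.prod .nat P9_St)) VecT) .nat).den → Prop}
        {w : (Ty.prod (Ty.prod (.prod P9_TO (.prod .nat P9_St)) VecT) .nat).den → ℕ},
        OC (.prod (.prod (.prod P9_TO (.prod .nat P9_St)) VecT) .nat) P9_St V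
          (fun p => p.1.1.2.2) w :=
      OC.snd (OC.snd (OC.fst (OC.fst OC.id)))
    refine OC.add (OC.sub (OC.mul (OC.mul (OC.rofNat 2) (P9_oth hX'))
      (OC.get (OC.snd (OC.fst hy')) (OC.snd OC.id))) (OC.get (OC.fst (OC.fst hy'))
        (OC.snd OC.id))) (OC.mul (OC.div (OC.rofNat 4) (P9_oden hX')) (OC.sub (OC.mul
          (OC.snd (OC.snd hy')) (P9_ob hX' (OC.snd OC.id))) (OC.get (OC.snd (OC.fst OC.id))
            (OC.snd OC.id))))

theorem P9_arith3 {m W : ℕ} (hW : 1 ≤ W) : m * (W + 1) ≤ 2 * ((m + 1) * W + 1) :=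
  P9_arith1 hW

theorem P9_arith4 (m W : ℕ) : W ≤ (m + 1) * W := by nlinarith

theorem P9_FO_oc (I : P9_I C Fm Fs) : OC P9_TO VecT (fun _ => True) (P9_FO Fm Fs)
    (fun x => (x.1.2 + 1) * P9_W C x.2.1.1 x.1.1) := by
  unfold P9_FO
  refine OC.let_ (s := P9_TO) (w' := fun p => P9_W C p.1.2.1.1 p.1.1.1) ?_ ?_ 1
    (fun x _ => by
      rw [one_mul]
      exact (P9_arith4 _ _).trans (Nat.le_succ _))
  · refine OC.iter (s := P9_TO) (w' := fun p => P9_W C p.1.2.1.1 p.1.1.1)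
      (OC.snd (OC.fst OC.id)) ?_ ((P9_step_oc I).weaken fun _ _ => trivial) 2 ?_
    · exact P9_init_oc.le 1 (fun x _ => by
        rw [one_mul]
        exact (P9_arith4 _ _).trans (Nat.le_succ _))
    · intro x _
      dsimp only
      rw [sum_const, card_range, smul_eq_mul]
      exact P9_arith3 (P9_W_pos C _ _)
  · refine P9_ocgXt I (OC.fst (OC.fst (OC.fst OC.id))) (OC.fst (OC.fst (OC.snd (OC.fst OC.id))))
      ?_ (fun _ _ => le_rfl)
    refine OC.tab0 (P9_oN (OC.fst OC.id)) ?_ 1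
      (fun x _ => by
        rw [one_mul]
        exact ((P9_R_le _).trans (Nat.le_add_left _ _)).trans (Nat.le_succ _))
    exact OC.mul (OC.inv (OC.fst (OC.snd (OC.snd (OC.fst OC.id)))))
      (OC.get (OC.fst (OC.fst (OC.snd (OC.fst OC.id)))) (OC.snd OC.id))

theorem P9_cheb_step {m n : Type*} [Fintype m] [Fintype n] [DecidableEq m]
    (X : Matrix m n ℝ) (g : Matrix n n ℝ) (α : ℝ) (k : ℕ) (B : m → ℝ) :
    chebY (X * g * Xᵀ) 1 α 2 (k + 1 + 1) *ᵥ B =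
      (2 * ((2 + α) / (2 - α))) • (chebY (X * g * Xᵀ) 1 α 2 (k + 1) *ᵥ B) -
        chebY (X * g * Xᵀ) 1 α 2 k *ᵥ B +
      (4 / (2 - α)) • (chebT α 2 (k + 1) • B -
        X *ᵥ (g *ᵥ (Xᵀ *ᵥ (chebY (X * g * Xᵀ) 1 α 2 (k + 1) *ᵥ B)))) := by
  rw [chebY]
  simp only [Matrix.add_mulVec, Matrix.sub_mulVec, Matrix.smul_mulVec, Matrix.mulVec_mulVec,
    Matrix.one_mul, Matrix.one_mulVec, Matrix.mul_assoc]

theorem P9_cheb_vec {m n : Type*} [Fintype m] [Fintype n] [DecidableEq m]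
    (X : Matrix m n ℝ) (g : Matrix n n ℝ) (α : ℝ) (k : ℕ) (B y0 y1 z : m → ℝ) (τ : ℝ)
    (h1 : y0 = chebY (X * g * Xᵀ) 1 α 2 k *ᵥ B)
    (h2 : y1 = chebY (X * g * Xᵀ) 1 α 2 (k + 1) *ᵥ B)
    (h3 : z = X *ᵥ (g *ᵥ (Xᵀ *ᵥ y1))) (h4 : τ = chebT α 2 (k + 1)) :
    (fun i => 2 * ((2 + α) / (2 - α)) * y1 i - y0 i + 4 / (2 - α) * (τ * B i - z i)) =
      chebY (X * g * Xᵀ) 1 α 2 (k + 1 + 1) *ᵥ B := by
  rw [P9_cheb_step, ← h2, ← h1, ← h3, ← h4]
  funext i
  simp only [Pi.add_apply, Pi.sub_apply, Pi.smul_apply, smul_eq_mul]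

theorem P9_inv (I : P9_I C Fm Fs) {R : ℕ} {Θ : ChT.den} (h : ChOK Θ R) (m : ℕ) (α : ℝ)
    (b : VecT.den) (k : ℕ) :
    toV (fopR (Θ.1 R)) (iterV (P9_step Fm Fs ((R, m), ((Θ, α), b)))
        (P9_init ((R, m), ((Θ, α), b))) k).1.1 =
      chebY ((chainOf Θ).X R * (chainOf Θ).g R * ((chainOf Θ).X R)ᵀ) 1 α 2 k *ᵥ
        toV (fopR (Θ.1 R)) b ∧
    toV (fopR (Θ.1 R)) (iterV (P9_step Fm Fs ((R, m), ((Θ, α), b)))
        (P9_init ((R, m), ((Θ, α), b))) k).1.2 =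
      chebY ((chainOf Θ).X R * (chainOf Θ).g R * ((chainOf Θ).X R)ᵀ) 1 α 2 (k + 1) *ᵥ
        toV (fopR (Θ.1 R)) b ∧
    (iterV (P9_step Fm Fs ((R, m), ((Θ, α), b))) (P9_init ((R, m), ((Θ, α), b))) k).2.1 =
      chebT α 2 k ∧
    (iterV (P9_step Fm Fs ((R, m), ((Θ, α), b))) (P9_init ((R, m), ((Θ, α), b))) k).2.2 =
      chebT α 2 (k + 1) := by
  induction k with
  | zero =>
    refine ⟨?_, ?_, rfl, rfl⟩
    · funext i
      simp only [iterV_zero, chebY]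
      erw [Matrix.zero_mulVec]
      rfl
    · rw [iterV_zero]
      simp only [P9_init, chebY]
      rw [P9_toV_tab]
      erw [Matrix.smul_mulVec, Matrix.one_mulVec]
      rfl
  | succ k ih =>
    obtain ⟨h1, h2, h3, h4⟩ := ih
    rw [iterV_succ]
    generalize iterV (P9_step Fm Fs ((R, m), ((Θ, α), b)))
        (P9_init ((R, m), ((Θ, α), b))) k = y at *
    refine ⟨h2, ?_, h4, ?_⟩
    · simp only [P9_step, letV_eq]
      rw [P9_toV_tab]
      exact P9_cheb_vec ((chainOf Θ).X R) ((chainOf Θ).g R) α k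
        (toV (fopR (Θ.1 R)) b) (toV (fopR (Θ.1 R)) y.1.1) (toV (fopR (Θ.1 R)) y.1.2)
        (toV (fopR (Θ.1 R)) (Fm (Θ.1 R, Fs (R, (Θ, Fm (fopT (Θ.1 R), y.1.2)))))) y.2.2
        h1 h2 (P9_XgXt I h y.1.2) h4
    · simp only [P9_step, letV_eq]
      rw [h4, h3]
      rfl

/-- the outer iteration; input `((R, m), ((Θ, α), b))`, the last operator of the chain is `X` -/
theorem outer_prog : ∃ (C : ℕ)
      (F : (Ty.prod (.prod .nat .nat) (.prod (.prod ChT .real) VecT)).den → VecT.den),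
    Cp (.prod (.prod .nat .nat) (.prod (.prod ChT .real) VecT)) VecT (fun _ _ => True) F
      (fun x => C * (x.1.2 + 1) * (chCost C x.2.1.1 x.1.1 + opSize (x.2.1.1.1 x.1.1).2)) ∧
    ∀ R m Θ α b, ChOK Θ R → ∀ X g, X = (chainOf Θ).X R → g = (chainOf Θ).g R →
      toV (chD Θ R) (F ((R, m), ((Θ, α), b))) =
        g *ᵥ (Xᵀ *ᵥ (cheb (X * g * Xᵀ) 1 α 2 m *ᵥ toV (fopR (Θ.1 R)) b)) := by
  obtain ⟨C, Fm, Fs, I⟩ := P9_exists
  obtain ⟨C', hC'⟩ := P9_cost (s := P9_TO) (M := fun x => x.1.2) (R := fun x => x.1.1)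
    (Θ := fun x => x.2.1.1) (P9_FO_oc I)
  refine ⟨C', P9_FO Fm Fs, hC', ?_⟩
  intro R m Θ α b h X g hX hg
  subst hX hg
  simp only [P9_FO, letV_eq]
  obtain ⟨h1, -, h3, -⟩ := P9_inv I h m α b m
  rw [P9_gXt I h, P9_toV_tab, h3]
  congr 2
  funext i
  have e4 := congrFun h1 i
  unfold cheb
  erw [Matrix.smul_mulVec, ← h1]
  rfl

end

end A56
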