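import Pool.Agent.Lib_helper50.A56.TDefs
/-!
# MP_a55cb8: block T1 (helper37): samples as matrices
-/

open Matrix Finset

namespace A56

theorem sdFull_ok (n : ℕ) : SDOK n (sdFull n) ∧
    toM n n (sdA (sdFull n)) = 1 := by
  have h0 : ∀ i < n, ((sdFull n).2.1 i : ℕ) = i + 1 := fun i hi => tabV_lt (t := .nat) hi
  refine ⟨⟨fun i hi => ?_, fun i hi i' hi' h _ => ?_, fun p hp => ⟨p, hp, h0 p hp⟩⟩, ?_⟩
  · rw [h0 i hi]
    exact hi
  · rw [h0 i hi, h0 i' hi'] at h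
    exact Nat.succ_injective h
  · ext p i
    have h1 : ((sdFull n).2.2.1 i : ℝ) = 1 :=
      tabV_lt (t := .real) (f := fun _ => (1 : ℝ)) i.2
    simp only [toM, sdA, h0 i i.2, h1, Matrix.one_apply]
    by_cases h : p = i
    · subst h
      simp
    · have h2 : ¬ ((i : ℕ) + 1 = (p : ℕ) + 1) := fun h' => h (Fin.ext (by omega))
      rw [if_neg h2, if_neg h]

theorem sdEmpty_ok (n : ℕ) : SDOK n sdEmpty ∧ ∀ i, sdW sdEmpty i = 0 := by
  refine ⟨⟨fun i _ => le_rfl, fun i _ i' _ _ h => absurd rfl h, fun p hp => ?_⟩, fun i => ?_⟩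
  · exact absurd hp (Nat.not_lt_zero p)
  · exact if_pos rfl

/-- the index at the position `p` -/
theorem T1_idx (n : ℕ) (s : SDT.den) (h : SDOK n s) :
    ∃ e : Fin s.1 → Fin n, (∀ p, s.2.1 (e p) = p + 1) ∧ Function.Injective e ∧
      (∀ i : Fin n, s.2.1 i ≠ 0 → ∃ p, e p = i) ∧
      ∀ (p : Fin s.1) (i : Fin n), s.2.1 i = p + 1 → i = e p := by
  have h1 : ∀ p : Fin s.1, ∃ i : Fin n, s.2.1 i = p + 1 := fun p => by
    obtain ⟨i, hi, hp⟩ := h.2.2 p p.2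
    exact ⟨⟨i, hi⟩, hp⟩
  choose e he using h1
  refine ⟨e, he, fun p q hpq => ?_, fun i hi => ?_, fun p i hi => ?_⟩
  · have h2 : (q : ℕ) + 1 = p + 1 := by rw [← he p, ← he q, hpq]
    exact Fin.ext (by omega)
  · have h2 : (s.2.1 i : ℕ) ≤ s.1 := h.1 i i.2
    have h2' : (s.2.1 i : ℕ) ≠ 0 := hi
    obtain ⟨q, hq⟩ := Nat.exists_eq_succ_of_ne_zero h2'
    have h3 : q < s.1 := by rw [hq] at h2; exact h2
    refine ⟨⟨q, h3⟩, ?_⟩
    have h4 : s.2.1 (e ⟨q, h3⟩) = s.2.1 i := by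
      rw [he]
      exact hq.symm
    exact Fin.ext (h.2.1 _ (e _).2 _ i.2 h4 (by rw [h4]; exact hi))
  · exact Fin.ext (h.2.1 _ i.2 _ (e p).2 (by rw [hi, he]) (by rw [hi]; exact Nat.succ_ne_zero _))

theorem T1_mul {n : ℕ} {s : SDT.den} {e : Fin s.1 → Fin n} (he : ∀ p, s.2.1 (e p) = p + 1)
    (he2 : ∀ (p : Fin s.1) (i : Fin n), s.2.1 i = p + 1 → i = e p) (v : Fin n → ℝ)
    (p : Fin s.1) : (smM n s *ᵥ v) p = sdW s (e p) * v (e p) := by
  have h1 : (smM n s *ᵥ v) p = ∑ i : Fin n, sdA s p i * v i := rfl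
  rw [h1, Finset.sum_eq_single (e p)]
  · have h2 : s.2.1 (e p) ≠ 0 := by rw [he]; exact Nat.succ_ne_zero _
    rw [sdA, sdW, if_pos (he p), if_neg h2]
  · intro i _ hi
    have h2 : ¬ s.2.1 i = p + 1 := fun h => hi (he2 p i h)
    rw [sdA, if_neg h2, zero_mul]
  · intro h
    exact absurd (Finset.mem_univ _) h

theorem sd_sq (n : ℕ) (s : SDT.den) (h : SDOK n s) (v : Fin n → ℝ) :
    sq (smM n s *ᵥ v) = sq ((diagonal fun i : Fin n => sdW s i) *ᵥ v) := by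
  obtain ⟨e, he, hinj, hsur, he2⟩ := T1_idx n s h
  rw [sq, sq]
  refine Finset.sum_of_injOn e (fun p _ q _ hpq => hinj hpq) (fun p _ => Finset.mem_coe.2 (Finset.mem_univ _))
    (fun i _ hi => ?_) (fun p _ => ?_)
  · have h1 : s.2.1 i = 0 := by
      by_contra hne
      obtain ⟨p, hp⟩ := hsur i hne
      exact hi ⟨p, Finset.mem_coe.2 (Finset.mem_univ _), hp⟩
    rw [mulVec_diagonal, sdW, if_pos h1]
    norm_num
  · rw [T1_mul he he2, mulVec_diagonal]

theorem sd_valid (n : ℕ) (s : SDT.den) (h : SDOK n s) (A : Matrix (Fin n) (Fin n) ℝ) (l : ℝ) :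
    Valid (smM n s) A l ↔ Valid (diagonal fun i : Fin n => sdW s i) A l := by
  refine forall_congr' fun x => ?_
  rw [sd_sq n s h]

theorem T1_tr {n : ℕ} {s : SDT.den} (h : SDOK n s) (y : Fin s.1 → ℝ) :
    ∃ z : Fin n → ℝ, (smM n s)ᵀ *ᵥ y = (diagonal fun i : Fin n => sdW s i) *ᵥ z ∧
      sq z = sq y := by
  obtain ⟨e, he, hinj, hsur, he2⟩ := T1_idx n s h
  classical
  refine ⟨fun i => if hi : ∃ p, e p = i then y hi.choose else 0, ?_, ?_⟩
  · ext i
    have h1 : ((smM n s)ᵀ *ᵥ y) i = ∑ p : Fin s.1, sdA s p i * y p := rfl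
    rw [h1, mulVec_diagonal]
    by_cases hi : ∃ p, e p = i
    · rw [dif_pos hi]
      have h2 := hi.choose_spec
      rw [Finset.sum_eq_single hi.choose]
      · have h3 : s.2.1 i = hi.choose + 1 := by rw [← he, h2]
        have h4 : s.2.1 i ≠ 0 := by rw [h3]; exact Nat.succ_ne_zero _
        rw [sdA, if_pos h3, sdW, if_neg h4]
      · intro q _ hq
        have h3 : ¬ s.2.1 i = q + 1 := fun h3 => hq (hinj ((he2 q i h3).symm.trans h2.symm))
        rw [sdA, if_neg h3, zero_mul]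
      · intro h3
        exact absurd (Finset.mem_univ _) h3
    · rw [dif_neg hi, mul_zero]
      refine Finset.sum_eq_zero fun q _ => ?_
      have h3 : ¬ s.2.1 i = q + 1 := fun h3 => hi ⟨q, (he2 q i h3).symm⟩
      rw [sdA, if_neg h3, zero_mul]
  · rw [sq, sq]
    symm
    refine Finset.sum_of_injOn e (fun p _ q _ hpq => hinj hpq)
      (fun p _ => Finset.mem_coe.2 (Finset.mem_univ _)) (fun i _ hi => ?_) (fun p _ => ?_)
    · have h1 : ¬ ∃ p, e p = i := fun ⟨p, hp⟩ => hi ⟨p, Finset.mem_coe.2 (Finset.mem_univ _), hp⟩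
      simp only [dif_neg h1]
      norm_num
    · have h1 : ∃ q, e q = e p := ⟨p, rfl⟩
      have h2 : h1.choose = p := hinj h1.choose_spec
      simp only [dif_pos h1, h2]

theorem sd_noise (n : ℕ) (s t : SDT.den) (hs : SDOK n s) (ht : SDOK n t)
    (A : Matrix (Fin n) (Fin n) ℝ) (l C : ℝ)
    (h : Noise (diagonal fun i : Fin n => sdW s i) A (diagonal fun i : Fin n => sdW t i) l C) :
    Noise (smM n s) A (smM n t)ᵀ l C := by
  intro y
  obtain ⟨z, hz, hz2⟩ := T1_tr hs y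
  have h1 := h z
  rw [diagonal_transpose, diagonal_transpose, ← hz, hz2] at h1
  rw [transpose_transpose, sd_sq n t ht]
  exact h1

theorem mkOp_mat {mm : ℕ → ℕ} (Φ : Lib mm) (n : ℕ) (E : OpT.den) (s t : SDT.den) (hE : OpOK E)
    (h : E.1 = (n, n)) (hs : SDOK n s) (ht : SDOK n t) :
    toM s.1 t.1 (opA (Φ.mkOp (E, (s, t)))) = smM n s * toM n n (opA E) * (smM n t)ᵀ := by
  obtain ⟨-, -, -, -, h5, -⟩ := Φ.mkOp_eq E s t n hE h hs ht
  ext p r
  rw [Matrix.mul_apply]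
  simp only [Matrix.mul_apply, Matrix.transpose_apply]
  have h1 : toM s.1 t.1 (opA (Φ.mkOp (E, (s, t)))) p r = opA (Φ.mkOp (E, (s, t))) p r := rfl
  rw [h1, h5 p p.2 r r.2, Finset.sum_comm, Finset.sum_range]
  refine Finset.sum_congr rfl fun c _ => ?_
  rw [Finset.sum_mul, Finset.sum_range]
  rfl

end A56
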