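import Pool.Agent.Lib_helper50.A56.TDefs
/-!
# MP_a55cb8: block T3 (helper45): the shape of the chain of a stage
-/

open Matrix Finset

namespace A56

theorem T3_sdFull_ok (n : ℕ) : SDOK n (sdFull n) := by
  have h : ∀ i < n, (sdFull n).2.1 i = i + 1 := fun i hi => tabV_lt (t := .nat) hi
  refine ⟨fun i hi => ?_, fun i hi i' hi' he _ => ?_, fun p hp => ⟨p, hp, h p hp⟩⟩
  · rw [h i hi]; exact hi
  · rw [h i hi, h i' hi'] at he
    exact Nat.succ_injective he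

/-- the entries of the chain of operators -/
theorem T3_ops (g : GT.den) (j : ℕ) (D F : ℕ → OpT.den) (SE : OpT.den) (base : BaseT.den)
    (m : ℕ) (hm : j = lev0 g j + m) :
    topIx g j = 2 * m + 2 ∧
    (∀ i ≤ m, (asm g j D F SE base).1 (2 * i) = (0, D (lev0 g j + i))) ∧
    (∀ i < m, (asm g j D F SE base).1 (2 * i + 1) = (1, F (lev0 g j + i + 1))) ∧
    (asm g j D F SE base).1 (2 * m + 1) = (1, SE) ∧
    (asm g j D F SE base).1 (2 * m + 2) = (0, gE g) ∧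
    (asm g j D F SE base).1 (2 * m + 3) = (1, gE g) ∧
    (asm g j D F SE base).1 (2 * m + 4) = (0, gE g) := by
  have hT : topIx g j = 2 * m + 2 := by
    unfold topIx
    omega
  refine ⟨hT, fun i hi => ?_, fun i hi => ?_, ?_, ?_, ?_, ?_⟩
  · unfold asm
    dsimp only
    rw [tabV_lt (by omega), if_pos (by omega), if_pos (by omega)]
    congr 3
    omega
  · unfold asm
    dsimp only
    rw [tabV_lt (by omega), if_pos (by omega), if_neg (by omega),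
      show (2 * i + 1 + 1) / 2 = i + 1 by omega, ← add_assoc]
  · unfold asm
    dsimp only
    rw [tabV_lt (by omega), if_neg (by omega), if_pos (by omega)]
  · unfold asm
    dsimp only
    rw [tabV_lt (by omega), if_neg (by omega), if_neg (by omega), if_neg (by omega)]
  · unfold asm
    dsimp only
    rw [tabV_lt (by omega), if_neg (by omega), if_neg (by omega), if_pos (by omega)]
  · unfold asm
    dsimp only
    rw [tabV_lt (by omega), if_neg (by omega), if_neg (by omega), if_neg (by omega)]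

/-- the ridges at the top -/
theorem T3_lam (g : GT.den) (j : ℕ) (D F : ℕ → OpT.den) (SE : OpT.den) (base : BaseT.den) :
    (asm g j D F SE base).2.1.1 (topIx g j) = gLam g j ∧
    (asm g j D F SE base).2.1.1 (topIx g j + 1) = gLam g (j + 1) ∧
    (asm g j D F SE base).2.1.1 (topIx g j + 2) = gLam g (j + 1) := by
  refine ⟨?_, ?_, ?_⟩
  · unfold asm
    dsimp only
    rw [tabV_lt (by omega), if_neg (by omega), if_neg (by omega)]
  · unfold asm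
    dsimp only
    rw [tabV_lt (by omega), if_pos (by omega)]
  · unfold asm
    dsimp only
    rw [tabV_lt (by omega), if_pos (by omega)]

/-- lower constants and degrees -/
theorem T3_deg (g : GT.den) (j : ℕ) (D F : ℕ → OpT.den) (SE : OpT.den) (base : BaseT.den)
    (r : ℕ) (hr : r < topIx g j + 2) :
    ((asm g j D F SE base).2.1.2 (r + 1) = gQ g 2 ∧
      (asm g j D F SE base).2.2.1 (r + 1) = gP g 16) ∨
    ((asm g j D F SE base).2.1.2 (r + 1) = gQ g 3 ∧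
      (asm g j D F SE base).2.2.1 (r + 1) = gP g 17) := by
  unfold asm
  dsimp only
  rw [tabV_lt (by omega), tabV_lt (by omega)]
  split_ifs <;> first
    | exact Or.inr ⟨rfl, rfl⟩
    | exact Or.inl ⟨rfl, rfl⟩

/-- the sketch of the base -/
theorem T3_sketch (n J m : ℕ) (y : CooT.den) (h : SkOK n J m y) : CooOK n m (cooT y) := by
  intro e he
  obtain ⟨h1, h2⟩ := h
  have he' : e < J * n := by
    rw [← h1]
    exact he
  have hn : 0 < n := by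
    rcases Nat.eq_zero_or_pos n with h | h
    · subst h; simp at he'
    · exact h
  have ht : e / n < J := by
    rw [Nat.div_lt_iff_lt_mul hn]
    exact he'
  have hi : e % n < n := Nat.mod_lt _ hn
  have := h2 (e / n) ht (e % n) hi
  rw [show e / n * n + e % n = e by rw [mul_comm]; exact Nat.div_add_mod e n] at this
  refine ⟨?_, ?_⟩
  · show y.2.2.1 e < n
    rw [this.1]
    exact hi
  · exact this.2

section

variable {mm : ℕ → ℕ} (Φ : Lib mm) (c : Cst) (x : InT.den) (A0 : CooT.den) (g : GT.den)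

/-- the numbers -/
theorem T3_par (hc : Big c) (hg : GOK c x A0 g) :
    gQ g 4 = (pl c x : ℝ) ∧ gQ g 2 = (pl c x : ℝ)⁻¹ ∧
    gQ g 3 = ((pl c x : ℝ) * (pK c x : ℝ))⁻¹ ∧ gP g 16 = pdeg1 c x ∧ gP g 17 = pdegK c x ∧
    gP g 0 = x.1.1 ∧ gP g 5 = pl c x ∧ gP g 10 = pb3 c x ∧ gP g 11 = pk3 c x ∧
    2 ≤ pl c x := by
  refine ⟨?_, ?_, ?_, ?_, ?_, ?_, ?_, ?_, ?_, ?_⟩
  · show g.1.2.1 4 = _
    rw [hg.hQ]; rfl
  · show g.1.2.1 2 = _
    rw [hg.hQ]; rfl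
  · show g.1.2.1 3 = _
    rw [hg.hQ]; rfl
  · show g.1.1 16 = _
    rw [hg.hP]; rfl
  · show g.1.1 17 = _
    rw [hg.hP]; rfl
  · show g.1.1 0 = _
    rw [hg.hP]; rfl
  · show g.1.1 5 = _
    rw [hg.hP]; rfl
  · show g.1.1 10 = _
    rw [hg.hP]; rfl
  · show g.1.1 11 = _
    rw [hg.hP]; rfl
  · have := hc.c1
    unfold pl
    omega

theorem T3_num (l τ p : ℕ) (hl : 2 ≤ l) :
    (∃ s : ℕ, 1 ≤ s ∧ (l : ℝ) ≤ (s : ℝ) ^ 2 * (l : ℝ)⁻¹ ∧ s * p ≤ l * p ∧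
      0 < (l : ℝ)⁻¹ ∧ (l : ℝ)⁻¹ < (l : ℝ)) ∧
    (∃ s : ℕ, 1 ≤ s ∧ (l : ℝ) ≤ (s : ℝ) ^ 2 * ((l : ℝ) * ((4 ^ τ : ℕ) : ℝ))⁻¹ ∧
      s * p ≤ l * 2 ^ τ * p ∧
      0 < ((l : ℝ) * ((4 ^ τ : ℕ) : ℝ))⁻¹ ∧ ((l : ℝ) * ((4 ^ τ : ℕ) : ℝ))⁻¹ < (l : ℝ)) := by
  have hl' : (2 : ℝ) ≤ l := by exact_mod_cast hl
  have hl0 : (0 : ℝ) < l := by linarith
  have h4 : (1 : ℝ) ≤ ((4 ^ τ : ℕ) : ℝ) := by exact_mod_cast Nat.one_le_pow _ _ (by norm_num)
  have h40 : (0 : ℝ) < ((4 ^ τ : ℕ) : ℝ) := by linarith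
  have hinv : (l : ℝ)⁻¹ ≤ 1 := by
    rw [inv_le_one₀ hl0]; linarith
  refine ⟨⟨l, by omega, ?_, le_rfl, by positivity, by linarith⟩,
    ⟨l * 2 ^ τ, ?_, ?_, le_rfl, by positivity, ?_⟩⟩
  · rw [pow_two, mul_assoc, mul_inv_cancel₀ hl0.ne', mul_one]
  · exact Nat.mul_pos (by omega) (by positivity)
  · have h : (((l * 2 ^ τ : ℕ) : ℝ)) ^ 2 = (l : ℝ) * ((l : ℝ) * ((4 ^ τ : ℕ) : ℝ)) := by
      push_cast
      rw [mul_pow, ← pow_mul, mul_comm τ 2, pow_mul]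
      norm_num
      ring
    rw [h, mul_assoc, mul_inv_cancel₀ (by positivity), mul_one]
  · have h1 : (1 : ℝ) ≤ (l : ℝ) * ((4 ^ τ : ℕ) : ℝ) := by nlinarith
    have : ((l : ℝ) * ((4 ^ τ : ℕ) : ℝ))⁻¹ ≤ 1 := by
      rw [inv_le_one₀ (by linarith)]; exact h1
    linarith

/-- the degrees and constants of the chain data satisfy the hypotheses of `chain_sol`; the shape
of the base data is a hypothesis -/
theorem T3_chain_shape (hc : Big c) (hg : GOK c x A0 g) (j : ℕ) (st : StT.den) (w : ℕ → ℕ)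
    (hL : Lev Φ g j st) (hj : j ≤ pl c x ^ 3)
    (hb : OpOK (st.2.2.1.1 (lev0 g j)) → CooOK (opC (st.2.2.1.1 (lev0 g j)))
      (baseOf Φ g j st w).1.2 (baseOf Φ g j st w).2.1) :
    let Θ := theta Φ g j st w
    ChOK Θ (topIx g j + 2) ∧ chD Θ (topIx g j) = x.1.1 ∧ chD Θ (topIx g j + 1) = x.1.1 ∧
      chD Θ (topIx g j + 2) = x.1.1 ∧ Θ.1 (topIx g j) = (0, gE g) ∧
      Θ.1 (topIx g j + 1) = (1, gE g) ∧ Θ.1 (topIx g j + 2) = (0, gE g) ∧
      Θ.2.1.1 (topIx g j) = lamM c x g j ∧ Θ.2.1.1 (topIx g j + 1) = lamM c x g (j + 1) ∧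
      Θ.2.1.1 (topIx g j + 2) = lamM c x g (j + 1) ∧
      (∀ r < topIx g j + 2, ∃ s : ℕ, 1 ≤ s ∧ Θ.2.2.2.1 ≤ (s : ℝ) ^ 2 * Θ.2.1.2 (r + 1) ∧
        s * pt c x ≤ Θ.2.2.1 (r + 1) ∧ 0 < Θ.2.1.2 (r + 1) ∧ Θ.2.1.2 (r + 1) < Θ.2.2.2.1) := by
  intro Θ
  obtain ⟨p4, p2, p3, p16, p17, p0, p5, p10, p11, pl2⟩ := T3_par c x A0 g hc hg
  obtain ⟨m, hm⟩ : ∃ m, j = lev0 g j + m := ⟨j - lev0 g j, by unfold lev0; omega⟩
  have hΘ : Θ = asm g j st.2.2.1.1 st.2.2.1.2 (Φ.mkOp (gE g, (st.2.1.1 j, sdFull (gP g 0))))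
    (baseOf Φ g j st w) := rfl
  obtain ⟨hT, oD, oF, oS, oE0, oE1, oE2⟩ := T3_ops g j st.2.2.1.1 st.2.2.1.2
    (Φ.mkOp (gE g, (st.2.1.1 j, sdFull (gP g 0)))) (baseOf Φ g j st w) m hm
  rw [← hΘ] at oD oF oS oE0 oE1 oE2
  obtain ⟨l0, l1, l2⟩ := T3_lam g j st.2.2.1.1 st.2.2.1.2
    (Φ.mkOp (gE g, (st.2.1.1 j, sdFull (gP g 0)))) (baseOf Φ g j st w)
  rw [← hΘ] at l0 l1 l2
  obtain ⟨hL1, hL2, hL3, hL4⟩ := hL
  rw [p0] at hL3
  -- the operators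
  have kE : opR (gE g) = x.1.1 ∧ opC (gE g) = x.1.1 := by
    unfold opR opC
    rw [hg.dim]
    exact ⟨rfl, rfl⟩
  have kD : ∀ i ≤ j, OpOK (st.2.2.1.1 i) ∧ opR (st.2.2.1.1 i) = (st.2.1.1 i).1 ∧
      opC (st.2.2.1.1 i) = (st.2.1.2 i).1 := by
    intro i hi
    obtain ⟨h1, h2, h3⟩ := hL3 i hi
    obtain ⟨k1, k2, -⟩ := Φ.mkOp_eq (gE g) (st.2.1.1 i) (st.2.1.2 i) x.1.1 hg.ok hg.dim h1 h2
    rw [h3]
    refine ⟨k1, ?_, ?_⟩
    · unfold opR; rw [k2]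
    · unfold opC; rw [k2]
  have kF : ∀ i < j, OpOK (st.2.2.1.2 (i + 1)) ∧ opR (st.2.2.1.2 (i + 1)) = (st.2.1.1 i).1 ∧
      opC (st.2.2.1.2 (i + 1)) = (st.2.1.2 (i + 1)).1 := by
    intro i hi
    obtain ⟨h1, -, -⟩ := hL3 i hi.le
    obtain ⟨-, h2, -⟩ := hL3 (i + 1) hi
    obtain ⟨k1, k2, -⟩ := Φ.mkOp_eq (gE g) (st.2.1.1 i) (st.2.1.2 (i + 1)) x.1.1 hg.ok hg.dim
      h1 h2
    rw [hL4 i hi]
    refine ⟨k1, ?_, ?_⟩
    · unfold opR; rw [k2]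
    · unfold opC; rw [k2]
  have kS : OpOK (Φ.mkOp (gE g, (st.2.1.1 j, sdFull (gP g 0)))) ∧
      opR (Φ.mkOp (gE g, (st.2.1.1 j, sdFull (gP g 0)))) = (st.2.1.1 j).1 ∧
      opC (Φ.mkOp (gE g, (st.2.1.1 j, sdFull (gP g 0)))) = x.1.1 := by
    obtain ⟨h1, -, -⟩ := hL3 j le_rfl
    rw [p0]
    obtain ⟨k1, k2, -⟩ := Φ.mkOp_eq (gE g) (st.2.1.1 j) (sdFull x.1.1) x.1.1 hg.ok hg.dim
      h1 (T3_sdFull_ok _)
    refine ⟨k1, ?_, ?_⟩
    · unfold opR; rw [k2]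
    · unfold opC; rw [k2]; rfl
  have fR0 : ∀ X : OpT.den, fopR (0, X) = opR X := fun X => if_pos rfl
  have fC0 : ∀ X : OpT.den, fopC (0, X) = opC X := fun X => if_pos rfl
  have fR1 : ∀ X : OpT.den, fopR (1, X) = opC X := fun X => if_neg one_ne_zero
  have fC1 : ∀ X : OpT.den, fopC (1, X) = opR X := fun X => if_neg one_ne_zero
  have hok : ChOK Θ (topIx g j + 2) := by
    refine ⟨fun r hr => ?_, fun r hr => ?_, ?_⟩
    · rw [hT] at hr
      rcases Nat.lt_or_ge r (2 * m + 1) with h | h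
      · obtain ⟨i, hi | hi⟩ := Nat.even_or_odd' r
        · rw [hi, oD i (by omega)]
          exact (kD _ (by omega)).1
        · rw [hi, oF i (by omega)]
          exact (kF _ (by omega)).1
      · obtain h | h | h | h : r = 2 * m + 1 ∨ r = 2 * m + 2 ∨ r = 2 * m + 3 ∨ r = 2 * m + 4 := by
          omega
        · rw [h, oS]; exact kS.1
        · rw [h, oE0]; exact hg.ok
        · rw [h, oE1]; exact hg.ok
        · rw [h, oE2]; exact hg.ok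
    · rw [hT] at hr
      rcases Nat.lt_or_ge r (2 * m) with h | h
      · obtain ⟨i, hi | hi⟩ := Nat.even_or_odd' r
        · rw [hi, oD i (by omega), oF i (by omega), fC1, fR0, (kF _ (by omega)).2.1,
            (kD _ (by omega)).2.1]
        · rw [hi, oF i (by omega), show 2 * i + 1 + 1 = 2 * (i + 1) by ring,
            oD (i + 1) (by omega), fC0, fR1, (kF _ (by omega)).2.2, ← add_assoc,
            (kD _ (by omega)).2.2]
      · obtain h | h | h | h : r = 2 * m ∨ r = 2 * m + 1 ∨ r = 2 * m + 2 ∨ r = 2 * m + 3 := by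
          omega
        · rw [h, oS, oD m le_rfl, fC1, fR0, kS.2.1, (kD _ (by omega)).2.1, ← hm]
        · rw [h, oS, oE0, fC0, fR1, kS.2.2, kE.2]
        · rw [h, oE0, oE1, fC1, fR0]
        · rw [h, oE1, oE2, fC0, fR1]
    · have h0 := oD 0 (Nat.zero_le _)
      rw [mul_zero, add_zero] at h0
      have e1 : Θ.2.2.2.2 = baseOf Φ g j st w := rfl
      rw [h0, fC0, e1]
      exact hb (kD _ (by omega)).1
  have e0 : topIx g j = (2 * m + 1) + 1 := hT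
  have q0 : Θ.1 (topIx g j) = (0, gE g) := by rw [hT]; exact oE0
  have q1 : Θ.1 (topIx g j + 1) = (1, gE g) := by rw [hT]; exact oE1
  have q2 : Θ.1 (topIx g j + 2) = (0, gE g) := by rw [hT]; exact oE2
  refine ⟨hok, ?_, ?_, ?_, q0, q1, q2, ?_, ?_, ?_, ?_⟩
  · rw [e0]
    show fopR (Θ.1 (2 * m + 1)) = _
    rw [oS, fR1, kS.2.2]
  · show fopR (Θ.1 (topIx g j)) = _
    rw [q0, fR0, kE.1]
  · show fopR (Θ.1 (topIx g j + 1)) = _
    rw [q1, fR1, kE.2]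
  · rw [l0]; exact hg.lamE j (by omega)
  · rw [l1]; exact hg.lamE (j + 1) (by omega)
  · rw [l2]; exact hg.lamE (j + 1) (by omega)
  · intro r hr
    have hbe : Θ.2.2.2.1 = (pl c x : ℝ) := p4
    obtain ⟨n1, n2⟩ := T3_num (pl c x) (ptau c x) (pt c x) pl2
    rw [hbe]
    rcases T3_deg g j st.2.2.1.1 st.2.2.1.2 (Φ.mkOp (gE g, (st.2.1.1 j, sdFull (gP g 0))))
      (baseOf Φ g j st w) r hr with ⟨h1, h2⟩ | ⟨h1, h2⟩
    · rw [← hΘ] at h1 h2
      rw [h1, h2, p2, p16]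
      exact n1
    · rw [← hΘ] at h1 h2
      rw [h1, h2, p3, p17]
      exact n2

/-- the degrees and constants of the chain data satisfy the hypotheses of `chain_sol` -/
theorem chain_shape (hc : Big c) (hg : GOK c x A0 g) (j : ℕ) (st : StT.den) (w : ℕ → ℕ)
    (hL : Lev Φ g j st) (hj : j ≤ pl c x ^ 3) :
    let Θ := theta Φ g j st w
    ChOK Θ (topIx g j + 2) ∧ chD Θ (topIx g j) = x.1.1 ∧ chD Θ (topIx g j + 1) = x.1.1 ∧
      chD Θ (topIx g j + 2) = x.1.1 ∧ Θ.1 (topIx g j) = (0, gE g) ∧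
      Θ.1 (topIx g j + 1) = (1, gE g) ∧ Θ.1 (topIx g j + 2) = (0, gE g) ∧
      Θ.2.1.1 (topIx g j) = lamM c x g j ∧ Θ.2.1.1 (topIx g j + 1) = lamM c x g (j + 1) ∧
      Θ.2.1.1 (topIx g j + 2) = lamM c x g (j + 1) ∧
      (∀ r < topIx g j + 2, ∃ s : ℕ, 1 ≤ s ∧ Θ.2.2.2.1 ≤ (s : ℝ) ^ 2 * Θ.2.1.2 (r + 1) ∧
        s * pt c x ≤ Θ.2.2.1 (r + 1) ∧ 0 < Θ.2.1.2 (r + 1) ∧ Θ.2.1.2 (r + 1) < Θ.2.2.2.1) := by
  obtain ⟨p4, p2, p3, p16, p17, p0, p5, p10, p11, pl2⟩ := T3_par c x A0 g hc hg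
  refine T3_chain_shape Φ c x A0 g hc hg j st w hL hj fun hok => ?_
  by_cases h25 : gP g 25 = 1
  · have e0 : baseOf Φ g j st w = Φ.base3 (((gP g 24, gP g 12), gP g 26), (gLam g (lev0 g j),
        (st.2.2.1.1 (lev0 g j), ((st.2.1.1 (lev0 g j)).2.2.2,
          (st.2.1.2 (lev0 g j)).2.2.2)))) := by
      unfold baseOf
      rw [if_pos h25]
    have h := Φ.base3_shape (gP g 24) (gP g 12) (gP g 26) (gLam g (lev0 g j))
      (st.2.2.1.1 (lev0 g j)) (st.2.1.1 (lev0 g j)).2.2.2 (st.2.1.2 (lev0 g j)).2.2.2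
    rw [← e0] at h
    have h24 : 1 ≤ gP g 24 := by
      have e1 : gP g 24 = phcap c x := by
        show g.1.1 24 = _
        rw [hg.hP]; rfl
      rw [e1]
      unfold phcap pBd
      exact Nat.mul_pos (Nat.pow_pos (by omega)) (Nat.succ_pos _)
    have h2 := h.2.2 hok h24
    have h3 : (baseOf Φ g j st w).1.2 = 2 * gP g 24 + (st.2.2.1.1 (lev0 g j)).2.1.2 :=
      congrArg Prod.snd h.1
    rw [h3]
    exact h2
  · have e0 : baseOf Φ g j st w = Φ.base (((gP g 24, gP g 12), (gP g 11, gP g 18)),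
        (gLam g (lev0 g j), ((st.2.2.1.1 (lev0 g j), ((st.2.1.1 (lev0 g j)).2.2.2,
          (st.2.1.2 (lev0 g j)).2.2.2)), omOf Φ g j st w))) := by
      unfold baseOf
      rw [if_neg h25]
    have h := Φ.base_shape (gP g 24) (gP g 12) (gP g 11) (gP g 18) (gLam g (lev0 g j))
      (st.2.2.1.1 (lev0 g j)) (st.2.1.1 (lev0 g j)).2.2.2 (st.2.1.2 (lev0 g j)).2.2.2
      (omOf Φ g j st w)
    rw [← e0] at h
    have hb1 : (baseOf Φ g j st w).1.2 = gP g 11 := congrArg Prod.snd h.1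
    rw [hb1, h.2]
    have h2 := (Φ.sk_eq (opC (st.2.2.1.1 (lev0 g j))) (gP g 5) (gP g 10) w).1
    have h3 := T3_sketch _ _ _ _ h2
    rw [p11]
    rw [p5, p10] at h3
    unfold omOf
    rw [p5, p10]
    exact h3

end

end A56
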