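import Pool.Agent.Lib_helper50.A56.TDefs
import Pool.Agent.Lib_helper50.A56.B.D11
import Pool.Agent.Lib_helper50.A56.B.D1a
import Pool.Agent.Lib_helper50.A56.B.D1b
import Pool.Agent.Lib_helper50.A56.B.D2
import Pool.Agent.Lib_helper50.A56.B.D7a
import Pool.Agent.Lib_helper50.A56.B.T1
import Pool.Agent.Lib_helper50.A56.B.T2
import Pool.Agent.Lib_helper50.A56.B.T3
/-!
# MP_a55cb8, correctness layer, block T4 (helper13): `chain_stage`
-/

open Matrix Finset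

namespace A56

/- stubs of other blocks -/

section

variable {m n a b c : Type*} [Fintype m] [Fintype n] [Fintype a] [Fintype b] [Fintype c]
  [DecidableEq m] [DecidableEq n] [DecidableEq a] [DecidableEq b] [DecidableEq c]

end

section links

variable {a a2 n c c2 : ℕ} {S : Matrix (Fin a) (Fin n) ℝ} {S2 : Matrix (Fin a2) (Fin n) ℝ}
  {E : Matrix (Fin n) (Fin n) ℝ} {T : Matrix (Fin n) (Fin c) ℝ} {T2 : Matrix (Fin n) (Fin c2) ℝ}
  {l K β : ℝ}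

end links

section

variable {mm : ℕ → ℕ} (Φ : Lib mm) (c : Cst) (x : InT.den) (A0 : CooT.den) (g : GT.den)
  (A : Matrix (Fin x.1.1) (Fin x.1.1) ℝ) (xs : Fin x.1.1 → ℝ) (sg sn : ℝ) (cs : ℕ)

end

/- T4_BEGIN -/

/-! ### the chain data -/

/-- the number of links below the top -/
def T4_L (g : GT.den) (j : ℕ) : ℕ := j - lev0 g j

section

variable (g : GT.den) (j : ℕ) (D F : ℕ → OpT.den) (SE : OpT.den) (base : BaseT.den)

/-- the operators of the chain -/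
def T4_of : ℕ → FOpT.den := fun r =>
  if r < topIx g j - 1 then
    (if r = 2 * (r / 2) then (0, D (lev0 g j + r / 2)) else (1, F (lev0 g j + (r + 1) / 2)))
  else if r = topIx g j - 1 then (1, SE)
  else if r = topIx g j + 1 then (1, gE g) else (0, gE g)

/-- the ridges of the chain -/
noncomputable def T4_lf : ℕ → ℝ := fun r =>
  if topIx g j < r then gLam g (j + 1)
  else if r < topIx g j - 1 then gLam g (lev0 g j + r / 2) else gLam g j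

/-- the lower constants of the chain -/
noncomputable def T4_af : ℕ → ℝ := fun r =>
  if r = 0 then gQ g 2
  else if r = topIx g j + 1 then gQ g 3
  else if r < topIx g j - 1 then (if r = 2 * (r / 2) then gQ g 3 else gQ g 2)
  else gQ g 2

/-- the degrees of the chain -/
def T4_df : ℕ → ℕ := fun r =>
  if r = 0 then gP g 16
  else if r = topIx g j + 1 then gP g 17
  else if r < topIx g j - 1 then (if r = 2 * (r / 2) then gP g 17 else gP g 16)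
  else gP g 16

theorem T4_asm1 : (asm g j D F SE base).1 = tabV FOpT (topIx g j + 3) (T4_of g j D F SE) := rfl
theorem T4_asm2 : (asm g j D F SE base).2.1.1 = tabV .real (topIx g j + 3) (T4_lf g j) := rfl
theorem T4_asm3 : (asm g j D F SE base).2.1.2 = tabV .real (topIx g j + 3) (T4_af g j) := rfl
theorem T4_asm4 : (asm g j D F SE base).2.2.1 = tabV .nat (topIx g j + 3) (T4_df g j) := rfl
theorem T4_asm5 : (asm g j D F SE base).2.2.2.1 = gQ g 4 := rfl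
theorem T4_ix : topIx g j = 2 * T4_L g j + 2 := rfl

theorem T4_even {m : ℕ} (hm : m ≤ T4_L g j) :
    (asm g j D F SE base).1 (2 * m) = (0, D (lev0 g j + m)) := by
  have hT := T4_ix g j
  have h1 : 2 * m < topIx g j + 3 := by omega
  have h2 : 2 * m < topIx g j - 1 := by omega
  have h3 : 2 * m = 2 * (2 * m / 2) := by omega
  have h4 : 2 * m / 2 = m := by omega
  rw [T4_asm1, tabV_lt h1, T4_of, if_pos h2, if_pos h3, h4]

theorem T4_odd {m : ℕ} (hm : m < T4_L g j) :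
    (asm g j D F SE base).1 (2 * m + 1) = (1, F (lev0 g j + (m + 1))) := by
  have hT := T4_ix g j
  have h1 : 2 * m + 1 < topIx g j + 3 := by omega
  have h2 : 2 * m + 1 < topIx g j - 1 := by omega
  have h3 : ¬ 2 * m + 1 = 2 * ((2 * m + 1) / 2) := by omega
  have h4 : (2 * m + 1 + 1) / 2 = m + 1 := by omega
  rw [T4_asm1, tabV_lt h1, T4_of, if_pos h2, if_neg h3, h4]

theorem T4_se : (asm g j D F SE base).1 (2 * T4_L g j + 1) = (1, SE) := by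
  have hT := T4_ix g j
  have h1 : 2 * T4_L g j + 1 < topIx g j + 3 := by omega
  have h2 : ¬ 2 * T4_L g j + 1 < topIx g j - 1 := by omega
  have h3 : 2 * T4_L g j + 1 = topIx g j - 1 := by omega
  rw [T4_asm1, tabV_lt h1, T4_of, if_neg h2, if_pos h3]

theorem T4_lam_even {m : ℕ} (hm : m ≤ T4_L g j) :
    (asm g j D F SE base).2.1.1 (2 * m) = gLam g (lev0 g j + m) := by
  have hT := T4_ix g j
  have h1 : 2 * m < topIx g j + 3 := by omega
  have h2 : 2 * m < topIx g j - 1 := by omega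
  have h3 : ¬ topIx g j < 2 * m := by omega
  have h4 : 2 * m / 2 = m := by omega
  rw [T4_asm2, tabV_lt h1, T4_lf, if_neg h3, if_pos h2, h4]

theorem T4_lam_odd {m : ℕ} (hm : m < T4_L g j) :
    (asm g j D F SE base).2.1.1 (2 * m + 1) = gLam g (lev0 g j + m) := by
  have hT := T4_ix g j
  have h1 : 2 * m + 1 < topIx g j + 3 := by omega
  have h2 : 2 * m + 1 < topIx g j - 1 := by omega
  have h3 : ¬ topIx g j < 2 * m + 1 := by omega
  have h4 : (2 * m + 1) / 2 = m := by omega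
  rw [T4_asm2, tabV_lt h1, T4_lf, if_neg h3, if_pos h2, h4]

theorem T4_lam_se : (asm g j D F SE base).2.1.1 (2 * T4_L g j + 1) = gLam g j := by
  have hT := T4_ix g j
  have h1 : 2 * T4_L g j + 1 < topIx g j + 3 := by omega
  have h2 : ¬ 2 * T4_L g j + 1 < topIx g j - 1 := by omega
  have h3 : ¬ topIx g j < 2 * T4_L g j + 1 := by omega
  rw [T4_asm2, tabV_lt h1, T4_lf, if_neg h3, if_neg h2]

theorem T4_al_z : (asm g j D F SE base).2.1.2 0 = gQ g 2 := by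
  have h1 : 0 < topIx g j + 3 := by omega
  rw [T4_asm3, tabV_lt h1, T4_af, if_pos rfl]

theorem T4_al_odd {m : ℕ} (hm : m ≤ T4_L g j) :
    (asm g j D F SE base).2.1.2 (2 * m + 1) = gQ g 2 := by
  have hT := T4_ix g j
  have h1 : 2 * m + 1 < topIx g j + 3 := by omega
  have h2 : ¬ 2 * m + 1 = 0 := by omega
  have h3 : ¬ 2 * m + 1 = topIx g j + 1 := by omega
  have h4 : ¬ 2 * m + 1 = 2 * ((2 * m + 1) / 2) := by omega
  rw [T4_asm3, tabV_lt h1, T4_af, if_neg h2, if_neg h3, if_neg h4]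
  split <;> rfl

theorem T4_al_even {m : ℕ} (hm : m < T4_L g j) :
    (asm g j D F SE base).2.1.2 (2 * m + 2) = gQ g 3 := by
  have hT := T4_ix g j
  have h1 : 2 * m + 2 < topIx g j + 3 := by omega
  have h2 : ¬ 2 * m + 2 = 0 := by omega
  have h3 : ¬ 2 * m + 2 = topIx g j + 1 := by omega
  have h4 : 2 * m + 2 = 2 * ((2 * m + 2) / 2) := by omega
  have h5 : 2 * m + 2 < topIx g j - 1 := by omega
  rw [T4_asm3, tabV_lt h1, T4_af, if_neg h2, if_neg h3, if_pos h5, if_pos h4]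

theorem T4_al_top {e : ℕ} (he : e = 0 ∨ e = 2) :
    (asm g j D F SE base).2.1.2 (2 * T4_L g j + 2 + e) = gQ g 2 := by
  have hT := T4_ix g j
  have h1 : 2 * T4_L g j + 2 + e < topIx g j + 3 := by omega
  have h2 : ¬ 2 * T4_L g j + 2 + e = 0 := by omega
  have h3 : ¬ 2 * T4_L g j + 2 + e = topIx g j + 1 := by omega
  have h5 : ¬ 2 * T4_L g j + 2 + e < topIx g j - 1 := by omega
  rw [T4_asm3, tabV_lt h1, T4_af, if_neg h2, if_neg h3, if_neg h5]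

theorem T4_al_top1 : (asm g j D F SE base).2.1.2 (2 * T4_L g j + 3) = gQ g 3 := by
  have hT := T4_ix g j
  have h1 : 2 * T4_L g j + 3 < topIx g j + 3 := by omega
  have h2 : ¬ 2 * T4_L g j + 3 = 0 := by omega
  have h3 : 2 * T4_L g j + 3 = topIx g j + 1 := by omega
  rw [T4_asm3, tabV_lt h1, T4_af, if_neg h2, if_pos h3]

theorem T4_deg_z : (asm g j D F SE base).2.2.1 0 = gP g 16 := by
  have h1 : 0 < topIx g j + 3 := by omega
  rw [T4_asm4, tabV_lt h1, T4_df, if_pos rfl]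

end

/-! ### flags -/

theorem T4_f0 (a c : ℕ) (y : OpT.den) : toM a c (fopA (0, y)) = toM a c (opA y) := by
  ext i j
  show fopA (0, y) i j = opA y i j
  rw [fopA, if_pos rfl]

theorem T4_f1 (a c : ℕ) (y : OpT.den) : toM a c (fopA (1, y)) = (toM c a (opA y))ᵀ := by
  ext i j
  show fopA (1, y) i j = opA y j i
  rw [fopA, if_neg (by exact one_ne_zero)]

theorem T4_R0 (y : OpT.den) : fopR (0, y) = y.1.1 := by rw [fopR, if_pos rfl]; rfl
theorem T4_C0 (y : OpT.den) : fopC (0, y) = y.1.2 := by rw [fopC, if_pos rfl]; rfl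
theorem T4_R1 (y : OpT.den) : fopR (1, y) = y.1.2 := by
  rw [fopR, if_neg (by exact one_ne_zero)]; rfl

/-! ### relations and norms with free dimensions -/

/-- the relation between consecutive matrices of the chain -/
def T4_Rel (a c e : ℕ) (f f' : ℕ → ℕ → ℝ) (α β l l' : ℝ) : Prop :=
  ∀ y : Fin a → ℝ, 2 * α * (sq ((toM a c f)ᵀ *ᵥ y) + l * sq y) ≤
      sq (toM e a f' *ᵥ y) + l' * sq y ∧
    3 / 2 * (sq (toM e a f' *ᵥ y) + l' * sq y) ≤ β * (sq ((toM a c f)ᵀ *ᵥ y) + l * sq y)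

/-- the bound for the norm of a matrix of the chain -/
def T4_Nrm (e a : ℕ) (f : ℕ → ℕ → ℝ) (Ω l : ℝ) : Prop :=
  ∀ y : Fin a → ℝ, sq (toM e a f *ᵥ y) ≤ Ω * l * sq y

theorem T4_sq_nonneg {n : Type*} [Fintype n] (x : n → ℝ) : 0 ≤ sq x :=
  Finset.sum_nonneg fun i _ => sq_nonneg (x i)

/-- the norm of a sample matrix -/
theorem T4_sm_norm (n : ℕ) (s : SDT.den) (h : SDOK n s) (l : ℕ)
    (hw : ∀ p : Fin n, 0 ≤ sdW s p ∧ sdW s p ≤ 2 ^ l) (v : Fin s.1 → ℝ) :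
    sq ((smM n s)ᵀ *ᵥ v) ≤ 4 ^ l * sq v := by
  refine sq_transpose_le (by positivity) (fun u => ?_) v
  rw [sd_sq n s h u]
  unfold sq
  rw [Finset.mul_sum]
  refine Finset.sum_le_sum fun i _ => ?_
  rw [Matrix.mulVec_diagonal, mul_pow]
  refine mul_le_mul_of_nonneg_right ?_ (sq_nonneg _)
  calc sdW s i ^ 2 ≤ (2 ^ l) ^ 2 := pow_le_pow_left₀ (hw i).1 (hw i).2 2
    _ = 4 ^ l := by rw [← pow_mul, mul_comm, pow_mul]; norm_num

/-! ### the data of a stage -/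

/-- everything that the chain needs -/
structure T4_Data (n j : ℕ) (E : Matrix (Fin n) (Fin n) ℝ) (Eo SE : OpT.den) (S T : ℕ → SDT.den)
    (D F : ℕ → OpT.den) (lam : ℕ → ℝ) (K β Ω : ℝ) : Prop where
  dimE : Eo.1 = (n, n)
  matE : toM n n (opA Eo) = E
  dimD : ∀ i ≤ j, (D i).1 = ((S i).1, (T i).1)
  matD : ∀ i ≤ j, toM (S i).1 (T i).1 (opA (D i)) = smM n (S i) * E * (smM n (T i))ᵀ
  dimF : ∀ i < j, (F (i + 1)).1 = ((S i).1, (T (i + 1)).1)
  matF : ∀ i < j, toM (S i).1 (T (i + 1)).1 (opA (F (i + 1))) =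
    smM n (S i) * E * (smM n (T (i + 1)))ᵀ
  dimSE : SE.1 = ((S j).1, n)
  matSE : toM (S j).1 n (opA SE) = smM n (S j) * E
  lam_pos : ∀ i, 0 < lam i
  K1 : 1 ≤ K
  lam_succ : ∀ i, lam (i + 1) = lam i / K
  hβ : 300 ≤ β
  vS : ∀ i ≤ j, Valid (smM n (S i)) E (lam i)
  vT : ∀ i ≤ j, Valid (smM n (T i)) Eᵀ (lam i)
  n1 : ∀ i ≤ j, Noise (smM n (S i)) E (smM n (T i))ᵀ (lam i) 2
  n2 : ∀ i < j, Noise (smM n (S i)) E (smM n (T (i + 1)))ᵀ (lam i) 2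
  Λ : ∃ Λ θ : ℝ, 0 ≤ Λ ∧ 1 ≤ θ ∧ (2 * Λ + 1) * θ ≤ Ω ∧
    (∀ i ≤ j + 1, ∀ v, sq (E *ᵥ v) ≤ Λ * lam i * sq v) ∧
    ∀ i ≤ j, ∀ v : Fin (T i).1 → ℝ, sq ((smM n (T i))ᵀ *ᵥ v) ≤ θ * sq v

namespace T4_Data

variable {n j : ℕ} {E : Matrix (Fin n) (Fin n) ℝ} {Eo SE : OpT.den} {S T : ℕ → SDT.den}
    {D F : ℕ → OpT.den} {lam : ℕ → ℝ} {K β Ω : ℝ}

theorem T4_anti (h : T4_Data n j E Eo SE S T D F lam K β Ω) (i : ℕ) : lam (i + 1) ≤ lam i := by
  rw [h.lam_succ]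
  exact div_le_self (h.lam_pos i).le h.K1

theorem T4_vT' (h : T4_Data n j E Eo SE S T D F lam K β Ω) {i : ℕ} (hi : i < j) :
    Valid (smM n (T (i + 1))) Eᵀ (lam i) := (h.vT (i + 1) hi).mono (h.T4_anti i)

theorem T4_rel_a (h : T4_Data n j E Eo SE S T D F lam K β Ω) {i : ℕ} (hi : i < j) :
    T4_Rel (S i).1 (T i).1 (T (i + 1)).1 (fopA (0, D i)) (fopA (1, F (i + 1))) β⁻¹ β (lam i)
      (lam i) := by
  intro y
  rw [T4_f0, T4_f1, h.matD i hi.le, h.matF i hi]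
  exact link_a (h.lam_pos i) h.hβ (h.vS i hi.le)
    (by rw [Matrix.transpose_transpose]; exact h.vT i hi.le)
    (by rw [Matrix.transpose_transpose]; exact h.T4_vT' hi) (h.n1 i hi.le) (h.n2 i hi) y

theorem T4_rel_b (h : T4_Data n j E Eo SE S T D F lam K β Ω) {i : ℕ} (hi : i < j) :
    T4_Rel (T (i + 1)).1 (S i).1 (S (i + 1)).1 (fopA (1, F (i + 1))) (fopA (0, D (i + 1)))
      (β * K)⁻¹ β (lam i) (lam (i + 1)) := by
  intro y
  rw [T4_f0, T4_f1, h.matD (i + 1) hi, h.matF i hi, Matrix.transpose_transpose]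
  have e := h.lam_succ i
  rw [e]
  refine link_b (h.lam_pos i) h.K1 h.hβ (h.vS i hi.le) ?_ ?_ (h.n2 i hi) ?_ y
  · rw [← e]; exact h.vS (i + 1) hi
  · rw [← e, Matrix.transpose_transpose]; exact h.vT (i + 1) hi
  · rw [← e]; exact h.n1 (i + 1) hi

theorem T4_rel_c (h : T4_Data n j E Eo SE S T D F lam K β Ω) :
    T4_Rel (S j).1 (T j).1 n (fopA (0, D j)) (fopA (1, SE)) β⁻¹ β (lam j) (lam j) := by
  intro y
  rw [T4_f0, T4_f1, h.matD j le_rfl, h.matSE]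
  exact link_c (h.lam_pos j) h.hβ (h.vS j le_rfl)
    (by rw [Matrix.transpose_transpose]; exact h.vT j le_rfl) (h.n1 j le_rfl) y

theorem T4_rel_d (h : T4_Data n j E Eo SE S T D F lam K β Ω) :
    T4_Rel n (S j).1 n (fopA (1, SE)) (fopA (0, Eo)) β⁻¹ β (lam j) (lam j) := by
  intro y
  rw [T4_f0, T4_f1, h.matE, h.matSE, Matrix.transpose_transpose]
  exact link_d (h.lam_pos j) h.hβ (h.vS j le_rfl) y

theorem T4_rel_e (h : T4_Data n j E Eo SE S T D F lam K β Ω) :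
    T4_Rel n n n (fopA (0, Eo)) (fopA (1, Eo)) (β * K)⁻¹ β (lam j) (lam (j + 1)) := by
  intro y
  rw [T4_f0, T4_f1, h.matE, h.lam_succ]
  exact link_e (h.lam_pos j) h.K1 h.hβ y

theorem T4_rel_f (h : T4_Data n j E Eo SE S T D F lam K β Ω) :
    T4_Rel n n n (fopA (1, Eo)) (fopA (0, Eo)) β⁻¹ β (lam (j + 1)) (lam (j + 1)) := by
  intro y
  rw [T4_f0, T4_f1, h.matE, Matrix.transpose_transpose]
  have h1 := h.hβ
  have h2 : 0 ≤ sq (E *ᵥ y) + lam (j + 1) * sq y :=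
    add_nonneg (T4_sq_nonneg _) (mul_nonneg (h.lam_pos _).le (T4_sq_nonneg _))
  have h3 : β⁻¹ ≤ 1 / 2 := by
    rw [inv_eq_one_div]
    exact one_div_le_one_div_of_le (by norm_num) (by linarith)
  constructor
  · nlinarith
  · nlinarith

theorem T4_nrm_D (h : T4_Data n j E Eo SE S T D F lam K β Ω) {i : ℕ} (hi : i ≤ j) :
    T4_Nrm (S i).1 (T i).1 (fopA (0, D i)) Ω (lam i) := by
  intro y
  rw [T4_f0, h.matD i hi]
  obtain ⟨Λ, θ, h1, h2, h3, h4, h5⟩ := h.Λ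
  refine (norm_D (h.lam_pos i) (h.vS i hi) h1 (h4 i (by omega)) (h5 i hi) y).trans ?_
  have := mul_nonneg (h.lam_pos i).le (T4_sq_nonneg y)
  nlinarith

theorem T4_nrm_F (h : T4_Data n j E Eo SE S T D F lam K β Ω) {i : ℕ} (hi : i < j) :
    T4_Nrm (T (i + 1)).1 (S i).1 (fopA (1, F (i + 1))) Ω (lam i) := by
  intro y
  rw [T4_f1, h.matF i hi]
  obtain ⟨Λ, θ, h1, h2, h3, h4, h5⟩ := h.Λ
  have hΩ : 0 ≤ Ω := le_trans (by positivity) h3
  refine sq_transpose_le (mul_nonneg hΩ (h.lam_pos i).le) (fun v => ?_) y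
  refine (norm_D (h.lam_pos i) (h.vS i hi.le) h1 (h4 i (by omega)) (h5 (i + 1) hi) v).trans ?_
  have := mul_nonneg (h.lam_pos i).le (T4_sq_nonneg v)
  nlinarith

theorem T4_nrm_SE (h : T4_Data n j E Eo SE S T D F lam K β Ω) :
    T4_Nrm n (S j).1 (fopA (1, SE)) Ω (lam j) := by
  intro y
  rw [T4_f1, h.matSE]
  obtain ⟨Λ, θ, h1, h2, h3, h4, h5⟩ := h.Λ
  have hΩ : 0 ≤ Ω := le_trans (by positivity) h3
  refine sq_transpose_le (mul_nonneg hΩ (h.lam_pos j).le) (fun v => ?_) y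
  have h6 := norm_D (T := (1 : Matrix (Fin n) (Fin n) ℝ)) (h.lam_pos j) (h.vS j le_rfl) h1
    (h4 j (by omega)) (θ := 1) (fun v => by rw [Matrix.one_mulVec, one_mul]) v
  rw [Matrix.mul_one, mul_one] at h6
  refine h6.trans ?_
  have h7 : 2 * Λ + 1 ≤ Ω := by nlinarith
  have := mul_nonneg (h.lam_pos j).le (T4_sq_nonneg v)
  nlinarith

theorem T4_nrm_E (h : T4_Data n j E Eo SE S T D F lam K β Ω) {i : ℕ} (hi : i ≤ j + 1) :
    T4_Nrm n n (fopA (0, Eo)) Ω (lam i) := by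
  intro y
  rw [T4_f0, h.matE]
  obtain ⟨Λ, θ, h1, h2, h3, h4, h5⟩ := h.Λ
  refine (h4 i hi y).trans ?_
  have h7 : Λ ≤ Ω := by nlinarith
  have := mul_nonneg (h.lam_pos i).le (T4_sq_nonneg y)
  nlinarith

theorem T4_nrm_Et (h : T4_Data n j E Eo SE S T D F lam K β Ω) {i : ℕ} (hi : i ≤ j + 1) :
    T4_Nrm n n (fopA (1, Eo)) Ω (lam i) := by
  intro y
  rw [T4_f1]
  obtain ⟨Λ, θ, h1, h2, h3, h4, h5⟩ := h.Λ
  have hΩ : 0 ≤ Ω := le_trans (by positivity) h3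
  refine sq_transpose_le (mul_nonneg hΩ (h.lam_pos i).le) (fun v => ?_) y
  have := h.T4_nrm_E hi v
  rw [T4_f0] at this
  exact this

end T4_Data

/-! ### dimensions -/

section

variable {n j : ℕ} {E : Matrix (Fin n) (Fin n) ℝ} {SE : OpT.den} {S T : ℕ → SDT.den}
    {D F : ℕ → OpT.den} {lam : ℕ → ℝ} {K β Ω : ℝ} {g : GT.den} {base : BaseT.den}

theorem T4_ij {g : GT.den} {j m : ℕ} (hm : m ≤ T4_L g j) : lev0 g j + m ≤ j := by
  have h1 : T4_L g j = j - lev0 g j := rfl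
  have h2 : lev0 g j ≤ j := Nat.sub_le _ _
  omega

theorem T4_ij' {g : GT.den} {j : ℕ} : lev0 g j + T4_L g j = j := by
  have h1 : T4_L g j = j - lev0 g j := rfl
  have h2 : lev0 g j ≤ j := Nat.sub_le _ _
  omega

theorem T4_chO (h : T4_Data n j E (gE g) SE S T D F lam K β Ω) {m : ℕ} (hm : m ≤ T4_L g j) :
    chD (asm g j D F SE base) (2 * m + 1) = (S (lev0 g j + m)).1 := by
  show fopR ((asm g j D F SE base).1 (2 * m)) = _
  rw [T4_even g j D F SE base hm, T4_R0, h.dimD _ (T4_ij hm)]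

theorem T4_chE (h : T4_Data n j E (gE g) SE S T D F lam K β Ω) {m : ℕ} (hm : m ≤ T4_L g j) :
    chD (asm g j D F SE base) (2 * m) = (T (lev0 g j + m)).1 := by
  rcases m with _ | m
  · show fopC ((asm g j D F SE base).1 0) = _
    have e := T4_even g j D F SE base (Nat.zero_le (T4_L g j))
    rw [Nat.mul_zero] at e
    rw [e, T4_C0, h.dimD _ (T4_ij hm)]
  · show fopR ((asm g j D F SE base).1 (2 * m + 1)) = _
    have hm' : m < T4_L g j := hm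
    have hi : lev0 g j + m < j := by
      have := T4_ij hm
      omega
    rw [T4_odd g j D F SE base hm', T4_R1]
    have e : lev0 g j + (m + 1) = lev0 g j + m + 1 := rfl
    rw [e, h.dimF _ hi]

theorem T4_ch2 (h : T4_Data n j E (gE g) SE S T D F lam K β Ω) :
    chD (asm g j D F SE base) (2 * T4_L g j + 2) = n := by
  show fopR ((asm g j D F SE base).1 (2 * T4_L g j + 1)) = _
  rw [T4_se, T4_R1, h.dimSE]

theorem T4_top0 (g : GT.den) (j : ℕ) (D F : ℕ → OpT.den) (SE : OpT.den) (base : BaseT.den) :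
    (asm g j D F SE base).1 (2 * T4_L g j + 2) = (0, gE g) := by
  have hT := T4_ix g j
  have h1 : 2 * T4_L g j + 2 < topIx g j + 3 := by omega
  have h2 : ¬ 2 * T4_L g j + 2 < topIx g j - 1 := by omega
  have h3 : ¬ 2 * T4_L g j + 2 = topIx g j - 1 := by omega
  have h4 : ¬ 2 * T4_L g j + 2 = topIx g j + 1 := by omega
  rw [T4_asm1, tabV_lt h1, T4_of, if_neg h2, if_neg h3, if_neg h4]

theorem T4_top1 (g : GT.den) (j : ℕ) (D F : ℕ → OpT.den) (SE : OpT.den) (base : BaseT.den) :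
    (asm g j D F SE base).1 (2 * T4_L g j + 3) = (1, gE g) := by
  have hT := T4_ix g j
  have h1 : 2 * T4_L g j + 3 < topIx g j + 3 := by omega
  have h2 : ¬ 2 * T4_L g j + 3 < topIx g j - 1 := by omega
  have h3 : ¬ 2 * T4_L g j + 3 = topIx g j - 1 := by omega
  have h4 : 2 * T4_L g j + 3 = topIx g j + 1 := by omega
  rw [T4_asm1, tabV_lt h1, T4_of, if_neg h2, if_neg h3, if_pos h4]

theorem T4_top2 (g : GT.den) (j : ℕ) (D F : ℕ → OpT.den) (SE : OpT.den) (base : BaseT.den) :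
    (asm g j D F SE base).1 (2 * T4_L g j + 4) = (0, gE g) := by
  have hT := T4_ix g j
  have h1 : 2 * T4_L g j + 4 < topIx g j + 3 := by omega
  have h2 : ¬ 2 * T4_L g j + 4 < topIx g j - 1 := by omega
  have h3 : ¬ 2 * T4_L g j + 4 = topIx g j - 1 := by omega
  have h4 : ¬ 2 * T4_L g j + 4 = topIx g j + 1 := by omega
  rw [T4_asm1, tabV_lt h1, T4_of, if_neg h2, if_neg h3, if_neg h4]

theorem T4_lam_t0 (g : GT.den) (j : ℕ) (D F : ℕ → OpT.den) (SE : OpT.den) (base : BaseT.den) :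
    (asm g j D F SE base).2.1.1 (2 * T4_L g j + 2) = gLam g j := by
  have hT := T4_ix g j
  have h1 : 2 * T4_L g j + 2 < topIx g j + 3 := by omega
  have h2 : ¬ 2 * T4_L g j + 2 < topIx g j - 1 := by omega
  have h3 : ¬ topIx g j < 2 * T4_L g j + 2 := by omega
  rw [T4_asm2, tabV_lt h1, T4_lf, if_neg h3, if_neg h2]

theorem T4_lam_t1 (g : GT.den) (j : ℕ) (D F : ℕ → OpT.den) (SE : OpT.den) (base : BaseT.den)
    {e : ℕ} (he : e = 3 ∨ e = 4) :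
    (asm g j D F SE base).2.1.1 (2 * T4_L g j + e) = gLam g (j + 1) := by
  have hT := T4_ix g j
  have h1 : 2 * T4_L g j + e < topIx g j + 3 := by omega
  have h3 : topIx g j < 2 * T4_L g j + e := by omega
  rw [T4_asm2, tabV_lt h1, T4_lf, if_pos h3]

theorem T4_ch3 (h : T4_Data n j E (gE g) SE S T D F lam K β Ω) :
    chD (asm g j D F SE base) (2 * T4_L g j + 3) = n := by
  show fopR ((asm g j D F SE base).1 (2 * T4_L g j + 2)) = _
  rw [T4_top0, T4_R0, h.dimE]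

theorem T4_ch4 (h : T4_Data n j E (gE g) SE S T D F lam K β Ω) :
    chD (asm g j D F SE base) (2 * T4_L g j + 4) = n := by
  show fopR ((asm g j D F SE base).1 (2 * T4_L g j + 3)) = _
  rw [T4_top1, T4_R1, h.dimE]

theorem T4_ch5 (h : T4_Data n j E (gE g) SE S T D F lam K β Ω) :
    chD (asm g j D F SE base) (2 * T4_L g j + 5) = n := by
  show fopR ((asm g j D F SE base).1 (2 * T4_L g j + 4)) = _
  rw [T4_top2, T4_R0, h.dimE]

/-- the relations and the norms of the chain -/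
theorem T4_assemble (h : T4_Data n j E (gE g) SE S T D F lam K β Ω)
    (hl : ∀ i ≤ j + 1, gLam g i = lam i) (q2 : gQ g 2 = β⁻¹) (q3 : gQ g 3 = (β * K)⁻¹)
    (q4 : gQ g 4 = β) (Θ : ChT.den) (hΘ : Θ = asm g j D F SE base) :
    ∀ r < 2 * T4_L g j + 4,
      T4_Rel (chD Θ (r + 1)) (chD Θ r) (chD Θ (r + 2)) (fopA (Θ.1 r)) (fopA (Θ.1 (r + 1)))
        (Θ.2.1.2 (r + 1)) Θ.2.2.2.1 (Θ.2.1.1 r) (Θ.2.1.1 (r + 1)) ∧
      T4_Nrm (chD Θ (r + 1)) (chD Θ r) (fopA (Θ.1 r)) Ω (Θ.2.1.1 r) := by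
  intro r hr
  have hij := T4_ij' (g := g) (j := j)
  have be : Θ.2.2.2.1 = β := by rw [hΘ, T4_asm5, q4]
  have hcase : (∃ m < T4_L g j, r = 2 * m) ∨ (∃ m < T4_L g j, r = 2 * m + 1) ∨
      r = 2 * T4_L g j ∨ r = 2 * T4_L g j + 1 ∨ r = 2 * T4_L g j + 2 ∨
      r = 2 * T4_L g j + 3 := by
    by_cases h1 : r < 2 * T4_L g j
    · rcases Nat.even_or_odd' r with ⟨m, hm | hm⟩
      · exact Or.inl ⟨m, by omega, hm⟩
      · exact Or.inr (Or.inl ⟨m, by omega, hm⟩)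
    · omega
  rw [be]
  rcases hcase with ⟨m, hm, rfl⟩ | ⟨m, hm, rfl⟩ | rfl | rfl | rfl | rfl
  · -- `D_i → F_(i+1)ᵀ`
    have hi : lev0 g j + m < j := by omega
    have d0 : chD Θ (2 * m) = (T (lev0 g j + m)).1 := by rw [hΘ]; exact T4_chE h hm.le
    have d1 : chD Θ (2 * m + 1) = (S (lev0 g j + m)).1 := by rw [hΘ]; exact T4_chO h hm.le
    have d2 : chD Θ (2 * m + 2) = (T (lev0 g j + m + 1)).1 := by rw [hΘ]; exact T4_chE h hm
    have o0 : Θ.1 (2 * m) = (0, D (lev0 g j + m)) := by rw [hΘ]; exact T4_even _ _ _ _ _ _ hm.le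
    have o1 : Θ.1 (2 * m + 1) = (1, F (lev0 g j + m + 1)) := by
      rw [hΘ]; exact T4_odd _ _ _ _ _ _ hm
    have a1 : Θ.2.1.2 (2 * m + 1) = β⁻¹ := by
      rw [hΘ, ← q2]; exact T4_al_odd _ _ _ _ _ _ hm.le
    have l0 : Θ.2.1.1 (2 * m) = lam (lev0 g j + m) := by
      rw [hΘ, ← hl _ (by omega)]; exact T4_lam_even _ _ _ _ _ _ hm.le
    have l1 : Θ.2.1.1 (2 * m + 1) = lam (lev0 g j + m) := by
      rw [hΘ, ← hl _ (by omega)]; exact T4_lam_odd _ _ _ _ _ _ hm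
    rw [d0, d1, d2, o0, o1, a1, l0, l1]
    exact ⟨h.T4_rel_a hi, h.T4_nrm_D hi.le⟩
  · -- `F_(i+1)ᵀ → D_(i+1)`
    have hi : lev0 g j + m < j := by omega
    have d0 : chD Θ (2 * m + 1) = (S (lev0 g j + m)).1 := by rw [hΘ]; exact T4_chO h hm.le
    have d1 : chD Θ (2 * m + 1 + 1) = (T (lev0 g j + m + 1)).1 := by
      rw [hΘ]; exact T4_chE h hm
    have d2 : chD Θ (2 * m + 1 + 2) = (S (lev0 g j + m + 1)).1 := by
      rw [hΘ]; exact T4_chO h hm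
    have o0 : Θ.1 (2 * m + 1) = (1, F (lev0 g j + m + 1)) := by
      rw [hΘ]; exact T4_odd _ _ _ _ _ _ hm
    have o1 : Θ.1 (2 * m + 1 + 1) = (0, D (lev0 g j + m + 1)) := by
      rw [hΘ]; exact T4_even _ _ _ _ _ _ hm
    have a1 : Θ.2.1.2 (2 * m + 1 + 1) = (β * K)⁻¹ := by
      rw [hΘ, ← q3]; exact T4_al_even _ _ _ _ _ _ hm
    have l0 : Θ.2.1.1 (2 * m + 1) = lam (lev0 g j + m) := by
      rw [hΘ, ← hl _ (by omega)]; exact T4_lam_odd _ _ _ _ _ _ hm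
    have l1 : Θ.2.1.1 (2 * m + 1 + 1) = lam (lev0 g j + m + 1) := by
      rw [hΘ, ← hl _ (by omega)]; exact T4_lam_even _ _ _ _ _ _ hm
    rw [d0, d1, d2, o0, o1, a1, l0, l1]
    exact ⟨h.T4_rel_b hi, h.T4_nrm_F hi⟩
  · -- `D_j → (S_j E)ᵀ`
    have d0 : chD Θ (2 * T4_L g j) = (T j).1 := by
      rw [hΘ, T4_chE h le_rfl, hij]
    have d1 : chD Θ (2 * T4_L g j + 1) = (S j).1 := by
      rw [hΘ, T4_chO h le_rfl, hij]
    have d2 : chD Θ (2 * T4_L g j + 2) = n := by rw [hΘ]; exact T4_ch2 h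
    have o0 : Θ.1 (2 * T4_L g j) = (0, D j) := by
      rw [hΘ, T4_even _ _ _ _ _ _ le_rfl, hij]
    have o1 : Θ.1 (2 * T4_L g j + 1) = (1, SE) := by rw [hΘ]; exact T4_se _ _ _ _ _ _
    have a1 : Θ.2.1.2 (2 * T4_L g j + 1) = β⁻¹ := by
      rw [hΘ, ← q2]; exact T4_al_odd _ _ _ _ _ _ le_rfl
    have l0 : Θ.2.1.1 (2 * T4_L g j) = lam j := by
      rw [hΘ, T4_lam_even _ _ _ _ _ _ le_rfl, hij, hl _ (by omega)]
    have l1 : Θ.2.1.1 (2 * T4_L g j + 1) = lam j := by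
      rw [hΘ, T4_lam_se, hl _ (by omega)]
    rw [d0, d1, d2, o0, o1, a1, l0, l1]
    exact ⟨h.T4_rel_c, h.T4_nrm_D le_rfl⟩
  · -- `(S_j E)ᵀ → E`
    have d0 : chD Θ (2 * T4_L g j + 1) = (S j).1 := by
      rw [hΘ, T4_chO h le_rfl, hij]
    have d1 : chD Θ (2 * T4_L g j + 1 + 1) = n := by rw [hΘ]; exact T4_ch2 h
    have d2 : chD Θ (2 * T4_L g j + 1 + 2) = n := by rw [hΘ]; exact T4_ch3 h
    have o0 : Θ.1 (2 * T4_L g j + 1) = (1, SE) := by rw [hΘ]; exact T4_se _ _ _ _ _ _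
    have o1 : Θ.1 (2 * T4_L g j + 1 + 1) = (0, gE g) := by rw [hΘ]; exact T4_top0 _ _ _ _ _ _
    have a1 : Θ.2.1.2 (2 * T4_L g j + 1 + 1) = β⁻¹ := by
      rw [hΘ, ← q2]; exact T4_al_top g j D F SE base (e := 0) (Or.inl rfl)
    have l0 : Θ.2.1.1 (2 * T4_L g j + 1) = lam j := by
      rw [hΘ, T4_lam_se, hl _ (by omega)]
    have l1 : Θ.2.1.1 (2 * T4_L g j + 1 + 1) = lam j := by
      rw [hΘ, ← hl _ (by omega)]; exact T4_lam_t0 _ _ _ _ _ _
    rw [d0, d1, d2, o0, o1, a1, l0, l1]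
    exact ⟨h.T4_rel_d, h.T4_nrm_SE⟩
  · -- `E → Eᵀ`
    have d0 : chD Θ (2 * T4_L g j + 2) = n := by rw [hΘ]; exact T4_ch2 h
    have d1 : chD Θ (2 * T4_L g j + 2 + 1) = n := by rw [hΘ]; exact T4_ch3 h
    have d2 : chD Θ (2 * T4_L g j + 2 + 2) = n := by rw [hΘ]; exact T4_ch4 h
    have o0 : Θ.1 (2 * T4_L g j + 2) = (0, gE g) := by rw [hΘ]; exact T4_top0 _ _ _ _ _ _
    have o1 : Θ.1 (2 * T4_L g j + 2 + 1) = (1, gE g) := by rw [hΘ]; exact T4_top1 _ _ _ _ _ _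
    have a1 : Θ.2.1.2 (2 * T4_L g j + 2 + 1) = (β * K)⁻¹ := by
      rw [hΘ, ← q3]; exact T4_al_top1 _ _ _ _ _ _
    have l0 : Θ.2.1.1 (2 * T4_L g j + 2) = lam j := by
      rw [hΘ, T4_lam_t0, hl _ (by omega)]
    have l1 : Θ.2.1.1 (2 * T4_L g j + 2 + 1) = lam (j + 1) := by
      rw [hΘ, ← hl _ (by omega)]; exact T4_lam_t1 g j D F SE base (e := 3) (Or.inl rfl)
    rw [d0, d1, d2, o0, o1, a1, l0, l1]
    exact ⟨h.T4_rel_e, h.T4_nrm_E (by omega)⟩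
  · -- `Eᵀ → E`
    have d0 : chD Θ (2 * T4_L g j + 3) = n := by rw [hΘ]; exact T4_ch3 h
    have d1 : chD Θ (2 * T4_L g j + 3 + 1) = n := by rw [hΘ]; exact T4_ch4 h
    have d2 : chD Θ (2 * T4_L g j + 3 + 2) = n := by rw [hΘ]; exact T4_ch5 h
    have o0 : Θ.1 (2 * T4_L g j + 3) = (1, gE g) := by rw [hΘ]; exact T4_top1 _ _ _ _ _ _
    have o1 : Θ.1 (2 * T4_L g j + 3 + 1) = (0, gE g) := by rw [hΘ]; exact T4_top2 _ _ _ _ _ _
    have a1 : Θ.2.1.2 (2 * T4_L g j + 3 + 1) = β⁻¹ := by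
      rw [hΘ, ← q2]; exact T4_al_top g j D F SE base (e := 2) (Or.inr rfl)
    have l0 : Θ.2.1.1 (2 * T4_L g j + 3) = lam (j + 1) := by
      rw [hΘ, ← hl _ (by omega)]; exact T4_lam_t1 g j D F SE base (e := 3) (Or.inl rfl)
    have l1 : Θ.2.1.1 (2 * T4_L g j + 3 + 1) = lam (j + 1) := by
      rw [hΘ, ← hl _ (by omega)]; exact T4_lam_t1 g j D F SE base (e := 4) (Or.inr rfl)
    rw [d0, d1, d2, o0, o1, a1, l0, l1]
    exact ⟨h.T4_rel_f, h.T4_nrm_Et (by omega)⟩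

end

/-! ### numbers -/

theorem T4_tau {c : Cst} (hc : Big c) (x : InT.den) : ptau c x ≤ pl c x := by
  have h1 : c.c1 ≤ pl c x := by unfold pl; omega
  have h2 := hc.big _ h1
  unfold ptau
  nlinarith [Nat.zero_le (Nat.log2 (pl c x)), Nat.zero_le (c.cB), Nat.zero_le c.ch,
    Nat.zero_le (c.ct * Nat.log2 (pl c x)), Nat.zero_le (c.cB * Nat.log2 (pl c x)),
    Nat.zero_le (c.ch * Nat.log2 (pl c x))]

theorem T4_acc {c : Cst} (hc : Big c) (x : InT.den) :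
    dst c x * (1 + (2 * (pK c x : ℝ) ^ (pl c x ^ 3 + 1) + 1) * 4 ^ pl c x) ≤ 1 / 2 := by
  have h1 : 10 ^ 6 ≤ pl c x := by
    have := hc.c1
    unfold pl
    omega
  have ht := T4_tau hc x
  unfold dst
  set l := pl c x with hl
  have hK : (pK c x : ℝ) ^ (l ^ 3 + 1) ≤ 4 ^ (l ^ 4 + l) := by
    unfold pK
    push_cast
    rw [← pow_mul]
    refine pow_le_pow_right₀ (by norm_num) ?_
    calc ptau c x * (l ^ 3 + 1) ≤ l * (l ^ 3 + 1) := Nat.mul_le_mul_right _ ht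
      _ = l ^ 4 + l := by ring
  have h2 : (1 : ℝ) ≤ 4 ^ (l ^ 4 + l) := one_le_pow₀ (by norm_num)
  have h3 : (1 : ℝ) ≤ 4 ^ l := one_le_pow₀ (by norm_num)
  have h4 : 1 + (2 * (pK c x : ℝ) ^ (l ^ 3 + 1) + 1) * 4 ^ l ≤ 4 * (4 ^ (l ^ 4 + l) * 4 ^ l) := by
    have h5 : (1 : ℝ) ≤ 4 ^ (l ^ 4 + l) * 4 ^ l := by nlinarith
    have h6 : (2 * (pK c x : ℝ) ^ (l ^ 3 + 1) + 1) * 4 ^ l ≤ (3 * 4 ^ (l ^ 4 + l)) * 4 ^ l := by
      refine mul_le_mul_of_nonneg_right ?_ (by positivity)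
      linarith
    linarith
  have h7 : (4 : ℝ) * (4 ^ (l ^ 4 + l) * 4 ^ l) * 2 ≤ 4 ^ (l ^ 5) := by
    have e : (4 : ℝ) * (4 ^ (l ^ 4 + l) * 4 ^ l) * 4 = 4 ^ (l ^ 4 + 2 * l + 2) := by ring
    have h8 : l ^ 4 + 2 * l + 2 ≤ l ^ 5 := by
      have g1 : l ≤ l ^ 4 := Nat.le_self_pow (by norm_num) l
      calc l ^ 4 + 2 * l + 2 ≤ l ^ 4 + 2 * l ^ 4 + l ^ 4 := by omega
        _ = 4 * l ^ 4 := by ring
        _ ≤ l * l ^ 4 := Nat.mul_le_mul_right _ (by omega)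
        _ = l ^ 5 := by ring
    have h9 : (4 : ℝ) ^ (l ^ 4 + 2 * l + 2) ≤ 4 ^ (l ^ 5) := pow_le_pow_right₀ (by norm_num) h8
    have h10 : (0 : ℝ) ≤ 4 * (4 ^ (l ^ 4 + l) * 4 ^ l) := by positivity
    linarith
  have h11 : ((1 : ℝ) / 4) ^ (l ^ 5) * 4 ^ (l ^ 5) = 1 := by
    rw [← mul_pow]
    norm_num
  calc ((1 : ℝ) / 4) ^ (l ^ 5) * (1 + (2 * (pK c x : ℝ) ^ (l ^ 3 + 1) + 1) * 4 ^ l)
      ≤ (1 / 4) ^ (l ^ 5) * (4 ^ (l ^ 5) / 2) := by
        refine mul_le_mul_of_nonneg_left ?_ (by positivity)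
        linarith
    _ = 1 / 2 := by rw [mul_div_assoc', h11]

theorem T4_pt (c : Cst) (x : InT.den) : 2 * (1 / 2 : ℝ) ^ pt c x ≤ dst c x := by
  unfold pt dst
  rw [pow_add, pow_mul]
  have h : (0 : ℝ) ≤ (1 / 4) ^ (pl c x ^ 5) := by positivity
  have e : ((1 : ℝ) / 2) ^ 2 = 1 / 4 := by norm_num
  rw [e]
  linarith

/-! ### the main statement -/

section

variable {mm : ℕ → ℕ} (Φ : Lib mm) (c : Cst) (x : InT.den) (A0 : CooT.den) (g : GT.den)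
  (A : Matrix (Fin x.1.1) (Fin x.1.1) ℝ) (xs : Fin x.1.1 → ℝ) (sg sn : ℝ) (cs : ℕ)

theorem T4_data (hc : Big c) (hg : GOK c x A0 g) (j : ℕ) (st : StT.den)
    (hL : Lev Φ g j st) (hM : LevM c x g j st) (hj : j ≤ pl c x ^ 3) (hlam : 0 < gLam g 0)
    (hlo : ∀ v, 8 * sq (En x g *ᵥ v) ≤ gLam g 0 * sq v) :
    T4_Data x.1.1 j (En x g) (gE g) (Φ.mkOp (gE g, (st.2.1.1 j, sdFull (gP g 0))))
      st.2.1.1 st.2.1.2 st.2.2.1.1 st.2.2.1.2 (lamM c x g) (pK c x) (pl c x)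
      ((2 * (pK c x : ℝ) ^ (pl c x ^ 3 + 1) + 1) * 4 ^ pl c x) := by
  have hn : gP g 0 = x.1.1 := by
    show g.1.1 0 = x.1.1
    rw [hg.hP]; rfl
  have hK1 : (1 : ℝ) ≤ (pK c x : ℝ) := by
    have : 1 ≤ pK c x := Nat.one_le_pow _ _ (by norm_num)
    exact_mod_cast this
  have hK0 : (0 : ℝ) < (pK c x : ℝ) := by linarith
  have hlp : ∀ i, 0 < lamM c x g i := fun i => mul_pos hlam (pow_pos (inv_pos.2 hK0) i)
  have hS : ∀ i ≤ j, SDOK x.1.1 (st.2.1.1 i) := fun i hi => by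
    have := (hL.2.2.1 i hi).1
    rwa [hn] at this
  have hT : ∀ i ≤ j, SDOK x.1.1 (st.2.1.2 i) := fun i hi => by
    have := (hL.2.2.1 i hi).2.1
    rwa [hn] at this
  have hfull := sdFull_ok x.1.1
  refine
    { dimE := hg.dim
      matE := rfl
      dimD := fun i hi => ?_
      matD := fun i hi => ?_
      dimF := fun i hi => ?_
      matF := fun i hi => ?_
      dimSE := ?_
      matSE := ?_
      lam_pos := hlp
      K1 := hK1
      lam_succ := fun i => ?_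
      hβ := ?_
      vS := fun i hi => (sd_valid _ _ (hS i hi) _ _).2 (hM.vS i hi)
      vT := fun i hi => (sd_valid _ _ (hT i hi) _ _).2 (hM.vT i hi)
      n1 := fun i hi => sd_noise _ _ _ (hS i hi) (hT i hi) _ _ _ (hM.n1 i hi)
      n2 := fun i hi => sd_noise _ _ _ (hS i hi.le) (hT (i + 1) hi) _ _ _ (hM.n2 i hi)
      Λ := ?_ }
  · rw [(hL.2.2.1 i hi).2.2]
    exact (Φ.mkOp_eq _ _ _ _ hg.ok hg.dim (hS i hi) (hT i hi)).2.1
  · rw [(hL.2.2.1 i hi).2.2]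
    exact mkOp_mat Φ x.1.1 _ _ _ hg.ok hg.dim (hS i hi) (hT i hi)
  · rw [hL.2.2.2 i hi]
    exact (Φ.mkOp_eq _ _ _ _ hg.ok hg.dim (hS i hi.le) (hT (i + 1) hi)).2.1
  · rw [hL.2.2.2 i hi]
    exact mkOp_mat Φ x.1.1 _ _ _ hg.ok hg.dim (hS i hi.le) (hT (i + 1) hi)
  · rw [hn]
    exact (Φ.mkOp_eq _ _ _ _ hg.ok hg.dim (hS j le_rfl) hfull.1).2.1
  · rw [hn]
    have h1 := mkOp_mat Φ x.1.1 _ _ _ hg.ok hg.dim (hS j le_rfl) hfull.1
    have h2 : (smM x.1.1 (sdFull x.1.1)) = (1 : Matrix (Fin x.1.1) (Fin x.1.1) ℝ) := hfull.2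
    refine (show _ = smM x.1.1 (st.2.1.1 j) * En x g * (smM x.1.1 (sdFull x.1.1))ᵀ from h1).trans ?_
    refine (congrArg (fun M : Matrix (Fin x.1.1) (Fin x.1.1) ℝ =>
      smM x.1.1 (st.2.1.1 j) * En x g * Mᵀ) h2).trans ?_
    show smM x.1.1 (st.2.1.1 j) * En x g * (1 : Matrix (Fin x.1.1) (Fin x.1.1) ℝ)ᵀ = _
    rw [Matrix.transpose_one, Matrix.mul_one]
  · show gLam g 0 * _ ^ (i + 1) = gLam g 0 * _ ^ i / _
    rw [pow_succ, ← mul_assoc, div_eq_mul_inv]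
  · have := hc.c1
    have h2 : 300 ≤ pl c x := by unfold pl; omega
    exact_mod_cast h2
  · refine ⟨(pK c x : ℝ) ^ (pl c x ^ 3 + 1), 4 ^ pl c x, by positivity,
      one_le_pow₀ (by norm_num), le_rfl, fun i hi v => ?_, fun i hi v => ?_⟩
    · have h0 := hlo v
      have h1 := T4_sq_nonneg (En x g *ᵥ v)
      have h2 : gLam g 0 ≤ (pK c x : ℝ) ^ (pl c x ^ 3 + 1) * lamM c x g i := by
        show _ ≤ _ * (gLam g 0 * ((pK c x : ℝ)⁻¹) ^ i)
        have h3 : (pK c x : ℝ) ^ i ≤ (pK c x : ℝ) ^ (pl c x ^ 3 + 1) :=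
          pow_le_pow_right₀ hK1 (by omega)
        have h4 : (pK c x : ℝ) ^ i * ((pK c x : ℝ)⁻¹) ^ i = 1 := by
          rw [← mul_pow, mul_inv_cancel₀ hK0.ne', one_pow]
        have h5 : 0 ≤ gLam g 0 * ((pK c x : ℝ)⁻¹) ^ i := by positivity
        calc gLam g 0 = gLam g 0 * ((pK c x : ℝ) ^ i * ((pK c x : ℝ)⁻¹) ^ i) := by
              rw [h4, mul_one]
          _ = (pK c x : ℝ) ^ i * (gLam g 0 * ((pK c x : ℝ)⁻¹) ^ i) := by ring
          _ ≤ _ := mul_le_mul_of_nonneg_right h3 h5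
      have h3 := T4_sq_nonneg v
      nlinarith
    · exact T4_sm_norm x.1.1 _ (hT i hi) (pl c x) (fun p => hM.wT i hi p) v

/-- THE CHAIN OF STAGE `j` -/
theorem chain_stage (hc : Big c) (hg : GOK c x A0 g) (j : ℕ) (st : StT.den) (w : ℕ → ℕ)
    (hL : Lev Φ g j st) (hM : LevM c x g j st) (hj : j ≤ pl c x ^ 3) (hlam : 0 < gLam g 0)
    (hlo : ∀ v, 8 * sq (En x g *ᵥ v) ≤ gLam g 0 * sq v)
    (hb : IsPre (gram (toM (fopR ((theta Φ g j st w).1 0)) (fopC ((theta Φ g j st w).1 0))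
        (fopA ((theta Φ g j st w).1 0))) ((theta Φ g j st w).2.1.1 0))
      (basePreOf (theta Φ g j st w)) (pl c x : ℝ)⁻¹ (pl c x)) :
    ∀ R ≤ topIx g j + 2, IsSol (gram ((chainOf (theta Φ g j st w)).X R)
      ((chainOf (theta Φ g j st w)).lam R)) ((chainOf (theta Φ g j st w)).g R) (dst c x) := by
  have hD := T4_data Φ c x A0 g hc hg j st hL hM hj hlam hlo
  have hshape := (chain_shape Φ c x A0 g hc hg j st w hL hj)
  have q2 : gQ g 2 = (pl c x : ℝ)⁻¹ := by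
    show g.1.2.1 2 = _
    rw [hg.hQ]; rfl
  have q3 : gQ g 3 = ((pl c x : ℝ) * (pK c x : ℝ))⁻¹ := by
    show g.1.2.1 3 = _
    rw [hg.hQ]; rfl
  have q4 : gQ g 4 = (pl c x : ℝ) := by
    show g.1.2.1 4 = _
    rw [hg.hQ]; rfl
  have p16 : gP g 16 = pdeg1 c x := by
    show g.1.1 16 = _
    rw [hg.hP]; rfl
  have hl : ∀ i ≤ j + 1, gLam g i = lamM c x g i := fun i hi => hg.lamE i (by omega)
  have hlp : ∀ i, 0 < lamM c x g i := hD.lam_pos
  set Θ := theta Φ g j st w with hΘ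
  have hΘ' : Θ = asm g j st.2.2.1.1 st.2.2.1.2 (Φ.mkOp (gE g, (st.2.1.1 j, sdFull (gP g 0))))
      (baseOf Φ g j st w) := rfl
  have hA := T4_assemble (base := baseOf Φ g j st w) hD hl q2 q3 q4 Θ hΘ'
  have hT := T4_ix g j
  have hl300 : (300 : ℝ) ≤ (pl c x : ℝ) := hD.hβ
  have hl1 : 1 ≤ pl c x := by
    have : (1 : ℝ) ≤ (pl c x : ℝ) := by linarith
    exact_mod_cast this
  -- all ridges are positive
  have hpos : ∀ r ≤ topIx g j + 2, 0 < Θ.2.1.1 r := by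
    intro r hr
    have hcase : (∃ m < T4_L g j, r = 2 * m) ∨ (∃ m < T4_L g j, r = 2 * m + 1) ∨
        r = 2 * T4_L g j ∨ r = 2 * T4_L g j + 1 ∨ r = 2 * T4_L g j + 2 ∨
        r = 2 * T4_L g j + 3 ∨ r = 2 * T4_L g j + 4 := by
      by_cases h1 : r < 2 * T4_L g j
      · rcases Nat.even_or_odd' r with ⟨m, hm | hm⟩
        · exact Or.inl ⟨m, by omega, hm⟩
        · exact Or.inr (Or.inl ⟨m, by omega, hm⟩)
      · omega
    have hij := T4_ij' (g := g) (j := j)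
    rw [hΘ']
    rcases hcase with ⟨m, hm, rfl⟩ | ⟨m, hm, rfl⟩ | rfl | rfl | rfl | rfl | rfl
    · rw [T4_lam_even _ _ _ _ _ _ hm.le, hl _ (by omega)]; exact hlp _
    · rw [T4_lam_odd _ _ _ _ _ _ hm, hl _ (by omega)]; exact hlp _
    · rw [T4_lam_even _ _ _ _ _ _ le_rfl, hl _ (by omega)]; exact hlp _
    · rw [T4_lam_se, hl _ (by omega)]; exact hlp _
    · rw [T4_lam_t0, hl _ (by omega)]; exact hlp _
    · rw [T4_lam_t1 (e := 3) _ _ _ _ _ _ (Or.inl rfl), hl _ le_rfl]; exact hlp _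
    · rw [T4_lam_t1 (e := 4) _ _ _ _ _ _ (Or.inr rfl), hl _ le_rfl]; exact hlp _
  have hdst : 0 < dst c x := by unfold dst; positivity
  refine chain_sol (chainOf Θ) (topIx g j + 2) (pt c x) (dst c x)
    ((2 * (pK c x : ℝ) ^ (pl c x ^ 3 + 1) + 1) * 4 ^ pl c x) hdst (T4_acc hc x) (by positivity)
    (T4_pt c x) hpos ?_ ?_ ?_ ?_ ?_
  · -- the base
    have e1 : Θ.2.1.2 0 = (pl c x : ℝ)⁻¹ := by rw [hΘ', T4_al_z, q2]
    have e2 : Θ.2.2.2.1 = (pl c x : ℝ) := by rw [hΘ', T4_asm5, q4]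
    have e3 : Θ.2.2.1 0 = pdeg1 c x := by rw [hΘ', T4_deg_z, p16]
    have h1 : IsSol (gram (toM (fopR (Θ.1 0)) (fopC (Θ.1 0)) (fopA (Θ.1 0))) (Θ.2.1.1 0))
        (cheb (gram (toM (fopR (Θ.1 0)) (fopC (Θ.1 0)) (fopA (Θ.1 0))) (Θ.2.1.1 0))
          (basePreOf Θ) (Θ.2.1.2 0) Θ.2.2.2.1 (Θ.2.2.1 0)) (2 * (1 / 2) ^ pt c x) := by
      rw [e1, e2, e3]
      refine cheb_sol (gram_posDef _ (hpos 0 (Nat.zero_le _))) (by positivity) ?_ hb (pl c x)
        (pt c x) _ hl1 ?_ le_rfl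
      · have h2 : (pl c x : ℝ)⁻¹ ≤ 1 := inv_le_one_of_one_le₀ (by linarith)
        linarith
      · have h2 : (pl c x : ℝ) ≠ 0 := by linarith
        rw [pow_two, mul_assoc, mul_inv_cancel₀ h2, mul_one]
    refine ⟨h1.1, fun v => (h1.2 v).trans ?_⟩
    exact mul_le_mul_of_nonneg_right (T4_pt c x) (qf_inv_nonneg _ (hpos 0 (Nat.zero_le _)) v)
  · intro r hr
    exact (hA r (by omega)).2
  · intro r hr
    obtain ⟨s, h1, h2, h3, h4, h5⟩ := hshape.2.2.2.2.2.2.2.2.2.2 r hr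
    exact ⟨h4, h5⟩
  · intro r hr
    exact (hA r (by omega)).1
  · intro r hr
    obtain ⟨s, h1, h2, h3, h4, h5⟩ := hshape.2.2.2.2.2.2.2.2.2.2 r hr
    exact ⟨s, h1, h2, h3⟩

end

end A56
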