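import Pool.Agent.Lib_helper50.A56.TDefs
import Pool.Agent.Lib_helper50.A56.B.T3
/-!
# MP_a55cb8, block T5: the solvers of the large matrices (helper89)
-/

open Matrix Finset

namespace A56

/-- transport along equalities of the dimensions -/
theorem t5_cast {p q n : ℕ} (hp : p = n) (hq : q = n) (f : ℕ → ℕ → ℝ) (l d : ℝ)
    (Q : Matrix (Fin p) (Fin p) ℝ) (h : IsSol (gram (toM q p f) l) Q d) :
    IsSol (gram (toM n n f) l) (fun a b : Fin n =>
      if h : (a : ℕ) < p ∧ (b : ℕ) < p then Q ⟨a, h.1⟩ ⟨b, h.2⟩ else 0) d := by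
  subst hp
  subst hq
  have e : (fun a b : Fin q =>
      if h : (a : ℕ) < q ∧ (b : ℕ) < q then Q ⟨a, h.1⟩ ⟨b, h.2⟩ else 0) = Q := by
    funext a b
    rw [dif_pos ⟨a.2, b.2⟩]
  rw [e]
  exact h

theorem t5_chain {n : ℕ} {Θ : ChT.den} {R : ℕ} {d l : ℝ} (hp : chD Θ R = n)
    (hq : chD Θ (R + 1) = n) (hl : Θ.2.1.1 R = l)
    (h : IsSol (gram ((chainOf Θ).X R) ((chainOf Θ).lam R)) ((chainOf Θ).g R) d) :
    IsSol (gram (toM n n (fopA (Θ.1 R))) l) (Qm n Θ R) d := by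
  subst hl
  exact t5_cast hp hq (fopA (Θ.1 R)) (Θ.2.1.1 R) d ((chainOf Θ).g R) h

section

variable {mm : ℕ → ℕ} (Φ : Lib mm) (c : Cst) (x : InT.den) (A0 : CooT.den) (g : GT.den)
  (A : Matrix (Fin x.1.1) (Fin x.1.1) ℝ) (xs : Fin x.1.1 → ℝ) (sg sn : ℝ) (cs : ℕ)

/-- the solvers of the large matrices -/
theorem chain_sols (hc : Big c) (hg : GOK c x A0 g) (j : ℕ) (st : StT.den) (w : ℕ → ℕ)
    (hL : Lev Φ g j st) (hj : j ≤ pl c x ^ 3)
    (h : ∀ R ≤ topIx g j + 2, IsSol (gram ((chainOf (theta Φ g j st w)).X R)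
      ((chainOf (theta Φ g j st w)).lam R)) ((chainOf (theta Φ g j st w)).g R) (dst c x)) :
    IsSol (gram (En x g) (lamM c x g j)) (Qm x.1.1 (theta Φ g j st w) (topIx g j)) (dst c x) ∧
    IsSol (gram (En x g)ᵀ (lamM c x g (j + 1)))
      (Qm x.1.1 (theta Φ g j st w) (topIx g j + 1)) (dst c x) ∧
    IsSol (gram (En x g) (lamM c x g (j + 1)))
      (Qm x.1.1 (theta Φ g j st w) (topIx g j + 2)) (dst c x) := by
  obtain ⟨-, d0, d1, d2, e0, e1, e2, l0, l1, l2, -⟩ :=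
    chain_shape Φ c x A0 g hc hg j st w hL hj
  have d3 : chD (theta Φ g j st w) (topIx g j + 2 + 1) = x.1.1 := by
    change fopR ((theta Φ g j st w).1 (topIx g j + 2)) = x.1.1
    have : chD (theta Φ g j st w) (topIx g j + 1) =
        fopR ((theta Φ g j st w).1 (topIx g j)) := rfl
    rw [e2, ← e0, ← this, d1]
  have f0 : fopA ((theta Φ g j st w).1 (topIx g j)) = opA (gE g) := by
    rw [e0]
    rfl
  have f1 : fopA ((theta Φ g j st w).1 (topIx g j + 1)) = fun a b => opA (gE g) b a := by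
    rw [e1]
    rfl
  have f2 : fopA ((theta Φ g j st w).1 (topIx g j + 2)) = opA (gE g) := by
    rw [e2]
    rfl
  refine ⟨?_, ?_, ?_⟩
  · have := t5_chain d0 d1 l0 (h (topIx g j) (by omega))
    rw [f0] at this
    exact this
  · have := t5_chain d1 d2 l1 (h (topIx g j + 1) (by omega))
    rw [f1] at this
    exact this
  · have := t5_chain d2 d3 l2 (h (topIx g j + 2) (by omega))
    rw [f2] at this
    exact this

end

end A56
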