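import Pool.Agent.Lib_helper50.A56.TDefs
import Pool.Agent.Lib_helper50.A56.B.D1b
import Pool.Agent.Lib_helper50.A56.B.D5
import Pool.Agent.Lib_helper50.A56.B.D12
import Pool.Agent.Lib_helper50.A56.B.F2a
import Pool.Agent.Lib_helper50.A56.B.F2b
import Pool.Agent.Lib_helper50.A56.B.T1
import Pool.Agent.Lib_helper50.A56.L.P_E1
import Pool.Agent.Lib_helper50.A56.L.P_E5
import Pool.Agent.Lib_helper50.A56.L.P_L4
/-! # MP_a55cb8, block T6: the base solver works with high probability -/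

open Matrix Finset

namespace A56

/-! ## statements of other blocks (copies) -/

section forms

variable {m n a b c : Type*} [Fintype m] [Fintype n] [Fintype a] [Fintype b] [Fintype c]
  [DecidableEq m] [DecidableEq n] [DecidableEq a] [DecidableEq b] [DecidableEq c]

end forms

/-! ## T6 -/

/-- the norm of a sketch -/
theorem T6_norm {n J b : ℕ} (w : Fin J → Fin n → Bool × (Fin b → Bool)) (x : Fin n → ℝ) :
    sq (sk w *ᵥ x) ≤ (J * n : ℝ) * sq x := by
  have h1 : sq (sk w *ᵥ x) = ∑ t, sq (sk1 (w t) *ᵥ x) := by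
    unfold sq
    rw [Fintype.sum_prod_type]
    rfl
  rw [h1]
  calc ∑ t, sq (sk1 (w t) *ᵥ x) ≤ ∑ _t : Fin J, (n : ℝ) * sq x :=
        Finset.sum_le_sum fun t _ => sk1_norm _ _
    _ = (J * n : ℝ) * sq x := by simp [mul_assoc]

/-- uniform bits in a window give uniform bits for a sketch -/
theorem T6_window {n J b W : ℕ} (hW : J * n * (b + 1) ≤ W)
    (P : (Fin J → Fin n → Bool × (Fin b → Bool)) → Prop) :
    frac (fun w : Fin W → Bool => P (skBits n J b (bw w))) = frac P := by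
  have hlt : ∀ p : Fin J × Fin n × Fin (b + 1),
      ((p.1 : ℕ) * n + (p.2.1 : ℕ)) * (b + 1) + (p.2.2 : ℕ) < W := by
    rintro ⟨t, i, s⟩
    have ht := t.2
    have hi := i.2
    have hs := s.2
    have h1 : (t : ℕ) * n + i < J * n := by
      calc (t : ℕ) * n + i < t * n + n := by omega
        _ = (t + 1) * n := by ring
        _ ≤ J * n := Nat.mul_le_mul_right _ ht
    calc ((t : ℕ) * n + i) * (b + 1) + s < (t * n + i) * (b + 1) + (b + 1) := by omega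
      _ = (t * n + i + 1) * (b + 1) := by ring
      _ ≤ J * n * (b + 1) := Nat.mul_le_mul_right _ h1
      _ ≤ W := hW
  let σ : Fin J × Fin n × Fin (b + 1) → Fin W := fun p =>
    ⟨((p.1 : ℕ) * n + (p.2.1 : ℕ)) * (b + 1) + (p.2.2 : ℕ), hlt p⟩
  have hσ : Function.Injective σ := by
    rintro ⟨t, i, s⟩ ⟨t', i', s'⟩ h
    have h0 : ((t : ℕ) * n + (i : ℕ)) * (b + 1) + (s : ℕ) =
        ((t' : ℕ) * n + (i' : ℕ)) * (b + 1) + (s' : ℕ) := congrArg Fin.val h
    have hs : (s : ℕ) = s' := by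
      have := congrArg (· % (b + 1)) h0
      simpa [Nat.add_mod, Nat.mod_eq_of_lt s.2, Nat.mod_eq_of_lt s'.2] using this
    have h1 : (t : ℕ) * n + (i : ℕ) = (t' : ℕ) * n + (i' : ℕ) := by
      have h2 : ((t : ℕ) * n + (i : ℕ)) * (b + 1) = ((t' : ℕ) * n + (i' : ℕ)) * (b + 1) := by
        omega
      exact Nat.eq_of_mul_eq_mul_right (Nat.succ_pos b) h2
    have hi : (i : ℕ) = i' := by
      have := congrArg (· % n) h1
      simpa [Nat.add_mod, Nat.mod_eq_of_lt i.2, Nat.mod_eq_of_lt i'.2] using this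
    have ht : (t : ℕ) = t' := by
      have h2 : (t : ℕ) * n = (t' : ℕ) * n := by omega
      exact Nat.eq_of_mul_eq_mul_right (by have := i.2; omega) h2
    exact Prod.ext (Fin.ext ht) (Prod.ext (Fin.ext hi) (Fin.ext hs))
  let Ψ : (Fin J × Fin n × Fin (b + 1) → Bool) ≃ (Fin J → Fin n → Bool × (Fin b → Bool)) :=
    { toFun := fun f t i => (f (t, i, 0), fun s => f (t, i, s.succ))
      invFun := fun g p => Fin.cases (g p.1 p.2.1).1 (fun s => (g p.1 p.2.1).2 s) p.2.2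
      left_inv := by
        intro f
        funext ⟨t, i, s⟩
        refine Fin.cases ?_ (fun s => ?_) s
        · rfl
        · rfl
      right_inv := by
        intro g
        rfl }
  have h1 : ∀ w : Fin W → Bool, skBits n J b (bw w) = Ψ (fun p => w (σ p)) := by
    intro w
    funext t i
    have hb : ∀ a (ha : a < W), decide (bw w a = 1) = w ⟨a, ha⟩ := by
      intro a ha
      unfold bw
      rw [dif_pos ha]
      cases w ⟨a, ha⟩ <;> rfl
    refine Prod.ext ?_ ?_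
    · exact hb _ (hlt (t, i, 0))
    · funext s
      have hh := hlt (t, i, s.succ)
      have e : ((t : ℕ) * n + (i : ℕ)) * (b + 1) + 1 + (s : ℕ) =
          ((t : ℕ) * n + (i : ℕ)) * (b + 1) + ((s.succ : Fin (b + 1)) : ℕ) := by
        rw [Fin.val_succ]
        ring
      change decide (bw w (((t : ℕ) * n + (i : ℕ)) * (b + 1) + 1 + (s : ℕ)) = 1) = _
      rw [e]
      exact hb _ hh
  have h2 : (fun w : Fin W → Bool => P (skBits n J b (bw w))) =
      fun w : Fin W → Bool => (fun f => P (Ψ f)) (fun p => w (σ p)) := by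
    funext w
    rw [h1 w]
  rw [h2, frac_inj σ hσ (fun f => P (Ψ f))]
  exact frac_equiv Ψ P


theorem T6_cooOK {n J m : ℕ} {y : CooT.den} (h : SkOK n J m y) : CooOK n m (cooT y) := by
  obtain ⟨h1, h2⟩ := h
  have key : ∀ e : ℕ, e < J * n → y.2.2.1 e < n ∧ y.2.1 e < m := by
    intro e he'
    have hn : 0 < n := by
      rcases Nat.eq_zero_or_pos n with h0 | h0
      · rw [h0, Nat.mul_zero] at he'
        omega
      · exact h0
    have ht : e / n < J := Nat.div_lt_of_lt_mul (by rw [Nat.mul_comm]; exact he')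
    have hi : e % n < n := Nat.mod_lt _ hn
    have e1 : e / n * n + e % n = e := by
      rw [Nat.mul_comm]
      exact Nat.div_add_mod e n
    have h2 := h2 (e / n) ht (e % n) hi
    rw [e1] at h2
    refine ⟨?_, h2.2⟩
    rw [h2.1]
    exact hi
  intro e he
  exact key e (h1 ▸ he)

theorem T6_count {n : ℕ} {s : SDT.den} (h : SDOK n s) : s.1 ≤ n := by
  have h2 : ∀ p : ℕ, p < s.1 → ∃ i : ℕ, i < n ∧ s.2.1 i = p + 1 := h.2.2
  choose f hf using h2
  have hinj : Function.Injective (fun p : Fin s.1 => (⟨f p.1 p.2, (hf p.1 p.2).1⟩ : Fin n)) := by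
    intro p q hpq
    have h0 : f p.1 p.2 = f q.1 q.2 := congrArg Fin.val hpq
    have h1 := (hf p.1 p.2).2
    have h2 := (hf q.1 q.2).2
    rw [h0, h2] at h1
    exact Fin.ext (Nat.succ_injective h1.symm)
  simpa using Fintype.card_le_of_injective _ hinj

/-- the numbers -/
theorem T6_num (n k l b1 b3 kk : ℕ) (h : k < n) (hl : 10 ^ 6 ≤ l) (hn : n < 2 ^ l)
    (hb1 : b1 = Nat.log2 (16 * (k + 1) * l ^ 6) + 1) (hkk : kk = k + l * 2 ^ b1)
    (hb3 : b3 = Nat.log2 (16 * (kk + 1) * l ^ 6) + 1) :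
    16 * (kk + 1) * l ^ 6 ≤ 2 ^ b3 ∧ b3 + 1 ≤ l ^ 7 := by
  have h3 : 16 * (kk + 1) * l ^ 6 < 2 ^ b3 := by
    rw [hb3]
    exact Nat.lt_log2_self
  refine ⟨h3.le, ?_⟩
  have hl0 : 0 < l := by omega
  have hll : l < 2 ^ l := Nat.lt_two_pow_self
  -- the first sketch
  have hb1' : 2 ^ b1 ≤ 2 * (16 * (k + 1) * l ^ 6) := by
    rw [hb1, pow_succ, Nat.mul_comm]
    refine Nat.mul_le_mul_left _ (Nat.log2_self_le ?_)
    positivity
  have hk : kk + 1 ≤ 34 * (k + 1) * l ^ 7 := by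
    rw [hkk]
    have h4 : l * 2 ^ b1 ≤ 32 * ((k + 1) * l ^ 7) := by
      calc l * 2 ^ b1 ≤ l * (2 * (16 * (k + 1) * l ^ 6)) :=
            Nat.mul_le_mul_left _ hb1'
        _ = 32 * ((k + 1) * l ^ 7) := by ring
    have h5 : k + 1 ≤ (k + 1) * l ^ 7 := Nat.le_mul_of_pos_right _ (by positivity)
    rw [Nat.mul_assoc]
    omega
  have h6 : 16 * (kk + 1) * l ^ 6 < 2 ^ (14 * l + 10) := by
    calc 16 * (kk + 1) * l ^ 6 ≤ 16 * (34 * (k + 1) * l ^ 7) * l ^ 6 :=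
          Nat.mul_le_mul_right _ (Nat.mul_le_mul_left _ hk)
      _ = 544 * ((k + 1) * l ^ 13) := by ring
      _ < 2 ^ 10 * ((k + 1) * l ^ 13) :=
          Nat.mul_lt_mul_of_pos_right (by norm_num) (by positivity)
      _ ≤ 2 ^ 10 * (2 ^ l * (2 ^ l) ^ 13) :=
          Nat.mul_le_mul_left _ (Nat.mul_le_mul (by omega) (Nat.pow_le_pow_left hll.le _))
      _ = 2 ^ (14 * l + 10) := by
          rw [← pow_mul, ← pow_add, ← pow_add]
          congr 1
          ring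
  have h7 : b3 ≤ 14 * l + 10 := by
    have h8 : 16 * (kk + 1) * l ^ 6 ≠ 0 := by positivity
    have := (Nat.log2_lt h8).2 h6
    omega
  calc b3 + 1 ≤ 14 * l + 11 := by omega
    _ ≤ l * l := by nlinarith
    _ = l ^ 2 := by ring
    _ ≤ l ^ 7 := Nat.pow_le_pow_right (by omega) (by norm_num)

theorem T6_par {c : Cst} (hc : Big c) (x : InT.den) (h : x.1.2 < x.1.1) :
    10 ^ 6 ≤ pl c x ∧ x.1.1 < 2 ^ pl c x ∧ 16 * (pkk c x + 1) * pl c x ^ 6 ≤ 2 ^ pb3 c x ∧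
      pb3 c x + 1 ≤ pl c x ^ 7 := by
  have hl : 10 ^ 6 ≤ pl c x := hc.c1.trans (Nat.le_add_left _ _)
  have hn : x.1.1 < 2 ^ pl c x := by
    have h1 : x.1.1 < 2 ^ (Nat.log2 x.1.1 + 1) := Nat.lt_log2_self
    refine h1.trans_le (Nat.pow_le_pow_right (by norm_num) ?_)
    exact Nat.add_le_add_left (le_trans (by norm_num) hc.c1) _
  have h3 := T6_num x.1.1 x.1.2 (pl c x) (pb1 c x) (pb3 c x) (pkk c x) h hl hn rfl rfl rfl
  exact ⟨hl, hn, h3.1, h3.2⟩

/-- the constant of the sketch -/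
theorem T6_Lam (n l : ℕ) (hl : 10 ^ 6 ≤ l) (hn : n < 2 ^ l) :
    1 + (16 * (n + 1 : ℝ)) ^ (l + 1) * (l * n : ℝ) ≤ 4 ^ (l ^ 3) := by
  have h : 1 + (16 * (n + 1)) ^ (l + 1) * (l * n) ≤ 4 ^ (l ^ 3) := by
    have hll : l < 2 ^ l := Nat.lt_two_pow_self
    have h1 : 16 * (n + 1) ≤ 2 ^ (l + 4) := by
      rw [pow_add]
      omega
    have h2 : l * n ≤ 2 ^ (2 * l) := by
      calc l * n ≤ 2 ^ l * 2 ^ l := Nat.mul_le_mul hll.le hn.le
        _ = 2 ^ (2 * l) := by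
          rw [← pow_add]
          congr 1
          ring
    have h3 : (16 * (n + 1)) ^ (l + 1) * (l * n) ≤ 2 ^ ((l + 4) * (l + 1) + 2 * l) := by
      calc (16 * (n + 1)) ^ (l + 1) * (l * n) ≤ (2 ^ (l + 4)) ^ (l + 1) * 2 ^ (2 * l) :=
            Nat.mul_le_mul (Nat.pow_le_pow_left h1 _) h2
        _ = 2 ^ ((l + 4) * (l + 1) + 2 * l) := by
          rw [← pow_mul, ← pow_add]
    have h4 : (l + 4) * (l + 1) + 2 * l + 1 ≤ 2 * l ^ 3 := by
      have h5 : l * l ≤ l ^ 3 := by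
        calc l * l = l ^ 2 := by ring
          _ ≤ l ^ 3 := Nat.pow_le_pow_right (by omega) (by norm_num)
      have h6 : 1000 * l ≤ l * l := Nat.mul_le_mul_right _ (by omega)
      nlinarith
    have h5 : 1 ≤ 2 ^ ((l + 4) * (l + 1) + 2 * l) := Nat.one_le_two_pow
    calc 1 + (16 * (n + 1)) ^ (l + 1) * (l * n) ≤
          2 ^ ((l + 4) * (l + 1) + 2 * l) + 2 ^ ((l + 4) * (l + 1) + 2 * l) := by omega
      _ = 2 ^ ((l + 4) * (l + 1) + 2 * l + 1) := by
          rw [pow_succ]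
          ring
      _ ≤ 2 ^ (2 * l ^ 3) := Nat.pow_le_pow_right (by norm_num) h4
      _ = 4 ^ (l ^ 3) := by
          rw [pow_mul]
          norm_num
  have h' : ((1 + (16 * (n + 1)) ^ (l + 1) * (l * n) : ℕ) : ℝ) ≤ ((4 ^ (l ^ 3) : ℕ) : ℝ) :=
    Nat.cast_le.2 h
  push_cast at h'
  exact h'

theorem T6_pre {n : ℕ} {M Q : Matrix (Fin n) (Fin n) ℝ} {α β α' β' : ℝ} (h : IsPre M Q α β)
    (h0 : ∀ x, 0 ≤ qf M⁻¹ x) (h1 : α' ≤ α) (h2 : β ≤ β') : IsPre M Q α' β' :=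
  ⟨h.1, fun x => ⟨(mul_le_mul_of_nonneg_right h1 (h0 x)).trans (h.2 x).1,
    (h.2 x).2.trans (mul_le_mul_of_nonneg_right h2 (h0 x))⟩⟩

section

variable {mm : ℕ → ℕ} (Φ : Lib mm)

theorem T6_core (D : OpT.den) (hD : OpOK D) (h s k q : ℕ) (lam : ℝ) (fr fc : ℕ → ℕ)
    (Om : CooT.den) (hh : opHeavy D fr fc h) (h1 : h ≤ 2 ^ s) (h2 : k ≤ 2 ^ s)
    (hOm : CooOK (opC D) k Om) (hlam : 0 < lam) (hq : 1 ≤ q)
    (V : Submodule ℝ (Fin (opC D) → ℝ))
    (hV : ∀ v ∈ V, ((toM (opR D) (opC D) (opA D))ᵀ * toM (opR D) (opC D) (opA D)) *ᵥ v ∈ V)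
    (hV2 : ∀ x, (∀ v ∈ V, v ⬝ᵥ x = 0) →
      sq (toM (opR D) (opC D) (opA D) *ᵥ x) ≤ (8 * lam) * sq x)
    (Λ ν : ℝ) (hΛ : 0 ≤ Λ)
    (hOmV : ∀ v ∈ V, sq v ≤ Λ * sq ((toM (opC D) k (cooA Om))ᵀ *ᵥ v))
    (hν : ∀ v, sq ((toM (opC D) k (cooA Om))ᵀ *ᵥ v) ≤ ν * sq v) (hΛq : 1 + Λ * ν ≤ 4 ^ q)
    (y : BaseT.den) (hy : y = Φ.base (((h, s), (k, q)), (lam, ((D, (fr, fc)), Om)))) :
    IsPre (gram (toM (opR D) (opC D) (opA D)) lam)
      (basePre (toM (opR D) (opC D) (opA D)) lam y.1.1 (toM (opC D) y.1.2 (cooA y.2.1))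
        (toM y.1.2 y.1.2 y.2.2.1) (toM y.1.2 y.1.2 y.2.2.2)) (1 / 37) 34 := by
  obtain ⟨e1, e2, e3, e4, e5, e6⟩ := Φ.base_eq h s k q lam D fr fc Om hh h1 h2 hD hOm hlam.le
    _ _ y rfl rfl hy
  clear hy
  obtain ⟨⟨y11, y12⟩, y21, y221, y222⟩ := y
  dsimp only at e1 e2 e3 e4 e5 e6
  have e11 : y11 = q := congrArg Prod.fst e1
  have e12 : y12 = k := congrArg Prod.snd e1
  clear e1
  dsimp only
  subst e11 e12 e2
  have := base_pre (toM (opR D) (opC D) (opA D)) lam (8 * lam) 8 Λ ν y11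
    (toM (opC D) y12 (cooA y21)) (toM y12 y12 y221) (toM y12 y12 y222) V hlam (by positivity)
    (by norm_num) le_rfl hq hV hV2 hΛ hOmV hν hΛq _ rfl e3 e4 e5 e6
  norm_num at this ⊢
  exact this

theorem T6_core3 (D : OpT.den) (hD : OpOK D) (h s t : ℕ) (lam : ℝ) (fr fc : ℕ → ℕ)
    (h0 : 1 ≤ h) (h1 : h ≤ 2 ^ s) (hm1 : D.2.1.1 ≤ h) (hm2 : D.2.1.2 ≤ h)
    (hc : opCore D fr fc t h) (hlam : 0 < lam)
    (y : BaseT.den) (hy : y = Φ.base3 (((h, s), t), (lam, (D, (fr, fc))))) :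
    IsPre (gram (toM (opR D) (opC D) (opA D)) lam)
      (basePre (toM (opR D) (opC D) (opA D)) lam y.1.1 (toM (opC D) y.1.2 (cooA y.2.1))
        (toM y.1.2 y.1.2 y.2.2.1) (toM y.1.2 y.1.2 y.2.2.2)) 1 1 := by
  obtain ⟨⟨W, hW⟩, e3, e4, e5, e6⟩ := Φ.base3_eq h s t lam D fr fc hD h0 h1 hm1 hm2 hc hlam.le
    _ y _ rfl hy rfl
  have hs := (Φ.base3_shape h s t lam D fr fc).1
  rw [← hy] at hs
  have h11 : y.1.1 = 0 := congrArg Prod.fst hs
  rw [h11, base3_pre _ lam _ W hW _ _ e3 e4 e5 e6 hlam]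
  refine ⟨?_, fun x => ⟨by rw [one_mul], by rw [one_mul]⟩⟩
  rw [Matrix.transpose_nonsing_inv]
  congr 1
  unfold gram
  rw [transpose_add, transpose_mul, transpose_transpose, transpose_smul, transpose_one]

theorem T6_unfold {F : FOpT.den} {D : OpT.den} (hF : F = (0, D)) {lam lam' α β : ℝ}
    (hl : lam = lam') {y y' : BaseT.den} (hy : y = y')
    (h : IsPre (gram (toM (opR D) (opC D) (opA D)) lam')
      (basePre (toM (opR D) (opC D) (opA D)) lam' y'.1.1 (toM (opC D) y'.1.2 (cooA y'.2.1))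
        (toM y'.1.2 y'.1.2 y'.2.2.1) (toM y'.1.2 y'.1.2 y'.2.2.2)) α β) :
    IsPre (gram (toM (fopR F) (fopC F) (fopA F)) lam)
      (basePre (toM (fopR F) (fopC F) (fopA F)) lam y.1.1 (toM (fopC F) y.1.2 (cooA y.2.1))
        (toM y.1.2 y.1.2 y.2.2.1) (toM y.1.2 y.1.2 y.2.2.2)) α β := by
  subst hF hl hy
  exact h

theorem T6_theta (g : GT.den) (j : ℕ) (st : StT.den) (w : ℕ → ℕ) :
    (theta Φ g j st w).1 0 = (0, st.2.2.1.1 (lev0 g j)) ∧
      (theta Φ g j st w).2.1.1 0 = gLam g (lev0 g j) ∧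
      (theta Φ g j st w).2.2.2.2 = baseOf Φ g j st w := by
  have h2 : 2 ≤ topIx g j := Nat.le_add_left _ _
  have h0 : 0 < topIx g j + 3 := by omega
  have h1 : 0 < topIx g j - 1 := by omega
  refine ⟨?_, ?_, rfl⟩
  · unfold theta asm
    dsimp only
    rw [tabV_lt h0, if_pos h1, if_pos (by norm_num)]
    norm_num
  · unfold theta asm
    dsimp only
    rw [tabV_lt h0, if_neg (by omega), if_pos h1]
    norm_num

end

theorem T6_cooT (y : CooT.den) (i j : ℕ) : cooA (cooT y) i j = cooA y j i := by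
  unfold cooA cooT
  refine Finset.sum_congr rfl fun e _ => ?_
  dsimp only
  by_cases h1 : y.2.2.1 e = i <;> by_cases h2 : y.2.1 e = j <;> simp [h1, h2]

theorem T6_om {mm : ℕ → ℕ} (Φ : Lib mm) {n J b k : ℕ} (hk : k = J * 2 ^ b) (bits : ℕ → ℕ) :
    CooOK n k (cooT (Φ.sk (n, (J, (b, bits))))) ∧
      ∀ v : Fin n → ℝ, sq ((toM n k (cooA (cooT (Φ.sk (n, (J, (b, bits)))))))ᵀ *ᵥ v) =
        sq (sk (skBits n J b bits) *ᵥ v) := by
  subst hk
  obtain ⟨h1, h2⟩ := Φ.sk_eq n J b bits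
  refine ⟨T6_cooOK h1, fun v => ?_⟩
  rw [← h2 v]
  congr 2
  ext i j
  exact T6_cooT _ _ _

theorem T6_zero {N : ℕ} (hN : N = 0) (M Q : Matrix (Fin N) (Fin N) ℝ) (α β : ℝ) :
    IsPre M Q α β := by
  subst hN
  refine ⟨Subsingleton.elim _ _, fun x => ?_⟩
  simp [qf, dotProduct]

theorem T6_head {a a' m m' : ℕ} {f : ℕ → ℕ → ℝ} {X : Matrix (Fin a') (Fin m') ℝ} {k : ℕ} {t : ℝ}
    (ha : a = a') (hm : m = m') (hX : toM a' m' f = X) (h : Head X k t) :
    Head (toM a m f) k t := by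
  subst ha hm hX
  exact h

section
variable {mm : ℕ → ℕ} (Φ : Lib mm) (c : Cst) (x : InT.den) (A0 : CooT.den) (g : GT.den)
  (A : Matrix (Fin x.1.1) (Fin x.1.1) ℝ) (xs : Fin x.1.1 → ℝ) (sg sn : ℝ) (cs : ℕ)

theorem base_frac (hc : Big c) (hs : Setup Φ c x A0 g A xs sg sn) (j : ℕ) (st : StT.den)
    (hL : Lev Φ g j st) (hM : LevM c x g j st) (hC : Chk g j st) (hj : j ≤ pl c x ^ 3)
    (hsg : lev0 g j = 0 ∨ sg ≤ lamM c x g (lev0 g j))
    (hcore : pmd c x = 1 → lev0 g j ≠ 0 → opCore (st.2.2.1.1 (lev0 g j))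
      (st.2.1.1 (lev0 g j)).2.2.2 (st.2.1.2 (lev0 g j)).2.2.2 (pK c x ^ pbb c x) (phcap c x)) :
    frac (fun w : Fin (pW c x) → Bool => ¬ IsPre
      (gram (toM (fopR ((theta Φ g j st (bw w)).1 0)) (fopC ((theta Φ g j st (bw w)).1 0))
        (fopA ((theta Φ g j st (bw w)).1 0))) ((theta Φ g j st (bw w)).2.1.1 0))
      (basePreOf (theta Φ g j st (bw w))) (pl c x : ℝ)⁻¹ (pl c x)) ≤ 1 / (pl c x : ℝ) ^ 5 := by
  have hg := hs.gok
  obtain ⟨hl, hn, hb3, hb7⟩ := T6_par hc x hs.h3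
  have hlR : (10 : ℝ) ^ 6 ≤ pl c x := by exact_mod_cast hl
  have hl0 : (0 : ℝ) < pl c x := by positivity
  have p0 : gP g 0 = x.1.1 := by rw [gP, hg.hP]; rfl
  have p5 : gP g 5 = pl c x := by rw [gP, hg.hP]; rfl
  have p10 : gP g 10 = pb3 c x := by rw [gP, hg.hP]; rfl
  have p11 : gP g 11 = pk3 c x := by rw [gP, hg.hP]; rfl
  have p12 : gP g 12 = ps c x := by rw [gP, hg.hP]; rfl
  have p18 : gP g 18 = pl c x ^ 3 := by rw [gP, hg.hP]; rfl
  have p24 : gP g 24 = phcap c x := by rw [gP, hg.hP]; rfl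
  have p25 : gP g 25 = pmd c x := by rw [gP, hg.hP]; rfl
  have p26 : gP g 26 = pK c x ^ pbb c x := by rw [gP, hg.hP]; rfl
  have hps : phcap c x + pm2 c x + pk3 c x < 2 ^ ps c x := by
    rw [ps]
    exact Nat.lt_log2_self
  have hi0 : lev0 g j ≤ j := Nat.sub_le _ _
  obtain ⟨hS, hT, hD⟩ := hL.2.2.1 (lev0 g j) hi0
  rw [p0] at hS hT
  obtain ⟨oD, dD, -, -, -⟩ := Φ.mkOp_eq (gE g) _ _ x.1.1 hg.ok hg.dim hS hT
  rw [← hD] at oD dD
  have dR : opR (st.2.2.1.1 (lev0 g j)) = (st.2.1.1 (lev0 g j)).1 := congrArg Prod.fst dD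
  have dC : opC (st.2.2.1.1 (lev0 g j)) = (st.2.1.2 (lev0 g j)).1 := congrArg Prod.snd dD
  have hlev : lev0 g j < pl c x ^ 3 + 2 := by omega
  have hlam : gLam g (lev0 g j) = lamM c x g (lev0 g j) := hg.lamE _ hlev
  have hK : (0 : ℝ) < pK c x := by
    have : 0 < pK c x := by unfold pK; positivity
    exact_mod_cast this
  have hlam0 : 0 < lamM c x g (lev0 g j) := by
    unfold lamM
    exact mul_pos hs.lam_pos (by positivity)
  by_cases hz : lev0 g j = 0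
  · -- dimension zero
    have e0 : (st.2.1.2 (lev0 g j)).1 = 0 := by
      rw [hz, hL.2.1]
      rfl
    have hall : ∀ w : ℕ → ℕ, fopC ((theta Φ g j st w).1 0) = 0 := by
      intro w
      rw [(T6_theta Φ g j st w).1]
      exact dC.trans e0
    refine le_trans (frac_mono (Q := fun _ => False) ?_) ?_
    · intro w hw
      exact hw (T6_zero (hall (bw w)) _ _ _ _)
    · rw [frac_false]
      positivity
  · have hsg' := hsg.resolve_left hz
    by_cases hmd : pmd c x = 1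
    · -- mode 3: exact
      refine le_trans (frac_mono (Q := fun _ => False) ?_) ?_
      · intro w hw
        apply hw
        have hbase : baseOf Φ g j st (bw w) = Φ.base3 (((gP g 24, gP g 12), gP g 26),
            (gLam g (lev0 g j), (st.2.2.1.1 (lev0 g j), ((st.2.1.1 (lev0 g j)).2.2.2,
              (st.2.1.2 (lev0 g j)).2.2.2)))) := by
          unfold baseOf
          rw [if_pos (p25.trans hmd)]
        have hpre := T6_core3 Φ (st.2.2.1.1 (lev0 g j)) oD (gP g 24) (gP g 12) (gP g 26)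
          (gLam g (lev0 g j)) (st.2.1.1 (lev0 g j)).2.2.2 (st.2.1.2 (lev0 g j)).2.2.2
          (by
            rw [p24]
            unfold phcap pBd
            exact Nat.mul_pos (Nat.pow_pos (by omega)) (Nat.succ_pos _))
          (by rw [p24, p12]; omega) hC.2.2.1.2.2.1 hC.2.2.1.2.2.2
          (by rw [p24, p26]; exact hcore hmd hz) (by rw [hlam]; exact hlam0) _ hbase
        have hpre' := T6_unfold (T6_theta Φ g j st (bw w)).1 (T6_theta Φ g j st (bw w)).2.1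
          (T6_theta Φ g j st (bw w)).2.2 hpre
        refine T6_pre hpre' (fun v => qf_inv_nonneg _ ?_ v) ?_ ?_
        · rw [(T6_theta Φ g j st (bw w)).2.1, hlam]
          exact hlam0
        · exact inv_le_one_of_one_le₀ (by linarith)
        · linarith
      · rw [frac_false]
        positivity
    -- the matrix has a head
    have hX := mkOp_mat Φ x.1.1 (gE g) _ _ hg.ok hg.dim hS hT
    rw [← hD] at hX
    have hV0 : Valid (smM x.1.1 (st.2.1.1 (lev0 g j))) (En x g) (lamM c x g (lev0 g j)) :=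
      (sd_valid _ _ hS _ _).2 (hM.vS _ hi0)
    have hV1 : Valid (smM x.1.1 (st.2.1.2 (lev0 g j)))ᵀᵀ (En x g)ᵀ (lamM c x g (lev0 g j)) := by
      rw [transpose_transpose]
      exact (sd_valid _ _ hT _ _).2 (hM.vT _ hi0)
    have hN := sd_noise _ _ _ hS hT _ _ _ (hM.n1 _ hi0)
    have hH := Head.sample hlam0 (by norm_num : (1 : ℝ) ≤ 2) (hs.head.mono le_rfl hsg') hV0 hV1 hN
    have e8 : (4 + 2 * 2 : ℝ) = 8 := by norm_num
    rw [e8] at hH
    have hH' : Head (toM (opR (st.2.2.1.1 (lev0 g j))) (opC (st.2.2.1.1 (lev0 g j)))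
        (opA (st.2.2.1.1 (lev0 g j)))) (pkk c x) (8 * lamM c x g (lev0 g j)) :=
      T6_head dR dC hX hH
    obtain ⟨V, hVk, hVi, hV2⟩ := Head.spectral (by positivity) hH'
    -- the embedding
    have hd : Module.finrank ℝ V ≤ opC (st.2.2.1.1 (lev0 g j)) :=
      (Submodule.finrank_le V).trans_eq (by simp)
    have hdn : opC (st.2.2.1.1 (lev0 g j)) ≤ x.1.1 := dC.trans_le (T6_count hT)
    have hE := embed (opC (st.2.2.1.1 (lev0 g j))) (pl c x) (pb3 c x) (Module.finrank ℝ V) V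
      (1 / (pl c x : ℝ) ^ 5) (by positivity)
      (by
        rw [div_le_one (by positivity)]
        exact one_le_pow₀ (by linarith)) le_rfl ((hd.trans hdn).trans_lt hn)
      (by
        have h1 : 16 * (Module.finrank ℝ V + 1) * pl c x ^ 6 ≤ 2 ^ pb3 c x :=
          le_trans (Nat.mul_le_mul_right _ (Nat.mul_le_mul_left _ (Nat.succ_le_succ hVk))) hb3
        have h2 : ((16 * (Module.finrank ℝ V + 1) * pl c x ^ 6 : ℕ) : ℝ) ≤
            ((2 ^ pb3 c x : ℕ) : ℝ) := Nat.cast_le.2 h1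
        push_cast at h2
        refine le_trans (le_of_eq ?_) h2
        field_simp)
    have hWin : pl c x * opC (st.2.2.1.1 (lev0 g j)) * (pb3 c x + 1) ≤ pW c x := by
      calc pl c x * opC (st.2.2.1.1 (lev0 g j)) * (pb3 c x + 1) ≤
            pl c x * x.1.1 * pl c x ^ 7 := Nat.mul_le_mul (Nat.mul_le_mul_left _ hdn) hb7
        _ = x.1.1 * pl c x ^ 8 := by ring
    have hE' := (T6_window hWin _).trans_le hE
    refine le_trans (frac_mono ?_) hE'
    intro w hw hgood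
    apply hw
    have hLam : 1 + (16 * ((opC (st.2.2.1.1 (lev0 g j)) : ℕ) + 1 : ℝ)) ^ (pl c x + 1) *
        ((pl c x : ℝ) * (opC (st.2.2.1.1 (lev0 g j)) : ℕ)) ≤ 4 ^ (pl c x ^ 3) :=
      T6_Lam _ _ hl (hdn.trans_lt hn)
    have k11 : gP g 11 = gP g 5 * 2 ^ gP g 10 := by
      rw [p11, p5, p10]
      rfl
    obtain ⟨o1, o2⟩ := T6_om Φ (n := opC (st.2.2.1.1 (lev0 g j))) k11 (bw w)
    have o3 : ∀ v : Fin (opC (st.2.2.1.1 (lev0 g j))) → ℝ,
        sq ((toM (opC (st.2.2.1.1 (lev0 g j))) (gP g 11) (cooA (omOf Φ g j st (bw w))))ᵀ *ᵥ v) =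
          sq (sk (skBits (opC (st.2.2.1.1 (lev0 g j))) (pl c x) (pb3 c x) (bw w)) *ᵥ v) := by
      intro v
      refine (o2 v).trans ?_
      rw [p5, p10]
    have hpre : IsPre (gram (toM (opR (st.2.2.1.1 (lev0 g j))) (opC (st.2.2.1.1 (lev0 g j)))
          (opA (st.2.2.1.1 (lev0 g j)))) (gLam g (lev0 g j)))
        (basePre (toM (opR (st.2.2.1.1 (lev0 g j))) (opC (st.2.2.1.1 (lev0 g j)))
          (opA (st.2.2.1.1 (lev0 g j)))) (gLam g (lev0 g j)) (baseOf Φ g j st (bw w)).1.1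
          (toM (opC (st.2.2.1.1 (lev0 g j))) (baseOf Φ g j st (bw w)).1.2
            (cooA (baseOf Φ g j st (bw w)).2.1))
          (toM (baseOf Φ g j st (bw w)).1.2 (baseOf Φ g j st (bw w)).1.2
            (baseOf Φ g j st (bw w)).2.2.1)
          (toM (baseOf Φ g j st (bw w)).1.2 (baseOf Φ g j st (bw w)).1.2
            (baseOf Φ g j st (bw w)).2.2.2)) (1 / 37) 34 := by
      rw [← hlam] at hV2 hlam0
      refine T6_core Φ (st.2.2.1.1 (lev0 g j)) oD (gP g 24) (gP g 12) (gP g 11) (gP g 18)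
        (gLam g (lev0 g j)) (st.2.1.1 (lev0 g j)).2.2.2 (st.2.1.2 (lev0 g j)).2.2.2
        (omOf Φ g j st (bw w)) hC.2.2.1 ?_ ?_ o1 hlam0 ?_ V hVi hV2
        ((16 * ((opC (st.2.2.1.1 (lev0 g j)) : ℕ) + 1 : ℝ)) ^ (pl c x + 1))
        ((pl c x : ℝ) * (opC (st.2.2.1.1 (lev0 g j)) : ℕ)) (by positivity) ?_ ?_ ?_ _
        (by unfold baseOf; rw [if_neg (fun h => hmd (p25.symm.trans h))])
      · rw [p24, p12]
        omega
      · rw [p11, p12]
        omega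
      · rw [p18]
        exact Nat.one_le_pow _ _ (by omega)
      · intro v hv
        rw [o3 v]
        exact hgood v hv
      · intro v
        rw [o3 v]
        exact T6_norm _ v
      · rw [p18]
        exact hLam
    have hpre' := T6_unfold (T6_theta Φ g j st (bw w)).1 (T6_theta Φ g j st (bw w)).2.1
      (T6_theta Φ g j st (bw w)).2.2 hpre
    refine T6_pre hpre' (fun v => qf_inv_nonneg _ ?_ v) ?_ ?_
    · rw [(T6_theta Φ g j st (bw w)).2.1, hlam]
      exact hlam0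
    · rw [one_div]
      exact inv_anti₀ (by norm_num) (by linarith)
    · linarith

end

end A56
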