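import Pool.Agent.Lib_helper50.A56.TDefs
/-!
# MP_a55cb8: sizes and the check (block T9, helper20)
-/

open Matrix Finset

namespace A56

section

variable {mm : ℕ → ℕ} (Φ : Lib mm) (c : Cst) (x : InT.den) (A0 : CooT.den) (g : GT.den)
  (A : Matrix (Fin x.1.1) (Fin x.1.1) ℝ) (xs : Fin x.1.1 → ℝ) (sg sn : ℝ) (cs : ℕ)

theorem T9_pl (hc : Big c) : 10 ^ 6 ≤ pl c x := by
  have := hc.c1
  unfold pl
  omega

theorem T9_K : (1 : ℝ) ≤ (pK c x : ℝ) := by
  have : 1 ≤ pK c x := Nat.one_le_pow _ _ (by norm_num)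
  exact_mod_cast this

theorem T9_two (a : ℕ) (ha : a ≠ 0) : 2 ^ (Nat.log2 a + 1) ≤ 2 * a := by
  have h := Nat.log2_self_le ha
  rw [pow_succ]
  omega

theorem T9_pm1 (hc : Big c) : pm1 c x ≤ 32 * (x.1.2 + 1) * pl c x ^ 7 := by
  have hl := T9_pl c x hc
  have h0 : 16 * (x.1.2 + 1) * pl c x ^ 6 ≠ 0 := by
    have : 0 < pl c x := by omega
    positivity
  have h := T9_two _ h0
  unfold pm1 pb1
  calc pl c x * 2 ^ (Nat.log2 (16 * (x.1.2 + 1) * pl c x ^ 6) + 1)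
      ≤ pl c x * (2 * (16 * (x.1.2 + 1) * pl c x ^ 6)) := Nat.mul_le_mul_left _ h
    _ = 32 * (x.1.2 + 1) * pl c x ^ 7 := by ring

theorem T9_pm2 (hc : Big c) : pm2 c x ≤ 32 * (pm1 c x + 1) * pl c x ^ 7 := by
  have hl := T9_pl c x hc
  have h0 : 16 * (pm1 c x + 1) * pl c x ^ 6 ≠ 0 := by
    have : 0 < pl c x := by omega
    positivity
  have h := T9_two _ h0
  unfold pm2 pb2
  calc pl c x * 2 ^ (Nat.log2 (16 * (pm1 c x + 1) * pl c x ^ 6) + 1)
      ≤ pl c x * (2 * (16 * (pm1 c x + 1) * pl c x ^ 6)) := Nat.mul_le_mul_left _ h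
    _ = 32 * (pm1 c x + 1) * pl c x ^ 7 := by ring

theorem T9_caps (hc : Big c) : pm1 c x ≤ phcap c x ∧ pm2 c x ≤ phcap c x := by
  have hl := T9_pl c x hc
  have hl1 : 1 ≤ pl c x := by omega
  have h1 := T9_pm1 c x hc
  have h2 := T9_pm2 c x hc
  have hB := hc.cB
  have hp : ∀ e, e ≤ c.cB → pl c x ^ e ≤ pBd c x := fun e he =>
    Nat.pow_le_pow_right hl1 he
  have hk : 0 < x.1.2 + 1 := Nat.succ_pos _
  have hA : pl c x ^ 7 * (x.1.2 + 1) * 32 ≤ pl c x ^ 8 * (x.1.2 + 1) := by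
    calc pl c x ^ 7 * (x.1.2 + 1) * 32 ≤ pl c x ^ 7 * (x.1.2 + 1) * pl c x :=
          Nat.mul_le_mul_left _ (by omega)
      _ = pl c x ^ 8 * (x.1.2 + 1) := by ring
  have h1' : pm1 c x ≤ pl c x ^ 8 * (x.1.2 + 1) := by
    calc pm1 c x ≤ 32 * (x.1.2 + 1) * pl c x ^ 7 := h1
      _ = pl c x ^ 7 * (x.1.2 + 1) * 32 := by ring
      _ ≤ _ := hA
  refine ⟨?_, ?_⟩
  · refine h1'.trans ?_
    unfold phcap
    exact Nat.mul_le_mul_right _ (hp 8 (by omega))
  · have h3 : pm1 c x + 1 ≤ 2 * (pl c x ^ 8 * (x.1.2 + 1)) := by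
      have : 0 < pl c x ^ 8 * (x.1.2 + 1) := Nat.mul_pos (pow_pos hl1 8) hk
      omega
    have h4 : pm2 c x ≤ pl c x ^ 16 * (x.1.2 + 1) := by
      calc pm2 c x ≤ 32 * (pm1 c x + 1) * pl c x ^ 7 := h2
        _ ≤ 32 * (2 * (pl c x ^ 8 * (x.1.2 + 1))) * pl c x ^ 7 :=
            Nat.mul_le_mul_right _ (Nat.mul_le_mul_left _ h3)
        _ = pl c x ^ 15 * (x.1.2 + 1) * 64 := by ring
        _ ≤ pl c x ^ 15 * (x.1.2 + 1) * pl c x := Nat.mul_le_mul_left _ (by omega)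
        _ = _ := by ring
    refine h4.trans ?_
    unfold phcap
    exact Nat.mul_le_mul_right _ (hp 16 (by omega))

theorem T9_lam {i j : ℕ} (h : i ≤ j) :
    lamM c x g i = lamM c x g j * (pK c x : ℝ) ^ (j - i) := by
  have hK := T9_K c x
  have hK0 : (pK c x : ℝ) ≠ 0 := by positivity
  obtain ⟨d, rfl⟩ := Nat.exists_eq_add_of_le h
  have : i + d - i = d := by omega
  rw [this]
  unfold lamM
  rw [pow_add, inv_pow, inv_pow]
  field_simp

theorem T9_eta (hc : Big c) (hsg : 0 < sg) {j : ℕ}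
    (hl : j = 0 ∨ pl c x * sg < lamM c x g j) {i : ℕ} (hi : i ≤ j) :
    eta sg (lamM c x g i) * (pK c x : ℝ) ^ (j - i) ≤ 1 := by
  have hK := T9_K c x
  have hK0 : (0 : ℝ) < (pK c x : ℝ) := by linarith
  rcases hl with rfl | hl
  · have : i = 0 := by omega
    subst this
    simp only [Nat.sub_self, pow_zero, mul_one]
    exact min_le_left _ _
  · have hl6 := T9_pl c x hc
    have hl1 : (1 : ℝ) ≤ (pl c x : ℝ) := by
      have : 1 ≤ pl c x := by omega
      exact_mod_cast this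
    have hsl : sg ≤ pl c x * sg := by nlinarith
    have hj : 0 < lamM c x g j := by linarith
    have hp : (0 : ℝ) < (pK c x : ℝ) ^ (j - i) := by positivity
    have hli : lamM c x g i = lamM c x g j * (pK c x : ℝ) ^ (j - i) := T9_lam c x g hi
    calc eta sg (lamM c x g i) * (pK c x : ℝ) ^ (j - i)
          ≤ sg / lamM c x g i * (pK c x : ℝ) ^ (j - i) :=
            mul_le_mul_of_nonneg_right (min_le_right _ _) hp.le
        _ = sg / lamM c x g j := by
            rw [hli]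
            field_simp
        _ ≤ 1 := by
            rw [div_le_one hj]
            linarith

theorem T9_ph (hc : Big c) :
    (pK c x : ℝ) ^ pbb c x * (1 / 4) ^ ph c x ≤ (pl c x : ℝ) ^ (2 * c.ch) := by
  have h1 : ptau c x * pbb c x ≤ ph c x + c.ch * Nat.log2 (pl c x) := by
    unfold ph
    omega
  have hl6 := T9_pl c x hc
  have hlog : (2 : ℝ) ^ Nat.log2 (pl c x) ≤ (pl c x : ℝ) := by
    have := Nat.log2_self_le (by omega : pl c x ≠ 0)
    exact_mod_cast this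
  have h2 : (pK c x : ℝ) ^ pbb c x = 4 ^ (ptau c x * pbb c x) := by
    unfold pK
    push_cast
    rw [pow_mul]
  have h3 : (4 : ℝ) ^ (ptau c x * pbb c x) ≤ 4 ^ (ph c x + c.ch * Nat.log2 (pl c x)) :=
    pow_le_pow_right₀ (by norm_num) h1
  have h4 : (4 : ℝ) ^ (ph c x + c.ch * Nat.log2 (pl c x)) * (1 / 4) ^ ph c x =
      ((2 : ℝ) ^ Nat.log2 (pl c x)) ^ (2 * c.ch) := by
    rw [pow_add, one_div, inv_pow]
    have : (4 : ℝ) ^ ph c x ≠ 0 := by positivity
    field_simp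
    rw [← pow_mul, show (4 : ℝ) = 2 ^ 2 by norm_num, ← pow_mul]
    congr 1
    ring
  rw [h2]
  calc (4 : ℝ) ^ (ptau c x * pbb c x) * (1 / 4) ^ ph c x
      ≤ 4 ^ (ph c x + c.ch * Nat.log2 (pl c x)) * (1 / 4) ^ ph c x :=
        mul_le_mul_of_nonneg_right h3 (by positivity)
    _ = ((2 : ℝ) ^ Nat.log2 (pl c x)) ^ (2 * c.ch) := h4
    _ ≤ (pl c x : ℝ) ^ (2 * c.ch) := pow_le_pow_left₀ (by positivity) hlog _

/-- arithmetic of one budget line -/
theorem T9_arith {s L e B P k N q : ℝ} (hP : 0 ≤ P) (hL : 0 ≤ L) (hk : 0 ≤ k) (hN : 0 ≤ N)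
    (hs : s ≤ L * (k + e * N)) (he : e * P ≤ q) (hq : 1 ≤ q) (hB : L * q ≤ B) :
    s * P ≤ B * (k * P + N) := by
  have h1 : s * P ≤ L * (k + e * N) * P := mul_le_mul_of_nonneg_right hs hP
  have h2 : L * (k + e * N) * P = L * (k * P + (e * P) * N) := by ring
  have h3 : (e * P) * N ≤ q * N := mul_le_mul_of_nonneg_right he hN
  have hkP : 0 ≤ k * P := mul_nonneg hk hP
  have h4 : k * P ≤ q * (k * P) := by nlinarith
  have h5 : L * (k * P + (e * P) * N) ≤ L * (q * (k * P + N)) := by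
    refine mul_le_mul_of_nonneg_left ?_ hL
    nlinarith
  have h6 : L * (q * (k * P + N)) = (L * q) * (k * P + N) := by ring
  have h7 : (L * q) * (k * P + N) ≤ B * (k * P + N) :=
    mul_le_mul_of_nonneg_right hB (by positivity)
  linarith

theorem size_chk (hc : Big c) (hs : Setup Φ c x A0 g A xs sg sn) (hcs : cs + 2 * c.ch + 100 ≤ c.cB)
    (j : ℕ) (st : StT.den) (hL : Lev Φ g j st) (hS : ∀ i ≤ j, SizeM c x g sg cs i st)
    (hl : j = 0 ∨ pl c x * sg < lamM c x g j) : Chk g j st := by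
  have hP := hs.gok.hP
  have hlN := T9_pl c x hc
  have hlR : (10 : ℝ) ^ 6 ≤ (pl c x : ℝ) := by exact_mod_cast hlN
  have hl1 : (1 : ℝ) ≤ (pl c x : ℝ) := by linarith [hlR, (by norm_num : (1 : ℝ) ≤ 10 ^ 6)]
  have hK := T9_K c x
  have hK0 : (0 : ℝ) < (pK c x : ℝ) := by linarith
  have hsg := hs.sg_pos
  have e0 : gP g 0 = x.1.1 := by rw [gP, hP]; rfl
  have e1 : gP g 1 = x.1.2 := by rw [gP, hP]; rfl
  have e2 : gP g 2 = x.2.1 := by rw [gP, hP]; rfl
  have e14 : gP g 14 = pK c x := by rw [gP, hP]; rfl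
  have e20 : gP g 20 = pBd c x := by rw [gP, hP]; rfl
  have e21 : gP g 21 = pbb c x := by rw [gP, hP]; rfl
  have e24 : gP g 24 = phcap c x := by rw [gP, hP]; rfl
  have hBd : ((pBd c x : ℕ) : ℝ) = (pl c x : ℝ) ^ c.cB := by
    unfold pBd
    push_cast
    rfl
  have hcs1 : (pl c x : ℝ) ^ cs * 1 ≤ (pBd c x : ℝ) := by
    rw [hBd, mul_one]
    exact pow_le_pow_right₀ hl1 (by omega)
  have hcs2 : (pl c x : ℝ) ^ cs * (1 + (pl c x : ℝ) ^ (2 * c.ch)) ≤ (pBd c x : ℝ) := by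
    rw [hBd]
    have h1 : (1 : ℝ) ≤ (pl c x : ℝ) ^ (2 * c.ch) := one_le_pow₀ hl1
    calc (pl c x : ℝ) ^ cs * (1 + (pl c x : ℝ) ^ (2 * c.ch))
        ≤ (pl c x : ℝ) ^ cs * ((pl c x : ℝ) ^ 1 * (pl c x : ℝ) ^ (2 * c.ch)) := by
          refine mul_le_mul_of_nonneg_left ?_ (by positivity)
          rw [pow_one]
          nlinarith
      _ = (pl c x : ℝ) ^ (cs + 1 + 2 * c.ch) := by rw [pow_add, pow_add]; ring
      _ ≤ _ := pow_le_pow_right₀ hl1 (by omega)
  have hL0 : (0 : ℝ) ≤ (pl c x : ℝ) ^ cs := by positivity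
  have hk2 : (0 : ℝ) ≤ (x.1.2 : ℝ) ^ 2 := by positivity
  have hk1 : (0 : ℝ) ≤ (x.1.2 : ℝ) := by positivity
  have hN : (0 : ℝ) ≤ (x.2.1 : ℝ) := by positivity
  have hi0 : lev0 g j ≤ j := Nat.sub_le _ _
  unfold Chk
  rw [e1, e2, e14, e20, e24]
  refine ⟨?_, ?_, ?_, ?_⟩
  · intro i hi _
    have h := T9_arith (P := (pK c x : ℝ) ^ (j - i)) (by positivity) hL0 hk2 hN
      (hS i hi).szD (T9_eta c x g sg hc hsg hl hi) le_rfl hcs1
    exact_mod_cast h
  · intro i hi hi2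
    have h := T9_arith (P := (pK c x : ℝ) ^ (j - i)) (by positivity) hL0 hk2 hN
      ((hS i hi).szF (by omega)) (T9_eta c x g sg hc hsg hl hi) le_rfl hcs1
    exact_mod_cast h
  · rcases Nat.eq_zero_or_pos (lev0 g j) with hz | hpos
    · rw [hz]
      have hD : st.2.2.1.1 0 = Φ.mkOp (gE g, (sdEmpty, sdEmpty)) := by
        have h := (hL.2.2.1 0 (Nat.zero_le _)).2.2
        rw [hL.1, hL.2.1] at h
        exact h
      have hsd := (hL.2.2.1 0 (Nat.zero_le _)).1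
      rw [hL.1, e0] at hsd
      obtain ⟨_, m2, m3, _⟩ := Φ.mkOp_eq (gE g) sdEmpty sdEmpty x.1.1 hs.gok.ok hs.gok.dim hsd hsd
      rw [hD]
      have hR : opR (Φ.mkOp (gE g, (sdEmpty, sdEmpty))) = 0 := by
        show (Φ.mkOp (gE g, (sdEmpty, sdEmpty))).1.1 = 0
        rw [m2]
        rfl
      have hC : opC (Φ.mkOp (gE g, (sdEmpty, sdEmpty))) = 0 := by
        show (Φ.mkOp (gE g, (sdEmpty, sdEmpty))).1.2 = 0
        rw [m2]
        rfl
      have hcap := T9_caps c x hc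
      refine ⟨?_, ?_, ?_, ?_⟩
      · rw [hR]; simp
      · rw [hC]; simp
      · rw [m3, hs.gok.mid]; exact hcap.1
      · rw [m3, hs.gok.mid]; exact hcap.2
    · have hlt : pbb c x < j := by
        have : lev0 g j = j - gP g 21 := rfl
        rw [this, e21] at hpos
        omega
      have hl' : pl c x * sg < lamM c x g j := by
        rcases hl with h | h
        · omega
        · exact h
      refine (hS (lev0 g j) hi0).heavy ?_
      have hd : j - lev0 g j = pbb c x := by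
        show j - (j - gP g 21) = pbb c x
        rw [e21]
        omega
      rw [T9_lam c x g hi0, hd, mul_comm]
      refine mul_le_mul_of_nonneg_right ?_ (by positivity)
      nlinarith
  · have hd : j - lev0 g j ≤ pbb c x := by
      show j - (j - gP g 21) ≤ pbb c x
      rw [e21]
      omega
    have he : (eta sg (lamM c x g (lev0 g j)) + (1 / 4) ^ ph c x) *
        (pK c x : ℝ) ^ (j - lev0 g j) ≤ 1 + (pl c x : ℝ) ^ (2 * c.ch) := by
      rw [add_mul]
      refine add_le_add (T9_eta c x g sg hc hsg hl hi0) ?_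
      calc (1 / 4 : ℝ) ^ ph c x * (pK c x : ℝ) ^ (j - lev0 g j)
          ≤ (1 / 4 : ℝ) ^ ph c x * (pK c x : ℝ) ^ pbb c x :=
            mul_le_mul_of_nonneg_left (pow_le_pow_right₀ hK hd) (by positivity)
        _ = (pK c x : ℝ) ^ pbb c x * (1 / 4) ^ ph c x := mul_comm _ _
        _ ≤ _ := T9_ph c x hc
    have h := T9_arith (P := (pK c x : ℝ) ^ (j - lev0 g j)) (by positivity) hL0 hk1 hN
      (hS (lev0 g j) hi0).rest he
      (by have : (0 : ℝ) ≤ (pl c x : ℝ) ^ (2 * c.ch) := by positivity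
          linarith) hcs2
    exact_mod_cast h

end

end A56
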