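import Pool.Agent.Lib_helper50.A56.TDefs
import Pool.Agent.Lib_helper50.A56.B.T4
import Pool.Agent.Lib_helper50.A56.B.T5
import Pool.Agent.Lib_helper50.A56.B.T6
import Pool.Agent.Lib_helper50.A56.B.T7
import Pool.Agent.Lib_helper50.A56.B.T8
import Pool.Agent.Lib_helper50.A56.B.T9
open Matrix Finset

namespace A56

section

variable {mm : ℕ → ℕ} (Φ : Lib mm) (c : Cst) (x : InT.den) (A0 : CooT.den) (g : GT.den)
  (A : Matrix (Fin x.1.1) (Fin x.1.1) ℝ) (xs : Fin x.1.1 → ℝ) (sg sn : ℝ) (cs : ℕ)

/-! ## block T11 -/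

theorem T11_frac_mono {Ω : Type*} [Fintype Ω] {p q : Ω → Prop} (h : ∀ w, p w → q w) :
    frac p ≤ frac q := by
  classical
  unfold frac
  apply div_le_div_of_nonneg_right _ (Nat.cast_nonneg _)
  have : (Finset.univ.filter p).card ≤ (Finset.univ.filter q).card :=
    Finset.card_le_card (fun w hw => by
      simp only [Finset.mem_filter, Finset.mem_univ, true_and] at hw ⊢
      exact h w hw)
  exact_mod_cast this

theorem T11_frac_false {Ω : Type*} [Fintype Ω] {p : Ω → Prop} (h : ∀ w, ¬ p w) :
    frac p = 0 := by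
  classical
  unfold frac
  have : (Finset.univ.filter p) = ∅ := by
    ext w
    simp [h w]
  rw [this]
  simp

theorem T11_pl_one (hc : Big c) : (1 : ℝ) ≤ pl c x := by
  have h1 := hc.c1
  have : 1 ≤ pl c x := by
    unfold pl
    omega
  exact_mod_cast this

theorem T11_pK_one : (1 : ℝ) ≤ pK c x := by
  have : 1 ≤ pK c x := Nat.one_le_pow _ _ (by norm_num)
  exact_mod_cast this

theorem T11_lam_anti (h0 : 0 ≤ gLam g 0) {i j : ℕ} (hij : i ≤ j) :
    lamM c x g j ≤ lamM c x g i := by
  unfold lamM
  apply mul_le_mul_of_nonneg_left _ h0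
  apply pow_le_pow_of_le_one
  · have := T11_pK_one c x
    positivity
  · exact inv_le_one_of_one_le₀ (T11_pK_one c x)
  · exact hij

theorem T11_goodS {j : ℕ} {st : StT.den} (h : GoodS Φ c x A0 g sg cs j st) (a : (Ty.prod .nat VecT).den)
    (Θ : ChT.den) : GoodS Φ c x A0 g sg cs j (a, (st.2.1, (st.2.2.1, Θ))) :=
  ⟨h.lev, ⟨h.levM.vS, h.levM.vT, h.levM.n1, h.levM.n2, h.levM.wS, h.levM.wT⟩, h.kill, h.next,
    fun i hi => ⟨(h.size i hi).szD, (h.size i hi).szF, (h.size i hi).heavy, (h.size i hi).rest,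
      (h.size i hi).core⟩⟩

/-- step 0 -/
theorem step0_frac (hc : Big c) (hs : Setup Φ c x A0 g A xs sg sn)
    (hcs : cs + 2 * c.ch + 100 ≤ c.cB) (j : ℕ) (hj : j ≤ pl c x ^ 3) (st : StT.den)
    (h : Good0 Φ c x A0 g xs sg cs j st) :
    frac (fun w : Fin (pW c x) → Bool => ¬ Good1 Φ c x A0 g xs sg cs j (st0 Φ g j st (bw w))) ≤
      50 / (pl c x : ℝ) ^ 5 := by
  have hl1 := T11_pl_one c x hc
  by_cases h0 : st.1.1 = 0
  · obtain ⟨hG, hl⟩ := h.main h0
    have hC : Chk g j st := size_chk Φ c x A0 g A xs sg sn cs hc hs hcs j st hG.lev hG.size hl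
    have hchk : chk (g, (j, st)) = 1 := by
      unfold chk
      exact if_pos hC
    have hsg : lev0 g j = 0 ∨ sg ≤ lamM c x g (lev0 g j) := by
      rcases hl with hl | hl
      · left
        subst hl
        simp [lev0]
      · right
        have h1 : lamM c x g j ≤ lamM c x g (lev0 g j) :=
          T11_lam_anti c x g hs.lam_pos.le (Nat.sub_le _ _)
        have h2 : sg ≤ pl c x * sg := le_mul_of_one_le_left hs.sg_pos.le hl1
        linarith
    have hcore : pmd c x = 1 → lev0 g j ≠ 0 → opCore (st.2.2.1.1 (lev0 g j))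
        (st.2.1.1 (lev0 g j)).2.2.2 (st.2.1.2 (lev0 g j)).2.2.2 (pK c x ^ pbb c x)
        (phcap c x) := by
      intro hmd hz
      have hi0 : lev0 g j ≤ j := Nat.sub_le _ _
      refine (hG.size _ hi0).core hmd ?_
      have p21 : gP g 21 = pbb c x := by
        show g.1.1 21 = _
        rw [hs.gok.hP]; rfl
      have hjl : j - lev0 g j = pbb c x := by
        show j - (j - gP g 21) = pbb c x
        have h1 : j - gP g 21 ≠ 0 := hz
        rw [p21] at h1 ⊢
        omega
      have h2 := T9_lam c x g hi0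
      rw [hjl] at h2
      have h3 : sg ≤ lamM c x g j := by
        rcases hl with hl | hl
        · exfalso
          apply hz
          subst hl
          simp [lev0]
        · have h4 : sg ≤ pl c x * sg := le_mul_of_one_le_left hs.sg_pos.le hl1
          linarith
      have h5 : (0 : ℝ) ≤ (pK c x : ℝ) ^ pbb c x := by positivity
      nlinarith [mul_le_mul_of_nonneg_left h3 h5]
    refine le_trans (T11_frac_mono ?_) (le_trans (base_frac Φ c x A0 g A xs sg sn hc hs j st hG.lev
      hG.levM hC hj hsg hcore) ?_)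
    · intro w hw hb
      apply hw
      have hch := chain_stage Φ c x A0 g hc hs.gok j st (bw w) hG.lev hG.levM hj hs.lam_pos
        hs.lam_lo hb
      obtain ⟨q1, q2, q3⟩ := chain_sols Φ c x A0 g hc hs.gok j st (bw w) hG.lev hj hch
      by_cases hcert : gQ g 6 * Φ.dot (gP g 0, (g.2.2.2, g.2.2.2)) <
          Φ.dot (gP g 0, (resid Φ g (cand Φ g j (theta Φ g j st (bw w))),
            resid Φ g (cand Φ g j (theta Φ g j st (bw w)))))
      · have hst : st0 Φ g j st (bw w) =
            (st.1, (st.2.1, (st.2.2.1, theta Φ g j st (bw w)))) := by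
          unfold st0
          rw [if_pos h0, if_pos hchk]
          exact if_pos hcert
        rw [hst]
        refine ⟨fun h1 => absurd h0 h1, fun _ => ⟨T11_goodS Φ c x A0 g sg cs hG _ _, ?_,
          ⟨bw w, rfl⟩, q1, q2, q3⟩⟩
        by_contra hlt
        exact cert_pass Φ c x A0 g A xs sg sn hc hs j st (bw w) hG.lev hj (not_lt.mp hlt) q1 _ rfl
          hcert
      · have hst : st0 Φ g j st (bw w) =
            ((1, elimX Φ (gE g) g.2.1.2.1 g.2.1.2.2 g.2.2.1
              (cand Φ g j (theta Φ g j st (bw w)))), st.2) := by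
          unfold st0
          rw [if_pos h0, if_pos hchk]
          exact if_neg hcert
        rw [hst]
        refine ⟨fun _ => ?_, fun h1 => absurd h1 one_ne_zero⟩
        exact cert_ok Φ c x A0 g A xs sg sn hc hs.toSetup1 _ _ rfl hcert
    · apply div_le_div_of_nonneg_right (by norm_num)
      positivity
  · rw [T11_frac_false]
    · positivity
    · intro w hw
      apply hw
      have hst : st0 Φ g j st (bw w) = st := by
        unfold st0
        rw [if_neg h0]
      rw [hst]
      exact ⟨h.out, fun h1 => absurd h1 h0⟩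

end

end A56
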