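import Pool.Agent.Lib_helper50.A56.TDefs
import Pool.Agent.Lib_helper50.A56.L.P_J5
import Pool.Agent.Lib_helper50.A56.L.P_L4
/-!
# MP_a55cb8: block T15 (helper94): the ridges
-/

open Matrix Finset

namespace A56

/-! ## stubs -/

/-! ## end of the stubs -/

theorem T15_sq {n : ℕ} (v : Fin n → ℝ) : sq v = v ⬝ᵥ v := by
  unfold sq dotProduct
  exact Finset.sum_congr rfl fun i _ => pow_two _

theorem T15_cs {n : ℕ} (u v : Fin n → ℝ) : (u ⬝ᵥ v) ^ 2 ≤ sq u * sq v := by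
  unfold sq dotProduct
  exact Finset.sum_mul_sq_le_sq_mul_sq _ _ _

/-- Frobenius norm, squared -/
noncomputable def T15F {n : ℕ} (E : Matrix (Fin n) (Fin n) ℝ) : ℝ := ∑ i, sq (E i)

theorem T15_F_lo {n : ℕ} (E : Matrix (Fin n) (Fin n) ℝ) (v : Fin n → ℝ) :
    sq (E *ᵥ v) ≤ T15F E * sq v := by
  unfold T15F
  rw [Finset.sum_mul]
  exact Finset.sum_le_sum fun i _ => T15_cs (E i) v

theorem T15_F_hi {n : ℕ} (E : Matrix (Fin n) (Fin n) ℝ) (C : ℝ)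
    (h : ∀ v, sq (E *ᵥ v) ≤ C * sq v) : T15F E ≤ n * C := by
  have h1 : T15F E = ∑ j, sq (E *ᵥ Pi.single j 1) := by
    unfold T15F sq
    rw [Finset.sum_comm]
    refine Finset.sum_congr rfl fun j _ => Finset.sum_congr rfl fun i _ => ?_
    rw [Matrix.mulVec_single_one]
    rfl
  rw [h1]
  have h2 : ∀ j ∈ (Finset.univ : Finset (Fin n)), sq (E *ᵥ Pi.single j 1) ≤ C := by
    intro j _
    have h3 : sq (Pi.single j (1 : ℝ) : Fin n → ℝ) = 1 := by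
      unfold sq
      rw [Finset.sum_eq_single j]
      · simp
      · intro i _ hij
        rw [Pi.single_eq_of_ne hij]
        norm_num
      · intro hj
        exact absurd (Finset.mem_univ j) hj
    have h4 := h (Pi.single j 1)
    rw [h3, mul_one] at h4
    exact h4
  refine (Finset.sum_le_sum h2).trans ?_
  rw [Finset.sum_const, Finset.card_univ, Fintype.card_fin, nsmul_eq_mul]

theorem T15_F_nonneg {n : ℕ} (E : Matrix (Fin n) (Fin n) ℝ) : 0 ≤ T15F E := by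
  unfold T15F sq
  positivity

theorem T15_F_pos {n : ℕ} (E : Matrix (Fin n) (Fin n) ℝ) (v : Fin n → ℝ) (h : E *ᵥ v ≠ 0) :
    0 < T15F E := by
  refine lt_of_le_of_ne (T15_F_nonneg E) fun h0 => h ?_
  have h1 := T15_F_lo E v
  rw [← h0, zero_mul] at h1
  funext i
  have h2 : (E *ᵥ v) i ^ 2 ≤ sq (E *ᵥ v) := by
    unfold sq
    exact Finset.single_le_sum (f := fun i => (E *ᵥ v) i ^ 2) (fun j _ => sq_nonneg _)
      (Finset.mem_univ i)
  have h3 : (E *ᵥ v) i ^ 2 = 0 := le_antisymm (h2.trans h1) (sq_nonneg _)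
  simpa using h3

/-- the sum over the copies -/
theorem T15_swap {n M : ℕ} (E : Matrix (Fin n) (Fin n) ℝ) (G : Fin M → Fin n → Bool) :
    ∑ r, sq (E *ᵥ fun j => sgn (G r j)) = ∑ i, ∑ r, (∑ j, E i j * sgn (G r j)) ^ 2 := by
  unfold sq
  rw [Finset.sum_comm]
  rfl

theorem T15_mv {mm : ℕ → ℕ} (Φ : Lib mm) (E : OpT.den) (hE : OpOK E) (n : ℕ)
    (hd : E.1 = (n, n)) (v : VecT.den) :
    toV n (Φ.mv ((0, E), v)) = toM n n (opA E) *ᵥ toV n v := by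
  obtain ⟨⟨a, b⟩, rest⟩ := E
  have h1 : a = n := congrArg Prod.fst hd
  have h2 : b = n := congrArg Prod.snd hd
  subst h1
  subst h2
  exact Φ.mv_eq (0, ((_, _), rest)) v hE

theorem T15_top {mm : ℕ → ℕ} (Φ : Lib mm) (E : OpT.den) (hE : OpOK E) (n M : ℕ)
    (hd : E.1 = (n, n)) (s : (Ty.arr VecT).den) :
    topLam Φ M E s = 16 * ∑ r ∈ range M, sq (toM n n (opA E) *ᵥ toV n (s r)) := by
  have hn : E.1.1 = n := by rw [hd]
  unfold topLam
  rw [hn]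
  congr 1
  refine Finset.sum_congr rfl fun r _ => ?_
  rw [Φ.dot_eq, T15_mv Φ E hE n hd, T15_sq]

theorem T15_lt {M n W : ℕ} (hW : M * n ≤ W) (r : Fin M) (j : Fin n) :
    (r : ℕ) * n + j < W := by
  have h1 : (r : ℕ) * n + j < (r + 1) * n := by
    rw [add_mul, one_mul]
    exact Nat.add_lt_add_left j.2 _
  exact lt_of_lt_of_le (lt_of_lt_of_le h1 (Nat.mul_le_mul_right _ r.2)) hW

/-- the signs from the window -/
def T15G {M n W : ℕ} (hW : M * n ≤ W) (w : Fin W → Bool) : Fin M → Fin n → Bool :=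
  fun r j => w ⟨r * n + j, T15_lt hW r j⟩

theorem T15_bits {M n W : ℕ} (hW : M * n ≤ W) (w : Fin W → Bool) (r : Fin M) (j : Fin n) :
    decide (bw w (r * n + j) = 1) = T15G hW w r j := by
  unfold bw T15G
  rw [dif_pos (T15_lt hW r j)]
  cases w ⟨r * n + j, T15_lt hW r j⟩ <;> rfl

theorem T15_frac {M n W : ℕ} (hW : M * n ≤ W) (p : (Fin M → Fin n → Bool) → Prop) :
    frac (fun w : Fin W → Bool => p (T15G hW w)) = frac p := by
  have hinj : Function.Injective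
      (fun q : Fin M × Fin n => (⟨q.1 * n + q.2, T15_lt hW q.1 q.2⟩ : Fin W)) := by
    rintro ⟨r, j⟩ ⟨r', j'⟩ h
    have h1 : (r : ℕ) * n + j = r' * n + j' := congrArg Fin.val h
    have hn : 0 < n := lt_of_le_of_lt (Nat.zero_le _) j.2
    have h2 : ((r : ℕ) * n + j) / n = r := by
      rw [mul_comm, Nat.mul_add_div hn, Nat.div_eq_of_lt j.2, add_zero]
    have h3 : ((r' : ℕ) * n + j') / n = r' := by
      rw [mul_comm, Nat.mul_add_div hn, Nat.div_eq_of_lt j'.2, add_zero]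
    have h4 : (r : ℕ) = r' := by rw [← h2, ← h3, h1]
    have h5 : (j : ℕ) = j' := by
      rw [h4] at h1
      exact Nat.add_left_cancel h1
    exact Prod.ext (Fin.ext h4) (Fin.ext h5)
  have h1 := frac_inj _ hinj (fun u => p (Function.curry u))
  have h2 := frac_equiv (Equiv.curry (Fin M) (Fin n) Bool) p
  exact h1.trans h2

section

variable {mm : ℕ → ℕ} (Φ : Lib mm) (c : Cst) (x : InT.den) (A0 : CooT.den) (b : VecT.den)
  (A : Matrix (Fin x.1.1) (Fin x.1.1) ℝ) (xs : Fin x.1.1 → ℝ) (sg sn : ℝ)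

/-- the value of the first ridge -/
theorem T15_lam0 (g : GT.den) (hg : GOK c x A0 g) (hW : pM c x * x.1.1 ≤ pW c x)
    (w : Fin (pW c x) → Bool) :
    topLam Φ (pM c x) (gE g) (Φ.sgns ((pM c x, x.1.1), bw w)) =
      16 * ∑ i, ∑ r, (∑ j, En x g i j * sgn (T15G hW w r j)) ^ 2 := by
  rw [T15_top Φ (gE g) hg.ok x.1.1 (pM c x) hg.dim, ← T15_swap, Finset.sum_range]
  congr 1
  refine Finset.sum_congr rfl fun r _ => ?_
  congr 2
  funext j
  change Φ.sgns ((pM c x, x.1.1), bw w) r j = _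
  rw [Φ.sgns_eq _ _ _ r r.2 j j.2, T15_bits hW]

theorem T15_M (hc : Big c) :
    50 * ((Nat.log2 x.1.1 : ℝ) + 2 + 1 / (1 / (pl c x : ℝ) ^ 5)) ≤ (pM c x : ℝ) := by
  have hl : 10 ^ 6 ≤ pl c x := hc.c1.trans (Nat.le_add_left _ _)
  have hlr : (10 ^ 6 : ℝ) ≤ pl c x := by exact_mod_cast hl
  have h1 : (Nat.log2 x.1.1 : ℝ) ≤ pl c x := by
    exact_mod_cast (Nat.le_add_right _ _ : Nat.log2 x.1.1 ≤ Nat.log2 x.1.1 + c.c1)
  have h2 : (pM c x : ℝ) = (pl c x : ℝ) ^ 6 := by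
    unfold pM
    push_cast
    rfl
  have hl1 : (1 : ℝ) ≤ pl c x := le_trans (by norm_num) hlr
  have h3 : (pl c x : ℝ) ≤ (pl c x : ℝ) ^ 5 := by
    calc (pl c x : ℝ) = (pl c x : ℝ) ^ 1 := (pow_one _).symm
      _ ≤ (pl c x : ℝ) ^ 5 := pow_le_pow_right₀ hl1 (by norm_num)
  rw [h2, one_div_one_div]
  calc 50 * ((Nat.log2 x.1.1 : ℝ) + 2 + (pl c x : ℝ) ^ 5)
      ≤ 50 * ((pl c x : ℝ) ^ 5 + (pl c x : ℝ) ^ 5 + (pl c x : ℝ) ^ 5) := by
        have : (2 : ℝ) ≤ (pl c x : ℝ) ^ 5 := le_trans (le_trans (by norm_num) hlr) h3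
        gcongr
        exact h1.trans h3
    _ = 150 * (pl c x : ℝ) ^ 5 := by ring
    _ ≤ (pl c x : ℝ) * (pl c x : ℝ) ^ 5 := by
        gcongr
        exact le_trans (by norm_num) hlr
    _ = (pl c x : ℝ) ^ 6 := by ring

/-- the deterministic part -/
theorem T15_det (hc : Big c) (g : GT.den) (hs : Setup1 Φ c x A0 g A xs sg sn)
    (hb : toV x.1.1 g.2.2.2 ≠ 0) (hW : pM c x * x.1.1 ≤ pW c x) (w : Fin (pW c x) → Bool)
    (hG : ∀ i, sq (En x g i) / 2 ≤ ∑ r, (∑ j, En x g i j * sgn (T15G hW w r j)) ^ 2 ∧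
      ∑ r, (∑ j, En x g i j * sgn (T15G hW w r j)) ^ 2 ≤ (pM c x : ℝ) ^ 3 * sq (En x g i)) :
    Setup Φ c x A0 (gl3 Φ c x g (bw w)) A xs sg sn := by
  have hg := hs.gok
  have hlam0 := T15_lam0 Φ c x A0 g hg hW w
  obtain ⟨L, hL⟩ : ∃ L, L = topLam Φ (pM c x) (gE g) (Φ.sgns ((pM c x, x.1.1), bw w)) :=
    ⟨_, rfl⟩
  rw [← hL] at hlam0
  have hlo : 8 * T15F (En x g) ≤ L := by
    have : T15F (En x g) / 2 ≤
        ∑ i, ∑ r, (∑ j, En x g i j * sgn (T15G hW w r j)) ^ 2 := by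
      unfold T15F
      rw [Finset.sum_div]
      exact Finset.sum_le_sum fun i _ => (hG i).1
    rw [hlam0]
    linarith
  have hhi : L ≤ 16 * (pl c x : ℝ) ^ 18 * T15F (En x g) := by
    have : ∑ i, ∑ r, (∑ j, En x g i j * sgn (T15G hW w r j)) ^ 2 ≤
        (pM c x : ℝ) ^ 3 * T15F (En x g) := by
      unfold T15F
      rw [Finset.mul_sum]
      exact Finset.sum_le_sum fun i _ => (hG i).2
    have h2 : (pM c x : ℝ) ^ 3 = (pl c x : ℝ) ^ 18 := by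
      unfold pM
      push_cast
      ring
    rw [h2] at this
    rw [hlam0]
    linarith
  have hFpos : 0 < T15F (En x g) := T15_F_pos _ xs (by rw [← hs.bp]; exact hb)
  have hLpos : 0 < L := lt_of_lt_of_le (by linarith) hlo
  have hn : (x.1.1 : ℝ) ≤ 2 ^ pl c x := by
    have h1 : x.1.1 < 2 ^ (Nat.log2 x.1.1 + 1) := Nat.lt_log2_self
    have h2 : 2 ^ (Nat.log2 x.1.1 + 1) ≤ 2 ^ pl c x := by
      refine Nat.pow_le_pow_right (by norm_num) (Nat.add_le_add_left ?_ _)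
      exact le_trans (by norm_num) hc.c1
    exact_mod_cast (h1.le.trans h2)
  have hKinv : (0 : ℝ) ≤ (pK c x : ℝ)⁻¹ := by positivity
  -- the ridges
  have hgl1 : ∀ i, gLam (gl3 Φ c x g (bw w)) i = tabV .real (pl c x ^ 3 + 2) (fun i =>
      topLam Φ (pM c x) (gE g) (Φ.sgns ((pM c x, x.1.1), bw w)) * ((pK c x : ℝ)⁻¹) ^ i) i :=
    fun i => rfl
  have hgl : ∀ i, i < pl c x ^ 3 + 2 →
      gLam (gl3 Φ c x g (bw w)) i = L * ((pK c x : ℝ)⁻¹) ^ i := by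
    intro i hi
    rw [hL, hgl1, tabV_lt hi]
  have hgl' : ∀ i, pl c x ^ 3 + 2 ≤ i → gLam (gl3 Φ c x g (bw w)) i = 0 := by
    intro i hi
    rw [hgl1, tabV_ge hi]
    rfl
  have hgl0 : gLam (gl3 Φ c x g (bw w)) 0 = L := by
    rw [hgl 0 (by positivity), pow_zero, mul_one]
  have hgok : GOK c x A0 (gl3 Φ c x g (bw w)) := by
    refine ⟨hg.hP, hg.hQ, hg.dim, hg.ok, hg.mid, hg.lst, hg.Aok, hg.len, hg.row, hg.col,
      hg.hT, hg.hS, fun i => ?_, fun i hi => ?_⟩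
    · rcases Nat.lt_or_ge i (pl c x ^ 3 + 2) with hi | hi
      · rw [hgl i hi]
        positivity
      · rw [hgl' i hi]
    · rw [hgl i hi, hgl0]
  refine ⟨⟨hgok, hs.simple, hs.matA, hs.lowA, hs.sn_pos, hs.sg_pos, hs.sg_le, hs.h1, hs.h2,
    hs.h3, hs.h4, hs.h5, hs.h6, hs.head, hs.up, hs.low, hs.bp, hs.outx⟩, ?_, ?_, ?_⟩
  · rw [hgl0]
    exact hLpos
  · intro v
    rw [hgl0]
    have h1 := T15_F_lo (En x g) v
    have h2 : 0 ≤ sq v := by
      unfold sq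
      positivity
    change 8 * sq (En x g *ᵥ v) ≤ L * sq v
    calc 8 * sq (En x g *ᵥ v) ≤ 8 * (T15F (En x g) * sq v) := by linarith
      _ = (8 * T15F (En x g)) * sq v := by ring
      _ ≤ L * sq v := mul_le_mul_of_nonneg_right hlo h2
  · rw [hgl0]
    have h1 := T15_F_hi (En x g) (4 ^ (pl c x ^ 3) * sg) hs.up
    have hsg := hs.sg_pos
    have h2 : (x.1.1 : ℝ) * (4 ^ (pl c x ^ 3) * sg) ≤ 2 ^ pl c x * (4 ^ (pl c x ^ 3) * sg) :=
      mul_le_mul_of_nonneg_right hn (by positivity)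
    calc L ≤ 16 * (pl c x : ℝ) ^ 18 * T15F (En x g) := hhi
      _ ≤ 16 * (pl c x : ℝ) ^ 18 * (2 ^ pl c x * (4 ^ (pl c x ^ 3) * sg)) :=
          mul_le_mul_of_nonneg_left (h1.trans h2) (by positivity)
      _ = 16 * (pl c x : ℝ) ^ 18 * 2 ^ pl c x * 4 ^ (pl c x ^ 3) * sg := by ring

theorem top_frac (hc : Big c) (g : GT.den) (hs : Setup1 Φ c x A0 g A xs sg sn)
    (hb : toV x.1.1 g.2.2.2 ≠ 0) :
    frac (fun w : Fin (pW c x) → Bool =>
      ¬ Setup Φ c x A0 (gl3 Φ c x g (bw w)) A xs sg sn) ≤ 1 / (pl c x : ℝ) ^ 5 := by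
  have hl : 10 ^ 6 ≤ pl c x := hc.c1.trans (Nat.le_add_left _ _)
  have hl0 : 0 < pl c x := lt_of_lt_of_le (by norm_num) hl
  have hl1 : (1 : ℝ) ≤ pl c x := by exact_mod_cast hl0
  have hW : pM c x * x.1.1 ≤ pW c x := by
    unfold pM pW
    rw [mul_comm]
    exact Nat.mul_le_mul_left _ (Nat.pow_le_pow_right hl0 (by norm_num))
  have hδ : (0 : ℝ) < 1 / (pl c x : ℝ) ^ 5 := by positivity
  have hδ1 : 1 / (pl c x : ℝ) ^ 5 ≤ 1 := by
    rw [div_le_one (by positivity)]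
    exact one_le_pow₀ hl1
  have hjl := jL x.1.1 x.1.1 (pM c x) (En x g) (1 / (pl c x : ℝ) ^ 5) hδ hδ1 (T15_M c x hc)
  rw [← T15_frac hW] at hjl
  exact le_trans (frac_mono fun w hw hG => hw (T15_det Φ c x A0 A xs sg sn hc g hs hb hW w hG))
    hjl

end

end A56
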